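import Pool.Agent.Lib.PolyTime.Rat
import Pool.Agent.P.MP_158ebf_lc.Defs

-- part Pool.Agent.P.MP_158ebf_lc.Tree
section

/-! Expected value of a payoff at the leaves of an adaptive query tree. -/

namespace Pool.Agent.P.MP_158ebf_lc

open Function Pool.Agent.Lib.PolyTime

/-- Assignments of probabilities to strings. -/
abbrev Pr := Str → ℚ

/-- Expected payoff `T` after `j` adaptive queries chosen by `Q`, when the unknown bits are
independent with probabilities `p`. -/
def V : ℕ → (Str → Str) → (Pr → Str → ℚ) → Pr → ℚ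
  | 0, _, T, p => T p []
  | j + 1, Q, T, p =>
    p (Q []) * V j (fun a => Q (true :: a)) (fun p a => T p (true :: a)) (update p (Q []) 1) +
    (1 - p (Q [])) * V j (fun a => Q (false :: a)) (fun p a => T p (false :: a))
      (update p (Q []) 0)

/-- `F` is affine in every coordinate. -/
def Aff (F : Pr → ℚ) : Prop :=
  ∀ p z, F p = p z * F (update p z 1) + (1 - p z) * F (update p z 0)

theorem aff_V (j : ℕ) : ∀ (Q : Str → Str) (T : Pr → Str → ℚ), (∀ a, Aff fun p => T p a) →
    Aff (V j Q T) := by
  induction j with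
  | zero => intro Q T hT p z; exact hT [] p z
  | succ j ih =>
    intro Q T hT p z
    have h1 := ih (fun a => Q (true :: a)) (fun p a => T p (true :: a)) fun a => hT _
    have h0 := ih (fun a => Q (false :: a)) (fun p a => T p (false :: a)) fun a => hT _
    simp only [V]
    by_cases h : z = Q []
    · subst h
      simp
    · rw [h1 (update p (Q []) 1) z, h0 (update p (Q []) 0) z]
      simp only [update_of_ne h, update_of_ne (Ne.symm h), update_comm h]
      ring

/-- All values lie in `[0,1]`. -/
def Unit01 (p : Pr) : Prop := ∀ y, 0 ≤ p y ∧ p y ≤ 1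

theorem Unit01.update {p : Pr} (hp : Unit01 p) (y : Str) {v : ℚ} (h0 : 0 ≤ v) (h1 : v ≤ 1) :
    Unit01 (update p y v) := by
  intro z
  by_cases h : z = y
  · subst h; simp [h0, h1]
  · rw [update_of_ne h]; exact hp z

theorem V_nonneg (j : ℕ) : ∀ (Q : Str → Str) (T : Pr → Str → ℚ),
    (∀ p a, Unit01 p → 0 ≤ T p a) → ∀ p, Unit01 p → 0 ≤ V j Q T p := by
  induction j with
  | zero => intro Q T hT p hp; exact hT p [] hp
  | succ j ih =>
    intro Q T hT p hp
    have h1 := ih (fun a => Q (true :: a)) (fun p a => T p (true :: a)) (fun p a => hT p _) _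
      (hp.update (Q []) zero_le_one le_rfl)
    have h0 := ih (fun a => Q (false :: a)) (fun p a => T p (false :: a)) (fun p a => hT p _) _
      (hp.update (Q []) le_rfl zero_le_one)
    have := hp (Q [])
    simp only [V]
    exact add_nonneg (mul_nonneg this.1 h1) (mul_nonneg (by linarith) h0)

/-- Potential-function bound for `V`. -/
theorem V_le {U : Type} (I : ℕ → Pr → U → Prop) (Φ : Pr → U → ℚ) (ε : ℚ)
    (hI : ∀ j p u, I j p u → Unit01 p)
    (step : ∀ j p u y, I (j + 1) p u → ∃ u', I j (update p y 1) u' ∧ I j (update p y 0) u' ∧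
      p y * Φ (update p y 1) u' + (1 - p y) * Φ (update p y 0) u' ≤ Φ p u + ε) (j : ℕ) :
    ∀ (Q : Str → Str) (T : Pr → Str → ℚ), (∀ p a u, I 0 p u → T p a ≤ Φ p u) →
      ∀ p u, I j p u → V j Q T p ≤ Φ p u + j * ε := by
  induction j with
  | zero => intro Q T hT p u h; simpa [V] using hT p [] u h
  | succ j ih =>
    intro Q T hT p u h
    obtain ⟨u', i1, i0, hΦ⟩ := step j p u (Q []) h
    have h1 := ih (fun a => Q (true :: a)) (fun p a => T p (true :: a))
      (fun p a => hT p _) _ u' i1
    have h0 := ih (fun a => Q (false :: a)) (fun p a => T p (false :: a))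
      (fun p a => hT p _) _ u' i0
    have := hI _ _ _ h (Q [])
    have e1 := mul_le_mul_of_nonneg_left h1 this.1
    have e0 := mul_le_mul_of_nonneg_left h0 (sub_nonneg.2 this.2)
    simp only [V]
    push_cast
    nlinarith

/-- The answers of the oracle `A` to the first `j` queries. -/
def path (A : Str → Bool) (Q : Str → Str) : ℕ → Str
  | 0 => []
  | j + 1 => path A Q j ++ [A (Q (path A Q j))]

theorem path_succ' (A : Str → Bool) (Q : Str → Str) (j : ℕ) :
    path A Q (j + 1) = A (Q []) :: path A (fun a => Q (A (Q []) :: a)) j := by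
  induction j with
  | zero => rfl
  | succ j ih => rw [path, ih]; rfl

theorem length_path (A : Str → Bool) (Q : Str → Str) (j : ℕ) : (path A Q j).length = j := by
  induction j with
  | zero => rfl
  | succ j ih => simp [path, ih]

/-- The probability `0` or `1` of a known bit. -/
def bv (b : Bool) : ℚ := bif b then 1 else 0

theorem V_known (A : Str → Bool) (j : ℕ) : ∀ (Q : Str → Str) (T : Pr → Str → ℚ) (p : Pr),
    (∀ i < j, p (Q (path A Q i)) = bv (A (Q (path A Q i)))) → V j Q T p = T p (path A Q j) := by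
  induction j with
  | zero => intro Q T p _; rfl
  | succ j ih =>
    intro Q T p h
    have h0 : p (Q []) = bv (A (Q [])) := h 0 (by omega)
    have h1 := ih (fun a => Q (A (Q []) :: a)) (fun p a => T p (A (Q []) :: a)) p fun i hi => by
      have := h (i + 1) (by omega)
      rwa [path_succ'] at this
    rw [path_succ', ← h1, V]
    rcases hA : A (Q []) with _ | _
    · rw [hA] at h0
      have h0' : p (Q []) = 0 := h0
      rw [← h0', update_eq_self, h0']; simp
    · rw [hA] at h0
      have h0' : p (Q []) = 1 := h0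
      conv_lhs => rw [← h0', update_eq_self, h0']
      simp

/-! ### Closed form on association lists -/

/-- Probability of a string given a list of known bits. -/
def look (ρ : List (Str × Bool)) (y : Str) : ℚ :=
  ((ρ.filter fun e => e.1 == y).map fun e => bv e.2).headD (1 / 2)

theorem look_cons (ρ : List (Str × Bool)) (z : Str) (b : Bool) :
    look ((z, b) :: ρ) = update (look ρ) z (bv b) := by
  funext y
  by_cases h : y = z
  · subst h; simp [look]
  · rw [update_of_ne h]; simp [look, Ne.symm h]

theorem look_unit (ρ : List (Str × Bool)) : Unit01 (look ρ) := by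
  induction ρ with
  | nil => intro y; simp [look]; norm_num
  | cons e ρ ih =>
    obtain ⟨z, b⟩ := e
    rw [look_cons]
    cases b
    · exact ih.update z le_rfl zero_le_one
    · exact ih.update z zero_le_one le_rfl

theorem look_of_not_mem {ρ : List (Str × Bool)} {y : Str} (h : ∀ e ∈ ρ, e.1 ≠ y) :
    look ρ y = 1 / 2 := by
  have : (ρ.filter fun e => e.1 == y) = [] := by simpa [List.filter_eq_nil_iff] using h
  simp [look, this]

theorem look_concat {ρ : List (Str × Bool)} {z : Str} (h : ∀ e ∈ ρ, e.1 ≠ z) (b : Bool) :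
    look (ρ ++ [(z, b)]) = update (look ρ) z (bv b) := by
  funext y
  by_cases hy : y = z
  · subst hy
    have : (ρ.filter fun e => e.1 == y) = [] := by simpa [List.filter_eq_nil_iff] using h
    simp [look, this]
  · rw [update_of_ne hy]; simp [look, Ne.symm hy]

/-- Known bits after the first `j` answers of `a`. -/
def rho (Q : Str → Str) (ρ : List (Str × Bool)) (a : Str) (j : ℕ) : List (Str × Bool) :=
  ((List.range j).map fun i => (Q (a.take i), a.getD i false)).reverse ++ ρ

/-- Probability of the answer sequence `a`. -/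
def wt (Q : Str → Str) (ρ : List (Str × Bool)) (a : Str) : ℚ :=
  ((List.range a.length).map fun j => bif a.getD j false then look (rho Q ρ a j) (Q (a.take j))
    else 1 - look (rho Q ρ a j) (Q (a.take j))).prod

theorem rho_cons (Q : Str → Str) (ρ : List (Str × Bool)) (b : Bool) (a : Str) (j : ℕ) :
    rho Q ρ (b :: a) (j + 1) = rho (fun a => Q (b :: a)) ((Q [], b) :: ρ) a j := by
  simp [rho, List.range_succ_eq_map, Function.comp_def]

theorem wt_cons (Q : Str → Str) (ρ : List (Str × Bool)) (b : Bool) (a : Str) :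
    wt Q ρ (b :: a) = (bif b then look ρ (Q []) else 1 - look ρ (Q [])) *
      wt (fun a => Q (b :: a)) ((Q [], b) :: ρ) a := by
  simp only [wt, List.length_cons, List.range_succ_eq_map, List.map_cons, List.map_map,
    List.prod_cons, Function.comp_def, Nat.succ_eq_add_one, rho_cons]
  simp [rho]

theorem sum_allStr_succ (n : ℕ) (f : Str → ℚ) : ((allStr (n + 1)).map f).sum =
    ((allStr n).map fun a => f (true :: a)).sum + ((allStr n).map fun a => f (false :: a)).sum := by
  rw [allStr_succ]
  induction allStr n with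
  | nil => simp
  | cons x l ih => simp only [List.flatMap_cons, List.map_append, List.sum_append, ih]; simp; ring

theorem V_closed (j : ℕ) : ∀ (Q : Str → Str) (T : Pr → Str → ℚ) (ρ : List (Str × Bool)),
    V j Q T (look ρ) = ((allStr j).map fun a => wt Q ρ a * T (look (rho Q ρ a j)) a).sum := by
  induction j with
  | zero => intro Q T ρ; simp [V, allStr, wt, rho]
  | succ j ih =>
    intro Q T ρ
    have e1 : update (look ρ) (Q []) 1 = look ((Q [], true) :: ρ) := (look_cons ρ _ true).symm
    have e0 : update (look ρ) (Q []) 0 = look ((Q [], false) :: ρ) := (look_cons ρ _ false).symm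
    rw [V, e1, e0, ih, ih, sum_allStr_succ, ← List.sum_map_mul_left, ← List.sum_map_mul_left]
    simp only [wt_cons, rho_cons, cond_true, cond_false, mul_assoc]

/-! ### Multi-affine functions -/

/-- `F` is affine in each coordinate and depends only on the coordinates in `S`. -/
def AffOn (S : Set Str) (F : Pr → ℚ) : Prop :=
  Aff F ∧ ∀ p z v, z ∉ S → F (update p z v) = F p

theorem AffOn.mono {S S' : Set Str} {F : Pr → ℚ} (h : AffOn S F) (hS : S ⊆ S') : AffOn S' F :=
  ⟨h.1, fun p z v hz => h.2 p z v fun h' => hz (hS h')⟩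

theorem affOn_const (S : Set Str) (c : ℚ) : AffOn S fun _ => c :=
  ⟨fun p z => by ring, fun _ _ _ _ => rfl⟩

theorem affOn_coord (y : Str) : AffOn {y} fun p => p y := by
  refine ⟨fun p z => ?_, fun p z v hz => update_of_ne (Ne.symm hz) _ _⟩
  by_cases h : y = z
  · subst h; simp
  · simp only [update_of_ne h]; ring

theorem AffOn.one_sub {S : Set Str} {F : Pr → ℚ} (h : AffOn S F) : AffOn S fun p => 1 - F p :=
  ⟨fun p z => by simp only; rw [h.1 p z]; ring, fun p z v hz => by simp only [h.2 p z v hz]⟩

theorem AffOn.mul {S S' : Set Str} {F G : Pr → ℚ} (hF : AffOn S F) (hG : AffOn S' G)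
    (hd : Disjoint S S') : AffOn (S ∪ S') fun p => F p * G p := by
  refine ⟨fun p z => ?_, fun p z v hz => ?_⟩
  · by_cases h : z ∈ S'
    · have h' : z ∉ S := fun h' => Set.disjoint_left.1 hd h' h
      simp only [hF.2 p z _ h']
      rw [hG.1 p z]; ring
    · simp only [hG.2 p z _ h]
      rw [hF.1 p z]; ring
  · simp only [Set.mem_union, not_or] at hz
    simp only [hF.2 p z v hz.1, hG.2 p z v hz.2]

theorem affOn_prod {ι : Type} (S : ι → Set Str) (S₀ : Set Str) (F : ι → Pr → ℚ) (l : List ι)
    (hl : l.Nodup) (h : ∀ i ∈ l, AffOn (S i) (F i)) (hS : ∀ i ∈ l, S i ⊆ S₀)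
    (hd : ∀ i ∈ l, ∀ j ∈ l, i ≠ j → Disjoint (S i) (S j)) :
    AffOn S₀ fun p => (l.map fun i => F i p).prod := by
  have : AffOn {y | ∃ i ∈ l, y ∈ S i} fun p => (l.map fun i => F i p).prod := by
    induction l with
    | nil => simpa using affOn_const _ 1
    | cons i l ih =>
      rw [List.nodup_cons] at hl
      have := (h i (by simp)).mul (ih hl.2 (fun j hj => h j (by simp [hj]))
        (fun j hj => hS j (by simp [hj])) fun j hj k hk => hd j (by simp [hj]) k (by simp [hk]))
        (Set.disjoint_left.2 fun y h1 ⟨j, hj, h2⟩ => Set.disjoint_left.1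
          (hd i (by simp) j (by simp [hj]) fun e => hl.1 (e ▸ hj)) h1 h2)
      simp only [List.map_cons, List.prod_cons]
      refine this.mono ?_
      rintro y (h1 | ⟨j, hj, h1⟩)
      · exact ⟨i, by simp, h1⟩
      · exact ⟨j, by simp [hj], h1⟩
  exact this.mono fun y ⟨i, hi, hy⟩ => hS i hi hy

theorem aff_list_sum {ι : Type} (F : ι → Pr → ℚ) (l : List ι) (h : ∀ i ∈ l, Aff (F i)) :
    Aff fun p => (l.map fun i => F i p).sum := by
  intro p z
  induction l with
  | nil => simp
  | cons i l ih =>
    simp only [List.map_cons, List.sum_cons]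
    rw [h i (by simp) p z]
    have := ih fun j hj => h j (by simp [hj])
    simp only at this
    rw [this]; ring

end Pool.Agent.P.MP_158ebf_lc
end

-- part Pool.Agent.P.MP_158ebf_lc.Tribes
section

/-! The tribes (Bennett-Gill) function and the bound on the success probability of query trees. -/

namespace Pool.Agent.P.MP_158ebf_lc

open Function Pool.Agent.Lib.PolyTime

/-- The `z`-th member of tribe `y` of the instance `x`. -/
def str (r : ℕ) (x y : Str) (z : ℕ) : Str :=
  x ++ (y ++ (List.replicate z true ++ List.replicate (r - z) false))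

theorem length_str {r z : ℕ} (x y : Str) (hz : z ≤ r) :
    (str r x y z).length = x.length + y.length + r := by
  simp [str]; omega

theorem str_inj {r z z' : ℕ} {x x' y y' : Str} (hx : x.length = x'.length)
    (hy : y.length = y'.length) (h : str r x y z = str r x' y' z') : x = x' ∧ y = y' ∧ z = z' := by
  obtain ⟨h1, h2⟩ := List.append_inj h hx
  obtain ⟨h3, h4⟩ := List.append_inj h2 hy
  have := congrArg (List.count true) h4
  simp [List.count_replicate] at this
  exact ⟨h1, h3, this⟩

variable (t r : ℕ)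

/-- Probability that tribe `y` of `x` is unanimous. -/
def sig (p : Pr) (x y : Str) : ℚ := ((List.range t).map fun z => p (str r x y z)).prod

/-- Probability that no tribe of `x` is unanimous. -/
def noT (p : Pr) (x : Str) : ℚ := ((allStr t).map fun y => 1 - sig t r p x y).prod

/-- Probability that the tribes function of `x` equals `b`. -/
def tau (p : Pr) (x : Str) (b : Bool) : ℚ := bif b then 1 - noT t r p x else noT t r p x

/-- Probability that the tribes functions of `X 0, …, X (s-1)` take the values `o`. -/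
def allT (s : ℕ) (X : ℕ → Str) (o : ℕ → Bool) (p : Pr) : ℚ :=
  ((List.range s).map fun a => tau t r p (X a) (o a)).prod

theorem affOn_sig (x y : Str) : AffOn {u | ∃ z, u = str r x y z} fun p => sig t r p x y :=
  affOn_prod (fun z => {str r x y z}) _ (fun z p => p (str r x y z)) _ List.nodup_range
    (fun _ _ => affOn_coord _) (fun z _ _ hu => ⟨z, hu⟩)
    fun _ _ _ _ h => Set.disjoint_singleton.2 fun e => h (str_inj rfl rfl e).2.2

theorem affOn_noT (x : Str) : AffOn {u | u.take x.length = x} fun p => noT t r p x :=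
  affOn_prod (fun y => {u | ∃ z, u = str r x y z}) _ (fun y p => 1 - sig t r p x y) _
    (nodup_allStr t) (fun y _ => (affOn_sig t r x y).one_sub)
    (fun y _ u ⟨z, hu⟩ => by simp [hu, str])
    fun y hy y' hy' h => Set.disjoint_left.2 fun u ⟨z, e⟩ ⟨z', e'⟩ =>
      h (str_inj rfl (by rw [mem_allStr.1 hy, mem_allStr.1 hy']) (e.symm.trans e')).2.1

theorem affOn_tau (x : Str) (b : Bool) :
    AffOn {u | u.take x.length = x} fun p => tau t r p x b := by
  cases b
  · exact affOn_noT t r x
  · exact (affOn_noT t r x).one_sub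

theorem aff_allT {s n : ℕ} {X : ℕ → Str} (hX : ∀ a < s, (X a).length = n)
    (hinj : ∀ a < s, ∀ b < s, X a = X b → a = b) (o : ℕ → Bool) : Aff (allT t r s X o) :=
  (affOn_prod (fun a => {u | u.take (X a).length = X a}) Set.univ
    (fun a p => tau t r p (X a) (o a)) _ List.nodup_range (fun _ _ => affOn_tau t r _ _)
    (fun _ _ => Set.subset_univ _) fun a ha b hb h => Set.disjoint_left.2 fun u h1 h2 => by
      rw [List.mem_range] at ha hb
      simp only [Set.mem_ofPred_eq, hX a ha, hX b hb] at h1 h2
      exact h (hinj a ha b hb (h1.symm.trans h2))).1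

theorem list_prod_unit {ι : Type} (l : List ι) (f : ι → ℚ) (h : ∀ i ∈ l, 0 ≤ f i ∧ f i ≤ 1) :
    0 ≤ (l.map f).prod ∧ (l.map f).prod ≤ 1 := by
  induction l with
  | nil => simp
  | cons i l ih =>
    have h1 := h i (by simp)
    have h2 := ih fun j hj => h j (by simp [hj])
    simp only [List.map_cons, List.prod_cons]
    exact ⟨mul_nonneg h1.1 h2.1, mul_le_one₀ h1.2 h2.1 h2.2⟩

variable {t r}

theorem sig_unit {p : Pr} (hp : Unit01 p) (x y : Str) :
    0 ≤ sig t r p x y ∧ sig t r p x y ≤ 1 := list_prod_unit _ _ fun _ _ => hp _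

theorem noT_unit {p : Pr} (hp : Unit01 p) (x : Str) : 0 ≤ noT t r p x ∧ noT t r p x ≤ 1 :=
  list_prod_unit _ _ fun y _ => by
    have := sig_unit (t := t) (r := r) hp x y
    constructor <;> linarith

theorem tau_unit {p : Pr} (hp : Unit01 p) (x : Str) (b : Bool) :
    0 ≤ tau t r p x b ∧ tau t r p x b ≤ 1 := by
  have := noT_unit (t := t) (r := r) hp x
  cases b
  · exact this
  · simp only [tau, cond_true]; constructor <;> linarith

theorem allT_nonneg {p : Pr} (hp : Unit01 p) (s : ℕ) (X : ℕ → Str) (o : ℕ → Bool) :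
    0 ≤ allT t r s X o p := (list_prod_unit _ _ fun _ _ => tau_unit hp _ _).1

theorem one_sub_sum_le_prod {ι : Type} (s : Finset ι) (f : ι → ℚ) (h : ∀ i, 0 ≤ f i ∧ f i ≤ 1) :
    1 - ∑ i ∈ s, f i ≤ ∏ i ∈ s, (1 - f i) := by
  classical
  induction s using Finset.induction_on with
  | empty => simp
  | insert a s ha ih =>
    rw [Finset.sum_insert ha, Finset.prod_insert ha]
    have h1 : 0 ≤ ∑ i ∈ s, f i := Finset.sum_nonneg fun i _ => (h i).1
    have := h a
    nlinarith

theorem half_pow_bounds {t : ℕ} (ht : 1 ≤ t) :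
    (1 - (1 / 2 : ℚ) ^ t) ^ 2 ^ (t - 1) ≤ 3 / 4 ∧ 1 / 4 ≤ (1 - (1 / 2 : ℚ) ^ t) ^ 2 ^ t := by
  obtain ⟨u, rfl⟩ := Nat.exists_eq_add_of_le' ht
  simp only [Nat.add_sub_cancel]
  set e : ℚ := (1 / 2) ^ (u + 1) with he
  have he0 : 0 < e := by positivity
  have he1 : e ≤ 1 / 2 := by
    rw [he, pow_succ]
    have : (1 / 2 : ℚ) ^ u ≤ 1 := pow_le_one₀ (by norm_num) (by norm_num)
    linarith
  have hN : ((2 ^ u : ℕ) : ℚ) * e = 1 / 2 := by
    rw [he, pow_succ]; push_cast
    rw [← mul_assoc, ← mul_pow]; norm_num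
  have h1 : 1 / 2 ≤ (1 - e) ^ 2 ^ u := by
    have := one_add_mul_le_pow (a := -e) (by linarith) (2 ^ u)
    rw [mul_neg, hN] at this
    linarith [this, show 1 + -e = 1 - e by ring, sub_eq_add_neg (1 : ℚ) e ▸ this]
  constructor
  · have h2 := one_add_mul_le_pow (a := e) (by linarith) (2 ^ u)
    rw [hN] at h2
    have h3 : (1 - e) ^ 2 ^ u * (1 + e) ^ 2 ^ u ≤ 1 := by
      rw [← mul_pow]
      exact pow_le_one₀ (by nlinarith) (by nlinarith)
    nlinarith
  · rw [pow_succ 2 u, pow_mul]
    nlinarith

/-- All tribes outside `U` are untouched. -/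
def Fresh (n t r : ℕ) (p : Pr) (U : Finset (Str × Str)) : Prop :=
  ∀ x y z, x.length = n → y.length = t → z < t → (x, y) ∉ U → p (str r x y z) = 1 / 2

theorem sig_fresh {n : ℕ} {p : Pr} {U : Finset (Str × Str)} (h : Fresh n t r p U) {x y : Str}
    (hx : x.length = n) (hy : y.length = t) (hU : (x, y) ∉ U) : sig t r p x y = (1 / 2) ^ t := by
  unfold sig
  rw [List.map_congr_left (g := fun _ => (1 / 2 : ℚ))
    fun z hz => h x y z hx hy (List.mem_range.1 hz) hU]
  simp

theorem tau_le {n : ℕ} {p : Pr} {U : Finset (Str × Str)} (ht : 1 ≤ t) (hp : Unit01 p)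
    (h : Fresh n t r p U) (hU : U.card ≤ 2 ^ (t - 1)) {x : Str} (hx : x.length = n) (b : Bool) :
    tau t r p x b ≤ 3 / 4 + ∑ u ∈ U, sig t r p u.1 u.2 := by
  classical
  set Y := (allStr t).toFinset with hY
  have hcard : Y.card = 2 ^ t := by
    rw [hY, List.toFinset_card_of_nodup (nodup_allStr t), length_allStr]
  have e1 : noT t r p x = ∏ y ∈ Y, (1 - sig t r p x y) := by
    rw [hY, List.prod_toFinset _ (nodup_allStr t)]; rfl
  have e2 : ∏ y ∈ Y with (x, y) ∉ U, (1 - sig t r p x y) =
      (1 - (1 / 2 : ℚ) ^ t) ^ (Y.filter fun y => (x, y) ∉ U).card := by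
    rw [← Finset.prod_const]
    refine Finset.prod_congr rfl fun y hy => ?_
    rw [Finset.mem_filter, hY, List.mem_toFinset, mem_allStr] at hy
    rw [sig_fresh h hx hy.1 hy.2]
  have hinj : Set.InjOn (fun y => (x, y)) ((Y.filter fun y => (x, y) ∈ U : Finset Str) : Set Str) :=
    fun _ _ _ _ e => (Prod.ext_iff.1 e).2
  have hsub : (Y.filter fun y => (x, y) ∈ U).image (fun y => (x, y)) ⊆ U := by
    intro u hu
    obtain ⟨y, hy, rfl⟩ := Finset.mem_image.1 hu
    exact (Finset.mem_filter.1 hy).2
  have hc1 : (Y.filter fun y => (x, y) ∈ U).card ≤ U.card := by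
    rw [← Finset.card_image_of_injOn hinj]; exact Finset.card_le_card hsub
  have hc2 := Finset.card_filter_add_card_filter_not (s := Y) fun y => (x, y) ∈ U
  have hs : ∑ y ∈ Y with (x, y) ∈ U, sig t r p x y ≤ ∑ u ∈ U, sig t r p u.1 u.2 := by
    refine le_trans (le_of_eq ?_) (Finset.sum_le_sum_of_subset_of_nonneg hsub
      fun u _ _ => (sig_unit hp _ _).1)
    rw [Finset.sum_image hinj]
  have hs0 : 0 ≤ ∑ y ∈ Y with (x, y) ∈ U, sig t r p x y :=
    Finset.sum_nonneg fun y _ => (sig_unit hp _ _).1
  have hP1 := one_sub_sum_le_prod (Y.filter fun y => (x, y) ∈ U) (fun y => sig t r p x y)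
    fun y => sig_unit hp x y
  have hP2 : ∏ y ∈ Y with (x, y) ∈ U, (1 - sig t r p x y) ≤ 1 :=
    Finset.prod_le_one (fun y _ => by linarith [(sig_unit (t := t) (r := r) hp x y).2])
      fun y _ => by linarith [(sig_unit (t := t) (r := r) hp x y).1]
  have hP0 : 0 ≤ ∏ y ∈ Y with (x, y) ∈ U, (1 - sig t r p x y) :=
    Finset.prod_nonneg fun y _ => by linarith [(sig_unit (t := t) (r := r) hp x y).2]
  obtain ⟨b1, b2⟩ := half_pow_bounds ht
  have q0 : 0 ≤ 1 - (1 / 2 : ℚ) ^ t := by
    have : (1 / 2 : ℚ) ^ t ≤ 1 := pow_le_one₀ (by norm_num) (by norm_num)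
    linarith
  have q1 : 1 - (1 / 2 : ℚ) ^ t ≤ 1 := by
    have : 0 ≤ (1 / 2 : ℚ) ^ t := by positivity
    linarith
  have hpow : 2 ^ t = 2 ^ (t - 1) + 2 ^ (t - 1) := by
    obtain ⟨u, rfl⟩ := Nat.exists_eq_add_of_le' ht
    simp [pow_succ]; ring
  have c1 := pow_le_pow_of_le_one q0 q1
    (show 2 ^ (t - 1) ≤ (Y.filter fun y => (x, y) ∉ U).card by omega)
  have c2 := pow_le_pow_of_le_one q0 q1
    (show (Y.filter fun y => (x, y) ∉ U).card ≤ 2 ^ t by omega)
  rw [← Finset.prod_filter_mul_prod_filter_not Y fun y => (x, y) ∈ U, e2] at e1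
  cases b
  · simp only [tau, cond_false, e1]
    nlinarith
  · simp only [tau, cond_true, e1]
    nlinarith

theorem prod_le_pow_add {ι : Type} (l : List ι) (f : ι → ℚ) {c S : ℚ} (hc : 0 ≤ c) (hc1 : c ≤ 1)
    (hS : 0 ≤ S) (h : ∀ i ∈ l, 0 ≤ f i ∧ f i ≤ 1 ∧ f i ≤ c + S) :
    (l.map f).prod ≤ c ^ l.length + l.length * S := by
  induction l with
  | nil => simp
  | cons i l ih =>
    have h1 := h i (by simp)
    have h2 := ih fun j hj => h j (by simp [hj])
    have h3 := list_prod_unit l f fun j hj => ⟨(h j (by simp [hj])).1, (h j (by simp [hj])).2.1⟩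
    have h4 : (0 : ℚ) ≤ l.length * S := by positivity
    simp only [List.map_cons, List.prod_cons, List.length_cons, pow_succ]
    push_cast
    nlinarith

/-- A query tree of depth `j` predicts `s` fresh tribes functions only with small probability. -/
theorem V_tribes_le {s n j : ℕ} {X : ℕ → Str} (ht : 1 ≤ t) (hX : ∀ a < s, (X a).length = n)
    (hj : j ≤ 2 ^ (t - 1)) (Q : Str → Str) (o : Str → ℕ → Bool) {p : Pr} (hp : Unit01 p)
    (h : Fresh n t r p ∅) :
    V j Q (fun p a => allT t r s X (o a) p) p ≤ (3 / 4) ^ s + j * (s * (1 / 2) ^ t) := by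
  classical
  have := V_le (U := Finset (Str × Str))
    (fun j p U => Unit01 p ∧ Fresh n t r p U ∧ U.card + j ≤ 2 ^ (t - 1))
    (fun p U => (3 / 4) ^ s + s * ∑ u ∈ U, sig t r p u.1 u.2) (s * (1 / 2) ^ t)
    (fun _ _ _ h => h.1) ?_ j Q (fun p a => allT t r s X (o a) p) ?_ p ∅ ⟨hp, h, by simpa using hj⟩
  · simpa using this
  · rintro j p U w ⟨hp, hF, hc⟩
    have avg : ∀ U' : Finset (Str × Str), p w * ∑ u ∈ U', sig t r (update p w 1) u.1 u.2 +
        (1 - p w) * ∑ u ∈ U', sig t r (update p w 0) u.1 u.2 = ∑ u ∈ U', sig t r p u.1 u.2 := by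
      intro U'
      rw [Finset.mul_sum, Finset.mul_sum, ← Finset.sum_add_distrib]
      exact Finset.sum_congr rfl fun u _ => ((affOn_sig t r u.1 u.2).1 p w).symm
    have hε : (0 : ℚ) ≤ s * (1 / 2) ^ t := by positivity
    by_cases hw : ∃ x y z, x.length = n ∧ y.length = t ∧ z < t ∧ (x, y) ∉ U ∧ w = str r x y z
    · obtain ⟨x, y, z, hx, hy, hz, hU, rfl⟩ := hw
      have hF' : ∀ v, Fresh n t r (update p (str r x y z) v) (insert (x, y) U) := by
        intro v x' y' z' hx' hy' hz' hU'
        rw [Finset.mem_insert, not_or] at hU'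
        rw [update_of_ne, hF x' y' z' hx' hy' hz' hU'.2]
        intro e
        obtain ⟨e1, e2, -⟩ := str_inj (hx'.trans hx.symm) (hy'.trans hy.symm) e
        exact hU'.1 (by rw [e1, e2])
      have hc' : (insert (x, y) U).card + j ≤ 2 ^ (t - 1) := by
        rw [Finset.card_insert_of_notMem hU]; omega
      refine ⟨insert (x, y) U, ⟨hp.update _ zero_le_one le_rfl, hF' _, hc'⟩,
        ⟨hp.update _ le_rfl zero_le_one, hF' _, hc'⟩, ?_⟩
      have h1 := avg (insert (x, y) U)
      rw [Finset.sum_insert hU (f := fun u => sig t r p u.1 u.2), sig_fresh hF hx hy hU] at h1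
      have h2 := congrArg (fun v => (s : ℚ) * v) h1
      nlinarith
    · have hF' : ∀ v, Fresh n t r (update p w v) U := by
        intro v x' y' z' hx' hy' hz' hU'
        rw [update_of_ne, hF x' y' z' hx' hy' hz' hU']
        intro e
        exact hw ⟨x', y', z', hx', hy', hz', hU', e.symm⟩
      refine ⟨U, ⟨hp.update _ zero_le_one le_rfl, hF' _, by omega⟩,
        ⟨hp.update _ le_rfl zero_le_one, hF' _, by omega⟩, ?_⟩
      have h2 := congrArg (fun v => (s : ℚ) * v) (avg U)
      nlinarith
  · rintro p a U ⟨hp, hF, hc⟩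
    have := prod_le_pow_add (List.range s) (fun i => tau t r p (X i) (o a i)) (c := 3 / 4)
      (S := ∑ u ∈ U, sig t r p u.1 u.2) (by norm_num) (by norm_num)
      (Finset.sum_nonneg fun u _ => (sig_unit hp _ _).1) fun i hi =>
        ⟨(tau_unit hp _ _).1, (tau_unit hp _ _).2,
          tau_le ht hp hF (by omega) (hX i (List.mem_range.1 hi)) _⟩
    simpa [allT] using this

/-- On known bits, the tribes probability is the indicator of the tribes function. -/
theorem tau_known {A : Str → Bool} {p : Pr} {x : Str} {b : Bool}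
    (h : ∀ y z, y.length = t → z < t → p (str r x y z) = bv (A (str r x y z)))
    (hb : b = true ↔ ∃ y : Str, y.length = t ∧ ∀ z < t, A (str r x y z) = true) :
    tau t r p x b = 1 := by
  cases b
  · simp only [tau, cond_false, noT]
    refine List.prod_eq_one fun v hv => ?_
    obtain ⟨y, hy, rfl⟩ := List.mem_map.1 hv
    rw [mem_allStr] at hy
    have : ¬ ∀ z < t, A (str r x y z) = true := fun h' => by simpa using hb.2 ⟨y, hy, h'⟩
    push Not at this
    obtain ⟨z, hz, hA⟩ := this
    have : sig t r p x y = 0 := List.prod_eq_zero (List.mem_map.2 ⟨z, List.mem_range.2 hz, by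
      rw [h y z hy hz]; simp [bv, hA]⟩)
    simp [this]
  · obtain ⟨y, hy, hA⟩ := hb.1 rfl
    have h1 : sig t r p x y = 1 := List.prod_eq_one fun v hv => by
      obtain ⟨z, hz, rfl⟩ := List.mem_map.1 hv
      rw [List.mem_range] at hz
      rw [h y z hy hz, hA z hz]; rfl
    have : noT t r p x = 0 :=
      List.prod_eq_zero (List.mem_map.2 ⟨y, mem_allStr.2 hy, by simp [h1]⟩)
    simp [tau, this]

end Pool.Agent.P.MP_158ebf_lc
end

-- part Pool.Agent.P.MP_158ebf_lc.Core
section

/-! The betting strategy against one pair of machines at one input length. -/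

namespace Pool.Agent.P.MP_158ebf_lc

open Function N487b59b3 N68a2faeb Pool.Agent.Lib.PolyTime

/-- Programs of the universal machine. -/
abbrev Code := List (List ℕ)

/-- Basic size parameter. -/
def uu (n l : ℕ) : ℕ := l + n + 2

/-- Length of the strings on which we bet. -/
def mm (n l : ℕ) : ℕ := 3 * uu n l ^ 2 + 13 * uu n l

/-- Padding length. -/
def rr (n l : ℕ) : ℕ := mm n l - n - 6 * uu n l

/-- The `a`-th string of length `n`. -/
def X (n a : ℕ) : Str := (allStr n).getD a []

/-- The joint query function for the instances `X n 0, X n 1, …`. -/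
def jq (e : Code) (n l : ℕ) (h ans : Str) : Str :=
  decStr (urun e (bitEncode (X n (ans.length / l), h, ans.drop (ans.length / l * l)))
    (2 ^ uu n l ^ 2))

/-- The predicted answer for the instance `X n a`. -/
def jo (e : Code) (n l : ℕ) (h ans : Str) (a : ℕ) : Bool :=
  (urun e (bitEncode (X n a, h, (ans.drop (a * l)).take l)) (2 ^ uu n l ^ 2)).headD false

/-- All advice strings of length at most `l`. -/
def advs (l : ℕ) : List Str := (List.range (l + 1)).flatMap allStr

/-- Probability that all predictions with advice `h` are right. -/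
def win (e e' : Code) (n l : ℕ) (h : Str) (p : Pr) : ℚ :=
  V (3 * uu n l * l) (jq e n l h)
    (fun p a => allT (6 * uu n l) (rr n l) (3 * uu n l) (X n) (jo e' n l h a) p) p

/-- Sum of the success probabilities over all advice strings. -/
def core (e e' : Code) (n l : ℕ) (p : Pr) : ℚ := ((advs l).map fun h => win e e' n l h p).sum

theorem length_X {n a : ℕ} (ha : a < 2 ^ n) : (X n a).length = n := by
  have : a < (allStr n).length := by rwa [length_allStr]
  rw [X, List.getD_eq_getElem _ _ this]
  exact mem_allStr.1 (List.getElem_mem _)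

theorem X_inj {n a b : ℕ} (ha : a < 2 ^ n) (hb : b < 2 ^ n) (h : X n a = X n b) : a = b := by
  have h1 : a < (allStr n).length := by rwa [length_allStr]
  have h2 : b < (allStr n).length := by rwa [length_allStr]
  rw [X, X, List.getD_eq_getElem _ _ h1, List.getD_eq_getElem _ _ h2] at h
  exact (nodup_allStr n).getElem_inj_iff.1 h

theorem mem_advs {l : ℕ} {h : Str} : h ∈ advs l ↔ h.length ≤ l := by
  simp [advs, mem_allStr]

theorem length_advs (l : ℕ) : (advs l).length + 1 = 2 ^ (l + 1) := by
  induction l with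
  | zero => simp [advs, allStr]
  | succ l ih =>
    rw [advs, List.range_succ, List.flatMap_append, List.length_append]
    simp only [List.flatMap_cons, List.flatMap_nil, List.append_nil, length_allStr]
    rw [advs] at ih
    omega

variable {e e' : Code} {n l : ℕ}

theorem aff_core (hs : 3 * uu n l ≤ 2 ^ n) : Aff (core e e' n l) :=
  aff_list_sum (fun h => win e e' n l h) _ fun _ _ => aff_V _ _ _ fun _ =>
    aff_allT _ _ (n := n) (fun _ ha => length_X (by omega))
      (fun _ ha _ hb => X_inj (by omega) (by omega)) _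

theorem win_nonneg {p : Pr} (hp : Unit01 p) (h : Str) : 0 ≤ win e e' n l h p :=
  V_nonneg _ _ _ (fun _ _ hp => allT_nonneg hp _ _ _) p hp

theorem core_nonneg {p : Pr} (hp : Unit01 p) : 0 ≤ core e e' n l p :=
  List.sum_nonneg fun v hv => by
    obtain ⟨h, -, rfl⟩ := List.mem_map.1 hv
    exact win_nonneg hp h

theorem nine_cube_le (u : ℕ) : 9 * u ^ 3 ≤ 2 ^ (5 * u) := by
  have h1 : u ≤ 2 ^ u := Nat.lt_two_pow_self.le
  rcases Nat.lt_or_ge u 2 with h | h
  · interval_cases u <;> norm_num
  · calc 9 * u ^ 3 ≤ 2 ^ (2 * u) * (2 ^ u) ^ 3 := by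
          gcongr
          calc 9 ≤ 2 ^ (2 * 2) := by norm_num
            _ ≤ 2 ^ (2 * u) := Nat.pow_le_pow_right (by norm_num) (by omega)
      _ = 2 ^ (5 * u) := by ring

theorem core_le (hs : 3 * uu n l ≤ 2 ^ n) {p : Pr} (hp : Unit01 p)
    (hF : Fresh n (6 * uu n l) (rr n l) p ∅) : core e e' n l p ≤ (1 / 2) ^ n := by
  set u := uu n l with hu
  have hu2 : u = l + n + 2 := rfl
  have h9 := nine_cube_le u
  have hj : 3 * u * l ≤ 2 ^ (6 * u - 1) := by
    have : 2 ^ (5 * u) ≤ 2 ^ (6 * u - 1) := Nat.pow_le_pow_right (by norm_num) (by omega)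
    have h1 : l ≤ u := by omega
    have h2 : 1 ≤ u := by omega
    calc 3 * u * l ≤ 9 * u * u * 1 := by nlinarith
      _ ≤ 9 * u * u * u := by gcongr
      _ = 9 * u ^ 3 := by ring
      _ ≤ _ := by omega
  have hw : ∀ h, win e e' n l h p ≤ 2 * (1 / 2) ^ u := by
    intro h
    refine (V_tribes_le (n := n) (by omega) (fun _ ha => length_X (by omega)) hj _ _ hp hF).trans ?_
    have a1 : (3 / 4 : ℚ) ^ (3 * u) ≤ (1 / 2) ^ u := by
      rw [pow_mul]; gcongr; norm_num
    have a2 : ((3 * u * l : ℕ) : ℚ) * ((3 * u : ℕ) * (1 / 2) ^ (6 * u)) ≤ (1 / 2) ^ u := by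
      have b1 : ((3 * u * l : ℕ) : ℚ) * (3 * u : ℕ) ≤ 2 ^ (5 * u) := by
        have h1 : l ≤ u := by omega
        have : 3 * u * l * (3 * u) ≤ 2 ^ (5 * u) :=
          le_trans (by nlinarith [Nat.mul_le_mul_left (9 * u ^ 2) h1]) h9
        exact_mod_cast this
      have b2 : (2 : ℚ) ^ (5 * u) * (1 / 2) ^ (6 * u) = (1 / 2) ^ u := by
        rw [show 6 * u = 5 * u + u by ring, pow_add, ← mul_assoc, ← mul_pow]; norm_num
      rw [← mul_assoc, ← b2]
      gcongr
    linarith
  have h1 : core e e' n l p ≤ (advs l).length • (2 * (1 / 2 : ℚ) ^ u) := by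
    have := List.sum_le_card_nsmul ((advs l).map fun h => win e e' n l h p) (2 * (1 / 2 : ℚ) ^ u)
      fun v hv => by
        obtain ⟨h, -, rfl⟩ := List.mem_map.1 hv
        exact hw h
    simpa [core] using this
  have h2 : ((advs l).length : ℚ) ≤ 2 ^ (l + 1) := by
    have := length_advs l
    exact_mod_cast (by omega : (advs l).length ≤ 2 ^ (l + 1))
  have h3 : (2 : ℚ) ^ (l + 1) * (2 * (1 / 2) ^ u) = (1 / 2) ^ n := by
    rw [hu2]; simp only [one_div, inv_pow]; field_simp; ring
  rw [nsmul_eq_mul] at h1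
  rw [← h3]
  exact h1.trans (by gcongr)

theorem take_path (A : Str → Bool) (Q : Str → Str) {i j : ℕ} (h : i ≤ j) :
    (path A Q j).take i = path A Q i := by
  induction j, h using Nat.le_induction with
  | base => exact List.take_of_length_le (length_path A Q i).le
  | succ j h ih => rw [path, List.take_append_of_le_length (by rwa [length_path]), ih]

theorem length_answers (A : Str → Bool) (query : Str × Str × Str → Str) (x h : Str) (j : ℕ) :
    (answers A query x h j).length = j := by
  induction j with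
  | zero => rfl
  | succ j ih => simp [answers, ih]

/-- The clocked universal machine computes `f` on all relevant inputs. -/
def Runs {β : Type} [N487b59b3 β] (e : Code) (f : Str × Str × Str → β) (n l : ℕ) : Prop :=
  ∀ x h a : Str, x.length = n → h.length ≤ l → a.length ≤ l →
    urun e (bitEncode (x, h, a)) (2 ^ uu n l ^ 2) = bitEncode (f (x, h, a))

theorem drop_path {A : Str → Bool} {query : Str × Str × Str → Str} {h : Str}
    (hq : Runs e query n l) (hh : h.length ≤ l) {a : ℕ} (ha : a < 2 ^ n) (j : ℕ) (hj : j ≤ l) :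
    (path A (jq e n l h) (a * l + j)).drop (a * l) = answers A query (X n a) h j := by
  induction j with
  | zero => exact List.drop_of_length_le (length_path _ _ _).le
  | succ j ih =>
    have ih := ih (by omega)
    have hd : (a * l + j) / l = a := by
      rw [Nat.add_comm, Nat.add_mul_div_right _ _ (by omega), Nat.div_eq_of_lt (by omega)]; simp
    rw [← Nat.add_assoc, path, List.drop_append_of_le_length (by rw [length_path]; omega), ih,
      answers, jq, length_path, hd, ih,
      hq _ _ _ (length_X ha) hh (by rw [length_answers]; omega), decStr_enc]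

theorem win_known {A B : Str → Bool} {query : Str × Str × Str → Str}
    {out : Str × Str × Str → Bool} {h : Str} (hs : 3 * uu n l ≤ 2 ^ n)
    (hq : Runs e query n l) (ho : Runs e' out n l) (hh : h.length ≤ l)
    (hred : ∀ x : Str, x.length = n → B x = out (x, h, answers A query x h l))
    (hB : ∀ x : Str, x.length = n → (B x = true ↔ ∃ y : Str, y.length = 6 * uu n l ∧
      ∀ z < 6 * uu n l, A (str (rr n l) x y z) = true))
    {p : Pr} (h1 : ∀ y : Str, y.length = mm n l → p y = bv (A y))
    (h2 : ∀ i < 3 * uu n l * l, p (jq e n l h (path A (jq e n l h) i)) =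
      bv (A (jq e n l h (path A (jq e n l h) i)))) : win e e' n l h p = 1 := by
  rw [win, V_known A _ _ _ _ h2, allT]
  refine List.prod_eq_one fun v hv => ?_
  obtain ⟨a, ha, rfl⟩ := List.mem_map.1 hv
  rw [List.mem_range] at ha
  have hx : (X n a).length = n := length_X (by omega)
  have hm : n + 12 * uu n l ≤ mm n l := by unfold mm uu; omega
  refine tau_known (A := A) (fun y z hy hz => h1 _ ?_) ?_
  · rw [length_str _ _ (by unfold rr; omega), hx, hy]; unfold rr; omega
  · rw [← hB _ hx, hred _ hx, jo, List.take_drop,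
      take_path _ _ (show a * l + l ≤ 3 * uu n l * l by nlinarith),
      drop_path hq hh (by omega) l le_rfl, ho _ _ _ hx hh (length_answers _ _ _ _ _).le, enc_bool]
    rfl

theorem win_le_core {p : Pr} (hp : Unit01 p) {h : Str} (hh : h.length ≤ l) :
    win e e' n l h p ≤ core e e' n l p :=
  List.single_le_sum (fun v hv => by
    obtain ⟨h, -, rfl⟩ := List.mem_map.1 hv
    exact win_nonneg hp h) _ (List.mem_map_of_mem (mem_advs.2 hh))

end Pool.Agent.P.MP_158ebf_lc
end

-- part Pool.Agent.P.MP_158ebf_lc.Poly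
section

/-! Polynomial-time computability of the betting strategy. -/

namespace Pool.Agent.P.MP_158ebf_lc

open Function N487b59b3 N68a2faeb Pool.Agent.Lib.PolyTime

variable {α β : Type} [N487b59b3 α] [N487b59b3 β]

/-- `2 ^ n` is polynomially bounded. -/
@[fun_prop]
def Tiny (n : α → ℕ) : Prop := Small fun a => 2 ^ n a

@[fun_prop] theorem Tiny.comp {n : β → ℕ} {g : α → β} (hn : Tiny n) (hg : PT g) :
    Tiny fun a => n (g a) := Small.comp (n := fun b => 2 ^ n b) hn hg

theorem Tiny.mono {m n : α → ℕ} (hn : Tiny n) (h : ∀ a, m a ≤ n a) : Tiny m :=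
  Small.mono hn fun a => Nat.pow_le_pow_right (by norm_num) (h a)

theorem Tiny.small {n : α → ℕ} (hn : Tiny n) : Small n :=
  Small.mono hn fun _ => Nat.lt_two_pow_self.le

@[fun_prop] theorem Tiny.min {m n : α → ℕ} (hn : Tiny n) : Tiny fun a => min (m a) (n a) :=
  hn.mono fun _ => min_le_right _ _

@[fun_prop] theorem pt_allStr {n : α → ℕ} (hn : PT n) (hs : Tiny n) :
    PT fun a => allStr (n a) := PT.allStr hn hs

@[fun_prop] theorem small_two_pow {n : α → ℕ} (hs : Tiny n) : Small fun a => 2 ^ n a := hs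

@[fun_prop] theorem pt_bv {b : α → Bool} (hb : PT b) : PT fun a => bv (b a) := by
  unfold bv; fun_prop

@[fun_prop] theorem pt_look {ρ : α → List (Str × Bool)} {y : α → Str} (hρ : PT ρ) (hy : PT y) :
    PT fun a => look (ρ a) (y a) := by
  unfold look; fun_prop

@[fun_prop] theorem pt_str {r z : α → ℕ} {x y : α → Str} (hr : PT r) (hr' : Small r) (hx : PT x)
    (hy : PT y) (hz : PT z) (hz' : Small z) : PT fun a => str (r a) (x a) (y a) (z a) := by
  unfold str; fun_prop

@[fun_prop] theorem pt_sig {t r : α → ℕ} {ρ : α → List (Str × Bool)} {x y : α → Str} (ht : PT t)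
    (ht' : Small t) (hr : PT r) (hr' : Small r) (hρ : PT ρ) (hx : PT x) (hy : PT y) :
    PT fun a => sig (t a) (r a) (look (ρ a)) (x a) (y a) := by
  refine (show PT fun a => ((List.range (t a)).map fun z =>
    look (ρ a) (str (r a) (x a) (y a) (min z (t a)))).prod by fun_prop).congr fun a => ?_
  unfold sig
  exact congrArg _ (List.map_congr_left fun z hz => by
    rw [min_eq_left (List.mem_range.1 hz).le])

@[fun_prop] theorem pt_tau {t r : α → ℕ} {ρ : α → List (Str × Bool)} {x : α → Str} {b : α → Bool}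
    (ht : PT t) (ht' : Tiny t) (hr : PT r) (hr' : Small r) (hρ : PT ρ) (hx : PT x) (hb : PT b) :
    PT fun a => tau (t a) (r a) (look (ρ a)) (x a) (b a) := by
  have := ht'.small
  unfold tau noT; fun_prop

@[fun_prop] theorem pt_X {n i : α → ℕ} (hn : PT n) (hn' : Tiny n) (hi : PT i) :
    PT fun a => X (n a) (i a) := by
  unfold X; fun_prop

@[fun_prop] theorem pt_uu {n l : α → ℕ} (hn : PT n) (hl : PT l) : PT fun a => uu (n a) (l a) := by
  unfold uu; fun_prop

@[fun_prop] theorem pt_mm {n l : α → ℕ} (hn : PT n) (hl : PT l) : PT fun a => mm (n a) (l a) := by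
  unfold mm; fun_prop

@[fun_prop] theorem pt_rr {n l : α → ℕ} (hn : PT n) (hl : PT l) : PT fun a => rr (n a) (l a) := by
  unfold rr; fun_prop

/-- The clock exponent. -/
def sq (n l : ℕ) : ℕ := uu n l ^ 2

@[fun_prop] theorem pt_sq {n l : α → ℕ} (hn : PT n) (hl : PT l) : PT fun a => sq (n a) (l a) := by
  unfold sq; fun_prop

theorem pt_jq {e : α → Code} {n l : α → ℕ} {h s : α → Str} (he : PT e) (hn : PT n) (hl : PT l)
    (hn' : Tiny n) (hc : Tiny fun a => sq (n a) (l a)) (hh : PT h) (hs : PT s) :
    PT fun a => jq (e a) (n a) (l a) (h a) (s a) := by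
  have h1 := hc.small
  have h2 : PT fun a => 2 ^ sq (n a) (l a) := by fun_prop
  have h3 : Small fun a => 2 ^ sq (n a) (l a) := hc
  unfold jq
  exact PT.decStr (PT.urun he (by fun_prop) h2 h3)

theorem pt_jo {e : α → Code} {n l i : α → ℕ} {h s : α → Str} (he : PT e) (hn : PT n) (hl : PT l)
    (hn' : Tiny n) (hc : Tiny fun a => sq (n a) (l a)) (hh : PT h) (hs : PT s) (hi : PT i) :
    PT fun a => jo (e a) (n a) (l a) (h a) (s a) (i a) := by
  have h1 := hc.small
  have h2 : PT fun a => 2 ^ sq (n a) (l a) := by fun_prop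
  have h3 : Small fun a => 2 ^ sq (n a) (l a) := hc
  unfold jo
  exact PT.headD (PT.urun he (by fun_prop) h2 h3) (PT.const _)

theorem pt_core {e e' : α → Code} {n l : α → ℕ} {ρ : α → List (Str × Bool)} (he : PT e)
    (he' : PT e') (hn : PT n) (hl : PT l) (hρ : PT ρ) (hm : Tiny fun a => mm (n a) (l a)) :
    PT fun a => core (e a) (e' a) (n a) (l a) (look (ρ a)) := by
  have hn' : Tiny n := hm.mono fun a => by unfold mm uu; omega
  have hl' : Tiny l := hm.mono fun a => by unfold mm uu; omega
  have hc : Tiny fun a => sq (n a) (l a) := hm.mono fun a => by unfold mm sq; omega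
  obtain ⟨t, ht⟩ : ∃ t : α → ℕ, t = fun a => 6 * uu (n a) (l a) := ⟨_, rfl⟩
  obtain ⟨s, hs⟩ : ∃ s : α → ℕ, s = fun a => 3 * uu (n a) (l a) := ⟨_, rfl⟩
  obtain ⟨j, hj⟩ : ∃ j : α → ℕ, j = fun a => 3 * uu (n a) (l a) * l a := ⟨_, rfl⟩
  obtain ⟨r, hr⟩ : ∃ r : α → ℕ, r = fun a => rr (n a) (l a) := ⟨_, rfl⟩
  have t1 : PT t := by rw [ht]; fun_prop
  have s1 : PT s := by rw [hs]; fun_prop
  have j1 : PT j := by rw [hj]; fun_prop
  have r1 : PT r := by rw [hr]; fun_prop
  have t2 : Tiny t := hm.mono fun a => by simp only [ht, mm]; omega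
  have s2 : Small s := (hm.mono fun a => by simp only [hs, mm]; omega : Tiny s).small
  have j2 : Tiny j := hm.mono fun a => by
    rw [hj]; unfold mm
    have : l a ≤ uu (n a) (l a) := by unfold uu; omega
    nlinarith
  have j3 := j2.small
  have l3 := hl'.small
  have r2 : Small r := (hm.mono fun a => by simp only [hr, rr]; omega : Tiny r).small
  have q : PT fun p : α × Str × Str => jq (e p.1) (n p.1) (l p.1) p.2.1 p.2.2 :=
    pt_jq (by fun_prop) (by fun_prop) (by fun_prop) (by fun_prop)
      (hc.comp (by fun_prop)) (by fun_prop) (by fun_prop)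
  have o : PT fun p : α × Str × Str × ℕ => jo (e' p.1) (n p.1) (l p.1) p.2.1 p.2.2.1 p.2.2.2 :=
    pt_jo (by fun_prop) (by fun_prop) (by fun_prop) (by fun_prop)
      (hc.comp (by fun_prop)) (by fun_prop) (by fun_prop) (by fun_prop)
  obtain ⟨Q, hQ⟩ : ∃ Q : α × Str × Str → Str,
    Q = fun p => jq (e p.1) (n p.1) (l p.1) p.2.1 p.2.2 := ⟨_, rfl⟩
  obtain ⟨O, hO⟩ : ∃ O : α × Str × Str × ℕ → Bool,
    O = fun p => jo (e' p.1) (n p.1) (l p.1) p.2.1 p.2.2.1 p.2.2.2 := ⟨_, rfl⟩
  rw [← hQ] at q
  rw [← hO] at o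
  have h1 : PT fun p : α × Str × Str × ℕ =>
      rho (fun b => Q (p.1, p.2.1, b)) (ρ p.1) p.2.2.1 (min p.2.2.2 p.2.2.1.length) := by
    unfold rho; fun_prop
  obtain ⟨R, hR⟩ : ∃ R : α × Str × Str × ℕ → List (Str × Bool), R = fun p =>
    rho (fun b => Q (p.1, p.2.1, b)) (ρ p.1) p.2.2.1 (min p.2.2.2 p.2.2.1.length) := ⟨_, rfl⟩
  rw [← hR] at h1
  have h2 : PT fun a => (((List.range (l a + 1)).flatMap fun i => allStr (min i (l a))).map
      fun h => ((allStr (j a)).map fun b =>
        ((List.range b.length).map fun i => bif b.getD i false then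
          look (R (a, h, b, i)) (Q (a, h, b.take i))
          else 1 - look (R (a, h, b, i)) (Q (a, h, b.take i))).prod *
        ((List.range (s a)).map fun i => tau (t a) (r a) (look (R (a, h, b, j a))) (X (n a) i)
          (O (a, h, b, i))).prod).sum).sum := by
    fun_prop
  refine h2.congr fun a => ?_
  have e1 : advs (l a) = (List.range (l a + 1)).flatMap fun i => allStr (min i (l a)) :=
    List.flatMap_congr fun i hi => by rw [min_eq_left (by simpa [Nat.lt_succ_iff] using hi)]
  rw [core, e1]
  refine congrArg _ (List.map_congr_left fun h _ => ?_)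
  rw [win, V_closed, hj]
  refine congrArg _ (List.map_congr_left fun b hb => ?_)
  rw [mem_allStr] at hb
  subst hR hQ hO ht hs hr
  simp only [wt, allT, hb, min_self]
  congr 2
  refine List.map_congr_left fun i hi => ?_
  rw [min_eq_left (List.mem_range.1 hi).le]

end Pool.Agent.P.MP_158ebf_lc
end

-- part Pool.Agent.P.MP_158ebf_lc.Main
section

/-! The p-null cover of the bounded-query complete sets for NP. -/

namespace Pool.Agent.P.MP_158ebf_lc

open Function Filter N487b59b3 N68a2faeb Pool.Agent.Lib.PolyTime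

/-! ### The standard enumeration -/

theorem bits_succ (n : ℕ) : (n + 1).bits = (stdString n).reverse ++ [true] := by
  have : ∀ m : ℕ, m ≠ 0 → ∃ l, m.bits = l ++ [true] := by
    intro m
    induction m using Nat.binaryRec' with
    | zero => simp
    | bit b m h ih =>
      intro _
      rw [Nat.bits_append_bit m b h]
      by_cases hm : m = 0
      · subst hm; exact ⟨[], by simp [h rfl]⟩
      · obtain ⟨l, hl⟩ := ih hm
        exact ⟨b :: l, by simp [hl]⟩
  obtain ⟨l, hl⟩ := this (n + 1) (by omega)
  simp [stdString, hl]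

theorem stdString_inj {a b : ℕ} (h : stdString a = stdString b) : a = b := by
  have : (a + 1).bits = (b + 1).bits := by rw [bits_succ, bits_succ, h]
  have := congrArg ofBits this
  rw [ofBits_bits, ofBits_bits] at this
  omega

theorem stdString_surj (y : Str) : ∃ n, stdString n = y := by
  have h := bits_ofBits_concat y.reverse
  rcases e : ofBits (y.reverse ++ [true]) with _ | n
  · rw [e] at h; simp at h
  · exact ⟨n, by rw [e] at h; simp [stdString, h]⟩

theorem two_pow_length_stdString (n : ℕ) : 2 ^ (stdString n).length ≤ n + 1 := by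
  have h := congrArg List.length (bits_succ n)
  rw [Nat.size_eq_bits_len] at h
  simp only [List.length_append, List.length_reverse, List.length_singleton] at h
  exact Nat.lt_size.1 (by omega)

/-- The bits known from the initial segment `w` of a characteristic sequence. -/
def known (w : Str) : List (Str × Bool) :=
  (List.range w.length).map fun i => (stdString i, w.getD i false)

theorem mem_known {w : Str} {e : Str × Bool} (h : e ∈ known w) :
    ∃ i < w.length, e.1 = stdString i := by
  obtain ⟨i, hi, rfl⟩ := List.mem_map.1 h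
  exact ⟨i, List.mem_range.1 hi, rfl⟩

theorem known_fresh (w : Str) : ∀ e ∈ known w, e.1 ≠ stdString w.length := fun e he h => by
  obtain ⟨i, hi, h'⟩ := mem_known he
  have := stdString_inj (h'.symm.trans h)
  omega

theorem look_known_concat (w : Str) (b : Bool) :
    look (known (w ++ [b])) = update (look (known w)) (stdString w.length) (bv b) := by
  rw [← look_concat (known_fresh w)]
  congr 1
  simp only [known, List.length_append, List.length_singleton, List.range_succ, List.map_append,
    List.map_cons, List.map_nil]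
  congr 1
  · exact List.map_congr_left fun i hi => by
      rw [List.getD_append _ _ _ _ (List.mem_range.1 hi)]
  · simp

theorem chi_succ (A : Str → Bool) (N : ℕ) : chi A (N + 1) = chi A N ++ [A (stdString N)] := by
  simp [chi, List.range_succ]

theorem length_chi (A : Str → Bool) (N : ℕ) : (chi A N).length = N := by simp [chi]

theorem eventually_known (A : Str → Bool) (y : Str) :
    ∀ᶠ N in atTop, look (known (chi A N)) y = bv (A y) := by
  obtain ⟨n, rfl⟩ := stdString_surj y
  refine eventually_atTop.2 ⟨n + 1, fun N hN => ?_⟩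
  induction N, hN using Nat.le_induction with
  | base => rw [chi_succ, look_known_concat, length_chi, update_self]
  | succ N hN ih =>
    rw [chi_succ, look_known_concat, length_chi,
      update_of_ne fun h => by have := stdString_inj h; omega, ih]

theorem eventually_known_list (A : Str → Bool) (L : List Str) :
    ∀ᶠ N in atTop, ∀ y ∈ L, look (known (chi A N)) y = bv (A y) := by
  induction L with
  | nil => simp
  | cons y L ih =>
    filter_upwards [ih, eventually_known A y] with N h1 h2
    simpa [h2] using h1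

/-! ### The density system -/

/-- The `j`-th block coded by the index `i`. -/
def blk (i j : ℕ) : Str := (blocks i.bits.dropLast).getD j []

/-- Number of queries and advice bits for index `i` at input length `n`. -/
def ell (i n : ℕ) : ℕ := n ^ (blk i 2).length + (blk i 2).length

/-- The strategy with index `i` at input length `n`. -/
def term (i n : ℕ) (w : Str) : ℚ :=
  if 2 ^ mm n (ell i n) ≤ w.length + 1 then
    if 3 * uu n (ell i n) ≤ 2 ^ n then
      core (decCode (blk i 0)) (decCode (blk i 1)) n (ell i n) (look (known w)) else 0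
  else (1 / 2) ^ n

/-- The density system. -/
def D (k : ℕ) (w : Str) : ℚ :=
  ((List.range w.length).map fun i => term i (k + i + 1) w).sum + (1 / 2) ^ (k + w.length)

theorem term_nonneg (i n : ℕ) (w : Str) : 0 ≤ term i n w := by
  unfold term
  split_ifs
  · exact core_nonneg (look_unit _)
  · rfl
  · positivity

theorem term_le {i n : ℕ} {w : Str} (h : w.length + 1 ≤ 2 ^ mm n (ell i n)) :
    term i n w ≤ (1 / 2) ^ n := by
  unfold term
  split_ifs with h1 h2
  · refine core_le h2 (look_unit _) fun x y z hx hy hz _ => look_of_not_mem fun e he h' => ?_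
    obtain ⟨j, hj, h3⟩ := mem_known he
    have hm : n + 12 * uu n (ell i n) ≤ mm n (ell i n) := by unfold mm uu; omega
    have h4 := two_pow_length_stdString j
    rw [← h3, h', length_str _ _ (by unfold rr; omega), hx, hy,
      show n + 6 * uu n (ell i n) + rr n (ell i n) = mm n (ell i n) by unfold rr; omega] at h4
    omega
  · positivity
  · rfl

theorem term_step (i n : ℕ) (w : Str) :
    (term i n (w ++ [false]) + term i n (w ++ [true])) / 2 ≤ term i n w := by
  by_cases h : 2 ^ mm n (ell i n) ≤ w.length + 1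
  · have h' : ∀ b, 2 ^ mm n (ell i n) ≤ (w ++ [b]).length + 1 := fun b => by simp; omega
    simp only [term, if_pos h, if_pos (h' _)]
    split_ifs with h2
    · rw [aff_core h2 (look (known w)) (stdString w.length), look_of_not_mem (known_fresh w),
        look_known_concat, look_known_concat]
      simp only [bv, cond_true, cond_false]
      linarith
    · simp
  · have h1 := term_le (i := i) (n := n) (w := w ++ [false]) (by simp; omega)
    have h2 := term_le (i := i) (n := n) (w := w ++ [true]) (by simp; omega)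
    have h3 : term i n w = (1 / 2) ^ n := by simp only [term, if_neg h]
    linarith

theorem D_nonneg (k : ℕ) (w : Str) : 0 ≤ D k w :=
  add_nonneg (List.sum_nonneg fun v hv => by
    obtain ⟨i, -, rfl⟩ := List.mem_map.1 hv
    exact term_nonneg _ _ _) (by positivity)

theorem D_step (k : ℕ) (w : Str) : (D k (w ++ [false]) + D k (w ++ [true])) / 2 ≤ D k w := by
  have h1 : ∀ b, term w.length (k + w.length + 1) (w ++ [b]) ≤ (1 / 2) ^ (k + w.length + 1) :=
    fun b => term_le (le_trans (by simp; unfold mm uu; omega) Nat.lt_two_pow_self.le)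
  have h2 : ∀ L : List ℕ, ((L.map fun i => term i (k + i + 1) (w ++ [false])).sum +
      (L.map fun i => term i (k + i + 1) (w ++ [true])).sum) / 2 ≤
      (L.map fun i => term i (k + i + 1) w).sum := by
    intro L
    induction L with
    | nil => simp
    | cons i L ih =>
      simp only [List.map_cons, List.sum_cons]
      linarith [term_step i (k + i + 1) w]
  have h3 := h2 (List.range w.length)
  have h4 := h1 false
  have h5 := h1 true
  simp only [D, List.length_append, List.length_singleton, List.range_succ, List.map_append,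
    List.sum_append, List.map_cons, List.map_nil, List.sum_cons, List.sum_nil, ← Nat.add_assoc,
    pow_succ] at h4 h5 ⊢
  linarith

theorem term_le_D {k i : ℕ} {w : Str} (h : i < w.length) : term i (k + i + 1) w ≤ D k w := by
  have := List.single_le_sum (l := (List.range w.length).map fun i => term i (k + i + 1) w)
    (fun v hv => by
      obtain ⟨i, -, rfl⟩ := List.mem_map.1 hv
      exact term_nonneg _ _ _) _ (List.mem_map_of_mem (List.mem_range.2 h))
  have h2 : (0 : ℚ) ≤ (1 / 2) ^ (k + w.length) := by positivity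
  unfold D
  linarith

/-! ### Polynomial time -/

section

variable {α : Type} [N487b59b3 α]

@[fun_prop] theorem pt_known {w : α → Str} (hw : PT w) : PT fun a => known (w a) := by
  unfold known stdString; fun_prop

@[fun_prop] theorem pt_blk {i : α → ℕ} (hi : PT i) (j : ℕ) : PT fun a => blk (i a) j := by
  unfold blk; fun_prop

@[fun_prop] theorem pt_ell {i n : α → ℕ} (hi : PT i) (hn : PT n) :
    PT fun a => ell (i a) (n a) := by
  unfold ell; fun_prop

theorem pt_term {i n : α → ℕ} {w : α → Str} (hi : PT i) (hn : PT n) (hn' : Small n) (hw : PT w) :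
    PT fun a => term (i a) (n a) (w a) := by
  have hc : PT fun a => core (decCode (blk (i a) 0)) (decCode (blk (i a) 1))
      (if mm (n a) (ell (i a) (n a)) < ((w a).length + 1).size then n a else 0)
      (if mm (n a) (ell (i a) (n a)) < ((w a).length + 1).size then ell (i a) (n a) else 0)
      (look (known (w a))) := by
    refine pt_core (by fun_prop) (by fun_prop) (by fun_prop) (by fun_prop) (by fun_prop) ?_
    refine Small.mono (n := fun a => (w a).length + 1 + 2 ^ mm 0 0) (by fun_prop) fun a => ?_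
    beta_reduce
    split_ifs with h
    · exact (Nat.lt_size.1 h).trans (Nat.le_add_right _ _)
    · exact Nat.le_add_left _ _
  refine (PT.ite (p := fun a => mm (n a) (ell (i a) (n a)) < ((w a).length + 1).size)
    (inst := fun _ => inferInstance) (g := fun a => (1 / 2 : ℚ) ^ n a) (by fun_prop)
    (PT.ite (p := fun a => 3 * uu (n a) (ell (i a) (n a)) ≤ 2 ^ n a)
      (inst := fun _ => inferInstance) (by fun_prop) hc (PT.const 0)) (by fun_prop)).congr
    fun a => ?_
  simp only [term, Nat.lt_size]
  split_ifs <;> rfl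

theorem pt_D {k : α → ℕ} {w : α → Str} (hk : PT k) (hk' : Small k) (hw : PT w) :
    PT fun a => D (k a) (w a) := by
  have h1 : PT fun p : α × ℕ => term p.2 (k p.1 + min p.2 (w p.1).length + 1) (w p.1) :=
    pt_term (by fun_prop) (by fun_prop) (by fun_prop) (by fun_prop)
  obtain ⟨F, hF⟩ : ∃ F : α × ℕ → ℚ,
    F = fun p => term p.2 (k p.1 + min p.2 (w p.1).length + 1) (w p.1) := ⟨_, rfl⟩
  rw [← hF] at h1
  refine (show PT fun a => ((List.range (w a).length).map fun i => F (a, i)).sum +
    (1 / 2 : ℚ) ^ (k a + (w a).length) by fun_prop).congr fun a => ?_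
  rw [D, List.map_congr_left (g := fun i => F (a, i)) fun i hi => by
    simp only [hF, min_eq_left (List.mem_range.1 hi).le]]

end

/-- Rounding down to a multiple of `2 ^ (-r)`. -/
def round2 (q : ℚ) (r : ℕ) : ℚ :=
  (((q * 2 ^ r).num.toNat / (q * 2 ^ r).den : ℕ) : ℚ) / ((2 ^ r : ℕ) : ℚ)

theorem round2_close {q : ℚ} (hq : 0 ≤ q) (r : ℕ) : |round2 q r - q| ≤ 1 / 2 ^ r := by
  set E := q * 2 ^ r with hE
  have hE0 : 0 ≤ E := by positivity
  have h1 : ((E.num.toNat : ℕ) : ℚ) / (E.den : ℕ) = E := by
    have : ((E.num.toNat : ℕ) : ℚ) = E.num := by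
      exact_mod_cast congrArg (fun z : ℤ => (z : ℚ)) (Int.toNat_of_nonneg (Rat.num_nonneg.2 hE0))
    rw [this, Rat.num_div_den]
  have h2 : E.num.toNat / E.den = ⌊E⌋₊ := by
    rw [← Nat.floor_div_eq_div (K := ℚ), h1]
  have h3 := Nat.floor_le hE0
  have h4 := Nat.lt_floor_add_one E
  have h5 : round2 q r - q = (⌊E⌋₊ - E) / 2 ^ r := by
    rw [round2, ← hE, h2, hE]; push_cast; field_simp
  rw [h5, abs_div, abs_of_pos (a := (2 : ℚ) ^ r) (by positivity)]
  gcongr
  rw [abs_le]; constructor <;> linarith

/-! ### The test language -/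

open Classical in
/-- The Bennett-Gill test language of `A` with padding. -/
noncomputable def testLang (κ : ℕ) (A : Str → Bool) (x : Str) : Bool :=
  decide (∃ y : Str, y.length = 6 * uu x.length (x.length ^ κ + κ) ∧
    ∀ z < 6 * uu x.length (x.length ^ κ + κ), A (str (rr x.length (x.length ^ κ + κ)) x y z) = true)

theorem testLang_mem_NP (κ : ℕ) {A : Str → Bool} (hA : A ∈ NP) : testLang κ A ∈ NP := by
  obtain ⟨p, R, hR, hA⟩ := mem_NP_iff.1 hA
  obtain ⟨t, ht⟩ : ∃ t : Str → ℕ, t = fun x => 6 * uu x.length (x.length ^ κ + κ) := ⟨_, rfl⟩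
  obtain ⟨r, hr⟩ : ∃ r : Str → ℕ, r = fun x => rr x.length (x.length ^ κ + κ) := ⟨_, rfl⟩
  have t1 : PT t := by rw [ht]; fun_prop
  have r1 : PT r := by rw [hr]; fun_prop
  have t2 : Small t := by rw [ht]; unfold uu; fun_prop
  have r2 : Small r := by rw [hr]; unfold rr mm uu; fun_prop
  have htr : ∀ x, t x ≤ r x := fun x => by simp only [ht, hr, rr, mm, uu]; omega
  have hL : ∀ x, testLang κ A x = true ↔
      ∃ y : Str, y.length = t x ∧ ∀ z < t x, A (str (r x) x y z) = true := fun x => by
    simp only [testLang, ht, hr, decide_eq_true_eq]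
  refine mem_NP_of_small (β := List Str) (fun x l => (l.headD []).length = t x ∧
      ∀ z ∈ List.range (t x), (l.tail.getD z []).length ≤ p.eval (x.length + t x + r x) ∧
        R (str (r x) x (l.headD []) (min z (t x)), l.tail.getD z []) = true) blocks
    (PTP.and (by fun_prop) (PTP.forall_mem (by fun_prop) (by fun_prop))) (by fun_prop)
    (fun x => (t x + 1) * (2 * (t x + p.eval (x.length + t x + r x)) + 1)) (by fun_prop) ?_ ?_
  · rintro x l ⟨h1, h2⟩
    refine (hL x).2 ⟨_, h1, fun z hz => (hA _).2 ⟨l.tail.getD z [], ?_⟩⟩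
    have := h2 z (List.mem_range.2 hz)
    rwa [min_eq_left hz.le, ← h1, ← length_str (z := z) _ _ (hz.le.trans (htr x))] at this
  · intro x hx
    obtain ⟨y, hy, h⟩ := (hL x).1 hx
    have h' : ∀ z, ∃ w : Str, z < t x → w.length ≤ p.eval (x.length + t x + r x) ∧
        R (str (r x) x y z, w) = true := fun z => by
      by_cases hz : z < t x
      · obtain ⟨w, hw⟩ := (hA _).1 (h z hz)
        rw [length_str _ _ (hz.le.trans (htr x)), hy] at hw
        exact ⟨w, fun _ => hw⟩
      · exact ⟨[], fun h => absurd h hz⟩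
    choose f hf using h'
    refine ⟨((y :: (List.range (t x)).map f).map delimit).flatten, ?_, ?_⟩
    · rw [List.length_flatten]
      refine (List.sum_le_card_nsmul _ (2 * (t x + p.eval (x.length + t x + r x)) + 1)
        fun v hv => ?_).trans (by simp)
      simp only [List.map_map, List.mem_map, List.mem_cons, List.mem_range, Function.comp] at hv
      obtain ⟨b, hb, rfl⟩ := hv
      rw [length_delimit]
      rcases hb with rfl | ⟨z, hz, rfl⟩
      · omega
      · have := (hf z hz).1; omega
    · rw [blocks_flatten]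
      refine ⟨hy, fun z hz => ?_⟩
      rw [List.mem_range] at hz
      simpa [hz, min_eq_left hz.le] using hf z hz

/-! ### Covering -/

theorem runs_of_exp {β : Type} [N487b59b3 β] {f : Str × Str × Str → β} (hf : IsExpTime f) :
    ∃ (e : Code) (n₀ : ℕ), ∀ n ≥ n₀, ∀ l, Runs e f n l := by
  obtain ⟨M, c, hc⟩ := hf
  obtain ⟨e, C, he⟩ := exists_code_time M
  refine ⟨e, C + 10 * c, fun n hn l x h a hx hh ha => he _ _ ?_⟩
  have h1 : sz (x, h, a) ≤ 9 * uu n l := by simp [sz_str, uu]; omega
  have h2 : C + 10 * c ≤ uu n l := by unfold uu; omega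
  have h3 : 1 ≤ uu n l := by unfold uu; omega
  calc C * M.time (sz (x, h, a)) ≤ 2 ^ C * 2 ^ (c * sz (x, h, a) + c) :=
        Nat.mul_le_mul Nat.lt_two_pow_self.le (hc _)
    _ = 2 ^ (C + (c * sz (x, h, a) + c)) := (pow_add _ _ _).symm
    _ ≤ 2 ^ uu n l ^ 2 := Nat.pow_le_pow_right (by norm_num) (by
        nlinarith [Nat.mul_le_mul_left c h1, Nat.mul_le_mul_left (uu n l) h2,
          Nat.mul_le_mul_left C h3, Nat.mul_le_mul_left c h3])

theorem eventually_small (κ : ℕ) : ∃ n₀, ∀ n ≥ n₀, 3 * uu n (n ^ κ + κ) ≤ 2 ^ n := by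
  have h := (tendsto_pow_const_div_const_pow_of_one_lt (κ + 1) (r := 2) (by norm_num)).eventually
    (eventually_le_nhds (b := (1 : ℝ) / (3 * (κ + 4))) (by positivity))
  obtain ⟨n₀, h⟩ := eventually_atTop.1 h
  refine ⟨n₀ + 1, fun n hn => ?_⟩
  have h1 := h n (by omega)
  rw [div_le_div_iff₀ (by positivity) (by positivity), one_mul] at h1
  have h2 : n ^ (κ + 1) * (3 * (κ + 4)) ≤ 2 ^ n := by exact_mod_cast h1
  have h3 : n ^ κ ≤ n ^ (κ + 1) := Nat.pow_le_pow_right (by omega) (by omega)
  have h4 : n ≤ n ^ (κ + 1) := Nat.le_self_pow (by omega) _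
  have h5 : 1 ≤ n ^ (κ + 1) := by omega
  unfold uu
  nlinarith [Nat.mul_le_mul_right κ h5]

theorem exists_index (a b c : Str) (n₀ : ℕ) :
    ∃ i ≥ n₀, blk i 0 = a ∧ blk i 1 = b ∧ blk i 2 = c := by
  set σ := (([a, b, c, List.replicate n₀ true] : List Str).map delimit).flatten with hσ
  have h1 : blocks (ofBits (σ ++ [true])).bits.dropLast = [a, b, c, List.replicate n₀ true] := by
    rw [bits_ofBits_concat, List.dropLast_concat, hσ, blocks_flatten]
  refine ⟨ofBits (σ ++ [true]), ?_, by simp [blk, h1]⟩
  have h2 := congrArg List.length (bits_ofBits_concat σ)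
  rw [Nat.size_eq_bits_len] at h2
  have h3 := sz_le_self (ofBits (σ ++ [true]))
  have h4 : n₀ ≤ σ.length := by
    simp only [hσ, List.map_cons, List.flatten_cons, List.length_append, length_delimit,
      List.length_replicate]
    omega
  rw [sz_nat, h2, List.length_append] at h3
  omega

theorem covers {A : Str → Bool} {κ : ℕ} (h : Reduces κ (testLang κ A) A) (k : ℕ) :
    ∃ N, 1 ≤ D k (chi A N) := by
  obtain ⟨query, out, adv, hq, ho, hadv, hred⟩ := h
  obtain ⟨e, n₁, he⟩ := runs_of_exp hq
  obtain ⟨e', n₂, he'⟩ := runs_of_exp ho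
  obtain ⟨n₃, h3⟩ := eventually_small κ
  obtain ⟨i, hi, b0, b1, b2⟩ :=
    exists_index (bitEncode e) (bitEncode e') (List.replicate κ true) (n₁ + n₂ + n₃)
  set n := k + i + 1 with hn
  have hl : ell i n = n ^ κ + κ := by simp [ell, b2]
  set l := n ^ κ + κ with hl'
  obtain ⟨N, h1, h2, h4⟩ := ((eventually_known_list A (allStr (mm n l) ++
    (List.range (3 * uu n l * l)).map fun j => jq e n l (adv n) (path A (jq e n l (adv n)) j))).and
    ((eventually_ge_atTop (2 ^ mm n l)).and (eventually_gt_atTop i))).exists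
  refine ⟨N, le_trans ?_ (term_le_D (i := i) (by rwa [length_chi]))⟩
  have hs := h3 n (by omega)
  rw [← hn, term, hl, if_pos (by rw [length_chi]; omega), if_pos hs, b0, b1, decCode_enc,
    decCode_enc]
  refine le_trans (le_of_eq (win_known (A := A) (B := testLang κ A) hs (he n (by omega) l)
    (he' n (by omega) l) (hadv n) (fun x hx => by rw [hred x, hx])
    (fun x hx => by simp only [testLang, hx, decide_eq_true_eq])
    (fun y hy => h1 y (List.mem_append_left _ (mem_allStr.2 hy)))
    fun j hj => h1 _ (List.mem_append_right _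
      (List.mem_map.2 ⟨j, List.mem_range.2 hj, rfl⟩))).symm) (win_le_core (look_unit _) (hadv n))

theorem pnull_test : PNull {A | ∃ κ, Reduces κ (testLang κ A) A} := by
  refine ⟨fun k w => D k w, fun v => round2 (D v.1.length v.2.2) v.2.1.length, ?_, fun v => ?_,
    fun k r w => ?_, fun k => ⟨fun w => ⟨?_, ?_⟩, ?_, ?_⟩⟩
  · have h1 : PT fun v : Str × Str × Str => D v.1.length v.2.2 :=
      pt_D (by fun_prop) (by fun_prop) (by fun_prop)
    obtain ⟨F, hF⟩ : ∃ F : Str × Str × Str → ℚ, F = fun v => D v.1.length v.2.2 := ⟨_, rfl⟩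
    rw [← hF] at h1
    have h2 : PT fun v : Str × Str × Str => round2 (F v) v.2.1.length :=
      PT.nat_div_rat (by fun_prop) (by fun_prop)
    rw [hF] at h2
    exact h2.isPolyTime
  · exact ⟨(((D v.1.length v.2.2 * 2 ^ v.2.1.length).num.toNat /
      (D v.1.length v.2.2 * 2 ^ v.2.1.length).den : ℕ) : ℤ), v.2.1.length, by
      beta_reduce; rw [round2, Int.cast_natCast, Nat.cast_pow, Nat.cast_ofNat]⟩
  · have := (Rat.cast_le (K := ℝ)).2 (round2_close (D_nonneg k w) r)
    simp only [List.length_replicate]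
    push_cast at this
    exact this
  · beta_reduce; exact_mod_cast D_nonneg k w
  · beta_reduce; exact_mod_cast D_step k w
  · simp [D]
  · rintro A ⟨κ, h⟩
    beta_reduce; exact_mod_cast covers h k

end Pool.Agent.P.MP_158ebf_lc
end
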