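import Pool.Agent.K.MP_158ebf_lc.C0
import Pool.Agent.P.MP_158ebf_lc.PDefs

-- part Pool.Agent.P.MP_158ebf_lc.PMart
section

/-! Betting on widely spaced short blocks whose length adapts to a search. -/

namespace Pool.Agent.P.MP_158ebf_lc.POpt

open Function Filter N487b59b3 N68a2faeb Pool.Agent.Lib.PolyTime

/-! ### Uniform unions -/

/-- A uniformly polynomial-time family of supermartingales gives a p-null class. -/
theorem pnull_family (T : ℕ → ℕ → Str → ℚ) (h0 : ∀ i n w, 0 ≤ T i (n + 1) w)
    (h1 : ∀ i n w, (T i (n + 1) (w ++ [false]) + T i (n + 1) (w ++ [true])) / 2 ≤ T i (n + 1) w)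
    (h2 : ∀ i n w, w.length ≤ n + 1 → T i (n + 1) w ≤ (1 / 2) ^ (n + 1) * 4)
    (h3 : PT fun a : ℕ × Str × Str => T a.1 a.2.1.length a.2.2) :
    PNull {A | ∀ k, ∃ i N, i < N ∧ 1 ≤ T i (k + i + 3) (chi A N)} := by
  let E : ℕ → Str → ℚ := fun k w =>
    ((List.range w.length).map fun i => T i (k + i + 3) w).sum + (1 / 2) ^ (k + w.length)
  have e0 : ∀ k w, 0 ≤ E k w := fun k w =>
    add_nonneg (List.sum_nonneg fun v hv => by
      obtain ⟨i, -, rfl⟩ := List.mem_map.1 hv
      exact h0 _ _ _) (by positivity)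
  have e1 : ∀ k w, (E k (w ++ [false]) + E k (w ++ [true])) / 2 ≤ E k w := by
    intro k w
    have a1 : ∀ b, T w.length (k + w.length + 3) (w ++ [b]) ≤ (1 / 2) ^ (k + w.length + 3) * 4 :=
      fun b => h2 _ _ _ (by simp; omega)
    have a2 : ∀ L : List ℕ, ((L.map fun i => T i (k + i + 3) (w ++ [false])).sum +
        (L.map fun i => T i (k + i + 3) (w ++ [true])).sum) / 2 ≤
        (L.map fun i => T i (k + i + 3) w).sum := by
      intro L
      induction L with
      | nil => simp
      | cons i L ih =>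
        simp only [List.map_cons, List.sum_cons]
        linarith [h1 i (k + i + 2) w]
    have a3 := a2 (List.range w.length)
    have a4 := a1 false
    have a5 := a1 true
    simp only [E, List.length_append, List.length_singleton, List.range_succ, List.map_append,
      List.sum_append, List.map_cons, List.map_nil, List.sum_cons, List.sum_nil, ← Nat.add_assoc,
      pow_succ] at a4 a5 ⊢
    linarith
  have e2 : ∀ k i w, i < w.length → T i (k + i + 3) w ≤ E k w := by
    intro k i w h
    have := List.single_le_sum (l := (List.range w.length).map fun i => T i (k + i + 3) w)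
      (fun v hv => by
        obtain ⟨i, -, rfl⟩ := List.mem_map.1 hv
        exact h0 _ _ _) _ (List.mem_map_of_mem (List.mem_range.2 h))
    have h2 : (0 : ℚ) ≤ (1 / 2) ^ (k + w.length) := by positivity
    simp only [E]
    linarith
  have e3 : PT fun v : Str × Str × Str => E v.1.length v.2.2 := by
    obtain ⟨F, hF⟩ : ∃ F : ℕ × Str × Str → ℚ, F = fun a => T a.1 a.2.1.length a.2.2 := ⟨_, rfl⟩
    rw [← hF] at h3
    refine (show PT fun v : Str × Str × Str => ((List.range v.2.2.length).map fun i =>
      F (i, List.replicate (v.1.length + min i v.2.2.length + 3) true, v.2.2)).sum +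
        (1 / 2 : ℚ) ^ (v.1.length + v.2.2.length) by fun_prop).congr fun v => ?_
    simp only [E]
    congr 2
    exact List.map_congr_left fun i hi => by
      simp only [hF, min_eq_left (List.mem_range.1 hi).le, List.length_replicate]
  refine ⟨fun k w => E k w, fun v => round2 (E v.1.length v.2.2) v.2.1.length, ?_, fun v => ?_,
    fun k r w => ?_, fun k => ⟨fun w => ⟨?_, ?_⟩, ?_, ?_⟩⟩
  · obtain ⟨F, hF⟩ : ∃ F : Str × Str × Str → ℚ, F = fun v => E v.1.length v.2.2 := ⟨_, rfl⟩
    rw [← hF] at e3
    have h2 : PT fun v : Str × Str × Str => round2 (F v) v.2.1.length :=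
      PT.nat_div_rat (by fun_prop) (by fun_prop)
    rw [hF] at h2
    exact h2.isPolyTime
  · exact ⟨(((E v.1.length v.2.2 * 2 ^ v.2.1.length).num.toNat /
      (E v.1.length v.2.2 * 2 ^ v.2.1.length).den : ℕ) : ℤ), v.2.1.length, by
      beta_reduce; rw [round2, Int.cast_natCast, Nat.cast_pow, Nat.cast_ofNat]⟩
  · have := (Rat.cast_le (K := ℝ)).2 (round2_close (e0 k w) r)
    simp only [List.length_replicate]
    push_cast at this
    exact this
  · beta_reduce; exact_mod_cast e0 k w
  · beta_reduce; exact_mod_cast e1 k w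
  · simp [E]
  · intro A hA
    obtain ⟨i, N, hi, h⟩ := hA k
    refine ⟨N, ?_⟩
    beta_reduce
    exact_mod_cast h.trans (e2 k i _ (by rwa [length_chi]))

/-! ### One block -/

/-- The conditional probability of one bit. -/
def bp (σ : Bool) (w : Str) (t : ℕ) : ℚ :=
  if t < w.length then (if w.getD t false = σ then 1 else 0) else 1 / 2

/-- The conditional probability that the `r` bits from position `P` on all equal `σ`. -/
def qq (P r : ℕ) (σ : Bool) (w : Str) : ℚ := ((List.range r).map fun j => bp σ w (P + j)).prod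

variable {P r : ℕ} {σ : Bool} {w : Str}

theorem qq_succ : qq P (r + 1) σ w = qq P r σ w * bp σ w (P + r) := List.prod_range_succ _ _

theorem bp_ne {t : ℕ} (h : t ≠ w.length) (b : Bool) : bp σ (w ++ [b]) t = bp σ w t := by
  unfold bp
  rcases lt_or_gt_of_ne h with h | h
  · rw [if_pos h, if_pos (by simp; omega), List.getD_append _ _ _ _ h]
  · rw [if_neg h.not_gt, if_neg (by simp; omega)]

theorem bp_avg (t : ℕ) : bp σ (w ++ [false]) t + bp σ (w ++ [true]) t = 2 * bp σ w t := by
  by_cases h : t = w.length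
  · subst h
    cases σ <;> simp [bp]
  · rw [bp_ne h, bp_ne h, two_mul]

theorem qq_out (h : w.length < P ∨ P + r ≤ w.length) (b : Bool) :
    qq P r σ (w ++ [b]) = qq P r σ w := by
  induction r with
  | zero => rfl
  | succ r ih => rw [qq_succ, qq_succ, ih (by omega), bp_ne (by omega)]

theorem qq_avg : qq P r σ (w ++ [false]) + qq P r σ (w ++ [true]) = 2 * qq P r σ w := by
  induction r with
  | zero => norm_num [qq]
  | succ r ih =>
    rw [qq_succ, qq_succ, qq_succ]
    by_cases h : P + r = w.length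
    · rw [qq_out (Or.inr h.le), qq_out (Or.inr h.le), ← mul_add, bp_avg]
      ring
    · rw [bp_ne h, bp_ne h, ← add_mul, ih]
      ring

theorem qq_short (h : w.length ≤ P) : qq P r σ w = (1 / 2) ^ r := by
  induction r with
  | zero => simp [qq]
  | succ r ih => rw [qq_succ, ih, bp, if_neg (by omega), pow_succ]

theorem qq_mem : 0 ≤ qq P r σ w ∧ qq P r σ w ≤ 1 := by
  induction r with
  | zero => norm_num [qq]
  | succ r ih =>
    have : 0 ≤ bp σ w (P + r) ∧ bp σ w (P + r) ≤ 1 := by
      unfold bp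
      split_ifs <;> norm_num
    rw [qq_succ]
    exact ⟨mul_nonneg ih.1 this.1, mul_le_one₀ ih.2 this.1 this.2⟩

/-- The block of `A` is constant. -/
def Con (A : Str → Bool) (σ : Bool) (P r : ℕ) : Prop := ∀ j < r, A (stdString (P + j)) = σ

theorem bp_chi {A : Str → Bool} {N t : ℕ} (h : t < N) :
    bp σ (chi A N) t = if A (stdString t) = σ then 1 else 0 := by
  rw [bp, if_pos (by rwa [length_chi])]
  simp [chi, List.getD_eq_getElem?_getD, h]

theorem qq_con {A : Str → Bool} {N : ℕ} (h : P + r ≤ N) (hc : Con A σ P r) :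
    qq P r σ (chi A N) = 1 := by
  induction r with
  | zero => rfl
  | succ r ih =>
    rw [qq_succ, ih (by omega) fun j hj => hc j (by omega), bp_chi (by omega),
      if_pos (hc r (by omega)), one_mul]

theorem qq_not_con {A : Str → Bool} {N : ℕ} (h : P + r ≤ N) (hc : ¬Con A σ P r) :
    qq P r σ (chi A N) = 0 := by
  simp only [Con, not_forall] at hc
  obtain ⟨j, hj, hc⟩ := hc
  refine List.prod_eq_zero (List.mem_map.2 ⟨j, List.mem_range.2 hj, ?_⟩)
  rw [bp_chi (by omega), if_neg hc]

/-! ### The stages -/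

/-- The next level of the tower. -/
def tw (u : ℕ) : ℕ := 2 ^ u ^ 3

theorem lt_tw (u : ℕ) : u < tw u :=
  Nat.lt_two_pow_self.trans_le (Nat.pow_le_pow_right (by norm_num) (Nat.le_self_pow (by norm_num) _))

theorem two_mul_le_tw (u : ℕ) : 2 * u ≤ tw u := by
  refine le_trans ?_ (Nat.pow_le_pow_right (by norm_num) (Nat.le_self_pow (by norm_num) u))
  cases u with
  | zero => simp
  | succ u => rw [pow_succ, mul_comm]; exact Nat.mul_le_mul_right _ Nat.lt_two_pow_self

/-- One stage: the block grows unless the search succeeds. -/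
def step (fd : ℕ → ℕ → Bool) (s : ℕ × ℕ) : ℕ × ℕ := (tw s.1, if fd s.1 s.2 then s.2 else s.2 + 1)

/-- Level and block length at stage `i`. -/
def st (fd : ℕ → ℕ → Bool) (n i : ℕ) : ℕ × ℕ := (step fd)^[i] (n, n)

variable {fd : ℕ → ℕ → Bool} {n : ℕ}

theorem st_succ (i : ℕ) : st fd n (i + 1) = step fd (st fd n i) := iterate_succ_apply' _ _ _

theorem st_fst (i : ℕ) : (st fd n (i + 1)).1 = tw (st fd n i).1 := by rw [st_succ]; rfl

theorem st_le (i : ℕ) : n ≤ (st fd n i).2 ∧ (st fd n i).2 ≤ n + i ∧ n + i ≤ (st fd n i).1 := by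
  induction i with
  | zero => simp [st]
  | succ i ih =>
    have := lt_tw (st fd n i).1
    rw [st_succ, step]
    split_ifs <;> dsimp only <;> omega

theorem st_mono : Monotone fun i => (st fd n i).1 :=
  monotone_nat_of_le_succ fun i => by rw [st_fst]; exact (lt_tw _).le

theorem tw_mono {i j : ℕ} (h : i ≤ j) : tw (st fd n i).1 ≤ tw (st fd n j).1 := by
  rw [← st_fst, ← st_fst]
  exact st_mono (Nat.succ_le_succ h)

theorem block_end {i m : ℕ} (h : i < m) :
    tw (st fd n i).1 + (st fd n i).2 ≤ tw (st fd n m).1 := by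
  have h1 := tw_mono (fd := fd) (n := n) (Nat.succ_le_of_lt h)
  have h2 := two_mul_le_tw (st fd n (i + 1)).1
  have h3 := st_le (fd := fd) (n := n) i
  have h4 := lt_tw (st fd n i).1
  have h5 := st_fst (fd := fd) (n := n) i
  simp only [Nat.succ_eq_add_one] at h1
  omega

/-- The bet against a constant block when the search succeeds. -/
def aa (fd : ℕ → ℕ → Bool) (σ : Bool) (s : ℕ × ℕ) (w : Str) : ℚ :=
  if fd s.1 s.2 then (1 - qq (tw s.1) s.2 σ w) / (1 - (1 / 2) ^ s.2) else 1

/-- The bet on a constant block when the search fails. -/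
def bb (fd : ℕ → ℕ → Bool) (σ : Bool) (s : ℕ × ℕ) (w : Str) : ℚ :=
  if fd s.1 s.2 then 0 else qq (tw s.1) s.2 σ w

/-- The product of the first bets. -/
def gg (fd : ℕ → ℕ → Bool) (σ : Bool) (n m : ℕ) (w : Str) : ℚ :=
  ((List.range m).map fun i => aa fd σ (st fd n i) w).prod

/-- The sum of the second bets. -/
def ss (fd : ℕ → ℕ → Bool) (σ : Bool) (n m : ℕ) (w : Str) : ℚ :=
  ((List.range m).map fun i => bb fd σ (st fd n i) w).sum

/-- The capital when `m` stages are taken into account. -/
def val (fd : ℕ → ℕ → Bool) (σ : Bool) (n m : ℕ) (w : Str) : ℚ :=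
  (1 / 2) ^ n * gg fd σ n m w + ss fd σ n m w + 2 * (1 / 2) ^ (st fd n m).2

theorem gg_succ (m : ℕ) : gg fd σ n (m + 1) w = gg fd σ n m w * aa fd σ (st fd n m) w :=
  List.prod_range_succ _ _

theorem ss_succ (m : ℕ) : ss fd σ n (m + 1) w = ss fd σ n m w + bb fd σ (st fd n m) w :=
  List.sum_range_succ _ _

theorem half_pow_lt (hn : 0 < n) (m : ℕ) : (1 / 2 : ℚ) ^ (st fd n m).2 < 1 :=
  pow_lt_one₀ (by norm_num) (by norm_num) (by have := st_le (fd := fd) (n := n) m; omega)

theorem val_succ (hn : 0 < n) {m : ℕ} (h : w.length ≤ tw (st fd n m).1) :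
    val fd σ n (m + 1) w = val fd σ n m w := by
  have h1 := half_pow_lt (fd := fd) hn m
  rw [val, val, gg_succ, ss_succ, st_succ, step, aa, bb, qq_short h]
  split_ifs
  · rw [div_self (by linarith)]
    ring
  · ring

theorem val_stable (hn : 0 < n) {m m' : ℕ} (hm : m ≤ m') (h : w.length ≤ tw (st fd n m).1) :
    val fd σ n m' w = val fd σ n m w := by
  induction m', hm using Nat.le_induction with
  | base => rfl
  | succ m' hm ih => rw [val_succ hn (h.trans (tw_mono hm)), ih]

theorem gg_late {m : ℕ} (h : tw (st fd n m).1 ≤ w.length) (b : Bool) :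
    gg fd σ n m (w ++ [b]) = gg fd σ n m w :=
  congrArg List.prod (List.map_congr_left fun i hi => by
    rw [aa, aa, qq_out (Or.inr ((block_end (List.mem_range.1 hi)).trans h))])

theorem gg_avg (m : ℕ) :
    gg fd σ n m (w ++ [false]) + gg fd σ n m (w ++ [true]) = 2 * gg fd σ n m w := by
  induction m with
  | zero => norm_num [gg]
  | succ m ih =>
    rw [gg_succ, gg_succ, gg_succ]
    by_cases h : tw (st fd n m).1 ≤ w.length
    · have := qq_avg (P := tw (st fd n m).1) (r := (st fd n m).2) (σ := σ) (w := w)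
      rw [gg_late h, gg_late h, aa, aa, aa]
      split_ifs
      · rw [← mul_add, ← add_div, show ∀ x y : ℚ, 1 - x + (1 - y) = 2 - (x + y) by intros; ring,
          this]
        ring
      · ring
    · rw [aa, aa, aa, qq_out (Or.inl (not_le.1 h)), qq_out (Or.inl (not_le.1 h)), ← add_mul, ih]
      ring

theorem ss_avg (m : ℕ) :
    ss fd σ n m (w ++ [false]) + ss fd σ n m (w ++ [true]) = 2 * ss fd σ n m w := by
  induction m with
  | zero => norm_num [ss]
  | succ m ih =>
    have := qq_avg (P := tw (st fd n m).1) (r := (st fd n m).2) (σ := σ) (w := w)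
    rw [ss_succ, ss_succ, ss_succ, bb, bb, bb]
    split_ifs <;> linarith

theorem gg_nonneg (m : ℕ) : 0 ≤ gg fd σ n m w :=
  List.prod_nonneg fun v hv => by
    obtain ⟨i, -, rfl⟩ := List.mem_map.1 hv
    unfold aa
    split_ifs
    · exact div_nonneg (sub_nonneg.2 qq_mem.2)
        (sub_nonneg.2 (pow_le_one₀ (by norm_num) (by norm_num)))
    · norm_num

theorem bb_nonneg (s : ℕ × ℕ) : 0 ≤ bb fd σ s w := by
  unfold bb
  split_ifs
  · rfl
  · exact qq_mem.1

theorem ss_nonneg (m : ℕ) : 0 ≤ ss fd σ n m w :=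
  List.sum_nonneg fun v hv => by
    obtain ⟨i, -, rfl⟩ := List.mem_map.1 hv
    exact bb_nonneg _

theorem val_nonneg (m : ℕ) : 0 ≤ val fd σ n m w := by
  have := gg_nonneg (fd := fd) (σ := σ) (n := n) (w := w) m
  have := ss_nonneg (fd := fd) (σ := σ) (n := n) (w := w) m
  unfold val
  positivity

theorem le_tw (m : ℕ) : m < tw (st fd n m).1 := by
  have h3 := st_le (fd := fd) (n := n) m
  have h4 := lt_tw (st fd n m).1
  omega

theorem val_step (hn : 0 < n) : (val fd σ n (w ++ [false]).length (w ++ [false]) +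
    val fd σ n (w ++ [true]).length (w ++ [true])) / 2 ≤ val fd σ n w.length w := by
  have h1 := gg_avg (fd := fd) (σ := σ) (n := n) (w := w) (w.length + 1)
  have h2 := ss_avg (fd := fd) (σ := σ) (n := n) (w := w) (w.length + 1)
  rw [← val_succ (w := w) (m := w.length) hn (le_tw _).le]
  simp only [List.length_append, List.length_singleton, val]
  refine le_of_eq ?_
  linear_combination (1 / 2) ^ n / 2 * h1 + h2 / 2

theorem val_le (hn : 0 < n) (h : w.length ≤ n) : val fd σ n w.length w ≤ (1 / 2) ^ n * 4 := by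
  rw [val_stable hn (Nat.zero_le _) (h.trans (lt_tw n).le)]
  have : (0 : ℚ) ≤ (1 / 2) ^ n := by positivity
  simp only [val, gg, ss, st, List.range_zero, List.map_nil, List.prod_nil, List.sum_nil,
    iterate_zero, id]
  linarith

/-- A constant block at a stage where the search fails is covered. -/
theorem cover_fail {A : Str → Bool} {i : ℕ} (h1 : fd (st fd n i).1 (st fd n i).2 = false)
    (h2 : Con A σ (tw (st fd n i).1) (st fd n i).2) (M : ℕ) :
    ∃ N, M < N ∧ 1 ≤ val fd σ n (chi A N).length (chi A N) := by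
  refine ⟨M + i + 1 + (tw (st fd n i).1 + (st fd n i).2), by omega, ?_⟩
  set N := M + i + 1 + (tw (st fd n i).1 + (st fd n i).2) with hN
  have a1 := gg_nonneg (fd := fd) (σ := σ) (n := n) (w := chi A N) N
  have a2 : bb fd σ (st fd n i) (chi A N) ≤ ss fd σ n N (chi A N) :=
    List.single_le_sum (fun v hv => by
      obtain ⟨i, -, rfl⟩ := List.mem_map.1 hv
      exact bb_nonneg _) _ (List.mem_map_of_mem (List.mem_range.2 (by omega)))
  rw [bb, h1, if_neg (by simp), qq_con (by omega) h2] at a2
  rw [length_chi, val]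
  have a3 : (0 : ℚ) ≤ (1 / 2) ^ n * gg fd σ n N (chi A N) := by positivity
  have a4 : (0 : ℚ) ≤ 2 * (1 / 2) ^ (st fd n N).2 := by positivity
  linarith

/-- If no block is constant and the search succeeds from some stage on, `A` is covered. -/
theorem cover_found (hn : 0 < n) {A : Str → Bool} {m : ℕ}
    (h1 : ∀ i ≥ m, fd (st fd n i).1 (st fd n i).2 = true)
    (h2 : ∀ i, ¬Con A σ (tw (st fd n i).1) (st fd n i).2) (M : ℕ) :
    ∃ N, M < N ∧ 1 ≤ val fd σ n (chi A N).length (chi A N) := by
  have hr : ∀ d, (st fd n (m + d)).2 = (st fd n m).2 := by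
    intro d
    induction d with
    | zero => rfl
    | succ d ih => rw [← Nat.add_assoc, st_succ, step, h1 _ (by omega), if_pos rfl, ih]
  have ha : ∀ i N, tw (st fd n (i + 1)).1 ≤ N → fd (st fd n i).1 (st fd n i).2 = true →
      1 + (1 / 2) ^ (st fd n i).2 ≤ aa fd σ (st fd n i) (chi A N) := by
    intro i N hN h
    have a1 := half_pow_lt (fd := fd) hn i
    rw [aa, if_pos h, qq_not_con ((block_end (Nat.lt_succ_self i)).trans hN) (h2 i),
      le_div_iff₀ (by linarith)]
    nlinarith [sq_nonneg ((1 / 2 : ℚ) ^ (st fd n i).2)]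
  have hb : ∀ j N, tw (st fd n j).1 ≤ N → 1 ≤ gg fd σ n j (chi A N) := by
    intro j N hN
    induction j with
    | zero => simp [gg]
    | succ j ih =>
      rw [gg_succ]
      refine one_le_mul_of_one_le_of_one_le (ih ((tw_mono (Nat.le_succ j)).trans hN)) ?_
      by_cases h : fd (st fd n j).1 (st fd n j).2 = true
      · exact le_trans (le_add_of_nonneg_right (by positivity)) (ha j N hN h)
      · rw [aa, if_neg h]
  have hc : ∀ d N, tw (st fd n (m + d)).1 ≤ N →
      1 + d * (1 / 2) ^ (st fd n m).2 ≤ gg fd σ n (m + d) (chi A N) := by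
    intro d N hN
    induction d with
    | zero => simpa using hb m N hN
    | succ d ih =>
      have a1 := ih ((tw_mono (by omega)).trans hN)
      have a2 := ha (m + d) N hN (h1 _ (by omega))
      have a3 : (0 : ℚ) ≤ (1 / 2) ^ (st fd n m).2 := by positivity
      have a4 : (0 : ℚ) ≤ d * (1 / 2) ^ (st fd n m).2 := by positivity
      rw [hr] at a2
      rw [← Nat.add_assoc, gg_succ]
      push_cast
      nlinarith [mul_le_mul a1 a2 (by linarith) (by linarith), mul_nonneg a3 a4]
  set d := M + 2 ^ (n + (st fd n m).2) with hd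
  have a0 := le_tw (fd := fd) (n := n) (m + d)
  have a0' : M ≤ d := Nat.le_add_right _ _
  refine ⟨tw (st fd n (m + d)).1, by omega, ?_⟩
  have a1 := hc d _ le_rfl
  have a2 := ss_nonneg (fd := fd) (σ := σ) (n := n) (w := chi A (tw (st fd n (m + d)).1)) (m + d)
  rw [val_stable hn (m := m + d) (by rw [length_chi]; omega) (by rw [length_chi]), val]
  have a3 : (0 : ℚ) ≤ 2 * (1 / 2) ^ (st fd n (m + d)).2 := by positivity
  have a4 : (1 : ℚ) ≤ (1 / 2) ^ n * (d * (1 / 2) ^ (st fd n m).2) := by
    have b1 : (2 : ℚ) ^ (n + (st fd n m).2) ≤ d := by exact_mod_cast Nat.le_add_left _ _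
    have b2 : (1 / 2 : ℚ) ^ n * (2 ^ (n + (st fd n m).2) * (1 / 2) ^ (st fd n m).2) = 1 := by
      rw [pow_add, one_div, inv_pow, inv_pow]
      field_simp
    refine b2.ge.trans ?_
    gcongr
  have a5 : (0 : ℚ) ≤ (1 / 2) ^ n := by positivity
  nlinarith [mul_le_mul_of_nonneg_left a1 a5]

/-! ### The guarded computation -/

/-- The stages that can be computed in time polynomial in `N`. -/
def gst (fd : ℕ → ℕ → Bool) (N n i : ℕ) : ℕ × ℕ :=
  (fun s => if tw s.1 ≤ N then step fd s else s)^[i] (n, n)

theorem gst_eq {N m : ℕ} (h1 : ∀ i < m, tw (st fd n i).1 ≤ N) (h2 : N < tw (st fd n m).1)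
    (i : ℕ) : gst fd N n i = st fd n (min i m) := by
  induction i with
  | zero => rfl
  | succ i ih =>
    rw [gst, iterate_succ_apply', ← gst, ih]
    rcases lt_or_ge i m with h | h
    · rw [min_eq_left h.le, if_pos (h1 i h), min_eq_left h, st_succ]
    · rw [min_eq_right h, if_neg h2.not_ge, min_eq_right (by omega)]

theorem exists_stop (fd : ℕ → ℕ → Bool) (N n : ℕ) :
    ∃ m ≤ N, (∀ i < m, tw (st fd n i).1 ≤ N) ∧ N < tw (st fd n m).1 := by
  have h : ∃ m, N < tw (st fd n m).1 := ⟨N, le_tw N⟩
  exact ⟨Nat.find h, Nat.find_min' h (le_tw N), fun i hi => not_lt.1 (Nat.find_min h hi),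
    Nat.find_spec h⟩

/-- The capital computed from the guarded stages. -/
def cval (fd : ℕ → ℕ → Bool) (σ : Bool) (n j : ℕ) (w : Str) : ℚ :=
  (1 / 2) ^ n * ((List.range j).map fun i => if tw (gst fd w.length n i).1 ≤ w.length then
      aa fd σ (gst fd w.length n i) w else 1).prod +
    ((List.range j).map fun i => if tw (gst fd w.length n i).1 ≤ w.length then
      bb fd σ (gst fd w.length n i) w else 0).sum + 2 * (1 / 2) ^ (gst fd w.length n j).2

theorem cval_eq (hn : 0 < n) : cval fd σ n w.length w = val fd σ n w.length w := by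
  obtain ⟨m, hm, h1, h2⟩ := exists_stop fd w.length n
  have a1 : ∀ j, ((List.range j).map fun i => if tw (st fd n (min i m)).1 ≤ w.length then
      aa fd σ (st fd n (min i m)) w else 1).prod = gg fd σ n (min j m) w := by
    intro j
    induction j with
    | zero => rfl
    | succ j ih =>
      rw [List.prod_range_succ, ih]
      rcases lt_or_ge j m with h | h
      · rw [min_eq_left h.le, if_pos (h1 j h), min_eq_left h, gg_succ]
      · rw [min_eq_right h, if_neg h2.not_ge, min_eq_right (by omega), mul_one]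
  have a2 : ∀ j, ((List.range j).map fun i => if tw (st fd n (min i m)).1 ≤ w.length then
      bb fd σ (st fd n (min i m)) w else 0).sum = ss fd σ n (min j m) w := by
    intro j
    induction j with
    | zero => rfl
    | succ j ih =>
      rw [List.sum_range_succ, ih]
      rcases lt_or_ge j m with h | h
      · rw [min_eq_left h.le, if_pos (h1 j h), min_eq_left h, ss_succ]
      · rw [min_eq_right h, if_neg h2.not_ge, min_eq_right (by omega), add_zero]
  rw [val_stable hn hm h2.le]
  simp only [cval, gst_eq h1 h2, a1, a2, min_eq_right hm, val]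

end Pool.Agent.P.MP_158ebf_lc.POpt
end

-- part Pool.Agent.P.MP_158ebf_lc.PMain
section

/-! Optimal proof systems and p-measure. -/

namespace Pool.Agent.P.MP_158ebf_lc.POpt

open Function Filter N487b59b3 N68a2faeb Pool.Agent.Lib.PolyTime

/-- The instance for level `u` and block length `r`. -/
def inst (u r : ℕ) : Str := List.replicate u true ++ List.replicate (min r u) false

/-- The candidate proof computed by the `j`-th program at level `u`. -/
def cand (j u : ℕ) : Str :=
  decStr (urun (decCode (blk j 0)) (bitEncode (true :: List.replicate u true)) (2 ^ u ^ 2))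

/-- One of the first `u` programs computes a proof of the statement about the block. -/
def found (e e' : Code) (u r : ℕ) : Bool :=
  (List.range u).any fun j =>
    urun e (bitEncode (cand j u)) (tw u) == urun e' (bitEncode (inst u r)) (tw u)

/-- The strings of the block described by `x`. -/
def strs (x : Str) : List Str :=
  (List.range (x.countP fun b => !b)).map fun j => stdString (tw (x.countP fun b => b) + j)

theorem any_strs (A : Str → Bool) (σ : Bool) {u r : ℕ} (h : r ≤ u) :
    (strs (inst u r)).any (fun y => A y != σ) = true ↔ ¬Con A σ (tw u) r := by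
  simp [strs, inst, min_eq_left h, List.countP_replicate, Con]

/-! ### Polynomial time -/

section

variable {α : Type} [N487b59b3 α]

theorem small_of_tw {u : α → ℕ} (h : Small fun a => tw (u a)) : Small u :=
  h.mono fun _ => (lt_tw _).le

theorem pt_tw {u : α → ℕ} (hu : PT u) (h : Small u) : PT fun a => tw (u a) := by
  unfold tw; fun_prop

theorem pt_strs : PT strs := by
  have h1 : Small fun x : Str => x.countP fun b => !b :=
    (Small.length PT.id).mono fun _ => List.countP_le_length
  have h2 : Small fun x : Str => x.countP fun b => b :=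
    (Small.length PT.id).mono fun _ => List.countP_le_length
  have h3 : PT fun x : Str => tw (x.countP fun b => b) := pt_tw (by fun_prop) h2
  obtain ⟨F, hF⟩ : ∃ F : Str → ℕ, F = fun x => tw (x.countP fun b => b) := ⟨_, rfl⟩
  rw [← hF] at h3
  refine (show PT fun x : Str => (List.range (x.countP fun b => !b)).map fun j =>
    (F x + j + 1).bits.reverse.tail by fun_prop).congr fun x => ?_
  simp only [hF, strs, stdString]

theorem pt_inst {u r : α → ℕ} (hu : PT u) (hr : PT r) (h : Small u) :
    PT fun a => inst (u a) (r a) := by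
  unfold inst; fun_prop

theorem pt_found {e e' : α → Code} {u r : α → ℕ} (he : PT e) (he' : PT e') (hu : PT u)
    (hr : PT r) (h : Small fun a => tw (u a)) : PT fun a => found (e a) (e' a) (u a) (r a) := by
  have h1 := small_of_tw h
  have h2 := pt_tw hu h1
  have h3 := pt_inst hu hr h1
  have h4 : Small fun a => 2 ^ u a ^ 2 := h.mono fun a => by
    rcases Nat.eq_zero_or_pos (u a) with h0 | h0
    · simp [h0, tw]
    · exact Nat.pow_le_pow_right (by norm_num) (Nat.pow_le_pow_right h0 (by norm_num))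
  have h5 : PT fun a => 2 ^ u a ^ 2 := by fun_prop
  obtain ⟨F, hF⟩ : ∃ F : α → ℕ, F = fun a => tw (u a) := ⟨_, rfl⟩
  obtain ⟨G, hG⟩ : ∃ G : α → ℕ, G = fun a => 2 ^ u a ^ 2 := ⟨_, rfl⟩
  obtain ⟨I, hI⟩ : ∃ I : α → Str, I = fun a => inst (u a) (r a) := ⟨_, rfl⟩
  rw [← hF] at h h2
  rw [← hG] at h4 h5
  rw [← hI] at h3
  refine (show PT fun a => (List.range (u a)).any fun j =>
    urun (e a) (bitEncode (decStr (urun (decCode (blk j 0))
      (bitEncode (true :: List.replicate (u a) true)) (G a)))) (F a) ==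
        urun (e' a) (bitEncode (I a)) (F a) by fun_prop).congr fun a => ?_
  simp only [hF, hG, hI, found, cand]

theorem ptp_tw {u N : α → ℕ} (hu : PT u) (hN : PT N) : PTP fun a => tw (u a) ≤ N a :=
  (show PTP fun a => u a ^ 3 < (N a).size by fun_prop).congr fun _ => Nat.lt_size.symm

/-- The level, replaced by zero when it is too large. -/
def clip (N u : ℕ) : ℕ := if tw u ≤ N then u else 0

theorem pt_clip {u N : α → ℕ} (hu : PT u) (hN : PT N) : PT fun a => clip (N a) (u a) :=
  PT.ite (ptp_tw hu hN) hu (PT.const 0)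

theorem small_clip {u N : α → ℕ} (hN : Small N) : Small fun a => tw (clip (N a) (u a)) :=
  (hN.add (Small.const 1)).mono fun a => by
    unfold clip
    split_ifs with h
    · omega
    · simp [tw]

theorem pt_gst {e e' : α → Code} {N n i : α → ℕ} (he : PT e) (he' : PT e') (hN : PT N)
    (hN' : Small N) (hn : PT n) (hi : PT i) (hi' : Small i) :
    PT fun a => gst (found (e a) (e' a)) (N a) (n a) (i a) := by
  have h0 : PT fun p : α × ℕ × ℕ => clip (N p.1) p.2.1 := pt_clip (by fun_prop) (by fun_prop)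
  have h1 : Small fun p : α × ℕ × ℕ => tw (clip (N p.1) p.2.1) := small_clip (by fun_prop)
  have h2 : PT fun p : α × ℕ × ℕ => found (e p.1) (e' p.1) (clip (N p.1) p.2.1) p.2.2 :=
    pt_found (by fun_prop) (by fun_prop) h0 (by fun_prop) h1
  refine PT.iterate_nat_growth hi hi' (by fun_prop) ?_ (fun a => 2 * N a + 2) (by fun_prop)
    fun a s => ?_
  · refine (PT.ite (inst := fun _ => inferInstance)
      (ptp_tw (u := fun p : α × ℕ × ℕ => p.2.1) (N := fun p => N p.1) (by fun_prop) (by fun_prop))
      (PT.pair (pt_tw h0 (small_of_tw h1)) (PT.cond h2 (g := fun p => p.2.2 + 1) (f := fun p => p.2.2)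
        (by fun_prop) (by fun_prop))) (g := fun p => p.2) (by fun_prop)).congr fun p => ?_
    split_ifs with h
    · simp [step, clip, h]
    · rfl
  · split_ifs with h
    · have h3 := sz_le_self (tw s.1)
      have h4 := sz_add_le s.2 1
      have h5 := sz_le_self 1
      rw [step, sz_pair', sz_pair']
      split_ifs <;> dsimp only <;> omega
    · omega

theorem pt_qq {P r : α → ℕ} {σ : α → Bool} {w : α → Str} (hP : PT P) (hr : PT r) (hr' : Small r)
    (hσ : PT σ) (hw : PT w) : PT fun a => qq (P a) (r a) (σ a) (w a) := by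
  unfold qq bp; fun_prop

end

theorem gst_le (fd : ℕ → ℕ → Bool) (N n i : ℕ) :
    (gst fd N n i).2 ≤ (gst fd N n i).1 ∧ (gst fd N n i).1 ≤ N + n := by
  induction i with
  | zero => simp [gst]
  | succ i ih =>
    have := lt_tw (gst fd N n i).1
    rw [gst, iterate_succ_apply', ← gst, step]
    split_ifs
    · exact ⟨by dsimp only; omega, by dsimp only; omega⟩
    · exact ⟨by dsimp only; omega, by dsimp only; omega⟩
    · exact ih

/-- The strategy with index `i`. -/
def TT (i n : ℕ) (w : Str) : ℚ :=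
  cval (found (decCode (blk i 0)) (decCode (blk i 1))) ((blk i 2).headD false) n w.length w

theorem pt_TT : PT fun a : ℕ × Str × Str => TT a.1 a.2.1.length a.2.2 := by
  obtain ⟨S, hS⟩ : ∃ S : (ℕ × Str × Str) × ℕ → ℕ × ℕ, S = fun p =>
    gst (found (decCode (blk p.1.1 0)) (decCode (blk p.1.1 1))) p.1.2.2.length p.1.2.1.length
      (min p.2 p.1.2.2.length) := ⟨_, rfl⟩
  have h1 : PT S := by
    rw [hS]
    exact pt_gst (by fun_prop) (by fun_prop) (by fun_prop) (by fun_prop) (by fun_prop)
      (by fun_prop) (by fun_prop)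
  have h2 : Small fun p => (S p).2 :=
    Small.mono (n := fun p => p.1.2.2.length + p.1.2.1.length) (by fun_prop) fun p => by
      rw [hS]; exact (gst_le _ _ _ _).1.trans (gst_le _ _ _ _).2
  have h3 : PT fun p => clip p.1.2.2.length (S p).1 := pt_clip (by fun_prop) (by fun_prop)
  have h4 : Small fun p => tw (clip p.1.2.2.length (S p).1) := small_clip (by fun_prop)
  have h5 : PT fun p => found (decCode (blk p.1.1 0)) (decCode (blk p.1.1 1))
      (clip p.1.2.2.length (S p).1) (S p).2 :=
    pt_found (by fun_prop) (by fun_prop) h3 (by fun_prop) h4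
  have h6 : PT fun p => qq (tw (clip p.1.2.2.length (S p).1)) (S p).2 ((blk p.1.1 2).headD false)
      p.1.2.2 := pt_qq (pt_tw h3 (small_of_tw h4)) (by fun_prop) h2 (by fun_prop) (by fun_prop)
  have h7 : PTP fun p => tw (S p).1 ≤ p.1.2.2.length := ptp_tw (by fun_prop) (by fun_prop)
  have h8 : PT fun p => (1 / 2 : ℚ) ^ (S p).2 := PT.rat_pow (PT.const _) (by fun_prop) h2
  have h9 : PT fun p => if tw (S p).1 ≤ p.1.2.2.length then
      aa (found (decCode (blk p.1.1 0)) (decCode (blk p.1.1 1))) ((blk p.1.1 2).headD false)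
        (S p) p.1.2.2 else 1 := by
    refine (PT.ite (inst := fun _ => inferInstance) h7 (PT.cond h5
      (PT.rat_div (PT.rat_sub (PT.const 1) h6) (PT.rat_sub (PT.const 1) h8)) (PT.const 1))
      (PT.const 1)).congr fun p => ?_
    split_ifs with h
    · simp [aa, clip, h]
    · rfl
  have h10 : PT fun p => if tw (S p).1 ≤ p.1.2.2.length then
      bb (found (decCode (blk p.1.1 0)) (decCode (blk p.1.1 1))) ((blk p.1.1 2).headD false)
        (S p) p.1.2.2 else 0 := by
    refine (PT.ite (inst := fun _ => inferInstance) h7 (PT.cond h5 (PT.const 0) h6)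
      (PT.const 0)).congr fun p => ?_
    split_ifs with h
    · simp [bb, clip, h]
    · rfl
  obtain ⟨F, hF⟩ : ∃ F : (ℕ × Str × Str) × ℕ → ℚ, F = fun p =>
    if tw (S p).1 ≤ p.1.2.2.length then
      aa (found (decCode (blk p.1.1 0)) (decCode (blk p.1.1 1))) ((blk p.1.1 2).headD false)
        (S p) p.1.2.2 else 1 := ⟨_, rfl⟩
  obtain ⟨G, hG⟩ : ∃ G : (ℕ × Str × Str) × ℕ → ℚ, G = fun p =>
    if tw (S p).1 ≤ p.1.2.2.length then
      bb (found (decCode (blk p.1.1 0)) (decCode (blk p.1.1 1))) ((blk p.1.1 2).headD false)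
        (S p) p.1.2.2 else 0 := ⟨_, rfl⟩
  obtain ⟨H, hH⟩ : ∃ H : (ℕ × Str × Str) × ℕ → ℚ, H = fun p => (1 / 2 : ℚ) ^ (S p).2 := ⟨_, rfl⟩
  rw [← hF] at h9
  rw [← hG] at h10
  rw [← hH] at h8
  refine (show PT fun a : ℕ × Str × Str => (1 / 2 : ℚ) ^ a.2.1.length *
    ((List.range a.2.2.length).map fun i => F (a, i)).prod +
    ((List.range a.2.2.length).map fun i => G (a, i)).sum + 2 * H (a, a.2.2.length) by
      fun_prop).congr fun a => ?_
  rw [TT, cval]
  congr 2
  · congr 2
    exact List.map_congr_left fun i hi => by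
      simp only [hF, hS, min_eq_left (List.mem_range.1 hi).le]
  · congr 1
    exact List.map_congr_left fun i hi => by
      simp only [hG, hS, min_eq_left (List.mem_range.1 hi).le]
  · simp only [hH, hS, min_self]

/-! ### Clocks -/

theorem eval_le_pow (p : Polynomial ℕ) : ∃ c, ∀ n, p.eval n ≤ (n + 2) ^ c := by
  induction p using Polynomial.induction_on' with
  | add p q hp hq =>
    obtain ⟨a, ha⟩ := hp
    obtain ⟨b, hb⟩ := hq
    refine ⟨a + b + 1, fun n => ?_⟩
    have h1 : (n + 2) ^ a ≤ (n + 2) ^ (a + b) := Nat.pow_le_pow_right (by omega) (by omega)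
    have h2 : (n + 2) ^ b ≤ (n + 2) ^ (a + b) := Nat.pow_le_pow_right (by omega) (by omega)
    rw [Polynomial.eval_add, pow_succ]
    nlinarith [ha n, hb n]
  | monomial k c =>
    refine ⟨c + k, fun n => ?_⟩
    rw [Polynomial.eval_monomial, pow_add]
    exact Nat.mul_le_mul (Nat.lt_two_pow_self.le.trans (Nat.pow_le_pow_left (by omega) _))
      (Nat.pow_le_pow_left (by omega) _)

theorem eval_le_tw (p : Polynomial ℕ) : ∃ n₀, ∀ u ≥ n₀, p.eval (2 ^ u ^ 2) ≤ tw u := by
  obtain ⟨c, hc⟩ := eval_le_pow p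
  refine ⟨3 * c + 1, fun u hu => (hc _).trans ?_⟩
  have h1 : 2 ^ u ^ 2 + 2 ≤ 2 ^ (u ^ 2 + 2) := by
    have := Nat.one_le_two_pow (n := u ^ 2)
    rw [pow_add]; omega
  refine (Nat.pow_le_pow_left h1 c).trans ?_
  rw [← pow_mul]
  have h2 : 1 ≤ u ^ 2 := Nat.one_le_pow _ _ (by omega)
  refine Nat.pow_le_pow_right (by norm_num) ?_
  calc (u ^ 2 + 2) * c ≤ (3 * u ^ 2) * c := Nat.mul_le_mul_right _ (by omega)
    _ = u ^ 2 * (3 * c) := by ring
    _ ≤ u ^ 2 * u := Nat.mul_le_mul_left _ (by omega)
    _ = u ^ 3 := by ring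

theorem le_clock (u : ℕ) : u ≤ 2 ^ u ^ 2 :=
  (Nat.le_self_pow (by norm_num) u).trans Nat.lt_two_pow_self.le

theorem sz_cand : ∃ q : Polynomial ℕ, ∀ j u, j < u → sz (cand j u) ≤ q.eval (2 ^ u ^ 2) := by
  have h : PT fun a : ℕ × Str × Str =>
      decStr (urun (decCode (blk a.1 0)) (bitEncode (true :: a.2.1)) a.2.2.length) := by fun_prop
  obtain ⟨q, hq⟩ := h.size
  refine ⟨q.comp (Polynomial.C 13 * Polynomial.X), fun j u hj => ?_⟩
  have h1 := hq (j, List.replicate u true, List.replicate (2 ^ u ^ 2) true)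
  simp only [List.length_replicate] at h1
  refine h1.trans ?_
  rw [Polynomial.eval_comp]
  refine eval_mono q ?_
  have h2 := le_clock u
  have h3 := sz_le_self j
  simp only [sz_pair', sz_str, List.length_replicate, Polynomial.eval_mul, Polynomial.eval_C,
    Polynomial.eval_X]
  omega

/-- At large levels the clocked machines compute the proof system and the reduction. -/
theorem exists_codes {f g : Str → Str} (hf : IsPolyTime f) (hg : IsPolyTime g) :
    ∃ (e e' : Code) (n₀ : ℕ), ∀ u ≥ n₀, ∀ r,
      found e e' u r = true ↔ ∃ j < u, f (cand j u) = g (inst u r) := by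
  obtain ⟨e, p, he⟩ := exists_code hf
  obtain ⟨e', p', he'⟩ := exists_code hg
  obtain ⟨q, hq⟩ := sz_cand
  obtain ⟨n₁, h1⟩ := eval_le_tw (p.comp q)
  obtain ⟨n₂, h2⟩ := eval_le_tw (p'.comp (Polynomial.C 6 * Polynomial.X))
  refine ⟨e, e', n₁ + n₂, fun u hu r => ?_⟩
  have a1 : urun e' (bitEncode (inst u r)) (tw u) = bitEncode (g (inst u r)) := by
    refine he' _ _ (le_trans ?_ (h2 u (by omega)))
    rw [Polynomial.eval_comp]
    refine eval_mono p' ?_
    have := le_clock u
    simp only [sz_str, inst, List.length_append, List.length_replicate, Polynomial.eval_mul,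
      Polynomial.eval_C, Polynomial.eval_X]
    omega
  simp only [found, List.any_eq_true, List.mem_range, beq_iff_eq, a1]
  refine exists_congr fun j => and_congr_right fun hj => ?_
  rw [he _ _ (le_trans ?_ (h1 u (by omega)))]
  · exact ⟨fun h => by rw [← decStr_enc (f _), h, decStr_enc], fun h => by rw [h]⟩
  · rw [Polynomial.eval_comp]
    exact eval_mono p (hq j u hj)

theorem exists_cand {h : Str → Str} (hh : IsExpTime h) :
    ∃ j n₀, ∀ u ≥ n₀, cand j u = h (true :: List.replicate u true) := by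
  obtain ⟨M, c, hc⟩ := hh
  obtain ⟨e, C, he⟩ := exists_code_time M
  obtain ⟨j, -, hj, -⟩ := exists_index (bitEncode e) [] [] 0
  refine ⟨j, C + 7 * c + 1, fun u hu => ?_⟩
  rw [cand, hj, decCode_enc, he, decStr_enc]
  calc C * M.time (sz (true :: List.replicate u true))
      ≤ 2 ^ C * 2 ^ (c * sz (true :: List.replicate u true) + c) :=
        Nat.mul_le_mul Nat.lt_two_pow_self.le (hc _)
    _ = 2 ^ (C + (c * sz (true :: List.replicate u true) + c)) := (pow_add _ _ _).symm
    _ ≤ 2 ^ u ^ 2 := Nat.pow_le_pow_right (by norm_num) (by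
        rw [sz_str, List.length_cons, List.length_replicate]
        have h1 : 1 ≤ u := by omega
        nlinarith [Nat.mul_le_mul_left u hu, Nat.mul_le_mul_left C h1, Nat.mul_le_mul_left c h1])

/-! ### The cover -/

theorem covers_opt {A L : Str → Bool} {σ : Bool} {f g : Str → Str} (hf : EOptimal f L)
    (hg : IsPolyTime g) (hr : ∀ x, (strs x).any (fun y => A y != σ) = L (g x)) (k : ℕ) :
    ∃ i N, i < N ∧ 1 ≤ TT i (k + i + 3) (chi A N) := by
  obtain ⟨e, e', n₀, he⟩ := exists_codes hf.1.1 hg
  obtain ⟨i, hi, b0, b1, b2⟩ := exists_index (bitEncode e) (bitEncode e') [σ] n₀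
  refine ⟨i, ?_⟩
  set n := k + i + 3 with hn
  have hn0 : 0 < n := by omega
  simp only [TT, cval_eq hn0, b0, b1, b2, decCode_enc, List.headD_cons]
  have hL : ∀ m, L (g (inst (st (found e e') n m).1 (st (found e e') n m).2)) = true ↔
      ¬Con A σ (tw (st (found e e') n m).1) (st (found e e') n m).2 := fun m => by
    have := st_le (fd := found e e') (n := n) m
    rw [← hr, any_strs _ _ (by omega)]
  have hu : ∀ m, n₀ ≤ (st (found e e') n m).1 := fun m => by
    have := st_le (fd := found e e') (n := n) m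
    omega
  by_cases hc : ∃ m, Con A σ (tw (st (found e e') n m).1) (st (found e e') n m).2
  · obtain ⟨m, hm⟩ := hc
    refine cover_fail (i := m) (Bool.eq_false_iff.2 fun h => ?_) hm i
    obtain ⟨j, -, hj⟩ := (he _ (hu m) _).1 h
    exact (hL m).1 ((hf.1.2 _).2 ⟨_, hj⟩) hm
  · let S : Str → ℕ × ℕ := fun w => gst (found e e') w.tail.length n w.tail.length
    have s1 : PT S := pt_gst (PT.const _) (PT.const _) (by fun_prop) (by fun_prop) (PT.const _)
      (by fun_prop) (by fun_prop)
    have s2 : Small fun w => (S w).1 :=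
      Small.mono (n := fun w : Str => w.tail.length + n) (by fun_prop) fun w => (gst_le _ _ _ _).2
    have s3 : PT fun w : Str => bif w.headD false then g (inst (S w).1 (S w).2) else f w.tail :=
      PT.cond (by fun_prop) ((PT.of_isPolyTime hg).comp (pt_inst s1.fst s1.snd s2))
        ((PT.of_isPolyTime hf.1.1).comp (by fun_prop))
    obtain ⟨h, hh, hs⟩ := hf.2 _ ⟨s3.isPolyTime, fun y => ⟨fun hy => by
      obtain ⟨w, hw⟩ := (hf.1.2 y).1 hy
      exact ⟨false :: w, hw⟩, by
      rintro ⟨w, rfl⟩
      cases w.headD false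
      · exact (hf.1.2 _).2 ⟨_, rfl⟩
      · obtain ⟨m, -, h1, h2⟩ := exists_stop (found e e') w.tail.length n
        simp only [S, gst_eq h1 h2, cond_true]
        exact (hL _).2 fun h => hc ⟨_, h⟩⟩⟩
    obtain ⟨j, n₁, hj⟩ := exists_cand hh
    refine cover_found hn0 (m := j + n₁) (fun m hm => ?_) (fun m h => hc ⟨m, h⟩) i
    have a1 := st_le (fd := found e e') (n := n) m
    refine (he _ (hu m) _).2 ⟨j, by omega, ?_⟩
    rw [hj _ (by omega), hs]
    have a2 : gst (found e e') (st (found e e') n m).1 n (st (found e e') n m).1 =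
        st (found e e') n m := by
      rw [gst_eq (m := m) (fun i hi => by rw [← st_fst]; exact st_mono hi) (lt_tw _),
        min_eq_right (by omega)]
    simp only [S, List.headD_cons, cond_true, List.tail_cons, List.length_replicate, a2]

theorem pnull_mono {X Y : Set (Str → Bool)} (h : PNull Y) (hXY : X ⊆ Y) : PNull X := by
  obtain ⟨d, c, h1, h2, h3, h4⟩ := h
  exact ⟨d, c, h1, h2, h3, fun k => ⟨(h4 k).1, (h4 k).2.1, fun A hA => (h4 k).2.2 A (hXY hA)⟩⟩

theorem pnull_opt : PNull {A | ∃ L f, EOptimal f L ∧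
    ((∀ B, Dtt B A → ManyOne B L) ∨ ∀ B, Dtt B (fun x => !A x) → ManyOne B L)} := by
  refine pnull_mono (pnull_family TT (fun i n w => ?_) (fun i n w => ?_) (fun i n w h => ?_)
    pt_TT) ?_
  · rw [TT, cval_eq n.succ_pos]
    exact val_nonneg _
  · simp only [TT, cval_eq n.succ_pos]
    exact val_step n.succ_pos
  · rw [TT, cval_eq n.succ_pos]
    exact val_le n.succ_pos h
  · rintro A ⟨L, f, hf, h | h⟩ k
    · obtain ⟨g, hg, hr⟩ := h _ ⟨strs, pt_strs.isPolyTime, fun _ => rfl⟩
      exact covers_opt (σ := false) hf hg (by simpa using hr) k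
    · obtain ⟨g, hg, hr⟩ := h _ ⟨strs, pt_strs.isPolyTime, fun _ => rfl⟩
      exact covers_opt (σ := true) hf hg (by simpa using hr) k

end Pool.Agent.P.MP_158ebf_lc.POpt
end
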