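import Pool.Agent.P.MP_158ebf_lc.ODefs
import Pool.Agent.K.MP_158ebf_lc.C0
import Pool.Agent.P.MP_435dae_lc.Defs
import Pool.Agent.K.MP_158ebf_lc.C1

-- part Pool.Agent.P.MP_158ebf_lc.OTree
section

/-! Decision trees over an oracle and the capital of a betting strategy given by trees. -/

namespace Pool.Agent.P.MP_158ebf_lc

open Pool.Agent.Lib.PolyTime

/-- Oracles. -/
abbrev Orc := Str → Bool

/-- Decision trees with queries to an oracle. -/
inductive DT (γ : Type) : Type
  | leaf : γ → DT γ
  | node : Str → DT γ → DT γ → DT γ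

namespace DT

variable {γ δ : Type}

/-- The value of the tree. -/
def eval (O : Orc) : DT γ → γ
  | leaf c => c
  | node z t0 t1 => bif O z then t1.eval O else t0.eval O

/-- The depth. -/
def depth : DT γ → ℕ
  | leaf _ => 0
  | node _ t0 t1 => max t0.depth t1.depth + 1

/-- The queries asked on the oracle `O`. -/
def qs (O : Orc) : DT γ → List Str
  | leaf _ => []
  | node z t0 t1 => z :: bif O z then t1.qs O else t0.qs O

/-- Sequential composition. -/
def bind : DT γ → (γ → DT δ) → DT δ
  | leaf c, f => f c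
  | node z t0 t1, f => node z (t0.bind f) (t1.bind f)

theorem eval_bind (O : Orc) (t : DT γ) (f : γ → DT δ) :
    (t.bind f).eval O = (f (t.eval O)).eval O := by
  induction t with
  | leaf c => rfl
  | node z t0 t1 h0 h1 => cases h : O z <;> simp [bind, eval, h, h0, h1]

theorem depth_bind_le (t : DT γ) (f : γ → DT δ) {n : ℕ} (h : ∀ c, (f c).depth ≤ n) :
    (t.bind f).depth ≤ t.depth + n := by
  induction t with
  | leaf c => simpa [bind, depth] using h c
  | node z t0 t1 h0 h1 => simp only [bind, depth]; omega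

theorem length_qs_le (O : Orc) (t : DT γ) : (t.qs O).length ≤ t.depth := by
  induction t with
  | leaf c => simp [qs]
  | node z t0 t1 h0 h1 => cases h : O z <;> simp only [qs, depth, h, cond, List.length_cons] <;> omega

theorem agree {O O' : Orc} (t : DT γ) (h : ∀ z ∈ t.qs O, O' z = O z) :
    t.eval O' = t.eval O ∧ t.qs O' = t.qs O := by
  induction t with
  | leaf c => exact ⟨rfl, rfl⟩
  | node z t0 t1 h0 h1 =>
    have hz : O' z = O z := h z (by simp [qs])
    cases hO : O z
    · have := h0 fun y hy => h y (by simp [qs, hO, hy])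
      simp [eval, qs, hz, hO, this.1, this.2]
    · have := h1 fun y hy => h y (by simp [qs, hO, hy])
      simp [eval, qs, hz, hO, this.1, this.2]

end DT

/-- The probability given to the bit `b` by the number `β` (clipped to `[0,1]`). -/
noncomputable def pr (β : ℝ) (b : Bool) : ℝ :=
  bif b then max 0 (min 1 β) else 1 - max 0 (min 1 β)

theorem pr_nonneg (β : ℝ) (b : Bool) : 0 ≤ pr β b := by
  cases b
  · simp [pr]
  · simp [pr]

theorem pr_le_one (β : ℝ) (b : Bool) : pr β b ≤ 1 := by
  cases b
  · simp [pr]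
  · simp [pr]

theorem pr_add (β : ℝ) : pr β false + pr β true = 1 := by simp [pr]

theorem pr_half (b : Bool) : pr (1 / 2) b = 1 / 2 := by
  cases b <;> simp only [pr, cond] <;> norm_num

/-- The capital after betting on the bits of `u`, starting after the prefix `w` with capital `x`;
the bet is computed by a tree that may depend on the prefix and on the current capital. -/
noncomputable def cap (π : Str → ℝ → DT ℝ) (O : Orc) : Str → Str → ℝ → ℝ
  | _, [], x => x
  | w, b :: u, x => cap π O (w ++ [b]) u (x * 2 * pr ((π w x).eval O) b)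

theorem cap_nonneg (π : Str → ℝ → DT ℝ) (O : Orc) (w u : Str) {x : ℝ} (hx : 0 ≤ x) :
    0 ≤ cap π O w u x := by
  induction u generalizing w x with
  | nil => exact hx
  | cons b u ih => exact ih _ (mul_nonneg (by linarith) (pr_nonneg _ _))

theorem cap_le (π : Str → ℝ → DT ℝ) (O : Orc) (w u : Str) {x : ℝ} (hx : 0 ≤ x) :
    cap π O w u x ≤ x * 2 ^ u.length := by
  induction u generalizing w x with
  | nil => simp [cap]
  | cons b u ih =>
    refine (ih _ (mul_nonneg (by linarith) (pr_nonneg _ _))).trans ?_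
    rw [List.length_cons, pow_succ]
    have h1 := pr_le_one ((π w x).eval O) b
    have h2 : (0 : ℝ) ≤ x * 2 * 2 ^ u.length := by positivity
    nlinarith

theorem cap_append (π : Str → ℝ → DT ℝ) (O : Orc) (w u u' : Str) (x : ℝ) :
    cap π O w (u ++ u') x = cap π O (w ++ u) u' (cap π O w u x) := by
  induction u generalizing w x with
  | nil => simp [cap]
  | cons b u ih => simp [cap, ih]

/-- A strategy that does not look at the capital. -/
def plain (π : Str → DT ℝ) : Str → ℝ → DT ℝ := fun w _ => π w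

theorem cap_plain (π : Str → DT ℝ) (O : Orc) (w u : Str) (x : ℝ) :
    cap (plain π) O w u x = x * cap (plain π) O w u 1 := by
  induction u generalizing w x with
  | nil => simp [cap]
  | cons b u ih =>
    simp only [cap]
    rw [ih, ih _ (1 * 2 * _)]
    simp only [plain]
    ring

/-- The capital only depends on the values of the trees at the prefixes. -/
theorem cap_congr {π : Str → DT ℝ} {O O' : Orc} (w u : Str) (x : ℝ)
    (h : ∀ n < u.length, (π (w ++ u.take n)).eval O' = (π (w ++ u.take n)).eval O) :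
    cap (plain π) O' w u x = cap (plain π) O w u x := by
  induction u generalizing w x with
  | nil => rfl
  | cons b u ih =>
    simp only [cap, plain]
    have h0 := h 0 (by simp)
    simp only [List.take_zero, List.append_nil] at h0
    rw [h0]
    refine ih _ _ fun n hn => ?_
    have := h (n + 1) (by simpa using hn)
    simpa using this

/-- The strategy stopped at level `lam`. -/
noncomputable def stop (lam : ℝ) (π : Str → DT ℝ) : Str → ℝ → DT ℝ :=
  fun w x => if lam ≤ x then DT.leaf (1 / 2) else π w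

theorem depth_stop_le (lam : ℝ) (π : Str → DT ℝ) (w : Str) (x : ℝ) :
    (stop lam π w x).depth ≤ (π w).depth := by
  unfold stop
  split_ifs
  · simp [DT.depth]
  · exact le_rfl

theorem cap_stop_of_le {lam : ℝ} (π : Str → DT ℝ) (O : Orc) (w u : Str) {x : ℝ} (hx : lam ≤ x) :
    cap (stop lam π) O w u x = x := by
  induction u generalizing w with
  | nil => rfl
  | cons b u ih =>
    have : x * 2 * pr ((stop lam π w x).eval O) b = x := by
      simp only [stop, hx, if_true, DT.eval, pr_half]; ring
    simp only [cap, this, ih]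

/-- If the stopped capital ends below the level, the strategy was never stopped. -/
theorem cap_stop_lt {lam : ℝ} (π : Str → DT ℝ) (O : Orc) (w u : Str) (x : ℝ)
    (h : cap (stop lam π) O w u x < lam) :
    cap (plain π) O w u x = cap (stop lam π) O w u x ∧
      ∀ n, cap (plain π) O w (u.take n) x < lam := by
  induction u generalizing w x with
  | nil => exact ⟨rfl, fun n => by simpa [cap] using h⟩
  | cons b u ih =>
    have hx : ¬ lam ≤ x := fun hx => by rw [cap_stop_of_le π O w _ hx] at h; linarith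
    have e : stop lam π w x = π w := by simp [stop, hx]
    simp only [cap, e] at h
    obtain ⟨h1, h2⟩ := ih _ _ h
    refine ⟨by simp only [cap, e, plain]; exact h1, fun n => ?_⟩
    cases n with
    | zero => simpa [cap] using lt_of_not_ge hx
    | succ n => simpa [cap, plain] using h2 n

/-- The strings of length `k`. -/
def strs (k : ℕ) : Finset Str := (allStr k).toFinset

theorem mem_strs {k : ℕ} {u : Str} : u ∈ strs k ↔ u.length = k := by
  simp [strs, mem_allStr]

theorem card_strs (k : ℕ) : (strs k).card = 2 ^ k := by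
  rw [strs, List.toFinset_card_of_nodup (nodup_allStr k), length_allStr]

theorem sum_strs_succ (k : ℕ) (f : Str → ℝ) :
    ∑ u ∈ strs (k + 1), f u = ∑ u ∈ strs k, f (false :: u) + ∑ u ∈ strs k, f (true :: u) := by
  have h : strs (k + 1) = (strs k).image (false :: ·) ∪ (strs k).image (true :: ·) := by
    ext u
    simp only [mem_strs, Finset.mem_union, Finset.mem_image]
    constructor
    · intro hu
      rcases u with _ | ⟨b, u⟩
      · simp at hu
      · cases b
        · exact Or.inl ⟨u, by simpa using hu, rfl⟩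
        · exact Or.inr ⟨u, by simpa using hu, rfl⟩
    · rintro (⟨v, hv, rfl⟩ | ⟨v, hv, rfl⟩) <;> simp [hv]
  rw [h, Finset.sum_union, Finset.sum_image (by simp), Finset.sum_image (by simp)]
  rw [Finset.disjoint_left]
  simp only [Finset.mem_image]
  rintro _ ⟨v, -, rfl⟩ ⟨v', -, h⟩
  simp at h

/-- Normalized martingales. -/
def Mart (d : Str → ℝ) : Prop :=
  d [] = 1 ∧ ∀ w, 0 ≤ d w ∧ d w = (d (w ++ [false]) + d (w ++ [true])) / 2

/-- The functional `Φ` only looks at oracle strings of polynomial length. -/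
def Use (Φ : Orc → Str → Bool) (c : ℕ) : Prop :=
  ∀ (O O' : Orc) (x : Str), (∀ z : Str, z.length ≤ (x.length + 2) ^ c → O z = O' z) →
    Φ O x = Φ O' x

end Pool.Agent.P.MP_158ebf_lc
end

-- part Pool.Agent.P.MP_435dae_lc.Plant
section

/-! Planting a hidden witness in a random oracle. -/

namespace Pool.Agent.P.MP_435dae_lc

open MeasureTheory Function Set Pool.Agent.P.MP_158ebf_lc Pool.Agent.Lib.PolyTime
open scoped ENNReal

/-- Oracles. -/
abbrev Ora := Str → Bool

instance coin_prob : IsProbabilityMeasure coin := by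
  unfold coin; infer_instance

theorem map_flip (z : Str) : coin.map (fun O => update O z (!O z)) = coin := by
  have h1 : (fun O : Ora => update O z (!O z)) =
      fun O y => (fun y b => if y = z then !b else b) y (O y) := by
    funext O y
    by_cases h : y = z
    · subst h; simp
    · simp [h]
  rw [h1, coin]
  refine (Measure.infinitePi_map_pi (fun _ : Str => (PMF.uniformOfFintype Bool).toMeasure)
    (f := fun y b => if y = z then !b else b) fun _ => Measurable.of_discrete).trans ?_
  congr 1
  funext y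
  refine Measure.ext_of_singleton fun b => ?_
  rw [Measure.map_apply Measurable.of_discrete (MeasurableSet.singleton _)]
  by_cases h : y = z
  · have : (fun c : Bool => if y = z then !c else c) ⁻¹' {b} = {!b} := by
      ext c; cases b <;> cases c <;> simp [h]
    rw [this]
    simp
  · simp [h, preimage]

theorem meas_flip (z : Str) : Measurable fun O : Ora => update O z (!O z) :=
  (measurable_update' (a := z)).comp (measurable_id.prodMk
    ((Measurable.of_discrete (f := fun b : Bool => !b)).comp (measurable_pi_apply z)))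

theorem meas_bit (z : Str) (b : Bool) : MeasurableSet {O : Ora | O z = b} :=
  (measurable_pi_apply z : Measurable fun O : Ora => O z) (MeasurableSet.singleton b)

theorem half {A : Set Ora} (hA : MeasurableSet A) (z : Str) (b : Bool) :
    coin (A ∩ {O | O z = b}) = 2⁻¹ * coin ((update · z b) ⁻¹' A) := by
  have hB : MeasurableSet ((update · z b) ⁻¹' A) := measurable_update_left hA
  have h1 : A ∩ {O | O z = b} = (update · z b) ⁻¹' A ∩ {O | O z = b} := by
    ext O
    simp only [mem_inter_iff, mem_ofPred_eq, mem_preimage]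
    refine and_congr_left fun h => ?_
    rw [← h, update_eq_self]
  have h2 : coin ((update · z b) ⁻¹' A \ {O | O z = b}) =
      coin ((update · z b) ⁻¹' A ∩ {O | O z = b}) := by
    conv_rhs => rw [← map_flip z, Measure.map_apply (meas_flip z) (hB.inter (meas_bit z b))]
    congr 1
    ext O
    cases b <;> simp
  rw [← measure_inter_add_sdiff ((update · z b) ⁻¹' A) (meas_bit z b), h2, ← h1, ← two_mul,
    ← mul_assoc, ENNReal.inv_mul_cancel (by norm_num) (by norm_num), one_mul]

/-- All strings of the list belong to the oracle. -/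
def W (l : List Str) : Set Ora := {O | ∀ z ∈ l, O z = true}

/-- The strings of the list are added to the oracle. -/
def plant (l : List Str) (O : Ora) : Ora := fun z => O z || decide (z ∈ l)

theorem meas_W (l : List Str) : MeasurableSet (W l) := by
  have : W l = ⋂ z ∈ l, {O | O z = true} := by ext O; simp [W]
  rw [this]
  exact MeasurableSet.iInter fun z => MeasurableSet.iInter fun _ => meas_bit z true

theorem meas_plant (l : List Str) : Measurable (plant l) :=
  measurable_pi_lambda _ fun z =>
    (Measurable.of_discrete (f := fun b : Bool => b || decide (z ∈ l))).comp (measurable_pi_apply z)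

theorem coin_inter_W {l : List Str} (hl : l.Nodup) {A : Set Ora} (hA : MeasurableSet A) :
    coin (A ∩ W l) = 2⁻¹ ^ l.length * coin (plant l ⁻¹' A) := by
  induction l generalizing A with
  | nil =>
    have : plant [] = id := by funext O z; simp [plant]
    simp [W, this]
  | cons z l ih =>
    rw [List.nodup_cons] at hl
    have h1 : A ∩ W (z :: l) = (A ∩ W l) ∩ {O | O z = true} := by
      ext O; simp only [W, mem_inter_iff, mem_ofPred_eq, List.forall_mem_cons]; tauto
    have h2 : (update · z true) ⁻¹' (A ∩ W l) = (update · z true) ⁻¹' A ∩ W l := by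
      ext O
      simp only [W, mem_inter_iff, mem_ofPred_eq, mem_preimage]
      refine and_congr_right fun _ => forall₂_congr fun y hy => ?_
      rw [update_of_ne fun h : y = z => hl.1 (h ▸ hy)]
    have h3 : plant l ⁻¹' ((update · z true) ⁻¹' A) = plant (z :: l) ⁻¹' A := by
      ext O
      have : update (plant l O) z true = plant (z :: l) O := by
        funext y
        by_cases h : y = z
        · subst h; simp [plant]
        · simp [plant, h]
      simp only [mem_preimage, this]
    rw [h1, half (hA.inter (meas_W l)), h2, ih hl.2 (measurable_update_left hA), h3,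
      List.length_cons, pow_succ]
    ring

variable {ι : Type} {Y : Finset ι} {bl : ι → List Str} {m : ℕ}

theorem coin_wit_le (h1 : ∀ y ∈ Y, (bl y).Nodup ∧ (bl y).length = m) :
    coin (⋃ y ∈ Y, W (bl y)) ≤ Y.card * 2⁻¹ ^ m := by
  refine (measure_biUnion_finset_le _ _).trans (le_of_eq ?_)
  rw [Finset.sum_congr rfl fun y hy => show coin (W (bl y)) = 2⁻¹ ^ m by
    rw [← univ_inter (W _), coin_inter_W (h1 y hy).1 MeasurableSet.univ, (h1 y hy).2]; simp]
  simp

open Classical in
/-- An event that survives planting at most places meets the event that a witness exists. -/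
theorem planting (h1 : ∀ y ∈ Y, (bl y).Nodup ∧ (bl y).length = m)
    (h2 : ∀ y ∈ Y, ∀ y' ∈ Y, y ≠ y' → ∀ z ∈ bl y, z ∉ bl y') {E : Set Ora} (hE : MeasurableSet E)
    {c : ℕ} (h3 : ∀ O ∈ E, c ≤ (Y.filter fun y => plant (bl y) O ∈ E).card) :
    c * 2⁻¹ ^ m * coin (E \ ⋃ y ∈ Y, W (bl y)) ≤ coin (E ∩ ⋃ y ∈ Y, W (bl y)) := by
  have mU : ∀ Z : Finset ι, MeasurableSet (⋃ y ∈ Z, W (bl y)) := fun Z =>
    Finset.measurableSet_biUnion _ fun y _ => meas_W _
  let F : ι → Set Ora := fun y => (E \ ⋃ y' ∈ Y.erase y, W (bl y')) ∩ W (bl y)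
  let G : ι → Set Ora := fun y => (E \ ⋃ y ∈ Y, W (bl y)) ∩ plant (bl y) ⁻¹' E
  have mG : ∀ y, MeasurableSet (G y) := fun y => (hE.diff (mU _)).inter (meas_plant _ hE)
  have a1 : ∑ y ∈ Y, coin (F y) ≤ coin (E ∩ ⋃ y ∈ Y, W (bl y)) := by
    rw [← measure_biUnion_finset ?_ fun y _ => (hE.diff (mU _)).inter (meas_W _)]
    · refine measure_mono (iUnion₂_subset fun y hy O hO => ⟨hO.1.1, mem_biUnion hy hO.2⟩)
    · intro y hy y' hy' h
      refine Set.disjoint_left.2 fun O hO hO' => hO.1.2 ?_
      exact mem_biUnion (Finset.mem_erase.2 ⟨h.symm, hy'⟩) hO'.2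
  have a2 : ∀ y ∈ Y, 2⁻¹ ^ m * coin (G y) ≤ coin (F y) := by
    intro y hy
    rw [coin_inter_W (h1 y hy).1 (hE.diff (mU _)), (h1 y hy).2]
    refine mul_le_mul_right (measure_mono fun O hO => ?_) _
    refine (mem_sdiff _).2 ⟨hO.2, fun h => hO.1.2 ?_⟩
    obtain ⟨y', hy', h⟩ := mem_iUnion₂.1 h
    rw [Finset.mem_erase] at hy'
    refine mem_biUnion hy'.2 fun z hz => ?_
    simpa [plant, h2 y' hy'.2 y hy hy'.1 z hz] using h z hz
  have a3 : c * coin (E \ ⋃ y ∈ Y, W (bl y)) ≤ ∑ y ∈ Y, coin (G y) := by
    rw [← lintegral_indicator_const (hE.diff (mU _)),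
      Finset.sum_congr rfl fun y _ => (lintegral_indicator_one (mG y)).symm,
      ← lintegral_finsetSum _ fun y _ => measurable_one.indicator (mG y)]
    refine lintegral_mono fun O => ?_
    by_cases hO : O ∈ E \ ⋃ y ∈ Y, W (bl y)
    · rw [indicator_of_mem hO]
      refine le_trans (Nat.cast_le.2 (h3 O hO.1)) (le_of_eq ?_)
      rw [Finset.card_filter, Nat.cast_sum]
      refine Finset.sum_congr rfl fun y _ => ?_
      by_cases h : plant (bl y) O ∈ E
      · rw [if_pos h, indicator_of_mem (show O ∈ G y from ⟨hO, h⟩)]; simp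
      · rw [if_neg h, indicator_of_notMem fun h' : O ∈ G y => h h'.2]; simp
    · rw [indicator_of_notMem hO]
      exact zero_le
  calc c * 2⁻¹ ^ m * coin (E \ ⋃ y ∈ Y, W (bl y))
      = 2⁻¹ ^ m * (c * coin (E \ ⋃ y ∈ Y, W (bl y))) := by ring
    _ ≤ 2⁻¹ ^ m * ∑ y ∈ Y, coin (G y) := mul_le_mul_right a3 _
    _ ≤ ∑ y ∈ Y, coin (F y) := by rw [Finset.mul_sum]; exact Finset.sum_le_sum a2
    _ ≤ _ := a1

/-! ### Events determined by short strings -/

/-- The index of a string. -/
def ix (z : Str) : ℕ := ofBits (z.reverse ++ [true]) - 1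

theorem stdString_ix (z : Str) : stdString (ix z) = z := by
  have h := bits_ofBits_concat z.reverse
  unfold ix
  rcases e : ofBits (z.reverse ++ [true]) with _ | n
  · rw [e] at h; simp at h
  · rw [e] at h; simp [stdString, h]

theorem ix_lt (z : Str) : ix z < 2 ^ (z.length + 1) := by
  have := ofBits_lt (z.reverse ++ [true])
  simp only [List.length_append, List.length_reverse, List.length_singleton] at this
  unfold ix
  omega

/-- The oracle given by a finite table. -/
def tab (a : Str) : Ora := fun z => a.getD (ix z) false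

theorem tab_chi (O : Ora) {K : ℕ} {z : Str} (h : ix z < K) : tab (chi O K) z = O z := by
  simp [tab, chi, List.getD_eq_getElem?_getD, h, stdString_ix]

theorem coin_chi (a : Str) : MeasurableSet {O : Ora | chi O a.length = a} ∧
    coin {O | chi O a.length = a} = 2⁻¹ ^ a.length := by
  induction a using List.reverseRecOn with
  | nil => simp [chi]
  | append_singleton a b ih =>
    have h1 : {O : Ora | chi O (a ++ [b]).length = a ++ [b]} =
        {O | chi O a.length = a} ∩ {O | O (stdString a.length) = b} := by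
      ext O
      simp only [List.length_append, List.length_singleton, chi_succ, mem_ofPred_eq, mem_inter_iff]
      exact ⟨fun h => by simpa using List.append_inj' h rfl, fun h => by rw [h.1, h.2]⟩
    have h2 : (update · (stdString a.length) b) ⁻¹' {O : Ora | chi O a.length = a} =
        {O | chi O a.length = a} := by
      ext O
      have : chi (update O (stdString a.length) b) a.length = chi O a.length :=
        List.map_congr_left fun i hi => update_of_ne
          (fun h => by have := stdString_inj h; rw [List.mem_range] at hi; omega) _ _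
      simp only [mem_preimage, mem_ofPred_eq, this]
    rw [h1]
    refine ⟨ih.1.inter (meas_bit _ _), ?_⟩
    rw [half ih.1, h2, ih.2, List.length_append, List.length_singleton, pow_succ, mul_comm]

/-- The test depends only on strings of length at most `l`. -/
def Loc (l : ℕ) (t : Ora → Bool) : Prop :=
  ∀ O O', (∀ z : Str, z.length ≤ l → O' z = O z) → t O' = t O

theorem Loc.coin {l K : ℕ} {t : Ora → Bool} (h : Loc l t) (hK : 2 ^ (l + 1) ≤ K) :
    MeasurableSet {O | t O = true} ∧
      coin {O | t O = true} = ((allStr K).countP fun a => t (tab a) : ℕ) * 2⁻¹ ^ K := by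
  have h1 : {O | t O = true} = ⋃ a ∈ ((allStr K).filter fun a => t (tab a)).toFinset,
      {O : Ora | chi O a.length = a} := by
    ext O
    have h2 : t (tab (chi O K)) = t O := h _ _ fun z hz => tab_chi O ((ix_lt z).trans_le
      ((Nat.pow_le_pow_right (by norm_num) (by omega)).trans hK))
    simp only [mem_ofPred_eq, mem_iUnion, List.mem_toFinset, List.mem_filter, mem_allStr]
    constructor
    · exact fun h => ⟨chi O K, ⟨length_chi _ _, h2.trans h⟩, by rw [length_chi]⟩
    · rintro ⟨a, ⟨rfl, h3⟩, h4⟩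
      rwa [← h2, h4]
  rw [h1]
  refine ⟨Finset.measurableSet_biUnion _ fun a _ => (coin_chi a).1, ?_⟩
  rw [measure_biUnion_finset ?_ fun a _ => (coin_chi a).1,
    Finset.sum_congr rfl fun a ha => show _ = (2⁻¹ : ℝ≥0∞) ^ K by
      rw [(coin_chi a).2, mem_allStr.1 (List.mem_filter.1 (List.mem_toFinset.1 ha)).1],
    Finset.sum_const, List.toFinset_card_of_nodup ((nodup_allStr K).filter _),
    List.countP_eq_length_filter, nsmul_eq_mul]
  intro a ha b hb hab
  refine Set.disjoint_left.2 fun O h1 h2 => hab ?_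
  have h3 := mem_allStr.1 (List.mem_filter.1 (List.mem_toFinset.1 ha)).1
  have h4 := mem_allStr.1 (List.mem_filter.1 (List.mem_toFinset.1 hb)).1
  rw [mem_ofPred_eq] at h1 h2
  rw [← h1, ← h2, h3, h4]

theorem Loc.meas {l : ℕ} {t : Ora → Bool} (h : Loc l t) : MeasurableSet {O | t O = true} :=
  (h.coin le_rfl).1

end Pool.Agent.P.MP_435dae_lc
end

-- part Pool.Agent.P.MP_158ebf_lc.OMach
section

/-! Oracle machines give countable families of decision trees. -/

namespace Pool.Agent.P.MP_158ebf_lc

open Pool.Agent.Lib.PolyTime N487b59b3 N68a2faeb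

theorem poly_le_pow (p : Polynomial ℕ) : ∃ c, ∀ n, p.eval n ≤ (n + 2) ^ c := by
  induction p using Polynomial.induction_on' with
  | add p q hp hq =>
    obtain ⟨a, ha⟩ := hp
    obtain ⟨b, hb⟩ := hq
    refine ⟨a + b + 1, fun n => ?_⟩
    have h1 : (n + 2) ^ a ≤ (n + 2) ^ (a + b) := Nat.pow_le_pow_right (by omega) (by omega)
    have h2 : (n + 2) ^ b ≤ (n + 2) ^ (a + b) := Nat.pow_le_pow_right (by omega) (by omega)
    have h3 : (n + 2) ^ (a + b) * 2 ≤ (n + 2) ^ (a + b) * (n + 2) :=
      Nat.mul_le_mul_left _ (by omega)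
    have h4 := ha n
    have h5 := hb n
    rw [Polynomial.eval_add, pow_succ]
    omega
  | monomial k a =>
    refine ⟨a + k, fun n => ?_⟩
    rw [Polynomial.eval_monomial, pow_add]
    refine Nat.mul_le_mul ?_ (Nat.pow_le_pow_left (by omega) k)
    exact (Nat.lt_two_pow_self.le).trans (Nat.pow_le_pow_left (by omega) a)

theorem OMach_countable_poly : Countable (Polynomial ℕ) := by
  have h : Function.Injective fun p : Polynomial ℕ =>
      (List.range (p.natDegree + 1)).map p.coeff := by
    intro p q hpq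
    have hl := congrArg List.length hpq
    simp only [List.length_map, List.length_range, Nat.add_right_cancel_iff] at hl
    simp only [hl] at hpq
    ext n
    by_cases hn : n ≤ q.natDegree
    · exact List.map_inj_left.1 hpq n (List.mem_range.2 (by omega))
    · rw [Polynomial.coeff_eq_zero_of_natDegree_lt (by omega),
        Polynomial.coeff_eq_zero_of_natDegree_lt (by omega)]
  exact h.countable

theorem OMach_countable (α β : Type) [N487b59b3 α] [N487b59b3 β] :
    Countable {f : α → β // IsPolyTime f} := by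
  have := OMach_countable_poly
  choose e p h using fun f : {f : α → β // IsPolyTime f} => exists_code f.2
  have hinj : Function.Injective fun f : {f : α → β // IsPolyTime f} => (e f, p f) := by
    intro f g hfg
    simp only [Prod.mk.injEq] at hfg
    refine Subtype.ext (funext fun a => bitEncode_injective ?_)
    rw [← h f a _ le_rfl, ← h g a _ le_rfl, hfg.1, hfg.2]
  exact hinj.countable

/-- The tree of `n` further queries after the answers `l`. -/
def OMach_tree {α β : Type} (q : α × Str → Str) (o : α × Str → β) (a : α) : ℕ → Str → DT β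
  | 0, l => DT.leaf (o (a, l))
  | n + 1, l =>
    DT.node (q (a, l)) (OMach_tree q o a n (l ++ [false])) (OMach_tree q o a n (l ++ [true]))

theorem OMach_depth {α β : Type} (q : α × Str → Str) (o : α × Str → β) (a : α) (n : ℕ) (l : Str) :
    (OMach_tree q o a n l).depth = n := by
  induction n generalizing l with
  | zero => rfl
  | succ n ih => simp [OMach_tree, DT.depth, ih]

theorem OMach_eval {α β : Type} (O : Orc) (q : α × Str → Str) (o : α × Str → β) (a : α)
    (n j : ℕ) : (OMach_tree q o a n (oans O q a j)).eval O = o (a, oans O q a (j + n)) := by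
  induction n generalizing j with
  | zero => rfl
  | succ n ih =>
    have h := ih (j + 1)
    rw [show j + (n + 1) = j + 1 + n by omega, ← h]
    cases hO : O (q (a, oans O q a j)) <;> simp [OMach_tree, DT.eval, oans, hO]

theorem OMach_qs {α β : Type} (O : Orc) (q : α × Str → Str) (o : α × Str → β) (a : α)
    (n : ℕ) (l z : Str) (hz : z ∈ (OMach_tree q o a n l).qs O) :
    ∃ l' : Str, l'.length ≤ l.length + n ∧ z = q (a, l') := by
  induction n generalizing l with
  | zero => simp [OMach_tree, DT.qs] at hz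
  | succ n ih =>
    simp only [OMach_tree, DT.qs, List.mem_cons] at hz
    rcases hz with rfl | hz
    · exact ⟨l, by omega, rfl⟩
    · cases hO : O (q (a, l))
      · rw [hO] at hz
        obtain ⟨l', h1, h2⟩ := ih _ hz
        exact ⟨l', by simp at h1; omega, h2⟩
      · rw [hO] at hz
        obtain ⟨l', h1, h2⟩ := ih _ hz
        exact ⟨l', by simp at h1; omega, h2⟩

theorem machFam (α β : Type) [N487b59b3 α] [N487b59b3 β] [Inhabited β] :
    ∃ τ : ℕ → α → DT β,
      (∀ i, ∃ p : Polynomial ℕ, ∀ a, (τ i a).depth ≤ p.eval (sz a) ∧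
        ∀ O, ∀ z ∈ (τ i a).qs O, z.length ≤ p.eval (sz a)) ∧
      ∀ (O : Orc) (f : α → β), PolyTimeIn O f → ∃ i, ∀ a, f a = (τ i a).eval O := by
  have h0 := OMach_countable_poly
  have h1 := OMach_countable (α × Str) Str
  have h2 := OMach_countable (α × Str) β
  have h3 : Nonempty ({f : α × Str → Str // IsPolyTime f} × {f : α × Str → β // IsPolyTime f} ×
      Polynomial ℕ) :=
    ⟨⟨⟨fun _ => [], (PT.const _).isPolyTime⟩, ⟨fun _ => default, (PT.const _).isPolyTime⟩, 0⟩⟩
  obtain ⟨g, hg⟩ := exists_surjective_nat ({f : α × Str → Str // IsPolyTime f} ×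
    {f : α × Str → β // IsPolyTime f} × Polynomial ℕ)
  refine ⟨fun i a => OMach_tree (g i).1.1 (g i).2.1.1 a ((g i).2.2.eval (sz a)) [],
    fun i => ?_, fun O f hf => ?_⟩
  · obtain ⟨r, hr⟩ := (PT.of_isPolyTime (g i).1.2).size
    refine ⟨(g i).2.2 + r.comp (2 * Polynomial.X + 1 + 3 * (g i).2.2), fun a => ⟨?_, ?_⟩⟩
    · rw [OMach_depth, Polynomial.eval_add]
      omega
    · intro O z hz
      obtain ⟨l', hl, rfl⟩ := OMach_qs O _ _ a _ _ z hz
      have h4 : sz ((g i).1.1 (a, l')) ≤ r.eval (sz (a, l')) := hr (a, l')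
      have h5 := length_le_sz ((g i).1.1 (a, l'))
      have h6 : sz (a, l') ≤ 2 * sz a + 1 + 3 * (g i).2.2.eval (sz a) := by
        rw [sz_pair, sz_str]
        simp only [List.length_nil, zero_add] at hl
        omega
      have h7 := eval_mono r h6
      simp only [Polynomial.eval_add, Polynomial.eval_comp, Polynomial.eval_mul,
        Polynomial.eval_ofNat, Polynomial.eval_X, Polynomial.eval_one]
      omega
  · obtain ⟨q, o, p, hq, ho, h⟩ := hf
    obtain ⟨i, hi⟩ := hg ⟨⟨q, hq⟩, ⟨o, ho⟩, p⟩
    refine ⟨i, fun a => ?_⟩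
    have h4 := OMach_eval O q o a (p.eval (sz a)) 0
    rw [zero_add] at h4
    simp only [hi]
    exact (h a).trans h4.symm

theorem npFam : ∃ Φ : ℕ → Orc → Str → Bool, (∀ i, ∃ c, Use (Φ i) c) ∧
    ∀ O : Orc, ∀ L ∈ NPIn O, ∃ i, L = Φ i O := by
  classical
  have h0 := OMach_countable_poly
  obtain ⟨τ, hτ, hall⟩ := machFam (Str × Str) Bool
  obtain ⟨g, hg⟩ := exists_surjective_nat (ℕ × Polynomial ℕ)
  refine ⟨fun i O x => decide (∃ w : Str, w.length ≤ (g i).2.eval x.length ∧
    (τ (g i).1 (x, w)).eval O = true), fun i => ?_, fun O L hL => ?_⟩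
  · obtain ⟨r, hr⟩ := hτ (g i).1
    obtain ⟨c, hc⟩ := poly_le_pow (r.comp (6 * Polynomial.X + 1 + 3 * (g i).2))
    refine ⟨c, fun O O' x h => ?_⟩
    refine decide_eq_decide.2 (exists_congr fun w => and_congr_right fun hw => ?_)
    have h1 : (τ (g i).1 (x, w)).eval O' = (τ (g i).1 (x, w)).eval O := by
      refine (DT.agree _ fun z hz => (h z ?_).symm).1
      have h2 := (hr (x, w)).2 O z hz
      have h3 : sz (x, w) ≤ 6 * x.length + 1 + 3 * (g i).2.eval x.length := by
        rw [sz_pair, sz_str, sz_str]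
        omega
      have h4 := eval_mono r h3
      have h5 := hc x.length
      simp only [Polynomial.eval_add, Polynomial.eval_comp, Polynomial.eval_mul,
        Polynomial.eval_ofNat, Polynomial.eval_X, Polynomial.eval_one] at h5
      omega
    rw [h1]
  · obtain ⟨p, R, hR, h⟩ := hL
    obtain ⟨j, hj⟩ := hall O R hR
    obtain ⟨i, hi⟩ := hg (j, p)
    refine ⟨i, funext fun x => ?_⟩
    rw [Bool.eq_iff_iff, h x, decide_eq_true_iff]
    simp only [hi, hj]

theorem eFam : ∃ D : ℕ → Str → DT Bool,
    (∀ i, ∃ c, ∀ t, (D i (stdString t)).depth ≤ (t + 2) ^ c) ∧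
    ∀ O : Orc, ∀ L ∈ EIn O, ∃ i, ∀ x, L x = (D i x).eval O := by
  obtain ⟨τ, hτ, hall⟩ := machFam (Str × Str) Bool
  obtain ⟨g, hg⟩ := exists_surjective_nat (ℕ × ℕ)
  refine ⟨fun i x => τ (g i).1 (x, List.replicate (2 ^ ((g i).2 * x.length)) true),
    fun i => ?_, fun O L hL => ?_⟩
  · obtain ⟨r, hr⟩ := hτ (g i).1
    obtain ⟨c, hc⟩ :=
      poly_le_pow (r.comp (6 * Polynomial.X + 1 + 3 * (Polynomial.X + 1) ^ (g i).2))
    refine ⟨c, fun t => ?_⟩
    have h1 := two_pow_length_stdString t
    have h2 : (stdString t).length < 2 ^ (stdString t).length := Nat.lt_two_pow_self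
    have h3 : 2 ^ ((g i).2 * (stdString t).length) ≤ (t + 1) ^ (g i).2 := by
      rw [mul_comm, pow_mul]
      exact Nat.pow_le_pow_left h1 _
    have h4 : sz (stdString t, List.replicate (2 ^ ((g i).2 * (stdString t).length)) true) ≤
        6 * t + 1 + 3 * (t + 1) ^ (g i).2 := by
      rw [sz_pair, sz_str, sz_str, List.length_replicate]
      omega
    have h5 := eval_mono r h4
    have h6 := hc t
    simp only [Polynomial.eval_add, Polynomial.eval_comp, Polynomial.eval_mul,
      Polynomial.eval_ofNat, Polynomial.eval_X, Polynomial.eval_one, Polynomial.eval_pow] at h6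
    exact ((hr _).1.trans h5).trans h6
  · obtain ⟨c, R, hR, h⟩ := hL
    obtain ⟨j, hj⟩ := hall O R hR
    obtain ⟨i, hi⟩ := hg (j, c)
    refine ⟨i, fun x => ?_⟩
    rw [h x, hj]
    simp only [hi]

end Pool.Agent.P.MP_158ebf_lc
end

-- part Pool.Agent.P.MP_435dae_lc.Mach
section

/-! Oracle machines and the test language. -/

namespace Pool.Agent.P.MP_435dae_lc

open Function N487b59b3 N68a2faeb Pool.Agent.P.MP_158ebf_lc Pool.Agent.P.MP_158ebf_lc.POpt
  Pool.Agent.Lib.PolyTime

/-- Oracle machines: query map, output map, number of queries. -/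
abbrev Mc := (Str × Str → Str) × (Str × Str → Str) × Polynomial ℕ

/-- The output of a machine. -/
noncomputable def run (M : Mc) (O : Ora) (a : Str) : Str :=
  M.2.1 (a, oans O M.1 a (M.2.2.eval (sz a)))

/-- The queries of a machine. -/
noncomputable def qrs (M : Mc) (O : Ora) (a : Str) : List Str :=
  (List.range (M.2.2.eval (sz a))).map fun i => M.1 (a, oans O M.1 a i)

/-- Polynomial-time machines. -/
def Good (M : Mc) : Prop := IsPolyTime M.1 ∧ IsPolyTime M.2.1

section

variable {α : Type} {O O' : Ora} {q : α × Str → Str} {a : α}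

theorem oans_agree {j : ℕ} (h : ∀ i < j, O' (q (a, oans O q a i)) = O (q (a, oans O q a i))) :
    oans O' q a j = oans O q a j := by
  induction j with
  | zero => rfl
  | succ j ih => rw [oans, oans, ih fun i hi => h i (by omega), h j (by omega)]

theorem length_oans (j : ℕ) : (oans O q a j).length = j := by
  induction j with
  | zero => rfl
  | succ j ih => simp [oans, ih]

theorem take_oans {i j : ℕ} (h : i ≤ j) : (oans O q a j).take i = oans O q a i := by
  induction j, h using Nat.le_induction with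
  | base => exact List.take_of_length_le (length_oans i).le
  | succ j h ih => rw [oans, List.take_append_of_le_length (by rwa [length_oans]), ih]

theorem oans_congr {β : Type} {q' : β × Str → Str} {b : β} (h : ∀ l, q (a, l) = q' (b, l))
    (j : ℕ) : oans O q a j = oans O q' b j := by
  induction j with
  | zero => rfl
  | succ j ih => rw [oans, oans, ih, h]

theorem oans_iter (j : ℕ) : oans O q a j = (fun l => l ++ [O (q (a, l))])^[j] [] := by
  induction j with
  | zero => rfl
  | succ j ih => rw [oans, iterate_succ_apply', ih]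

end

theorem run_agree {M : Mc} {O O' : Ora} {a : Str} (h : ∀ z ∈ qrs M O a, O' z = O z) :
    run M O' a = run M O a := by
  rw [run, run, oans_agree fun i hi => h _ (List.mem_map.2 ⟨i, List.mem_range.2 hi, rfl⟩)]

theorem qrs_bound {M : Mc} (hM : Good M) : ∃ p : Polynomial ℕ, ∀ O a,
    (qrs M O a).length ≤ p.eval a.length ∧ ∀ z ∈ qrs M O a, z.length ≤ p.eval a.length := by
  obtain ⟨r, hr⟩ := (PT.of_isPolyTime hM.1).size
  refine ⟨(M.2.2 + r.comp (2 * Polynomial.X + 1 + 3 * M.2.2)).comp (3 * Polynomial.X),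
    fun O a => ?_⟩
  simp only [Polynomial.eval_add, Polynomial.eval_comp, Polynomial.eval_mul,
    Polynomial.eval_ofNat, Polynomial.eval_X, Polynomial.eval_one, ← sz_str]
  refine ⟨by simp [qrs], fun z hz => ?_⟩
  obtain ⟨i, hi, rfl⟩ := List.mem_map.1 hz
  rw [List.mem_range] at hi
  have h4 : sz (M.1 (a, oans O M.1 a i)) ≤ r.eval (sz (a, oans O M.1 a i)) := hr _
  have h5 := length_le_sz (M.1 (a, oans O M.1 a i))
  have h6 : sz (a, oans O M.1 a i) ≤ 2 * sz a + 1 + 3 * M.2.2.eval (sz a) := by
    rw [sz_pair, sz_str (oans _ _ _ _), length_oans]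
    omega
  have h7 := eval_mono r h6
  omega

theorem exists_run {O : Ora} {f : Str → Str} (h : PolyTimeIn O f) :
    ∃ M, Good M ∧ f = run M O := by
  obtain ⟨q, o, p, hq, ho, h⟩ := h
  exact ⟨(q, o, p), ⟨hq, ho⟩, funext h⟩

theorem polyTimeIn_cond {M M' : Mc} (hM : Good M) (hM' : Good M') {s : Str → Bool}
    {a : Str → Str} (hs : PT s) (ha : PT a) (O : Ora) :
    PolyTimeIn O fun w => bif s w then run M O (a w) else run M' O (a w) := by
  have h1 := PT.of_isPolyTime hM.1
  have h2 := PT.of_isPolyTime hM.2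
  have h3 := PT.of_isPolyTime hM'.1
  have h4 := PT.of_isPolyTime hM'.2
  obtain ⟨r, hr⟩ := ha.size
  obtain ⟨q, o, p⟩ := M
  obtain ⟨q', o', p'⟩ := M'
  dsimp only at h1 h2 h3 h4
  refine ⟨fun x => bif s x.1 then q (a x.1, x.2) else q' (a x.1, x.2),
    fun x => bif s x.1 then o (a x.1, x.2.take (p.eval (sz (a x.1))))
      else o' (a x.1, x.2.take (p'.eval (sz (a x.1)))), (p + p').comp r,
    PT.isPolyTime (by fun_prop), PT.isPolyTime (by fun_prop), fun w => ?_⟩
  have b1 : p.eval (sz (a w)) ≤ _ := eval_mono p (hr w)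
  have b2 : p'.eval (sz (a w)) ≤ _ := eval_mono p' (hr w)
  have b3 : ((p + p').comp r).eval (bitEncode w).length =
      p.eval (r.eval (sz w)) + p'.eval (r.eval (sz w)) := by
    rw [Polynomial.eval_comp, Polynomial.eval_add]; rfl
  rw [b3]
  rcases Bool.eq_false_or_eq_true (s w) with h | h
  · simp only [h, cond_true, run]
    rw [take_oans (by omega)]
    exact congrArg (fun l => o (a w, l)) (oans_congr (fun l => by simp only [h, cond_true]) _)
  · simp only [h, cond_false, run]
    rw [take_oans (by omega)]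
    exact congrArg (fun l => o' (a w, l)) (oans_congr (fun l => by simp only [h, cond_false]) _)

section

variable {α : Type} [N487b59b3 α]

theorem pt_tab {t z : α → Str} (ht : PT t) (hz : PT z) : PT fun a => tab (t a) (z a) := by
  unfold tab ix; fun_prop

theorem pt_run {M : Mc} (hM : Good M) {t x : α → Str} (ht : PT t) (hx : PT x) :
    PT fun a => run M (tab (t a)) (x a) := by
  have h1 := PT.of_isPolyTime hM.1
  have h2 := PT.of_isPolyTime hM.2
  have h3 : PT fun p : α × Str => tab (t p.1) (M.1 (x p.1, p.2)) :=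
    pt_tab (by fun_prop) (h1.comp (by fun_prop))
  have h4 : PT fun a => (fun l => l ++ [tab (t a) (M.1 (x a, l))])^[M.2.2.eval (sz (x a))] [] :=
    PT.iterate_nat_growth (by fun_prop) (by fun_prop) (PT.const _)
      (PT.append (by fun_prop) (PT.cons h3 (PT.const _))) (fun _ => 3) (Small.const _)
      fun a l => by simp [sz_str]
  simp only [run, oans_iter]
  exact h2.comp (hx.pair h4)

end

/-! ### The test language -/

/-- The block of oracle strings attached to the candidate `y`. -/
def bl (u r : ℕ) (y : Str) : List Str :=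
  (List.range (u ^ 3 + 1 + min r u)).map fun j => y ++ List.replicate j true

/-- Some block lies in the oracle. -/
def wit (O : Ora) (u r : ℕ) : Bool := (allStr (u ^ 3 + 1)).any fun y => (bl u r y).all O

/-- The test language. -/
def test (O : Ora) (x : Str) : Bool := wit O (x.countP fun b => b) (x.countP fun b => !b)

theorem test_inst (O : Ora) (u r : ℕ) : test O (inst u r) = wit O u r := by
  simp [test, inst, List.countP_replicate, wit, bl]

theorem test_mem (O : Ora) : test O ∈ NPIn O := by
  refine ⟨Polynomial.X ^ 3 + 1, fun a => decide (a.2.length = (a.1.countP fun b => b) ^ 3 + 1) &&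
    (bl (a.1.countP fun b => b) (a.1.countP fun b => !b) a.2).all O,
    ⟨fun x => x.1.2 ++ List.replicate x.2.length true,
      fun x => decide (x.1.2.length = (x.1.1.countP fun b => b) ^ 3 + 1) &&
        (x.2.take ((x.1.1.countP fun b => b) ^ 3 + 1 +
          min (x.1.1.countP fun b => !b) (x.1.1.countP fun b => b))).all fun b => b,
      Polynomial.X ^ 3 + 1 + Polynomial.X, PT.isPolyTime (by fun_prop),
      PT.isPolyTime (by fun_prop), fun a => ?_⟩, fun x => ?_⟩
  · have h1 : ∀ j, oans O (fun x : (Str × Str) × Str => x.1.2 ++ List.replicate x.2.length true)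
        a j = (List.range j).map fun i => O (a.2 ++ List.replicate i true) := by
      intro j
      induction j with
      | zero => rfl
      | succ j ih => rw [oans, length_oans, ih, List.range_succ, List.map_append]; rfl
    have h2 : (a.1.countP fun b => b) ≤ (bitEncode a).length := by
      have h3 := List.countP_le_length (l := a.1) (p := fun b => b)
      have h4 : sz a = _ := sz_pair' a
      rw [sz_str] at h4
      unfold sz at h4
      omega
    have h3 := Nat.pow_le_pow_left h2 3
    dsimp only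
    rw [take_oans (by simp; omega)]
    refine congrArg _ ((congrArg (fun l : Str => l.all fun b => b) (h1 _)).trans ?_).symm
    simp [bl, List.all_map, Function.comp_def]
  · have h1 := Nat.pow_le_pow_left (List.countP_le_length (l := x) (p := fun b => b)) 3
    simp only [test, wit, List.any_eq_true, mem_allStr, Bool.and_eq_true, decide_eq_true_eq,
      Polynomial.eval_add, Polynomial.eval_pow, Polynomial.eval_X, Polynomial.eval_one]
    exact ⟨fun ⟨y, h2, h3⟩ => ⟨y, by omega, h2, h3⟩, fun ⟨y, _, h⟩ => ⟨y, h⟩⟩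

theorem mem_bl {u r : ℕ} {y z : Str} (hy : y.length = u ^ 3 + 1) (hz : z ∈ bl u r y) :
    z.take (u ^ 3 + 1) = y ∧ u < z.length ∧ z.length ≤ 2 * u ^ 3 + 2 + u := by
  obtain ⟨j, hj, rfl⟩ := List.mem_map.1 hz
  rw [List.mem_range] at hj
  have := Nat.le_self_pow (n := 3) (by norm_num) u
  refine ⟨by rw [← hy, List.take_left], ?_⟩
  simp only [List.length_append, List.length_replicate]
  omega

theorem nodup_bl (u r : ℕ) (y : Str) : (bl u r y).Nodup :=
  List.nodup_range.map fun i j h => by simpa using congrArg List.length h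

theorem wit_eq (u r : ℕ) : {O | wit O u r = true} =
    ⋃ y ∈ (allStr (u ^ 3 + 1)).toFinset, W (bl u r y) := by
  ext O
  simp [wit, W]

theorem card_cand (u : ℕ) : (allStr (u ^ 3 + 1)).toFinset.card = 2 ^ (u ^ 3 + 1) := by
  rw [List.toFinset_card_of_nodup (nodup_allStr _), length_allStr]

theorem any_congr_mem {β : Type} {l : List β} {p q : β → Bool} (h : ∀ x ∈ l, p x = q x) :
    l.any p = l.any q := by
  rw [Bool.eq_iff_iff, List.any_eq_true, List.any_eq_true]
  exact exists_congr fun x => and_congr_right fun hx => by rw [h x hx]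

theorem all_congr_mem {β : Type} {l : List β} {p q : β → Bool} (h : ∀ x ∈ l, p x = q x) :
    l.all p = l.all q := by
  rw [Bool.eq_iff_iff, List.all_eq_true, List.all_eq_true]
  exact forall₂_congr fun x hx => by rw [h x hx]

theorem loc_wit {u : ℕ} (hu : 2 ≤ u) (r : ℕ) : Loc (tw u) fun O => wit O u r := by
  intro O O' h
  have h1 : 2 * u ^ 3 + 2 + u ≤ tw u := by
    have a1 := Nat.le_self_pow (n := 3) (by norm_num) u
    have a2 : 2 ^ 3 ≤ u ^ 3 := Nat.pow_le_pow_left hu 3
    obtain ⟨m, hm⟩ := Nat.exists_eq_add_of_le a2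
    have a3 : m < 2 ^ m := Nat.lt_two_pow_self
    rw [tw, hm, pow_add]
    omega
  refine any_congr_mem fun y hy => all_congr_mem fun z hz => h z ?_
  exact (mem_bl (mem_allStr.1 hy) hz).2.2.trans h1

end Pool.Agent.P.MP_435dae_lc
end

-- part Pool.Agent.P.MP_435dae_lc.Stage
section

/-! The events at one level and the sequence of stages. -/

namespace Pool.Agent.P.MP_435dae_lc

open MeasureTheory Function N487b59b3 N68a2faeb Pool.Agent.P.MP_158ebf_lc
  Pool.Agent.P.MP_158ebf_lc.POpt Pool.Agent.Lib.PolyTime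
open scoped ENNReal

variable (M M' : Mc)

/-- There is a short proof of the statement that no block lies in the oracle. -/
noncomputable def prf (O : Ora) (u r : ℕ) : Bool :=
  (advs (2 ^ u ^ 2)).any fun v => run M O v == run M' O (inst u r)

/-- No false statement of a lower level has a short proof. -/
noncomputable def snd (O : Ora) (n u : ℕ) : Bool :=
  (List.range u).all fun u' => (List.range (u' + 1)).all fun r' =>
    !(decide (n ≤ u') && decide (tw u' ≤ u) && prf M M' O u' r' && wit O u' r')

/-- The event whose probability decides the stage. -/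
noncomputable def ev (O : Ora) (n u r : ℕ) : Bool :=
  prf M M' O u r && snd M M' O n u && !wit O u r

/-- The event has probability at least `2 ^ (-k)`. -/
noncomputable def keep (k n u r : ℕ) : Bool :=
  decide (2 ^ tw (tw u) ≤ 2 ^ k * (allStr (tw (tw u))).countP fun a => ev M M' (tab a) n u r)

/-- From level `n` on the machines ask few and short queries. -/
def Short (n : ℕ) : Prop :=
  2 ≤ n ∧ ∀ u ≥ n, ∀ O r (v : Str), v.length ≤ 2 ^ u ^ 2 →
    (qrs M O v ++ qrs M' O (inst u r)).length ≤ tw u ∧
      ∀ z ∈ qrs M O v ++ qrs M' O (inst u r), z.length ≤ tw u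

variable {M M'}

theorem exists_short (hM : Good M) (hM' : Good M') : ∃ n, Short M M' n := by
  obtain ⟨p, hp⟩ := qrs_bound hM
  obtain ⟨p', hp'⟩ := qrs_bound hM'
  obtain ⟨n, hn⟩ := eval_le_tw (p + p'.comp (2 * Polynomial.X))
  refine ⟨n + 2, by omega, fun u hu O r v hv => ?_⟩
  have h1 := hn u (by omega)
  have h2 := eval_mono p hv
  have h3 := eval_mono p' (show (inst u r).length ≤ 2 * 2 ^ u ^ 2 by
    have := le_clock u
    simp only [inst, List.length_append, List.length_replicate]
    omega)
  simp only [Polynomial.eval_add, Polynomial.eval_comp, Polynomial.eval_mul,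
    Polynomial.eval_ofNat, Polynomial.eval_X] at h1
  have h4 := hp O v
  have h5 := hp' O (inst u r)
  refine ⟨by rw [List.length_append]; omega, fun z hz => ?_⟩
  rcases List.mem_append.1 hz with hz | hz
  · have := h4.2 z hz; omega
  · have := h5.2 z hz; omega

variable {n u r k : ℕ}

theorem loc_prf (h : Short M M' n) (hu : n ≤ u) (r : ℕ) : Loc (tw u) fun O => prf M M' O u r := by
  intro O O' hO
  refine any_congr_mem fun v hv => ?_
  have := (h.2 u hu O r v (mem_advs.1 hv)).2
  rw [run_agree fun z hz => hO z (this z (List.mem_append_left _ hz)),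
    run_agree fun z hz => hO z (this z (List.mem_append_right _ hz))]

theorem loc_snd (h : Short M M' n) (u : ℕ) : Loc u fun O => snd M M' O n u := by
  intro O O' hO
  refine all_congr_mem fun u' _ => all_congr_mem fun r' _ => ?_
  by_cases h1 : n ≤ u' ∧ tw u' ≤ u
  · have a1 := loc_prf h h1.1 r' O O' fun z hz => hO z (hz.trans h1.2)
    have a2 := loc_wit (h.1.trans h1.1) r' O O' fun z hz => hO z (hz.trans h1.2)
    dsimp only at a1 a2
    rw [a1, a2]
  · rw [← Bool.decide_and, decide_eq_false h1]
    rfl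

theorem loc_both (h : Short M M' n) (hu : n ≤ u) (r : ℕ) :
    Loc (tw u) fun O => prf M M' O u r && snd M M' O n u := fun O O' hO =>
  congrArg₂ _ (loc_prf h hu r O O' hO)
    (loc_snd h u O O' fun z hz => hO z (hz.trans (lt_tw u).le))

theorem loc_ev (h : Short M M' n) (hu : n ≤ u) (r : ℕ) :
    Loc (tw u) fun O => ev M M' O n u r := fun O O' hO =>
  congrArg₂ _ (loc_both h hu r O O' hO) (congrArg _ (loc_wit (h.1.trans hu) r O O' hO))

theorem keep_iff (h : Short M M' n) (hu : n ≤ u) :
    keep M M' k n u r = true ↔ 2⁻¹ ^ k ≤ coin {O | ev M M' O n u r = true} := by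
  have h1 : 2 ^ (tw u + 1) ≤ tw (tw u) := by
    have a1 := lt_tw u
    have a2 := h.1
    refine Nat.pow_le_pow_right (by norm_num) ?_
    have a3 : 2 ^ 2 ≤ tw u ^ 2 := Nat.pow_le_pow_left (by omega) 2
    rw [pow_succ (tw u) 2]
    nlinarith
  have e : ∀ j : ℕ, (2 : ℝ≥0∞) ^ j ≠ 0 ∧ (2 : ℝ≥0∞) ^ j ≠ ⊤ := fun j =>
    ⟨by simp, ENNReal.pow_ne_top (by norm_num)⟩
  rw [((loc_ev h hu r).coin h1).2, keep, decide_eq_true_eq, ← ENNReal.inv_pow, ← ENNReal.inv_pow,
    ← div_eq_mul_inv, ENNReal.le_div_iff_mul_le (Or.inl (e _).1) (Or.inl (e _).2),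
    ENNReal.inv_mul_le_iff (e _).1 (e _).2]
  norm_cast

theorem coin_wit (hr : r ≤ u) : coin {O | wit O u r = true} ≤ 2⁻¹ ^ r := by
  rw [wit_eq]
  refine (coin_wit_le (m := u ^ 3 + 1 + r) fun y _ =>
    ⟨nodup_bl _ _ _, by simp [bl, hr]⟩).trans (le_of_eq ?_)
  rw [card_cand, pow_add (2⁻¹ : ℝ≥0∞), ← mul_assoc, Nat.cast_pow, Nat.cast_ofNat, ← mul_pow,
    ENNReal.mul_inv_cancel (by norm_num) (by norm_num), one_pow, one_mul]

theorem coin_unsound (h : Short M M' n) (hu : n ≤ u) (hr : r ≤ u) :
    2⁻¹ ^ (r + 1) * coin {O | ev M M' O n u r = true} ≤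
      coin {O | (prf M M' O u r && snd M M' O n u && wit O u r) = true} := by
  classical
  have h1 := planting (Y := (allStr (u ^ 3 + 1)).toFinset) (bl := bl u r) (m := u ^ 3 + 1 + r)
    (c := tw u) (fun y _ => ⟨nodup_bl _ _ _, by simp [bl, hr]⟩)
    (fun y hy y' hy' hne z hz hz' => hne <|
      (mem_bl (mem_allStr.1 (List.mem_toFinset.1 hy)) hz).1.symm.trans
        (mem_bl (mem_allStr.1 (List.mem_toFinset.1 hy')) hz').1)
    (loc_both h hu r).meas fun O hO => ?_
  · rw [← wit_eq] at h1
    have e1 : {O | ev M M' O n u r = true} = {O | (prf M M' O u r && snd M M' O n u) = true} \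
        {O | wit O u r = true} := by ext O; simp [ev]
    have e2 : {O | (prf M M' O u r && snd M M' O n u && wit O u r) = true} =
        {O | (prf M M' O u r && snd M M' O n u) = true} ∩ {O | wit O u r = true} := by
      ext O; simp
    rw [e1, e2]
    refine le_trans (le_of_eq ?_) h1
    rw [tw, show u ^ 3 + 1 + r = u ^ 3 + (r + 1) by ring, pow_add (2⁻¹ : ℝ≥0∞) (u ^ 3),
      ← mul_assoc, Nat.cast_pow, Nat.cast_ofNat, ← mul_pow,
      ENNReal.mul_inv_cancel (by norm_num) (by norm_num), one_pow, one_mul]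
  · rw [Set.mem_ofPred_eq, Bool.and_eq_true] at hO
    obtain ⟨v, hv, hv'⟩ := List.any_eq_true.1 hO.1
    have a1 := (h.2 u hu O r v (mem_advs.1 hv)).1
    set Q := qrs M O v ++ qrs M' O (inst u r) with hQ
    have a2 : (Q.map fun z => z.take (u ^ 3 + 1)).toFinset.card ≤ tw u :=
      (List.toFinset_card_le _).trans (by rwa [List.length_map])
    have a3 := Finset.le_card_sdiff (Q.map fun z => z.take (u ^ 3 + 1)).toFinset
      (allStr (u ^ 3 + 1)).toFinset
    rw [card_cand, pow_succ, ← tw] at a3
    refine le_trans (by omega) (a3.trans (Finset.card_le_card fun y hy => ?_))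
    rw [Finset.mem_sdiff] at hy
    have a4 := mem_allStr.1 (List.mem_toFinset.1 hy.1)
    have a5 : ∀ z ∈ Q, plant (bl u r y) O z = O z := fun z hz => by
      rw [plant, decide_eq_false fun h' => hy.2 (List.mem_toFinset.2
        (List.mem_map.2 ⟨z, hz, (mem_bl a4 h').1⟩)), Bool.or_false]
    refine (@Finset.mem_filter _ _ (_) _ _).2 ⟨hy.1, Bool.and_eq_true_iff.2 ⟨List.any_eq_true.2 ⟨v, hv, ?_⟩, ?_⟩⟩
    · rwa [run_agree fun z hz => a5 z (List.mem_append_left _ hz),
        run_agree fun z hz => a5 z (List.mem_append_right _ hz)]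
    · refine (loc_snd h u O _ fun z hz => ?_).trans hO.2
      rw [plant, decide_eq_false fun h' => (mem_bl a4 h').2.1.not_ge hz, Bool.or_false]

/-! ### Polynomial time -/

section

variable {α : Type} [N487b59b3 α]

theorem two_pow_le_tw (u : ℕ) : 2 ^ u ≤ tw u :=
  Nat.pow_le_pow_right (by norm_num) (Nat.le_self_pow (by norm_num) u)

theorem tw_le_tw {a b : ℕ} (h : a ≤ b) : tw a ≤ tw b :=
  Nat.pow_le_pow_right (by norm_num) (Nat.pow_le_pow_left h 3)

theorem pt_wit {t : α → Str} {u r : α → ℕ} (ht : PT t) (hu : PT u) (hr : PT r)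
    (h : Small fun a => tw (u a)) : PT fun a => wit (tab (t a)) (u a) (r a) := by
  have h1 := small_of_tw h
  have h2 : PT fun a => allStr (u a ^ 3 + 1) := PT.allStr (by fun_prop)
    ((h.mul (Small.const 2)).mono fun a => (pow_succ _ _).le)
  have h3 : PT fun p : α × Str => bl (u p.1) (r p.1) p.2 := by
    refine (show PT fun p : α × Str => (List.range (u p.1 ^ 3 + 1 + min (r p.1) (u p.1))).map
      fun j => p.2 ++ List.replicate (min j (u p.1 ^ 3 + 1 + u p.1)) true by fun_prop).congr
      fun p => List.map_congr_left fun j hj => ?_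
    rw [List.mem_range] at hj
    rw [min_eq_left (by omega)]
  exact PT.any h2 (PT.all h3 (pt_tab (by fun_prop) (by fun_prop)))

theorem pt_prf (hM : Good M) (hM' : Good M') {t : α → Str} {u r : α → ℕ} (ht : PT t) (hu : PT u)
    (hr : PT r) (h : Small fun a => tw (tw (u a))) :
    PT fun a => prf M M' (tab (t a)) (u a) (r a) := by
  have h1 := small_of_tw (small_of_tw h)
  have h0 : ∀ a, 2 ^ u a ^ 2 ≤ tw (u a) := fun a => by
    rcases Nat.eq_zero_or_pos (u a) with h0 | h0
    · simp [h0, tw]
    · exact Nat.pow_le_pow_right (by norm_num) (Nat.pow_le_pow_right h0 (by norm_num))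
  have h2 : Tiny fun a => 2 ^ u a ^ 2 := h.mono fun a =>
    (Nat.pow_le_pow_right (by norm_num) (h0 a)).trans (two_pow_le_tw _)
  have h3 : PT fun a => 2 ^ u a ^ 2 := by fun_prop
  obtain ⟨G, hG⟩ : ∃ G : α → ℕ, G = fun a => 2 ^ u a ^ 2 := ⟨_, rfl⟩
  rw [← hG] at h2 h3
  have h4 := h2.small
  have h5 : PT fun a => advs (2 ^ u a ^ 2) :=
    (show PT fun a => (List.range (G a + 1)).flatMap fun i => allStr (min i (G a)) by
      fun_prop).congr fun a => by
      simp only [hG]
      exact List.flatMap_congr fun i hi => by rw [min_eq_left (by simpa [Nat.lt_succ_iff] using hi)]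
  have h6 := pt_run hM' ht (pt_inst hu hr h1)
  exact PT.any h5 (PT.beq (pt_run hM (by fun_prop) (by fun_prop)) (h6.comp (by fun_prop)))

theorem pt_keep (hM : Good M) (hM' : Good M') (k n : ℕ) {u r : α → ℕ} (hu : PT u) (hr : PT r)
    (h : Small fun a => tw (tw (tw (u a)))) : PT fun a => keep M M' k n (u a) (r a) := by
  have h1 := small_of_tw h
  have h2 := small_of_tw h1
  have h3 := small_of_tw h2
  have h4 := pt_tw (pt_tw hu h3) h2
  have h5 : Small fun a => 2 ^ tw (tw (u a)) := h.mono fun a => two_pow_le_tw _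
  have h6 : PT fun p : α × Str => snd M M' (tab p.2) n (u p.1) := by
    have a1 : PT fun p : ((α × Str) × ℕ) × ℕ => min p.1.2 (u p.1.1.1) := by fun_prop
    have a2 : Small fun p : ((α × Str) × ℕ) × ℕ => tw (tw (min p.1.2 (u p.1.1.1))) :=
      (h1.comp (g := fun p : ((α × Str) × ℕ) × ℕ => p.1.1.1) (by fun_prop)).mono fun p =>
        tw_le_tw (tw_le_tw (min_le_right _ _))
    have a3 : PT fun p : ((α × Str) × ℕ) × ℕ => !(decide (n ≤ min p.1.2 (u p.1.1.1)) &&
        decide (tw (min p.1.2 (u p.1.1.1)) ≤ u p.1.1.1) &&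
        prf M M' (tab p.1.1.2) (min p.1.2 (u p.1.1.1)) p.2 &&
        wit (tab p.1.1.2) (min p.1.2 (u p.1.1.1)) p.2) :=
      PT.not (PT.and (PT.and (PT.and (PT.decide (PTP.le (PT.const n) a1))
        (PT.decide (ptp_tw a1 (by fun_prop))))
        (pt_prf hM hM' (by fun_prop) a1 (by fun_prop) a2))
        (pt_wit (by fun_prop) a1 (by fun_prop) (small_of_tw a2)))
    obtain ⟨F, hF⟩ : ∃ F : ((α × Str) × ℕ) × ℕ → Bool, F = fun p =>
      !(decide (n ≤ min p.1.2 (u p.1.1.1)) && decide (tw (min p.1.2 (u p.1.1.1)) ≤ u p.1.1.1) &&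
        prf M M' (tab p.1.1.2) (min p.1.2 (u p.1.1.1)) p.2 &&
        wit (tab p.1.1.2) (min p.1.2 (u p.1.1.1)) p.2) := ⟨_, rfl⟩
    rw [← hF] at a3
    refine (show PT fun p : α × Str => (List.range (u p.1)).all fun i =>
      (List.range (min i (u p.1) + 1)).all fun j => F ((p, i), j) by fun_prop).congr
      fun p => all_congr_mem fun u' hu' => ?_
    simp only [hF, min_eq_left (List.mem_range.1 hu').le]
  have h7 : PT fun p : α × Str => ev M M' (tab p.2) n (u p.1) (r p.1) :=
    PT.and (PT.and (pt_prf hM hM' (by fun_prop) (by fun_prop) (by fun_prop)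
      (h1.comp (by fun_prop))) h6)
      (PT.not (pt_wit (by fun_prop) (by fun_prop) (by fun_prop) (h2.comp (by fun_prop))))
  exact PT.decide (PTP.le (PT.pow (PT.const 2) h4 h1)
    (PT.mul (PT.const _) (PT.countP (PT.allStr h4 h5) h7)))

end

/-! ### Stages -/

/-- One stage. -/
def stp (fd : ℕ → ℕ → Bool) (s : ℕ × ℕ) : ℕ × ℕ :=
  (tw (tw (tw s.1)), if fd s.1 s.2 then s.2 else s.2 + 1)

/-- Level and block excess at stage `i`. -/
def sg (fd : ℕ → ℕ → Bool) (n i : ℕ) : ℕ × ℕ := (stp fd)^[i] (n, n)

/-- The stages that can be computed in time polynomial in `N`. -/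
def gsg (fd : ℕ → ℕ → Bool) (N n i : ℕ) : ℕ × ℕ :=
  (fun s => if tw (tw (tw s.1)) ≤ N then stp fd s else s)^[i] (n, n)

variable {fd : ℕ → ℕ → Bool}

theorem sg_succ (i : ℕ) : sg fd n (i + 1) = stp fd (sg fd n i) := iterate_succ_apply' _ _ _

theorem lt_tw3 (u : ℕ) : tw u < tw (tw (tw u)) := (lt_tw _).trans (lt_tw _)

theorem sg_le (i : ℕ) : (sg fd n i).2 ≤ n + i ∧ n + i ≤ (sg fd n i).1 := by
  induction i with
  | zero => simp [sg]
  | succ i ih =>
    have h1 := lt_tw (sg fd n i).1
    have h2 := lt_tw3 (sg fd n i).1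
    rw [sg_succ, stp]
    split_ifs <;> dsimp only <;> omega

theorem sg_mono {i j : ℕ} (h : i < j) : tw (tw (tw (sg fd n i).1)) ≤ (sg fd n j).1 := by
  induction j, h using Nat.le_induction with
  | base => rw [sg_succ]; rfl
  | succ j h ih => rw [sg_succ]; exact ih.trans ((lt_tw _).trans (lt_tw3 _)).le

theorem gsg_eq {N m : ℕ} (h1 : ∀ i < m, tw (tw (tw (sg fd n i).1)) ≤ N)
    (h2 : N < tw (tw (tw (sg fd n m).1))) (i : ℕ) : gsg fd N n i = sg fd n (min i m) := by
  induction i with
  | zero => rfl
  | succ i ih =>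
    rw [gsg, iterate_succ_apply', ← gsg, ih]
    rcases lt_or_ge i m with h | h
    · rw [min_eq_left h.le, if_pos (h1 i h), min_eq_left h, sg_succ]
    · rw [min_eq_right h, if_neg h2.not_ge, min_eq_right (by omega)]

theorem gsg_self (m : ℕ) : gsg fd (sg fd n m).1 n (sg fd n m).1 = sg fd n m := by
  have := sg_le (fd := fd) (n := n) m
  rw [gsg_eq (m := m) (fun i hi => sg_mono hi) ((lt_tw _).trans (lt_tw3 _)),
    min_eq_right (by omega)]

theorem gsg_late {N m : ℕ} (h : (sg fd n m).1 ≤ N) : ∃ j ≥ m, gsg fd N n N = sg fd n j := by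
  have h0 : N < tw (tw (tw (sg fd n N).1)) := by
    have h1 := lt_tw (sg fd n N).1
    have h2 := lt_tw3 (sg fd n N).1
    have h3 := sg_le (fd := fd) (n := n) N
    omega
  have h1 : ∃ j, N < tw (tw (tw (sg fd n j).1)) := ⟨N, h0⟩
  refine ⟨Nat.find h1, not_lt.1 fun h2 => (Nat.find_spec h1).not_ge ((sg_mono h2).trans h), ?_⟩
  rw [gsg_eq (fun i hi => not_lt.1 (Nat.find_min h1 hi)) (Nat.find_spec h1),
    min_eq_right (Nat.find_min' h1 h0)]

theorem gsg_le (N i : ℕ) : (gsg fd N n i).1 ≤ N + n := by
  induction i with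
  | zero => simp [gsg]
  | succ i ih =>
    rw [gsg, iterate_succ_apply', ← gsg]
    split_ifs with h
    · exact h.trans (Nat.le_add_right _ _)
    · exact ih

theorem pt_gsg (hM : Good M) (hM' : Good M') (k n : ℕ) :
    PT fun w : Str => gsg (keep M M' k n) w.length n w.length := by
  have hN : PT fun p : Str × ℕ × ℕ => p.1.length := by fun_prop
  have hN' : Small fun p : Str × ℕ × ℕ => p.1.length := by fun_prop
  have hu : PT fun p : Str × ℕ × ℕ => p.2.1 := by fun_prop
  have a1 := pt_tw (pt_clip hu hN) (small_of_tw (small_clip hN'))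
  have a2 := pt_tw (pt_clip a1 hN) (small_of_tw (small_clip hN'))
  have a3 : PTP fun p : Str × ℕ × ℕ => tw (tw (tw p.2.1)) ≤ p.1.length := by
    refine ((ptp_tw hu hN).and ((ptp_tw a1 hN).and (ptp_tw a2 hN))).congr fun p => ?_
    have b1 := lt_tw (tw p.2.1)
    have b2 := lt_tw (tw (tw p.2.1))
    refine ⟨fun h => ?_, fun ⟨h1, h2, h3⟩ => ?_⟩
    · rw [clip, clip, if_pos (show tw p.2.1 ≤ _ by omega), if_pos (by omega)]
      omega
    · rwa [clip, if_pos h2, clip, if_pos h1] at h3
  obtain ⟨U, hU⟩ : ∃ U : Str × ℕ × ℕ → ℕ,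
    U = fun p => if tw (tw (tw p.2.1)) ≤ p.1.length then p.2.1 else 0 := ⟨_, rfl⟩
  have a4 : PT U := hU ▸ PT.ite a3 hu (PT.const 0)
  have a5 : Small fun p => tw (tw (tw (U p))) :=
    (hN'.add (Small.const (tw (tw (tw 0))))).mono fun p => by
      simp only [hU]
      split_ifs <;> omega
  have a6 := small_of_tw a5
  have a7 := small_of_tw a6
  refine PT.iterate_nat_growth (by fun_prop) (by fun_prop) (PT.const _) ?_
    (fun w => 2 * w.length + 2) (by fun_prop) fun a s => ?_
  · refine (PT.ite (inst := fun _ => inferInstance) a3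
      (PT.pair (pt_tw (pt_tw (pt_tw a4 (small_of_tw a7)) a7) a6)
        (PT.cond (pt_keep hM hM' k n a4 (r := fun p => p.2.2) (by fun_prop) a5)
          (g := fun p => p.2.2 + 1) (f := fun p => p.2.2) (by fun_prop) (by fun_prop)))
      (g := fun p => p.2) (by fun_prop)).congr fun p => ?_
    split_ifs with h
    · simp [stp, hU, h]
    · rfl
  · split_ifs with h
    · have h3 := sz_le_self (tw (tw (tw s.1)))
      have h4 := sz_add_le s.2 1
      have h5 := sz_le_self 1
      rw [stp, sz_pair', sz_pair']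
      split_ifs <;> dsimp only <;> omega
    · omega

end Pool.Agent.P.MP_435dae_lc
end

-- part Pool.Agent.P.MP_435dae_lc.Main
section

/-! No optimal proof systems relative to a random oracle. -/

namespace Pool.Agent.P.MP_435dae_lc

open MeasureTheory Function Filter Topology N487b59b3 N68a2faeb Pool.Agent.P.MP_158ebf_lc
  Pool.Agent.P.MP_158ebf_lc.POpt Pool.Agent.Lib.PolyTime
open scoped ENNReal

variable {M M' : Mc} {n k : ℕ}

theorem sum_not_kept (fd : ℕ → ℕ → Bool) (n m : ℕ) :
    ∑ i ∈ Finset.range m, (if fd (sg fd n i).1 (sg fd n i).2 then 0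
      else (2⁻¹ : ℝ≥0∞) ^ (sg fd n i).2) + 2 * 2⁻¹ ^ (sg fd n m).2 ≤ 2 * 2⁻¹ ^ n := by
  induction m with
  | zero => simp [sg]
  | succ m ih =>
    refine le_trans (le_of_eq ?_) ih
    rw [Finset.sum_range_succ, sg_succ, stp]
    split_ifs
    · simp
    · rw [pow_succ, mul_comm (_ ^ _), ← mul_assoc,
        ENNReal.mul_inv_cancel (by norm_num) (by norm_num), one_mul, add_assoc, two_mul]

theorem sum_kept (h : Short M M' n) (m : ℕ) :
    ∑ i ∈ Finset.range m, (if keep M M' k n (sg (keep M M' k n) n i).1 (sg (keep M M' k n) n i).2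
      then (2⁻¹ : ℝ≥0∞) ^ (sg (keep M M' k n) n i).2 else 0) ≤ 2 ^ (k + 1) := by
  set s := sg (keep M M' k n) n with hs
  have hu : ∀ i, n ≤ (s i).1 ∧ (s i).2 ≤ (s i).1 := fun i => by
    have := sg_le (fd := keep M M' k n) (n := n) i
    rw [← hs] at this
    omega
  let D : ℕ → Set Ora := fun i =>
    {O | (prf M M' O (s i).1 (s i).2 && snd M M' O n (s i).1 && wit O (s i).1 (s i).2) = true}
  have d1 : ∀ i, MeasurableSet (D i) := fun i => Loc.meas (l := tw (s i).1) fun O O' hO =>
    congrArg₂ _ (loc_both h (hu i).1 _ O O' hO) (loc_wit (h.1.trans (hu i).1) _ O O' hO)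
  have d2 : ∀ i j, i < j → Disjoint (D i) (D j) := by
    intro i j hij
    refine Set.disjoint_left.2 fun O h1 h2 => ?_
    have a1 : tw (tw (tw (s i).1)) ≤ (s j).1 := sg_mono hij
    have a2 := lt_tw (s i).1
    have a3 := lt_tw3 (s i).1
    simp only [D, Set.mem_ofPred_eq, Bool.and_eq_true] at h1 h2
    have a4 := List.all_eq_true.1 (List.all_eq_true.1 h2.1.2 (s i).1
      (List.mem_range.2 (by omega))) (s i).2 (List.mem_range.2 (by have := hu i; omega))
    simp [h1.1.1, h1.2, (hu i).1, show tw (s i).1 ≤ (s j).1 by omega] at a4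
  have d3 : ∑ i ∈ Finset.range m, coin (D i) ≤ 1 := by
    rw [← measure_biUnion_finset (fun i _ j _ hij => ?_) fun i _ => d1 i]
    · exact prob_le_one
    · rcases lt_or_gt_of_ne hij with h | h
      · exact d2 i j h
      · exact (d2 j i h).symm
  refine le_trans (Finset.sum_le_sum (g := fun i => 2 ^ (k + 1) * coin (D i)) fun i _ => ?_) ?_
  · split_ifs with hk
    · refine le_trans (le_of_eq ?_) (mul_le_mul_right ((mul_le_mul_right
        ((keep_iff h (hu i).1).1 hk) _).trans (coin_unsound h (hu i).1 (hu i).2)) _)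
      rw [pow_succ (2⁻¹ : ℝ≥0∞), mul_assoc, ← pow_succ', mul_left_comm, ← mul_pow,
        ENNReal.mul_inv_cancel (by norm_num) (by norm_num), one_pow, mul_one]
    · exact zero_le
  · rw [← Finset.mul_sum]
    exact (mul_le_mul_right d3 _).trans (mul_one _).le

theorem tsum_ne_top (h : Short M M' n) :
    ∑' i, (2⁻¹ : ℝ≥0∞) ^ (sg (keep M M' k n) n i).2 ≠ ⊤ := by
  refine ne_top_of_le_ne_top (b := 2 ^ (k + 1) + 2 * 2⁻¹ ^ n) (by finiteness)
    (ENNReal.tsum_le_of_sum_range_le fun m => ?_)
  refine le_trans (le_of_eq ?_) (add_le_add (sum_kept h m)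
    (le_self_add.trans (sum_not_kept (keep M M' k n) n m)))
  rw [← Finset.sum_add_distrib]
  refine Finset.sum_congr rfl fun i _ => ?_
  split_ifs <;> simp

theorem exists_not_kept (h : Short M M' n) (m : ℕ) :
    ∃ j ≥ m, keep M M' k n (sg (keep M M' k n) n j).1 (sg (keep M M' k n) n j).2 = false := by
  by_contra hc
  simp only [not_exists, not_and, Bool.not_eq_false] at hc
  have h1 : ∀ j ≥ m, (sg (keep M M' k n) n j).2 = (sg (keep M M' k n) n m).2 := by
    intro j hj
    induction j, hj using Nat.le_induction with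
    | base => rfl
    | succ j hj ih => rw [sg_succ, stp, hc j hj, if_pos rfl, ih]
  have h2 := ENNReal.tendsto_atTop_zero_of_tsum_ne_top (tsum_ne_top (k := k) h)
  have h3 := tendsto_nhds_unique_of_eventuallyEq h2 tendsto_const_nhds
    (eventually_atTop.2 ⟨m, fun j hj => congrArg ((2⁻¹ : ℝ≥0∞) ^ ·) (h1 j hj)⟩)
  exact pow_ne_zero _ (by simp) h3.symm

/-- The oracles for which `M` is an optimal proof system and `M'` reduces the test language. -/
def Bad (M M' : Mc) : Set Ora :=
  {O | ∃ L, OptimalIn O (run M O) L ∧ ∀ x, L (run M' O x) = !test O x}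

theorem bad_eventually (hM : Good M) (hM' : Good M') {O : Ora} (hO : O ∈ Bad M M')
    (hw : ∀ᶠ i in atTop, wit O (sg (keep M M' k n) n i).1 (sg (keep M M' k n) n i).2 = false) :
    ∀ᶠ i in atTop, ev M M' O n (sg (keep M M' k n) n i).1 (sg (keep M M' k n) n i).2 = true := by
  obtain ⟨L, hf, hL⟩ := hO
  obtain ⟨m, hm⟩ := eventually_atTop.1 hw
  set s := sg (keep M M' k n) n with hs
  have hsnd : ∀ u, snd M M' O n u = true := fun u =>
    List.all_eq_true.2 fun u' _ => List.all_eq_true.2 fun r' _ => by
      cases h1 : prf M M' O u' r'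
      · simp
      · obtain ⟨v, -, hv⟩ := List.any_eq_true.1 h1
        have := (hf.1.2 _).2 ⟨v, beq_iff_eq.1 hv⟩
        rw [hL, test_inst, Bool.not_eq_true'] at this
        simp [this]
  let S : Str → ℕ × ℕ := fun w => gsg (keep M M' k n) w.tail.length n w.tail.length
  have s1 : PT S := (pt_gsg hM hM' k n).comp (g := fun w : Str => w.tail) (by fun_prop)
  have s2 : Small fun w => (S w).1 :=
    Small.mono (n := fun w : Str => w.tail.length + n) (by fun_prop) fun w => gsg_le _ _
  have s3 := pt_inst s1.fst s1.snd s2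
  let c : Str → Bool := fun w => w.headD false && decide ((s m).1 ≤ w.tail.length)
  have s4 : PT c := by fun_prop
  obtain ⟨C, hC⟩ := hf.2 _ ⟨polyTimeIn_cond hM' hM s4 (PT.cond s4 s3 (PT.tail PT.id)) O,
    fun y => ⟨fun hy => by
      obtain ⟨w, hw⟩ := (hf.1.2 y).1 hy
      exact ⟨false :: w, hw⟩, by
      rintro ⟨w, rfl⟩
      rcases Bool.eq_false_or_eq_true (c w) with h | h
      · obtain ⟨j, hj, e⟩ := gsg_late (of_decide_eq_true (Bool.and_eq_true_iff.1 h).2)
        simp only [h, cond_true, S, e]
        rw [hL, test_inst, hm j hj]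
        rfl
      · simp only [h, cond_false]
        exact (hf.1.2 _).2 ⟨_, rfl⟩⟩⟩
  refine eventually_atTop.2 ⟨m + 3 * C + 1, fun i hi => ?_⟩
  have a1 : n + i ≤ (s i).1 := (sg_le i).2
  have a2 : (s m).1 ≤ (s i).1 := ((lt_tw _).trans (lt_tw3 _)).le.trans (sg_mono (by omega))
  obtain ⟨v, hv, hv'⟩ := hC (true :: List.replicate (s i).1 true)
  have a3 : c (true :: List.replicate (s i).1 true) = true := by simp [c, a2]
  simp only [a3, cond_true] at hv'
  simp only [S, List.tail_cons, List.length_replicate] at hv'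
  have a6 : gsg (keep M M' k n) (s i).1 n (s i).1 = s i := gsg_self i
  rw [a6] at hv'
  have a5 : prf M M' O (s i).1 (s i).2 = true := by
    refine List.any_eq_true.2
      ⟨v, mem_advs.2 (hv.trans (Nat.pow_le_pow_right (by norm_num) ?_)), beq_iff_eq.2 hv'⟩
    rw [List.length_cons, List.length_replicate]
    have a4 : 3 * C + 1 ≤ (s i).1 := by omega
    nlinarith [Nat.mul_le_mul_left (s i).1 a4, Nat.mul_le_mul_left C (show 1 ≤ (s i).1 by omega)]
  rw [ev, hsnd, hm i (by omega), a5]
  rfl

theorem coin_bad (hM : Good M) (hM' : Good M') : coin (Bad M M') = 0 := by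
  obtain ⟨n, h⟩ := exists_short hM hM'
  have key : ∀ k : ℕ, coin (Bad M M') ≤ 2⁻¹ ^ k := by
    intro k
    set s := sg (keep M M' k n) n with hs
    have hu : ∀ i, n ≤ (s i).1 ∧ (s i).2 ≤ (s i).1 := fun i => by
      have := sg_le (fd := keep M M' k n) (n := n) i
      rw [← hs] at this
      omega
    have h1 := ae_eventually_notMem (μ := coin) (s := fun i => {O | wit O (s i).1 (s i).2 = true})
      (ne_top_of_le_ne_top (tsum_ne_top h) (ENNReal.tsum_le_tsum fun i => coin_wit (hu i).2))
    have h2 : Bad M M' ≤ᵐ[coin] ⋃ m, ⋂ i ≥ m, {O | ev M M' O n (s i).1 (s i).2 = true} := by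
      filter_upwards [h1] with O hO hb
      obtain ⟨m, hm⟩ := eventually_atTop.1
        (bad_eventually hM hM' hb (hO.mono fun i hi => Bool.eq_false_iff.2 hi))
      exact Set.mem_iUnion.2 ⟨m, Set.mem_iInter₂.2 hm⟩
    refine (measure_mono_ae h2).trans ?_
    rw [Monotone.measure_iUnion fun a b hab =>
      Set.biInter_subset_biInter_left fun i (hi : b ≤ i) => hab.trans hi]
    refine iSup_le fun m => ?_
    obtain ⟨j, hj, e⟩ := exists_not_kept (k := k) h m
    refine (measure_mono (Set.biInter_subset_of_mem hj)).trans (not_le.1 fun h' => ?_).le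
    rw [(keep_iff h (hu j).1).2 h'] at e
    exact absurd e (by simp)
  exact le_antisymm (ge_of_tendsto' (ENNReal.tendsto_pow_atTop_nhds_zero_of_lt_one (by norm_num))
    key) zero_le

theorem ae_no_optimal : ∀ᵐ O ∂coin, ∀ L f, CoNPHardIn O L → ¬OptimalIn O f L := by
  have h0 := OMach_countable_poly
  have h1 := OMach_countable (Str × Str) Str
  have h2 : Countable {M : Mc // Good M} := Function.Injective.countable
    (f := fun M : {M : Mc // Good M} => ((⟨M.1.1, M.2.1⟩ : {f : Str × Str → Str // IsPolyTime f}),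
      (⟨M.1.2.1, M.2.2⟩ : {f : Str × Str → Str // IsPolyTime f}), M.1.2.2)) fun a b h => by
    simp only [Prod.mk.injEq, Subtype.mk.injEq] at h
    exact Subtype.ext (Prod.ext h.1 (Prod.ext h.2.1 h.2.2))
  have h3 : ∀ᵐ O ∂coin, ∀ M M' : {M : Mc // Good M}, O ∉ Bad M.1 M'.1 :=
    ae_all_iff.2 fun M => ae_all_iff.2 fun M' => measure_eq_zero_iff_ae_notMem.1 (coin_bad M.2 M'.2)
  filter_upwards [h3] with O hO L f hL hf
  obtain ⟨g, hg, hg'⟩ := hL _ (test_mem O)
  obtain ⟨M, hM, rfl⟩ := exists_run hf.1.1
  obtain ⟨M', hM', rfl⟩ := exists_run hg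
  exact hO ⟨M, hM⟩ ⟨M', hM'⟩ ⟨L, hf, hg'⟩

end Pool.Agent.P.MP_435dae_lc
end
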