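import Pool.Agent.Lib.PolyTime.Parse
import Pool.Agent.P.MP_158ebf_lc.ADefs
import Pool.Agent.K.MP_158ebf_lc.C0
import Pool.Agent.Lib.PolyTime.Cook

-- part Pool.Agent.P.MP_158ebf_lc.AOrc
section

/-! Closure properties of oracle polynomial time. -/

namespace Pool.Agent.P.MP_158ebf_lc.AT

open Function N487b59b3 N68a2faeb Pool.Agent.Lib.PolyTime

section

variable {α : Type} {O : Str → Bool} {q : α × Str → Str} {a : α}

theorem Orc_length_oans (j : ℕ) : (oans O q a j).length = j := by
  induction j with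
  | zero => rfl
  | succ j ih => simp [oans, ih]

theorem Orc_take_oans {i j : ℕ} (h : i ≤ j) : (oans O q a j).take i = oans O q a i := by
  induction j, h using Nat.le_induction with
  | base => exact List.take_of_length_le (Orc_length_oans i).le
  | succ j h ih => rw [oans, List.take_append_of_le_length (by rwa [Orc_length_oans]), ih]

theorem Orc_oans_congr {β : Type} {q' : β × Str → Str} {b : β} (j : ℕ)
    (h : ∀ l : Str, l.length < j → q (a, l) = q' (b, l)) : oans O q a j = oans O q' b j := by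
  induction j with
  | zero => rfl
  | succ j ih =>
    rw [oans, oans, ih fun l hl => h l (by omega), h _ (by rw [Orc_length_oans]; omega)]

theorem Orc_drop_oans {β : Type} {q' : β × Str → Str} {b : β} (K t : ℕ)
    (h : ∀ u, u < t → q (a, oans O q a (K + u)) = q' (b, (oans O q a (K + u)).drop K)) :
    (oans O q a (K + t)).drop K = oans O q' b t := by
  induction t with
  | zero => exact List.drop_of_length_le (by rw [Orc_length_oans]; omega)
  | succ t ih =>
    have e := ih fun u hu => h u (by omega)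
    rw [← Nat.add_assoc, oans, oans,
      List.drop_append_of_le_length (by rw [Orc_length_oans]; omega), h t (by omega), e]

end

variable {α β γ : Type} [N487b59b3 α] [N487b59b3 β] [N487b59b3 γ] {O : Str → Bool}

/-- A flexible form of `PolyTimeIn`. -/
def Flex (O : Str → Bool) (f : α → β) : Prop :=
  ∃ (q : α × Str → Str) (o : α × Str → β) (n : α → ℕ), PT q ∧ PT o ∧ Small n ∧
    ∀ a m, n a ≤ m → f a = o (a, oans O q a m)

theorem Flex.of_polyTimeIn {f : α → β} (h : PolyTimeIn O f) : Flex O f := by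
  obtain ⟨q, o, p, hq, ho, h⟩ := h
  have h1 := PT.of_isPolyTime hq
  have h2 := PT.of_isPolyTime ho
  refine ⟨q, fun x => o (x.1, x.2.take (p.eval (sz x.1))), fun a => p.eval (sz a), h1,
    by fun_prop, by fun_prop, fun a m hm => ?_⟩
  dsimp only
  rw [Orc_take_oans hm]
  exact h a

theorem Flex.polyTimeIn {f : α → β} (h : Flex O f) : PolyTimeIn O f := by
  obtain ⟨q, o, n, hq, ho, ⟨p, hp⟩, h⟩ := h
  exact ⟨q, o, p, hq.isPolyTime, ho.isPolyTime, fun a => h a _ (hp a)⟩

theorem Flex.of_pt {f : α → β} (h : PT f) : Flex O f :=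
  ⟨fun _ => [], fun x => f x.1, fun _ => 0, PT.const _, by fun_prop, Small.const 0,
    fun _ _ _ => rfl⟩

theorem Flex.congr {f g : α → β} (h : Flex O f) (e : ∀ a, g a = f a) : Flex O g := by
  have : g = f := funext e
  rw [this]
  exact h

theorem Flex.size {f : α → β} (h : Flex O f) : PB sz fun a => sz (f a) := by
  obtain ⟨q, o, n, hq, ho, hn, h⟩ := h
  obtain ⟨p, hp⟩ := ho.size
  have h1 : Small fun a : α => p.eval (2 * sz a + 1 + 3 * n a) := by fun_prop
  refine PB.mono h1 fun a => ?_
  rw [h a _ le_rfl]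
  refine (hp _).trans (eval_mono p ?_)
  rw [sz_pair, sz_str (oans O q a (n a)), Orc_length_oans]

theorem Flex.ask {q : α → Str} (h : PT q) : Flex O fun a => O (q a) := by
  refine ⟨fun x => q x.1, fun x => x.2.headD false, fun _ => 1, by fun_prop, by fun_prop,
    Small.const 1, fun a m hm => ?_⟩
  have e := Orc_take_oans (O := O) (q := fun x : α × Str => q x.1) (a := a) hm
  dsimp only
  rcases h1 : oans O (fun x : α × Str => q x.1) a m with _ | ⟨c, r⟩
  · rw [h1] at e
    simp [oans] at e
  · rw [h1] at e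
    simp only [oans, List.take_succ_cons, List.take_zero, List.nil_append, List.cons.injEq,
      and_true] at e
    simp [e]

/-- Sequential composition: first `g`, then `f` on the input and the value of `g`. -/
theorem Flex.seq {f : α × β → γ} {g : α → β} (hf : Flex O f) (hg : Flex O g) :
    Flex O fun a => f (a, g a) := by
  have hsz : Small fun a => sz (g a) := hg.size
  obtain ⟨q, o, n, hq, ho, ⟨p, hp⟩, h⟩ := hf
  obtain ⟨q', o', n', hq', ho', ⟨p', hp'⟩, h'⟩ := hg
  have hN : PT fun a : α => p'.eval (sz a) := by fun_prop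
  have hNs : Small fun a : α => p'.eval (sz a) := by fun_prop
  set N : α → ℕ := fun a : α => p'.eval (sz a) with hNd
  have hb : ∀ a, n' a ≤ N a := hp'
  clear_value N
  let Q : α × Str → Str := fun x =>
    if x.2.length < N x.1 then q' x else
      q ((x.1, o' (x.1, x.2.take (N x.1))), x.2.drop (N x.1))
  have k1 : ∀ a m, N a ≤ m → o' (a, (oans O Q a m).take (N a)) = g a := by
    intro a m hm
    rw [Orc_take_oans hm, h' a _ (hb a)]
    congr 2
    exact Orc_oans_congr _ fun l hl => by simp only [Q, hl, if_true]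
  refine ⟨Q, fun x => o ((x.1, o' (x.1, x.2.take (N x.1))), x.2.drop (N x.1)),
    fun a => N a + p.eval (2 * sz a + 1 + sz (g a)), by simp only [Q]; fun_prop, by fun_prop,
    by fun_prop, fun a m hm => ?_⟩
  dsimp only at hm ⊢
  obtain ⟨t, rfl⟩ : ∃ t, m = N a + t := ⟨m - N a, by omega⟩
  rw [k1 a _ (by omega), Orc_drop_oans (q' := q) (b := (a, g a)) (N a) t fun u _ => ?_]
  · refine h _ _ ((hp _).trans ?_)
    rw [sz_pair]
    omega
  · have e : ¬ (oans O Q a (N a + u)).length < N a := by rw [Orc_length_oans]; omega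
    have e2 := k1 a (N a + u) (by omega)
    generalize oans O Q a (N a + u) = w at e e2
    simp only [Q, e, if_false, e2]

theorem Orc_pre {f : β → γ} {g : α → β} (hf : Flex O f) (hg : PT g) :
    Flex O fun a => f (g a) := by
  obtain ⟨q, o, n, hq, ho, hn, h⟩ := hf
  refine ⟨fun x => q (g x.1, x.2), fun x => o (g x.1, x.2), fun a => n (g a), by fun_prop,
    by fun_prop, hn.comp hg, fun a m hm => ?_⟩
  dsimp only
  rw [h _ m hm]
  exact congrArg (fun l => o (g a, l)) (Orc_oans_congr m fun _ _ => rfl)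

theorem Flex.comp {f : β → γ} {g : α → β} (hf : Flex O f) (hg : Flex O g) :
    Flex O fun a => f (g a) :=
  Flex.seq (f := fun x : α × β => f x.2) (Orc_pre hf (by fun_prop)) hg

theorem Orc_post {f : α → β} {g : α × β → γ} (hf : Flex O f) (hg : PT g) :
    Flex O fun a => g (a, f a) :=
  Flex.seq (Flex.of_pt hg) hf

theorem Flex.pair {f : α → β} {g : α → γ} (hf : Flex O f) (hg : Flex O g) :
    Flex O fun a => (f a, g a) :=
  Flex.seq (f := fun x : α × γ => (f x.1, x.2))
    (Orc_post (f := fun x : α × γ => f x.1) (g := fun y : (α × γ) × β => (y.2, y.1.2))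
      (Orc_pre hf (by fun_prop)) (by fun_prop)) hg

/-- Keep the old state when the new one is larger than `B`. -/
def Orc_guard (B : ℕ) (b c : β) : β := if sz c ≤ B then c else b

theorem Orc_sz_guard {B C : ℕ} {b c : β} (h : B ≤ C) (hb : sz b ≤ C) :
    sz (Orc_guard B b c) ≤ C := by
  unfold Orc_guard
  split_ifs <;> omega

/-- One round of the simulated fold. -/
def Orc_step (o : (α × β × γ) × Str → β) (a : α) (B N : ℕ) (st : β × Str) (x : γ) : β × Str :=
  (Orc_guard B st.1 (o ((a, st.1, x), st.2.take N)), st.2.drop N)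

omit [N487b59b3 α] [N487b59b3 γ] in
theorem Orc_sz_step (o : (α × β × γ) × Str → β) (a : α) {B C : ℕ} (N : ℕ) (h : B ≤ C)
    (l : List γ) (st : β × Str) (hs : sz st.1 ≤ C) :
    sz (l.foldl (Orc_step o a B N) st).1 ≤ C ∧
      sz (l.foldl (Orc_step o a B N) st).2 ≤ sz st.2 := by
  induction l generalizing st with
  | nil => exact ⟨hs, le_rfl⟩
  | cons x l ih =>
    have h1 := ih (Orc_step o a B N st x) (Orc_sz_guard h hs)
    exact ⟨h1.1, h1.2.trans (sz_drop_le _ _)⟩

omit [N487b59b3 γ] in
theorem Orc_sz_fold (f : β → γ → β) {B C : ℕ} (h : B ≤ C) (l : List γ) (s : β) (hs : sz s ≤ C) :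
    sz (l.foldl (fun b x => Orc_guard B b (f b x)) s) ≤ C := by
  induction l generalizing s with
  | nil => exact hs
  | cons x l ih => exact ih _ (Orc_sz_guard h hs)

theorem Orc_fold_core {f : α × β × γ → β} (hf : Flex O f) (P : Polynomial ℕ) :
    Flex O fun p : α × List γ × β =>
      p.2.1.foldl (fun b x => Orc_guard (P.eval (sz p.1)) b (f (p.1, b, x))) p.2.2 := by
  obtain ⟨q, o, n, hq, ho, ⟨r, hr⟩, h⟩ := hf
  have hN : PT fun p : α × List γ × β =>
      r.eval (2 * sz p.1 + 1 + (2 * (sz p.2.2 + P.eval (sz p.1)) + 1 + sz p.2.1)) + 1 := by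
    fun_prop
  have hNs : Small fun p : α × List γ × β =>
      r.eval (2 * sz p.1 + 1 + (2 * (sz p.2.2 + P.eval (sz p.1)) + 1 + sz p.2.1)) + 1 := by
    fun_prop
  set N : α × List γ × β → ℕ := fun p =>
    r.eval (2 * sz p.1 + 1 + (2 * (sz p.2.2 + P.eval (sz p.1)) + 1 + sz p.2.1)) + 1 with hNd
  have hN0 : ∀ p, 0 < N p := fun p => Nat.succ_pos _
  have hb : ∀ (p : α × List γ × β) (b : β), sz b ≤ sz p.2.2 + P.eval (sz p.1) →
      ∀ x ∈ p.2.1, n (p.1, b, x) ≤ N p := fun p b hb x hx => by
    have h1 := hr (p.1, b, x)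
    have h2 := sz_le_of_mem hx
    have h3 : r.eval (sz (p.1, b, x)) ≤
        r.eval (2 * sz p.1 + 1 + (2 * (sz p.2.2 + P.eval (sz p.1)) + 1 + sz p.2.1)) :=
      eval_mono r (by rw [sz_pair, sz_pair]; omega)
    simp only [hNd]
    omega
  clear_value N
  let sim : ((α × List γ × β) × Str) × ℕ → β × Str := fun y =>
    (y.1.1.2.1.take y.2).foldl (Orc_step o y.1.1.1 (P.eval (sz y.1.1.1)) (N y.1.1))
      (y.1.1.2.2, y.1.2)
  have hsim : PT sim := by
    refine PT.foldl (f := fun y : ((α × List γ × β) × Str) × ℕ =>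
      Orc_step o y.1.1.1 (P.eval (sz y.1.1.1)) (N y.1.1)) (by fun_prop) (by fun_prop)
      (by unfold Orc_step Orc_guard; fun_prop) ?_
    have h1 : Small fun y : ((α × List γ × β) × Str) × ℕ =>
        2 * (sz y.1.1.2.2 + P.eval (sz y.1.1.1)) + 1 + sz y.1.2 := by fun_prop
    refine (PB.reindex h1 (Prod.fst : (((α × List γ × β) × Str) × ℕ) × ℕ → _)).mono fun y => ?_
    have h2 := Orc_sz_step o y.1.1.1.1 (B := P.eval (sz y.1.1.1.1))
      (C := sz y.1.1.1.2.2 + P.eval (sz y.1.1.1.1)) (N y.1.1.1) (by omega)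
      ((y.1.1.1.2.1.take y.1.2).take y.2) (y.1.1.1.2.2, y.1.1.2) (by dsimp only; omega)
    rw [sz_pair']
    dsimp only at h2 ⊢
    omega
  let Q : (α × List γ × β) × Str → Str := fun x =>
    ((x.1.2.1.drop (x.2.length / N x.1)).take 1).flatMap fun c =>
      q ((x.1.1, (sim (x, x.2.length / N x.1)).1, c), x.2.drop (x.2.length / N x.1 * N x.1))
  have hQ : PT Q := PT.flatMap (f := fun (x : (α × List γ × β) × Str) (c : γ) =>
      q ((x.1.1, (sim (x, x.2.length / N x.1)).1, c), x.2.drop (x.2.length / N x.1 * N x.1)))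
    (by fun_prop) (by fun_prop)
  have key : ∀ (p : α × List γ × β) (k : ℕ), k ≤ p.2.1.length → ∀ m, k * N p ≤ m →
      sim ((p, oans O Q p m), k) =
        ((p.2.1.take k).foldl (fun b x => Orc_guard (P.eval (sz p.1)) b (f (p.1, b, x))) p.2.2,
          (oans O Q p m).drop (k * N p)) := by
    intro p k
    induction k with
    | zero => intro _ m _; simp [sim]
    | succ k ih =>
      intro hk m hm
      have hk' : k < p.2.1.length := hk
      rw [Nat.succ_mul] at hm
      have e0 := ih hk'.le m (by omega)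
      set b := (p.2.1.take k).foldl
        (fun b x => Orc_guard (P.eval (sz p.1)) b (f (p.1, b, x))) p.2.2 with hbd
      have hbs : sz b ≤ sz p.2.2 + P.eval (sz p.1) :=
        Orc_sz_fold (fun b x => f (p.1, b, x)) (by omega) _ _ (by omega)
      have e1 : (oans O Q p (k * N p + N p)).drop (k * N p) =
          oans O q (p.1, b, p.2.1[k]) (N p) := by
        refine Orc_drop_oans _ _ fun u hu => ?_
        have e : (k * N p + u) / N p = k := by
          rw [Nat.add_comm, Nat.add_mul_div_right _ _ (hN0 p), Nat.div_eq_of_lt hu, Nat.zero_add]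
        have e2 := ih hk'.le (k * N p + u) (by omega)
        have e3 := Orc_length_oans (O := O) (q := Q) (a := p) (k * N p + u)
        generalize oans O Q p (k * N p + u) = w at e2 e3
        simp only [Q, e3, e, e2]
        rw [List.drop_eq_getElem_cons hk', List.take_succ_cons, List.take_zero, List.flatMap_cons,
          List.flatMap_nil, List.append_nil]
      simp only [sim] at e0 ⊢
      rw [List.take_succ_eq_append_getElem hk', List.foldl_append, List.foldl_append, e0]
      simp only [List.foldl_cons, List.foldl_nil, Orc_step]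
      rw [List.take_drop, Orc_take_oans hm, e1, List.drop_drop, Nat.succ_mul,
        ← h _ _ (hb p b hbs _ (List.getElem_mem hk'))]
  refine ⟨Q, fun x => (sim (x, x.1.2.1.length)).1, fun p => p.2.1.length * N p, hQ, by fun_prop,
    by fun_prop, fun p m hm => ?_⟩
  dsimp only at hm ⊢
  rw [key p _ le_rfl m hm, List.take_length]

theorem Flex.foldl {l : α → List γ} {s : α → β} {f : α → β → γ → β} (hl : Flex O l)
    (hs : Flex O s) (hf : Flex O fun p : α × β × γ => f p.1 p.2.1 p.2.2)
    (hb : PB (fun p : α × ℕ => sz p.1)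
      (fun p => sz (((l p.1).take p.2).foldl (f p.1) (s p.1)))) :
    Flex O fun a => (l a).foldl (f a) (s a) := by
  obtain ⟨P, hP⟩ := hb
  refine ((Orc_fold_core hf P).seq (hl.pair hs)).congr fun a => ?_
  have key : ∀ k, k ≤ (l a).length →
      ((l a).take k).foldl (fun b x => Orc_guard (P.eval (sz a)) b (f a b x)) (s a) =
        ((l a).take k).foldl (f a) (s a) := by
    intro k
    induction k with
    | zero => intro _; rfl
    | succ k ih =>
      intro hk
      have hk' : k < (l a).length := hk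
      have h1 := hP (a, k + 1)
      dsimp only at h1
      rw [List.take_succ_eq_append_getElem hk', List.foldl_append] at h1 ⊢
      rw [List.foldl_append, ih hk'.le]
      simp only [List.foldl_cons, List.foldl_nil] at h1 ⊢
      rw [Orc_guard, if_pos h1]
  have e := key _ le_rfl
  rw [List.take_length] at e
  exact e.symm

theorem Flex.iterate {n : α → ℕ} {s : α → β} {F : α → β → β} (hn : PT n) (hn' : Small n)
    (hs : Flex O s) (hF : Flex O fun p : α × β => F p.1 p.2)
    (hb : PB (fun p : α × ℕ => sz p.1) (fun p => sz ((F p.1)^[min p.2 (n p.1)] (s p.1)))) :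
    Flex O fun a => (F a)^[n a] (s a) := by
  have e : ∀ (a : α) (l : Str) (b : β),
      l.foldl (fun b _ => F a b) b = (F a)^[l.length] b := by
    intro a l
    induction l with
    | nil => intro b; rfl
    | cons x l ih => intro b; simp [ih]
  refine (Flex.foldl (l := fun a => List.replicate (n a) true) (f := fun a b _ => F a b)
    (Flex.of_pt (by fun_prop)) hs
    (Orc_pre (g := fun p : α × β × Bool => (p.1, p.2.1)) hF (by fun_prop)) ?_).congr fun a => ?_
  · refine hb.mono fun p => ?_
    rw [e, List.length_take, List.length_replicate]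
  · rw [e, List.length_replicate]

theorem Flex.flatMap {l : α → List β} {f : α → β → List γ} (hl : Flex O l)
    (hf : Flex O fun p : α × β => f p.1 p.2) : Flex O fun a => (l a).flatMap (f a) := by
  have e : ∀ (a : α) (r : List β) (acc : List γ),
      r.foldl (fun acc x => acc ++ f a x) acc = acc ++ r.flatMap (f a) := by
    intro a r
    induction r with
    | nil => intro acc; simp
    | cons x r ih => intro acc; simp [ih]
  refine (Flex.foldl (s := fun _ => ([] : List γ)) (f := fun a acc x => acc ++ f a x) hl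
    (Flex.of_pt (PT.const _))
    (Orc_post (f := fun p : α × List γ × β => f p.1 p.2.2)
      (g := fun y : (α × List γ × β) × List γ => y.1.2.1 ++ y.2)
      (Orc_pre (g := fun p : α × List γ × β => (p.1, p.2.2)) hf (by fun_prop)) (by fun_prop))
    ?_).congr fun a => by rw [e, List.nil_append]
  obtain ⟨q, hq⟩ := hf.size
  have h1 := hl.size.reindex (Prod.fst : α × ℕ → α)
  refine (h1.mul (PB.eval q ((((PB.const 2).mul PB.self).add (PB.const 1)).add
    h1))).mono fun p => ?_
  refine (PT.sz_foldl_le (B := q.eval (2 * sz p.1 + 1 + sz (l p.1))) _ _ fun b x hx => ?_).trans ?_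
  · rw [sz_append]
    refine Nat.add_le_add_left ((hq (p.1, x)).trans (eval_mono q ?_)) _
    have := sz_le_of_mem (List.mem_of_mem_take hx)
    rw [sz_pair]
    omega
  · have : ((l p.1).take p.2).length ≤ sz (l p.1) :=
      (List.length_take_le' _ _).trans (length_le_sz _)
    rw [sz_nil, Nat.zero_add]
    gcongr

theorem Flex.map {l : α → List β} {f : α → β → γ} (hl : Flex O l)
    (hf : Flex O fun p : α × β => f p.1 p.2) : Flex O fun a => (l a).map (f a) := by
  refine (Flex.flatMap (f := fun a x => [f a x]) hl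
    (Orc_post (g := fun y : (α × β) × γ => [y.2]) hf (by fun_prop))).congr fun a => ?_
  induction l a with
  | nil => rfl
  | cons x r ih => simp [ih]

theorem Flex.filter {l : α → List β} {f : α → β → Bool} (hl : Flex O l)
    (hf : Flex O fun p : α × β => f p.1 p.2) : Flex O fun a => (l a).filter (f a) := by
  refine (Flex.flatMap (f := fun a x => bif f a x then [x] else []) hl
    (Orc_post (g := fun y : (α × β) × Bool => bif y.2 then [y.1.2] else []) hf
      (by fun_prop))).congr fun a => ?_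
  induction l a with
  | nil => rfl
  | cons x r ih => cases h : f a x <;> simp [ih, h]

theorem Flex.ite {c : α → Bool} {f g : α → β} (hc : Flex O c) (hf : Flex O f) (hg : Flex O g) :
    Flex O fun a => if c a = true then f a else g a := by
  refine (Orc_post (g := fun y : α × Bool × β × β => bif y.2.1 then y.2.2.1 else y.2.2.2)
    (hc.pair (hf.pair hg)) (by fun_prop)).congr fun a => ?_
  cases c a <;> simp

end Pool.Agent.P.MP_158ebf_lc.AT
end

-- part Pool.Agent.P.MP_158ebf_lc.ABase
section

/-! Averages over finite types and enumeration of words. -/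

namespace Pool.Agent.P.MP_158ebf_lc.AT

open Function Finset N487b59b3 N68a2faeb Pool.Agent.Lib.PolyTime

/-- Average over a finite type. -/
def av {Ω : Type} [Fintype Ω] (f : Ω → ℚ) : ℚ := (∑ ω, f ω) / Fintype.card Ω

/-- Indicator. -/
def ind (p : Prop) [Decidable p] : ℚ := if p then 1 else 0

/-- All words of length `n` with entries below `q`. -/
def wds (q n : ℕ) : List (List ℕ) :=
  (fun L : List (List ℕ) => L.flatMap fun x => (List.range q).map fun a => a :: x)^[n] [[]]

section

variable {Ω Ω' : Type} [Fintype Ω] [Fintype Ω']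

theorem ind_nonneg (p : Prop) [Decidable p] : 0 ≤ ind p := by
  unfold ind
  split_ifs <;> norm_num

theorem ind_le_one (p : Prop) [Decidable p] : ind p ≤ 1 := by
  unfold ind
  split_ifs <;> norm_num

theorem av_add (f g : Ω → ℚ) : av (fun ω => f ω + g ω) = av f + av g := by
  unfold av
  rw [Finset.sum_add_distrib, add_div]

theorem av_sub (f g : Ω → ℚ) : av (fun ω => f ω - g ω) = av f - av g := by
  unfold av
  rw [Finset.sum_sub_distrib, sub_div]

theorem av_mul_left (c : ℚ) (f : Ω → ℚ) : av (fun ω => c * f ω) = c * av f := by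
  unfold av
  rw [← Finset.mul_sum, mul_div_assoc]

theorem av_sum {ι : Type} (s : Finset ι) (f : ι → Ω → ℚ) :
    av (fun ω => ∑ i ∈ s, f i ω) = ∑ i ∈ s, av (f i) := by
  unfold av
  rw [Finset.sum_comm, Finset.sum_div]

theorem av_mono {f g : Ω → ℚ} (h : ∀ ω, f ω ≤ g ω) : av f ≤ av g := by
  unfold av
  exact div_le_div_of_nonneg_right (Finset.sum_le_sum fun ω _ => h ω) (Nat.cast_nonneg _)

theorem av_nonneg {f : Ω → ℚ} (h : ∀ ω, 0 ≤ f ω) : 0 ≤ av f := by
  unfold av
  exact div_nonneg (Finset.sum_nonneg fun ω _ => h ω) (Nat.cast_nonneg _)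

theorem av_const [Nonempty Ω] (c : ℚ) : av (fun _ : Ω => c) = c := by
  unfold av
  have h : (Fintype.card Ω : ℚ) ≠ 0 := Nat.cast_ne_zero.2 Fintype.card_ne_zero
  rw [Finset.sum_const, Finset.card_univ, nsmul_eq_mul]
  field_simp

theorem av_equiv (e : Ω ≃ Ω') (f : Ω' → ℚ) : av (fun ω => f (e ω)) = av f := by
  unfold av
  rw [Equiv.sum_comp e f, Fintype.card_congr e]

theorem av_prod (f : Ω × Ω' → ℚ) : av f = av fun a => av fun b => f (a, b) := by
  unfold av
  rw [Fintype.sum_prod_type, ← Finset.sum_div, div_div, Fintype.card_prod, Nat.cast_mul, mul_comm]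

theorem av_comm (f : Ω → Ω' → ℚ) :
    (av fun a => av fun b => f a b) = av fun b => av fun a => f a b := by
  unfold av
  rw [← Finset.sum_div, ← Finset.sum_div, div_div, div_div, Finset.sum_comm, mul_comm]

theorem av_prod_mul (f : Ω → ℚ) (g : Ω' → ℚ) :
    av (fun p : Ω × Ω' => f p.1 * g p.2) = av f * av g := by
  unfold av
  rw [Fintype.sum_prod_type, div_mul_div_comm, Finset.sum_mul_sum, Fintype.card_prod, Nat.cast_mul]

theorem exists_ge_av [Nonempty Ω] (f : Ω → ℚ) : ∃ ω, av f ≤ f ω := by
  obtain ⟨ω, -, h⟩ := Finset.exists_max_image Finset.univ f Finset.univ_nonempty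
  exact ⟨ω, (av_mono fun a => h a (Finset.mem_univ a)).trans_eq (av_const _)⟩

theorem exists_le_av [Nonempty Ω] (f : Ω → ℚ) : ∃ ω, f ω ≤ av f := by
  obtain ⟨ω, -, h⟩ := Finset.exists_min_image Finset.univ f Finset.univ_nonempty
  exact ⟨ω, (av_const _).symm.trans_le (av_mono fun a => h a (Finset.mem_univ a))⟩

/-- A surjective affine map between finite groups carries the uniform distribution to the uniform
distribution. -/
theorem av_hom {G H : Type} [AddCommGroup G] [AddCommGroup H] [Fintype G] [Fintype H]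
    (f : G →+ H) (hf : Surjective f) (c : H) (φ : H → ℚ) :
    av (fun g => φ (f g + c)) = av φ := by
  have h1 : ∀ h : H, av (fun g => φ (f g + c)) = av fun g => φ (h + (f g + c)) := by
    intro h
    obtain ⟨a, rfl⟩ := hf h
    rw [← av_equiv (Equiv.addLeft a) fun g => φ (f g + c)]
    simp only [Equiv.coe_addLeft, map_add, add_assoc]
  have h2 : ∀ g : G, (av fun h => φ (h + (f g + c))) = av φ := fun g =>
    av_equiv (Equiv.addRight (f g + c)) φ
  calc av (fun g => φ (f g + c)) = av fun _ : H => av fun g => φ (f g + c) := (av_const _).symm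
    _ = av fun h : H => av fun g => φ (h + (f g + c)) := congrArg av (funext h1)
    _ = av fun g : G => av fun h => φ (h + (f g + c)) := av_comm _
    _ = av fun _ : G => av φ := congrArg av (funext h2)
    _ = av φ := av_const _

/-- Chebyshev's inequality for pairwise uncorrelated variables bounded by one. -/
theorem cheb {ι : Type} [Fintype ι] [Nonempty ι] [Nonempty Ω] (X : ι → Ω → ℚ) (μ ε : ℚ)
    (hε : 0 < ε) (h1 : ∀ i, av (X i) = μ) (h2 : ∀ i ω, |X i ω| ≤ 1)
    (h3 : ∀ i j, i ≠ j → av (fun ω => X i ω * X j ω) = μ ^ 2) :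
    av (fun ω => ind (av (fun i => X i ω) < μ - ε)) ≤ 1 / (Fintype.card ι * ε ^ 2) := by
  classical
  have hn : (0 : ℚ) < Fintype.card ι := Nat.cast_pos.2 Fintype.card_pos
  have e1 : ∀ i j, av (fun ω => (X i ω - μ) * (X j ω - μ)) =
      av (fun ω => X i ω * X j ω) - μ ^ 2 := by
    intro i j
    have h : (fun ω => (X i ω - μ) * (X j ω - μ)) =
        fun ω => (X i ω * X j ω - μ * X i ω) - (μ * X j ω - μ ^ 2) := by
      funext ω; ring
    rw [h, av_sub, av_sub, av_sub, av_mul_left, av_mul_left, av_const, h1, h1]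
    ring
  have e2 : ∀ i j, av (fun ω => (X i ω - μ) * (X j ω - μ)) ≤ if i = j then 1 else 0 := by
    intro i j
    rw [e1]
    split_ifs with hij
    · subst hij
      have h : av (fun ω => X i ω * X i ω) ≤ av fun _ : Ω => (1 : ℚ) :=
        av_mono fun ω => by
          have := abs_le.1 (h2 i ω)
          nlinarith
      rw [av_const] at h
      nlinarith [mul_self_nonneg μ]
    · rw [h3 i j hij, sub_self]
  have e3 : ∀ ω, ind (av (fun i => X i ω) < μ - ε) ≤
      (1 / (Fintype.card ι * ε) ^ 2) * ∑ i, ∑ j, (X i ω - μ) * (X j ω - μ) := by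
    intro ω
    rw [← Finset.sum_mul_sum, Finset.sum_sub_distrib, Finset.sum_const, Finset.card_univ,
      nsmul_eq_mul]
    have hp : (0 : ℚ) < (Fintype.card ι * ε) ^ 2 := by positivity
    unfold ind
    split_ifs with h
    · unfold av at h
      rw [div_lt_iff₀ hn] at h
      rw [one_div_mul_eq_div, le_div_iff₀ hp]
      have hq : 0 < Fintype.card ι * ε := by positivity
      nlinarith
    · exact mul_nonneg (by positivity) (mul_self_nonneg _)
  refine (av_mono e3).trans ?_
  rw [av_mul_left, av_sum]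
  have e4 : ∑ i, av (fun ω => ∑ j, (X i ω - μ) * (X j ω - μ)) ≤ Fintype.card ι := by
    have h : ∀ i, av (fun ω => ∑ j, (X i ω - μ) * (X j ω - μ)) ≤ 1 := by
      intro i
      rw [av_sum]
      refine (Finset.sum_le_sum fun j _ => e2 i j).trans ?_
      simp
    refine (Finset.sum_le_sum fun i _ => h i).trans ?_
    simp
  refine (mul_le_mul_of_nonneg_left e4 (by positivity)).trans (le_of_eq ?_)
  field_simp

end

theorem ABaseb_succ (q n : ℕ) :
    wds q (n + 1) = (wds q n).flatMap fun x => (List.range q).map fun a => a :: x := by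
  unfold wds
  rw [Function.iterate_succ_apply']

theorem length_wds (q n : ℕ) : (wds q n).length = q ^ n := by
  induction n with
  | zero => rfl
  | succ n ih => simp [ABaseb_succ, List.length_flatMap, ih, pow_succ]

theorem mem_wds {q n : ℕ} {l : List ℕ} : l ∈ wds q n ↔ l.length = n ∧ ∀ a ∈ l, a < q := by
  induction n generalizing l with
  | zero =>
    have e : wds q 0 = [[]] := rfl
    rw [e, List.mem_singleton, List.length_eq_zero_iff]
    exact ⟨fun h => ⟨h, by simp [h]⟩, fun h => h.1⟩
  | succ n ih =>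
    rw [ABaseb_succ, List.mem_flatMap]
    constructor
    · rintro ⟨x, hx, h⟩
      obtain ⟨a, ha, rfl⟩ := List.mem_map.1 h
      obtain ⟨h1, h2⟩ := ih.1 hx
      exact ⟨by simp [h1], List.forall_mem_cons.2 ⟨List.mem_range.1 ha, h2⟩⟩
    · rintro ⟨h1, h2⟩
      cases l with
      | nil => simp at h1
      | cons a x =>
        obtain ⟨h3, h4⟩ := List.forall_mem_cons.1 h2
        exact ⟨x, ih.2 ⟨by simpa using h1, h4⟩, List.mem_map.2 ⟨a, List.mem_range.2 h3, rfl⟩⟩

theorem ABaseb_range (q : ℕ) [NeZero q] (φ : ℕ → ℚ) :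
    ((List.range q).map φ).sum = ∑ a : ZMod q, φ a.val := by
  have e : ((List.range q).map φ).sum = ∑ i ∈ Finset.range q, φ i := rfl
  rw [e]
  refine (Finset.sum_bij (fun (a : ZMod q) _ => a.val) (fun a _ => Finset.mem_range.2 a.val_lt)
    (fun a _ b _ h => ZMod.val_injective q h)
    (fun b hb => ⟨(b : ZMod q), Finset.mem_univ _, ZMod.val_cast_of_lt (Finset.mem_range.1 hb)⟩)
    fun _ _ => rfl).symm

theorem ABaseb_flatMap {A B : Type} (l : List A) (f : A → List B) (φ : B → ℚ) :
    ((l.flatMap f).map φ).sum = (l.map fun x => ((f x).map φ).sum).sum := by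
  induction l with
  | nil => rfl
  | cons x l ih => simp [ih]

theorem ABaseb_cons {A : Type} [Fintype A] (n : ℕ) (F : (Fin (n + 1) → A) → ℚ) :
    ∑ s, F s = ∑ s : Fin n → A, ∑ a : A, F (Fin.cons a s) := by
  rw [← (Fin.consEquiv fun _ : Fin (n + 1) => A).sum_comp, Fintype.sum_prod_type, Finset.sum_comm]
  rfl

/-- Sums over the list of words are sums over functions. -/
theorem sum_wds (q n : ℕ) [NeZero q] (φ : List ℕ → ℚ) :
    ((wds q n).map φ).sum = ∑ s : Fin n → ZMod q, φ (List.ofFn fun i => (s i).val) := by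
  induction n generalizing φ with
  | zero =>
    have e : wds q 0 = [[]] := rfl
    simp [e]
  | succ n ih =>
    rw [ABaseb_succ, ABaseb_flatMap, ih, ABaseb_cons]
    refine Finset.sum_congr rfl fun s _ => ?_
    rw [List.map_map, ABaseb_range]
    refine Finset.sum_congr rfl fun a _ => ?_
    simp [List.ofFn_succ]

theorem sum_range_zmod (q : ℕ) [NeZero q] (φ : ℕ → ℚ) :
    ((List.range q).map φ).sum = ∑ a : ZMod q, φ a.val :=
  ABaseb_range q φ

theorem sum_allStr (n : ℕ) (φ : Str → ℚ) :
    ((allStr n).map φ).sum = ∑ s : Fin n → Bool, φ (List.ofFn s) := by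
  induction n generalizing φ with
  | zero =>
    have e : allStr 0 = [[]] := rfl
    simp [e]
  | succ n ih =>
    rw [allStr_succ, ABaseb_flatMap, ih, ABaseb_cons]
    refine Finset.sum_congr rfl fun s _ => ?_
    simp [List.ofFn_succ, add_comm]

/-- Size of a table with few short rows of small entries. -/
theorem sz_code_le {e : Code} {a b c : ℕ} (h1 : e.length ≤ a) (h2 : ∀ r ∈ e, r.length ≤ b)
    (h3 : ∀ r ∈ e, ∀ x ∈ r, x ≤ c) : sz e ≤ a * (2 * b * (2 * c + 1) + 1) := by
  refine (sz_le_of_forall (B := b * (2 * c + 1)) fun r hr => ?_).trans ?_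
  · exact (sz_le_of_forall (B := c) fun x hx => (sz_le_self x).trans (h3 r hr x hx)).trans
      (Nat.mul_le_mul_right _ (h2 r hr))
  · rw [mul_assoc]
    exact Nat.mul_le_mul_right _ h1

end Pool.Agent.P.MP_158ebf_lc.AT
end

-- part Pool.Agent.P.MP_158ebf_lc.ANull
section

/-! Null covers from families of strategies; normal form of autoreductions. -/

namespace Pool.Agent.P.MP_158ebf_lc.AT

open Function N487b59b3 N68a2faeb Pool.Agent.Lib.PolyTime

/-- The strategy kept at one until it may start. -/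
def ANulla_G (F : ℕ → ℕ → Str → ℚ) (i m : ℕ) (w : Str) : ℚ :=
  if w.length ≤ m + 1 then 1 else F i m w

/-- The weighted sum of the strategies of one scale. -/
def ANulla_row (F : ℕ → ℕ → Str → ℚ) (m : ℕ) (w : Str) : ℚ :=
  ((List.range (m + 1)).map fun i => ANulla_G F i m w).sum /
    (((m : ℚ) + 1) * ((m : ℚ) + 1) * ((m : ℚ) + 2))

/-- The combined strategy. -/
def ANulla_d (F : ℕ → ℕ → Str → ℚ) (w : Str) : ℚ :=
  ((List.range w.length).map fun m => ANulla_row F m w).sum + 1 / ((w.length : ℚ) + 1)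

theorem ANulla_sum (f : ℕ → ℚ) (n : ℕ) :
    ((List.range n).map f).sum = ∑ i ∈ Finset.range n, f i := by
  induction n with
  | zero => simp
  | succ n ih => simp [List.range_succ, Finset.sum_range_succ, ih]

section

variable {F : ℕ → ℕ → Str → ℚ}

theorem ANulla_G_nonneg (h0 : ∀ i m w, 0 ≤ F i m w) (i m : ℕ) (w : Str) :
    0 ≤ ANulla_G F i m w := by
  unfold ANulla_G
  split_ifs
  · norm_num
  · exact h0 _ _ _

theorem ANulla_G_step (h1 : ∀ i m w, F i m (w ++ [false]) + F i m (w ++ [true]) ≤ 2 * F i m w)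
    (h2 : ∀ i m (w : Str), w.length ≤ m + 1 → F i m w ≤ 1) (i m : ℕ) (w : Str) :
    ANulla_G F i m (w ++ [false]) + ANulla_G F i m (w ++ [true]) ≤ 2 * ANulla_G F i m w := by
  unfold ANulla_G
  simp only [List.length_append, List.length_singleton]
  split_ifs with h h' h'
  · norm_num
  · omega
  · linarith [h1 i m w, h2 i m w h']
  · exact h1 i m w

theorem ANulla_row_nonneg (h0 : ∀ i m w, 0 ≤ F i m w) (m : ℕ) (w : Str) :
    0 ≤ ANulla_row F m w := by
  rw [ANulla_row, ANulla_sum]
  exact div_nonneg (Finset.sum_nonneg fun i _ => ANulla_G_nonneg h0 i m w) (by positivity)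

theorem ANulla_row_step (h1 : ∀ i m w, F i m (w ++ [false]) + F i m (w ++ [true]) ≤ 2 * F i m w)
    (h2 : ∀ i m (w : Str), w.length ≤ m + 1 → F i m w ≤ 1) (m : ℕ) (w : Str) :
    ANulla_row F m (w ++ [false]) + ANulla_row F m (w ++ [true]) ≤ 2 * ANulla_row F m w := by
  simp only [ANulla_row, ANulla_sum]
  rw [← add_div, ← mul_div_assoc, ← Finset.sum_add_distrib, Finset.mul_sum]
  gcongr with i
  exact ANulla_G_step h1 h2 i m w

theorem ANulla_row_new (w : Str) (b : Bool) :
    ANulla_row F w.length (w ++ [b]) = 1 / ((w.length : ℚ) + 1) - 1 / ((w.length : ℚ) + 1 + 1) := by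
  simp only [ANulla_row, ANulla_sum, ANulla_G, List.length_append, List.length_singleton, le_refl,
    if_true, Finset.sum_const, Finset.card_range, nsmul_eq_mul]
  push_cast
  field_simp
  ring

theorem ANulla_d_nonneg (h0 : ∀ i m w, 0 ≤ F i m w) (w : Str) : 0 ≤ ANulla_d F w := by
  rw [ANulla_d, ANulla_sum]
  exact add_nonneg (Finset.sum_nonneg fun m _ => ANulla_row_nonneg h0 m w) (by positivity)

theorem ANulla_d_step (h1 : ∀ i m w, F i m (w ++ [false]) + F i m (w ++ [true]) ≤ 2 * F i m w)
    (h2 : ∀ i m (w : Str), w.length ≤ m + 1 → F i m w ≤ 1) (w : Str) :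
    ANulla_d F (w ++ [false]) + ANulla_d F (w ++ [true]) ≤ 2 * ANulla_d F w := by
  have h3 := Finset.sum_le_sum (s := Finset.range w.length) fun m _ => ANulla_row_step h1 h2 m w
  rw [Finset.sum_add_distrib, ← Finset.mul_sum] at h3
  simp only [ANulla_d, ANulla_sum, List.length_append, List.length_singleton,
    Finset.sum_range_succ, ANulla_row_new]
  push_cast
  linarith

theorem ANulla_le_d (h0 : ∀ i m w, 0 ≤ F i m w) {i m : ℕ} {w : Str} (hi : i ≤ m)
    (hw : m + 1 < w.length) :
    F i m w / (((m : ℚ) + 1) * ((m : ℚ) + 1) * ((m : ℚ) + 2)) ≤ ANulla_d F w := by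
  have h1 : ANulla_row F m w ≤ ∑ m ∈ Finset.range w.length, ANulla_row F m w :=
    Finset.single_le_sum (f := fun m => ANulla_row F m w) (fun m _ => ANulla_row_nonneg h0 m w)
      (Finset.mem_range.2 (by omega))
  have h2 : ANulla_G F i m w ≤ ∑ i ∈ Finset.range (m + 1), ANulla_G F i m w :=
    Finset.single_le_sum (f := fun i => ANulla_G F i m w) (fun i _ => ANulla_G_nonneg h0 i m w)
      (Finset.mem_range.2 (by omega))
  have h3 : ANulla_G F i m w = F i m w := if_neg (by omega)
  have h4 : F i m w / (((m : ℚ) + 1) * ((m : ℚ) + 1) * ((m : ℚ) + 2)) ≤ ANulla_row F m w := by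
    rw [ANulla_row, ANulla_sum, ← h3]
    gcongr
  have h5 : (0 : ℚ) ≤ 1 / ((w.length : ℚ) + 1) := by positivity
  rw [ANulla_d, ANulla_sum]
  linarith

theorem ANulla_pt (hF : PT fun p : ℕ × ℕ × Str => F p.1 (min p.2.1 p.2.2.length) p.2.2) :
    PT (ANulla_d F) := by
  obtain ⟨H, hH⟩ : ∃ H : ℕ × ℕ × Str → ℚ,
    H = fun p => F p.1 (min p.2.1 p.2.2.length) p.2.2 := ⟨_, rfl⟩
  rw [← hH] at hF
  have h1 : PT fun q : (Str × ℕ) × ℕ =>
      if q.1.1.length ≤ q.1.2 + 1 then (1 : ℚ) else H (q.2, q.1.2, q.1.1) :=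
    PT.ite (p := fun q : (Str × ℕ) × ℕ => q.1.1.length ≤ q.1.2 + 1)
      (inst := fun _ => inferInstance) (by fun_prop) (PT.const 1) (by fun_prop)
  obtain ⟨K, hK⟩ : ∃ K : (Str × ℕ) × ℕ → ℚ, K = fun q =>
    if q.1.1.length ≤ q.1.2 + 1 then (1 : ℚ) else H (q.2, q.1.2, q.1.1) := ⟨_, rfl⟩
  rw [← hK] at h1
  have h2 : PT fun q : Str × ℕ =>
      ((List.range (min q.2 q.1.length + 1)).map fun i => K (q, i)).sum /
        (((q.2 : ℚ) + 1) * ((q.2 : ℚ) + 1) * ((q.2 : ℚ) + 2)) := by fun_prop
  obtain ⟨R, hR⟩ : ∃ R : Str × ℕ → ℚ, R = fun q =>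
    ((List.range (min q.2 q.1.length + 1)).map fun i => K (q, i)).sum /
      (((q.2 : ℚ) + 1) * ((q.2 : ℚ) + 1) * ((q.2 : ℚ) + 2)) := ⟨_, rfl⟩
  rw [← hR] at h2
  refine (show PT fun w : Str => ((List.range w.length).map fun m => R (w, m)).sum +
    1 / ((w.length : ℚ) + 1) by fun_prop).congr fun w => ?_
  rw [ANulla_d, List.map_congr_left (g := fun m => R (w, m)) fun m hm => by
    simp only [hR, hK, hH, min_eq_left (List.mem_range.1 hm).le, ANulla_row, ANulla_G]]

end

theorem pnull_of_terms (F : ℕ → ℕ → Str → ℚ)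
    (hF : PT fun p : ℕ × ℕ × Str => F p.1 (min p.2.1 p.2.2.length) p.2.2)
    (h0 : ∀ i m w, 0 ≤ F i m w)
    (h1 : ∀ i m w, F i m (w ++ [false]) + F i m (w ++ [true]) ≤ 2 * F i m w)
    (h2 : ∀ i m (w : Str), w.length ≤ m + 1 → F i m w ≤ 1) {X : Set (Str → Bool)}
    (hX : ∀ A ∈ X, ∃ i, ∀ m₀, ∃ m : ℕ, m ≥ m₀ ∧ ∃ N, ((m : ℚ) + 2) ^ 4 / 6 ≤ F i m (chi A N)) :
    PNull X := by
  have hd := ANulla_pt hF
  obtain ⟨d, hdd⟩ : ∃ d : ℕ → Str → ℚ, d = fun k w => ANulla_d F w / 2 ^ k := ⟨_, rfl⟩
  have hn : ∀ k w, 0 ≤ d k w := fun k w => by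
    rw [hdd]
    exact div_nonneg (ANulla_d_nonneg h0 w) (by positivity)
  refine ⟨fun k w => d k w, fun v => round2 (d v.1.length v.2.2) v.2.1.length, ?_, fun v => ?_,
    fun k r w => ?_, fun k => ⟨fun w => ⟨?_, ?_⟩, ?_, ?_⟩⟩
  · have h3 : PT fun v : Str × Str × Str => d v.1.length v.2.2 := by
      rw [hdd]
      fun_prop
    obtain ⟨E, hE⟩ : ∃ E : Str × Str × Str → ℚ, E = fun v => d v.1.length v.2.2 := ⟨_, rfl⟩
    rw [← hE] at h3
    have h4 : PT fun v : Str × Str × Str => round2 (E v) v.2.1.length :=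
      PT.nat_div_rat (by fun_prop) (by fun_prop)
    rw [hE] at h4
    exact h4.isPolyTime
  · exact ⟨(((d v.1.length v.2.2 * 2 ^ v.2.1.length).num.toNat /
      (d v.1.length v.2.2 * 2 ^ v.2.1.length).den : ℕ) : ℤ), v.2.1.length, by
      beta_reduce; rw [round2, Int.cast_natCast, Nat.cast_pow, Nat.cast_ofNat]⟩
  · have := (Rat.cast_le (K := ℝ)).2 (round2_close (hn k w) r)
    simp only [List.length_replicate]
    push_cast at this
    exact this
  · beta_reduce; exact_mod_cast hn k w
  · have h3 : (d k (w ++ [false]) + d k (w ++ [true])) / 2 ≤ d k w := by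
      rw [hdd]
      beta_reduce
      rw [← add_div, div_right_comm]
      gcongr
      linarith [ANulla_d_step h1 h2 w]
    beta_reduce; exact_mod_cast h3
  · simp [hdd, ANulla_d]
  · intro A hA
    obtain ⟨i, hi⟩ := hX A hA
    obtain ⟨m, hm, N, hN⟩ := hi (max i (6 * 2 ^ k))
    have hm1 : i ≤ m := (le_max_left _ _).trans hm
    have hm2 : ((6 * 2 ^ k : ℕ) : ℚ) ≤ m := by exact_mod_cast (le_max_right _ _).trans hm
    push_cast at hm2
    have hm0 : (0 : ℚ) ≤ m := by positivity
    have hlen : m + 1 < (chi A N).length := by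
      by_contra hc
      have h3 := h2 i m _ (not_lt.1 hc)
      have h4 : (2 : ℚ) ^ 4 ≤ ((m : ℚ) + 2) ^ 4 := by gcongr; linarith
      linarith
    have h3 := ANulla_le_d h0 hm1 hlen
    have h4 : (2 : ℚ) ^ k ≤ F i m (chi A N) / (((m : ℚ) + 1) * ((m : ℚ) + 1) * ((m : ℚ) + 2)) := by
      rw [le_div_iff₀ (by positivity)]
      refine le_trans ?_ hN
      rw [le_div_iff₀ (by norm_num)]
      calc (2 : ℚ) ^ k * (((m : ℚ) + 1) * ((m : ℚ) + 1) * ((m : ℚ) + 2)) * 6
          = 6 * 2 ^ k * (((m : ℚ) + 1) * ((m : ℚ) + 1) * ((m : ℚ) + 2)) := by ring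
        _ ≤ ((m : ℚ) + 2) * (((m : ℚ) + 2) * ((m : ℚ) + 2) * ((m : ℚ) + 2)) := by
          gcongr <;> linarith
        _ = ((m : ℚ) + 2) ^ 4 := by ring
    have h5 : 1 ≤ d k (chi A N) := by
      rw [hdd]
      beta_reduce
      rw [le_div_iff₀ (by positivity), one_mul]
      exact h4.trans h3
    exact ⟨N, by beta_reduce; exact_mod_cast h5⟩

theorem pnull_subset {X Y : Set (Str → Bool)} (h : PNull Y) (hXY : X ⊆ Y) : PNull X := by
  obtain ⟨d, c, h1, h2, h3, h4⟩ := h
  exact ⟨d, c, h1, h2, h3, fun k => ⟨(h4 k).1, (h4 k).2.1, fun A hA => (h4 k).2.2 A (hXY hA)⟩⟩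

theorem exists_blk (l : List Str) : ∃ i, ∀ j, blk i j = l.getD j [] :=
  ⟨ofBits ((l.map delimit).flatten ++ [true]), fun j => by
    rw [blk, bits_ofBits_concat, List.dropLast_concat, blocks_flatten]⟩

theorem ANullb_poly (p : Polynomial ℕ) : ∃ c, ∀ m, p.eval m ≤ (m + 2) ^ c := by
  induction p using Polynomial.induction_on' with
  | add p q hp hq =>
    obtain ⟨a, ha⟩ := hp
    obtain ⟨b, hb⟩ := hq
    refine ⟨a + b + 1, fun m => ?_⟩
    have h1 : (m + 2) ^ a ≤ (m + 2) ^ (a + b) := Nat.pow_le_pow_right (by omega) (by omega)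
    have h2 : (m + 2) ^ b ≤ (m + 2) ^ (a + b) := Nat.pow_le_pow_right (by omega) (by omega)
    have h3 := ha m
    have h4 := hb m
    rw [Polynomial.eval_add, pow_succ]
    nlinarith [Nat.zero_le (m * (m + 2) ^ (a + b))]
  | monomial n a =>
    refine ⟨a + n, fun m => ?_⟩
    rw [Polynomial.eval_monomial, pow_add]
    exact Nat.mul_le_mul (Nat.lt_pow_self (by omega)).le (Nat.pow_le_pow_left (by omega) _)

theorem small_le_pow {f : ℕ → ℕ} (h : Small fun s : Str => f s.length) :
    ∃ c, ∀ m, f m ≤ (m + 2) ^ c := by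
  obtain ⟨p, hp⟩ := h
  obtain ⟨c, hc⟩ := ANullb_poly (p.comp (Polynomial.C 3 * Polynomial.X))
  refine ⟨c, fun m => le_trans ?_ (hc m)⟩
  simpa [sz_str] using hp (List.replicate m true)

theorem pow_le_two_pow (c : ℕ) : ∃ m₀, ∀ m ≥ m₀, (m + 2) ^ c ≤ 2 ^ m := by
  have h := (tendsto_pow_const_div_const_pow_of_one_lt c (r := 2) (by norm_num)).eventually
    (eventually_le_nhds (b := (1 : ℝ) / 4) (by positivity))
  obtain ⟨n₀, h⟩ := Filter.eventually_atTop.1 h
  refine ⟨n₀, fun n hn => ?_⟩
  have h1 := h (n + 2) (by omega)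
  rw [div_le_div_iff₀ (by positivity) (by positivity), one_mul] at h1
  have h2 : (n + 2) ^ c * 4 ≤ 2 ^ (n + 2) := by exact_mod_cast h1
  rw [pow_add] at h2
  omega

end Pool.Agent.P.MP_158ebf_lc.AT
end

-- part Pool.Agent.P.MP_158ebf_lc.APH
section

/-! Closure properties of the relativized polynomial hierarchy. -/

namespace Pool.Agent.P.MP_158ebf_lc.AT

open Function N487b59b3 N68a2faeb Pool.Agent.Lib.PolyTime

/-- Predicates in the hierarchy. -/
def PH (O : Str → Bool) {α : Type} [N487b59b3 α] (φ : α → Prop) : Prop := ∃ k, SigmaIn O k α φ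

/-- Types with a total polynomial-time decoder. -/
class HasDec (β : Type) [N487b59b3 β] : Prop where
  ex : ∃ dec : Str → β, PT dec ∧ ∀ b, dec (bitEncode b) = b

instance : HasDec ℕ :=
  ⟨ofBits, by fun_prop, fun b => by rw [enc_nat, ofBits_bits]⟩

instance : HasDec Bool :=
  ⟨fun l => l.headD false, by fun_prop, fun _ => rfl⟩

instance {β : Type} [N487b59b3 β] [HasDec β] : HasDec (List β) := by
  obtain ⟨dec, hd, h⟩ := HasDec.ex (β := β)
  refine ⟨fun l => (blocks l).map dec, by fun_prop, fun l => ?_⟩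
  dsimp only
  rw [blocks_enc, List.map_map]
  conv_rhs => rw [← List.map_id l]
  exact List.map_congr_left fun b _ => h b

instance {β γ : Type} [N487b59b3 β] [N487b59b3 γ] [HasDec β] [HasDec γ] : HasDec (β × γ) := by
  obtain ⟨dec, hd, h⟩ := HasDec.ex (β := β)
  obtain ⟨dec', hd', h'⟩ := HasDec.ex (β := γ)
  refine ⟨fun l => (dec ((blocks l).headD []),
    dec' (l.drop (2 * ((blocks l).headD []).length + 1))), by fun_prop, fun b => ?_⟩
  dsimp only
  rw [enc_pair', headD_blocks, ← length_delimit, List.drop_left, h, h']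

variable {α β : Type} [N487b59b3 α] [N487b59b3 β] {O : Str → Bool} {φ ψ : α → Prop}

theorem mem_PHIn {L : Str → Bool} : L ∈ PHIn O ↔ PH O fun x => L x = true := Iff.rfl

theorem APHb_congr {k : ℕ} (h : SigmaIn O k α φ) (e : ∀ a, ψ a ↔ φ a) : SigmaIn O k α ψ := by
  have : ψ = φ := funext fun a => propext (e a)
  rw [this]
  exact h

theorem APHb_zero : SigmaIn O 0 α φ ↔ ∃ f : α → Bool, Flex O f ∧ ∀ a, φ a ↔ f a = true :=
  ⟨fun ⟨f, hf, h⟩ => ⟨f, Flex.of_polyTimeIn hf, h⟩, fun ⟨f, hf, h⟩ => ⟨f, hf.polyTimeIn, h⟩⟩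

theorem APHb_succ {k : ℕ} : SigmaIn O (k + 1) α φ ↔ ∃ (p : Polynomial ℕ) (χ : α × Str → Prop),
    SigmaIn O k (α × Str) χ ∧ ∀ a, φ a ↔ ∃ w : Str, w.length ≤ p.eval (sz a) ∧ ¬χ (a, w) :=
  Iff.rfl

theorem APHb_take {P : Str → Prop} {m n : ℕ} (h : m ≤ n) :
    (∃ w : Str, w.length ≤ m ∧ P w) ↔ ∃ w : Str, w.length ≤ n ∧ P (w.take m) := by
  constructor
  · rintro ⟨w, hw, hp⟩
    exact ⟨w, hw.trans h, by rwa [List.take_of_length_le hw]⟩
  · rintro ⟨w, _, hp⟩
    exact ⟨w.take m, List.length_take_le _ _, hp⟩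

theorem APHb_comp (k : ℕ) : ∀ {α β : Type} [N487b59b3 α] [N487b59b3 β] {χ : β → Prop}
    {g : α → β}, SigmaIn O k β χ → PT g → SigmaIn O k α fun a => χ (g a) := by
  induction k with
  | zero =>
    intro α β _ _ χ g h hg
    obtain ⟨f, hf, h⟩ := APHb_zero.1 h
    exact APHb_zero.2 ⟨fun a => f (g a), Orc_pre hf hg, fun a => h _⟩
  | succ k ih =>
    intro α β _ _ χ g h hg
    obtain ⟨p, θ, hθ, h⟩ := APHb_succ.1 h
    have hs : Small fun a => p.eval (sz (g a)) := by fun_prop
    obtain ⟨P, hP⟩ := hs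
    refine APHb_succ.2 ⟨P, fun x => θ (g x.1, x.2.take (p.eval (sz (g x.1)))),
      ih (g := fun x : α × Str => (g x.1, x.2.take (p.eval (sz (g x.1))))) hθ (by fun_prop),
      fun a => ?_⟩
    rw [h]
    exact APHb_take (P := fun w => ¬θ (g a, w)) (hP a)

theorem APHb_intro {k : ℕ} {θ : α × Str → Prop} {n : α → ℕ} (hn : PT n) (hn' : Small n)
    (h : SigmaIn O k (α × Str) θ) :
    SigmaIn O (k + 1) α fun a => ∃ w : Str, w.length ≤ n a ∧ ¬θ (a, w) := by
  obtain ⟨P, hP⟩ := hn'
  refine APHb_succ.2 ⟨P, fun x => θ (x.1, x.2.take (n x.1)),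
    APHb_comp k (g := fun x : α × Str => (x.1, x.2.take (n x.1))) h (by fun_prop), fun a => ?_⟩
  exact APHb_take (P := fun w => ¬θ (a, w)) (hP a)

theorem APHb_not_zero (h : SigmaIn O 0 α φ) : SigmaIn O 0 α fun a => ¬φ a := by
  obtain ⟨f, hf, h⟩ := APHb_zero.1 h
  refine APHb_zero.2 ⟨fun a => !f a,
    Orc_post (g := fun y : α × Bool => !y.2) hf (by fun_prop), fun a => ?_⟩
  rw [h]
  dsimp only
  cases f a <;> simp

theorem PH.congr (h : PH O φ) (e : ∀ a, ψ a ↔ φ a) : PH O ψ := by
  obtain ⟨k, h⟩ := h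
  exact ⟨k, APHb_congr h e⟩

theorem PH.of_flex {f : α → Bool} (h : Flex O f) : PH O fun a => f a = true :=
  ⟨0, APHb_zero.2 ⟨f, h, fun _ => Iff.rfl⟩⟩

theorem PH.of_ptp (h : PTP φ) : PH O φ := by
  obtain ⟨b, hb, h⟩ := h
  exact (PH.of_flex (Flex.of_pt hb)).congr fun a => (h a).symm

theorem PH.comp {χ : β → Prop} {g : α → β} (h : PH O χ) (hg : PT g) : PH O fun a => χ (g a) := by
  obtain ⟨k, h⟩ := h
  exact ⟨k, APHb_comp k h hg⟩

theorem APHb_ex {θ : α × Str → Prop} {n : α → ℕ} (hn : PT n) (hn' : Small n) (h : PH O θ) :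
    PH O fun a => ∃ w : Str, w.length ≤ n a ∧ ¬θ (a, w) := by
  obtain ⟨k, h⟩ := h
  exact ⟨k + 1, APHb_intro hn hn' h⟩

theorem PH.not (h : PH O φ) : PH O fun a => ¬φ a := by
  refine (APHb_ex (n := fun _ => 0) (θ := fun x : α × Str => φ x.1) (PT.const _) (Small.const _)
    (h.comp (g := fun x : α × Str => x.1) (by fun_prop))).congr fun a => ?_
  exact ⟨fun h => ⟨[], le_rfl, h⟩, fun ⟨_, _, h⟩ => h⟩

/-- One step of the induction for conjunction and disjunction. -/
theorem APHb_step {p : Polynomial ℕ} {θ : α × Str → Prop}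
    (h : ∀ a, φ a ↔ ∃ w : Str, w.length ≤ p.eval (sz a) ∧ ¬θ (a, w))
    (h1 : PH O fun x : α × Str => θ x ∧ ¬ψ x.1) (h2 : PH O fun x : α × Str => θ x ∨ ¬ψ x.1) :
    (PH O fun a => φ a ∧ ψ a) ∧ PH O fun a => φ a ∨ ψ a := by
  have hn : PT fun a : α => p.eval (sz a) := by fun_prop
  have hn' : Small fun a : α => p.eval (sz a) := by fun_prop
  refine ⟨(APHb_ex hn hn' h2).congr fun a => ?_, (APHb_ex hn hn' h1).congr fun a => ?_⟩
  · rw [h]
    constructor
    · rintro ⟨⟨w, hw, h1⟩, h2⟩
      exact ⟨w, hw, fun h3 => h3.elim h1 fun h4 => h4 h2⟩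
    · rintro ⟨w, hw, h1⟩
      exact ⟨⟨w, hw, fun h2 => h1 (Or.inl h2)⟩, by_contra fun h2 => h1 (Or.inr h2)⟩
  · rw [h]
    constructor
    · rintro (⟨w, hw, h1⟩ | h2)
      · exact ⟨w, hw, fun h3 => h1 h3.1⟩
      · exact ⟨[], Nat.zero_le _, fun h3 => h3.2 h2⟩
    · rintro ⟨w, hw, h1⟩
      by_cases h2 : ψ a
      · exact Or.inr h2
      · exact Or.inl ⟨w, hw, fun h3 => h1 ⟨h3, h2⟩⟩

theorem APHb_andor_zero (k : ℕ) : ∀ {α : Type} [N487b59b3 α] {φ ψ : α → Prop},
    SigmaIn O k α φ → SigmaIn O 0 α ψ →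
      (PH O fun a => φ a ∧ ψ a) ∧ PH O fun a => φ a ∨ ψ a := by
  induction k with
  | zero =>
    intro α _ φ ψ h h'
    obtain ⟨f, hf, h⟩ := APHb_zero.1 h
    obtain ⟨g, hg, h'⟩ := APHb_zero.1 h'
    constructor
    · refine (PH.of_flex (Orc_post (g := fun y : α × Bool × Bool => y.2.1 && y.2.2) (hf.pair hg)
        (by fun_prop))).congr fun a => ?_
      rw [h, h', Bool.and_eq_true]
    · refine (PH.of_flex (Orc_post (g := fun y : α × Bool × Bool => y.2.1 || y.2.2) (hf.pair hg)
        (by fun_prop))).congr fun a => ?_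
      rw [h, h', Bool.or_eq_true]
  | succ k ih =>
    intro α _ φ ψ h h'
    obtain ⟨p, θ, hθ, h⟩ := APHb_succ.1 h
    have h3 := ih hθ (APHb_comp 0 (g := fun x : α × Str => x.1) (APHb_not_zero h') (by fun_prop))
    exact APHb_step h h3.1 h3.2

theorem APHb_andor (k : ℕ) : ∀ {α : Type} [N487b59b3 α] {φ ψ : α → Prop},
    SigmaIn O k α φ → PH O ψ → (PH O fun a => φ a ∧ ψ a) ∧ PH O fun a => φ a ∨ ψ a := by
  induction k with
  | zero =>
    intro α _ φ ψ h h'
    obtain ⟨j, h'⟩ := h'
    have h3 := APHb_andor_zero j h' h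
    exact ⟨h3.1.congr fun a => and_comm, h3.2.congr fun a => or_comm⟩
  | succ k ih =>
    intro α _ φ ψ h h'
    obtain ⟨p, θ, hθ, h⟩ := APHb_succ.1 h
    have h3 := ih hθ (h'.not.comp (g := fun x : α × Str => x.1) (by fun_prop))
    exact APHb_step h h3.1 h3.2

theorem PH.and (h : PH O φ) (h' : PH O ψ) : PH O fun a => φ a ∧ ψ a := by
  obtain ⟨k, h⟩ := h
  exact (APHb_andor k h h').1

theorem PH.or (h : PH O φ) (h' : PH O ψ) : PH O fun a => φ a ∨ ψ a := by
  obtain ⟨k, h⟩ := h
  exact (APHb_andor k h h').2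

theorem PH.imp (h : PH O φ) (h' : PH O ψ) : PH O fun a => φ a → ψ a :=
  (h.not.or h').congr fun _ => imp_iff_not_or

theorem PH.iff (h : PH O φ) (h' : PH O ψ) : PH O fun a => φ a ↔ ψ a :=
  ((h.imp h').and (h'.imp h)).congr fun _ => iff_iff_implies_and_implies

/-- Existential quantifier over objects of polynomial size. -/
theorem PH.ex [HasDec β] {χ : α → β → Prop} {n : α → ℕ} (hn : PT n) (hn' : Small n)
    (h : PH O fun p : α × β => χ p.1 p.2) : PH O fun a => ∃ b, sz b ≤ n a ∧ χ a b := by
  obtain ⟨dec, hd, hdec⟩ := HasDec.ex (β := β)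
  have h1 : PH O fun x : α × Str => sz (dec x.2) ≤ n x.1 := PH.of_ptp (by fun_prop)
  have h2 : PH O fun x : α × Str => χ x.1 (dec x.2) :=
    h.comp (g := fun x : α × Str => (x.1, dec x.2)) (by fun_prop)
  refine (APHb_ex hn hn' (h1.and h2).not).congr fun a => ?_
  constructor
  · rintro ⟨b, hb, hc⟩
    refine ⟨bitEncode b, hb, fun h3 => h3 ?_⟩
    dsimp only
    rw [hdec]
    exact ⟨hb, hc⟩
  · rintro ⟨w, _, h3⟩
    exact ⟨dec w, by_contra h3⟩

/-- Existential quantifier whose witnesses are small. -/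
theorem PH.ex' [HasDec β] {χ : α → β → Prop} {n : α → ℕ} (hn' : Small n)
    (hb : ∀ a b, χ a b → sz b ≤ n a)
    (h : PH O fun p : α × β => χ p.1 p.2) : PH O fun a => ∃ b, χ a b := by
  obtain ⟨P, hP⟩ := hn'
  refine (PH.ex (n := fun a => P.eval (sz a)) (by fun_prop) (by fun_prop) h).congr fun a => ?_
  exact ⟨fun ⟨b, hc⟩ => ⟨b, (hb a b hc).trans (hP a), hc⟩, fun ⟨b, _, hc⟩ => ⟨b, hc⟩⟩

theorem PH.all [HasDec β] {χ : α → β → Prop} {n : α → ℕ} (hn : PT n) (hn' : Small n)
    (h : PH O fun p : α × β => χ p.1 p.2) : PH O fun a => ∀ b, sz b ≤ n a → χ a b := by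
  refine (PH.ex (χ := fun a b => ¬χ a b) hn hn' h.not).not.congr fun a => ?_
  exact ⟨fun h1 ⟨b, hb, hc⟩ => hc (h1 b hb), fun h1 b hb => by_contra fun hc => h1 ⟨b, hb, hc⟩⟩

/-- Quantifiers over numbers below a polynomial-time bound written in binary. -/
theorem PH.ex_lt {χ : α → ℕ → Prop} {n : α → ℕ} (hn : PT n)
    (h : PH O fun p : α × ℕ => χ p.1 p.2) : PH O fun a => ∃ i < n a, χ a i := by
  have h1 : PH O fun p : α × ℕ => p.2 < n p.1 := PH.of_ptp (by fun_prop)
  exact PH.ex' (χ := fun a i => i < n a ∧ χ a i) (n := fun a => sz (n a)) (by fun_prop)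
    (fun a i hi => sz_mono hi.1.le) (h1.and h)

theorem PH.all_lt {χ : α → ℕ → Prop} {n : α → ℕ} (hn : PT n)
    (h : PH O fun p : α × ℕ => χ p.1 p.2) : PH O fun a => ∀ i < n a, χ a i := by
  refine (PH.ex_lt (χ := fun a i => ¬χ a i) hn h.not).not.congr fun a => ?_
  exact ⟨fun h1 ⟨b, hb, hc⟩ => hc (h1 b hb), fun h1 b hb => by_contra fun hc => h1 ⟨b, hb, hc⟩⟩

theorem APHc_str {n : α → ℕ} {χ : α → Str → Prop} (hn : PT n) (hn' : Small n)
    (h : PH O fun p : α × Str => χ p.1 p.2) :
    PH O fun a => ∃ w : Str, w.length ≤ n a ∧ χ a w := by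
  refine (PH.ex (β := Str) (χ := χ) (n := fun a => 3 * n a) (by fun_prop) (by fun_prop)
    h).congr fun a => ?_
  refine exists_congr fun w => and_congr_left fun _ => ?_
  rw [sz_str]
  omega

omit [N487b59b3 α] in
theorem APHc_eq_oans {A : Str → Bool} {q : α × Str → Str} {a : α} (m : ℕ) (s : Str)
    (hl : s.length = m)
    (h : ∀ i < m, (s.getD i false = true ↔ A (q (a, s.take i)) = true)) : s = oans A q a m := by
  have key : ∀ i ≤ m, s.take i = oans A q a i := by
    intro i
    induction i with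
    | zero => intro _; simp [oans]
    | succ i ih =>
      intro hi
      have hi' : i < s.length := by omega
      have e := h i (by omega)
      rw [oans, ← ih (by omega), List.take_succ_eq_append_getElem hi']
      congr 2
      rw [List.getD_eq_getElem _ _ hi'] at e
      exact Bool.eq_iff_iff.2 e
  rw [← key m le_rfl, List.take_of_length_le hl.le]

omit [N487b59b3 α] in
theorem APHc_oans_getD {A : Str → Bool} {q : α × Str → Str} {a : α} {m i : ℕ} (hi : i < m) :
    (oans A q a m).getD i false = A (q (a, (oans A q a m).take i)) := by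
  have e : (oans A q a m).take (i + 1) = oans A q a (i + 1) := Orc_take_oans hi
  have hl : i < (oans A q a m).length := by rwa [Orc_length_oans]
  rw [List.take_succ_eq_append_getElem hl, oans, Orc_take_oans hi.le] at e
  rw [List.getD_eq_getElem _ _ hl, Orc_take_oans hi.le]
  simpa using e

open Classical in
/-- Truth-table closure. -/
theorem PH.tt {l : α → List β} {χ : α → β → Prop} {R : α → Str → Prop} (hl : PT l)
    (h : PH O fun p : α × β => χ p.1 p.2) (hR : PH O fun p : α × Str => R p.1 p.2) :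
    PH O fun a => R a ((l a).map fun b => decide (χ a b)) := by
  rcases isEmpty_or_nonempty β with hβ | ⟨⟨b0⟩⟩
  · refine (hR.comp (g := fun a : α => (a, ([] : Str))) (by fun_prop)).congr fun a => ?_
    have e : l a = [] := List.eq_nil_iff_forall_not_mem.2 fun b _ => hβ.elim b
    rw [e]
    rfl
  have h1 : PH O fun p : (α × Str) × ℕ => χ p.1.1 ((l p.1.1).getD p.2 b0) :=
    h.comp (g := fun p : (α × Str) × ℕ => (p.1.1, (l p.1.1).getD p.2 b0)) (by fun_prop)
  have h2 : PH O fun p : (α × Str) × ℕ => p.1.2.getD p.2 false = true :=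
    PH.of_ptp (by fun_prop)
  have h3 : PH O fun p : α × Str => ∀ i < (l p.1).length,
      (p.2.getD i false = true ↔ χ p.1 ((l p.1).getD i b0)) :=
    PH.all_lt (χ := fun (p : α × Str) i => (p.2.getD i false = true ↔ χ p.1 ((l p.1).getD i b0)))
      (by fun_prop) (h2.iff h1)
  have h4 : PH O fun p : α × Str => p.2.length = (l p.1).length := PH.of_ptp (by fun_prop)
  have h5 := APHc_str (n := fun a => (l a).length)
    (χ := fun a s => s.length = (l a).length ∧
      (∀ i < (l a).length, (s.getD i false = true ↔ χ a ((l a).getD i b0))) ∧ R a s)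
    (by fun_prop) (by fun_prop) (h4.and (h3.and hR))
  refine h5.congr fun a => ⟨fun hr => ⟨_, by simp, by simp, fun i hi => ?_, hr⟩, ?_⟩
  · rw [List.getD_eq_getElem _ _ (by simpa using hi), List.getD_eq_getElem _ _ hi]
    simp
  · rintro ⟨s, -, e1, e2, hr⟩
    have e : s = (l a).map fun b => decide (χ a b) := by
      refine List.ext_getElem (by simpa using e1) fun i hi hi' => ?_
      have hi2 : i < (l a).length := by omega
      have e3 := e2 i hi2
      rw [List.getD_eq_getElem _ _ hi, List.getD_eq_getElem _ _ hi2] at e3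
      rw [List.getElem_map]
      exact Bool.eq_iff_iff.2 (by simpa using e3)
    rwa [← e]

theorem APHc_trans {A : Str → Bool} (hA : PH O fun x => A x = true) (k : ℕ) :
    ∀ (γ : Type) [N487b59b3 γ] (φ : γ → Prop), SigmaIn A k γ φ → PH O φ := by
  induction k with
  | zero =>
    intro γ _ φ h
    obtain ⟨f, ⟨q, o, p, hq, ho, hf⟩, hφ⟩ := h
    have hq := PT.of_isPolyTime hq
    have ho := PT.of_isPolyTime ho
    have h1 : PH O fun x : (γ × Str) × ℕ => A (q (x.1.1, x.1.2.take x.2)) = true :=
      hA.comp (g := fun x : (γ × Str) × ℕ => q (x.1.1, x.1.2.take x.2)) (by fun_prop)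
    have h2 : PH O fun x : (γ × Str) × ℕ => x.1.2.getD x.2 false = true :=
      PH.of_ptp (by fun_prop)
    have h3 : PH O fun x : γ × Str => ∀ i < p.eval (sz x.1),
        (x.2.getD i false = true ↔ A (q (x.1, x.2.take i)) = true) :=
      PH.all_lt (χ := fun (x : γ × Str) i =>
        (x.2.getD i false = true ↔ A (q (x.1, x.2.take i)) = true)) (by fun_prop) (h2.iff h1)
    have h4 : PH O fun x : γ × Str => x.2.length = p.eval (sz x.1) := PH.of_ptp (by fun_prop)
    have h5 : PH O fun x : γ × Str => o (x.1, x.2) = true := PH.of_ptp (by fun_prop)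
    have h6 := APHc_str (n := fun a : γ => p.eval (sz a))
      (χ := fun a s => s.length = p.eval (sz a) ∧
        (∀ i < p.eval (sz a), (s.getD i false = true ↔ A (q (a, s.take i)) = true)) ∧
        o (a, s) = true) (by fun_prop) (by fun_prop) (h4.and (h3.and h5))
    refine h6.congr fun a => ?_
    rw [hφ a, hf a]
    refine ⟨fun hr => ⟨_, (Orc_length_oans _).le, Orc_length_oans _, fun i hi => ?_, hr⟩, ?_⟩
    · rw [APHc_oans_getD hi]
    · rintro ⟨s, -, e1, e2, hr⟩
      rwa [APHc_eq_oans _ s e1 e2] at hr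
  | succ k ih =>
    intro γ _ φ h
    obtain ⟨p, ψ, hψ, hφ⟩ := h
    exact (APHc_str (n := fun a : γ => p.eval (sz a)) (χ := fun a w => ¬ψ (a, w))
      (by fun_prop) (by fun_prop) (ih _ ψ hψ).not).congr hφ

/-- An oracle from the hierarchy adds nothing to the hierarchy. -/
theorem PH.trans {A : Str → Bool} (hA : PH O fun x => A x = true) (h : PH A φ) : PH O φ := by
  obtain ⟨k, h⟩ := h
  exact APHc_trans hA k α φ h

theorem PH.of_NP {A : Str → Bool} (hA : A ∈ NP) : PH O fun x => A x = true := by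
  obtain ⟨p, R, hR, h⟩ := mem_NP_iff.1 hA
  exact (APHc_str (n := fun x : Str => p.eval x.length) (χ := fun x w => R (x, w) = true)
    (by fun_prop) (by fun_prop) (PH.of_ptp (by fun_prop))).congr h

end Pool.Agent.P.MP_158ebf_lc.AT
end

-- part Pool.Agent.P.MP_158ebf_lc.AAmp
section

/-! Error reduction by independent trials. -/

namespace Pool.Agent.P.MP_158ebf_lc.AT

open Function Finset N487b59b3 N68a2faeb Pool.Agent.Lib.PolyTime

theorem AAmp_pow {P : ℕ} (φ : Str → Bool)
    (h : av (fun r : Fin P → Bool => ind (φ (List.ofFn r) = true)) ≤ 1 / 3) (m : ℕ) :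
    ∀ n, m * P ≤ n → av (fun r : Fin n → Bool => (2 : ℚ) ^ (List.range m).countP fun i =>
      φ (((List.ofFn r).drop (i * P)).take P)) ≤ (4 / 3) ^ m := by
  induction m with
  | zero => intro n _; simp [av_const]
  | succ m ih =>
    intro n hn
    obtain ⟨n', rfl⟩ : ∃ n', n = P + n' := ⟨n - P, by rw [Nat.succ_mul] at hn; omega⟩
    have h1 := ih n' (by rw [Nat.succ_mul] at hn; omega)
    have h2 : av (fun r : Fin P → Bool => 1 + ind (φ (List.ofFn r) = true)) ≤ 4 / 3 := by
      rw [av_add, av_const]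
      linarith
    rw [← av_equiv (Fin.appendEquiv P n'), pow_succ']
    refine le_trans (le_of_eq ?_) (mul_le_mul h2 h1 (av_nonneg fun _ => by positivity) (by norm_num))
    rw [← av_prod_mul]
    refine congrArg _ (funext fun p => ?_)
    have e : List.ofFn (Fin.appendEquiv P n' p) = List.ofFn p.1 ++ List.ofFn p.2 :=
      List.ofFn_fin_append p.1 p.2
    have e1 : (List.ofFn p.1).length = P := List.length_ofFn
    have e2 : ∀ i, (List.ofFn p.1 ++ List.ofFn p.2).drop ((i + 1) * P) =
        (List.ofFn p.2).drop (i * P) := fun i => by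
      rw [Nat.succ_mul, Nat.add_comm, ← List.drop_drop, List.drop_left' e1]
    rw [e, List.range_succ_eq_map, List.countP_cons, List.countP_map, Nat.zero_mul, List.drop_zero,
      List.take_left' e1, pow_add, mul_comm]
    simp only [comp_def, Nat.succ_eq_add_one, e2, ind]
    split_ifs <;> norm_num

theorem AAmp_av {P : ℕ} (φ : (Fin P → Bool) → Prop) [DecidablePred φ] :
    av (fun r => ind (¬φ r)) = 1 - ((univ.filter φ).card : ℚ) / 2 ^ P := by
  have e : ∀ r, ind (¬φ r) = 1 - ind (φ r) := fun r => by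
    unfold ind
    by_cases h : φ r <;> simp [h]
  simp only [e]
  rw [av_sub, av_const, av]
  simp [ind]

/-- With `12 * k` independent trials that fail with probability at most `1 / 3`, half of them fail
with probability at most `1 / 2 ^ k`. -/
theorem amplify {P n k : ℕ} (φ : Str → Bool)
    (h : av (fun r : Fin P → Bool => ind (φ (List.ofFn r) = true)) ≤ 1 / 3) (hn : 12 * k * P ≤ n) :
    av (fun r : Fin n → Bool => ind (6 * k ≤ (List.range (12 * k)).countP fun i =>
      φ (((List.ofFn r).drop (i * P)).take P))) ≤ 1 / 2 ^ k := by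
  have h1 := AAmp_pow φ h (12 * k) n hn
  refine (av_mono (g := fun r : Fin n → Bool => (1 / 2 ^ (6 * k) : ℚ) * (2 : ℚ) ^
    (List.range (12 * k)).countP fun i => φ (((List.ofFn r).drop (i * P)).take P))
    fun r => ?_).trans ?_
  · unfold ind
    split_ifs with h2
    · rw [one_div, ← div_eq_inv_mul, one_le_div (by positivity)]
      exact pow_le_pow_right₀ (by norm_num) h2
    · positivity
  · rw [av_mul_left]
    refine (mul_le_mul_of_nonneg_left h1 (by positivity)).trans ?_
    have h2 : ((1 / 2 ^ 6 : ℚ) * (4 / 3) ^ 12) ^ k ≤ (1 / 2) ^ k :=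
      pow_le_pow_left₀ (by positivity) (by norm_num) k
    rwa [mul_pow, one_div_pow, one_div_pow, ← pow_mul, ← pow_mul] at h2

/-- The failure probability in terms of the number of good coin strings. -/
theorem av_fail {P : ℕ} (φ : (Fin P → Bool) → Prop) [DecidablePred φ]
    (h : (2 : ℚ) / 3 ≤ ((univ.filter φ).card : ℚ) / 2 ^ P) : av (fun r => ind (¬φ r)) ≤ 1 / 3 := by
  rw [AAmp_av]
  linarith

theorem le_card_of_av {P : ℕ} (φ : (Fin P → Bool) → Prop) [DecidablePred φ]
    (h : av (fun r => ind (¬φ r)) ≤ 1 / 3) : (2 : ℚ) / 3 ≤ ((univ.filter φ).card : ℚ) / 2 ^ P := by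
  rw [AAmp_av] at h
  linarith

/-- Union bound. -/
theorem av_union {Ω : Type} [Fintype Ω] {s : ℕ} (φ : ℕ → Ω → Prop) [∀ a ω, Decidable (φ a ω)]
    {ε : ℚ} (h : ∀ a < s, av (fun ω => ind (φ a ω)) ≤ ε) :
    av (fun ω => ind (∃ a < s, φ a ω)) ≤ s * ε := by
  refine (av_mono (g := fun ω => ∑ a ∈ range s, ind (φ a ω)) fun ω => ?_).trans ?_
  · by_cases h1 : ∃ a < s, φ a ω
    · rw [ind, if_pos h1]
      obtain ⟨a, ha, h2⟩ := h1
      refine le_trans ?_ (single_le_sum (f := fun a => ind (φ a ω)) (fun _ _ => ind_nonneg _)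
        (mem_range.2 ha))
      rw [ind, if_pos h2]
    · rw [ind, if_neg h1]
      exact sum_nonneg fun _ _ => ind_nonneg _
  · rw [av_sum]
    refine (sum_le_sum fun a ha => h a (mem_range.1 ha)).trans ?_
    rw [sum_const, card_range, nsmul_eq_mul]

end Pool.Agent.P.MP_158ebf_lc.AT
end

-- part Pool.Agent.P.MP_158ebf_lc.AGen
section

/-! The generator and the decoder. -/

namespace Pool.Agent.P.MP_158ebf_lc.AT

open Function Finset N487b59b3 N68a2faeb Pool.Agent.Lib.PolyTime

/-- Primality by trial division. -/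
def prm (p : ℕ) : Bool := decide (2 ≤ p) && (List.range p).all fun d => decide (d < 2 ∨ p % d ≠ 0)

/-- A prime above `x`. -/
def np (x : ℕ) : ℕ := (((List.range (x + 2)).map fun i => x + 1 + i).filter prm).headD 0

/-- The design: value at `a` of the polynomial given by the base `q'` digits of `j`. -/
def dsg (q' D j a : ℕ) : ℕ := ((List.range D).map fun k => j / q' ^ k % q' * a ^ k).sum % q'

/-- Multilinear extension, modulo `q`, of the indicator of the list `ones`. -/
def mle (q : ℕ) (ones : List Str) (σ : List ℕ) : ℕ :=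
  (ones.map fun u => ((u.zip σ).map fun p => if p.1 then p.2 else q + 1 - p.2).prod).sum % q

/-- The hard bit. -/
def hb (q m : ℕ) (ones : List Str) (σ : List ℕ) : Bool :=
  decide ((mle q ones σ * σ.getD m 0 + σ.getD (m + 1) 0) % q % 2 = 1)

/-- The generator. -/
def gen (q q' D m L : ℕ) (ones : List Str) (s : List ℕ) : Str :=
  (List.range L).map fun j =>
    hb q m ones ((List.range (m + 2)).map fun a => s.getD (a * q' + dsg q' D j a) 0)

/-- All outputs of the generator. -/
def outs (q q' D m L : ℕ) (ones : List Str) : List Str :=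
  (wds q ((m + 2) * q')).map (gen q q' D m L ones)

/-- The hybrid string read from tables. -/
def zs (L k : ℕ) (Is Tab : Code) (σ : List ℕ) (b : Bool) : Str :=
  (List.range L).map fun j =>
    if j = k then b else decide ((j :: (Is.getD j []).map fun a => σ.getD a 0) ∈ Tab)

/-- The point with parameter `τ` of the curve through `u` and `z` with leading term `v`. -/
def crv (q m : ℕ) (u : Str) (z v : List ℕ) (τ : ℕ) : List ℕ :=
  (List.range m).map fun i =>
    ((u.getD i false).toNat + τ * (z.getD i 0 + 2 * q - (u.getD i false).toNat - v.getD i 0) +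
      τ ^ 2 * v.getD i 0) % q

/-- Evaluation of a coefficient list modulo `q`. -/
def evl (q : ℕ) (cs : List ℕ) (τ : ℕ) : ℕ := (cs.zipIdx.map fun p => p.1 * τ ^ p.2).sum % q

/-- The triples `(τ, y₁, y₂)` with `τ ≠ 0`. -/
def pts (q : ℕ) : List (ℕ × ℕ × ℕ) :=
  (List.range (q - 1)).flatMap fun τ => (List.range q).flatMap fun y =>
    (List.range q).map fun y' => (τ + 1, y, y')

/-- The sign `(-1) ^ n`. -/
def sg (n : ℕ) : ℤ := if n % 2 = 1 then -1 else 1

/-- The predictor obtained from a test. -/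
def prd (T : Str → Bool) (L k : ℕ) (Is Tab : Code) (σ : List ℕ) : ℤ :=
  (if T (zs L k Is Tab σ true) then 1 else 0) - if T (zs L k Is Tab σ false) then 1 else 0

/-- Correlation of the predictor with a polynomial along a curve. -/
def cor (ψ : List ℕ → ℤ) (q m : ℕ) (u : Str) (z v cs : List ℕ) : ℤ :=
  ((pts q).map fun p => ψ (crv q m u z v p.1 ++ [p.2.1, p.2.2]) *
    sg ((evl q cs p.1 * p.2.1 + p.2.2) % q)).sum

/-- One decoding trial; `row` holds the value `α`, then `z`, then `v`. -/
def trial (ψ : List ℕ → ℤ) (q m R : ℕ) (u : Str) (row : List ℕ) : Prop :=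
  ∃ cs : List ℕ, cs.length ≤ 2 * m + 1 ∧ (∀ c ∈ cs, c < q) ∧ evl q cs 1 = row.headD 0 ∧
    evl q cs 0 = 1 ∧
    (((q - 1) * q ^ 2 : ℕ) : ℤ) ≤ R * cor ψ q m u ((row.drop 1).take m) (row.drop (m + 1)) cs

open Classical in
/-- Majority of the trials. -/
def dcd (ψ : List ℕ → ℤ) (q m R : ℕ) (rows : Code) (u : Str) : Prop :=
  rows.length < 2 * rows.countP fun row => decide (trial ψ q m R u row)

/-- Bound for the size of the advice of the decoder. -/
def advB (q D m L : ℕ) : ℕ :=
  8 * (L * q ^ D + L + 2 * m + 3) * (2 * (2 * m + D + 3) * (2 * (q + L + m + 2) + 1) + 1)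

/-- The multilinear extension over the field. -/
def mleF (q m : ℕ) (ones : List Str) (x : Fin m → ZMod q) : ZMod q :=
  (ones.map fun u => ∏ i : Fin m, if u.getD i false then x i else 1 - x i).sum

/-- The sign of a field element. -/
def chr {q : ℕ} (a : ZMod q) : ℚ := sg a.val

theorem AGena_prm {p : ℕ} : prm p = true ↔ p.Prime := by
  rw [Nat.prime_def_lt', prm, Bool.and_eq_true, decide_eq_true_eq, List.all_eq_true]
  refine and_congr_right fun _ => ⟨fun h m h2 hm hd => ?_, fun h d hd => ?_⟩
  · have h3 := h m (List.mem_range.2 hm)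
    rw [decide_eq_true_eq] at h3
    rcases h3 with h3 | h3
    · omega
    · exact h3 (Nat.mod_eq_zero_of_dvd hd)
  · rw [decide_eq_true_eq]
    by_cases h2 : d < 2
    · exact Or.inl h2
    · exact Or.inr fun h3 => h d (by omega) (List.mem_range.1 hd) (Nat.dvd_of_mod_eq_zero h3)

theorem np_spec (x : ℕ) : (np x).Prime ∧ x < np x ∧ np x ≤ 2 * x + 2 := by
  obtain ⟨p, hp, h1, h2⟩ := Nat.exists_prime_lt_and_le_two_mul (x + 1) (by omega)
  have hm : p ∈ ((List.range (x + 2)).map fun i => x + 1 + i).filter prm :=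
    List.mem_filter.2 ⟨List.mem_map.2 ⟨p - (x + 1), List.mem_range.2 (by omega), by omega⟩,
      AGena_prm.2 hp⟩
  have h3 : np x ∈ ((List.range (x + 2)).map fun i => x + 1 + i).filter prm := by
    unfold np
    generalize ((List.range (x + 2)).map fun i => x + 1 + i).filter prm = l at hm
    cases l with
    | nil => simp at hm
    | cons a l => simp
  obtain ⟨h4, h5⟩ := List.mem_filter.1 h3
  obtain ⟨i, hi, h6⟩ := List.mem_map.1 h4
  have h7 := List.mem_range.1 hi
  exact ⟨AGena_prm.1 h5, by omega, by omega⟩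

theorem dsg_lt {q' : ℕ} (h : 0 < q') (D j a : ℕ) : dsg q' D j a < q' :=
  Nat.mod_lt _ h

theorem AGena_digits {q : ℕ} (D : ℕ) : ∀ j k : ℕ, j < q ^ D → k < q ^ D →
    (∀ i < D, j / q ^ i % q = k / q ^ i % q) → j = k := by
  induction D with
  | zero => intro j k hj hk _; simp at hj hk; omega
  | succ D ih =>
    intro j k hj hk h
    have h0 := h 0 (by omega)
    simp only [pow_zero, Nat.div_one] at h0
    have h1 : j / q = k / q := by
      refine ih _ _ (Nat.div_lt_of_lt_mul (by rwa [← pow_succ']))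
        (Nat.div_lt_of_lt_mul (by rwa [← pow_succ'])) fun i hi => ?_
      rw [Nat.div_div_eq_div_mul, Nat.div_div_eq_div_mul, ← pow_succ']
      exact h (i + 1) (by omega)
    rw [← Nat.div_add_mod j q, ← Nat.div_add_mod k q, h0, h1]

theorem AGena_cast (q D j a : ℕ) : ((dsg q D j a : ℕ) : ZMod q) =
    ∑ i ∈ range D, ((j / q ^ i % q : ℕ) : ZMod q) * (a : ZMod q) ^ i := by
  rw [dsg, ZMod.natCast_mod]
  induction D with
  | zero => simp
  | succ D ih =>
    rw [List.range_succ, List.map_append, List.sum_append, Nat.cast_add, ih, sum_range_succ]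
    simp only [List.map_cons, List.map_nil, List.sum_cons, List.sum_nil, Nat.add_zero,
      Nat.cast_mul, Nat.cast_pow]

/-- Two different design polynomials agree in few rows. -/
theorem dsg_inter {q' D n j k : ℕ} (hq : q'.Prime) (hn : n ≤ q') (hj : j < q' ^ D) (hk : k < q' ^ D)
    (h : j ≠ k) : ((List.range n).filter fun a => decide (dsg q' D j a = dsg q' D k a)).length ≤ D := by
  classical
  have : Fact q'.Prime := ⟨hq⟩
  let c : ℕ → ZMod q' := fun i => ((j / q' ^ i % q' : ℕ) : ZMod q') - ((k / q' ^ i % q' : ℕ) : ZMod q')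
  let P : Polynomial (ZMod q') := ∑ i ∈ range D, Polynomial.C (c i) * Polynomial.X ^ i
  have hdeg : P.natDegree ≤ D := by
    refine Polynomial.natDegree_sum_le_of_forall_le _ _ fun i hi => ?_
    exact (Polynomial.natDegree_C_mul_X_pow_le _ _).trans (mem_range.1 hi).le
  have hP : P ≠ 0 := by
    intro h0
    refine h (AGena_digits D j k hj hk fun i hi => ?_)
    have h1 : P.coeff i = c i := by
      simp only [P, Polynomial.finsetSum_coeff, Polynomial.coeff_C_mul_X_pow]
      rw [sum_ite_eq, if_pos (mem_range.2 hi)]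
    rw [h0, Polynomial.coeff_zero] at h1
    have h2 := sub_eq_zero.1 h1.symm
    have h3 := (ZMod.natCast_eq_natCast_iff' _ _ _).1 h2
    rwa [Nat.mod_mod, Nat.mod_mod] at h3
  have e : ((List.range n).filter fun a => decide (dsg q' D j a = dsg q' D k a)).length =
      ((range n).filter fun a => dsg q' D j a = dsg q' D k a).card := rfl
  rw [e]
  refine le_trans ?_ (((Multiset.toFinset_card_le P.roots).trans (Polynomial.card_roots' P)).trans hdeg)
  refine card_le_card_of_injOn (fun a : ℕ => (a : ZMod q')) (fun a ha => ?_) fun a ha b hb hab => ?_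
  · have h1 := (mem_filter.1 ha).2
    have h2 : ((dsg q' D j a : ℕ) : ZMod q') = ((dsg q' D k a : ℕ) : ZMod q') := by rw [h1]
    rw [AGena_cast, AGena_cast] at h2
    rw [mem_coe, Multiset.mem_toFinset, Polynomial.mem_roots hP, Polynomial.IsRoot.def]
    simp only [P, c, Polynomial.eval_finsetSum, Polynomial.eval_mul, Polynomial.eval_C,
      Polynomial.eval_pow, Polynomial.eval_X, sub_mul, sum_sub_distrib]
    exact sub_eq_zero.2 h2
  · have h1 := mem_range.1 (mem_filter.1 ha).1
    have h2 := mem_range.1 (mem_filter.1 hb).1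
    have h3 := (ZMod.natCast_eq_natCast_iff' _ _ _).1 hab
    rwa [Nat.mod_eq_of_lt (by omega), Nat.mod_eq_of_lt (by omega)] at h3

theorem AGenb_zip {m : ℕ} {u : Str} (hu : u.length = m) (c : Fin m → ℕ) (l : List ℕ) :
    u.zip (List.ofFn c ++ l) = List.ofFn fun i : Fin m => (u.getD i false, c i) := by
  refine List.ext_getElem (by simp [hu]) fun i h1 h2 => ?_
  have hi : i < m := by simpa using h2
  have hi' : i < u.length := hu ▸ hi
  have hi2 : i < (List.ofFn c).length := by simpa using hi
  rw [List.getElem_zip, List.getElem_ofFn, List.getElem_append_left hi2, List.getElem_ofFn,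
    List.getD_eq_getElem _ _ hi']

theorem AGenb_sum_sg (n : ℕ) :
    ((List.range n).map fun i => ((sg i : ℤ) : ℚ)).sum = ((n % 2 : ℕ) : ℚ) := by
  induction n with
  | zero => simp
  | succ n ih =>
    rw [List.range_succ, List.map_append, List.sum_append, ih]
    rcases Nat.mod_two_eq_zero_or_one n with h | h
    · have h' : (n + 1) % 2 = 1 := by omega
      simp [sg, h, h']
    · have h' : (n + 1) % 2 = 0 := by omega
      simp [sg, h, h']

theorem mle_cast {q m : ℕ} [NeZero q] {ones : List Str} (h : ∀ u ∈ ones, u.length = m)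
    (x : Fin m → ZMod q) (l : List ℕ) :
    mle q ones (List.ofFn (fun i => (x i).val) ++ l) = (mleF q m ones x).val := by
  rw [mle, ← ZMod.val_natCast]
  congr 1
  rw [mleF, Nat.cast_list_sum, List.map_map]
  congr 1
  refine List.map_congr_left fun u hu => ?_
  simp only [Function.comp_apply]
  rw [AGenb_zip (h u hu), List.map_ofFn, List.prod_ofFn, Nat.cast_prod]
  refine Finset.prod_congr rfl fun i _ => ?_
  simp only [Function.comp_apply]
  split_ifs
  · exact ZMod.natCast_zmod_val _
  · rw [Nat.cast_sub ((ZMod.val_lt _).le.trans (Nat.le_succ _)), ZMod.natCast_zmod_val,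
      Nat.cast_succ, ZMod.natCast_self, zero_add]

theorem mleF_cube {q m : ℕ} {ones : List Str} (h : ∀ u ∈ ones, u.length = m) (hn : ones.Nodup)
    {u : Str} (hu : u.length = m) :
    mleF q m ones (fun i => ((u.getD i false).toNat : ZMod q)) = if u ∈ ones then 1 else 0 := by
  have key : ∀ v ∈ ones, (∏ i : Fin m, if v.getD i false then ((u.getD i false).toNat : ZMod q)
      else 1 - ((u.getD i false).toNat : ZMod q)) = if v = u then 1 else 0 := by
    intro v hv
    split_ifs with hvu
    · subst hvu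
      refine Finset.prod_eq_one fun i _ => ?_
      cases v.getD i false <;> simp
    · obtain ⟨i, hi⟩ : ∃ i : Fin m, v.getD i false ≠ u.getD i false := by
        by_contra hc
        refine hvu (List.ext_getElem ((h v hv).trans hu.symm) fun i h1 h2 => ?_)
        have := not_not.1 (not_exists.1 hc ⟨i, hu ▸ h2⟩)
        rwa [List.getD_eq_getElem _ _ h1, List.getD_eq_getElem _ _ h2] at this
      refine Finset.prod_eq_zero (Finset.mem_univ i) ?_
      revert hi
      cases v.getD i false <;> cases u.getD i false <;> simp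
  rw [mleF, List.map_congr_left key, ← List.sum_toFinset _ hn, Finset.sum_ite_eq']
  simp only [List.mem_toFinset]

theorem mleF_curve (q m : ℕ) (ones : List Str) (u a b : Fin m → ZMod q) :
    ∃ π : Polynomial (ZMod q), π.natDegree ≤ 2 * m ∧
      ∀ τ, π.eval τ = mleF q m ones fun i => u i + τ * a i + τ ^ 2 * b i := by
  induction ones with
  | nil => exact ⟨0, by simp, fun τ => by simp [mleF]⟩
  | cons v ones ih =>
    obtain ⟨π, h1, h2⟩ := ih
    have hc : ∀ i, (Polynomial.C (u i) + Polynomial.X * Polynomial.C (a i) +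
        Polynomial.X ^ 2 * Polynomial.C (b i) : Polynomial (ZMod q)).natDegree ≤ 2 := by
      intro i
      compute_degree
    refine ⟨(∏ i : Fin m, if v.getD i false then Polynomial.C (u i) + Polynomial.X *
        Polynomial.C (a i) + Polynomial.X ^ 2 * Polynomial.C (b i) else
        1 - (Polynomial.C (u i) + Polynomial.X * Polynomial.C (a i) +
          Polynomial.X ^ 2 * Polynomial.C (b i))) + π, ?_, fun τ => ?_⟩
    · refine (Polynomial.natDegree_add_le _ _).trans (max_le ?_ h1)
      refine (Polynomial.natDegree_prod_le _ _).trans ?_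
      refine (Finset.sum_le_card_nsmul _ _ 2 fun i _ => ?_).trans (by simp [mul_comm])
      split_ifs
      · exact hc i
      · exact (Polynomial.natDegree_sub_le _ _).trans (max_le (by simp) (hc i))
    · rw [Polynomial.eval_add, h2, Polynomial.eval_prod]
      simp only [mleF, List.map_cons, List.sum_cons]
      congr 1
      refine Finset.prod_congr rfl fun i _ => ?_
      split_ifs <;> simp only [Polynomial.eval_add, Polynomial.eval_sub, Polynomial.eval_mul,
        Polynomial.eval_pow, Polynomial.eval_C, Polynomial.eval_X, Polynomial.eval_one]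

theorem abs_chr {q : ℕ} (a : ZMod q) : |chr a| = 1 := by
  unfold chr sg
  split_ifs <;> simp

/-- Different symbols have almost orthogonal code words. -/
theorem av_chr_mul {q : ℕ} [Fact q.Prime] {a b : ZMod q} (h : a ≠ b) :
    av (fun y : ZMod q × ZMod q => chr (a * y.1 + y.2) * chr (b * y.1 + y.2)) ≤ 1 / (q : ℚ) ^ 2 := by
  have hq : (0 : ℚ) < q := by exact_mod_cast (Fact.out : q.Prime).pos
  have hab : a - b ≠ 0 := sub_ne_zero.2 h
  let f : ZMod q × ZMod q →+ ZMod q × ZMod q :=
    { toFun := fun y => (a * y.1 + y.2, b * y.1 + y.2)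
      map_zero' := by simp
      map_add' := fun y z => by
        simp only [Prod.fst_add, Prod.snd_add, Prod.mk_add_mk, Prod.mk.injEq]
        constructor <;> ring }
  have hf : Surjective f := by
    rintro ⟨s, t⟩
    refine ⟨((s - t) / (a - b), s - a * ((s - t) / (a - b))), ?_⟩
    show (a * _ + _, b * _ + _) = (s, t)
    simp only [Prod.mk.injEq]
    constructor
    · ring
    · field_simp
      ring
  have h1 := av_hom f hf 0 fun p => chr p.1 * chr p.2
  simp only [add_zero] at h1
  have h2 : av (fun a : ZMod q => chr a) = ((q % 2 : ℕ) : ℚ) / q := by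
    rw [av, ZMod.card, ← AGenb_sum_sg, sum_range_zmod]
    rfl
  have h3 : av (fun y : ZMod q × ZMod q => chr (a * y.1 + y.2) * chr (b * y.1 + y.2)) =
      (((q % 2 : ℕ) : ℚ) / q) * (((q % 2 : ℕ) : ℚ) / q) := by
    rw [← h2, ← av_prod_mul, ← h1]
    rfl
  rw [h3]
  rcases Nat.mod_two_eq_zero_or_one q with h4 | h4
  · rw [h4]
    simp only [Nat.cast_zero, zero_div, mul_zero]
    positivity
  · rw [h4, Nat.cast_one, div_mul_div_comm, one_mul, pow_two]

end Pool.Agent.P.MP_158ebf_lc.AT
end

-- part Pool.Agent.P.MP_158ebf_lc.AInit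
section

/-! Few assignments predict many of their own bits. -/

namespace Pool.Agent.P.MP_158ebf_lc.AT

open Function Finset

theorem AInita_resample {α β : Type} [Fintype α] [DecidableEq α] [Fintype β] [Nonempty β]
    (a : α) (f : (α → β) → ℚ) :
    av f = av fun T : α → β => av fun c : β => f (update T a c) := by
  let φ : (α → β) × β → (α → β) × β := fun p => (update p.1 a p.2, p.1 a)
  have hφ : Involutive φ := by
    rintro ⟨T, c⟩
    simp [φ]
  have h1 : av (fun p : (α → β) × β => f (φ p).1) = av (fun p : (α → β) × β => f p.1) :=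
    av_equiv (Involutive.toPerm φ hφ) (fun p : (α → β) × β => f p.1)
  have h2 := av_prod (fun p : (α → β) × β => f p.1)
  have h3 := av_prod (fun p : (α → β) × β => f (φ p).1)
  have h4 : (fun T : α → β => av fun _ : β => f T) = f := by
    funext T
    exact av_const _
  rw [h4] at h2
  rw [← h2, ← h1, h3]

theorem AInita_count {ι : Type} [DecidableEq ι] {t g K : ℕ}
    (X : Fin t × Fin g → ι) (hX : Injective X) (S : Finset ι) (hS : S.card ≤ K) :
    ∑ a' : Fin t, av (fun c : Fin g => ind (X (a', c) ∈ S)) ≤ (K : ℚ) / g := by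
  have h1 : ∑ a' : Fin t, ∑ c : Fin g, ind (X (a', c) ∈ S) ≤ (K : ℚ) := by
    rw [← Fintype.sum_prod_type' (f := fun a' c => ind (X (a', c) ∈ S))]
    have h2 : ∑ p : Fin t × Fin g, ind (X (p.1, p.2) ∈ S)
        = ((univ.filter fun p : Fin t × Fin g => X p ∈ S).card : ℚ) := by
      simp [ind, Finset.sum_boole]
    rw [h2]
    have h3 : (univ.filter fun p : Fin t × Fin g => X p ∈ S).card ≤ S.card :=
      Finset.card_le_card_of_injOn X (fun p hp => by simpa using hp) hX.injOn
    exact_mod_cast h3.trans hS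
  unfold av
  rw [← Finset.sum_div, Fintype.card_fin]
  exact div_le_div_of_nonneg_right h1 (Nat.cast_nonneg _)

theorem AInita_free {ι : Type} [DecidableEq ι] {t g K : ℕ}
    (X : Fin t × Fin g → ι) (hX : Injective X) (S : Fin t × Fin g → Finset ι)
    (hq : ∀ a, (S a).card ≤ K) (hE : ∀ a, X a ∉ S a) (hg : 2 * t * K < g) :
    1 ≤ 2 * av fun T : Fin t → Fin g => ind (∀ a a', X (a', T a') ∉ S (a, T a)) := by
  have hg0 : 0 < g := by omega
  have : Nonempty (Fin g) := ⟨⟨0, hg0⟩⟩
  have h1 : ∀ T : Fin t → Fin g, (1 : ℚ) - ∑ a : Fin t, ∑ a' : Fin t,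
      ind (X (a', T a') ∈ S (a, T a)) ≤ ind (∀ a a', X (a', T a') ∉ S (a, T a)) := by
    intro T
    have hn : ∀ a a' : Fin t, (0 : ℚ) ≤ ind (X (a', T a') ∈ S (a, T a)) :=
      fun _ _ => ind_nonneg _
    by_cases h : ∀ a a', X (a', T a') ∉ S (a, T a)
    · have h2 : (0 : ℚ) ≤ ∑ a : Fin t, ∑ a' : Fin t, ind (X (a', T a') ∈ S (a, T a)) :=
        Finset.sum_nonneg fun a _ => Finset.sum_nonneg fun a' _ => hn a a'
      have h3 : ind (∀ a a', X (a', T a') ∉ S (a, T a)) = 1 := if_pos h
      linarith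
    · have h3 : ind (∀ a a', X (a', T a') ∉ S (a, T a)) = 0 := if_neg h
      push Not at h
      obtain ⟨a, a', h⟩ := h
      have h4 : ind (X (a', T a') ∈ S (a, T a)) = 1 := if_pos h
      have h5 : ind (X (a', T a') ∈ S (a, T a)) ≤
          ∑ a' : Fin t, ind (X (a', T a') ∈ S (a, T a)) :=
        Finset.single_le_sum (f := fun a' : Fin t => ind (X (a', T a') ∈ S (a, T a)))
          (fun b _ => hn a b) (mem_univ a')
      have h6 : ∑ a' : Fin t, ind (X (a', T a') ∈ S (a, T a)) ≤
          ∑ a : Fin t, ∑ a' : Fin t, ind (X (a', T a') ∈ S (a, T a)) :=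
        Finset.single_le_sum
          (f := fun a : Fin t => ∑ a' : Fin t, ind (X (a', T a') ∈ S (a, T a)))
          (fun b _ => Finset.sum_nonneg fun b' _ => hn b b') (mem_univ a)
      linarith
  have h2 : ∀ a a' : Fin t, av (fun T : Fin t → Fin g => ind (X (a', T a') ∈ S (a, T a))) ≤
      av fun T : Fin t → Fin g => av fun c : Fin g => ind (X (a', c) ∈ S (a, T a)) := by
    intro a a'
    by_cases h : a = a'
    · subst h
      refine av_mono fun T => ?_
      have h4 : ind (X (a, T a) ∈ S (a, T a)) = 0 := if_neg (hE _)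
      rw [h4]
      exact av_nonneg fun _ => ind_nonneg _
    · rw [AInita_resample a']
      refine le_of_eq ?_
      congr 1
      funext T
      congr 1
      funext c
      simp only [update_self, update_of_ne h]
  have h3 : ∀ a : Fin t, ∑ a' : Fin t,
      av (fun T : Fin t → Fin g => ind (X (a', T a') ∈ S (a, T a))) ≤ (K : ℚ) / g := by
    intro a
    refine (Finset.sum_le_sum fun a' _ => h2 a a').trans ?_
    have h5 := av_sum univ fun (a' : Fin t) (T : Fin t → Fin g) =>
      av fun c : Fin g => ind (X (a', c) ∈ S (a, T a))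
    have h6 : ∀ T : Fin t → Fin g, ∑ a' : Fin t,
        av (fun c : Fin g => ind (X (a', c) ∈ S (a, T a))) ≤ (K : ℚ) / g :=
      fun T => AInita_count X hX (S (a, T a)) (hq _)
    have h7 := av_mono (f := fun T : Fin t → Fin g => ∑ a' : Fin t,
        av (fun c : Fin g => ind (X (a', c) ∈ S (a, T a)))) (g := fun _ => (K : ℚ) / g) h6
    rw [av_const, h5] at h7
    exact h7
  have h4 : av (fun T : Fin t → Fin g => ∑ a : Fin t, ∑ a' : Fin t,
      ind (X (a', T a') ∈ S (a, T a))) ≤ t * ((K : ℚ) / g) := by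
    rw [av_sum univ fun (a : Fin t) (T : Fin t → Fin g) =>
      ∑ a' : Fin t, ind (X (a', T a') ∈ S (a, T a))]
    refine (Finset.sum_le_sum (g := fun _ => (K : ℚ) / g) fun a _ => ?_).trans ?_
    · rw [av_sum univ fun (a' : Fin t) (T : Fin t → Fin g) => ind (X (a', T a') ∈ S (a, T a))]
      exact h3 a
    · simp
  have h5 := av_mono h1
  rw [av_sub, av_const] at h5
  have hgq : (0 : ℚ) < g := by exact_mod_cast hg0
  have h6 : 2 * (t * ((K : ℚ) / g)) ≤ 1 := by
    have h7 : (2 * t * K : ℚ) < g := by exact_mod_cast hg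
    rw [← mul_div_assoc, ← mul_div_assoc, div_le_one hgq]
    linarith
  linarith

theorem AInita_fix {ι : Type} [Fintype ι] [DecidableEq ι] {t : ℕ} (Y : Fin t → ι)
    (hY : Injective Y) (G : (ι → Bool) → Prop) [DecidablePred G]
    (hG : ∀ v v', G v → G v' → (∀ y, (∀ a, Y a ≠ y) → v y = v' y) → v = v') :
    av (fun v : ι → Bool => ind (G v)) ≤ 1 / 2 ^ t := by
  have h1 : ((univ.filter G) ×ˢ (univ : Finset (Fin t → Bool))).card
      ≤ (univ : Finset (ι → Bool)).card := by
    refine Finset.card_le_card_of_injOn (fun p => Function.extend Y p.2 p.1)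
      (fun _ _ => by simp) ?_
    rintro ⟨v, s⟩ hv ⟨v', s'⟩ hv' h
    have hv1 : G v := by simpa using hv
    have hv2 : G v' := by simpa using hv'
    have h2 : s = s' := by
      funext a
      have := congrFun h (Y a)
      simpa only [hY.extend_apply] using this
    have h3 : v = v' := by
      refine hG v v' hv1 hv2 fun y hy => ?_
      have h4 : ¬∃ a, Y a = y := fun ⟨a, ha⟩ => hy a ha
      have := congrFun h y
      simpa only [Function.extend_apply' _ _ _ h4] using this
    rw [h2, h3]
  rw [Finset.card_product, Finset.card_univ, Finset.card_univ, Fintype.card_fun (α := Fin t),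
    Fintype.card_bool, Fintype.card_fin] at h1
  have h2 : ∑ v : ι → Bool, ind (G v) = ((univ.filter G).card : ℚ) := by
    simp [ind, Finset.sum_boole]
  have h3 : (0 : ℚ) < Fintype.card (ι → Bool) := by exact_mod_cast Fintype.card_pos
  have h4 : ((univ.filter G).card : ℚ) * 2 ^ t ≤ Fintype.card (ι → Bool) := by
    exact_mod_cast h1
  unfold av
  rw [h2, div_le_div_iff₀ h3 (by positivity)]
  linarith

/-- If each of the `t * g` places `X a` is predicted from at most `K` other places, the number of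
assignments on which all predictions are right is at most a `2 / 2 ^ t` fraction. -/
theorem transversal {ι : Type} [Fintype ι] [DecidableEq ι] {t g K : ℕ}
    (X : Fin t × Fin g → ι) (hX : Injective X)
    (qs : Fin t × Fin g → (ι → Bool) → Finset ι) (pr : Fin t × Fin g → (ι → Bool) → Bool)
    (hq : ∀ a v, (qs a v).card ≤ K)
    (hl : ∀ a v v', (∀ y ∈ qs a v, v y = v' y) → pr a v = pr a v')
    (hg : 2 * t * K < g) :
    av (fun v : ι → Bool => ind (∀ a, X a ∉ qs a v ∧ v (X a) = pr a v)) ≤ 2 / 2 ^ t := by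
  have hg0 : 0 < g := by omega
  have : Nonempty (Fin g) := ⟨⟨0, hg0⟩⟩
  have h1 : ∀ v : ι → Bool, ind (∀ a, X a ∉ qs a v ∧ v (X a) = pr a v) ≤
      2 * av fun T : Fin t → Fin g => ind ((∀ a, X a ∉ qs a v ∧ v (X a) = pr a v) ∧
        ∀ a a', X (a', T a') ∉ qs (a, T a) v) := by
    intro v
    by_cases h : ∀ a, X a ∉ qs a v ∧ v (X a) = pr a v
    · have h2 : ind (∀ a, X a ∉ qs a v ∧ v (X a) = pr a v) = 1 := if_pos h
      rw [h2]
      refine (AInita_free X hX (fun a => qs a v) (fun a => hq a v) (fun a => (h a).1) hg).trans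
        (le_of_eq ?_)
      congr 2
      funext T
      unfold ind
      exact if_congr (and_iff_right h).symm rfl rfl
    · have h2 : ind (∀ a, X a ∉ qs a v ∧ v (X a) = pr a v) = 0 := if_neg h
      rw [h2]
      exact mul_nonneg (by norm_num) (av_nonneg fun _ => ind_nonneg _)
  refine (av_mono h1).trans ?_
  rw [av_mul_left, av_comm]
  have h2 : ∀ T : Fin t → Fin g, av (fun v : ι → Bool =>
      ind ((∀ a, X a ∉ qs a v ∧ v (X a) = pr a v) ∧ ∀ a a', X (a', T a') ∉ qs (a, T a) v))
      ≤ 1 / 2 ^ t := by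
    intro T
    refine AInita_fix (fun a => X (a, T a)) (fun a b h => congrArg Prod.fst (hX h))
      (fun v => (∀ a, X a ∉ qs a v ∧ v (X a) = pr a v) ∧ ∀ a a', X (a', T a') ∉ qs (a, T a) v) ?_
    rintro v v' ⟨h3, h4⟩ ⟨h5, -⟩ h6
    funext y
    by_cases hy : ∀ a, X (a, T a) ≠ y
    · exact h6 y hy
    · push Not at hy
      obtain ⟨a, rfl⟩ := hy
      rw [(h3 _).2, (h5 _).2]
      refine hl _ v v' fun z hz => h6 z fun a' ha' => ?_
      exact h4 a a' (by rw [ha']; exact hz)
  have h3 := av_mono h2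
  rw [av_const] at h3
  calc _ ≤ 2 * (1 / 2 ^ t : ℚ) := mul_le_mul_of_nonneg_left h3 (by norm_num)
    _ = 2 / 2 ^ t := by ring

/-- Johnson bound. -/
theorem johnson {Ω κ : Type} [Fintype Ω] [Nonempty Ω] (S : Finset κ) (v : κ → Ω → ℚ) (w : Ω → ℚ)
    (ε γ : ℚ) (hε : 0 < ε) (hγ : 0 ≤ γ) (h0 : 2 * γ ≤ ε ^ 2) (hw : ∀ ω, |w ω| ≤ 1)
    (hv : ∀ a ∈ S, ∀ ω, |v a ω| ≤ 1)
    (h1 : ∀ a ∈ S, ∀ b ∈ S, a ≠ b → av (fun ω => v a ω * v b ω) ≤ γ)
    (h2 : ∀ a ∈ S, ε ≤ av fun ω => w ω * v a ω) : (S.card : ℚ) ≤ 2 / ε ^ 2 := by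
  classical
  obtain ⟨n, hn⟩ : ∃ n : ℚ, n = (S.card : ℚ) := ⟨_, rfl⟩
  rw [← hn]
  have hn0 : 0 ≤ n := hn ▸ Nat.cast_nonneg _
  have e1 : ε * n ≤ av fun ω => w ω * ∑ a ∈ S, v a ω := by
    have : (fun ω => w ω * ∑ a ∈ S, v a ω) = fun ω => ∑ a ∈ S, w ω * v a ω := by
      funext ω
      rw [Finset.mul_sum]
    rw [this, av_sum S fun a ω => w ω * v a ω]
    calc ε * n = ∑ _a ∈ S, ε := by rw [Finset.sum_const, nsmul_eq_mul, mul_comm, hn]
      _ ≤ _ := Finset.sum_le_sum h2
  have e2 : (av fun ω => (∑ a ∈ S, v a ω) ^ 2) ≤ n * (1 + n * γ) := by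
    have : (fun ω => (∑ a ∈ S, v a ω) ^ 2) = fun ω => ∑ a ∈ S, ∑ b ∈ S, v a ω * v b ω := by
      funext ω
      rw [pow_two, Finset.sum_mul_sum]
    rw [this, av_sum S fun a ω => ∑ b ∈ S, v a ω * v b ω]
    calc _ ≤ ∑ _a ∈ S, (1 + n * γ) := by
          refine Finset.sum_le_sum fun a ha => ?_
          rw [av_sum S fun b ω => v a ω * v b ω]
          calc _ ≤ ∑ b ∈ S, ((if a = b then (1 : ℚ) else 0) + γ) := by
                refine Finset.sum_le_sum fun b hb => ?_
                by_cases hab : a = b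
                · subst hab
                  have : (av fun ω => v a ω * v a ω) ≤ av fun _ : Ω => (1 : ℚ) := by
                    refine av_mono fun ω => ?_
                    have := abs_le.1 (hv a ha ω)
                    nlinarith [this.1, this.2]
                  rw [av_const] at this
                  simp only [if_true]
                  linarith
                · simp only [hab, if_false, zero_add]
                  exact h1 a ha b hb hab
            _ = 1 + n * γ := by
                rw [Finset.sum_add_distrib, Finset.sum_ite_eq, if_pos ha, Finset.sum_const,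
                  nsmul_eq_mul, hn]
      _ = n * (1 + n * γ) := by rw [Finset.sum_const, nsmul_eq_mul, ← hn]
  have e3 : (av fun ω => 2 * (ε * n) * (w ω * ∑ a ∈ S, v a ω)) ≤
      av fun ω => (ε * n) ^ 2 + (∑ a ∈ S, v a ω) ^ 2 := by
    refine av_mono fun ω => ?_
    have h := abs_le.1 (hw ω)
    have h3 : w ω ^ 2 ≤ 1 := by nlinarith [h.1, h.2]
    nlinarith [sq_nonneg (ε * n * w ω - ∑ a ∈ S, v a ω),
      mul_le_mul_of_nonneg_left h3 (sq_nonneg (ε * n))]
  rw [av_mul_left, av_add (fun _ => (ε * n) ^ 2) fun ω => (∑ a ∈ S, v a ω) ^ 2, av_const] at e3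
  have hc : 0 ≤ ε * n := mul_nonneg hε.le hn0
  have e4 : (ε * n) ^ 2 ≤ n * (1 + n * γ) := by
    nlinarith [mul_le_mul_of_nonneg_left e1 hc]
  rw [le_div_iff₀ (by positivity)]
  rcases hn0.eq_or_lt with h | h
  · rw [← h]
    norm_num
  · have e5 : n * (n * ε ^ 2) ≤ n * 2 := by
      nlinarith [mul_le_mul_of_nonneg_left h0 (mul_nonneg hn0 hn0)]
    exact le_of_mul_le_mul_left e5 h

theorem AInitb_pi {Ω : Type} [Fintype Ω] (N : ℕ) (g : Ω → ℚ) :
    (av fun ω : Fin N → Ω => ∏ i, g (ω i)) = av g ^ N := by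
  classical
  unfold av
  rw [div_pow, Fintype.card_fun, Fintype.card_fin, Nat.cast_pow]
  congr 1
  have := Finset.prod_univ_sum (fun _ : Fin N => (univ : Finset Ω)) fun _ a => g a
  rw [Fintype.piFinset_univ] at this
  rw [← this, Finset.prod_const, Finset.card_univ, Fintype.card_fin]

theorem AInitb_count {Ω : Type} {N : ℕ} (p : Ω → Prop) [∀ ω, Decidable (p ω)] (ω : Fin N → Ω) :
    ∏ i, (1 + 3 * ind (p (ω i))) = (4 : ℚ) ^ (univ.filter fun i => p (ω i)).card := by
  rw [← Finset.prod_const, Finset.prod_filter]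
  refine Finset.prod_congr rfl fun i _ => ?_
  unfold ind
  split_ifs <;> norm_num

/-- Majority of `2 * m + 2` trials is right for `2 ^ m` inputs at once. -/
theorem majority {Ω κ : Type} [Fintype Ω] [Nonempty Ω] [Fintype κ] {m : ℕ}
    (hκ : Fintype.card κ ≤ 2 ^ m) (bad : κ → Ω → Prop) [∀ u ω, Decidable (bad u ω)]
    (h : ∀ u, av (fun ω => ind (bad u ω)) ≤ 1 / 8) :
    ∃ ω : Fin (2 * m + 2) → Ω, ∀ u, (univ.filter fun i => bad u (ω i)).card ≤ m := by
  obtain ⟨ω, hω⟩ := exists_le_av fun ω : Fin (2 * m + 2) → Ω =>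
    ∑ u : κ, ∏ i, (1 + 3 * ind (bad u (ω i)))
  rw [av_sum univ fun (u : κ) (ω : Fin (2 * m + 2) → Ω) => ∏ i, (1 + 3 * ind (bad u (ω i)))] at hω
  have e1 : ∀ u : κ, (av fun ω : Fin (2 * m + 2) → Ω => ∏ i, (1 + 3 * ind (bad u (ω i)))) ≤
      (11 / 8 : ℚ) ^ (2 * m + 2) := by
    intro u
    rw [AInitb_pi (2 * m + 2) fun a => 1 + 3 * ind (bad u a)]
    refine pow_le_pow_left₀ (av_nonneg fun a => ?_) ?_ _
    · have := ind_nonneg (bad u a)
      linarith
    · rw [av_add (fun _ => 1) fun a => 3 * ind (bad u a), av_const, av_mul_left]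
      have := h u
      linarith
  have e2 : (∑ u : κ, ∏ i, (1 + 3 * ind (bad u (ω i)))) < (4 : ℚ) ^ (m + 1) := by
    calc _ ≤ ∑ _u : κ, (11 / 8 : ℚ) ^ (2 * m + 2) := hω.trans (Finset.sum_le_sum fun u _ => e1 u)
      _ = (Fintype.card κ : ℚ) * (11 / 8 : ℚ) ^ (2 * m + 2) := by
          rw [Finset.sum_const, nsmul_eq_mul, Finset.card_univ]
      _ ≤ 2 ^ m * (11 / 8 : ℚ) ^ (2 * m + 2) := by
          refine mul_le_mul_of_nonneg_right ?_ (by positivity)
          exact_mod_cast hκ
      _ = (121 / 32 : ℚ) ^ m * (121 / 64) := by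
          rw [pow_add, pow_mul, ← mul_assoc, ← mul_pow]
          norm_num
      _ ≤ 4 ^ m * (121 / 64) := by
          refine mul_le_mul_of_nonneg_right ?_ (by norm_num)
          exact pow_le_pow_left₀ (by norm_num) (by norm_num) _
      _ < 4 ^ (m + 1) := by
          rw [pow_succ]
          exact mul_lt_mul_of_pos_left (by norm_num) (by positivity)
  refine ⟨ω, fun u => ?_⟩
  have e3 : ∏ i, (1 + 3 * ind (bad u (ω i))) ≤ ∑ u : κ, ∏ i, (1 + 3 * ind (bad u (ω i))) := by
    refine Finset.single_le_sum (f := fun u : κ => ∏ i, (1 + 3 * ind (bad u (ω i))))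
      (fun u _ => ?_) (Finset.mem_univ u)
    rw [AInitb_count (bad u) ω]
    positivity
  rw [AInitb_count (bad u) ω] at e3
  have e4 := (pow_lt_pow_iff_right₀ (by norm_num : (1 : ℚ) < 4)).1 (e3.trans_lt e2)
  omega

end Pool.Agent.P.MP_158ebf_lc.AT
end

-- part Pool.Agent.P.MP_158ebf_lc.ANW
section

/-! The hybrid argument. -/

namespace Pool.Agent.P.MP_158ebf_lc.AT

open Function Finset

/-- The hybrid string: generator bits before `k`, the bit `b` at `k`, fixed bits after `k`. -/
noncomputable def hyb {ι ρ A : Type} {L : ℕ} (S : Fin L → ρ → ι) (h : (ρ → A) → Bool) (k : Fin L)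
    (s : ι → A) (z : Fin L → Bool) (σ : ρ → A) (b : Bool) (j : Fin L) : Bool :=
  if j < k then h fun a => Function.extend (S k) σ s (S j a) else if j = k then b else z j

theorem ANW_resample {ι ρ A : Type} [Fintype ι] [DecidableEq ι] [Fintype ρ] [DecidableEq ρ]
    [Fintype A] [Nonempty A] {g : ρ → ι} (hg : Injective g) (f : (ι → A) → ℚ) :
    av f = av fun s : ι → A => av fun σ : ρ → A => f (Function.extend g σ s) := by
  have hinv : Involutive fun p : (ι → A) × (ρ → A) =>
      ((Function.extend g p.2 p.1, fun a => p.1 (g a)) : (ι → A) × (ρ → A)) := by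
    rintro ⟨s, σ⟩
    refine Prod.ext (funext fun i => ?_) (funext fun a => hg.extend_apply _ _ _)
    by_cases hi : ∃ a, g a = i
    · obtain ⟨a, rfl⟩ := hi
      exact hg.extend_apply _ _ _
    · show Function.extend g _ _ i = s i
      rw [Function.extend_apply' _ _ _ hi]
      exact Function.extend_apply' _ _ _ hi
  have h1 := av_equiv hinv.toPerm fun p : (ι → A) × (ρ → A) => f p.1
  rw [av_prod, av_prod] at h1
  simp only [av_const] at h1
  exact h1.symm

theorem ANW_flip {L : ℕ} (k : Fin L) (F : (Fin L → Bool) → Bool → ℚ)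
    (hF : ∀ z b c, F (Function.update z k c) b = F z b) :
    (av fun z => F z (z k)) = av fun z => (1 / 2 : ℚ) * (F z true + F z false) := by
  have hinv : Involutive fun z : Fin L → Bool => Function.update z k (!z k) := by
    intro z
    simp
  have h1 := av_equiv hinv.toPerm fun z => F z (z k)
  have h2 : (av fun z => F z (!z k)) = av fun z => F z (z k) := by
    rw [← h1]
    congr 1
    funext z
    show F z (!z k) = F (Function.update z k (!z k)) (Function.update z k (!z k) k)
    rw [hF, Function.update_self]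
  have h3 : (fun z : Fin L → Bool => F z true + F z false) =
      fun z => F z (z k) + F z (!z k) := by
    funext z
    cases z k
    · exact add_comm _ _
    · rfl
  rw [av_mul_left, h3, av_add, h2]
  ring

/-- A test that distinguishes the generator from uniform bits predicts the hard bit. -/
theorem nw {ι ρ A : Type} [Fintype ι] [DecidableEq ι] [Fintype ρ] [DecidableEq ρ] [Fintype A]
    [Nonempty A] {L : ℕ} (S : Fin L → ρ → ι) (hS : ∀ k, Injective (S k)) (h : (ρ → A) → Bool)
    (T : (Fin L → Bool) → Bool) (ε : ℚ) (hε : 0 < ε)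
    (hd : ε ≤ av (fun z => ind (T z = true)) -
      av fun s : ι → A => ind (T (fun j => h fun a => s (S j a)) = true)) :
    ∃ (k : Fin L) (s : ι → A) (z : Fin L → Bool), 2 * ε / L ≤ av fun σ : ρ → A =>
      (ind (T (hyb S h k s z σ true) = true) - ind (T (hyb S h k s z σ false) = true)) *
        if h σ then -1 else 1 := by
  set H : ℕ → ℚ := fun k => av fun s : ι → A => av fun z : Fin L → Bool =>
    ind (T (fun j => if j.val < k then h fun a => s (S j a) else z j) = true) with hH
  have h0 : H 0 = av fun z => ind (T z = true) := by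
    simp only [hH, Nat.not_lt_zero, if_false, av_const]
  have hL : H L = av fun s : ι → A => ind (T (fun j => h fun a => s (S j a)) = true) := by
    simp only [hH, Fin.is_lt, if_true, av_const]
  have hsum : ε ≤ ∑ k ∈ range L, (H k - H (k + 1)) := by
    rw [Finset.sum_range_sub', h0, hL]
    exact hd
  have hL0 : 0 < L := by
    rcases Nat.eq_zero_or_pos L with h' | h'
    · rw [h'] at hsum
      simp only [range_zero, sum_empty] at hsum
      exact absurd hsum (not_le.2 hε)
    · exact h'
  have hLq : (0 : ℚ) < L := by exact_mod_cast hL0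
  obtain ⟨k, hk, hkε⟩ : ∃ k ∈ range L, ε / L ≤ H k - H (k + 1) := by
    refine Finset.exists_le_of_sum_le ⟨0, mem_range.2 hL0⟩ ?_
    rw [sum_const, card_range, nsmul_eq_mul, mul_div_cancel₀ _ hLq.ne']
    exact hsum
  obtain ⟨k, rfl⟩ : ∃ k' : Fin L, k'.val = k := ⟨⟨k, mem_range.1 hk⟩, rfl⟩
  have e1 : H k = av fun s : ι → A => av fun σ : ρ → A => av fun z : Fin L → Bool =>
      (1 / 2 : ℚ) * (ind (T (hyb S h k s z σ true) = true) +
        ind (T (hyb S h k s z σ false) = true)) := by
    simp only [hH]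
    rw [ANW_resample (hS k)]
    congr 1
    funext s
    congr 1
    funext σ
    rw [← ANW_flip k fun z b => ind (T (hyb S h k s z σ b) = true)]
    · congr 1
      funext z
      have : (fun j : Fin L => if j.val < k.val then
          h fun a => Function.extend (S k) σ s (S j a) else z j) = hyb S h k s z σ (z k) := by
        funext j
        unfold hyb
        by_cases h1 : j < k
        · rw [if_pos h1, if_pos (Fin.lt_def.1 h1)]
        · rw [if_neg h1, if_neg fun h2 => h1 (Fin.lt_def.2 h2)]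
          split_ifs with h2
          · rw [h2]
          · rfl
      rw [this]
    · intro z b c
      have : hyb S h k s (Function.update z k c) σ b = hyb S h k s z σ b := by
        funext j
        unfold hyb
        split_ifs with h1 h2
        · rfl
        · rfl
        · exact Function.update_of_ne h2 _ _
      simp only [this]
  have e2 : H (k + 1) = av fun s : ι → A => av fun σ : ρ → A => av fun z : Fin L → Bool =>
      ind (T (hyb S h k s z σ (h σ)) = true) := by
    simp only [hH]
    rw [ANW_resample (hS k)]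
    congr 1
    funext s
    congr 1
    funext σ
    congr 1
    funext z
    have : (fun j : Fin L => if j.val < k.val + 1 then
        h fun a => Function.extend (S k) σ s (S j a) else z j) = hyb S h k s z σ (h σ) := by
      funext j
      unfold hyb
      by_cases h1 : j < k
      · rw [if_pos h1, if_pos (Nat.lt_succ_of_lt (Fin.lt_def.1 h1))]
      · rw [if_neg h1]
        by_cases h2 : j = k
        · subst h2
          rw [if_pos (Nat.lt_succ_self _), if_pos rfl]
          congr 1
          funext a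
          exact (hS j).extend_apply _ _ _
        · rw [if_neg h2, if_neg]
          intro h3
          have h4 : j.val ≠ k.val := fun h5 => h2 (Fin.ext h5)
          exact h1 (Fin.lt_def.2 (by omega))
    rw [this]
  have e3 : H k - H (k + 1) = (1 / 2 : ℚ) * av fun s : ι → A => av fun z : Fin L → Bool =>
      av fun σ : ρ → A =>
        (ind (T (hyb S h k s z σ true) = true) - ind (T (hyb S h k s z σ false) = true)) *
          if h σ then -1 else 1 := by
    rw [e1, e2, ← av_sub, ← av_mul_left]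
    congr 1
    funext s
    rw [← av_sub, av_comm, ← av_mul_left]
    congr 1
    funext σ
    rw [← av_sub, ← av_mul_left]
    congr 1
    funext z
    cases h σ
    · simp only [Bool.false_eq_true, if_false]
      ring
    · simp only [if_true]
      ring
  obtain ⟨s, hs⟩ := exists_ge_av fun s : ι → A => av fun z : Fin L → Bool =>
      av fun σ : ρ → A =>
        (ind (T (hyb S h k s z σ true) = true) - ind (T (hyb S h k s z σ false) = true)) *
          if h σ then -1 else 1
  obtain ⟨z, hz⟩ := exists_ge_av fun z : Fin L → Bool =>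
      av fun σ : ρ → A =>
        (ind (T (hyb S h k s z σ true) = true) - ind (T (hyb S h k s z σ false) = true)) *
          if h σ then -1 else 1
  refine ⟨k, s, z, le_trans ?_ (hs.trans hz)⟩
  rw [e3] at hkε
  rw [mul_div_assoc]
  linarith

end Pool.Agent.P.MP_158ebf_lc.AT
end

-- part Pool.Agent.P.MP_158ebf_lc.ARun
section

/-! Runs of an adaptive test on a known initial segment and a random tape. -/

namespace Pool.Agent.P.MP_158ebf_lc.AT

open Function Finset N487b59b3 N68a2faeb Pool.Agent.Lib.PolyTime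

/-- Position of a string in the standard enumeration. -/
def idx (y : Str) : ℕ := ofBits (y.reverse ++ [true]) - 1

/-- The oracle given by a finite initial segment. -/
def orc (w y : Str) : Bool := w.getD (idx y) false

/-- The oracle `B` with the bit at position `t` set to `b`. -/
def ov (B : Str → Bool) (t : ℕ) (b : Bool) (y : Str) : Bool := if idx y = t then b else B y

/-- Agreement of two oracles below position `t`. -/
def Agr (t : ℕ) (B B' : Str → Bool) : Prop := ∀ y, idx y < t → B y = B' y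

/-- An adaptive test: next query from the answers so far, acceptance, number of queries, prize. -/
structure Test where
  Qy : Str → Str
  E : Str → Bool
  Q : ℕ
  Λ : ℕ

/-- All queries lie below position `N`. -/
def Test.Bnd (T : Test) (N : ℕ) : Prop := ∀ h : Str, h.length < T.Q → idx (T.Qy h) < N

/-- The first step at which the current query was asked. -/
def first (Qy : Str → Str) (h : Str) : ℕ :=
  ((List.range h.length).filter fun j => Qy (h.take j) == Qy h).headD h.length

/-- The answer to the current query: from the oracle below position `t`, else from the tape. -/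
def stp (Qy : Str → Str) (B : Str → Bool) (t : ℕ) (r h : Str) : Bool :=
  if idx (Qy h) < t then B (Qy h) else r.getD (first Qy h) false

/-- The first `j` answers. -/
def ans (Qy : Str → Str) (B : Str → Bool) (t : ℕ) (r : Str) (j : ℕ) : Str :=
  (fun h => h ++ [stp Qy B t r h])^[j] []

/-- The value of a run: the prize if the test accepts, plus the number of queries not yet known. -/
def Fv (T : Test) (B : Str → Bool) (t : ℕ) (r : Str) : ℕ :=
  (if T.E (ans T.Qy B t r T.Q) then T.Λ else 0) +
    (List.range T.Q).countP fun j => decide (t ≤ idx (T.Qy ((ans T.Qy B t r T.Q).take j)))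

/-- The influence of the bit at position `t` on the value of the run. -/
def gap (T : Test) (B : Str → Bool) (t : ℕ) (r : Str) : ℤ :=
  (Fv T (ov B t true) (t + 1) r : ℤ) - Fv T (ov B t false) (t + 1) r

/-- Expected value of a run. -/
def Fb (T : Test) (B : Str → Bool) (t : ℕ) : ℚ :=
  av fun r : Fin T.Q → Bool => (Fv T B t (List.ofFn r) : ℚ)

/-- Probability that the bit at position `t` matters. -/
def hit (T : Test) (B : Str → Bool) (t : ℕ) : ℚ :=
  av fun r : Fin T.Q → Bool => ind (gap T B t (List.ofFn r) ≠ 0)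

theorem idx_std (n : ℕ) : idx (stdString n) = n := by
  rw [idx, ← bits_succ, ofBits_bits, Nat.add_sub_cancel]

theorem std_idx (y : Str) : stdString (idx y) = y := by
  obtain ⟨n, rfl⟩ := stdString_surj y
  rw [idx_std]

theorem idx_lt {y : Str} {k : ℕ} (h : y.length ≤ k) : idx y < 2 ^ (k + 1) := by
  have h1 := ofBits_lt (y.reverse ++ [true])
  rw [List.length_append, List.length_reverse, List.length_singleton] at h1
  have h2 : 2 ^ (y.length + 1) ≤ 2 ^ (k + 1) := Nat.pow_le_pow_right (by norm_num) (by omega)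
  unfold idx
  omega

theorem length_std_le {n k : ℕ} (h : n < 2 ^ k) : (stdString n).length ≤ k := by
  exact (Nat.pow_le_pow_iff_right (by norm_num : 1 < 2)).1
    ((two_pow_length_stdString n).trans h)

theorem agr_chi (A : Str → Bool) (N : ℕ) : Agr N (orc (chi A N)) A := by
  intro y hy
  rw [orc, chi, List.getD_eq_getElem _ _ (by simpa using hy), List.getElem_map, List.getElem_range,
    std_idx]

theorem agr_concat (w : Str) (b : Bool) :
    Agr (w.length + 1) (orc (w ++ [b])) (ov (orc w) w.length b) := by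
  intro y hy
  rw [ov, orc]
  split_ifs with h
  · rw [h, List.getD_append_right _ _ _ _ le_rfl, Nat.sub_self, List.getD_cons_zero]
  · rw [orc, List.getD_append _ _ _ _ (by omega)]

theorem agr_ov (B : Str → Bool) (t : ℕ) (b : Bool) : Agr t (ov B t b) B := by
  intro y hy
  rw [ov, if_neg hy.ne]

theorem agr_ov_self (B : Str → Bool) (t : ℕ) : ov B t (B (stdString t)) = B := by
  funext y
  rw [ov]
  split_ifs with h
  · rw [← h, std_idx]
  · rfl

theorem Agr.mono {s t : ℕ} {B B' : Str → Bool} (h : Agr t B B') (hs : s ≤ t) : Agr s B B' := by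
  exact fun y hy => h y (hy.trans_le hs)

theorem Agr.ov {t : ℕ} {B B' : Str → Bool} (h : Agr t B B') (b : Bool) :
    Agr (t + 1) (ov B t b) (ov B' t b) := by
  intro y hy
  unfold AT.ov
  split_ifs with h1
  · rfl
  · exact h y (by omega)

section

variable {Qy : Str → Str} {B B' : Str → Bool} {t : ℕ} {r : Str} {T : Test}

theorem ans_succ (j : ℕ) : ans Qy B t r (j + 1) =
    ans Qy B t r j ++ [stp Qy B t r (ans Qy B t r j)] := by
  rw [ans, iterate_succ_apply']
  rfl

theorem length_ans (j : ℕ) : (ans Qy B t r j).length = j := by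
  induction j with
  | zero => rfl
  | succ j ih => rw [ans_succ, List.length_append, ih, List.length_singleton]

theorem take_ans {i j : ℕ} (h : i ≤ j) : (ans Qy B t r j).take i = ans Qy B t r i := by
  induction j, h using Nat.le_induction with
  | base => exact List.take_of_length_le (length_ans i).le
  | succ j h ih => rw [ans_succ, List.take_append_of_le_length (by rwa [length_ans]), ih]

theorem ans_congr (h : Agr t B B') (j : ℕ) : ans Qy B t r j = ans Qy B' t r j := by
  have e : stp Qy B t r = stp Qy B' t r := funext fun u => by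
    unfold stp
    split_ifs with h1
    · exact h _ h1
    · rfl
  rw [ans, ans, e]

theorem Fv_congr (h : Agr t B B') : Fv T B t r = Fv T B' t r := by
  rw [Fv, Fv, ans_congr h]

theorem gap_congr (h : Agr t B B') : gap T B t r = gap T B' t r := by
  rw [gap, gap, Fv_congr (h.ov true), Fv_congr (h.ov false)]

theorem Fb_congr (h : Agr t B B') : Fb T B t = Fb T B' t := by
  simp only [Fb, Fv_congr h]

theorem hit_congr (h : Agr t B B') : hit T B t = hit T B' t := by
  simp only [hit, gap_congr h]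

theorem Fv_le : Fv T B t r ≤ T.Λ + T.Q := by
  refine Nat.add_le_add ?_ (List.countP_le_length.trans List.length_range.le)
  split_ifs
  · exact le_rfl
  · exact Nat.zero_le _

theorem abs_gap_le : |gap T B t r| ≤ T.Λ + T.Q := by
  have h1 := Fv_le (T := T) (B := ov B t true) (t := t + 1) (r := r)
  have h2 := Fv_le (T := T) (B := ov B t false) (t := t + 1) (r := r)
  rw [gap, abs_le]
  omega

theorem Fb_nonneg : 0 ≤ Fb T B t := by
  exact av_nonneg fun _ => Nat.cast_nonneg _

theorem hit_nonneg : 0 ≤ hit T B t := by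
  exact av_nonneg fun _ => ind_nonneg _

theorem hit_le_one : hit T B t ≤ 1 := by
  exact (av_mono fun _ => ind_le_one _).trans (av_const 1).le

end

end Pool.Agent.P.MP_158ebf_lc.AT
end

-- part Pool.Agent.P.MP_158ebf_lc.ASamp
section

/-! Pairwise independent tapes. -/

namespace Pool.Agent.P.MP_158ebf_lc.AT

open Function Finset N487b59b3 N68a2faeb Pool.Agent.Lib.PolyTime

/-- The tape for position `t`: an affine function, coded by `z`, of the bits of `t`. -/
def tape (lam Q : ℕ) (z : Str) (t : ℕ) : Str :=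
  (List.range Q).map fun j => decide (((List.range (lam + 1)).countP fun k =>
    z.getD (j * (lam + 1) + k) false && (2 ^ lam + t).testBit k) % 2 = 1)

/-- Booleans as the field with two elements. -/
def ASamp_e : Bool ≃ ZMod 2 where
  toFun b := if b then 1 else 0
  invFun x := decide (x = 1)
  left_inv := by decide
  right_inv := by decide

/-- The linear map behind the tape. -/
def ASamp_L (lam Q n : ℕ) : (Fin (Q * (lam + 1)) → ZMod 2) →+ (Fin Q → ZMod 2) where
  toFun z j := ∑ k : Fin (lam + 1), z (finProdFinEquiv (j, k)) * ASamp_e (n.testBit k)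
  map_zero' := by
    funext j
    simp
  map_add' z z' := by
    funext j
    simp [add_mul, sum_add_distrib]

theorem ASamp_count (p : ℕ → Bool) (n : ℕ) :
    (((List.range n).countP p : ℕ) : ZMod 2) = ∑ k : Fin n, ASamp_e (p k) := by
  induction n with
  | zero => simp
  | succ n ih =>
    rw [List.range_succ, List.countP_append, Fin.sum_univ_castSucc, Nat.cast_add, ih]
    congr 1
    cases hp : p n <;> simp [ASamp_e, hp]

theorem ASamp_and (a b : Bool) : ASamp_e (a && b) = ASamp_e a * ASamp_e b := by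
  revert a b
  decide

theorem ASamp_tape (lam Q t : ℕ) (z : Fin (Q * (lam + 1)) → Bool) :
    tape lam Q (List.ofFn z) t =
      List.ofFn fun j => ASamp_e.symm (ASamp_L lam Q (2 ^ lam + t) (fun i => ASamp_e (z i)) j) := by
  apply List.ext_getElem
  · simp [tape]
  · intro j h1 h2
    have hj : j < Q := by simpa using h2
    simp only [tape, List.getElem_map, List.getElem_range, List.getElem_ofFn]
    change _ = decide (_ = (1 : ZMod 2))
    rw [decide_eq_decide, ← Nat.odd_iff, ← ZMod.natCast_eq_one_iff_odd, ASamp_count]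
    have : ∀ k : Fin (lam + 1), ASamp_e ((List.ofFn z).getD (j * (lam + 1) + k) false &&
        (2 ^ lam + t).testBit k) =
        ASamp_e (z (finProdFinEquiv (⟨j, hj⟩, k))) * ASamp_e ((2 ^ lam + t).testBit k) := by
      intro k
      have hv : j * (lam + 1) + k = (finProdFinEquiv ((⟨j, hj⟩ : Fin Q), k)).val := by
        simp [finProdFinEquiv]
        ring
      rw [ASamp_and, hv, List.getD_eq_getElem _ _ (by rw [List.length_ofFn]; exact Fin.isLt _),
        List.getElem_ofFn]
    simp only [this]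
    rfl

theorem ASamp_top {lam t : ℕ} (ht : t < 2 ^ lam) : ASamp_e ((2 ^ lam + t).testBit lam) = 1 := by
  rw [Nat.testBit_two_pow_add_eq, Nat.testBit_lt_two_pow ht]
  rfl

theorem ASamp_val (lam Q n : ℕ) (k0 : Fin (lam + 1)) (a b : Fin Q → ZMod 2) (j : Fin Q) :
    ASamp_L lam Q n (fun i => (if (finProdFinEquiv.symm i).2 = Fin.last lam then
        a (finProdFinEquiv.symm i).1 else 0) +
      if (finProdFinEquiv.symm i).2 = k0 then b (finProdFinEquiv.symm i).1 else 0) j =
      a j * ASamp_e (n.testBit lam) + b j * ASamp_e (n.testBit k0) := by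
  change ∑ k : Fin (lam + 1), _ = _
  simp only [Equiv.symm_apply_apply, add_mul, sum_add_distrib, ite_mul, zero_mul, sum_ite_eq',
    mem_univ, if_true, Fin.val_last]

theorem ASamp_surj {lam Q t : ℕ} (ht : t < 2 ^ lam) :
    Surjective (ASamp_L lam Q (2 ^ lam + t)) := by
  intro u
  refine ⟨_, funext fun j => (ASamp_val lam Q _ 0 u 0 j).trans ?_⟩
  rw [ASamp_top ht]
  simp

theorem ASamp_surj_two {lam Q t t' : ℕ} (ht : t < 2 ^ lam) (ht' : t' < 2 ^ lam) (h : t ≠ t') :
    Surjective ((ASamp_L lam Q (2 ^ lam + t)).prod (ASamp_L lam Q (2 ^ lam + t'))) := by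
  have hk : ∃ k, (2 ^ lam + t).testBit k ≠ (2 ^ lam + t').testBit k := by
    by_contra hc
    push Not at hc
    exact h (Nat.add_left_cancel (Nat.eq_of_testBit_eq hc))
  obtain ⟨k, hk⟩ := hk
  have hlt : k < lam + 1 := by
    by_contra hc
    have h1 : 2 ^ (lam + 1) ≤ 2 ^ k := Nat.pow_le_pow_right (by norm_num) (by omega)
    rw [pow_succ] at h1
    apply hk
    rw [Nat.testBit_lt_two_pow (by omega), Nat.testBit_lt_two_pow (by omega)]
  have key : ∀ u v x y : ZMod 2, x ≠ y → (u - (u + v) * x) * 1 + (u + v) * x = u ∧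
      (u - (u + v) * x) * 1 + (u + v) * y = v := by decide
  rintro ⟨u, v⟩
  have hne := ASamp_e.injective.ne hk
  refine ⟨_, Prod.ext
    (funext fun j => (ASamp_val lam Q _ ⟨k, hlt⟩
      (fun j => u j - (u j + v j) * ASamp_e ((2 ^ lam + t).testBit k))
      (fun j => u j + v j) j).trans ?_)
    (funext fun j => (ASamp_val lam Q _ ⟨k, hlt⟩
      (fun j => u j - (u j + v j) * ASamp_e ((2 ^ lam + t).testBit k))
      (fun j => u j + v j) j).trans ?_)⟩
  · rw [ASamp_top ht]
    exact (key _ _ _ _ hne).1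
  · rw [ASamp_top ht']
    exact (key _ _ _ _ hne).2

theorem ASamp_av {ι : Type} [Fintype ι] [DecidableEq ι] (f : (ι → ZMod 2) → ℚ) :
    av (fun z : ι → Bool => f fun i => ASamp_e (z i)) = av f :=
  av_equiv (Equiv.piCongrRight fun _ => ASamp_e) f

theorem ASamp_back {Q : ℕ} (φ : Str → ℚ) :
    av (fun u : Fin Q → ZMod 2 => φ (List.ofFn fun j => ASamp_e.symm (u j))) =
      av fun r : Fin Q → Bool => φ (List.ofFn r) := by
  rw [← ASamp_av]
  simp only [Equiv.symm_apply_apply]

theorem av_tape {lam Q t : ℕ} (ht : t < 2 ^ lam) (φ : Str → ℚ) :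
    av (fun z : Fin (Q * (lam + 1)) → Bool => φ (tape lam Q (List.ofFn z) t)) =
      av fun r : Fin Q → Bool => φ (List.ofFn r) := by
  simp only [ASamp_tape]
  rw [ASamp_av fun w => φ (List.ofFn fun j => ASamp_e.symm (ASamp_L lam Q (2 ^ lam + t) w j)),
    ← ASamp_back]
  have := av_hom _ (ASamp_surj (Q := Q) ht) 0 fun u => φ (List.ofFn fun j => ASamp_e.symm (u j))
  simpa only [add_zero] using this

theorem av_tape_two {lam Q t t' : ℕ} (ht : t < 2 ^ lam) (ht' : t' < 2 ^ lam) (h : t ≠ t')
    (φ ψ : Str → ℚ) :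
    av (fun z : Fin (Q * (lam + 1)) → Bool =>
      φ (tape lam Q (List.ofFn z) t) * ψ (tape lam Q (List.ofFn z) t')) =
      (av fun r : Fin Q → Bool => φ (List.ofFn r)) * av fun r : Fin Q → Bool => ψ (List.ofFn r) := by
  simp only [ASamp_tape]
  rw [ASamp_av fun w => φ (List.ofFn fun j => ASamp_e.symm (ASamp_L lam Q (2 ^ lam + t) w j)) *
      ψ (List.ofFn fun j => ASamp_e.symm (ASamp_L lam Q (2 ^ lam + t') w j)),
    ← ASamp_back, ← ASamp_back, ← av_prod_mul, ← av_hom _ (ASamp_surj_two ht ht' h) 0]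
  simp only [add_zero, AddMonoidHom.prod_apply]

end Pool.Agent.P.MP_158ebf_lc.AT
end

-- part Pool.Agent.P.MP_158ebf_lc.ACoh
section

/-! Normal form of probabilistic autoreductions. -/

namespace Pool.Agent.P.MP_158ebf_lc.AT

open Function Finset N487b59b3 N68a2faeb Pool.Agent.Lib.PolyTime

/-- Queries of `12 * |x|` consecutive trials, each with its own block of coins. -/
def ACoh_Q (q : (Str × Str) × Str → Str) (p : Polynomial ℕ) (y : (Str × Str) × Str) : Str :=
  if y.2.length < 12 * y.1.1.length * p.eval y.1.1.length then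
    q ((y.1.1, (y.1.2.drop (y.2.length / p.eval y.1.1.length * p.eval y.1.1.length)).take
      (p.eval y.1.1.length)), y.2.drop (y.2.length / p.eval y.1.1.length * p.eval y.1.1.length))
  else true :: y.1.1

/-- Majority vote of the trials. -/
def ACoh_O (o : (Str × Str) × Str → Bool) (p : Polynomial ℕ) (y : (Str × Str) × Str) : Bool :=
  decide (6 * y.1.1.length < (List.range (12 * y.1.1.length)).countP fun i =>
    o ((y.1.1, (y.1.2.drop (i * p.eval y.1.1.length)).take (p.eval y.1.1.length)),
      (y.2.drop (i * p.eval y.1.1.length)).take (p.eval y.1.1.length)))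

theorem ACoh_lt {i c K P : ℕ} (hi : i < K) (hc : c < P) : i * P + c < K * P := by
  have h : (i + 1) * P ≤ K * P := Nat.mul_le_mul_right P hi
  rw [Nat.succ_mul] at h
  omega

theorem ACoh_div {i c P : ℕ} (hc : c < P) : (i * P + c) / P = i := by
  rw [Nat.mul_comm, Nat.mul_add_div (by omega), Nat.div_eq_of_lt hc, Nat.add_zero]

theorem ACoh_query {q : (Str × Str) × Str → Str} {p : Polynomial ℕ} {x r l : Str} {i c : ℕ}
    (hi : i < 12 * x.length) (hc : c < p.eval x.length) (hl : l.length = i * p.eval x.length + c) :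
    ACoh_Q q p ((x, r), l) = q ((x, (r.drop (i * p.eval x.length)).take (p.eval x.length)),
      l.drop (i * p.eval x.length)) := by
  unfold ACoh_Q
  dsimp only
  rw [hl, if_pos (ACoh_lt hi hc), ACoh_div hc]

theorem ACoh_drop {A : Str → Bool} {q : (Str × Str) × Str → Str} {p : Polynomial ℕ} {x r : Str}
    {i c : ℕ} (hi : i < 12 * x.length) (hc : c ≤ p.eval x.length) :
    (oans A (ACoh_Q q p) (x, r) (i * p.eval x.length + c)).drop (i * p.eval x.length) =
      oans A q (x, (r.drop (i * p.eval x.length)).take (p.eval x.length)) c :=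
  Orc_drop_oans _ _ fun u hu => ACoh_query hi (by omega) (Orc_length_oans _)

theorem ACoh_blk {r : Str} {i K P : ℕ} (hi : i < K) (hr : K * P ≤ r.length) :
    ∃ s : Fin P → Bool, List.ofFn s = (r.drop (i * P)).take P := by
  have h : (i + 1) * P ≤ K * P := Nat.mul_le_mul_right P hi
  rw [Nat.succ_mul] at h
  have hl : ((r.drop (i * P)).take P).length = P := by
    rw [List.length_take, List.length_drop]
    omega
  generalize (r.drop (i * P)).take P = b at hl
  subst hl
  exact ⟨b.get, List.ofFn_get b⟩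

theorem ACoh_vote {k : ℕ} (f : ℕ → Bool) (a : Bool)
    (h : a ≠ decide (6 * k < (List.range (12 * k)).countP f)) :
    6 * k ≤ (List.range (12 * k)).countP fun i => f i != a := by
  have h1 := List.length_eq_countP_add_countP f (l := List.range (12 * k))
  rw [List.length_range] at h1
  cases a with
  | false =>
    have h2 : 6 * k < (List.range (12 * k)).countP f := by simpa using h
    simpa using h2.le
  | true =>
    have h2 : (List.range (12 * k)).countP f ≤ 6 * k := by simpa using h
    have h3 : ((List.range (12 * k)).countP fun i => f i != true) =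
        (List.range (12 * k)).countP fun i => decide ¬f i = true :=
      List.countP_congr fun i _ => by simp
    omega

/-- A probabilistic autoreduction with exponentially small error that may be run with more coins
and for more steps. -/
theorem Coherent.flex {A : Str → Bool} (h : Coherent A) :
    ∃ (q : (Str × Str) × Str → Str) (o : (Str × Str) × Str → Bool) (p : Polynomial ℕ),
      PT q ∧ PT o ∧ ∀ x,
      (∀ r : Str, p.eval x.length ≤ r.length → ∀ j, q ((x, r), oans A q (x, r) j) ≠ x ∧
        (q ((x, r), oans A q (x, r) j)).length ≤ p.eval x.length) ∧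
      ∀ n j, p.eval x.length ≤ n → p.eval x.length ≤ j → av (fun r : Fin n → Bool =>
        ind (A x ≠ o ((x, List.ofFn r), oans A q (x, List.ofFn r) j))) ≤ 1 / 2 ^ x.length := by
  obtain ⟨q, o, p, hq, ho, h⟩ := h
  have hq' := PT.of_isPolyTime hq
  have ho' := PT.of_isPolyTime ho
  obtain ⟨w, hw⟩ : Small fun y => (q y).length := by fun_prop
  refine ⟨ACoh_Q q p, ACoh_O o p, Polynomial.C 12 * Polynomial.X * p +
    w.comp (Polynomial.C 12 * Polynomial.X + Polynomial.C 3 + Polynomial.C 6 * p +
      Polynomial.C 3 * (Polynomial.C 12 * Polynomial.X * p)) + Polynomial.X + 1,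
    by unfold ACoh_Q; fun_prop, by unfold ACoh_O; fun_prop, fun x => ?_⟩
  simp only [Polynomial.eval_add, Polynomial.eval_comp, Polynomial.eval_mul, Polynomial.eval_C,
    Polynomial.eval_X, Polynomial.eval_one]
  refine ⟨fun r hr j => ⟨?_, ?_⟩, fun n j hn hj => ?_⟩
  · by_cases c : j < 12 * x.length * p.eval x.length
    · have hP : 0 < p.eval x.length := Nat.pos_of_ne_zero fun e => by simp [e] at c
      have hi : j / p.eval x.length < 12 * x.length := (Nat.div_lt_iff_lt_mul hP).2 c
      have hc : j % p.eval x.length < p.eval x.length := Nat.mod_lt _ hP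
      have e : j = j / p.eval x.length * p.eval x.length + j % p.eval x.length :=
        (Nat.div_add_mod' _ _).symm
      generalize j / p.eval x.length = i at hi e
      generalize j % p.eval x.length = u at hc e
      subst e
      obtain ⟨s, hs⟩ := ACoh_blk (r := r) (P := p.eval x.length) hi (by omega)
      rw [ACoh_query hi hc (Orc_length_oans _), ACoh_drop hi hc.le, ← hs]
      exact (h x).1 s u hc
    · have c' : ¬(oans A (ACoh_Q q p) (x, r) j).length < 12 * x.length * p.eval x.length := by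
        rwa [Orc_length_oans]
      generalize oans A (ACoh_Q q p) (x, r) j = l at c'
      unfold ACoh_Q
      rw [if_neg c']
      exact fun e => by simpa using congrArg List.length e
  · generalize oans A (ACoh_Q q p) (x, r) j = l
    unfold ACoh_Q
    dsimp only
    split_ifs with c
    · generalize l.length / p.eval x.length * p.eval x.length = m
      have h0 : ((r.drop m).take (p.eval x.length)).length ≤ p.eval x.length :=
        List.length_take_le _ _
      have h0' : (l.drop m).length ≤ l.length := by rw [List.length_drop]; omega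
      generalize (r.drop m).take (p.eval x.length) = b at h0
      generalize l.drop m = l' at h0'
      have h1 : (q ((x, b), l')).length ≤ w.eval (sz ((x, b), l')) := hw ((x, b), l')
      have h2 : w.eval (sz ((x, b), l')) ≤ w.eval (12 * x.length + 3 + 6 * p.eval x.length +
          3 * (12 * x.length * p.eval x.length)) :=
        eval_mono w (by rw [sz_pair, sz_pair, sz_str, sz_str, sz_str]; omega)
      omega
    · rw [List.length_cons]
      omega
  · have h1 := amplify (P := p.eval x.length) (n := n) (k := x.length)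
      (fun s => o ((x, s), oans A q (x, s) (p.eval x.length)) != A x)
      ((av_mono fun r => le_of_eq (by simp [ind])).trans (av_fail _ (h x).2)) (by omega)
    refine (av_mono fun r => ?_).trans h1
    by_cases c : A x ≠ ACoh_O o p ((x, List.ofFn r), oans A (ACoh_Q q p) (x, List.ofFn r) j)
    · have h2 := ACoh_vote _ _ c
      have h3 : 6 * x.length ≤ (List.range (12 * x.length)).countP fun i =>
          o ((x, ((List.ofFn r).drop (i * p.eval x.length)).take (p.eval x.length)),
            oans A q (x, ((List.ofFn r).drop (i * p.eval x.length)).take (p.eval x.length))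
              (p.eval x.length)) != A x := by
        refine h2.trans (le_of_eq (List.countP_congr fun i hi => ?_))
        have hi' : i < 12 * x.length := List.mem_range.1 hi
        have h4 : (i + 1) * p.eval x.length ≤ 12 * x.length * p.eval x.length :=
          Nat.mul_le_mul_right _ hi'
        rw [Nat.succ_mul] at h4
        dsimp only
        rw [List.take_drop (l := oans A (ACoh_Q q p) (x, List.ofFn r) j),
          Orc_take_oans (by omega), ACoh_drop hi' le_rfl]
      unfold ind
      rw [if_pos c, if_pos h3]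
    · unfold ind
      rw [if_neg c]
      split_ifs <;> norm_num

end Pool.Agent.P.MP_158ebf_lc.AT
end

-- part Pool.Agent.P.MP_158ebf_lc.ACor
section

/-! Sets that are complete for `NP` under randomized Turing reductions are coherent. -/

namespace Pool.Agent.P.MP_158ebf_lc.AT

open Function N487b59b3 N68a2faeb Pool.Agent.Lib.PolyTime

theorem Flex.oracle_trans {α β : Type} [N487b59b3 α] [N487b59b3 β] {A L : Str → Bool} {f : α → β}
    (hf : Flex L f) (hL : Flex A L) : Flex A f := by
  obtain ⟨q, o, n, hq, ho, ⟨p, hp⟩, h⟩ := hf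
  have e : ∀ (a : α) (m : ℕ),
      (fun h : Str => h ++ [L (q (a, h))])^[m] [] = oans L q a m := by
    intro a m
    induction m with
    | zero => rfl
    | succ m ih => rw [iterate_succ_apply', ih, oans]
  have hn : PT fun a : α => p.eval (sz a) := by fun_prop
  have hn' : Small fun a : α => p.eval (sz a) := by fun_prop
  have h1 : Flex A fun a : α =>
      (fun h : Str => h ++ [L (q (a, h))])^[p.eval (sz a)] [] := by
    refine Flex.iterate (F := fun a (h : Str) => h ++ [L (q (a, h))]) hn hn'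
      (Flex.of_pt (PT.const _))
      (Orc_post (f := fun x : α × Str => L (q x)) (g := fun y : (α × Str) × Bool => y.1.2 ++ [y.2])
        (Orc_pre hL hq) (by fun_prop)) ?_
    have h2 : Small fun a : α => 3 * p.eval (sz a) := by fun_prop
    refine (PB.reindex h2 (Prod.fst : α × ℕ → α)).mono fun x => ?_
    rw [e, sz_str, Orc_length_oans]
    exact Nat.mul_le_mul_left 3 (min_le_right _ _)
  refine (Orc_post h1 ho).congr fun a => ?_
  rw [e]
  exact h a _ (hp a)

/-- One step of the search for a witness. -/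
def ACorb_step (R : Str × Str → Bool) (L : Str → Bool) (x u : Str) : Str :=
  if R (x, u) = true then u
  else if L (bitEncode [x, u ++ [false]]) = true then u ++ [false] else u ++ [true]

theorem ACorb_len (R : Str × Str → Bool) (L : Str → Bool) (x : Str) (k : ℕ) :
    ((ACorb_step R L x)^[k] []).length ≤ k := by
  induction k with
  | zero => simp
  | succ k ih =>
    rw [iterate_succ_apply']
    generalize (ACorb_step R L x)^[k] [] = u at ih
    unfold ACorb_step
    split_ifs
    · omega
    · simpa using ih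
    · simpa using ih

theorem ACorb_inv (R : Str × Str → Bool) (L : Str → Bool) (x : Str) (P : ℕ)
    (hL : ∀ u : Str, L (bitEncode [x, u]) = true ↔
      ∃ w : Str, (u ++ w).length ≤ P ∧ R (x, u ++ w) = true)
    (h0 : ∃ w : Str, w.length ≤ P ∧ R (x, w) = true) (k : ℕ) :
    (∃ w : Str, ((ACorb_step R L x)^[k] [] ++ w).length ≤ P ∧
      R (x, (ACorb_step R L x)^[k] [] ++ w) = true) ∧
    (R (x, (ACorb_step R L x)^[k] []) = true ∨ ((ACorb_step R L x)^[k] []).length = k) := by
  induction k with
  | zero => exact ⟨by simpa using h0, Or.inr rfl⟩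
  | succ k ih =>
    rw [iterate_succ_apply']
    generalize (ACorb_step R L x)^[k] [] = u at ih
    obtain ⟨⟨w, hw, hr⟩, h2⟩ := ih
    unfold ACorb_step
    by_cases c1 : R (x, u) = true
    · rw [if_pos c1]
      exact ⟨⟨w, hw, hr⟩, Or.inl c1⟩
    · rw [if_neg c1]
      have hk : u.length = k := h2.resolve_left c1
      by_cases c2 : L (bitEncode [x, u ++ [false]]) = true
      · rw [if_pos c2]
        exact ⟨(hL _).1 c2, Or.inr (by simp [hk])⟩
      · rw [if_neg c2]
        refine ⟨?_, Or.inr (by simp [hk])⟩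
        rcases w with _ | ⟨b, w⟩
        · exact absurd (by simpa using hr) c1
        · cases b
          · exact absurd ((hL _).2 ⟨w, by simpa using hw, by simpa using hr⟩) c2
          · exact ⟨w, by simpa using hw, by simpa using hr⟩

/-- Majority of `12 * k` trials. -/
def ACor_maj (R₀ : Str × Str → Bool) (p₀ : Polynomial ℕ) (k : ℕ) (r z : Str) : Bool :=
  decide (6 * k < (List.range (12 * k)).countP fun i =>
    R₀ (z, (r.drop (i * p₀.eval z.length)).take (p₀.eval z.length)))

theorem ACor_maj_eq {R₀ : Str × Str → Bool} {p₀ : Polynomial ℕ} {k c : ℕ} {r z : Str} {b : Bool}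
    (hc : 12 * k * p₀.eval z.length ≤ c)
    (h : ¬6 * k ≤ (List.range (12 * k)).countP fun i =>
      R₀ (z, (r.drop (i * p₀.eval z.length)).take (p₀.eval z.length)) != b) :
    ACor_maj R₀ p₀ k (r.take c) z = b := by
  unfold ACor_maj
  generalize p₀.eval z.length = P at hc h
  have e : ((List.range (12 * k)).countP fun i => R₀ (z, ((r.take c).drop (i * P)).take P)) =
      (List.range (12 * k)).countP fun i => R₀ (z, (r.drop (i * P)).take P) := by
    refine List.countP_congr fun i hi => ?_
    have h1 : (i + 1) * P ≤ 12 * k * P := Nat.mul_le_mul_right P (List.mem_range.1 hi)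
    rw [Nat.succ_mul] at h1
    rw [List.drop_take, List.take_take, min_eq_left (by omega)]
  rw [e]
  have h2 := List.length_eq_countP_add_countP (l := List.range (12 * k))
    fun i => R₀ (z, (r.drop (i * P)).take P)
  rw [List.length_range] at h2
  cases b
  · simp only [Bool.bne_false] at h
    exact decide_eq_false (by omega)
  · simp only [Bool.bne_true] at h
    simp only [Bool.not_eq_true, Bool.decide_eq_false] at h2
    exact decide_eq_true (by omega)

theorem ACor_iter (R : Str × Str → Bool) (L L' : Str → Bool) (x : Str) (k : ℕ)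
    (h : ∀ i < k, L' (bitEncode [x, (ACorb_step R L x)^[i] [] ++ [false]]) =
      L (bitEncode [x, (ACorb_step R L x)^[i] [] ++ [false]])) :
    (ACorb_step R L' x)^[k] [] = (ACorb_step R L x)^[k] [] := by
  induction k with
  | zero => rfl
  | succ k ih =>
    rw [iterate_succ_apply', iterate_succ_apply', ih fun i hi => h i (by omega)]
    have e := h k (by omega)
    generalize (ACorb_step R L x)^[k] [] = u at e
    unfold ACorb_step
    rw [e]

theorem ACor_ind_mono {p q : Prop} [Decidable p] [Decidable q] (h : p → q) : ind p ≤ ind q := by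
  unfold ind
  split_ifs with h1 h2
  · exact le_rfl
  · exact absurd (h h1) h2
  · exact zero_le_one
  · exact le_rfl

theorem ACor_search {A : Str → Bool} (h : NP ⊆ BPPIn A) (p : Polynomial ℕ)
    {R : Str × Str → Bool} (hR : PT R) :
    ∃ (c : Polynomial ℕ) (g : Str × Str → Str), Flex A g ∧
      ∀ x, (∃ w : Str, w.length ≤ p.eval x.length ∧ R (x, w) = true) →
      ∀ n, c.eval x.length ≤ n → av (fun r : Fin n → Bool => ind
        (¬((g (x, (List.ofFn r).take (c.eval x.length))).length ≤ p.eval x.length ∧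
          R (x, g (x, (List.ofFn r).take (c.eval x.length))) = true))) ≤ 1 / 3 := by
  classical
  let dx : Str → Str := fun z => decStr ((blocks z).headD [])
  let du : Str → Str := fun z => decStr ((blocks z).tail.headD [])
  have hdx : PT dx := by simp only [dx]; fun_prop
  have hdu : PT du := by simp only [du]; fun_prop
  have ex : ∀ x u : Str, dx (bitEncode [x, u]) = x := fun x u => by
    simp only [dx, blocks_enc, List.map_cons, List.headD_cons, decStr_enc]
  have eu : ∀ x u : Str, du (bitEncode [x, u]) = u := fun x u => by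
    simp only [du, blocks_enc, List.map_cons, List.tail_cons, List.headD_cons, decStr_enc]
  clear_value dx du
  let L : Str → Bool := fun z => decide
    (∃ w : Str, (du z ++ w).length ≤ p.eval (dx z).length ∧ R (dx z, du z ++ w) = true)
  have hLNP : L ∈ NP := by
    obtain ⟨q, hq⟩ : Small fun z => p.eval (dx z).length := by fun_prop
    refine mem_NP_of (β := Str)
      (fun z w => (du z ++ w).length ≤ p.eval (dx z).length ∧ R (dx z, du z ++ w) = true) id
      (by fun_prop) PT.id (q.comp (Polynomial.C 3 * Polynomial.X))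
      (fun z w hw => by simp only [L, decide_eq_true_eq]; exact ⟨w, hw⟩) fun z hz => ?_
    simp only [L, decide_eq_true_eq] at hz
    obtain ⟨w, hw, hr⟩ := hz
    refine ⟨w, ?_, hw, hr⟩
    have h1 := hq z
    rw [List.length_append] at hw
    simp only [Polynomial.eval_comp, Polynomial.eval_mul, Polynomial.eval_C, Polynomial.eval_X]
    rw [sz_str] at h1
    dsimp only at h1
    omega
  obtain ⟨p₀, R₀, hR₀, h₀⟩ := h hLNP
  have hF : Flex A R₀ := Flex.of_polyTimeIn hR₀
  have hL : ∀ x u : Str, L (bitEncode [x, u]) = true ↔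
      ∃ w : Str, (u ++ w).length ≤ p.eval x.length ∧ R (x, u ++ w) = true := fun x u => by
    simp only [L, decide_eq_true_eq, ex, eu]
  clear_value L
  have hn : PT fun a : Str × Str => p.eval a.1.length := by fun_prop
  have hn' : Small fun a : Str × Str => p.eval a.1.length := by fun_prop
  have hmaj : Flex A fun y : (Str × Str) × Str =>
      ACor_maj R₀ p₀ (p.eval y.1.1.length + 2) y.1.2 y.2 := by
    have h1 : Flex A fun y : (Str × Str) × Str =>
        (List.range (12 * (p.eval y.1.1.length + 2))).filter fun i =>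
          R₀ (y.2, (y.1.2.drop (i * p₀.eval y.2.length)).take (p₀.eval y.2.length)) :=
      Flex.filter (f := fun (y : (Str × Str) × Str) (i : ℕ) =>
        R₀ (y.2, (y.1.2.drop (i * p₀.eval y.2.length)).take (p₀.eval y.2.length)))
        (Flex.of_pt (by fun_prop)) (Orc_pre hF (by fun_prop))
    refine (Orc_post (g := fun w : ((Str × Str) × Str) × List ℕ =>
      decide (6 * (p.eval w.1.1.1.length + 2) < w.2.length)) h1 (by fun_prop)).congr fun y => ?_
    simp only [ACor_maj, List.countP_eq_length_filter]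
  refine ⟨Polynomial.C 12 * (p + Polynomial.C 2) *
      p₀.comp (Polynomial.C 6 * Polynomial.X + Polynomial.C 6 * p + Polynomial.C 8),
    fun a => (ACorb_step R (ACor_maj R₀ p₀ (p.eval a.1.length + 2) a.2) a.1)^[p.eval a.1.length] [],
    ?_, fun x hx n hc => ?_⟩
  · refine Flex.iterate (F := fun a : Str × Str =>
      ACorb_step R (ACor_maj R₀ p₀ (p.eval a.1.length + 2) a.2) a.1) (s := fun _ => ([] : Str))
      hn hn' (Flex.of_pt (PT.const _)) ?_ ?_
    · unfold ACorb_step
      refine Flex.ite (Flex.of_pt (by fun_prop)) (Flex.of_pt (by fun_prop)) ?_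
      exact Flex.ite (Orc_pre (g := fun y : (Str × Str) × Str =>
        (y.1, bitEncode [y.1.1, y.2 ++ [false]])) hmaj (by fun_prop)) (Flex.of_pt (by fun_prop))
        (Flex.of_pt (by fun_prop))
    · have h1 : Small fun a : Str × Str => 3 * p.eval a.1.length := by fun_prop
      refine (PB.reindex h1 (Prod.fst : (Str × Str) × ℕ → Str × Str)).mono fun y => ?_
      have h2 := ACorb_len R (ACor_maj R₀ p₀ (p.eval y.1.1.length + 2) y.1.2) y.1.1
        (min y.2 (p.eval y.1.1.length))
      rw [sz_str]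
      omega
  · obtain ⟨⟨w, hw, hr⟩, h2⟩ := ACorb_inv R L x _ (hL x) hx (p.eval x.length)
    have h3 : ((ACorb_step R L x)^[p.eval x.length] []).length ≤ p.eval x.length ∧
        R (x, (ACorb_step R L x)^[p.eval x.length] []) = true := by
      generalize (ACorb_step R L x)^[p.eval x.length] [] = u at hw hr h2
      rw [List.length_append] at hw
      refine ⟨by omega, h2.elim id fun h3 => ?_⟩
      have : w = [] := List.length_eq_zero_iff.1 (by omega)
      simpa [this] using hr
    simp only [Polynomial.eval_comp, Polynomial.eval_mul, Polynomial.eval_add, Polynomial.eval_C,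
      Polynomial.eval_X] at hc ⊢
    generalize p.eval x.length = m at hc h3
    let z : ℕ → Str := fun i => bitEncode [x, (ACorb_step R L x)^[i] [] ++ [false]]
    have hz : ∀ i < m, 12 * (m + 2) * p₀.eval (z i).length ≤
        12 * (m + 2) * p₀.eval (6 * x.length + 6 * m + 8) := fun i hi => by
      refine Nat.mul_le_mul_left _ (eval_mono p₀ ?_)
      have h4 := ACorb_len R L x i
      change sz [x, (ACorb_step R L x)^[i] [] ++ [false]] ≤ _
      rw [sz_cons, sz_cons, sz_nil, sz_str, sz_str, List.length_append, List.length_singleton]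
      omega
    generalize 12 * (m + 2) * p₀.eval (6 * x.length + 6 * m + 8) = c at hc hz
    have h5 := av_union (s := m) (ε := 1 / 2 ^ (m + 2)) (fun i (r : Fin n → Bool) =>
      6 * (m + 2) ≤ (List.range (12 * (m + 2))).countP fun j => R₀ (z i, ((List.ofFn r).drop
        (j * p₀.eval (z i).length)).take (p₀.eval (z i).length)) != L (z i)) fun i hi =>
      amplify (fun s => R₀ (z i, s) != L (z i))
        (le_trans (av_mono fun r => ACor_ind_mono (by simp)) (av_fail _ (h₀ (z i))))
        ((hz i hi).trans hc)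
    refine le_trans (av_mono fun r => ACor_ind_mono fun h6 => ?_) (h5.trans ?_)
    · by_contra h7
      refine h6 ?_
      rw [ACor_iter R L _ x m fun i hi => ACor_maj_eq (hz i hi) fun h8 => h7 ⟨i, hi, h8⟩]
      exact h3
    · have h6 : (m : ℚ) < 2 ^ m := by exact_mod_cast Nat.lt_two_pow_self
      rw [mul_one_div, div_le_div_iff₀ (by positivity) (by norm_num), pow_add]
      linarith [(Nat.cast_nonneg m : (0 : ℚ) ≤ m)]

/-- Rewrite to `true` the answers at the steps whose query was the input itself. -/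
def ACor_fix (q : (Str × Str) × Str → Str) (a : Str × Str) (h : Str) : Str :=
  h.foldl (fun acc b => acc ++ [if q (a, acc) = a.1 then true else b]) []

theorem coherent_of_complete {A : Str → Bool} (hA : A ∈ NP) (h : NP ⊆ BPPIn A) : Coherent A := by
  obtain ⟨p, R, hR, hA⟩ := mem_NP_iff.1 hA
  obtain ⟨c, g, ⟨q, o, n, hq, ho, ⟨P, hP⟩, hg⟩, hw⟩ := ACor_search h p hR
  have hfix : PT fun y : (Str × Str) × Str => ACor_fix q y.1 y.2 := by
    unfold ACor_fix
    exact PT.foldl_growth (f := fun (y : (Str × Str) × Str) (acc : Str) (b : Bool) =>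
      acc ++ [if q (y.1, acc) = y.1.1 then true else b]) (by fun_prop) (PT.const _) (by fun_prop)
      (fun _ => 3) (PB.const 3) fun _ s b => by simp
  let q1 : (Str × Str) × Str → Str := fun y =>
    if q (y.1, ACor_fix q y.1 y.2) = y.1.1 then true :: y.1.1 else q (y.1, ACor_fix q y.1 y.2)
  let o1 : (Str × Str) × Str → Bool := fun y =>
    decide ((o (y.1, ACor_fix q y.1 y.2)).length ≤ p.eval y.1.1.length) &&
      R (y.1.1, o (y.1, ACor_fix q y.1 y.2))
  have hq1 : PT q1 := by simp only [q1]; fun_prop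
  have ho1 : PT o1 := by simp only [o1]; fun_prop
  have key : ∀ a : Str × Str, A a.1 = true → ∀ j, ACor_fix q a (oans A q1 a j) = oans A q a j := by
    intro a hx j
    induction j with
    | zero => rfl
    | succ j ih =>
      have e : ∀ (l : Str) (b : Bool), ACor_fix q a (l ++ [b]) =
          ACor_fix q a l ++ [if q (a, ACor_fix q a l) = a.1 then true else b] := fun l b => by
        simp [ACor_fix]
      rw [oans, oans, e]
      simp only [q1, ih]
      by_cases c : q (a, oans A q a j) = a.1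
      · simp only [c, if_true, hx]
      · simp only [c, if_false]
  have k1 : ∀ y, q1 y ≠ y.1.1 := fun y => by
    simp only [q1]
    split_ifs with c
    · exact fun e => by simpa using congrArg List.length e
    · exact c
  have k2 : ∀ y, o1 y = true → A y.1.1 = true := fun y hc => by
    simp only [o1, Bool.and_eq_true, decide_eq_true_eq] at hc
    exact (hA _).2 ⟨_, hc⟩
  have k3 : ∀ (a : Str × Str) (m : ℕ), A a.1 = true → n a ≤ m →
      (g a).length ≤ p.eval a.1.length ∧ R (a.1, g a) = true → o1 (a, oans A q1 a m) = true :=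
    fun a m hx hm h1 => by
      simp only [o1, key a hx, ← hg a m hm, Bool.and_eq_true, decide_eq_true_eq]
      exact h1
  clear_value q1 o1
  let t : (Str × Str) × Str → (Str × Str) × Str := fun y =>
    ((y.1.1, y.1.2.take (c.eval y.1.1.length)), y.2)
  have ht : PT t := by simp only [t]; fun_prop
  refine ⟨fun y => q1 (t y), fun y => o1 (t y), c + P.comp
    (Polynomial.C 6 * Polynomial.X + Polynomial.C 1 + Polynomial.C 3 * c),
    (hq1.comp ht).isPolyTime, (ho1.comp ht).isPolyTime, fun x => ⟨fun r j _ => k1 _, ?_⟩⟩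
  have hm : ∀ r : Str, n (x, r.take (c.eval x.length)) ≤ (c + P.comp
      (Polynomial.C 6 * Polynomial.X + Polynomial.C 1 + Polynomial.C 3 * c)).eval x.length :=
    fun r => by
      simp only [Polynomial.eval_comp, Polynomial.eval_mul, Polynomial.eval_add, Polynomial.eval_C,
        Polynomial.eval_X]
      refine (hP _).trans ((eval_mono P ?_).trans (Nat.le_add_left _ _))
      have h1 := List.length_take_le (c.eval x.length) r
      rw [sz_pair, sz_str, sz_str]
      omega
  have hc : c.eval x.length ≤ (c + P.comp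
      (Polynomial.C 6 * Polynomial.X + Polynomial.C 1 + Polynomial.C 3 * c)).eval x.length := by
    rw [Polynomial.eval_add]
    exact Nat.le_add_right _ _
  generalize (c + P.comp
    (Polynomial.C 6 * Polynomial.X + Polynomial.C 1 + Polynomial.C 3 * c)).eval x.length = m
    at hm hc
  refine le_card_of_av _ ?_
  cases hx : A x
  · refine le_trans (av_mono (g := fun _ => 0) fun r => ?_) (by rw [av_const]; norm_num)
    refine (if_neg fun h1 => h1 ?_).le
    rw [← Bool.not_eq_true]
    intro h2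
    have h3 := k2 _ h2
    simp [t, hx] at h3
  · have h0 := hw x ((hA x).1 hx) m hc
    refine le_trans (av_mono fun r => ?_) h0
    refine ACor_ind_mono fun h1 h2 => h1 ?_
    rw [Orc_oans_congr (O := A) (q := fun y => q1 (t y)) (a := (x, List.ofFn r)) (q' := q1)
      (b := (x, (List.ofFn r).take (c.eval x.length))) m fun _ _ => rfl]
    exact k3 _ m hx (hm _) h2

theorem expIn_of_inEXP {L : Str → Bool} (h : InEXP L) (A : Str → Bool) : L ∈ EXPIn A := by
  obtain ⟨c, R, hR, h⟩ := h
  have h1 := PT.of_isPolyTime hR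
  have h2 : PT fun y : Str × Str => R (y.1, List.replicate y.2.length true) := by fun_prop
  refine ⟨c, _, h2.isPolyTime, fun x => ?_⟩
  have e : ∀ N, (chi A N).length = N := fun N => by simp [chi]
  rw [h x, e]

end Pool.Agent.P.MP_158ebf_lc.AT
end

-- part Pool.Agent.P.MP_158ebf_lc.ACurve
section

/-! List decoding along random curves. -/

namespace Pool.Agent.P.MP_158ebf_lc.AT

open Function Finset Polynomial

variable {q m : ℕ} [Fact q.Prime]

/-- Correlation of `ψ` along the curve `u + τ a + τ ^ 2 b` with the code word of `π`. -/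
noncomputable def corF (ψ : (Fin m → ZMod q) → ZMod q → ZMod q → ℚ) (u a b : Fin m → ZMod q)
    (π : (ZMod q)[X]) : ℚ :=
  av fun p : (ZMod q)ˣ × ZMod q × ZMod q =>
    ψ (fun i => u i + p.1 * a i + (p.1 : ZMod q) ^ 2 * b i) p.2.1 p.2.2 *
      chr (π.eval (p.1 : ZMod q) * p.2.1 + p.2.2)

variable {ψ : (Fin m → ZMod q) → ZMod q → ZMod q → ℚ} {p : (Fin m → ZMod q) → ZMod q} {R : ℕ}

theorem ACurvea_card : (Fintype.card (ZMod q)ˣ : ℚ) = (q : ℚ) - 1 := by
  have h : 1 ≤ q := (Fact.out : q.Prime).one_le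
  rw [ZMod.card_units q, Nat.cast_sub h, Nat.cast_one]

omit [Fact q.Prime] in
theorem ACurvea_big (hq : 64 * (m + 1) * R ^ 2 < q) :
    64 * ((m : ℚ) + 1) * (R : ℚ) ^ 2 ≤ (q : ℚ) - 1 := by
  have h : 64 * (m + 1) * R ^ 2 + 1 ≤ q := hq
  have h' : ((64 * (m + 1) * R ^ 2 + 1 : ℕ) : ℚ) ≤ q := by exact_mod_cast h
  push_cast at h'
  linarith

theorem ACurvea_roots {π π' : (ZMod q)[X]} (h : π ≠ π') (h1 : π.natDegree ≤ 2 * m)
    (h2 : π'.natDegree ≤ 2 * m) :
    av (fun τ : (ZMod q)ˣ => ind (π.eval (τ : ZMod q) = π'.eval (τ : ZMod q))) ≤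
      2 * m / ((q : ℚ) - 1) := by
  have hne : π - π' ≠ 0 := sub_ne_zero.mpr h
  have hdeg : (π - π').natDegree ≤ 2 * m := (natDegree_sub_le _ _).trans (max_le h1 h2)
  have hc : (univ.filter fun τ : (ZMod q)ˣ =>
      π.eval (τ : ZMod q) = π'.eval (τ : ZMod q)).card ≤ 2 * m := by
    refine le_trans ?_ ((Multiset.toFinset_card_le _).trans ((card_roots' (π - π')).trans hdeg))
    refine Finset.card_le_card_of_injOn (fun τ => (τ : ZMod q)) ?_ ?_
    · intro τ hτ
      have hτ' := (mem_filter.mp hτ).2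
      simp only [mem_coe, Multiset.mem_toFinset]
      rw [mem_roots hne, IsRoot.def, eval_sub, hτ', sub_self]
    · intro x _ y _ hxy
      exact Units.ext hxy
  have hq1 : (0 : ℚ) ≤ (q : ℚ) - 1 := by
    rw [← ACurvea_card]; positivity
  unfold av
  rw [ACurvea_card]
  refine div_le_div_of_nonneg_right ?_ hq1
  unfold ind
  rw [Finset.sum_boole]
  exact_mod_cast hc

theorem ACurvea_abs_av {Ω : Type} [Fintype Ω] [Nonempty Ω] {f : Ω → ℚ} (h : ∀ ω, |f ω| ≤ 1) :
    |av f| ≤ 1 := by
  rw [abs_le]
  constructor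
  · rw [← av_const (Ω := Ω) (-1)]
    exact av_mono fun ω => (abs_le.mp (h ω)).1
  · rw [← av_const (Ω := Ω) 1]
    exact av_mono fun ω => (abs_le.mp (h ω)).2

/-- The list of polynomials with large correlation is short. -/
theorem list_short (hψ : ∀ x y y', |ψ x y y'| ≤ 1) (hR : 0 < R) (hq : 64 * (m + 1) * R ^ 2 < q)
    (u a b : Fin m → ZMod q) (S : Finset (ZMod q)[X])
    (hS : ∀ π ∈ S, π.natDegree ≤ 2 * m ∧ 1 / (R : ℚ) ≤ corF ψ u a b π) :
    S.card ≤ 2 * R ^ 2 := by
  have hR' : (0 : ℚ) < R := by exact_mod_cast hR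
  have hR1 : (1 : ℚ) ≤ R := by exact_mod_cast hR
  have hb := ACurvea_big hq
  have hm : (0 : ℚ) ≤ m := by positivity
  have hR2 : (1 : ℚ) ≤ (R : ℚ) ^ 2 := one_le_pow₀ hR1
  have hq0 : (0 : ℚ) < (q : ℚ) - 1 := by nlinarith
  have hg : 2 * m / ((q : ℚ) - 1) + 1 / (q : ℚ) ^ 2 ≤ 1 / (2 * (R : ℚ) ^ 2) := by
    have e1 : 2 * m / ((q : ℚ) - 1) ≤ 1 / (4 * (R : ℚ) ^ 2) := by
      rw [div_le_div_iff₀ hq0 (by positivity)]
      nlinarith
    have e2 : 1 / (q : ℚ) ^ 2 ≤ 1 / (4 * (R : ℚ) ^ 2) := by
      refine one_div_le_one_div_of_le (by positivity) ?_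
      have e3 : 4 * (R : ℚ) ^ 2 ≤ q := by nlinarith
      nlinarith
    have e3 : 1 / (2 * (R : ℚ) ^ 2) = 1 / (4 * (R : ℚ) ^ 2) + 1 / (4 * (R : ℚ) ^ 2) := by
      field_simp
      norm_num
    linarith
  have key := johnson (Ω := (ZMod q)ˣ × ZMod q × ZMod q) S
    (fun π p => chr (π.eval (p.1 : ZMod q) * p.2.1 + p.2.2))
    (fun p => ψ (fun i => u i + p.1 * a i + (p.1 : ZMod q) ^ 2 * b i) p.2.1 p.2.2)
    (1 / (R : ℚ)) (1 / (2 * (R : ℚ) ^ 2)) (by positivity) (by positivity)
    (le_of_eq (by field_simp)) (fun _ => hψ _ _ _) (fun _ _ _ => (abs_chr _).le)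
    (by
      intro π hπ π' hπ' hne
      refine le_trans ?_ hg
      rw [av_prod]
      refine le_trans (av_mono (g := fun τ : (ZMod q)ˣ =>
        ind (π.eval (τ : ZMod q) = π'.eval (τ : ZMod q)) + 1 / (q : ℚ) ^ 2) ?_) ?_
      · intro τ
        by_cases hτ : π.eval (τ : ZMod q) = π'.eval (τ : ZMod q)
        · have e1 : ind (π.eval (τ : ZMod q) = π'.eval (τ : ZMod q)) = 1 := by
            unfold ind; rw [if_pos hτ]
          have e2 : (0 : ℚ) ≤ 1 / (q : ℚ) ^ 2 := by positivity
          rw [e1]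
          refine le_trans (le_trans (le_abs_self _) (ACurvea_abs_av ?_)) (by linarith)
          intro y
          rw [abs_mul, abs_chr, abs_chr, one_mul]
        · have e1 := ind_nonneg (π.eval (τ : ZMod q) = π'.eval (τ : ZMod q))
          have e2 := av_chr_mul hτ
          exact le_trans e2 (by linarith)
      · rw [av_add, av_const]
        have := ACurvea_roots hne (hS π hπ).1 (hS π' hπ').1
        linarith)
    (fun π hπ => (hS π hπ).2)
  have e : 2 / (1 / (R : ℚ)) ^ 2 = ((2 * R ^ 2 : ℕ) : ℚ) := by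
    push_cast
    field_simp
  rw [e] at key
  exact_mod_cast key

/-- The increment of the curve at the parameter `τ`. -/
def ACurvea_inc (m : ℕ) (τ : ZMod q) :
    (Fin m → ZMod q) × (Fin m → ZMod q) →+ (Fin m → ZMod q) where
  toFun w := fun i => τ * w.1 i + τ ^ 2 * w.2 i
  map_zero' := by
    funext i
    simp
  map_add' := by
    intro x y
    funext i
    simp only [Prod.fst_add, Prod.snd_add, Pi.add_apply]
    ring

theorem ACurvea_surj (τ : (ZMod q)ˣ) : Surjective (ACurvea_inc m (τ : ZMod q)) := by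
  intro s
  refine ⟨(fun i => (τ : ZMod q)⁻¹ * s i, 0), ?_⟩
  funext i
  have h : (τ : ZMod q) ≠ 0 := τ.ne_zero
  show (τ : ZMod q) * ((τ : ZMod q)⁻¹ * s i) + (τ : ZMod q) ^ 2 * 0 = s i
  field_simp
  ring

theorem ACurvea_surj2 {τ σ : (ZMod q)ˣ} (h : τ ≠ σ) :
    Surjective ((ACurvea_inc m (τ : ZMod q)).prod (ACurvea_inc m (σ : ZMod q))) := by
  rintro ⟨s, t⟩
  have h1 : (τ : ZMod q) ≠ 0 := τ.ne_zero
  have h2 : (σ : ZMod q) ≠ 0 := σ.ne_zero
  have h3 : (τ : ZMod q) - σ ≠ 0 := sub_ne_zero.mpr fun e => h (Units.ext e)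
  refine ⟨(fun i => s i / τ - τ * ((s i / τ - t i / σ) / ((τ : ZMod q) - σ)),
    fun i => (s i / τ - t i / σ) / ((τ : ZMod q) - σ)), ?_⟩
  refine Prod.ext ?_ ?_
  · funext i
    show (τ : ZMod q) * (s i / τ - τ * ((s i / τ - t i / σ) / ((τ : ZMod q) - σ))) +
      (τ : ZMod q) ^ 2 * ((s i / τ - t i / σ) / ((τ : ZMod q) - σ)) = s i
    field_simp
    ring
  · funext i
    show (σ : ZMod q) * (s i / τ - τ * ((s i / τ - t i / σ) / ((τ : ZMod q) - σ))) +
      (σ : ZMod q) ^ 2 * ((s i / τ - t i / σ) / ((τ : ZMod q) - σ)) = t i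
    field_simp
    ring

open Classical in
/-- On most curves through `u` the true polynomial keeps its correlation. -/
theorem curve_cheb (hψ : ∀ x y y', |ψ x y y'| ≤ 1) (hR : 0 < R) (hq : 64 * (m + 1) * R ^ 2 < q)
    (hc : 2 / (R : ℚ) ≤ av fun x : (Fin m → ZMod q) × ZMod q × ZMod q =>
      ψ x.1 x.2.1 x.2.2 * chr (p x.1 * x.2.1 + x.2.2)) (u : Fin m → ZMod q) :
    av (fun w : (Fin m → ZMod q) × (Fin m → ZMod q) => ind (∃ π : (ZMod q)[X],
      (∀ τ, π.eval τ = p fun i => u i + τ * w.1 i + τ ^ 2 * w.2 i) ∧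
        corF ψ u w.1 w.2 π < 1 / (R : ℚ))) ≤ 1 / 16 := by
  have hR' : (0 : ℚ) < R := by exact_mod_cast hR
  have hR1 : (1 : ℚ) ≤ R := by exact_mod_cast hR
  have hb := ACurvea_big hq
  have hm : (0 : ℚ) ≤ m := by positivity
  have hR2 : (1 : ℚ) ≤ (R : ℚ) ^ 2 := one_le_pow₀ hR1
  have hq0 : (0 : ℚ) < (q : ℚ) - 1 := by nlinarith
  obtain ⟨G, hG⟩ : ∃ G : (Fin m → ZMod q) → ℚ, ∀ x, G x =
      av fun y : ZMod q × ZMod q => ψ x y.1 y.2 * chr (p x * y.1 + y.2) := ⟨_, fun _ => rfl⟩
  have hμ : 2 / (R : ℚ) ≤ av G := by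
    rw [av_prod] at hc
    have e : G = fun x => av fun y : ZMod q × ZMod q => ψ x y.1 y.2 * chr (p x * y.1 + y.2) :=
      funext hG
    rw [e]
    exact hc
  have hG1 : ∀ x, |G x| ≤ 1 := by
    intro x
    rw [hG]
    refine ACurvea_abs_av fun y => ?_
    rw [abs_mul, abs_chr, mul_one]
    exact hψ _ _ _
  have key := cheb (ι := (ZMod q)ˣ) (Ω := (Fin m → ZMod q) × (Fin m → ZMod q))
    (fun τ w => G (ACurvea_inc m (τ : ZMod q) w + u)) (av G) (1 / (R : ℚ)) (by positivity)
    (fun τ => av_hom _ (ACurvea_surj τ) u G) (fun _ _ => hG1 _)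
    (by
      intro τ σ h
      have e := av_hom _ (ACurvea_surj2 (m := m) h) (u, u) fun x => G x.1 * G x.2
      rw [av_prod_mul] at e
      rw [pow_two, ← e]
      rfl)
  rw [ACurvea_card] at key
  refine le_trans (av_mono fun w => ?_) (key.trans ?_)
  · by_cases hw : ∃ π : (ZMod q)[X],
      (∀ τ, π.eval τ = p fun i => u i + τ * w.1 i + τ ^ 2 * w.2 i) ∧
        corF ψ u w.1 w.2 π < 1 / (R : ℚ)
    · have hlt : av (fun τ : (ZMod q)ˣ => G (ACurvea_inc m (τ : ZMod q) w + u)) <
          av G - 1 / (R : ℚ) := by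
        obtain ⟨π, h1, h2⟩ := hw
        have e : corF ψ u w.1 w.2 π =
            av fun τ : (ZMod q)ˣ => G (ACurvea_inc m (τ : ZMod q) w + u) := by
          unfold corF
          rw [av_prod]
          congr 1
          funext τ
          have e1 : ACurvea_inc m (τ : ZMod q) w + u =
              fun i => u i + τ * w.1 i + (τ : ZMod q) ^ 2 * w.2 i := by
            funext i
            show (τ : ZMod q) * w.1 i + (τ : ZMod q) ^ 2 * w.2 i + u i = _
            ring
          rw [hG, e1]
          simp only [h1]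
        have e2 : 2 / (R : ℚ) = 1 / (R : ℚ) + 1 / (R : ℚ) := by ring
        rw [← e]
        linarith
      unfold ind
      rw [if_pos hw, if_pos hlt]
    · have e : ind (∃ π : (ZMod q)[X],
        (∀ τ, π.eval τ = p fun i => u i + τ * w.1 i + τ ^ 2 * w.2 i) ∧
          corF ψ u w.1 w.2 π < 1 / (R : ℚ)) = 0 := by
        unfold ind
        rw [if_neg hw]
      rw [e]
      exact ind_nonneg _
  · refine one_div_le_one_div_of_le (by norm_num) ?_
    have e : ((q : ℚ) - 1) * (1 / (R : ℚ)) ^ 2 = ((q : ℚ) - 1) / (R : ℚ) ^ 2 := by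
      field_simp
    rw [e, le_div_iff₀ (by positivity)]
    nlinarith

/-- Some member of the list meets the true value at `τ` and misses it at `0`. -/
def ACurveb_E (ψ : (Fin m → ZMod q) → ZMod q → ZMod q → ℚ) (p : (Fin m → ZMod q) → ZMod q) (R : ℕ)
    (u : Fin m → ZMod q) (τ : ZMod q) (w : (Fin m → ZMod q) × (Fin m → ZMod q)) : Prop :=
  ∃ π : (ZMod q)[X], π.natDegree ≤ 2 * m ∧ 1 / (R : ℚ) ≤ corF ψ u w.1 w.2 π ∧
    π.eval τ = p (fun i => u i + τ * w.1 i + τ ^ 2 * w.2 i) ∧ π.eval 0 ≠ p u

/-- Rescaling of the curve. -/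
def ACurveb_sc (τ : (ZMod q)ˣ) :
    (Fin m → ZMod q) × (Fin m → ZMod q) ≃ (Fin m → ZMod q) × (Fin m → ZMod q) where
  toFun w := (fun i => (τ : ZMod q) * w.1 i, fun i => (τ : ZMod q) ^ 2 * w.2 i)
  invFun w := (fun i => ((τ⁻¹ : (ZMod q)ˣ) : ZMod q) * w.1 i,
    fun i => ((τ⁻¹ : (ZMod q)ˣ) : ZMod q) ^ 2 * w.2 i)
  left_inv w := by
    have h : ((τ⁻¹ : (ZMod q)ˣ) : ZMod q) * (τ : ZMod q) = 1 := Units.inv_mul τ
    refine Prod.ext (funext fun i => ?_) (funext fun i => ?_)
    · show ((τ⁻¹ : (ZMod q)ˣ) : ZMod q) * ((τ : ZMod q) * w.1 i) = w.1 i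
      rw [← mul_assoc, h, one_mul]
    · show ((τ⁻¹ : (ZMod q)ˣ) : ZMod q) ^ 2 * ((τ : ZMod q) ^ 2 * w.2 i) = w.2 i
      rw [← mul_assoc, ← mul_pow, h, one_pow, one_mul]
  right_inv w := by
    have h : (τ : ZMod q) * ((τ⁻¹ : (ZMod q)ˣ) : ZMod q) = 1 := Units.mul_inv τ
    refine Prod.ext (funext fun i => ?_) (funext fun i => ?_)
    · show (τ : ZMod q) * (((τ⁻¹ : (ZMod q)ˣ) : ZMod q) * w.1 i) = w.1 i
      rw [← mul_assoc, h, one_mul]
    · show (τ : ZMod q) ^ 2 * (((τ⁻¹ : (ZMod q)ˣ) : ZMod q) ^ 2 * w.2 i) = w.2 i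
      rw [← mul_assoc, ← mul_pow, h, one_pow, one_mul]

theorem ACurveb_cor (u a b : Fin m → ZMod q) (τ : (ZMod q)ˣ) (π : (ZMod q)[X]) :
    corF ψ u a b (π.comp (C ((τ⁻¹ : (ZMod q)ˣ) : ZMod q) * Polynomial.X)) =
      corF ψ u (fun i => (τ : ZMod q) * a i) (fun i => (τ : ZMod q) ^ 2 * b i) π := by
  unfold corF
  rw [← av_equiv ((Equiv.mulLeft τ).prodCongr (Equiv.refl (ZMod q × ZMod q)))]
  congr 1
  funext x
  have h : ((τ⁻¹ : (ZMod q)ˣ) : ZMod q) * ((τ : ZMod q) * (x.1 : ZMod q)) = x.1 := by
    rw [← mul_assoc, Units.inv_mul, one_mul]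
  have h2 : (fun i => u i + (τ : ZMod q) * (x.1 : ZMod q) * a i +
      ((τ : ZMod q) * (x.1 : ZMod q)) ^ 2 * b i) =
      fun i => u i + (x.1 : ZMod q) * ((τ : ZMod q) * a i) +
        (x.1 : ZMod q) ^ 2 * ((τ : ZMod q) ^ 2 * b i) := by
    funext i
    ring
  simp only [Equiv.prodCongr_apply, Prod.map_fst, Prod.map_snd, Equiv.coe_mulLeft,
    Equiv.coe_refl, id_eq, Units.val_mul, eval_comp, eval_mul, eval_C, eval_X, h, h2]

theorem ACurveb_move (u : Fin m → ZMod q) (τ : (ZMod q)ˣ)
    (w : (Fin m → ZMod q) × (Fin m → ZMod q))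
    (h : ∃ π : (ZMod q)[X], π.natDegree ≤ 2 * m ∧
      1 / (R : ℚ) ≤ corF ψ u (ACurveb_sc τ w).1 (ACurveb_sc τ w).2 π ∧
        π.eval 1 = p (fun i => u i + (ACurveb_sc τ w).1 i + (ACurveb_sc τ w).2 i) ∧
          π.eval 0 ≠ p u) : ACurveb_E ψ p R u τ w := by
  obtain ⟨π, h1, h2, h3, h4⟩ := h
  refine ⟨π.comp (C ((τ⁻¹ : (ZMod q)ˣ) : ZMod q) * Polynomial.X), ?_, ?_, ?_, ?_⟩
  · refine natDegree_comp_le.trans ?_
    have h5 : (C ((τ⁻¹ : (ZMod q)ˣ) : ZMod q) * Polynomial.X).natDegree ≤ 1 := by
      exact (natDegree_C_mul_le _ _).trans natDegree_X_le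
    calc _ ≤ 2 * m * 1 := Nat.mul_le_mul h1 h5
      _ = 2 * m := by ring
  · rw [ACurveb_cor]
    exact h2
  · rw [eval_comp, eval_mul, eval_C, eval_X, Units.inv_mul]
    exact h3
  · rw [eval_comp, eval_mul, eval_C, eval_X, mul_zero]
    exact h4

open Classical in
theorem ACurveb_fix (hψ : ∀ x y y', |ψ x y y'| ≤ 1) (hR : 0 < R)
    (hq : 64 * (m + 1) * R ^ 2 < q)
    (hp : ∀ u a b : Fin m → ZMod q, ∃ π : (ZMod q)[X], π.natDegree ≤ 2 * m ∧
      ∀ τ, π.eval τ = p fun i => u i + τ * a i + τ ^ 2 * b i) (u : Fin m → ZMod q)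
    (w : (Fin m → ZMod q) × (Fin m → ZMod q)) :
    av (fun τ : (ZMod q)ˣ => ind (ACurveb_E ψ p R u τ w)) ≤ 1 / 16 := by
  obtain ⟨π₀, d0, e0⟩ := hp u w.1 w.2
  have z0 : π₀.eval 0 = p u := by
    rw [e0]
    congr 1
    funext i
    simp
  set G : Finset (ZMod q)ˣ := univ.filter fun τ : (ZMod q)ˣ => ACurveb_E ψ p R u τ w with hG
  have hf : ∀ τ : (ZMod q)ˣ, ∃ π : (ZMod q)[X], τ ∈ G → π.natDegree ≤ 2 * m ∧
      1 / (R : ℚ) ≤ corF ψ u w.1 w.2 π ∧ π.eval (τ : ZMod q) = π₀.eval (τ : ZMod q) ∧
        π.eval 0 ≠ π₀.eval 0 := by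
    intro τ
    by_cases h : τ ∈ G
    · obtain ⟨π, h1, h2, h3, h4⟩ := (mem_filter.1 h).2
      exact ⟨π, fun _ => ⟨h1, h2, by rw [h3, e0], by rw [z0]; exact h4⟩⟩
    · exact ⟨0, fun h' => absurd h' h⟩
  choose f hf using hf
  have hS : (G.image f).card ≤ 2 * R ^ 2 := by
    refine list_short hψ hR hq u w.1 w.2 _ fun π hπ => ?_
    obtain ⟨τ, hτ, rfl⟩ := mem_image.1 hπ
    exact ⟨(hf τ hτ).1, (hf τ hτ).2.1⟩
  have hfib : ∀ π ∈ G.image f, (G.filter fun τ => f τ = π).card ≤ 2 * m := by
    intro π hπ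
    obtain ⟨σ, hσ, rfl⟩ := mem_image.1 hπ
    have hne : f σ - π₀ ≠ 0 := by
      intro h
      exact (hf σ hσ).2.2.2 (by rw [sub_eq_zero.1 h])
    have hd : (f σ - π₀).natDegree ≤ 2 * m :=
      (natDegree_sub_le _ _).trans (max_le (hf σ hσ).1 d0)
    calc _ ≤ (f σ - π₀).roots.toFinset.card := by
          refine card_le_card_of_injOn (fun τ : (ZMod q)ˣ => (τ : ZMod q)) ?_ ?_
          · intro τ hτ
            have hτ' := mem_filter.1 (mem_coe.1 hτ)
            refine mem_coe.2 (Multiset.mem_toFinset.2 ((mem_roots hne).2 ?_))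
            rw [IsRoot.def, eval_sub, ← hτ'.2, (hf τ hτ'.1).2.2.1, sub_self]
          · intro τ _ τ' _ h
            exact Units.ext h
      _ ≤ Multiset.card (f σ - π₀).roots := Multiset.toFinset_card_le _
      _ ≤ (f σ - π₀).natDegree := card_roots' _
      _ ≤ 2 * m := hd
  have hc : G.card ≤ 2 * m * (2 * R ^ 2) :=
    (card_le_mul_card_image G (2 * m) hfib).trans (Nat.mul_le_mul_left _ hS)
  have hs : (∑ τ : (ZMod q)ˣ, ind (ACurveb_E ψ p R u τ w)) = (G.card : ℚ) := by
    simp only [ind, hG, sum_boole]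
  have hk : 16 * G.card ≤ Fintype.card (ZMod q)ˣ := by
    rw [ZMod.card_units]
    have h1 : 64 * (m + 1) * R ^ 2 = 16 * (2 * m * (2 * R ^ 2)) + 64 * R ^ 2 := by ring
    omega
  have hpos : (0 : ℚ) < Fintype.card (ZMod q)ˣ := by exact_mod_cast Fintype.card_pos
  unfold av
  rw [hs, div_le_div_iff₀ hpos (by norm_num)]
  have hk' : (16 : ℚ) * G.card ≤ Fintype.card (ZMod q)ˣ := by exact_mod_cast hk
  linarith

open Classical in
/-- On most curves through `u` no two members of the list agree at the parameter `1`. -/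
theorem curve_uniq (hψ : ∀ x y y', |ψ x y y'| ≤ 1) (hR : 0 < R) (hq : 64 * (m + 1) * R ^ 2 < q)
    (hp : ∀ u a b : Fin m → ZMod q, ∃ π : (ZMod q)[X], π.natDegree ≤ 2 * m ∧
      ∀ τ, π.eval τ = p fun i => u i + τ * a i + τ ^ 2 * b i) (u : Fin m → ZMod q) :
    av (fun w : (Fin m → ZMod q) × (Fin m → ZMod q) => ind (∃ π : (ZMod q)[X],
      π.natDegree ≤ 2 * m ∧ 1 / (R : ℚ) ≤ corF ψ u w.1 w.2 π ∧
        π.eval 1 = p (fun i => u i + w.1 i + w.2 i) ∧ π.eval 0 ≠ p u)) ≤ 1 / 16 := by
  have h1 : ∀ τ : (ZMod q)ˣ,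
      av (fun w : (Fin m → ZMod q) × (Fin m → ZMod q) => ind (∃ π : (ZMod q)[X],
        π.natDegree ≤ 2 * m ∧ 1 / (R : ℚ) ≤ corF ψ u w.1 w.2 π ∧
          π.eval 1 = p (fun i => u i + w.1 i + w.2 i) ∧ π.eval 0 ≠ p u)) ≤
        av fun w : (Fin m → ZMod q) × (Fin m → ZMod q) => ind (ACurveb_E ψ p R u τ w) := by
    intro τ
    rw [← av_equiv (ACurveb_sc τ)]
    refine av_mono fun w => ?_
    unfold ind
    split_ifs with ha hb
    · exact le_rfl
    · exact absurd (ACurveb_move u τ w ha) hb
    · norm_num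
    · exact le_rfl
  obtain ⟨τ, hτ⟩ := exists_le_av fun τ : (ZMod q)ˣ =>
    av fun w : (Fin m → ZMod q) × (Fin m → ZMod q) => ind (ACurveb_E ψ p R u τ w)
  refine (h1 τ).trans (hτ.trans ?_)
  rw [av_comm]
  refine (av_mono fun w => ACurveb_fix hψ hR hq hp u w).trans ?_
  rw [av_const]

end Pool.Agent.P.MP_158ebf_lc.AT
end

-- part Pool.Agent.P.MP_158ebf_lc.ADec1
section

/-! From a distinguisher to a predictor given by tables. -/

namespace Pool.Agent.P.MP_158ebf_lc.AT

open Function Finset N487b59b3 N68a2faeb Pool.Agent.Lib.PolyTime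

theorem ADec1_range_ofFn {α : Type} (n : ℕ) (f : ℕ → α) :
    (List.range n).map f = List.ofFn fun i : Fin n => f i := by
  apply List.ext_getElem <;> simp

theorem ADec1_countP (T : Str → Bool) (l : List Str) :
    ((l.countP T : ℕ) : ℚ) = (l.map fun x => ind (T x = true)).sum := by
  induction l with
  | nil => simp
  | cons a l ih =>
    rw [List.countP_cons, List.map_cons, List.sum_cons, ← ih]
    cases h : T a <;> simp [ind, add_comm]

theorem ADec1_flat {α : Type} (n B : ℕ) (f : ℕ → List α) (h : ∀ j < n, (f j).length ≤ B) :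
    ((List.range n).flatMap f).length ≤ n * B := by
  induction n with
  | zero => simp
  | succ n ih =>
    rw [List.range_succ, List.flatMap_append, List.length_append]
    have h1 := ih fun j hj => h j (by omega)
    have h2 := h n (by omega)
    simp only [List.flatMap_cons, List.flatMap_nil, List.append_nil]
    rw [Nat.succ_mul]
    omega

theorem ADec1_getD {n q : ℕ} (σ : Fin n → ZMod q) (a : ℕ) (ha : a < n) :
    (List.ofFn fun i => (σ i).val).getD a 0 = (σ ⟨a, ha⟩).val := by
  rw [List.getD_eq_getElem _ _ (by simpa using ha)]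
  simp

/-- The positions read by the generator for bit `j`. -/
def ADec1_S {q' : ℕ} (h0 : 0 < q') (D m j : ℕ) (a : Fin (m + 2)) : Fin ((m + 2) * q') :=
  ⟨a * q' + dsg q' D j a, by
    have h1 := dsg_lt h0 D j a
    have h2 : (a + 1) * q' ≤ (m + 2) * q' := Nat.mul_le_mul_right _ a.2
    rw [Nat.succ_mul] at h2
    omega⟩

theorem ADec1_S_eq {q' : ℕ} (h0 : 0 < q') {D m j k : ℕ} {a a' : Fin (m + 2)}
    (h : ADec1_S h0 D m k a' = ADec1_S h0 D m j a) : a' = a ∧ dsg q' D j a = dsg q' D k a := by
  have h1 : (a' : ℕ) * q' + dsg q' D k a' = a * q' + dsg q' D j a := congrArg Fin.val h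
  have h2 := dsg_lt h0 D j a
  have h3 := dsg_lt h0 D k a'
  have h4 : ((a' : ℕ) * q' + dsg q' D k a') / q' = a' := by
    rw [Nat.add_comm, Nat.add_mul_div_right _ _ h0, Nat.div_eq_of_lt h3, Nat.zero_add]
  have h5 : ((a : ℕ) * q' + dsg q' D j a) / q' = a := by
    rw [Nat.add_comm, Nat.add_mul_div_right _ _ h0, Nat.div_eq_of_lt h2, Nat.zero_add]
  have h6 : a' = a := Fin.ext (by rw [← h4, h1, h5])
  subst h6
  exact ⟨rfl, by omega⟩

/-- Splitting off the last two coordinates. -/
def ADec1_e (m : ℕ) (A : Type) : (Fin (m + 2) → A) ≃ (Fin m → A) × A × A where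
  toFun σ := (fun i => σ i.castSucc.castSucc, σ (Fin.last m).castSucc, σ (Fin.last (m + 1)))
  invFun x := Fin.snoc (α := fun _ => A) (Fin.snoc (α := fun _ => A) x.1 x.2.1) x.2.2
  left_inv σ := by
    funext i
    refine Fin.lastCases ?_ (fun i => ?_) i
    · simp
    · refine Fin.lastCases ?_ (fun i => ?_) i <;> simp
  right_inv x := by
    ext <;> simp

theorem ADec1_hb {q m : ℕ} [NeZero q] {ones : List Str} (h1 : ∀ u ∈ ones, u.length = m)
    (x : Fin m → ZMod q) (y y' : ZMod q) :
    (if hb q m ones (List.ofFn (fun i => (x i).val) ++ [y.val, y'.val]) then (-1 : ℚ) else 1) =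
      chr (mleF q m ones x * y + y') := by
  have e1 : (List.ofFn (fun i => (x i).val) ++ [y.val, y'.val]).getD m 0 = y.val := by
    rw [List.getD_append_right _ _ _ _ (by simp)]
    simp
  have e2 : (List.ofFn (fun i => (x i).val) ++ [y.val, y'.val]).getD (m + 1) 0 = y'.val := by
    rw [List.getD_append_right _ _ _ _ (by simp)]
    simp
  have e3 : (mleF q m ones x * y + y').val = ((mleF q m ones x).val * y.val + y'.val) % q := by
    rw [ZMod.val_add, ZMod.val_mul, Nat.mod_add_mod]
  unfold hb chr sg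
  rw [mle_cast h1, e1, e2, e3]
  by_cases h : ((mleF q m ones x).val * y.val + y'.val) % q % 2 = 1 <;> simp [h]

theorem predictor {q q' D m L R₀ : ℕ} [Fact q.Prime] (hq' : q'.Prime) (hm : m + 2 ≤ q')
    (hL : L ≤ q' ^ D) (hR : 0 < R₀) {ones : List Str} (h1 : ∀ u ∈ ones, u.length = m)
    (T : Str → Bool)
    (hd : 1 / (R₀ : ℚ) ≤ av (fun z : Fin L → Bool => ind (T (List.ofFn z) = true)) -
      ((outs q q' D m L ones).countP T : ℕ) / ((outs q q' D m L ones).length : ℚ)) :
    ∃ (k : ℕ) (Is Tab : Code), k < L ∧ Is.length ≤ L ∧ (∀ r ∈ Is, r.length ≤ D ∧ ∀ x ∈ r, x ≤ m + 2) ∧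
      Tab.length ≤ L * q ^ D ∧ (∀ r ∈ Tab, r.length ≤ D + 1 ∧ ∀ x ∈ r, x ≤ q + L) ∧
      2 / ((R₀ * L : ℕ) : ℚ) ≤ av fun x : (Fin m → ZMod q) × ZMod q × ZMod q =>
        (prd T L k Is Tab (List.ofFn (fun i => (x.1 i).val) ++ [x.2.1.val, x.2.2.val]) : ℚ) *
          chr (mleF q m ones x.1 * x.2.1 + x.2.2) := by
  classical
  have hq : q.Prime := Fact.out
  have : NeZero q := ⟨hq.ne_zero⟩
  have h0 : 0 < q' := hq'.pos
  set S : Fin L → Fin (m + 2) → Fin ((m + 2) * q') := fun j => ADec1_S h0 D m j with hSdef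
  set h : (Fin (m + 2) → ZMod q) → Bool :=
    fun σ => hb q m ones (List.ofFn fun i => (σ i).val) with hh
  have hS : ∀ k, Injective (S k) := fun k a a' e => (ADec1_S_eq h0 e).1
  have hgen : ∀ s : Fin ((m + 2) * q') → ZMod q,
      gen q q' D m L ones (List.ofFn fun i => (s i).val) =
        List.ofFn fun j => h fun a => s (S j a) := by
    intro s
    unfold gen
    rw [ADec1_range_ofFn]
    congr 1
    funext j
    rw [ADec1_range_ofFn, hh]
    congr 2
    funext a
    exact ADec1_getD s _ (S j a).2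
  have hav : ((outs q q' D m L ones).countP T : ℕ) / ((outs q q' D m L ones).length : ℚ) =
      av fun s : Fin ((m + 2) * q') → ZMod q =>
        ind (T (List.ofFn fun j => h fun a => s (S j a)) = true) := by
    unfold outs av
    rw [ADec1_countP, List.map_map, List.length_map, length_wds, sum_wds]
    simp only [Function.comp, hgen]
    simp [ZMod.card]
  rw [hav] at hd
  have hε : (0 : ℚ) < 1 / (R₀ : ℚ) := by positivity
  obtain ⟨k, s, z, hk⟩ := nw S hS h (fun z => T (List.ofFn z)) _ hε hd
  set I : ℕ → List ℕ := fun j => if j < k then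
    (List.range (m + 2)).filter fun a => decide (dsg q' D j a = dsg q' D k a) else [] with hI
  have hIlen : ∀ j, (I j).length ≤ D := by
    intro j
    by_cases hj : j < k
    · simp only [hI, if_pos hj]
      have := k.2
      exact dsg_inter hq' hm (by omega) (by omega) (by omega)
    · simp [hI, hj]
  have hImem : ∀ j, ∀ a ∈ I j, a < m + 2 := by
    intro j a ha
    by_cases hj : j < k
    · simp only [hI, if_pos hj, List.mem_filter, List.mem_range] at ha
      exact ha.1
    · simp [hI, hj] at ha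
  set bit : ℕ → (Fin (m + 2) → ZMod q) → Bool :=
    fun j σ => h fun a => Function.extend (S k) σ s (ADec1_S h0 D m j a) with hbit
  have hdep : ∀ j < (k : ℕ), ∀ σ σ' : Fin (m + 2) → ZMod q,
      ((I j).map fun a => (List.ofFn fun i => (σ i).val).getD a 0) =
        ((I j).map fun a => (List.ofFn fun i => (σ' i).val).getD a 0) → bit j σ = bit j σ' := by
    intro j hj σ σ' e
    rw [List.map_inj_left] at e
    simp only [hbit]
    congr 1
    funext a
    by_cases hx : ∃ a', S k a' = ADec1_S h0 D m j a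
    · obtain ⟨a', ha'⟩ := hx
      obtain ⟨rfl, hd'⟩ := ADec1_S_eq h0 ha'
      rw [← ha', (hS k).extend_apply, (hS k).extend_apply]
      have hm' : (a' : ℕ) ∈ I j := by
        simp only [hI, if_pos hj, List.mem_filter, List.mem_range]
        exact ⟨a'.2, by simpa using hd'⟩
      have := e _ hm'
      rw [ADec1_getD σ _ a'.2, ADec1_getD σ' _ a'.2] at this
      exact ZMod.val_injective q this
    · rw [Function.extend_apply' _ _ _ hx, Function.extend_apply' _ _ _ hx]
  set zz : ℕ → Bool := fun j => if hj : j < L then z ⟨j, hj⟩ else false with hzz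
  set part : ℕ → Code := fun j => if j < k then
      ((wds q (I j).length).filter fun v => decide (∃ σ : Fin (m + 2) → ZMod q,
        v = ((I j).map fun a => (List.ofFn fun i => (σ i).val).getD a 0) ∧ bit j σ = true)).map
          fun v => j :: v
    else if zz j then [[j]] else [] with hpart
  have hhead : ∀ j j' v, (j :: v) ∈ part j' → j' = j := by
    intro j j' v hv
    simp only [hpart] at hv
    split_ifs at hv
    · obtain ⟨w, -, hw⟩ := List.mem_map.1 hv
      exact (List.cons.inj hw).1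
    · exact (List.cons.inj (List.mem_singleton.1 hv)).1.symm
    · simp at hv
  have hTab : ∀ j < L, ∀ v, (j :: v) ∈ (List.range L).flatMap part ↔ (j :: v) ∈ part j := by
    intro j hj v
    rw [List.mem_flatMap]
    constructor
    · rintro ⟨j', -, h'⟩
      rwa [hhead j j' v h'] at h'
    · exact fun h' => ⟨j, List.mem_range.2 hj, h'⟩
  have hqD : 1 ≤ q ^ D := Nat.one_le_pow _ _ hq.pos
  have hzs : ∀ (σ : Fin (m + 2) → ZMod q) (b : Bool),
      zs L k ((List.range L).map I) ((List.range L).flatMap part)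
        (List.ofFn fun i => (σ i).val) b = List.ofFn (hyb S h k s z σ b) := by
    intro σ b
    unfold zs
    rw [ADec1_range_ofFn]
    congr 1
    funext j
    have hg : ((List.range L).map I).getD j [] = I j := by
      rw [List.getD_eq_getElem _ _ (by simp)]
      simp
    rw [hg]
    unfold hyb
    by_cases hjk : j = k
    · subst hjk
      simp
    have hjk' : (j : ℕ) ≠ k := fun e => hjk (Fin.ext e)
    rw [if_neg hjk', if_neg hjk]
    simp only [hTab j j.2]
    by_cases hj : j < k
    · have hj' : (j : ℕ) < k := hj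
      rw [if_pos hj]
      change _ = bit j σ
      rw [Bool.eq_iff_iff, decide_eq_true_iff]
      simp only [hpart, if_pos hj', List.mem_map, List.mem_filter, decide_eq_true_iff]
      constructor
      · rintro ⟨v, ⟨-, σ', hv, hb'⟩, he⟩
        rw [← hb']
        exact hdep j hj' σ σ' ((List.cons.inj he).2.symm.trans hv)
      · intro hb'
        refine ⟨_, ⟨mem_wds.2 ⟨by simp, ?_⟩, σ, rfl, hb'⟩, rfl⟩
        intro a ha
        obtain ⟨c, hc, rfl⟩ := List.mem_map.1 ha
        rw [ADec1_getD σ c (hImem _ c hc)]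
        exact ZMod.val_lt _
    · have hj' : ¬(j : ℕ) < k := hj
      rw [if_neg hj]
      have hz : zz j = z j := by simp [hzz]
      simp only [hpart, hI, if_neg hj', hz]
      cases z j <;> simp
  refine ⟨k, (List.range L).map I, (List.range L).flatMap part, k.2, by simp, ?_, ?_, ?_, ?_⟩
  · intro r hr
    obtain ⟨j, -, rfl⟩ := List.mem_map.1 hr
    exact ⟨hIlen j, fun x hx => (hImem j x hx).le⟩
  · refine ADec1_flat L _ part fun j _ => ?_
    simp only [hpart]
    split_ifs
    · rw [List.length_map]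
      refine (List.length_filter_le _ _).trans ?_
      rw [length_wds]
      exact Nat.pow_le_pow_right hq.pos (hIlen j)
    · simpa using hqD
    · simp
  · intro r hr
    obtain ⟨j, hj, hr⟩ := List.mem_flatMap.1 hr
    have hj' := List.mem_range.1 hj
    simp only [hpart] at hr
    split_ifs at hr
    · obtain ⟨v, hv, rfl⟩ := List.mem_map.1 hr
      obtain ⟨hl, hv⟩ := mem_wds.1 (List.mem_filter.1 hv).1
      have := hIlen j
      refine ⟨by simp; omega, fun x hx => ?_⟩
      rcases List.mem_cons.1 hx with rfl | hx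
      · omega
      · have := hv x hx
        omega
    · rw [List.mem_singleton.1 hr]
      refine ⟨by simp, fun x hx => ?_⟩
      rw [List.mem_singleton.1 hx]
      omega
    · simp at hr
  · rw [← av_equiv (ADec1_e m (ZMod q))]
    have e0 : 2 / ((R₀ * L : ℕ) : ℚ) = 2 * (1 / (R₀ : ℚ)) / L := by
      rw [Nat.cast_mul]
      ring
    rw [e0]
    refine hk.trans (le_of_eq ?_)
    congr 1
    funext σ
    have e1 : (List.ofFn fun i => (σ i).val) =
        List.ofFn (fun i => ((ADec1_e m (ZMod q) σ).1 i).val) ++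
          [(ADec1_e m (ZMod q) σ).2.1.val, (ADec1_e m (ZMod q) σ).2.2.val] := by
      rw [List.ofFn_succ', List.ofFn_succ']
      simp [ADec1_e]
    rw [← ADec1_hb h1, ← e1]
    congr 1
    unfold prd ind
    rw [hzs, hzs]
    push_cast
    rfl

end Pool.Agent.P.MP_158ebf_lc.AT
end
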