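import Pool.Agent.K.MP_158ebf_lc.C3

/-! Short descriptions of tableaux put exponential time into the hierarchy. -/

namespace Pool.Agent.P.MP_158ebf_lc.AT

open Function N487b59b3 N68a2faeb Pool.Agent.Lib.PolyTime Pool.Agent.Lib.PolyTime.Cook

/-- The `i`-th of six numbers coded by `u`. -/
def fld (u : Str) (i : ℕ) : ℕ := ofBits ((u.drop (i * (u.length / 6))).take (u.length / 6))

/-- State (`k = 0`) or stack entry of a configuration. -/
def ent' (c : ℕ × List (List ℕ)) (k j : ℕ) : ℕ := if k = 0 then c.1 else cell c (k - 1) j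

/-- The graph of the tableau of the machine `e` on inputs with an initial segment of the table `tab`. -/
def tabf (e : Code) (tab u : Str) : Bool :=
  decide (ent' (run e (bitEncode (stdString (fld u 0), tab.take (fld u 1))) (fld u 2)) (fld u 3)
    (fld u 4) = fld u 5)

/-- A number written with `w` bits. -/
def AMeyer_blk (w v : ℕ) : Str := v.bits ++ List.replicate (w - v.bits.length) false

theorem AMeyer_ofBits_pad (l : Str) (k : ℕ) : ofBits (l ++ List.replicate k false) = ofBits l := by
  induction l with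
  | nil =>
    induction k with
    | zero => rfl
    | succ k ih =>
      rw [List.nil_append] at ih
      rw [List.nil_append, List.replicate_succ, ofBits_cons, ih]
      rfl
  | cons b l ih => rw [List.cons_append, ofBits_cons, ofBits_cons, ih]

theorem AMeyer_ofBits_blk (w v : ℕ) : ofBits (AMeyer_blk w v) = v := by
  rw [AMeyer_blk, AMeyer_ofBits_pad, ofBits_bits]

theorem AMeyer_length_blk {w v : ℕ} (h : v < 2 ^ w) : (AMeyer_blk w v).length = w := by
  have := Nat.size_le.2 h
  rw [← Nat.size_eq_bits_len] at this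
  rw [AMeyer_blk, List.length_append, List.length_replicate]
  omega

theorem AMeyer_length_code {w : ℕ} {l : List ℕ} (h : ∀ v ∈ l, v < 2 ^ w) :
    (l.flatMap (AMeyer_blk w)).length = l.length * w := by
  induction l with
  | nil => simp
  | cons v l ih =>
    rw [List.flatMap_cons, List.length_append, AMeyer_length_blk (h v (by simp)),
      ih fun u hu => h u (by simp [hu]), List.length_cons]
    ring

theorem AMeyer_code_get {w : ℕ} {l : List ℕ} (h : ∀ v ∈ l, v < 2 ^ w) {i : ℕ} (hi : i < l.length) :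
    ofBits (((l.flatMap (AMeyer_blk w)).drop (i * w)).take w) = l.getD i 0 := by
  induction l generalizing i with
  | nil => simp at hi
  | cons v l ih =>
    have hv := AMeyer_length_blk (h v (by simp))
    cases i with
    | zero =>
      rw [List.flatMap_cons, Nat.zero_mul, List.drop_zero, List.take_left' hv, AMeyer_ofBits_blk]
      rfl
    | succ i =>
      rw [List.flatMap_cons, Nat.succ_mul, Nat.add_comm, ← List.drop_drop, List.drop_left' hv,
        ih (fun u hu => h u (by simp [hu])) (by simpa using hi)]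
      rfl

theorem AMeyer_fld {w : ℕ} {l : List ℕ} (h : ∀ v ∈ l, v < 2 ^ w) (hl : l.length = 6) {i : ℕ}
    (hi : i < 6) : fld (l.flatMap (AMeyer_blk w)) i = l.getD i 0 := by
  rw [fld, AMeyer_length_code h, hl, Nat.mul_div_cancel_left _ (by norm_num),
    AMeyer_code_get h (by omega)]

theorem AMeyer_encB (f : Bool → ℕ) (w : Str) (i : ℕ) : ((encB w).map f).getD i 0 =
    if i < 3 * w.length then f ([true, w.getD (i / 3) false, false].getD (i % 3) false) else 0 := by
  induction w generalizing i with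
  | nil => simp [encB]
  | cons b w ih =>
    have e : encB (b :: w) = true :: b :: false :: encB w := rfl
    rw [e]
    rcases i with _ | _ | _ | i
    · simp
    · rw [if_pos (by rw [List.length_cons]; omega)]; rfl
    · rw [if_pos (by rw [List.length_cons]; omega)]; rfl
    · have e1 : (i + 1 + 1 + 1) / 3 = i / 3 + 1 := by omega
      have e2 : (i + 1 + 1 + 1) % 3 = i % 3 := by omega
      have e3 : i + 1 + 1 + 1 < 3 * (b :: w).length ↔ i < 3 * w.length := by
        rw [List.length_cons]; omega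
      simp only [List.map_cons, List.getD_cons_succ, ih, e1, e2, e3]

/-- The initial configuration as a function of one bit of the table. -/
def AMeyer_ini (e : Code) (pre : Str) (N k j : ℕ) (b : Bool) : ℕ :=
  if ent e 0 0 = k ∧ k < (e.getD 1 []).length then
    if j < pre.length then (pre.map fun b => bif b then ent e 0 3 else ent e 0 2).getD j 0
    else if j - pre.length < 3 * N then
      bif [true, b, false].getD ((j - pre.length) % 3) false then ent e 0 3 else ent e 0 2
    else 0
  else 0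

theorem AMeyer_cell (e : Code) (A : Str → Bool) (x : Str) (N k j : ℕ) :
    cell (uinit e (bitEncode (x, chi A N))) k j = AMeyer_ini e (delimit (bitEncode x)) N k j
      (A (stdString ((j - (delimit (bitEncode x)).length) / 3))) := by
  have hl : (chi A N).length = N := by simp [chi]
  rw [uinit_cell, enc_pair, enc_str (chi A N), AMeyer_ini]
  generalize delimit (bitEncode x) = pre
  split_ifs with h1 h2 h3
  · rw [List.map_append, List.getD_append _ _ _ _ (by rwa [List.length_map])]
  · have h4 : (j - pre.length) / 3 < N := by omega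
    rw [List.map_append, List.getD_append_right _ _ _ _ (by rw [List.length_map]; omega),
      List.length_map, AMeyer_encB, hl, if_pos h3]
    simp [chi, h4]
  · rw [List.map_append, List.getD_append_right _ _ _ _ (by rw [List.length_map]; omega),
      List.length_map, AMeyer_encB, hl, if_neg h3]
  · rfl

/-- The local conditions on a description `P` of the graph of a tableau. -/
def AMeyer_Tab (e : Code) (ini : ℕ → ℕ → ℕ) (T : ℕ) (P : ℕ → ℕ → ℕ → ℕ → Prop) : Prop :=
  P 0 0 0 (ent e 0 5) ∧
  (∀ k < e.flatten.sum + 1, ∀ j < T + 1, ∀ v < e.flatten.sum + 1, v = ini k j → P 0 (k + 1) j v) ∧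
  (∀ t < T, ∀ k < e.flatten.sum + 1, ∀ j < T - t, ∀ q < e.flatten.sum + 1,
    ∀ a < e.flatten.sum + 1, ∀ b < e.flatten.sum + 1, ∀ c < e.flatten.sum + 1,
      P t 0 0 q → P t (k + 1) (j - 1) a → P t (k + 1) j b → P t (k + 1) (j + 1) c →
        P (t + 1) (k + 1) j (rule (e.drop 2) (e.getD 1 []).length q k j a b c) ∧
        (ent (e.drop 2) q 1 = k ∧ j = 0 → P (t + 1) 0 0 (ent (e.drop 2) q (3 + b)))) ∧
  ∀ v < e.flatten.sum + 1, P T (ent e 0 1 + 1) 0 v → v = ent e 0 4

theorem AMeyer_sound {e : Code} {y : Str} {T : ℕ} {P : ℕ → ℕ → ℕ → ℕ → Prop}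
    (h : AMeyer_Tab e (cell (uinit e y)) T P) : cell (run e y T) (ent e 0 1) 0 = ent e 0 4 := by
  obtain ⟨h0, h1, h2, h3⟩ := h
  have hq : ∀ t, (run e y t).1 < e.flatten.sum + 1 := fun t => Nat.lt_succ_of_le (run_le e y t).1
  have hc : ∀ t k j, cell (run e y t) k j < e.flatten.sum + 1 := fun t k j =>
    Nat.lt_succ_of_le ((run_le e y t).2 k j)
  have hP : ∀ q, ent (e.drop 2) q 1 < e.flatten.sum + 1 := fun q => by
    rw [ent_drop]; exact Nat.lt_succ_of_le (ent_le _ _ _)
  have key : ∀ t ≤ T, P t 0 0 (run e y t).1 ∧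
      ∀ k < e.flatten.sum + 1, ∀ j, j + t ≤ T → P t (k + 1) j (cell (run e y t) k j) := by
    intro t
    induction t with
    | zero => exact fun _ => ⟨h0, fun k hk j hj => h1 k hk j (by omega) _ (hc 0 k j) rfl⟩
    | succ t ih =>
      intro ht
      obtain ⟨i1, i2⟩ := ih (by omega)
      have step := fun k hk j (hj : j + (t + 1) ≤ T) => h2 t ht k hk j (by omega) _ (hq t) _
        (hc t k (j - 1)) _ (hc t k j) _ (hc t k (j + 1)) i1 (i2 k hk _ (by omega))
        (i2 k hk _ (by omega)) (i2 k hk _ (by omega))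
      refine ⟨?_, fun k hk j hj => ?_⟩
      · rw [run_succ, ustep_fst]
        exact (step _ (hP _) 0 (by omega)).2 ⟨rfl, rfl⟩
      · rw [run_succ, ustep_cell, run_length]
        exact (step k hk j hj).1
  exact h3 _ (hc T _ _) ((key T le_rfl).2 _ (Nat.lt_succ_of_le (ent_le _ _ _)) 0 (by omega))

theorem AMeyer_complete {e : Code} {y : Str} {T : ℕ} {P : ℕ → ℕ → ℕ → ℕ → Prop}
    (hP : ∀ t k j v, t ≤ T → k ≤ e.flatten.sum + 1 → j ≤ T → v ≤ e.flatten.sum →
      (P t k j v ↔ ent' (run e y t) k j = v))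
    (h : cell (run e y T) (ent e 0 1) 0 = ent e 0 4) : AMeyer_Tab e (cell (uinit e y)) T P := by
  have e0 : ∀ c j, ent' c 0 j = c.1 := fun _ _ => rfl
  have e1 : ∀ c k j, ent' c (k + 1) j = cell c k j := fun _ _ _ => rfl
  refine ⟨(hP _ _ _ _ (by omega) (by omega) (by omega) (ent_le _ _ _)).2 rfl,
    fun k hk j hj v hv e => (hP _ _ _ _ (by omega) (by omega) (by omega) (by omega)).2 e.symm,
    fun t ht k hk j hj q hq a ha b hb c hc p1 p2 p3 p4 => ?_, fun v hv p => ?_⟩
  · rw [hP _ _ _ _ (by omega) (by omega) (by omega) (by omega)] at p1 p2 p3 p4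
    rw [e0] at p1
    rw [e1] at p2 p3 p4
    subst p1 p2 p3 p4
    constructor
    · rw [← run_length e y t, ← ustep_cell, ← run_succ]
      exact (hP _ _ _ _ ht (by omega) (by omega) ((run_le _ _ _).2 _ _)).2 rfl
    · rintro ⟨rfl, rfl⟩
      rw [← ustep_fst, ← run_succ]
      exact (hP _ _ _ _ ht (by omega) (by omega) (run_le _ _ _).1).2 rfl
  · rw [hP _ _ _ _ le_rfl (Nat.succ_le_succ (ent_le _ _ _)) (by omega) (by omega), e1] at p
    rw [← p, h]

theorem AMeyer_ph {α : Type} [N487b59b3 α] {O : Str → Bool} (e : Code) {ini : α → ℕ → ℕ → ℕ}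
    {T : α → ℕ} {P : α → ℕ → ℕ → ℕ → ℕ → Prop} (hT : PT T)
    (hi : PH O fun p : α × ℕ × ℕ × ℕ => p.2.2.2 = ini p.1 p.2.1 p.2.2.1)
    (hP : PH O fun p : α × ℕ × ℕ × ℕ × ℕ => P p.1 p.2.1 p.2.2.1 p.2.2.2.1 p.2.2.2.2) :
    PH O fun a => AMeyer_Tab e (ini a) (T a) (P a) := by
  have H : ∀ {γ : Type} [N487b59b3 γ] {s : γ → α} {t k j v : γ → ℕ}, PT s → PT t → PT k → PT j →
      PT v → PH O fun g => P (s g) (t g) (k g) (j g) (v g) := fun hs ht hk hj hv =>
    hP.comp (hs.pair (ht.pair (hk.pair (hj.pair hv))))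
  unfold AMeyer_Tab
  refine PH.and (H PT.id (PT.const _) (PT.const _) (PT.const _) (PT.const _))
    (PH.and ?_ (PH.and ?_ ?_))
  · refine PH.all_lt (PT.const _) (PH.all_lt (by fun_prop) (PH.all_lt (PT.const _) ?_))
    refine PH.imp ?_ (H (by fun_prop) (by fun_prop) (by fun_prop) (by fun_prop) (by fun_prop))
    exact hi.comp (g := fun p : ((α × ℕ) × ℕ) × ℕ => (p.1.1.1, p.1.1.2, p.1.2, p.2)) (by fun_prop)
  · refine PH.all_lt hT (PH.all_lt (PT.const _) (PH.all_lt (by fun_prop) ?_))
    refine PH.all_lt (PT.const _) (PH.all_lt (PT.const _) (PH.all_lt (PT.const _)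
      (PH.all_lt (PT.const _) ?_)))
    refine PH.imp (H (by fun_prop) (by fun_prop) (by fun_prop) (by fun_prop) (by fun_prop)) ?_
    refine PH.imp (H (by fun_prop) (by fun_prop) (by fun_prop) (by fun_prop) (by fun_prop)) ?_
    refine PH.imp (H (by fun_prop) (by fun_prop) (by fun_prop) (by fun_prop) (by fun_prop)) ?_
    refine PH.imp (H (by fun_prop) (by fun_prop) (by fun_prop) (by fun_prop) (by fun_prop)) ?_
    refine PH.and (H (by fun_prop) (by fun_prop) (by fun_prop) (by fun_prop) ?_)
      (PH.imp (PH.of_ptp ?_) (H (by fun_prop) (by fun_prop) (by fun_prop) (by fun_prop) ?_))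
    · unfold rule ent; fun_prop
    · unfold ent; fun_prop
    · unfold ent; fun_prop
  · refine PH.all_lt (PT.const _) (PH.imp
      (H (by fun_prop) (by fun_prop) (by fun_prop) (by fun_prop) (by fun_prop)) (PH.of_ptp ?_))
    fun_prop

theorem meyer {A L : Str → Bool} (hL : L ∈ EXPIn A) : ∃ e : Code,
    ∀ {β : Type} [N487b59b3 β] [HasDec β] (Φ : ℕ → β → Str → Prop) (n : ℕ → ℕ) (m₀ : ℕ),
      PH A (fun p : Str × β × Str => Φ p.1.length p.2.1 p.2.2) →
      PT (fun s : Str => n s.length) → Small (fun s : Str => n s.length) →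
      (∀ m ≥ m₀, ∃ b : β, sz b ≤ n m ∧ ∀ u : Str, u.length = m →
        (Φ m b u ↔ tabf e (chi A (2 ^ m)) u = true)) → L ∈ PHIn A := by
  obtain ⟨c, R, hR, hL⟩ := hL
  obtain ⟨e, p, he⟩ := exists_code hR
  refine ⟨e, fun {β} _ _ Φ n m₀ hΦ hn hn' hb => ?_⟩
  obtain ⟨N, hN⟩ : ∃ N : Str → ℕ, N = fun x => 2 ^ (x.length ^ c + c) := ⟨_, rfl⟩
  obtain ⟨T, hT⟩ : ∃ T : Str → ℕ, T = fun x => p.eval (6 * x.length + 1 + 3 * N x) := ⟨_, rfl⟩
  obtain ⟨w, hw⟩ : ∃ w : Str → ℕ,
    w = fun x => sz (idx x + N x + T x + e.flatten.sum + 1) + m₀ := ⟨_, rfl⟩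
  have ptN : PT N := by rw [hN]; fun_prop
  have ptT : PT T := by rw [hT]; fun_prop
  have ptI : PT idx := by unfold idx; fun_prop
  have ptw : PT w := by rw [hw]; fun_prop
  have smw : Small w := by rw [hw]; fun_prop
  have hlt : ∀ x, idx x + N x + T x + e.flatten.sum + 1 < 2 ^ w x := fun x =>
    (lt_two_pow_sz _).trans_le
      (Nat.pow_le_pow_right (by norm_num) (by rw [hw]; exact Nat.le_add_right _ _))
  have hrun : ∀ x, L x = true ↔
      cell (run e (bitEncode (x, chi A (N x))) (T x)) (ent e 0 1) 0 = ent e 0 4 := fun x => by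
    have h1 := he (x, chi A (N x)) (T x) (le_of_eq (by
      rw [sz_pair, sz_str x, sz_str (chi A _), hT]
      simp only [chi, List.length_map, List.length_range]
      congr 2
      omega))
    rw [enc_bool] at h1
    rw [← urun_singleton h1, hL x, hN]
  have hu : PT fun x : Str => List.replicate (6 * w x) true := by fun_prop
  have key : PH A fun x => ∃ b : β, sz b ≤ n (6 * w x) ∧
      AMeyer_Tab e (cell (uinit e (bitEncode (x, chi A (N x))))) (T x) fun t k j v =>
        Φ (6 * w x) b ([idx x, N x, t, k, j, v].flatMap (AMeyer_blk (w x))) := by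
    refine PH.ex ((hn.comp hu).congr fun x => by rw [List.length_replicate])
      ((hn'.comp hu).mono fun x => by rw [List.length_replicate]) ?_
    refine AMeyer_ph e (by fun_prop) ?_ ?_
    · have h1 : PT fun q : (Str × β) × ℕ × ℕ × ℕ =>
          stdString ((q.2.2.1 - (delimit (bitEncode q.1.1)).length) / 3) := by
        simp only [length_delimit]
        unfold stdString
        fun_prop
      have h2 : PT fun x : Str => delimit (bitEncode x) :=
        (show PT fun x : Str => (bitEncode (x, ([] : Str)) : Str) by fun_prop).congr fun x => by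
          rw [enc_pair, enc_nil, List.append_nil]
      have h3 : PT fun r : ((Str × β) × ℕ × ℕ × ℕ) × Bool => decide (r.1.2.2.2 =
          AMeyer_ini e (delimit (bitEncode r.1.1.1)) (N r.1.1.1) r.1.2.1 r.1.2.2.1 r.2) := by
        have h4 : PT fun r : Str × ℕ × ℕ × ℕ × Bool =>
            AMeyer_ini e r.1 r.2.1 r.2.2.1 r.2.2.2.1 r.2.2.2.2 := by
          unfold AMeyer_ini
          fun_prop
        exact PT.decide (PTP.eq (by fun_prop) (h4.comp ((h2.comp (by fun_prop)).pair
          (PT.pair (by fun_prop) (PT.pair (by fun_prop) (PT.pair (by fun_prop) (by fun_prop)))))))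
      refine (PH.of_flex (Orc_post (Flex.ask h1) h3)).congr fun q => ?_
      rw [decide_eq_true_iff, AMeyer_cell]
    · refine (hΦ.comp (g := fun q : (Str × β) × ℕ × ℕ × ℕ × ℕ =>
        (List.replicate (6 * w q.1.1) true, q.1.2, [idx q.1.1, N q.1.1, q.2.1, q.2.2.1, q.2.2.2.1,
          q.2.2.2.2].flatMap (AMeyer_blk (w q.1.1)))) ?_).congr fun q => by
            rw [List.length_replicate]
      unfold AMeyer_blk
      fun_prop
  refine key.congr fun x => ?_
  rw [hrun]
  refine ⟨fun h => ?_, fun ⟨b, _, h⟩ => AMeyer_sound h⟩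
  obtain ⟨b, hb1, hb2⟩ := hb (6 * w x) (by rw [hw]; dsimp only; omega)
  refine ⟨b, hb1, AMeyer_complete (fun t k j v ht hk hj hv => ?_) h⟩
  have h1 := hlt x
  have h2 : ∀ u ∈ [idx x, N x, t, k, j, v], u < 2 ^ w x := by
    simp only [List.mem_cons, List.not_mem_nil, or_false]
    rintro u (rfl | rfl | rfl | rfl | rfl | rfl) <;> omega
  have h3 : N x ≤ 2 ^ (6 * w x) :=
    le_trans (by omega) (Nat.pow_le_pow_right (by norm_num) (by omega : w x ≤ 6 * w x))
  have h4 : (chi A (2 ^ (6 * w x))).take (N x) = chi A (N x) := by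
    rw [chi, chi, ← List.map_take, List.take_range, min_eq_left h3]
  rw [hb2 _ (AMeyer_length_code h2), tabf, decide_eq_true_iff,
    AMeyer_fld h2 rfl (by norm_num), AMeyer_fld h2 rfl (by norm_num),
    AMeyer_fld h2 rfl (by norm_num), AMeyer_fld h2 rfl (by norm_num),
    AMeyer_fld h2 rfl (by norm_num), AMeyer_fld h2 rfl (by norm_num)]
  simp only [List.getD_cons_zero, List.getD_cons_succ, std_idx, h4]

end Pool.Agent.P.MP_158ebf_lc.AT
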