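import Pool.Agent.K.MP_158ebf_lc.C4
import Pool.Agent.K.MP_158ebf_lc.C3
import Pool.Agent.K.MP_158ebf_lc.C5
import Pool.Agent.K.MP_158ebf_lc.C6

-- part Pool.Agent.P.MP_158ebf_lc.AMart
section

/-! The betting strategy driven by a list of pseudorandom strings. -/

namespace Pool.Agent.P.MP_158ebf_lc.AT

open Function Finset N487b59b3 N68a2faeb Pool.Agent.Lib.PolyTime

/-- The gain at position `t` on the tape coded by `z`. -/
def vl (T : Test) (t0 lam : ℕ) (B : Str → Bool) (z : Str) (t : ℕ) : ℤ :=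
  if t0 ≤ t then (if B (stdString t) then 1 else -1) * gap T B t (tape lam T.Q z t) else 0

/-- The total gain below position `N`, replaced by the worst value after more than `J` bets. -/
def Wv (T : Test) (t0 lam J : ℕ) (B : Str → Bool) (N : ℕ) (z : Str) : ℤ :=
  if ((List.range N).countP fun t => decide (vl T t0 lam B z t ≠ 0)) ≤ J then
    ((List.range N).map (vl T t0 lam B z)).sum
  else -((J * (T.Λ + T.Q) : ℕ) : ℤ)

/-- The capital. -/
def Cv (T : Test) (t0 lam J : ℕ) (Zs : List Str) (w : Str) : ℚ :=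
  2 * T.Q + 1 + (Zs.map fun z => (Wv T t0 lam J (orc w) w.length z : ℚ)).sum / (2 * Zs.length)

/-- The capital, given up as soon as a bet cannot be covered. -/
def dv (T : Test) (t0 lam J : ℕ) (Zs : List Str) (w : Str) : ℚ :=
  if (List.range w.length).all fun t => decide (0 ≤ Cv T t0 lam J Zs (w.take t ++ [false])) &&
    decide (0 ≤ Cv T t0 lam J Zs (w.take t ++ [true])) then Cv T t0 lam J Zs w else 0

variable {T : Test} {t0 lam J N : ℕ} {B B' : Str → Bool} {z w : Str} {Zs : List Str}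

theorem AMarta_sum (l : List ℕ) (f : ℕ → ℤ) (M : ℤ) (h : ∀ t, |f t| ≤ M) :
    |(l.map f).sum| ≤ (l.countP (fun t => decide (f t ≠ 0)) : ℕ) * M := by
  induction l with
  | nil => simp
  | cons a l ih =>
    rw [List.map_cons, List.sum_cons, List.countP_cons]
    have h1 := abs_add_le (f a) (l.map f).sum
    have h2 := h a
    by_cases h3 : f a = 0
    · simpa [h3] using ih
    · simp only [ne_eq, h3, not_false_eq_true, decide_true, if_true] at ih ⊢
      push_cast
      linarith

theorem vl_congr {t : ℕ} (h : Agr (t + 1) B B') : vl T t0 lam B z t = vl T t0 lam B' z t := by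
  have h1 : B (stdString t) = B' (stdString t) := h _ (by rw [idx_std]; omega)
  unfold vl
  rw [h1, gap_congr (h.mono (Nat.le_succ t))]

theorem abs_vl_le (t : ℕ) : |vl T t0 lam B z t| ≤ T.Λ + T.Q := by
  unfold vl
  have h := abs_gap_le (T := T) (B := B) (t := t) (r := tape lam T.Q z t)
  split_ifs
  · simpa using h
  · simpa using h
  · rw [abs_zero]
    positivity

theorem Wv_congr (h : Agr N B B') : Wv T t0 lam J B N z = Wv T t0 lam J B' N z := by
  have h1 : ∀ t ∈ List.range N, vl T t0 lam B z t = vl T t0 lam B' z t := fun t ht =>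
    vl_congr (h.mono (List.mem_range.1 ht))
  unfold Wv
  rw [List.map_congr_left h1, List.countP_congr (q := fun t => decide (vl T t0 lam B' z t ≠ 0))
    fun t ht => by rw [h1 t ht]]

theorem abs_Wv_le : |Wv T t0 lam J B N z| ≤ ((J * (T.Λ + T.Q) : ℕ) : ℤ) := by
  unfold Wv
  split_ifs with h
  · refine (AMarta_sum (List.range N) _ _ (fun t => abs_vl_le t)).trans ?_
    push_cast
    exact mul_le_mul_of_nonneg_right (by exact_mod_cast h) (by positivity)
  · rw [abs_neg, abs_of_nonneg (by positivity)]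

theorem Wv_step : Wv T t0 lam J (ov B N false) (N + 1) z + Wv T t0 lam J (ov B N true) (N + 1) z ≤
    2 * Wv T t0 lam J B N z := by
  have hb := abs_le.1 (abs_Wv_le (T := T) (t0 := t0) (lam := lam) (J := J) (B := B) (N := N) (z := z))
  have h1 : ∀ b, ∀ t ∈ List.range N, vl T t0 lam (ov B N b) z t = vl T t0 lam B z t := fun b t ht =>
    vl_congr ((agr_ov B N b).mono (List.mem_range.1 ht))
  have h2 : ∀ b, ((List.range N).countP fun t => decide (vl T t0 lam (ov B N b) z t ≠ 0)) =
      (List.range N).countP fun t => decide (vl T t0 lam B z t ≠ 0) := fun b =>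
    List.countP_congr fun t ht => by rw [h1 b t ht]
  have h3 : vl T t0 lam (ov B N false) z N = -vl T t0 lam (ov B N true) z N := by
    unfold vl
    rw [gap_congr (agr_ov B N false), gap_congr (agr_ov B N true)]
    simp only [ov, idx_std, if_true]
    split_ifs <;> simp_all
  unfold Wv at hb ⊢
  simp only [List.range_succ, List.countP_append, List.map_append, List.sum_append, h2,
    List.map_congr_left (h1 _), List.map_cons, List.map_nil, List.sum_cons, List.sum_nil,
    List.countP_cons, List.countP_nil, h3, ne_eq, neg_eq_zero] at hb ⊢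
  split_ifs at hb ⊢ <;> omega

theorem Cv_step : Cv T t0 lam J Zs (w ++ [false]) + Cv T t0 lam J Zs (w ++ [true]) ≤
    2 * Cv T t0 lam J Zs w := by
  have h1 : ∀ b z, Wv T t0 lam J (orc (w ++ [b])) (w ++ [b]).length z =
      Wv T t0 lam J (ov (orc w) w.length b) (w.length + 1) z := by
    intro b z
    rw [List.length_append, List.length_singleton]
    exact Wv_congr (agr_concat w b)
  have h2 : ∀ l : List Str,
      (l.map fun z => (Wv T t0 lam J (ov (orc w) w.length false) (w.length + 1) z : ℚ)).sum +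
        (l.map fun z => (Wv T t0 lam J (ov (orc w) w.length true) (w.length + 1) z : ℚ)).sum ≤
        2 * (l.map fun z => (Wv T t0 lam J (orc w) w.length z : ℚ)).sum := by
    intro l
    induction l with
    | nil => simp
    | cons z l ih =>
      have h : (Wv T t0 lam J (ov (orc w) w.length false) (w.length + 1) z : ℚ) +
          Wv T t0 lam J (ov (orc w) w.length true) (w.length + 1) z ≤
          2 * Wv T t0 lam J (orc w) w.length z := by exact_mod_cast Wv_step
      simp only [List.map_cons, List.sum_cons]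
      linarith
  have h3 := div_le_div_of_nonneg_right (h2 Zs) (c := 2 * (Zs.length : ℚ)) (by positivity)
  unfold Cv
  simp only [h1]
  rw [add_div, mul_div_assoc] at h3
  linarith

theorem Cv_short (h : w.length ≤ t0) : Cv T t0 lam J Zs w = 2 * T.Q + 1 := by
  have h1 : ∀ z, Wv T t0 lam J (orc w) w.length z = 0 := by
    intro z
    have h2 : ∀ t ∈ List.range w.length, vl T t0 lam (orc w) z t = 0 := fun t ht => by
      have := List.mem_range.1 ht
      unfold vl
      rw [if_neg (by omega)]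
    unfold Wv
    rw [List.map_congr_left h2, List.countP_eq_zero.2 fun t ht => by simp [h2 t ht],
      if_pos (Nat.zero_le J)]
    simp
  unfold Cv
  simp [h1]

theorem dv_nonneg : 0 ≤ dv T t0 lam J Zs w := by
  unfold dv
  split_ifs with h
  · rcases List.eq_nil_or_concat w with rfl | ⟨u, b, rfl⟩
    · rw [Cv_short (by simp)]
      positivity
    · have h1 := List.all_eq_true.1 h u.length (by simp)
      simp only [List.concat_eq_append, List.take_left', Bool.and_eq_true, decide_eq_true_eq] at h1 ⊢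
      cases b
      · exact h1.1
      · exact h1.2
  · exact le_rfl

theorem dv_step : dv T t0 lam J Zs (w ++ [false]) + dv T t0 lam J Zs (w ++ [true]) ≤
    2 * dv T t0 lam J Zs w := by
  have h0 := dv_nonneg (T := T) (t0 := t0) (lam := lam) (J := J) (Zs := Zs) (w := w)
  have h1 : ∀ b : Bool, ((List.range (w ++ [b]).length).all fun t =>
      decide (0 ≤ Cv T t0 lam J Zs ((w ++ [b]).take t ++ [false])) &&
        decide (0 ≤ Cv T t0 lam J Zs ((w ++ [b]).take t ++ [true]))) =
      (((List.range w.length).all fun t => decide (0 ≤ Cv T t0 lam J Zs (w.take t ++ [false])) &&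
        decide (0 ≤ Cv T t0 lam J Zs (w.take t ++ [true]))) &&
        (decide (0 ≤ Cv T t0 lam J Zs (w ++ [false])) &&
          decide (0 ≤ Cv T t0 lam J Zs (w ++ [true])))) := by
    intro b
    rw [List.length_append, List.length_singleton, List.range_succ, List.all_append]
    congr 1
    · rw [Bool.eq_iff_iff, List.all_eq_true, List.all_eq_true]
      refine forall₂_congr fun t ht => ?_
      rw [List.take_append_of_le_length (List.mem_range.1 ht).le]
    · simp
  have h2 := Cv_step (T := T) (t0 := t0) (lam := lam) (J := J) (Zs := Zs) (w := w)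
  unfold dv at h0 ⊢
  rw [h1, h1]
  split_ifs at h0 ⊢ with ha hb hb
  · exact h2
  · exact absurd (Bool.and_eq_true_iff.1 ha).1 hb
  · linarith
  · linarith

theorem dv_short (h : w.length ≤ t0) : dv T t0 lam J Zs w = 2 * T.Q + 1 := by
  unfold dv
  rw [if_pos, Cv_short h]
  refine List.all_eq_true.2 fun t ht => ?_
  have h1 := List.mem_range.1 ht
  have h2 : ∀ b : Bool, (0 : ℚ) ≤ Cv T t0 lam J Zs (w.take t ++ [b]) := fun b => by
    rw [Cv_short (by simp; omega)]
    positivity
  simp [h2]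

/-- Characterisation of a large total gain by a short list of positions. -/
theorem Wv_ge_iff {θ : ℕ} (hθ : 0 < θ) :
    (θ : ℤ) ≤ Wv T t0 lam J B N z + (J * (T.Λ + T.Q) : ℕ) ↔
      ∃ l : List ℕ, l.length ≤ J ∧ (∀ t ∈ l, t < N ∧ l.count t = 1) ∧
        (∀ t < N, vl T t0 lam B z t ≠ 0 → t ∈ l) ∧
        (θ : ℤ) ≤ (l.map (vl T t0 lam B z)).sum + (J * (T.Λ + T.Q) : ℕ) := by
  rw [Wv]
  generalize vl T t0 lam B z = g
  generalize J * (T.Λ + T.Q) = M
  have hsum : ∀ l : List ℕ, l.Nodup → (∀ t ∈ l, t < N) → (∀ t < N, g t ≠ 0 → t ∈ l) →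
      (l.map g).sum = ((List.range N).map g).sum := fun l h1 h2 h3 => by
    rw [← List.sum_toFinset g h1, ← List.sum_toFinset g List.nodup_range, List.toFinset_range]
    refine Finset.sum_subset (fun t ht => ?_) fun t ht ht' => ?_
    · exact Finset.mem_range.2 (h2 t (List.mem_toFinset.1 ht))
    · by_contra h
      exact ht' (List.mem_toFinset.2 (h3 t (Finset.mem_range.1 ht) h))
  have hnd : ((List.range N).filter fun t => decide (g t ≠ 0)).Nodup := List.nodup_range.filter _
  have hm : ∀ t, t ∈ ((List.range N).filter fun t => decide (g t ≠ 0)) ↔ t < N ∧ g t ≠ 0 := by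
    intro t
    rw [List.mem_filter, List.mem_range, decide_eq_true_iff]
  rw [List.countP_eq_length_filter]
  constructor
  · intro h
    split_ifs at h with hc
    · refine ⟨_, hc, fun t ht => ⟨((hm t).1 ht).1, List.count_eq_one_of_mem hnd ht⟩,
        fun t h1 h2 => (hm t).2 ⟨h1, h2⟩, ?_⟩
      rwa [hsum _ hnd (fun t ht => ((hm t).1 ht).1) fun t h1 h2 => (hm t).2 ⟨h1, h2⟩]
    · omega
  · rintro ⟨l, h1, h2, h3, h4⟩
    have hl : l.Nodup := List.nodup_iff_count_eq_one.2 fun t ht => (h2 t ht).2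
    have hc := (List.subperm_of_subset hnd fun t ht => h3 t ((hm t).1 ht).1 ((hm t).1 ht).2).length_le
    rw [if_pos (hc.trans h1), ← hsum l hl (fun t ht => (h2 t ht).1) h3]
    exact h4

theorem AMartb_layer {M : ℕ} {v : ℤ} (h : |v| ≤ M) :
    ∑ i ∈ range (2 * M), ind (((i + 1 : ℕ) : ℤ) ≤ v + M) = v + M := by
  obtain ⟨k, hk⟩ : ∃ k : ℕ, (k : ℤ) = v + M := ⟨(v + M).toNat, by have := abs_le.1 h; omega⟩
  have hk2 : k ≤ 2 * M := by have := abs_le.1 h; omega
  have e : (range (2 * M)).filter (fun i : ℕ => ((i + 1 : ℕ) : ℤ) ≤ v + M) = range k := by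
    ext i
    simp only [mem_filter, mem_range]
    omega
  have hq : (k : ℚ) = v + M := by exact_mod_cast hk
  simp only [ind]
  rw [← sum_filter, e, sum_const, card_range, nsmul_eq_mul, mul_one, hq]

theorem AMartb_count (l : List Str) (W : Str → ℤ) {M : ℕ} (hW : ∀ z, |W z| ≤ M) :
    ∑ i ∈ range (2 * M), ((l.countP fun z => decide (((i + 1 : ℕ) : ℤ) ≤ W z + M) : ℕ) : ℚ) =
      (l.map fun z => (W z : ℚ)).sum + l.length * M := by
  induction l with
  | nil => simp
  | cons z l ih =>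
    have e : ∀ i : ℕ, (((z :: l).countP fun z => decide (((i + 1 : ℕ) : ℤ) ≤ W z + M) : ℕ) : ℚ) =
        (l.countP fun z => decide (((i + 1 : ℕ) : ℤ) ≤ W z + M) : ℕ) +
          ind (((i + 1 : ℕ) : ℤ) ≤ W z + M) := fun i => by
      rw [List.countP_cons, ind]
      split_ifs with h1 h2 h2
      · push_cast; rfl
      · exact absurd (of_decide_eq_true h1) h2
      · exact absurd (decide_eq_true h2) h1
      · push_cast; rfl
    rw [sum_congr rfl fun i _ => e i, sum_add_distrib, ih, AMartb_layer (hW z), List.map_cons,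
      List.sum_cons, List.length_cons]
    push_cast
    ring

/-- A gap between two means of a bounded integer variable gives a threshold test. -/
theorem threshold {Ω : Type} [Fintype Ω] [Nonempty Ω] (e : Ω → Str) (W : Str → ℤ) {M : ℕ}
    (hW : ∀ z, |W z| ≤ M) (hZ : Zs ≠ [])
    (h : (Zs.map fun z => (W z : ℚ)).sum / Zs.length < av (fun ω => (W (e ω) : ℚ)) - 2) :
    ∃ θ : ℕ, 0 < θ ∧ θ ≤ 2 * M ∧ 1 / (M : ℚ) ≤ av (fun ω => ind ((θ : ℤ) ≤ W (e ω) + M)) -
      (Zs.countP fun z => decide ((θ : ℤ) ≤ W z + M) : ℕ) / (Zs.length : ℚ) := by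
  by_contra hn
  have hl : (0 : ℚ) < Zs.length := by exact_mod_cast List.length_pos_iff.2 hZ
  have h1 : ∑ i ∈ range (2 * M), (av (fun ω => ind (((i + 1 : ℕ) : ℤ) ≤ W (e ω) + M)) -
      (Zs.countP fun z => decide (((i + 1 : ℕ) : ℤ) ≤ W z + M) : ℕ) / (Zs.length : ℚ)) ≤
      ∑ _i ∈ range (2 * M), 1 / (M : ℚ) := sum_le_sum fun i hi =>
    le_of_not_ge fun h' => hn ⟨i + 1, Nat.succ_pos i, mem_range.1 hi, h'⟩
  have h2 : ∑ _i ∈ range (2 * M), 1 / (M : ℚ) ≤ 2 := by
    rw [sum_const, card_range, nsmul_eq_mul]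
    rcases Nat.eq_zero_or_pos M with rfl | hM
    · simp
    · have : (0 : ℚ) < M := by exact_mod_cast hM
      push_cast
      field_simp
      rfl
  rw [sum_sub_distrib, ← av_sum, ← sum_div, AMartb_count Zs W hW,
    funext fun ω => AMartb_layer (hW (e ω)), av_add, av_const, add_div,
    mul_div_cancel_left₀ _ hl.ne'] at h1
  linarith

end Pool.Agent.P.MP_158ebf_lc.AT
end

-- part Pool.Agent.P.MP_158ebf_lc.APoly
section

/-! Computability of the generator and definability of the decoder. -/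

namespace Pool.Agent.P.MP_158ebf_lc.AT

open Function N487b59b3 N68a2faeb Pool.Agent.Lib.PolyTime

variable {α : Type} [N487b59b3 α] {O : Str → Bool}

theorem pt_np {x : α → ℕ} (hx : PT x) (hx' : Small x) : PT fun a => np (x a) := by
  have h : PT fun a => (((List.range (x a + 2)).map fun i => x a + 1 + i).filter fun p =>
      decide (2 ≤ p) && (List.range (min p (2 * x a + 2))).all
        fun d => decide (d < 2 ∨ p % d ≠ 0)).headD 0 := by
    fun_prop
  refine h.congr fun a => ?_
  unfold np prm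
  refine congrArg (fun l : List ℕ => l.headD 0) (List.filter_congr fun p hp => ?_)
  obtain ⟨i, hi, rfl⟩ := List.mem_map.1 hp
  rw [List.mem_range] at hi
  rw [min_eq_left (by omega)]

theorem small_np {x : α → ℕ} (hx' : Small x) : Small fun a => np (x a) :=
  Small.mono (n := fun a => 2 * x a + 2) (by fun_prop) fun a => (np_spec (x a)).2.2

theorem pt_wds {q n : α → ℕ} (hq : PT q) (hq' : Small q) (hn : PT n) (hn' : Small n)
    (h : Small fun a => q a ^ n a) : PT fun a => wds (q a) (n a) := by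
  refine PT.iterate_nat (F := fun a (L : List (List ℕ)) =>
    L.flatMap fun x => (List.range (q a)).map fun c => c :: x) hn hn' (PT.const _)
    (by fun_prop) ?_
  have h1 := PB.reindex h fun p : {p : α × ℕ // p.2 ≤ n p.1} => p.1.1
  have h2 := PB.reindex hn' fun p : {p : α × ℕ // p.2 ≤ n p.1} => p.1.1
  have h3 := PB.reindex hq' fun p : {p : α × ℕ // p.2 ≤ n p.1} => p.1.1
  refine ((h1.add (PB.const 1)).mul (((PB.const 2).mul (h2.mul (((PB.const 2).mul h3).add
    (PB.const 1)))).add (PB.const 1))).mono fun p => ?_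
  change sz (wds (q p.1.1) p.1.2) ≤ _
  have hp := p.2
  refine (sz_le_of_forall (B := p.1.2 * (2 * q p.1.1 + 1)) fun x hx => ?_).trans ?_
  · obtain ⟨e1, e2⟩ := mem_wds.1 hx
    rw [← e1]
    exact sz_le_of_forall fun c hc => (sz_le_self c).trans (e2 c hc).le
  · rw [length_wds]
    have h4 : q p.1.1 ^ p.1.2 ≤ q p.1.1 ^ n p.1.1 + 1 := by
      rcases Nat.eq_zero_or_pos (q p.1.1) with h0 | h0
      · rw [h0]
        rcases Nat.eq_zero_or_pos p.1.2 with h5 | h5
        · rw [h5]; simp
        · rw [zero_pow h5.ne']; exact Nat.zero_le _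
      · exact (Nat.pow_le_pow_right h0 hp).trans (Nat.le_succ _)
    gcongr

theorem APolya_dsg {q' D j c : α → ℕ} (hr : PT q') (hD : PT D) (hD' : Small D) (hj : PT j)
    (hc : PT c) : PT fun a => dsg (q' a) (D a) (j a) (c a) := by
  have h : PT fun a => ((List.range (D a)).map fun k =>
      j a / q' a ^ (min k (D a)) % q' a * c a ^ (min k (D a))).sum % q' a := by
    fun_prop
  refine h.congr fun a => ?_
  unfold dsg
  refine congrArg (fun l : List ℕ => l.sum % q' a) (List.map_congr_left fun k hk => ?_)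
  rw [min_eq_left (List.mem_range.1 hk).le]

theorem APolya_hb {q m : α → ℕ} {ones : α → List Str} {σ : α → List ℕ} (hq : PT q) (hm : PT m)
    (ho : PT ones) (hσ : PT σ) : PT fun a => hb (q a) (m a) (ones a) (σ a) := by
  unfold hb mle
  have h1 : PT fun p : (α × Str) × Bool × ℕ => if p.2.1 = true then p.2.2 else q p.1.1 + 1 - p.2.2 :=
    PT.ite (PTP.of_bool (by fun_prop)) (by fun_prop) (by fun_prop)
  have h2 : PT fun a => ((ones a).map fun u => ((u.zip (σ a)).map fun p =>
      if p.1 = true then p.2 else q a + 1 - p.2).prod).sum :=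
    PT.sum (PT.map ho (PT.prod (PT.map (by fun_prop) h1)))
  obtain ⟨S, hS⟩ : ∃ S : α → ℕ, S = fun a => ((ones a).map fun u => ((u.zip (σ a)).map fun p =>
      if p.1 = true then p.2 else q a + 1 - p.2).prod).sum := ⟨_, rfl⟩
  rw [← hS] at h2
  have h3 : PT fun a => decide ((S a % q a * (σ a).getD (m a) 0 + (σ a).getD (m a + 1) 0) % q a % 2
      = 1) := by fun_prop
  exact h3.congr fun a => by rw [hS]

theorem pt_outs {q q' D m L : α → ℕ} {ones : α → List Str} (hq : PT q) (hq' : Small q)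
    (hr : PT q') (hr' : Small q') (hD : PT D) (hD' : Small D) (hm : PT m) (hm' : Small m)
    (hL : PT L) (hL' : Small L) (ho : PT ones) (h : Small fun a => q a ^ ((m a + 2) * q' a)) :
    PT fun a => outs (q a) (q' a) (D a) (m a) (L a) (ones a) := by
  unfold outs gen
  refine PT.map (pt_wds hq hq' (by fun_prop) (by fun_prop) h) ?_
  refine PT.map (by fun_prop) ?_
  refine APolya_hb (by fun_prop) (by fun_prop) (by fun_prop) ?_
  refine PT.map (by fun_prop) ?_
  refine PT.getD (by fun_prop) (PT.add (by fun_prop) ?_) (by fun_prop)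
  exact APolya_dsg (by fun_prop) (by fun_prop) (by fun_prop) (by fun_prop) (by fun_prop)

theorem APolya_fld {u : α → Str} (hu : PT u) (i : ℕ) : PT fun a => fld (u a) i := by
  unfold fld; fun_prop

theorem pt_tabf {e : α → Code} {tab u : α → Str} (he : PT e) (ht : PT tab) (hu : PT u)
    (h : Tiny fun a => (u a).length) : PT fun a => tabf (e a) (tab a) (u a) := by
  have f0 := APolya_fld hu 0
  have f1 := APolya_fld hu 1
  have f2 := APolya_fld hu 2
  have f3 := APolya_fld hu 3
  have f4 := APolya_fld hu 4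
  have f5 := APolya_fld hu 5
  have hs : Small fun a => fld (u a) 2 := Small.mono h fun a => by
    unfold fld
    refine (ofBits_lt _).le.trans (Nat.pow_le_pow_right (by norm_num) ?_)
    rw [List.length_take, List.length_drop]
    exact (min_le_right _ _).trans (Nat.sub_le _ _)
  have hstd : PT fun a => stdString (fld (u a) 0) := by
    unfold stdString
    exact PT.tail (PT.reverse (PT.bits (PT.add f0 (PT.const 1))))
  have hx : PT fun a => (bitEncode (stdString (fld (u a) 0), (tab a).take (fld (u a) 1)) : Str) :=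
    PT.bitEncode (PT.pair hstd (PT.take f1 ht))
  obtain ⟨x, hx'⟩ : ∃ x : α → Str, x = fun a =>
    (bitEncode (stdString (fld (u a) 0), (tab a).take (fld (u a) 1)) : Str) := ⟨_, rfl⟩
  rw [← hx'] at hx
  have hr : PT fun a => Cook.run (e a) (x a) (fld (u a) 2) :=
    PT.iterate_nat_growth (s := fun a => uinit (e a) (x a))
      (F := fun a c => ustep ((e a).drop 2) c) f2 hs (by unfold uinit; fun_prop)
      (by unfold ustep; fun_prop) (fun a => 6 * sz ((e a).drop 2) + 2) (by fun_prop)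
      fun a c => sz_ustep_le _ _
  have h5 : PT fun a => ent' (Cook.run (e a) (x a) (fld (u a) 2)) (fld (u a) 3) (fld (u a) 4) := by
    unfold ent' Cook.cell
    exact PT.ite (PTP.eq f3 (PT.const 0)) (PT.fst hr)
      (PT.getD (PT.getD (PT.snd hr) (PT.sub f3 (PT.const 1)) (PT.const _)) f4 (PT.const 0))
  refine (PT.decide (inst := fun a => inferInstance) (PTP.eq h5 f5)).congr fun a => ?_
  rw [hx']
  rfl

theorem APolyb_int_sum {l : α → List ℤ} (hl : PT l) : PT fun a => (l a).sum := by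
  refine (show PT fun a => (((l a).map fun z : ℤ => (z : ℚ)).sum).num by fun_prop).congr fun a => ?_
  rw [← Int.cast_list_sum, Rat.num_intCast]

theorem APolyb_evl {q τ : α → ℕ} {cs : α → List ℕ} (hq : PT q) (hc : PT cs) (hτ : PT τ) :
    PT fun a => evl (q a) (cs a) (τ a) := by
  refine (show PT fun a => ((cs a).zipIdx.map fun p =>
    p.1 * τ a ^ (min p.2 (cs a).length)).sum % q a by fun_prop).congr fun a => ?_
  unfold evl
  congr 2
  refine List.map_congr_left fun p hp => ?_
  have := List.snd_lt_of_mem_zipIdx hp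
  rw [min_eq_left (by omega)]

theorem APolyb_crv {q m τ : α → ℕ} {u : α → Str} {z v : α → List ℕ} (hq : PT q) (hm : PT m)
    (hm' : Small m) (hu : PT u) (hz : PT z) (hv : PT v) (hτ : PT τ) :
    PT fun a => crv (q a) (m a) (u a) (z a) (v a) (τ a) := by
  unfold crv; fun_prop

theorem APolyb_zs {L k : α → ℕ} {Is Tab : α → Code} {σ : α → List ℕ} (b : Bool) (hL : PT L)
    (hL' : Small L) (hk : PT k) (hI : PT Is) (hTab : PT Tab) (hσ : PT σ) :
    PT fun a => zs (L a) (k a) (Is a) (Tab a) (σ a) b := by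
  unfold zs; fun_prop

theorem APolyb_pts {q : α → ℕ} (hq : PT q) (hq' : Small q) : PT fun a => pts (q a) := by
  unfold pts; fun_prop

theorem APolyb_sg {n : α → ℕ} (hn : PT n) : PT fun a => sg (n a) := by
  unfold sg; fun_prop

open Classical in
theorem APolyb_tt2 {β : Type} [N487b59b3 β] {l : α → List β} {χ χ' : α → β → Prop}
    {R : α → Str → Str → Prop} (hl : PT l) (h : PH O fun p : α × β => χ p.1 p.2)
    (h' : PH O fun p : α × β => χ' p.1 p.2)
    (hR : PH O fun p : (α × Str) × Str => R p.1.1 p.1.2 p.2) :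
    PH O fun a => R a ((l a).map fun b => decide (χ a b)) ((l a).map fun b => decide (χ' a b)) := by
  refine PH.tt (R := fun a s => R a s ((l a).map fun b => decide (χ' a b))) hl h ?_
  exact PH.tt (l := fun p : α × Str => l p.1) (χ := fun p b => χ' p.1 b)
    (R := fun p s => R p.1 p.2 s) (by fun_prop)
    (h'.comp (g := fun p : (α × Str) × β => (p.1.1, p.2)) (by fun_prop)) hR

theorem APolyb_zip {β : Type} (l : List β) (f g : β → Bool) (F : β → Bool → Bool → ℤ) :
    (l.zip ((l.map f).zip (l.map g))).map (fun y => F y.1 y.2.1 y.2.2) =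
      l.map fun p => F p (f p) (g p) := by
  induction l with
  | nil => rfl
  | cons x l ih => simp [ih]

theorem APolyb_cor {T : α → Str → Bool} {L k q m R : α → ℕ} {Is Tab : α → Code} {u : α → Str}
    {z v cs : α → List ℕ}
    (hT : PH O fun p : α × Str => T p.1 p.2 = true) (hL : PT L) (hL' : Small L) (hk : PT k)
    (hI : PT Is) (hTab : PT Tab) (hq : PT q) (hq' : Small q) (hm : PT m) (hm' : Small m)
    (hR : PT R) (hu : PT u) (hz : PT z) (hv : PT v) (hc : PT cs) :
    PH O fun a => (((q a - 1) * q a ^ 2 : ℕ) : ℤ) ≤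
      R a * cor (prd (T a) (L a) (k a) (Is a) (Tab a)) (q a) (m a) (u a) (z a) (v a) (cs a) := by
  have hσ : PT fun p : α × ℕ × ℕ × ℕ =>
      crv (q p.1) (m p.1) (u p.1) (z p.1) (v p.1) p.2.1 ++ [p.2.2.1, p.2.2.2] :=
    PT.append (APolyb_crv (by fun_prop) (by fun_prop) (by fun_prop) (by fun_prop) (by fun_prop)
      (by fun_prop) (by fun_prop)) (by fun_prop)
  have hχ : ∀ b : Bool, PH O fun p : α × ℕ × ℕ × ℕ => T p.1 (zs (L p.1) (k p.1) (Is p.1) (Tab p.1)
      (crv (q p.1) (m p.1) (u p.1) (z p.1) (v p.1) p.2.1 ++ [p.2.2.1, p.2.2.2]) b) = true :=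
    fun b => hT.comp (g := fun p : α × ℕ × ℕ × ℕ => (p.1, zs (L p.1) (k p.1) (Is p.1) (Tab p.1)
      (crv (q p.1) (m p.1) (u p.1) (z p.1) (v p.1) p.2.1 ++ [p.2.2.1, p.2.2.2]) b))
      (PT.pair (by fun_prop) (APolyb_zs b (by fun_prop) (by fun_prop) (by fun_prop) (by fun_prop)
        (by fun_prop) hσ))
  have hs : PT fun p : ((α × Str) × Str) × (ℕ × ℕ × ℕ) × Bool × Bool =>
      sg ((evl (q p.1.1.1) (cs p.1.1.1) p.2.1.1 * p.2.1.2.1 + p.2.1.2.2) % q p.1.1.1) := by
    have h1 : PT fun p : ((α × Str) × Str) × (ℕ × ℕ × ℕ) × Bool × Bool =>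
        evl (q p.1.1.1) (cs p.1.1.1) p.2.1.1 :=
      APolyb_evl (by fun_prop) (by fun_prop) (by fun_prop)
    exact APolyb_sg (PT.mod (PT.add (PT.mul h1 (by fun_prop)) (by fun_prop)) (by fun_prop))
  have hp := APolyb_pts hq hq'
  have hsum : PT fun p : (α × Str) × Str =>
      (((pts (q p.1.1)).zip (p.1.2.zip p.2)).map fun y =>
        ((bif y.2.1 then (1 : ℤ) else 0) - bif y.2.2 then 1 else 0) *
          sg ((evl (q p.1.1) (cs p.1.1) y.1.1 * y.1.2.1 + y.1.2.2) % q p.1.1)).sum :=
    APolyb_int_sum (PT.map (f := fun (p : (α × Str) × Str) (y : (ℕ × ℕ × ℕ) × Bool × Bool) =>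
        ((bif y.2.1 then (1 : ℤ) else 0) - bif y.2.2 then 1 else 0) *
          sg ((evl (q p.1.1) (cs p.1.1) y.1.1 * y.1.2.1 + y.1.2.2) % q p.1.1))
      (PT.zip (hp.comp (g := fun p : (α × Str) × Str => p.1.1) (by fun_prop)) (by fun_prop))
      (PT.int_mul (by fun_prop) hs))
  have key := APolyb_tt2 (O := O) (l := fun a => pts (q a))
    (χ := fun a p => T a (zs (L a) (k a) (Is a) (Tab a)
      (crv (q a) (m a) (u a) (z a) (v a) p.1 ++ [p.2.1, p.2.2]) true) = true)
    (χ' := fun a p => T a (zs (L a) (k a) (Is a) (Tab a)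
      (crv (q a) (m a) (u a) (z a) (v a) p.1 ++ [p.2.1, p.2.2]) false) = true)
    (R := fun a s s' => (((q a - 1) * q a ^ 2 : ℕ) : ℤ) ≤ R a *
      (((pts (q a)).zip (s.zip s')).map fun y =>
        ((bif y.2.1 then (1 : ℤ) else 0) - bif y.2.2 then 1 else 0) *
          sg ((evl (q a) (cs a) y.1.1 * y.1.2.1 + y.1.2.2) % q a)).sum)
    hp (hχ true) (hχ false)
    (PH.of_ptp (PTP.int_le (by fun_prop) (PT.int_mul (by fun_prop) hsum)))
  refine key.congr fun a => ?_
  rw [APolyb_zip (pts (q a)) _ _ fun p s s' =>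
    ((bif s then (1 : ℤ) else 0) - bif s' then 1 else 0) *
      sg ((evl (q a) (cs a) p.1 * p.2.1 + p.2.2) % q a)]
  unfold cor prd
  simp only [Bool.decide_eq_true, Bool.cond_eq_ite]

theorem APolyb_trial {T : α → Str → Bool} {L k q m R : α → ℕ} {Is Tab : α → Code} {u : α → Str}
    {row : α → List ℕ}
    (hT : PH O fun p : α × Str => T p.1 p.2 = true) (hL : PT L) (hL' : Small L) (hk : PT k)
    (hI : PT Is) (hTab : PT Tab) (hq : PT q) (hq' : Small q) (hm : PT m) (hm' : Small m)
    (hR : PT R) (hu : PT u) (hr : PT row) :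
    PH O fun a => trial (prd (T a) (L a) (k a) (Is a) (Tab a)) (q a) (m a) (R a) (u a) (row a) := by
  unfold trial
  refine PH.ex' (n := fun a => (2 * m a + 1) * (2 * q a + 1)) (by fun_prop) ?_ ?_
  · rintro a cs ⟨h1, h2, -⟩
    exact (sz_le_of_forall (B := q a) fun x hx => (sz_le_self x).trans (h2 x hx).le).trans
      (Nat.mul_le_mul_right _ h1)
  · refine (PH.of_ptp (by fun_prop)).and ((PH.of_ptp ?_).and ((PH.of_ptp ?_).and
      ((PH.of_ptp ?_).and ?_)))
    · exact PTP.forall_mem (l := fun p : α × List ℕ => p.2) (p := fun p c => c < q p.1)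
        (by fun_prop) (by fun_prop)
    · exact PTP.eq (APolyb_evl (by fun_prop) (by fun_prop) (by fun_prop)) (by fun_prop)
    · exact PTP.eq (APolyb_evl (by fun_prop) (by fun_prop) (by fun_prop)) (by fun_prop)
    · exact APolyb_cor (T := fun p : α × List ℕ => T p.1)
        (hT.comp (g := fun p : (α × List ℕ) × Str => (p.1.1, p.2)) (by fun_prop))
        (by fun_prop) (by fun_prop) (by fun_prop) (by fun_prop) (by fun_prop) (by fun_prop)
        (by fun_prop) (by fun_prop) (by fun_prop) (by fun_prop) (by fun_prop) (by fun_prop)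
        (by fun_prop) (by fun_prop)

/-- The decoder built on a test from the hierarchy is in the hierarchy. -/
theorem ph_dcd {T : α → Str → Bool} {L k q m R : α → ℕ} {Is Tab rows : α → Code} {u : α → Str}
    (hT : PH O fun p : α × Str => T p.1 p.2 = true) (hL : PT L) (hL' : Small L) (hk : PT k)
    (hI : PT Is) (hTab : PT Tab) (hq : PT q) (hq' : Small q) (hm : PT m) (hm' : Small m)
    (hR : PT R) (hr : PT rows) (hu : PT u) :
    PH O fun a => dcd (prd (T a) (L a) (k a) (Is a) (Tab a)) (q a) (m a) (R a) (rows a) (u a) := by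
  have h1 : PH O fun p : α × List ℕ => trial (prd (T p.1) (L p.1) (k p.1) (Is p.1) (Tab p.1))
      (q p.1) (m p.1) (R p.1) (u p.1) p.2 :=
    APolyb_trial (T := fun p : α × List ℕ => T p.1)
      (hT.comp (g := fun p : (α × List ℕ) × Str => (p.1.1, p.2)) (by fun_prop))
      (by fun_prop) (by fun_prop) (by fun_prop) (by fun_prop) (by fun_prop) (by fun_prop)
      (by fun_prop) (by fun_prop) (by fun_prop) (by fun_prop) (by fun_prop) (by fun_prop)
  have key := PH.tt (O := O) (l := rows)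
    (χ := fun a row => trial (prd (T a) (L a) (k a) (Is a) (Tab a)) (q a) (m a) (R a) (u a) row)
    (R := fun _ s => s.length < 2 * s.countP fun b => b) hr h1 (PH.of_ptp (by fun_prop))
  refine key.congr fun a => ?_
  unfold dcd
  rw [List.length_map, List.countP_map]
  rfl

end Pool.Agent.P.MP_158ebf_lc.AT
end

-- part Pool.Agent.P.MP_158ebf_lc.ATest
section

/-! The test of an autoreduction on the strings at positions `t0, …, t0 + s - 1`. -/

namespace Pool.Agent.P.MP_158ebf_lc.AT

open Function Finset N487b59b3 N68a2faeb Pool.Agent.Lib.PolyTime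

/-- Blocks of `K` queries of the autoreduction on `x` followed by the query `x`. -/
def tQ (qf : Str × Str → Str) (t0 K : ℕ) (h : Str) : Str :=
  if h.length % (K + 1) < K then
    qf (stdString (t0 + h.length / (K + 1)), h.drop (h.length / (K + 1) * (K + 1)))
  else stdString (t0 + h.length / (K + 1))

/-- In every block the autoreduction is right and does not query its input. -/
def tE (qf : Str × Str → Str) (of : Str × Str → Bool) (t0 K s : ℕ) (h : Str) : Bool :=
  (List.range s).all fun a =>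
    (h.getD (a * (K + 1) + K) false == of (stdString (t0 + a), (h.drop (a * (K + 1))).take K)) &&
    (List.range K).all fun c =>
      !(qf (stdString (t0 + a), (h.drop (a * (K + 1))).take c) == stdString (t0 + a))

/-- The test. -/
def mkT (qf : Str × Str → Str) (of : Str × Str → Bool) (t0 K s Λ : ℕ) : Test :=
  ⟨tQ qf t0 K, tE qf of t0 K s, s * (K + 1), Λ⟩

variable {qf : Str × Str → Str} {of : Str × Str → Bool} {t0 K s Λ N : ℕ} {B : Str → Bool}

theorem mkT_bnd (h1 : ∀ p, (qf p).length ≤ K) (h2 : t0 + s ≤ 2 ^ (K + 1)) :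
    (mkT qf of t0 K s Λ).Bnd (2 ^ (K + 1)) := by
  intro h hh
  change h.length < s * (K + 1) at hh
  change idx (tQ qf t0 K h) < _
  unfold tQ
  split_ifs with hc
  · exact idx_lt (h1 _)
  · rw [idx_std]
    have : h.length / (K + 1) < s := (Nat.div_lt_iff_lt_mul (Nat.succ_pos K)).2 hh
    omega

theorem ATesta_div (a c : ℕ) (hc : c ≤ K) : (a * (K + 1) + c) / (K + 1) = a := by
  rw [Nat.add_comm, Nat.add_mul_div_right _ _ (Nat.succ_pos K), Nat.div_eq_of_lt (by omega),
    Nat.zero_add]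

theorem ATesta_mod (a c : ℕ) (hc : c ≤ K) : (a * (K + 1) + c) % (K + 1) = c := by
  rw [Nat.add_comm, Nat.add_mul_mod_self_right, Nat.mod_eq_of_lt (by omega)]

theorem ATesta_lt {a c : ℕ} (ha : a < s) (hc : c ≤ K) : a * (K + 1) + c < s * (K + 1) := by
  have : (a + 1) * (K + 1) ≤ s * (K + 1) := Nat.mul_le_mul_right _ ha
  have e : (a + 1) * (K + 1) = a * (K + 1) + K + 1 := by ring
  omega

theorem ATesta_stp (hb : (mkT qf of t0 K s Λ).Bnd N) (r : Str) {j : ℕ} (hj : j < s * (K + 1)) :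
    ans (tQ qf t0 K) B N r (j + 1) = ans (tQ qf t0 K) B N r j ++
      [B (tQ qf t0 K (ans (tQ qf t0 K) B N r j))] := by
  rw [ans_succ, stp, if_pos]
  exact hb _ (by change _ < s * (K + 1); rwa [length_ans])

theorem ATesta_drop (hb : (mkT qf of t0 K s Λ).Bnd N) (r : Str) {a : ℕ} (ha : a < s) (c : ℕ)
    (hc : c ≤ K) : (ans (tQ qf t0 K) B N r (a * (K + 1) + c)).drop (a * (K + 1)) =
      oans B qf (stdString (t0 + a)) c := by
  induction c with
  | zero => exact List.drop_of_length_le (by rw [length_ans]; omega)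
  | succ c ih =>
    have e := ih (by omega)
    rw [← Nat.add_assoc, ATesta_stp hb r (ATesta_lt ha (by omega)),
      List.drop_append_of_le_length (by rw [length_ans]; omega), e, oans]
    congr 3
    rw [tQ, length_ans, ATesta_mod a c (by omega), ATesta_div a c (by omega), if_pos (by omega), e]

theorem ATesta_take (hb : (mkT qf of t0 K s Λ).Bnd N) (r : Str) {a : ℕ} (ha : a < s) (c : ℕ)
    (hc : c ≤ K) : ((ans (tQ qf t0 K) B N r (s * (K + 1))).drop (a * (K + 1))).take c =
      oans B qf (stdString (t0 + a)) c := by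
  rw [List.take_drop, take_ans (ATesta_lt ha hc).le, ATesta_drop hb r ha c hc]

theorem ATesta_last (hb : (mkT qf of t0 K s Λ).Bnd N) (r : Str) {a : ℕ} (ha : a < s) :
    (ans (tQ qf t0 K) B N r (s * (K + 1))).getD (a * (K + 1) + K) false =
      B (stdString (t0 + a)) := by
  have hl := ATesta_lt ha (le_refl K)
  have e : (ans (tQ qf t0 K) B N r (s * (K + 1))).getD (a * (K + 1) + K) false =
      ((ans (tQ qf t0 K) B N r (s * (K + 1))).take (a * (K + 1) + K + 1)).getD
        (a * (K + 1) + K) false := by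
    rw [List.getD_eq_getElem?_getD, List.getD_eq_getElem?_getD,
      List.getElem?_take_of_lt (Nat.lt_succ_self _)]
  rw [e, take_ans hl, ATesta_stp hb r hl,
    List.getD_append_right _ _ _ _ (by rw [length_ans]), length_ans, Nat.sub_self,
    List.getD_cons_zero, tQ, length_ans, ATesta_mod a K le_rfl, ATesta_div a K le_rfl,
    if_neg (lt_irrefl K)]

/-- With all queries known, the test accepts iff the autoreduction works on all blocks. -/
theorem mkT_accept (hb : (mkT qf of t0 K s Λ).Bnd N) (r : Str) :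
    tE qf of t0 K s (ans (tQ qf t0 K) B N r (s * (K + 1))) = true ↔
      ∀ a < s, B (stdString (t0 + a)) =
          of (stdString (t0 + a), oans B qf (stdString (t0 + a)) K) ∧
        ∀ j < K, qf (stdString (t0 + a), oans B qf (stdString (t0 + a)) j) ≠
          stdString (t0 + a) := by
  simp only [tE, List.all_eq_true, List.mem_range, Bool.and_eq_true, beq_iff_eq,
    Bool.not_eq_true', beq_eq_false_iff_ne]
  refine forall_congr' fun a => forall_congr' fun ha => ?_
  rw [ATesta_last hb r ha, ATesta_take hb r ha K le_rfl]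
  refine and_congr_right fun _ => forall_congr' fun j => forall_congr' fun hj => ?_
  rw [ATesta_take hb r ha j hj.le]

theorem ATestb_ext_std {k : ℕ} (v : Fin k → Bool) (i : Fin k) :
    ext B t0 v (stdString (t0 + i)) = v i := by
  unfold ext
  rw [idx_std, if_neg (by omega), Nat.add_sub_cancel_left,
    List.getD_eq_getElem _ _ (by simp)]
  simp

theorem ATestb_ext_eq {k : ℕ} {v v' : Fin k → Bool} {y : Str}
    (h : ∀ i : Fin k, idx y = t0 + i → v i = v' i) : ext B t0 v y = ext B t0 v' y := by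
  by_cases h1 : idx y < t0
  · simp only [ext, h1, if_true]
  by_cases h2 : idx y < t0 + k
  · have e : idx y = t0 + (⟨idx y - t0, by omega⟩ : Fin k) := by dsimp only; omega
    have e' := h _ e
    rw [← std_idx y, e, ATestb_ext_std, ATestb_ext_std, e']
  · simp only [ext, h1, if_false]
    rw [List.getD_eq_default _ _ (by simp; omega), List.getD_eq_default _ _ (by simp; omega)]

theorem ATestb_local {k : ℕ} {v v' : Fin k → Bool} {x : Str} (j : ℕ)
    (h : ∀ i : Fin k, ∀ c < j, idx (qf (x, oans (ext B t0 v) qf x c)) = t0 + i → v i = v' i) :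
    oans (ext B t0 v) qf x j = oans (ext B t0 v') qf x j := by
  induction j with
  | zero => rfl
  | succ j ih =>
    have e := ih fun i c hc => h i c (by omega)
    rw [oans, oans, ← e, ATestb_ext_eq fun i hi => h i j (by omega) hi]

theorem ATestb_prob {tg g k : ℕ} (hb : (mkT qf of t0 K (tg * g) Λ).Bnd (t0 + k))
    (hN : tg * g ≤ k) (hg : 2 * tg * K < g) :
    av (fun v : Fin k → Bool => ind (tE qf of t0 K (tg * g)
      (ans (tQ qf t0 K) (ext B t0 v) (t0 + k) [] (tg * g * (K + 1))) = true)) ≤ 2 / 2 ^ tg := by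
  let X : Fin tg × Fin g → Fin k := fun p => Fin.castLE hN (finProdFinEquiv p)
  have hX : Injective X := (Fin.castLE_injective hN).comp finProdFinEquiv.injective
  have hXl : ∀ p, (X p : ℕ) < tg * g := fun p => (finProdFinEquiv p).2
  clear_value X
  let qs : Fin tg × Fin g → (Fin k → Bool) → Finset (Fin k) := fun a v =>
    univ.filter fun i : Fin k => ∃ c < K, idx (qf (stdString (t0 + X a),
      oans (ext B t0 v) qf (stdString (t0 + X a)) c)) = t0 + i
  let pr : Fin tg × Fin g → (Fin k → Bool) → Bool := fun a v =>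
    of (stdString (t0 + X a), oans (ext B t0 v) qf (stdString (t0 + X a)) K)
  have hq : ∀ a v, (qs a v).card ≤ K := by
    intro a v
    have h1 : (qs a v).card ≤ ((range K).image fun c => idx (qf (stdString (t0 + X a),
        oans (ext B t0 v) qf (stdString (t0 + X a)) c))).card := by
      refine card_le_card_of_injOn (fun i => t0 + (i : ℕ)) (fun i hi => ?_) (fun i _ i' _ e => ?_)
      · obtain ⟨c, hc, e⟩ := (mem_filter.1 (mem_coe.1 hi)).2
        exact mem_coe.2 (mem_image.2 ⟨c, mem_range.2 hc, e⟩)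
      · exact Fin.ext (by dsimp only at e; omega)
    exact h1.trans (card_image_le.trans (card_range K).le)
  have hl : ∀ a v v', (∀ y ∈ qs a v, v y = v' y) → pr a v = pr a v' := by
    intro a v v' h
    have e := ATestb_local (B := B) (t0 := t0) (qf := qf) (x := stdString (t0 + X a)) K
      fun i c hc e => h i (mem_filter.2 ⟨mem_univ _, c, hc, e⟩)
    simp only [pr, e]
  refine le_trans (av_mono fun v => ?_) (transversal X hX qs pr hq hl hg)
  unfold ind
  split_ifs with h1 h2
  · exact le_rfl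
  · refine absurd (fun a => ?_) h2
    obtain ⟨h3, h4⟩ := (mkT_accept hb []).1 h1 (X a) (hXl a)
    refine ⟨fun hm => ?_, by rw [← ATestb_ext_std (B := B) (t0 := t0) v (X a)]; exact h3⟩
    obtain ⟨c, hc, e⟩ := (mem_filter.1 hm).2
    exact h4 c hc ((std_idx _).symm.trans (congrArg stdString e))
  · exact zero_le_one
  · exact le_rfl

/-- At the start of the window the expected value is small. -/
theorem mkT_init {tg g : ℕ} (hb : (mkT qf of t0 K (tg * g) Λ).Bnd N) (hN : t0 + tg * g ≤ N)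
    (hg : 2 * tg * K < g) (hΛ : 2 * Λ ≤ tg * g * (K + 1) * 2 ^ tg) :
    Fb (mkT qf of t0 K (tg * g) Λ) B t0 ≤ 2 * (tg * g * (K + 1) : ℕ) := by
  obtain ⟨k, rfl⟩ : ∃ k, N = t0 + k := ⟨N - t0, by omega⟩
  have h1 := av_ext (B := B) k hb fun h => ind (tE qf of t0 K (tg * g) h = true)
  have h2 := ATestb_prob (B := B) hb (by omega) hg
  have h3 : Fb (mkT qf of t0 K (tg * g) Λ) B t0 ≤
      av fun r : Fin (mkT qf of t0 K (tg * g) Λ).Q → Bool =>
        (Λ : ℚ) * ind (tE qf of t0 K (tg * g) (ans (mkT qf of t0 K (tg * g) Λ).Qy B t0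
          (List.ofFn r) (mkT qf of t0 K (tg * g) Λ).Q) = true) + (tg * g * (K + 1) : ℕ) := by
    refine av_mono fun r => ?_
    unfold Fv
    rw [Nat.cast_add]
    refine add_le_add ?_ (Nat.cast_le.2 (List.countP_le_length.trans (List.length_range).le))
    unfold ind
    change ((if tE qf of t0 K (tg * g) _ = true then Λ else 0 : ℕ) : ℚ) ≤ _
    split_ifs <;> simp
  rw [av_add, av_mul_left, av_const, h1] at h3
  have h4 : (Λ : ℚ) * (2 / 2 ^ tg) ≤ (tg * g * (K + 1) : ℕ) := by
    have h5 : ((2 * Λ : ℕ) : ℚ) ≤ (tg * g * (K + 1) * 2 ^ tg : ℕ) := Nat.cast_le.2 hΛ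
    rw [← mul_div_assoc, div_le_iff₀ (by positivity)]
    rw [Nat.cast_mul, Nat.cast_mul _ (2 ^ tg), Nat.cast_pow] at h5
    simp only [Nat.cast_ofNat] at h5
    linarith
  have h6 := mul_le_mul_of_nonneg_left h2 (Nat.cast_nonneg (α := ℚ) Λ)
  have h7 := h6.trans h4
  refine h3.trans ?_
  rw [two_mul]
  exact add_le_add h7 le_rfl

end Pool.Agent.P.MP_158ebf_lc.AT
end

-- part Pool.Agent.P.MP_158ebf_lc.ACoin
section

/-! Coins read from positions that are never revealed. -/

namespace Pool.Agent.P.MP_158ebf_lc.AT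

open Function Finset N487b59b3 N68a2faeb Pool.Agent.Lib.PolyTime

/-- The first `P` queries read coins at the positions from `N` on. -/
def coinQ (q : (Str × Str) × Str → Str) (N P : ℕ) (p : Str × Str) : Str :=
  if p.2.length < P then stdString (N + p.2.length) else q ((p.1, p.2.take P), p.2.drop P)

/-- The output from coins and answers. -/
def coinO (o : (Str × Str) × Str → Bool) (P : ℕ) (p : Str × Str) : Bool :=
  o ((p.1, p.2.take P), p.2.drop P)

variable {q : (Str × Str) × Str → Str} {o : (Str × Str) × Str → Bool} {t0 K s Λ N P : ℕ}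
  {A : Str → Bool}

theorem coin_bnd (of : Str × Str → Bool) (hq : ∀ p, idx (q p) < N) (hs : t0 + s ≤ N) :
    (mkT (coinQ q N P) of t0 K s Λ).Bnd (N + P) := by
  intro h hh
  change h.length < s * (K + 1) at hh
  change idx (tQ (coinQ q N P) t0 K h) < _
  unfold tQ coinQ
  split_ifs with hc hd
  · rw [idx_std]
    omega
  · exact (hq _).trans_le (Nat.le_add_right _ _)
  · rw [idx_std]
    have : h.length / (K + 1) < s := (Nat.div_lt_iff_lt_mul (Nat.succ_pos K)).2 hh
    omega

theorem ACoin_le (v : Fin P → Bool) (x : Str) {j : ℕ} (hj : j ≤ P) :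
    oans (ext A N v) (coinQ q N P) x j = (List.ofFn v).take j := by
  induction j with
  | zero => rfl
  | succ j ih =>
    have h1 : j < (List.ofFn v).length := by rw [List.length_ofFn]; omega
    have h2 := ATestb_ext_std (B := A) (t0 := N) v ⟨j, hj⟩
    rw [oans, coinQ, Orc_length_oans, if_pos (show j < P from hj), h2, ih (by omega),
      List.take_succ_eq_append_getElem h1, List.getElem_ofFn]

theorem ACoin_q (v : Fin P → Bool) (x w : Str) :
    coinQ q N P (x, List.ofFn v ++ w) = q ((x, List.ofFn v), w) := by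
  rw [coinQ, if_neg (by simp), List.take_left' (List.length_ofFn ..),
    List.drop_left' (List.length_ofFn ..)]

theorem ACoin_add (hq : ∀ p, idx (q p) < N) (v : Fin P → Bool) (x : Str) (i : ℕ) :
    oans (ext A N v) (coinQ q N P) x (P + i) = List.ofFn v ++ oans A q (x, List.ofFn v) i := by
  induction i with
  | zero =>
    rw [Nat.add_zero, ACoin_le v x le_rfl, List.take_of_length_le (List.length_ofFn ..).le, oans,
      List.append_nil]
  | succ i ih => rw [← Nat.add_assoc, oans, oans, ih, ACoin_q, ext, if_pos (hq _), List.append_assoc]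

/-- At the end of the window the expected value is large. -/
theorem mkT_end (hP : P ≤ K) (hq : ∀ p, idx (q p) < N) (hs : t0 + s ≤ N)
    (h1 : ∀ a < s, ∀ r : Fin P → Bool, ∀ j < K - P, q ((stdString (t0 + a), List.ofFn r),
      oans A q (stdString (t0 + a), List.ofFn r) j) ≠ stdString (t0 + a))
    (h2 : ∀ a < s, 2 * s * av (fun r : Fin P → Bool => ind (A (stdString (t0 + a)) ≠
      o ((stdString (t0 + a), List.ofFn r),
        oans A q (stdString (t0 + a), List.ofFn r) (K - P)))) ≤ 1) :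
    (Λ : ℚ) / 2 ≤ Fb (mkT (coinQ q N P) (coinO o P) t0 K s Λ) A N := by
  have hb := coin_bnd (K := K) (Λ := Λ) (P := P) (coinO o P) hq hs
  have h3 := av_ext (B := A) P hb fun h => ind (tE (coinQ q N P) (coinO o P) t0 K s h = true)
  have h4 := av_union (s := s) (ε := 1 / (2 * s)) (fun a (r : Fin P → Bool) =>
    A (stdString (t0 + a)) ≠ o ((stdString (t0 + a), List.ofFn r),
      oans A q (stdString (t0 + a), List.ofFn r) (K - P))) fun a ha => by
    have : (0 : ℚ) < s := Nat.cast_pos.2 (by omega)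
    rw [le_div_iff₀ (by positivity), mul_comm]
    exact h2 a ha
  have h5 : (s : ℚ) * (1 / (2 * s)) ≤ 1 / 2 := by
    rcases Nat.eq_zero_or_pos s with rfl | h
    · simp
    · have : (0 : ℚ) < s := Nat.cast_pos.2 h
      exact le_of_eq (by field_simp)
  have h6 : av (fun v : Fin P → Bool => 1 - ind (∃ a < s, A (stdString (t0 + a)) ≠
      o ((stdString (t0 + a), List.ofFn v), oans A q (stdString (t0 + a), List.ofFn v) (K - P)))) ≤
      av fun v : Fin P → Bool => ind (tE (coinQ q N P) (coinO o P) t0 K s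
        (ans (tQ (coinQ q N P) t0 K) (ext A N v) (N + P) [] (s * (K + 1))) = true) := by
    refine av_mono fun v => ?_
    by_cases he : ∃ a < s, A (stdString (t0 + a)) ≠ o ((stdString (t0 + a), List.ofFn v),
        oans A q (stdString (t0 + a), List.ofFn v) (K - P))
    · rw [ind, if_pos he, sub_self]
      exact ind_nonneg _
    rw [ind, if_neg he, sub_zero, ind, if_pos]
    refine (mkT_accept hb []).2 fun a ha => ⟨?_, fun j hj => ?_⟩
    · have e := ACoin_add (A := A) hq v (stdString (t0 + a)) (K - P)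
      rw [Nat.add_sub_cancel' hP] at e
      rw [e, coinO, List.take_left' (List.length_ofFn ..), List.drop_left' (List.length_ofFn ..),
        ext, if_pos (by rw [idx_std]; omega)]
      exact by_contra fun hne => he ⟨a, ha, hne⟩
    · by_cases hj' : j < P
      · rw [coinQ, Orc_length_oans, if_pos hj']
        intro e
        have := congrArg idx e
        rw [idx_std, idx_std] at this
        omega
      · obtain ⟨i, rfl⟩ : ∃ i, j = P + i := ⟨j - P, by omega⟩
        rw [ACoin_add hq, ACoin_q]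
        exact h1 a ha v i (by omega)
  have h7 : av (fun r : Fin (mkT (coinQ q N P) (coinO o P) t0 K s Λ).Q → Bool =>
      (Λ : ℚ) * ind (tE (coinQ q N P) (coinO o P) t0 K s
        (ans (mkT (coinQ q N P) (coinO o P) t0 K s Λ).Qy A N (List.ofFn r)
          (mkT (coinQ q N P) (coinO o P) t0 K s Λ).Q) = true)) ≤
      Fb (mkT (coinQ q N P) (coinO o P) t0 K s Λ) A N := by
    refine av_mono fun r => ?_
    unfold Fv
    rw [Nat.cast_add]
    refine le_trans ?_ (le_add_of_nonneg_right (Nat.cast_nonneg _))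
    unfold ind
    change _ ≤ ((if tE (coinQ q N P) (coinO o P) t0 K s _ = true then Λ else 0 : ℕ) : ℚ)
    split_ifs <;> simp
  rw [av_mul_left, h3] at h7
  rw [av_sub, av_const] at h6
  refine le_trans ?_ h7
  rw [div_eq_mul_one_div]
  exact mul_le_mul_of_nonneg_left (le_trans (by linarith) h6) (Nat.cast_nonneg _)

end Pool.Agent.P.MP_158ebf_lc.AT
end

-- part Pool.Agent.P.MP_158ebf_lc.AFlex
section

/-! Computability of runs and of the betting strategy. -/

namespace Pool.Agent.P.MP_158ebf_lc.AT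

open Function N487b59b3 N68a2faeb Pool.Agent.Lib.PolyTime

variable {α β : Type} [N487b59b3 α] [N487b59b3 β] {O : Str → Bool}

/-- A polynomial-time family of tests. -/
structure TestPT (T : α → Test) : Prop where
  Qy : PT fun p : α × Str => (T p.1).Qy p.2
  E : PT fun p : α × Str => (T p.1).E p.2
  Q : PT fun a => (T a).Q
  Q' : Small fun a => (T a).Q
  Λ : PT fun a => (T a).Λ

theorem TestPT.comp {T : β → Test} {g : α → β} (h : TestPT T) (hg : PT g) :
    TestPT fun a => T (g a) := by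
  exact ⟨PT.comp (g := fun p : α × Str => (g p.1, p.2)) h.Qy (by fun_prop),
    PT.comp (g := fun p : α × Str => (g p.1, p.2)) h.E (by fun_prop), h.Q.comp hg, h.Q'.comp hg,
    h.Λ.comp hg⟩

theorem pt_of_flex {f : α → β} (h : Flex (fun _ => false) f) : PT f := by
  obtain ⟨q, o, n, -, ho, ⟨p, hp⟩, h⟩ := h
  have e : ∀ a m, oans (fun _ => false) q a m = List.replicate m false := by
    intro a m
    induction m with
    | zero => rfl
    | succ m ih => rw [oans, ih, List.replicate_succ']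
  refine (show PT fun a => o (a, List.replicate (p.eval (sz a)) false) by fun_prop).congr
    fun a => ?_
  rw [h a _ (hp a), e]

@[fun_prop] theorem pt_idx {y : α → Str} (hy : PT y) : PT fun a => idx (y a) := by
  unfold idx
  fun_prop

@[fun_prop] theorem pt_stdString {n : α → ℕ} (hn : PT n) : PT fun a => stdString (n a) := by
  unfold stdString
  fun_prop

@[fun_prop] theorem pt_testBit {n k : α → ℕ} (hn : PT n) (hk : PT k) :
    PT fun a => (n a).testBit (k a) := by
  refine (show PT fun a => (n a).bits.getD (k a) false by fun_prop).congr fun a => ?_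
  rw [Nat.testBit_eq_inth]
  rfl

@[fun_prop] theorem pt_int_sum {l : α → List ℤ} (hl : PT l) : PT fun a => (l a).sum := by
  refine (show PT fun a => ((((l a).map fun z => z.toNat).sum : ℕ) : ℤ) -
    ((((l a).map fun z => (-z).toNat).sum : ℕ) : ℤ) by fun_prop).congr fun a => ?_
  induction l a with
  | nil => rfl
  | cons x r ih =>
    simp only [List.sum_cons, List.map_cons, ih]
    omega

theorem testPT_mkT {qf : α → Str × Str → Str} {of : α → Str × Str → Bool} {t0 K s Λ : α → ℕ}
    (hq : PT fun p : α × Str × Str => qf p.1 p.2) (ho : PT fun p : α × Str × Str => of p.1 p.2)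
    (h0 : PT t0) (hK : PT K) (hK' : Small K) (hs : PT s) (hs' : Small s) (hΛ : PT Λ) :
    TestPT fun a => mkT (qf a) (of a) (t0 a) (K a) (s a) (Λ a) := by
  obtain ⟨F, e1⟩ : ∃ F : α × Str × Str → Str, F = fun p => qf p.1 p.2 := ⟨_, rfl⟩
  obtain ⟨G, e2⟩ : ∃ G : α × Str × Str → Bool, G = fun p => of p.1 p.2 := ⟨_, rfl⟩
  rw [← e1] at hq
  rw [← e2] at ho
  refine ⟨?_, ?_, ?_, ?_, hΛ⟩
  · refine (show PT fun p : α × Str => if p.2.length % (K p.1 + 1) < K p.1 then
      F (p.1, stdString (t0 p.1 + p.2.length / (K p.1 + 1)),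
        p.2.drop (p.2.length / (K p.1 + 1) * (K p.1 + 1)))
      else stdString (t0 p.1 + p.2.length / (K p.1 + 1)) by fun_prop).congr fun p => ?_
    subst e1
    rfl
  · refine (show PT fun p : α × Str => (List.range (s p.1)).all fun a =>
      (p.2.getD (a * (K p.1 + 1) + K p.1) false ==
        G (p.1, stdString (t0 p.1 + a), (p.2.drop (a * (K p.1 + 1))).take (K p.1))) &&
      (List.range (K p.1)).all fun c =>
        !(F (p.1, stdString (t0 p.1 + a), (p.2.drop (a * (K p.1 + 1))).take c) ==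
          stdString (t0 p.1 + a)) by fun_prop).congr fun p => ?_
    subst e1 e2
    rfl
  · show PT fun a => s a * (K a + 1)
    fun_prop
  · show Small fun a => s a * (K a + 1)
    fun_prop

theorem flex_ov {B : α → Str → Bool} {t : α → ℕ} {b : α → Bool}
    (hB : Flex O fun p : α × Str => B p.1 p.2) (ht : PT t) (hb : PT b) :
    Flex O fun p : α × Str => ov (B p.1) (t p.1) (b p.1) p.2 := by
  exact Orc_post (g := fun y : (α × Str) × Bool => if idx y.1.2 = t y.1.1 then b y.1.1 else y.2) hB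
    (by fun_prop)

theorem AFlexb_first {Qy : α × Str → Str} (hQ : PT Qy) :
    PT fun p : α × Str => first (fun h => Qy (p.1, h)) p.2 := by
  unfold first
  fun_prop

theorem AFlexb_tape {lam Q t : α → ℕ} {z : α → Str} (hl : PT lam) (hl' : Small lam) (hQ : PT Q)
    (hQ' : Small Q) (hz : PT z) (ht : PT t) : PT fun a => tape (lam a) (Q a) (z a) (t a) := by
  unfold tape
  fun_prop

theorem AFlexb_ans {Qy : α × Str → Str} {B : α → Str → Bool} {t Q : α → ℕ} {r : α → Str}
    (hQy : PT Qy) (hB : Flex O fun p : α × Str => B p.1 p.2) (ht : PT t) (hr : PT r) (hQ : PT Q)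
    (hQ' : Small Q) : Flex O fun a => ans (fun h => Qy (a, h)) (B a) (t a) (r a) (Q a) := by
  obtain ⟨F, hFe⟩ : ∃ F : α × Str → ℕ, F = fun p => first (fun h => Qy (p.1, h)) p.2 := ⟨_, rfl⟩
  have hF : PT F := hFe ▸ AFlexb_first hQy
  have h1 : Flex O fun p : α × Str => B p.1 (Qy p) :=
    Orc_pre (f := fun q : α × Str => B q.1 q.2) (g := fun p : α × Str => (p.1, Qy p)) hB
      (by fun_prop)
  have h2 : Flex O fun p : α × Str =>
      p.2 ++ [stp (fun h => Qy (p.1, h)) (B p.1) (t p.1) (r p.1) p.2] := by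
    refine (Orc_post (g := fun y : (α × Str) × Bool => y.1.2 ++
      [if idx (Qy y.1) < t y.1.1 then y.2 else (r y.1.1).getD (F y.1) false]) h1
      (by fun_prop)).congr fun p => ?_
    rw [hFe]
    rfl
  refine Flex.iterate (s := fun _ => ([] : Str))
    (F := fun a h => h ++ [stp (fun h => Qy (a, h)) (B a) (t a) (r a) h]) hQ hQ'
    (Flex.of_pt (PT.const _)) h2 ?_
  have h3 : Small fun a => 3 * Q a := by fun_prop
  refine (PB.reindex h3 (Prod.fst : α × ℕ → α)).mono fun p => ?_
  have h4 := length_ans (Qy := fun h => Qy (p.1, h)) (B := B p.1) (t := t p.1) (r := r p.1)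
    (min p.2 (Q p.1))
  rw [sz_str]
  exact Nat.mul_le_mul_left 3 (h4.le.trans (min_le_right _ _))

theorem AFlexb_Fv {T : α → Test} {B : α → Str → Bool} {t : α → ℕ} {r : α → Str} (hT : TestPT T)
    (hB : Flex O fun p : α × Str => B p.1 p.2) (ht : PT t) (hr : PT r) :
    Flex O fun a => Fv (T a) (B a) (t a) (r a) := by
  obtain ⟨hQy, hE, hQ, hQ', hΛ⟩ := hT
  have h1 := AFlexb_ans hQy hB ht hr hQ hQ'
  obtain ⟨Qy, e1⟩ : ∃ F : α × Str → Str, F = fun p => (T p.1).Qy p.2 := ⟨_, rfl⟩
  obtain ⟨E, e2⟩ : ∃ F : α × Str → Bool, F = fun p => (T p.1).E p.2 := ⟨_, rfl⟩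
  obtain ⟨Q, e3⟩ : ∃ F : α → ℕ, F = fun a => (T a).Q := ⟨_, rfl⟩
  obtain ⟨Λ, e4⟩ : ∃ F : α → ℕ, F = fun a => (T a).Λ := ⟨_, rfl⟩
  rw [← e1] at hQy
  rw [← e2] at hE
  rw [← e3] at hQ hQ'
  rw [← e4] at hΛ
  refine (Orc_post (g := fun y : α × Str => (bif E y then Λ y.1 else 0) +
    (List.range (Q y.1)).countP fun j => decide (t y.1 ≤ idx (Qy (y.1, y.2.take j)))) h1
    (by fun_prop)).congr fun a => ?_
  subst e1 e2 e3 e4
  simp only [Fv, Bool.cond_eq_ite]

theorem AFlexb_gap {T : α → Test} {B : α → Str → Bool} {t : α → ℕ} {r : α → Str} (hT : TestPT T)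
    (hB : Flex O fun p : α × Str => B p.1 p.2) (ht : PT t) (hr : PT r) :
    Flex O fun a => gap (T a) (B a) (t a) (r a) := by
  have h1 := AFlexb_Fv (t := fun a => t a + 1) (B := fun a => ov (B a) (t a) true) hT
    (flex_ov hB ht (PT.const true)) (by fun_prop) hr
  have h2 := AFlexb_Fv (t := fun a => t a + 1) (B := fun a => ov (B a) (t a) false) hT
    (flex_ov hB ht (PT.const false)) (by fun_prop) hr
  exact Orc_post (g := fun y : α × ℕ × ℕ => (y.2.1 : ℤ) - (y.2.2 : ℤ)) (h1.pair h2) (by fun_prop)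

theorem flex_vl {T : α → Test} {t0 lam t : α → ℕ} {B : α → Str → Bool} {z : α → Str}
    (hT : TestPT T) (h0 : PT t0) (hl : PT lam) (hl' : Small lam)
    (hB : Flex O fun p : α × Str => B p.1 p.2) (hz : PT z) (ht : PT t) :
    Flex O fun a => vl (T a) (t0 a) (lam a) (B a) (z a) (t a) := by
  have h1 := AFlexb_gap hT hB ht (AFlexb_tape hl hl' hT.Q hT.Q' hz ht)
  have h2 : Flex O fun a => B a (stdString (t a)) :=
    Orc_pre (f := fun q : α × Str => B q.1 q.2) (g := fun a : α => (a, stdString (t a))) hB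
      (by fun_prop)
  refine (Orc_post (g := fun y : α × Bool × ℤ =>
    if t0 y.1 ≤ t y.1 then (bif y.2.1 then (1 : ℤ) else -1) * y.2.2 else 0) (h2.pair h1)
    (by fun_prop)).congr fun a => ?_
  simp only [vl, Bool.cond_eq_ite]

theorem AFlexb_Wv {T : α → Test} {t0 lam J : α → ℕ} {z w : α → Str}
    (hT : TestPT T) (h0 : PT t0) (hl : PT lam) (hl' : Small lam) (hJ : PT J) (hz : PT z)
    (hw : PT w) :
    PT fun a => Wv (T a) (t0 a) (lam a) (J a) (orc (w a)) (w a).length (z a) := by
  have h1 : PT fun p : α × ℕ => vl (T p.1) (t0 p.1) (lam p.1) (orc (w p.1)) (z p.1) p.2 :=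
    pt_of_flex (flex_vl (T := fun p : α × ℕ => T p.1) (B := fun p : α × ℕ => orc (w p.1))
      (hT.comp (by fun_prop)) (by fun_prop) (by fun_prop) (by fun_prop)
      (Flex.of_pt (by unfold orc; fun_prop)) (by fun_prop) (by fun_prop))
  have hQ := hT.Q
  have hΛ := hT.Λ
  obtain ⟨F, e1⟩ : ∃ F : α × ℕ → ℤ,
    F = fun p => vl (T p.1) (t0 p.1) (lam p.1) (orc (w p.1)) (z p.1) p.2 := ⟨_, rfl⟩
  obtain ⟨Q, e3⟩ : ∃ F : α → ℕ, F = fun a => (T a).Q := ⟨_, rfl⟩
  obtain ⟨Λ, e4⟩ : ∃ F : α → ℕ, F = fun a => (T a).Λ := ⟨_, rfl⟩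
  rw [← e1] at h1
  rw [← e3] at hQ
  rw [← e4] at hΛ
  refine (show PT fun a =>
    if ((List.range (w a).length).countP fun t => decide (F (a, t) ≠ 0)) ≤ J a then
      ((List.range (w a).length).map fun t => F (a, t)).sum
    else -((J a * (Λ a + Q a) : ℕ) : ℤ) by fun_prop).congr fun a => ?_
  subst e1 e3 e4
  rfl

theorem AFlexb_Cv {T : α → Test} {t0 lam J : α → ℕ} {Zs : α → List Str} {w : α → Str}
    (hT : TestPT T) (h0 : PT t0) (hl : PT lam) (hl' : Small lam) (hJ : PT J) (hZ : PT Zs)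
    (hw : PT w) : PT fun a => Cv (T a) (t0 a) (lam a) (J a) (Zs a) (w a) := by
  have h1 : PT fun p : α × Str =>
      Wv (T p.1) (t0 p.1) (lam p.1) (J p.1) (orc (w p.1)) (w p.1).length p.2 :=
    AFlexb_Wv (T := fun p : α × Str => T p.1) (hT.comp (by fun_prop)) (by fun_prop) (by fun_prop)
      (by fun_prop) (by fun_prop) (by fun_prop) (by fun_prop)
  have hQ := hT.Q
  obtain ⟨F, e1⟩ : ∃ F : α × Str → ℤ, F = fun p =>
    Wv (T p.1) (t0 p.1) (lam p.1) (J p.1) (orc (w p.1)) (w p.1).length p.2 := ⟨_, rfl⟩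
  obtain ⟨Q, e3⟩ : ∃ F : α → ℕ, F = fun a => (T a).Q := ⟨_, rfl⟩
  rw [← e1] at h1
  rw [← e3] at hQ
  refine (show PT fun a => 2 * (Q a : ℚ) + 1 +
    ((Zs a).map fun z => (F (a, z) : ℚ)).sum / (2 * ((Zs a).length : ℚ)) by fun_prop).congr
    fun a => ?_
  subst e1 e3
  rfl

theorem pt_dv {T : α → Test} {t0 lam J : α → ℕ} {Zs : α → List Str} {w : α → Str}
    (hT : TestPT T) (h0 : PT t0) (hl : PT lam) (hl' : Small lam) (hJ : PT J) (hZ : PT Zs)
    (hw : PT w) : PT fun a => dv (T a) (t0 a) (lam a) (J a) (Zs a) (w a) := by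
  have h1 : PT fun p : α × Str => Cv (T p.1) (t0 p.1) (lam p.1) (J p.1) (Zs p.1) p.2 :=
    AFlexb_Cv (T := fun p : α × Str => T p.1) (hT.comp (by fun_prop)) (by fun_prop) (by fun_prop)
      (by fun_prop) (by fun_prop) (by fun_prop) (by fun_prop)
  obtain ⟨F, e1⟩ : ∃ F : α × Str → ℚ,
    F = fun p => Cv (T p.1) (t0 p.1) (lam p.1) (J p.1) (Zs p.1) p.2 := ⟨_, rfl⟩
  rw [← e1] at h1
  refine (show PT fun a =>
    bif (List.range (w a).length).all fun t => decide (0 ≤ F (a, (w a).take t ++ [false])) &&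
      decide (0 ≤ F (a, (w a).take t ++ [true])) then F (a, w a) else 0 by fun_prop).congr
    fun a => ?_
  subst e1
  simp only [dv, Bool.cond_eq_ite]

end Pool.Agent.P.MP_158ebf_lc.AT
end

-- part Pool.Agent.P.MP_158ebf_lc.AWin
section

/-! The strategy wins when the pseudorandom strings reproduce the expected gain. -/

namespace Pool.Agent.P.MP_158ebf_lc.AT

open Function Finset N487b59b3 N68a2faeb Pool.Agent.Lib.PolyTime

/-- Total hitting probability on the positions from `t0` to `N`. -/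
def mu (T : Test) (t0 : ℕ) (B : Str → Bool) (N : ℕ) : ℚ := ∑ t ∈ Ico t0 N, hit T B t

variable {T : Test} {t0 lam J N : ℕ} {A B : Str → Bool} {Zs : List Str}

theorem AWina_one {t : ℕ} (h0 : t0 ≤ t) (ht : t < 2 ^ lam) :
    2 * (Fb T B (t + 1) - Fb T B t) + 2 * hit T B t ≤
      av fun z : Fin (T.Q * (lam + 1)) → Bool => (vl T t0 lam B (List.ofFn z) t : ℚ) := by
  have h1 := av_tape (Q := T.Q) ht fun r => (gap T B t r : ℚ)
  have h2 := av_gap (T := T) (B := B) (t := t)
  have h3 := Fb_step (T := T) (B := B) (t := t)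
  have h4 := agr_ov_self B t
  have h5 : (fun z : Fin (T.Q * (lam + 1)) → Bool => (vl T t0 lam B (List.ofFn z) t : ℚ)) =
      fun z => (if B (stdString t) then 1 else -1 : ℚ) *
        (gap T B t (tape lam T.Q (List.ofFn z) t) : ℚ) := by
    funext z
    unfold vl
    rw [if_pos h0]
    split_ifs <;> simp
  rw [h5, av_mul_left, h1, h2]
  cases hb : B (stdString t)
  · rw [hb] at h4
    rw [h4] at h3 ⊢
    simp only [Bool.false_eq_true, if_false]
    linarith
  · rw [hb] at h4
    rw [h4] at h3 ⊢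
    simp only [if_true]
    linarith

theorem av_sum_vl (h0 : t0 ≤ N) (hN : N ≤ 2 ^ lam) :
    2 * (Fb T B N - Fb T B t0) + 2 * mu T t0 B N ≤
      av fun z : Fin (T.Q * (lam + 1)) → Bool =>
        ((((List.range N).map (vl T t0 lam B (List.ofFn z))).sum : ℤ) : ℚ) := by
  induction N, h0 using Nat.le_induction with
  | base =>
    have h : (fun z : Fin (T.Q * (lam + 1)) → Bool =>
        ((((List.range t0).map (vl T t0 lam B (List.ofFn z))).sum : ℤ) : ℚ)) = fun _ => 0 := by
      funext z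
      have : ((List.range t0).map (vl T t0 lam B (List.ofFn z))).sum = 0 := by
        apply List.sum_eq_zero
        intro x hx
        obtain ⟨t, ht, rfl⟩ := List.mem_map.1 hx
        unfold vl
        rw [if_neg (by have := List.mem_range.1 ht; omega)]
      rw [this]; simp
    rw [h, av_const]
    simp [mu]
  | succ n hn ih =>
    have h1 := ih (by omega)
    have h2 := AWina_one (T := T) (B := B) (lam := lam) hn (by omega)
    have h3 : mu T t0 B (n + 1) = mu T t0 B n + hit T B n := by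
      unfold mu
      rw [Finset.sum_Ico_succ_top hn]
    have h : (fun z : Fin (T.Q * (lam + 1)) → Bool =>
        ((((List.range (n + 1)).map (vl T t0 lam B (List.ofFn z))).sum : ℤ) : ℚ)) =
        fun z => ((((List.range n).map (vl T t0 lam B (List.ofFn z))).sum : ℤ) : ℚ) +
          (vl T t0 lam B (List.ofFn z) n : ℚ) := by
      funext z
      rw [List.range_succ, List.map_append, List.sum_append]
      simp
    rw [h, av_add, h3]
    linarith

theorem AWina_count (z : Str) (N : ℕ) :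
    (((List.range N).countP fun t => decide (vl T t0 lam B z t ≠ 0) : ℕ) : ℚ) =
      ∑ t ∈ Ico t0 N, ind (gap T B t (tape lam T.Q z t) ≠ 0) := by
  induction N with
  | zero => simp
  | succ n ih =>
    rw [List.range_succ, List.countP_append, Nat.cast_add, ih]
    by_cases hn : t0 ≤ n
    · rw [Finset.sum_Ico_succ_top hn]
      congr 1
      have hv : vl T t0 lam B z n ≠ 0 ↔ gap T B n (tape lam T.Q z n) ≠ 0 := by
        unfold vl
        rw [if_pos hn]
        split_ifs <;> simp
      by_cases hg : gap T B n (tape lam T.Q z n) ≠ 0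
      · have := hv.2 hg
        simp [ind, hg, this]
      · have : ¬vl T t0 lam B z n ≠ 0 := fun h => hg (hv.1 h)
        simp only [ind, if_neg hg, List.countP_singleton, decide_eq_true_eq, if_neg this]
        simp
    · have hv : vl T t0 lam B z n = 0 := by
        unfold vl
        rw [if_neg hn]
      rw [Finset.Ico_eq_empty (by omega), Finset.Ico_eq_empty (by omega)]
      simp [hv]

theorem av_count_sq (hN : N ≤ 2 ^ lam) :
    av (fun z : Fin (T.Q * (lam + 1)) → Bool =>
      (((List.range N).countP fun t => decide (vl T t0 lam B (List.ofFn z) t ≠ 0) : ℕ) : ℚ) ^ 2) ≤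
      mu T t0 B N + mu T t0 B N ^ 2 := by
  have h : (fun z : Fin (T.Q * (lam + 1)) → Bool =>
      (((List.range N).countP fun t => decide (vl T t0 lam B (List.ofFn z) t ≠ 0) : ℕ) : ℚ) ^ 2) =
      fun z => ∑ t ∈ Ico t0 N, ∑ s ∈ Ico t0 N,
        ind (gap T B t (tape lam T.Q (List.ofFn z) t) ≠ 0) *
          ind (gap T B s (tape lam T.Q (List.ofFn z) s) ≠ 0) := by
    funext z
    rw [AWina_count, pow_two, Finset.sum_mul_sum]
  rw [h, av_sum]
  have h2 : mu T t0 B N + mu T t0 B N ^ 2 =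
      ∑ t ∈ Ico t0 N, ∑ s ∈ Ico t0 N, ((if t = s then hit T B t else 0) + hit T B t * hit T B s) := by
    unfold mu
    rw [pow_two, Finset.sum_mul_sum, ← Finset.sum_add_distrib]
    refine Finset.sum_congr rfl fun t ht => ?_
    rw [Finset.sum_add_distrib, Finset.sum_ite_eq, if_pos ht]
  rw [h2]
  refine Finset.sum_le_sum fun t ht => ?_
  rw [av_sum]
  refine Finset.sum_le_sum fun s hs => ?_
  have ht' : t < 2 ^ lam := lt_of_lt_of_le (Finset.mem_Ico.1 ht).2 hN
  have hs' : s < 2 ^ lam := lt_of_lt_of_le (Finset.mem_Ico.1 hs).2 hN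
  by_cases hts : t = s
  · subst hts
    have h3 := av_tape (Q := T.Q) ht' fun r => ind (gap T B t r ≠ 0)
    have h4 : (fun z : Fin (T.Q * (lam + 1)) → Bool =>
        ind (gap T B t (tape lam T.Q (List.ofFn z) t) ≠ 0) *
          ind (gap T B t (tape lam T.Q (List.ofFn z) t) ≠ 0)) =
        fun z => ind (gap T B t (tape lam T.Q (List.ofFn z) t) ≠ 0) := by
      funext z
      unfold ind
      split_ifs <;> simp
    rw [h4, h3, if_pos rfl]
    have := mul_self_nonneg (hit T B t)
    unfold hit at this ⊢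
    linarith
  · have h3 := av_tape_two (Q := T.Q) ht' hs' hts (fun r => ind (gap T B t r ≠ 0))
      fun r => ind (gap T B s r ≠ 0)
    rw [h3, if_neg hts, zero_add]
    exact le_of_eq rfl

theorem AWina_sum_le (f : ℕ → ℤ) (M : ℤ) (hf : ∀ t, |f t| ≤ M) (l : List ℕ) :
    (l.map f).sum ≤ (l.countP fun t => decide (f t ≠ 0) : ℕ) * M := by
  induction l with
  | nil => simp
  | cons a l ih =>
    rw [List.map_cons, List.sum_cons, List.countP_cons]
    have h := (abs_le.1 (hf a)).2
    by_cases ha : f a ≠ 0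
    · rw [if_pos (by simpa using ha)]
      push_cast
      linarith
    · rw [if_neg (by simpa using ha)]
      have : f a = 0 := not_not.1 ha
      push_cast
      linarith

theorem av_Wv (h0 : t0 ≤ N) (hN : N ≤ 2 ^ lam) (hJ : J = 2 * (T.Λ + T.Q) * (T.Λ + 2))
    (hμ : mu T t0 B N ≤ T.Λ + 1) :
    2 * (Fb T B N - Fb T B t0) + mu T t0 B N ≤
      av fun z : Fin (T.Q * (lam + 1)) → Bool => (Wv T t0 lam J B N (List.ofFn z) : ℚ) := by
  have h1 := av_sum_vl (T := T) (B := B) h0 hN
  have h2 := av_count_sq (T := T) (B := B) (t0 := t0) hN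
  have hμ0 : 0 ≤ mu T t0 B N := Finset.sum_nonneg fun _ _ => hit_nonneg
  have hL : (0 : ℚ) < T.Λ + 2 := by positivity
  have key : ∀ z : Str, ((((List.range N).map (vl T t0 lam B z)).sum : ℤ) : ℚ) -
      (1 / (T.Λ + 2 : ℚ)) *
        (((List.range N).countP fun t => decide (vl T t0 lam B z t ≠ 0) : ℕ) : ℚ) ^ 2 ≤
      (Wv T t0 lam J B N z : ℚ) := by
    intro z
    have hs := AWina_sum_le (vl T t0 lam B z) _ (fun t => abs_vl_le t) (List.range N)
    unfold Wv
    generalize ((List.range N).countP fun t => decide (vl T t0 lam B z t ≠ 0)) = c at hs ⊢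
    generalize ((List.range N).map (vl T t0 lam B z)).sum = S at hs ⊢
    have hc0 : (0 : ℚ) ≤ c := Nat.cast_nonneg c
    split_ifs with hc
    · have : 0 ≤ (1 / (T.Λ + 2 : ℚ)) * (c : ℚ) ^ 2 := by positivity
      linarith
    · have hc' : (J : ℚ) ≤ c := by exact_mod_cast (not_le.1 hc).le
      have hs' : (S : ℚ) ≤ c * (T.Λ + T.Q : ℚ) := by exact_mod_cast hs
      have hM : (0 : ℚ) ≤ T.Λ + T.Q := by positivity
      have hJ' : (J : ℚ) = 2 * (T.Λ + T.Q) * (T.Λ + 2) := by rw [hJ]; push_cast; ring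
      have h5 : 2 * (T.Λ + T.Q : ℚ) * c ≤ (1 / (T.Λ + 2 : ℚ)) * (c : ℚ) ^ 2 := by
        rw [one_div_mul_eq_div, le_div_iff₀ hL]
        nlinarith [mul_le_mul_of_nonneg_right hc' hc0]
      push_cast
      nlinarith [mul_le_mul_of_nonneg_right hc' hM]
  refine le_trans ?_ (av_mono fun z => key (List.ofFn z))
  rw [av_sub, av_mul_left]
  have h6 : (1 / (T.Λ + 2 : ℚ)) * (mu T t0 B N + mu T t0 B N ^ 2) ≤ mu T t0 B N := by
    rw [one_div_mul_eq_div, div_le_iff₀ hL]
    nlinarith [mul_le_mul_of_nonneg_left hμ hμ0]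
  have h7 := mul_le_mul_of_nonneg_left h2 (by positivity : (0 : ℚ) ≤ 1 / (T.Λ + 2))
  linarith

theorem AWinb_mu_nonneg : 0 ≤ mu T t0 B N := Finset.sum_nonneg fun _ _ => hit_nonneg

theorem AWinb_mu_ov {t : ℕ} (b : Bool) : mu T t0 (ov A t b) (t + 1) = mu T t0 A (t + 1) := by
  unfold mu
  refine Finset.sum_congr rfl fun s hs => hit_congr ((agr_ov A t b).mono ?_)
  have := (Finset.mem_Ico.1 hs).2
  omega

theorem AWinb_mu_succ {t : ℕ} (h : t0 ≤ t) : mu T t0 A (t + 1) ≤ mu T t0 A t + 1 := by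
  unfold mu
  rw [Finset.sum_Ico_succ_top h]
  have := hit_le_one (T := T) (B := A) (t := t)
  linarith

theorem AWinb_take {t : ℕ} (h : t ≤ N) : (chi A N).take t = chi A t := by
  unfold chi
  rw [← List.map_take, List.take_range, min_eq_left h]

theorem AWinb_Cv {t : ℕ} (b : Bool) (h0 : t0 ≤ t) (ht : t < 2 ^ lam)
    (hJ : J = 2 * (T.Λ + T.Q) * (T.Λ + 2)) (hI : Fb T A t0 ≤ 2 * T.Q) (_hZ : Zs ≠ [])
    (hμ : mu T t0 A t ≤ T.Λ)
    (hG : av (fun z : Fin (T.Q * (lam + 1)) → Bool =>
      (Wv T t0 lam J (ov A t b) (t + 1) (List.ofFn z) : ℚ)) - 2 ≤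
        (Zs.map fun z => (Wv T t0 lam J (ov A t b) (t + 1) z : ℚ)).sum / Zs.length) :
    Fb T (ov A t b) (t + 1) + mu T t0 A (t + 1) / 2 ≤ Cv T t0 lam J Zs (chi A t ++ [b]) := by
  have hagr : Agr (t + 1) (orc (chi A t ++ [b])) (ov A t b) := by
    have h1 := agr_concat (chi A t) b
    rw [length_chi] at h1
    have h2 := (agr_chi A t).ov b
    intro y hy
    rw [h1 y hy, h2 y hy]
  have hm : mu T t0 (ov A t b) (t + 1) ≤ T.Λ + 1 := by
    rw [AWinb_mu_ov]
    have := AWinb_mu_succ (T := T) (A := A) h0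
    linarith
  have hW := av_Wv (T := T) (t0 := t0) (lam := lam) (J := J) (B := ov A t b) (N := t + 1)
    (by omega) (by omega) hJ hm
  rw [AWinb_mu_ov, Fb_congr ((agr_ov A t b).mono h0)] at hW
  unfold Cv
  rw [List.length_append, length_chi, List.length_singleton]
  have he : (Zs.map fun z => (Wv T t0 lam J (orc (chi A t ++ [b])) (t + 1) z : ℚ)) =
      Zs.map fun z => (Wv T t0 lam J (ov A t b) (t + 1) z : ℚ) :=
    List.map_congr_left fun z _ => by rw [Wv_congr hagr]
  rw [he, mul_comm (2 : ℚ) (Zs.length : ℚ), ← div_div]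
  linarith

theorem win (h0 : t0 ≤ 2 ^ lam) (hJ : J = 2 * (T.Λ + T.Q) * (T.Λ + 2))
    (hE' : (T.Λ : ℚ) / 2 ≤ Fb T A (2 ^ lam)) (hI : Fb T A t0 ≤ 2 * T.Q) (hZ : Zs ≠ [])
    (hG : ∀ t < 2 ^ lam, ∀ b, av (fun z : Fin (T.Q * (lam + 1)) → Bool =>
      (Wv T t0 lam J (ov A t b) (t + 1) (List.ofFn z) : ℚ)) - 2 ≤
        (Zs.map fun z => (Wv T t0 lam J (ov A t b) (t + 1) z : ℚ)).sum / Zs.length) :
    ∃ N, t0 ≤ N ∧ (T.Λ : ℚ) / 2 ≤ dv T t0 lam J Zs (chi A N) := by
  classical
  have hex : ∃ N, t0 ≤ N ∧ ((T.Λ : ℚ) < mu T t0 A N ∨ N = 2 ^ lam) := ⟨2 ^ lam, h0, Or.inr rfl⟩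
  obtain ⟨N, ⟨hN0, hN1⟩, hmin⟩ : ∃ N, (t0 ≤ N ∧ ((T.Λ : ℚ) < mu T t0 A N ∨ N = 2 ^ lam)) ∧
      ∀ t < N, ¬(t0 ≤ t ∧ ((T.Λ : ℚ) < mu T t0 A t ∨ t = 2 ^ lam)) :=
    ⟨Nat.find hex, Nat.find_spec hex, fun t ht => Nat.find_min hex ht⟩
  have hNle : N ≤ 2 ^ lam := by
    by_contra hc
    exact hmin (2 ^ lam) (by omega) ⟨h0, Or.inr rfl⟩
  have hmu : ∀ t < N, t0 ≤ t → mu T t0 A t ≤ T.Λ := fun t ht h1 => by
    by_contra hc
    exact hmin t ht ⟨h1, Or.inl (not_le.1 hc)⟩
  have hQ : (0 : ℚ) ≤ T.Q := Nat.cast_nonneg _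
  have hL : (0 : ℚ) ≤ T.Λ := Nat.cast_nonneg _
  have hC : ∀ t < N, ∀ b, 0 ≤ Cv T t0 lam J Zs (chi A t ++ [b]) := fun t ht b => by
    rcases lt_or_ge t t0 with h1 | h1
    · rw [Cv_short (by rw [List.length_append, length_chi, List.length_singleton]; omega)]
      linarith
    · have h2 := AWinb_Cv b h1 (by omega) hJ hI hZ (hmu t ht h1) (hG t (by omega) b)
      have h3 := Fb_nonneg (T := T) (B := ov A t b) (t := t + 1)
      have h4 := AWinb_mu_nonneg (T := T) (t0 := t0) (B := A) (N := t + 1)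
      linarith
  refine ⟨N, hN0, ?_⟩
  rcases Nat.eq_or_lt_of_le hN0 with h1 | h1
  · rw [dv_short (by rw [length_chi]; omega)]
    rcases hN1 with h2 | h2
    · rw [← h1] at h2
      simp only [mu, Finset.Ico_self, Finset.sum_empty] at h2
      linarith
    · rw [← h2, ← h1] at hE'
      linarith
  · have hd : dv T t0 lam J Zs (chi A N) = Cv T t0 lam J Zs (chi A N) := by
      unfold dv
      rw [if_pos]
      rw [List.all_eq_true]
      intro t ht
      rw [length_chi, List.mem_range] at ht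
      rw [AWinb_take ht.le, Bool.and_eq_true, decide_eq_true_eq, decide_eq_true_eq]
      exact ⟨hC t ht false, hC t ht true⟩
    rw [hd]
    obtain ⟨t, rfl⟩ : ∃ t, N = t + 1 := ⟨N - 1, by omega⟩
    have h2 := AWinb_Cv (A (stdString t)) (by omega) (by omega) hJ hI hZ
      (hmu t (by omega) (by omega)) (hG t (by omega) _)
    rw [agr_ov_self, ← chi_succ] at h2
    have h3 := Fb_nonneg (T := T) (B := A) (t := t + 1)
    have h4 := AWinb_mu_nonneg (T := T) (t0 := t0) (B := A) (N := t + 1)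
    rcases hN1 with h5 | h5
    · linarith
    · rw [← h5] at hE'
      linarith

end Pool.Agent.P.MP_158ebf_lc.AT
end

-- part Pool.Agent.P.MP_158ebf_lc.APar
section

/-! Parameters, the strategy at one scale and the formula extracted from its failure. -/

namespace Pool.Agent.P.MP_158ebf_lc.AT

open Function N487b59b3 N68a2faeb Pool.Agent.Lib.PolyTime

/-- Clocked query machine. -/
def rq (e : Code) (H K : ℕ) (p : (Str × Str) × Str) : Str :=
  (decStr (urun e (bitEncode p) H)).take K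

/-- Clocked output machine. -/
def ro (e : Code) (H : ℕ) (p : (Str × Str) × Str) : Bool := (urun e (bitEncode p) H).headD false

/-- Clocked query machine that reads its coins from the oracle. -/
def cq (e : Code) (H K : ℕ) : Str × Str → Str := coinQ (rq e H K) (2 ^ (K + 1)) (K / 2)

/-- Clocked output machine that reads its coins from the oracle. -/
def co (e : Code) (H K : ℕ) : Str × Str → Bool := coinO (ro e H) (K / 2)

/-- Start of the window. -/
def t0 (m : ℕ) : ℕ := 2 ^ (m + 2) ^ 4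

/-- Number of groups. -/
def tg (m : ℕ) : ℕ := 4 * m + 9

/-- Size of a group. -/
def gg (m K : ℕ) : ℕ := 2 * tg m * K + 1

/-- Number of queries of the test. -/
def QQ (m K : ℕ) : ℕ := tg m * gg m K * (K + 1)

/-- The prize. -/
def Lm (m K : ℕ) : ℕ := QQ m K * (m + 2) ^ 4

/-- Number of bets per seed. -/
def JJ (m K : ℕ) : ℕ := 2 * (Lm m K + QQ m K) * (Lm m K + 2)

/-- Bound for the gain of a seed. -/
def R0 (m K : ℕ) : ℕ := JJ m K * (Lm m K + QQ m K)

/-- Output length of the generator. -/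
def Lz (m K : ℕ) : ℕ := QQ m K * (K + 1 + 1)

/-- Lower bound for the field size. -/
def fs (m K : ℕ) : ℕ := 64 * (m + 1) * (R0 m K * Lz m K) ^ 2

/-- The test at scale `m`. -/
def TT (e₁ e₂ : Code) (m K H : ℕ) : Test :=
  mkT (cq e₁ H K) (co e₂ H K) (t0 m) K (tg m * gg m K) (Lm m K)

/-- The normalised strategy at scale `m`. -/
def strat (e₁ e₂ e₃ : Code) (m K H D : ℕ) (w : Str) : ℚ :=
  dv (TT e₁ e₂ m K H) (t0 m) (K + 1) (JJ m K)
    (outs (np (fs m K)) (np (m + 2)) D m (Lz m K)
      ((allStr m).filter (tabf e₃ (w.take (2 ^ m))))) w / (2 * QQ m K + 1)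

/-- The threshold test with advice `(t, b, θ)`. -/
def Td (A : Str → Bool) (e₁ e₂ : Code) (m K H : ℕ) (a : ℕ × Bool × ℕ) (z : Str) : Bool :=
  decide ((a.2.2 : ℤ) ≤ Wv (TT e₁ e₂ m K H) (t0 m) (K + 1) (JJ m K) (ov A a.1 a.2.1) (a.1 + 1) z +
    R0 m K)

/-- The formula that describes the tableau. -/
def Phi (A : Str → Bool) (e₁ e₂ : Code) (m K H : ℕ)
    (a : (ℕ × Bool × ℕ) × ℕ × Code × Code × Code) (u : Str) : Prop :=
  dcd (prd (Td A e₁ e₂ m K H a.1) (Lz m K) a.2.1 a.2.2.1 a.2.2.2.1) (np (fs m K)) m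
    (R0 m K * Lz m K) a.2.2.2.2 u

/-- Size of the advice. -/
def aB (m K D : ℕ) : ℕ := 2 * (2 * K + 2 * R0 m K + 10) + 1 + advB (np (fs m K)) D m (Lz m K)

variable {α : Type} [N487b59b3 α]

section

variable {m K : α → ℕ}

theorem APara_pt_tg (hm : PT m) : PT fun a => tg (m a) :=
  PT.add (PT.mul (PT.const 4) hm) (PT.const 9)

theorem APara_pt_gg (hm : PT m) (hK : PT K) : PT fun a => gg (m a) (K a) :=
  PT.add (PT.mul (PT.mul (PT.const 2) (APara_pt_tg hm)) hK) (PT.const 1)

theorem APara_pt_QQ (hm : PT m) (hK : PT K) : PT fun a => QQ (m a) (K a) :=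
  PT.mul (PT.mul (APara_pt_tg hm) (APara_pt_gg hm hK)) (PT.add hK (PT.const 1))

theorem APara_pt_Lm (hm : PT m) (hK : PT K) : PT fun a => Lm (m a) (K a) :=
  PT.mul (APara_pt_QQ hm hK)
    (PT.pow (PT.add hm (PT.const 2)) (PT.const 4) (Small.const 4))

theorem APara_pt_JJ (hm : PT m) (hK : PT K) : PT fun a => JJ (m a) (K a) :=
  PT.mul (PT.mul (PT.const 2) (PT.add (APara_pt_Lm hm hK) (APara_pt_QQ hm hK)))
    (PT.add (APara_pt_Lm hm hK) (PT.const 2))

theorem APara_pt_R0 (hm : PT m) (hK : PT K) : PT fun a => R0 (m a) (K a) :=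
  PT.mul (APara_pt_JJ hm hK) (PT.add (APara_pt_Lm hm hK) (APara_pt_QQ hm hK))

theorem APara_pt_Lz (hm : PT m) (hK : PT K) : PT fun a => Lz (m a) (K a) :=
  PT.mul (APara_pt_QQ hm hK) (PT.add (PT.add hK (PT.const 1)) (PT.const 1))

theorem APara_pt_fs (hm : PT m) (hK : PT K) : PT fun a => fs (m a) (K a) :=
  PT.mul (PT.mul (PT.const 64) (PT.add hm (PT.const 1)))
    (PT.pow (PT.mul (APara_pt_R0 hm hK) (APara_pt_Lz hm hK)) (PT.const 2) (Small.const 2))

theorem APara_sm_tg (hm : Small m) : Small fun a => tg (m a) :=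
  Small.add (Small.mul (Small.const 4) hm) (Small.const 9)

theorem APara_sm_gg (hm : Small m) (hK : Small K) : Small fun a => gg (m a) (K a) :=
  Small.add (Small.mul (Small.mul (Small.const 2) (APara_sm_tg hm)) hK) (Small.const 1)

theorem APara_sm_QQ (hm : Small m) (hK : Small K) : Small fun a => QQ (m a) (K a) :=
  Small.mul (Small.mul (APara_sm_tg hm) (APara_sm_gg hm hK)) (Small.add hK (Small.const 1))

theorem APara_sm_Lm (hm : Small m) (hK : Small K) : Small fun a => Lm (m a) (K a) :=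
  Small.mul (APara_sm_QQ hm hK)
    (Small.pow (Small.add hm (Small.const 2)) 4)

theorem APara_sm_JJ (hm : Small m) (hK : Small K) : Small fun a => JJ (m a) (K a) :=
  Small.mul (Small.mul (Small.const 2) (Small.add (APara_sm_Lm hm hK) (APara_sm_QQ hm hK)))
    (Small.add (APara_sm_Lm hm hK) (Small.const 2))

theorem APara_sm_R0 (hm : Small m) (hK : Small K) : Small fun a => R0 (m a) (K a) :=
  Small.mul (APara_sm_JJ hm hK) (Small.add (APara_sm_Lm hm hK) (APara_sm_QQ hm hK))

theorem APara_sm_Lz (hm : Small m) (hK : Small K) : Small fun a => Lz (m a) (K a) :=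
  Small.mul (APara_sm_QQ hm hK) (Small.add (Small.add hK (Small.const 1)) (Small.const 1))

theorem APara_sm_fs (hm : Small m) (hK : Small K) : Small fun a => fs (m a) (K a) :=
  Small.mul (Small.mul (Small.const 64) (Small.add hm (Small.const 1)))
    (Small.pow (Small.mul (APara_sm_R0 hm hK) (APara_sm_Lz hm hK)) 2)

theorem APara_pt_t0 (hm : PT m) (hm' : Small m) : PT fun a => t0 (m a) :=
  PT.pow (PT.const 2) (PT.pow (PT.add hm (PT.const 2)) (PT.const 4) (Small.const 4))
    (Small.pow (Small.add hm' (Small.const 2)) 4)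

end

theorem APara_cq {e : α → Code} {K H : α → ℕ} (h1 : PT e) (hK : PT K) (hK' : Small K) (hH : PT H)
    (hH' : Small H) : PT fun p : α × Str × Str => cq (e p.1) (H p.1) (K p.1) p.2 := by
  unfold cq coinQ rq; fun_prop

theorem APara_co {e : α → Code} {K H : α → ℕ} (h1 : PT e) (hK : PT K) (hH : PT H) (hH' : Small H) :
    PT fun p : α × Str × Str => co (e p.1) (H p.1) (K p.1) p.2 := by
  unfold co coinO ro; fun_prop

theorem testPT_TT {e₁ e₂ : α → Code} {m K H : α → ℕ} (h1 : PT e₁) (h2 : PT e₂) (hm : PT m)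
    (hm' : Small m) (hK : PT K) (hK' : Small K) (hH : PT H) (hH' : Small H) :
    TestPT fun a => TT (e₁ a) (e₂ a) (m a) (K a) (H a) :=
  testPT_mkT (qf := fun a => cq (e₁ a) (H a) (K a)) (of := fun a => co (e₂ a) (H a) (K a))
    (APara_cq h1 hK hK' hH hH') (APara_co h2 hK hH hH') (APara_pt_t0 hm hm') hK hK'
    (PT.mul (APara_pt_tg hm) (APara_pt_gg hm hK)) (Small.mul (APara_sm_tg hm') (APara_sm_gg hm' hK'))
    (APara_pt_Lm hm hK)

theorem APara_filter {P : α → Str → Bool} {m : α → ℕ} (hm : PT m) (ht : Tiny m)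
    (hP : PT fun p : α × Str => P p.1 (p.2.take (m p.1))) :
    PT fun a => (allStr (m a)).filter (P a) := by
  have b2 : PT fun a => (allStr (m a)).filter fun u => P a (u.take (m a)) :=
    PT.filter (f := fun a u => P a (u.take (m a))) (pt_allStr hm ht) hP
  have e : (fun a => (allStr (m a)).filter (P a)) =
      fun a => (allStr (m a)).filter fun u => P a (u.take (m a)) := by
    funext a
    apply List.filter_congr
    intro u hu
    rw [List.take_of_length_le (mem_allStr.1 hu).le]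
  rw [e]
  exact b2

theorem APara_ones {e : α → Code} {m : α → ℕ} {v : α → Str} (he : PT e) (hm : PT m) (ht : Tiny m)
    (hv : PT v) : PT fun a => (allStr (m a)).filter (tabf (e a) (v a)) := by
  have c1 : PT fun p : α × Str => e p.1 := by fun_prop
  have c2 : PT fun p : α × Str => v p.1 := by fun_prop
  have c3 : PT fun p : α × Str => p.2.take (m p.1) := by fun_prop
  have c4 : Tiny fun p : α × Str => m p.1 := by fun_prop
  have c5 : Tiny fun p : α × Str => (p.2.take (m p.1)).length :=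
    c4.mono fun p => List.length_take_le _ _
  have b1 := pt_tabf c1 c2 c3 c5
  apply APara_filter hm ht
  with_reducible exact b1

theorem pt_strat {e₁ e₂ e₃ : α → Code} {m K H D : α → ℕ} {w : α → Str} (h1 : PT e₁) (h2 : PT e₂)
    (h3 : PT e₃) (hm : PT m) (hm' : Small fun a => t0 (m a)) (hK : PT K) (hK' : Small K) (hH : PT H)
    (hH' : Small H) (hD : PT D) (hD' : Small D) (hw : PT w)
    (hq : Small fun a => np (fs (m a) (K a)) ^ ((m a + 2) * np (m a + 2))) :
    PT fun a => strat (e₁ a) (e₂ a) (e₃ a) (m a) (K a) (H a) (D a) (w a) := by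
  have ht : Tiny m := Tiny.mono (n := fun a => (m a + 2) ^ 4) hm' fun a =>
    (Nat.le_add_right _ 2).trans (Nat.le_self_pow (by norm_num) _)
  have hs : Small m := ht.small
  have a3 : PT fun a => m a + 2 := PT.add hm (PT.const 2)
  have a4 : Small fun a => m a + 2 := Small.add hs (Small.const 2)
  have b3 := APara_ones h3 hm ht (PT.take (PT.pow (PT.const 2) hm hs) hw)
  have b4 := pt_outs (pt_np (APara_pt_fs hm hK) (APara_sm_fs hs hK')) (small_np (APara_sm_fs hs hK'))
    (pt_np a3 a4) (small_np a4) hD hD' hm hs (APara_pt_Lz hm hK) (APara_sm_Lz hs hK') b3 hq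
  have b5 := pt_dv (testPT_TT h1 h2 hm hs hK hK' hH hH') (APara_pt_t0 hm hs)
    (PT.add hK (PT.const 1)) (Small.add hK' (Small.const 1)) (APara_pt_JJ hm hK) b4 hw
  have b6 : PT fun a => (2 * (QQ (m a) (K a) : ℚ) + 1) :=
    PT.rat_add (PT.rat_mul (PT.const 2) (PT.natCast_rat (APara_pt_QQ hm hK))) (PT.const 1)
  exact PT.rat_div b5 b6

theorem AParb_W {O : Str → Bool} {T : α → Test} {s lam J N θ : α → ℕ} {B : α → Str → Bool}
    {z : α → Str} (hT : TestPT T) (h0 : PT s) (hl : PT lam) (hl' : Small lam) (hJ : PT J)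
    (hJ' : Small J) (hN : PT N) (hθ : PT θ) (hB : Flex O fun p : α × Str => B p.1 p.2)
    (hz : PT z) :
    PH O fun a => (θ a : ℤ) ≤ Wv (T a) (s a) (lam a) (J a) (B a) (N a) (z a) +
      (J a * ((T a).Λ + (T a).Q) : ℕ) := by
  have hv : Flex O fun p : α × ℕ => vl (T p.1) (s p.1) (lam p.1) (B p.1) (z p.1) p.2 :=
    flex_vl (T := fun p : α × ℕ => T p.1) (B := fun p : α × ℕ => B p.1)
      (hT.comp (PT.fst PT.id)) (h0.comp (PT.fst PT.id)) (hl.comp (PT.fst PT.id))
      (hl'.comp (PT.fst PT.id))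
      (Orc_pre (g := fun p : (α × ℕ) × Str => (p.1.1, p.2)) hB (by fun_prop))
      (hz.comp (PT.fst PT.id)) (PT.snd PT.id)
  have hv' : Flex O fun q : (α × List ℕ) × ℕ =>
      vl (T q.1.1) (s q.1.1) (lam q.1.1) (B q.1.1) (z q.1.1) q.2 :=
    Orc_pre (g := fun q : (α × List ℕ) × ℕ => (q.1.1, q.2)) hv (by fun_prop)
  have hQ := hT.Q
  have hΛ := hT.Λ
  have h1 : PTP fun p : α × List ℕ => p.2.length ≤ J p.1 := by fun_prop
  have h2 : PTP fun p : α × List ℕ => ∀ t ∈ p.2, t < N p.1 ∧ p.2.count t = 1 := by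
    refine PTP.forall_mem (l := fun p : α × List ℕ => p.2)
      (p := fun p t => t < N p.1 ∧ p.2.count t = 1) (PT.snd PT.id) ?_
    have hc : PT fun q : (α × List ℕ) × ℕ => q.1.2.countP fun x => x == q.2 :=
      PT.countP (f := fun (q : (α × List ℕ) × ℕ) x => x == q.2) (by fun_prop) (by fun_prop)
    exact PTP.and (by fun_prop) (PTP.eq hc (PT.const 1))
  have h3 : PH O fun p : α × List ℕ => ∀ t < N p.1,
      vl (T p.1) (s p.1) (lam p.1) (B p.1) (z p.1) t ≠ 0 → t ∈ p.2 := by
    refine PH.all_lt (χ := fun (p : α × List ℕ) t =>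
      vl (T p.1) (s p.1) (lam p.1) (B p.1) (z p.1) t ≠ 0 → t ∈ p.2) (by fun_prop) ?_
    refine PH.imp ?_ (PH.of_ptp (by fun_prop))
    refine (PH.of_flex (Orc_post (g := fun y : ((α × List ℕ) × ℕ) × ℤ => decide (y.2 ≠ 0)) hv'
      (PT.decide (PTP.ne (PT.snd PT.id) (PT.const 0))))).congr fun q => ?_
    simp
  have h4 : PH O fun p : α × List ℕ => (θ p.1 : ℤ) ≤
      (p.2.map (vl (T p.1) (s p.1) (lam p.1) (B p.1) (z p.1))).sum +
        (J p.1 * ((T p.1).Λ + (T p.1).Q) : ℕ) := by
    have hm : Flex O fun p : α × List ℕ =>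
        p.2.map (vl (T p.1) (s p.1) (lam p.1) (B p.1) (z p.1)) :=
      Flex.map (l := fun p : α × List ℕ => p.2)
        (f := fun p => vl (T p.1) (s p.1) (lam p.1) (B p.1) (z p.1)) (Flex.of_pt (PT.snd PT.id)) hv'
    have hR : PT fun a => J a * ((T a).Λ + (T a).Q) := hJ.mul (hΛ.add hQ)
    refine (PH.of_flex (Orc_post (g := fun y : (α × List ℕ) × List ℤ =>
      decide ((θ y.1.1 : ℤ) ≤ y.2.sum + (J y.1.1 * ((T y.1.1).Λ + (T y.1.1).Q) : ℕ))) hm
      (PT.decide (PTP.int_le (hθ.comp (PT.fst (PT.fst PT.id))).natCast_int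
        ((pt_int_sum (PT.snd PT.id)).int_add
          (hR.comp (PT.fst (PT.fst PT.id))).natCast_int))))).congr fun q => ?_
    simp only [decide_eq_true_eq]
  have h5 : PH O fun a => ∃ l : List ℕ, l.length ≤ J a ∧ (∀ t ∈ l, t < N a ∧ l.count t = 1) ∧
      (∀ t < N a, vl (T a) (s a) (lam a) (B a) (z a) t ≠ 0 → t ∈ l) ∧
      (θ a : ℤ) ≤ (l.map (vl (T a) (s a) (lam a) (B a) (z a))).sum +
        (J a * ((T a).Λ + (T a).Q) : ℕ) := by
    refine PH.ex' (n := fun a => J a * (2 * sz (N a) + 1)) (by fun_prop) ?_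
      ((PH.of_ptp h1).and ((PH.of_ptp h2).and (h3.and h4)))
    rintro a l ⟨e1, e2, -⟩
    exact (sz_le_of_forall fun x hx => sz_mono (e2 x hx).1.le).trans (Nat.mul_le_mul_right _ e1)
  refine ((PH.of_ptp (PTP.eq hθ (PT.const 0))).or h5).congr fun a => ?_
  rcases Nat.eq_zero_or_pos (θ a) with h | h
  · have := (abs_le.1 (abs_Wv_le (T := T a) (t0 := s a) (lam := lam a) (J := J a) (N := N a)
      (B := B a) (z := z a))).1
    refine iff_of_true ?_ (Or.inl h)
    rw [h]
    push_cast at this ⊢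
    linarith
  · rw [Wv_ge_iff h]
    exact ⟨Or.inr, fun h' => h'.resolve_left h.ne'⟩

theorem AParb_par {m K : α → ℕ} (hm : PT m) (hm' : Small m) (hK : PT K) (hK' : Small K) :
    ((PT fun a => JJ (m a) (K a)) ∧ Small fun a => JJ (m a) (K a)) ∧
    ((PT fun a => R0 (m a) (K a)) ∧ Small fun a => R0 (m a) (K a)) ∧
    ((PT fun a => Lz (m a) (K a)) ∧ Small fun a => Lz (m a) (K a)) ∧
    ((PT fun a => np (fs (m a) (K a))) ∧ Small fun a => np (fs (m a) (K a))) := by
  have hQ : PT fun a => QQ (m a) (K a) := by unfold QQ gg tg; fun_prop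
  have hQ' : Small fun a => QQ (m a) (K a) := by unfold QQ gg tg; fun_prop
  have hL : PT fun a => Lm (m a) (K a) :=
    hQ.mul ((hm.add (PT.const 2)).pow (PT.const 4) (Small.const 4))
  have hL' : Small fun a => Lm (m a) (K a) := hQ'.mul ((hm'.add (Small.const 2)).pow 4)
  have hJ : PT fun a => JJ (m a) (K a) :=
    ((PT.const 2).mul (hL.add hQ)).mul (hL.add (PT.const 2))
  have hJ' : Small fun a => JJ (m a) (K a) :=
    ((Small.const 2).mul (hL'.add hQ')).mul (hL'.add (Small.const 2))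
  have hR : PT fun a => R0 (m a) (K a) := hJ.mul (hL.add hQ)
  have hR' : Small fun a => R0 (m a) (K a) := hJ'.mul (hL'.add hQ')
  have hz : PT fun a => Lz (m a) (K a) := hQ.mul ((hK.add (PT.const 1)).add (PT.const 1))
  have hz' : Small fun a => Lz (m a) (K a) :=
    hQ'.mul ((hK'.add (Small.const 1)).add (Small.const 1))
  have hf : PT fun a => fs (m a) (K a) :=
    ((PT.const 64).mul (hm.add (PT.const 1))).mul ((hR.mul hz).pow (PT.const 2) (Small.const 2))
  have hf' : Small fun a => fs (m a) (K a) :=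
    ((Small.const 64).mul (hm'.add (Small.const 1))).mul ((hR'.mul hz').pow 2)
  exact ⟨⟨hJ, hJ'⟩, ⟨hR, hR'⟩, ⟨hz, hz'⟩, pt_np hf hf', small_np hf'⟩

theorem AParb_Td (A : Str → Bool) (e₁ e₂ : Code) {m K H : α → ℕ} {a : α → ℕ × Bool × ℕ}
    {z : α → Str} (hm : PT m) (hm' : Small m) (hK : PT K) (hK' : Small K) (hH : PT H)
    (hH' : Small H) (ha : PT a) (hz : PT z) :
    PH A fun x => Td A e₁ e₂ (m x) (K x) (H x) (a x) (z x) = true := by
  obtain ⟨⟨hJ, hJ'⟩, -⟩ := AParb_par hm hm' hK hK'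
  have h0 : PT fun x => t0 (m x) :=
    (PT.const 2).pow ((hm.add (PT.const 2)).pow (PT.const 4) (Small.const 4))
      ((hm'.add (Small.const 2)).pow 4)
  have hB : Flex A fun p : α × Str => ov A (a p.1).1 (a p.1).2.1 p.2 :=
    flex_ov (B := fun _ => A) (Flex.ask (PT.snd PT.id)) ha.fst ha.snd.fst
  refine (AParb_W (B := fun x => ov A (a x).1 (a x).2.1)
    (testPT_TT (PT.const e₁) (PT.const e₂) hm hm' hK hK' hH hH') h0 (hK.add (PT.const 1))
    (hK'.add (Small.const 1)) hJ hJ' (ha.fst.add (PT.const 1)) ha.snd.snd hB hz).congr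
    fun x => ?_
  exact decide_eq_true_iff

theorem ph_Phi (A : Str → Bool) (e₁ e₂ : Code) {m K H : α → ℕ}
    {a : α → (ℕ × Bool × ℕ) × ℕ × Code × Code × Code} {u : α → Str} (hm : PT m) (hm' : Small m)
    (hK : PT K) (hK' : Small K) (hH : PT H) (hH' : Small H) (ha : PT a) (hu : PT u) :
    PH A fun x => Phi A e₁ e₂ (m x) (K x) (H x) (a x) (u x) := by
  obtain ⟨-, ⟨hR, -⟩, ⟨hz, hz'⟩, hq, hq'⟩ := AParb_par hm hm' hK hK'
  have f : PT fun p : α × Str => p.1 := PT.fst PT.id
  exact ph_dcd (T := fun x => Td A e₁ e₂ (m x) (K x) (H x) (a x).1)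
    (AParb_Td A e₁ e₂ (hm.comp f) (hm'.comp f) (hK.comp f) (hK'.comp f) (hH.comp f) (hH'.comp f)
      (ha.fst.comp f) (PT.snd PT.id))
    hz hz' ha.snd.fst ha.snd.snd.fst ha.snd.snd.snd.fst hq hq' hm hm' (hR.mul hz)
    ha.snd.snd.snd.snd hu

theorem AParb_adv {q m L : α → ℕ} (D : ℕ) (hq : PT q) (hq' : Small q) (hm : PT m) (hm' : Small m)
    (hL : PT L) (hL' : Small L) :
    (PT fun a => advB (q a) D (m a) (L a)) ∧ Small fun a => advB (q a) D (m a) (L a) := by
  have hp : PT fun a => q a ^ D := hq.pow (PT.const D) (Small.const D)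
  unfold advB
  exact ⟨((PT.const 8).mul ((((hL.mul hp).add hL).add ((PT.const 2).mul hm)).add
    (PT.const 3))).mul (by fun_prop), by fun_prop⟩

theorem pt_aB {m K : α → ℕ} (D : ℕ) (hm : PT m) (hm' : Small m) (hK : PT K) (hK' : Small K) :
    (PT fun a => aB (m a) (K a) D) ∧ Small fun a => aB (m a) (K a) D := by
  obtain ⟨-, ⟨hR, hR'⟩, ⟨hz, hz'⟩, hq, hq'⟩ := AParb_par hm hm' hK hK'
  obtain ⟨h1, h2⟩ := AParb_adv D hq hq' hm hm' hz hz'
  exact ⟨(((PT.const 2).mul ((((PT.const 2).mul hK).add ((PT.const 2).mul hR)).add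
      (PT.const 10))).add (PT.const 1)).add h1,
    (((Small.const 2).mul ((((Small.const 2).mul hK').add ((Small.const 2).mul hR')).add
      (Small.const 10))).add (Small.const 1)).add h2⟩

end Pool.Agent.P.MP_158ebf_lc.AT
end

-- part Pool.Agent.P.MP_158ebf_lc.AScale
section

/-! At every scale the strategy wins or the tableau has a short description. -/

namespace Pool.Agent.P.MP_158ebf_lc.AT

open Function N487b59b3 N68a2faeb Pool.Agent.Lib.PolyTime

theorem AScale_take (A : Str → Bool) {n N : ℕ} (h : n ≤ N) : (chi A N).take n = chi A n := by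
  unfold chi
  rw [← List.map_take, List.take_range, min_eq_left h]

theorem AScale_t0 (m : ℕ) : 2 ^ m ≤ t0 m := by
  unfold t0
  refine Nat.pow_le_pow_right (by norm_num) ?_
  exact le_trans (by omega) (Nat.le_self_pow (by norm_num) (m + 2))

theorem AScale_QQ (m K : ℕ) : 1 ≤ QQ m K := by
  unfold QQ gg tg
  exact Nat.mul_pos (Nat.mul_pos (by omega) (by omega)) (by omega)

theorem AScale_Lm (m K : ℕ) : 2 * Lm m K ≤ QQ m K * 2 ^ tg m := by
  have h1 : m + 2 ≤ 2 ^ (m + 2) := Nat.lt_two_pow_self.le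
  have h2 : (m + 2) ^ 4 ≤ (2 ^ (m + 2)) ^ 4 := Nat.pow_le_pow_left h1 4
  have h3 : 2 ^ tg m = 2 * (2 ^ (m + 2)) ^ 4 := by
    unfold tg
    rw [← pow_mul, ← pow_succ']
    congr 1
    ring
  unfold Lm
  rw [h3, mul_left_comm]
  exact Nat.mul_le_mul_left _ (Nat.mul_le_mul_left _ h2)

theorem scale {A : Str → Bool} {e₁ e₂ : Code} (e₃ : Code) {m K H D : ℕ}
    (hK : (m + 2) ^ 4 + 1 ≤ K) (hs : 2 * (tg m * gg m K) ≤ t0 m) (hD : Lz m K ≤ (m + 2) ^ D)
    (hA : ∀ x : Str, x.length ≤ (m + 2) ^ 4 + 1 → (∀ r : Fin (K / 2) → Bool, ∀ j < K - K / 2,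
      rq e₁ H K ((x, List.ofFn r), oans A (rq e₁ H K) (x, List.ofFn r) j) ≠ x) ∧
      av (fun r : Fin (K / 2) → Bool => ind (A x ≠ ro e₂ H ((x, List.ofFn r),
        oans A (rq e₁ H K) (x, List.ofFn r) (K - K / 2)))) ≤ 1 / 2 ^ x.length) :
    (∃ N, t0 m ≤ N ∧ ((m : ℚ) + 2) ^ 4 / 6 ≤ strat e₁ e₂ e₃ m K H D (chi A N)) ∨
      ∃ a, sz a ≤ aB m K D ∧ ∀ u : Str, u.length = m →
        (Phi A e₁ e₂ m K H a u ↔ tabf e₃ (chi A (2 ^ m)) u = true) := by
  have h2t : 2 * t0 m ≤ 2 ^ K := by
    unfold t0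
    rw [← pow_succ']
    exact Nat.pow_le_pow_right (by norm_num) hK
  have h2t' : 2 * t0 m = 2 ^ ((m + 2) ^ 4 + 1) := by
    unfold t0
    rw [← pow_succ']
  have hKK : 2 ^ K ≤ 2 ^ (K + 1) := Nat.pow_le_pow_right (by norm_num) (by omega)
  have hq : ∀ p, idx (rq e₁ H K p) < 2 ^ (K + 1) := fun p => idx_lt (List.length_take_le _ _)
  have hb : (TT e₁ e₂ m K H).Bnd (2 ^ (K + 1) + K / 2) := coin_bnd _ hq (by omega)
  have hE : ((TT e₁ e₂ m K H).Λ : ℚ) / 2 ≤ Fb (TT e₁ e₂ m K H) A (2 ^ (K + 1)) := by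
    refine mkT_end (Nat.div_le_self _ _) hq (by omega)
      (fun a ha => (hA _ (length_std_le (by omega))).1) fun a ha => ?_
    have k1 := (hA (stdString (t0 m + a)) (length_std_le (by omega))).2
    have k2 := idx_lt (y := stdString (t0 m + a)) le_rfl
    rw [idx_std] at k2
    have k3 : (m + 2) ^ 4 < (stdString (t0 m + a)).length + 1 :=
      (Nat.pow_lt_pow_iff_right (a := 2) (by norm_num)).1 ((Nat.le_add_right (t0 m) a).trans_lt k2)
    have k4 : 2 * (tg m * gg m K) ≤ 2 ^ (stdString (t0 m + a)).length :=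
      hs.trans (Nat.pow_le_pow_right (by norm_num) (by omega))
    have k5 : (2 : ℚ) * ((tg m * gg m K : ℕ) : ℚ) ≤ 2 ^ (stdString (t0 m + a)).length := by
      exact_mod_cast k4
    refine (mul_le_mul_of_nonneg_left k1 (by positivity)).trans ?_
    rw [mul_one_div, div_le_one (by positivity)]
    exact k5
  have hI : Fb (TT e₁ e₂ m K H) A (t0 m) ≤ 2 * (TT e₁ e₂ m K H).Q :=
    mkT_init hb (by omega) (Nat.lt_succ_self _) (AScale_Lm m K)
  obtain ⟨ones, hones⟩ : ∃ ones, ones = (allStr m).filter (tabf e₃ (chi A (2 ^ m))) := ⟨_, rfl⟩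
  have hqp := np_spec (fs m K)
  have hqp' := np_spec (m + 2)
  have hZ : outs (np (fs m K)) (np (m + 2)) D m (Lz m K) ones ≠ [] := by
    intro h
    have h' := congrArg List.length h
    unfold outs at h'
    rw [List.length_map, length_wds, List.length_nil] at h'
    exact (pow_pos hqp.1.pos _).ne' h'
  by_cases hG : ∀ t < 2 ^ (K + 1), ∀ b,
      av (fun z : Fin ((TT e₁ e₂ m K H).Q * (K + 1 + 1)) → Bool =>
        (Wv (TT e₁ e₂ m K H) (t0 m) (K + 1) (JJ m K) (ov A t b) (t + 1) (List.ofFn z) : ℚ)) - 2 ≤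
        ((outs (np (fs m K)) (np (m + 2)) D m (Lz m K) ones).map fun z =>
          (Wv (TT e₁ e₂ m K H) (t0 m) (K + 1) (JJ m K) (ov A t b) (t + 1) z : ℚ)).sum /
          (outs (np (fs m K)) (np (m + 2)) D m (Lz m K) ones).length
  · left
    obtain ⟨N, hN, hw⟩ := win (T := TT e₁ e₂ m K H) (J := JJ m K) (by omega) rfl hE hI hZ hG
    refine ⟨N, hN, ?_⟩
    unfold strat
    rw [AScale_take A ((AScale_t0 m).trans hN), ← hones, le_div_iff₀ (by positivity)]
    refine le_trans ?_ hw
    have e : ((TT e₁ e₂ m K H).Λ : ℚ) = QQ m K * ((m : ℚ) + 2) ^ 4 := by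
      show ((Lm m K : ℕ) : ℚ) = _
      unfold Lm
      push_cast
      rfl
    have hQ : (1 : ℚ) ≤ QQ m K := by exact_mod_cast AScale_QQ m K
    have hp : (0 : ℚ) ≤ ((m : ℚ) + 2) ^ 4 := by positivity
    rw [e]
    nlinarith
  · right
    simp only [not_forall, not_le] at hG
    obtain ⟨t, ht, b, hG⟩ := hG
    obtain ⟨θ, hθ0, hθ1, hθ⟩ := threshold
      (fun z : Fin ((TT e₁ e₂ m K H).Q * (K + 1 + 1)) → Bool => List.ofFn z)
      (Wv (TT e₁ e₂ m K H) (t0 m) (K + 1) (JJ m K) (ov A t b) (t + 1)) (M := R0 m K)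
      (fun z => abs_Wv_le) hZ hG
    have h1 : ∀ u ∈ ones, u.length = m := by
      intro u hu
      rw [hones] at hu
      exact mem_allStr.mp (List.mem_filter.mp hu).1
    have h2 : ones.Nodup := by
      rw [hones]
      exact (nodup_allStr m).filter _
    obtain ⟨a, ha, hdec⟩ := recon (D := D) (L := Lz m K) (R₀ := R0 m K) hqp.1 hqp'.1 hqp'.2.1.le
      (hD.trans (Nat.pow_le_pow_left hqp'.2.1.le D)) (by omega) hqp.2.1 h1 h2
      (Td A e₁ e₂ m K H (t, b, θ))
      (by
        refine le_trans hθ (le_of_eq ?_)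
        congr 1
        show av (fun z : Fin (Lz m K) → Bool => _) = _
        congr 1
        funext z
        unfold Td ind
        simp only [decide_eq_true_eq]
        rfl)
    refine ⟨((t, b, θ), a), ?_, ?_⟩
    · have s1 : sz t ≤ K + 1 := sz_le_iff.mpr ht
      have s2 : sz θ ≤ 2 * R0 m K := (sz_le_self θ).trans hθ1
      unfold aB
      rw [sz_pair, sz_pair, sz_pair, sz_bool]
      omega
    · intro u hu
      refine (hdec u hu).trans ?_
      rw [hones, List.mem_filter, mem_allStr]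
      exact ⟨fun h => h.2, fun h => ⟨hu, h⟩⟩

theorem strat_nonneg (e₁ e₂ e₃ : Code) (m K H D : ℕ) (w : Str) : 0 ≤ strat e₁ e₂ e₃ m K H D w := by
  unfold strat
  exact div_nonneg dv_nonneg (by positivity)

theorem strat_short (e₁ e₂ e₃ : Code) (m K H D : ℕ) {w : Str} (h : w.length ≤ t0 m) :
    strat e₁ e₂ e₃ m K H D w = 1 := by
  unfold strat
  rw [dv_short h]
  exact div_self (by positivity : (2 * (QQ m K : ℚ) + 1) ≠ 0)

theorem strat_step (e₁ e₂ e₃ : Code) (m K H D : ℕ) {w : Str} (h : t0 m ≤ w.length) :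
    strat e₁ e₂ e₃ m K H D (w ++ [false]) + strat e₁ e₂ e₃ m K H D (w ++ [true]) ≤
      2 * strat e₁ e₂ e₃ m K H D w := by
  have h' : 2 ^ m ≤ w.length := (AScale_t0 m).trans h
  unfold strat
  rw [List.take_append_of_le_length h', List.take_append_of_le_length h', ← add_div,
    ← mul_div_assoc]
  exact div_le_div_of_nonneg_right dv_step (by positivity)

end Pool.Agent.P.MP_158ebf_lc.AT
end

-- part Pool.Agent.P.MP_158ebf_lc.AMain
section

/-! The null cover of the coherent languages. -/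

namespace Pool.Agent.P.MP_158ebf_lc.AT

open Function N487b59b3 N68a2faeb Pool.Agent.Lib.PolyTime

/-- The power of `m + 2` with exponent read from block `j` of the index `i`. -/
def pw (i j m : ℕ) : ℕ := (m + 2) ^ (blk i j).length

/-- The strategy with index `i` at scale `m`. -/
def trm (i m : ℕ) (w : Str) : ℚ :=
  if 2 * fs m (pw i 3 m) + 2 ≤ 2 ^ m ∧ pw i 4 m ≤ 2 ^ m then
    strat (decCode (blk i 0)) (decCode (blk i 1)) (decCode (blk i 2)) m (pw i 3 m) (pw i 4 m)
      (blk i 5).length w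
  else 1

theorem two_pow_le_t0 (m : ℕ) : 2 ^ (m + 1) ≤ t0 m :=
  Nat.pow_le_pow_right (by norm_num) ((by omega : m + 1 ≤ m + 2).trans (Nat.le_self_pow (by norm_num) _))

theorem QQ_le_fs (m K : ℕ) : QQ m K ≤ fs m K := by
  rcases Nat.eq_zero_or_pos (QQ m K) with h | h
  · omega
  have h1 : 0 < R0 m K := by unfold R0 JJ; positivity
  have h2 : QQ m K ≤ Lz m K := Nat.le_mul_of_pos_right _ (by omega)
  have h3 : Lz m K ≤ R0 m K * Lz m K := Nat.le_mul_of_pos_left _ h1
  have h4 : R0 m K * Lz m K ≤ (R0 m K * Lz m K) ^ 2 := Nat.le_self_pow (by norm_num) _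
  have h5 : (R0 m K * Lz m K) ^ 2 ≤ fs m K := Nat.le_mul_of_pos_left _ (by omega)
  omega

theorem le_QQ (m K : ℕ) : K ≤ QQ m K ∧ tg m * gg m K ≤ QQ m K := by
  have h : 0 < tg m * gg m K := by unfold tg gg; positivity
  exact ⟨(Nat.le_succ K).trans (Nat.le_mul_of_pos_left _ h), Nat.le_mul_of_pos_right _ (by omega)⟩

theorem seeds_le {m K : ℕ} (h : 2 * fs m K + 2 ≤ 2 ^ m) :
    np (fs m K) ^ ((m + 2) * np (m + 2)) ≤ t0 m := by
  have h1 := (np_spec (fs m K)).2.2
  have h2 := (np_spec (m + 2)).2.2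
  calc np (fs m K) ^ ((m + 2) * np (m + 2)) ≤ (2 ^ m) ^ ((m + 2) * np (m + 2)) :=
        Nat.pow_le_pow_left (h1.trans h) _
    _ = 2 ^ (m * ((m + 2) * np (m + 2))) := (pow_mul _ _ _).symm
    _ ≤ 2 ^ (m + 2) ^ 4 := Nat.pow_le_pow_right (by norm_num) (by
        calc m * ((m + 2) * np (m + 2)) ≤ m * ((m + 2) * (2 * (m + 2) + 2)) := by gcongr
          _ ≤ (m + 2) ^ 4 := by nlinarith [Nat.zero_le (m ^ 4), Nat.zero_le (m ^ 3), Nat.zero_le (m ^ 2)])

theorem trm_short {i m : ℕ} {w : Str} (h : w.length ≤ t0 m) : trm i m w = 1 := by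
  unfold trm
  split_ifs
  · exact strat_short _ _ _ _ _ _ _ h
  · rfl

theorem AMain_pt_fs {α : Type} [N487b59b3 α] {m K : α → ℕ} (hm : PT m) (hK : PT K) :
    PT fun a => fs (m a) (K a) := by
  have h1 : PT fun a => QQ (m a) (K a) := by unfold QQ gg tg; fun_prop
  unfold fs R0 Lz JJ Lm
  obtain ⟨Q, hQ⟩ : ∃ Q : α → ℕ, Q = fun a => QQ (m a) (K a) := ⟨_, rfl⟩
  have e : ∀ a, QQ (m a) (K a) = Q a := fun a => by rw [hQ]
  simp only [e] at h1 ⊢
  fun_prop

theorem pt_trm {α : Type} [N487b59b3 α] {i m : α → ℕ} {w : α → Str} (hi : PT i) (hm : PT m)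
    (hm' : Small m) (hw : PT w) : PT fun a => trm (i a) (m a) (w a) := by
  have hp : ∀ j, PT fun a => pw (i a) j (m a) := fun j => by unfold pw; fun_prop
  have h3 := hp 3
  have h4 := hp 4
  obtain ⟨G, hG⟩ : ∃ G : α → Prop, G = fun a => (2 * fs (m a) (pw (i a) 3 (m a)) + 2 ≤ 2 ^ m a ∧
      pw (i a) 4 (m a) ≤ 2 ^ m a) ∧ t0 (m a) ≤ (w a).length := ⟨_, rfl⟩
  have g1 : PTP G := by
    have h5 := AMain_pt_fs hm h3
    have h6 : PT fun a => t0 (m a) := by unfold t0; fun_prop
    rw [hG]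
    exact PTP.and (PTP.and (PTP.le (PT.add (PT.mul (PT.const 2) h5) (PT.const 2)) (by fun_prop))
      (PTP.le h4 (by fun_prop))) (PTP.le h6 (by fun_prop))
  classical
  have b1 : ∀ a, G a → 2 ^ m a ≤ (w a).length := fun a h => by
    rw [hG] at h
    exact ((Nat.pow_le_pow_right (by norm_num) (Nat.le_succ _)).trans (two_pow_le_t0 _)).trans h.2
  have hs := pt_strat (e₁ := fun a => decCode (blk (i a) 0)) (e₂ := fun a => decCode (blk (i a) 1))
    (e₃ := fun a => decCode (blk (i a) 2)) (m := fun a => if G a then m a else 0)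
    (K := fun a => if G a then pw (i a) 3 (m a) else 0)
    (H := fun a => if G a then pw (i a) 4 (m a) else 0) (D := fun a => (blk (i a) 5).length) (w := w)
    (by fun_prop) (by fun_prop) (by fun_prop) (by fun_prop)
    (Small.mono (n := fun a => (w a).length + t0 0) (by fun_prop) fun a => by
      split_ifs with h
      · rw [hG] at h; exact h.2.trans (Nat.le_add_right _ _)
      · exact Nat.le_add_left _ _) (PT.ite g1 h3 (PT.const 0))
    (Small.mono (n := fun a => (w a).length) (by fun_prop) fun a => by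
      split_ifs with h
      · have := b1 a h
        have := (le_QQ (m a) (pw (i a) 3 (m a))).1.trans (QQ_le_fs _ _)
        rw [hG] at h
        omega
      · exact Nat.zero_le _) (PT.ite g1 h4 (PT.const 0))
    (Small.mono (n := fun a => (w a).length) (by fun_prop) fun a => by
      split_ifs with h
      · have := b1 a h
        rw [hG] at h
        omega
      · exact Nat.zero_le _) (by fun_prop) (by fun_prop) hw
    (Small.mono (n := fun a => (w a).length + np (fs 0 0) ^ ((0 + 2) * np (0 + 2))) (by fun_prop)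
      fun a => by
      split_ifs with h
      · rw [hG] at h; exact ((seeds_le h.1.1).trans h.2).trans (Nat.le_add_right _ _)
      · exact Nat.le_add_left _ _)
  refine (PT.ite (inst := fun _ => inferInstance) g1 hs (PT.const 1)).congr fun a => ?_
  by_cases h : G a
  · simp only [if_pos h]
    rw [hG] at h
    rw [trm, if_pos h.1]
  · rw [if_neg h]
    rw [hG] at h
    rcases not_and_or.1 h with h | h
    · rw [trm, if_neg h]
    · exact trm_short (not_le.1 h).le

theorem small_len {f : ℕ → ℕ} (h : ∀ {m : Str → ℕ}, Small m → Small fun s => f (m s)) :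
    ∃ c, ∀ m, f m ≤ (m + 2) ^ c := small_le_pow (h (by fun_prop))

theorem atr : PNull {A | Coherent A ∧ ¬EXPIn A ⊆ PHIn A} := by
  refine pnull_of_terms trm (pt_trm (by fun_prop) (by fun_prop) (by fun_prop) (by fun_prop))
    (fun i m w => ?_) (fun i m w => ?_)
    (fun i m w h => (trm_short (h.trans (Nat.lt_two_pow_self.le.trans (two_pow_le_t0 m)))).le) ?_
  · unfold trm
    split_ifs
    · exact strat_nonneg _ _ _ _ _ _ _ _
    · exact zero_le_one
  · by_cases h : t0 m ≤ w.length
    · unfold trm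
      split_ifs
      · exact strat_step _ _ _ _ _ _ _ h
      · norm_num
    · rw [trm_short (by simp; omega), trm_short (by simp; omega), trm_short (by omega)]
      norm_num
  rintro A ⟨hA, hE⟩
  obtain ⟨L, hL, hP⟩ := Set.not_subset.1 hE
  obtain ⟨q, o, p, hq, ho, hA⟩ := Coherent.flex hA
  obtain ⟨e₁, p₁, h₁⟩ := exists_code hq.isPolyTime
  obtain ⟨e₂, p₂, h₂⟩ := exists_code ho.isPolyTime
  obtain ⟨e₃, h₃⟩ := meyer hL
  obtain ⟨c, hc⟩ := small_len (f := fun m => 2 * p.eval ((m + 2) ^ 4 + 1) + ((m + 2) ^ 4 + 1))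
    fun _ => by fun_prop
  obtain ⟨c', hc'⟩ := small_len
    (f := fun m => p₁.eval (21 * (m + 2) ^ c + 3) + p₂.eval (21 * (m + 2) ^ c + 3)) fun _ => by fun_prop
  obtain ⟨D, hD⟩ := small_len (f := fun m => Lz m ((m + 2) ^ c))
    fun _ => by unfold Lz QQ gg tg; fun_prop
  obtain ⟨d, hd⟩ := small_len (f := fun m => 2 * fs m ((m + 2) ^ c) + 2 + (m + 2) ^ c')
    fun _ => by unfold fs R0 Lz JJ Lm QQ gg tg; fun_prop
  obtain ⟨m₁, hm₁⟩ := pow_le_two_pow d
  obtain ⟨i, hi⟩ := exists_blk [bitEncode e₁, bitEncode e₂, bitEncode e₃, List.replicate c true,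
    List.replicate c' true, List.replicate D true]
  refine ⟨i, fun m₀ => ?_⟩
  by_contra hn
  refine hP (h₃ (fun m a u => Phi A e₁ e₂ m ((m + 2) ^ c) ((m + 2) ^ c') a u)
    (fun m => aB m ((m + 2) ^ c) D) (m₀ + m₁)
    (ph_Phi A e₁ e₂ (by fun_prop) (by fun_prop) (by fun_prop) (by fun_prop) (by fun_prop)
      (by fun_prop) (by fun_prop) (by fun_prop))
    (pt_aB D (by fun_prop) (by fun_prop) (by fun_prop) (by fun_prop)).1
    (pt_aB D (by fun_prop) (by fun_prop) (by fun_prop) (by fun_prop)).2 fun m hm => ?_)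
  have g1 := (hd m).trans (hm₁ m (by omega))
  have g2 := hc m
  have g3 := hc' m
  beta_reduce at g1 g2 g3
  refine (scale e₃ (H := (m + 2) ^ c') (by omega) ?_ (hD m) fun x hx => ?_).resolve_left ?_
  · have := (le_QQ m ((m + 2) ^ c)).2.trans (QQ_le_fs _ _)
    have := two_pow_le_t0 m
    omega
  · have k1 := eval_mono p hx
    obtain ⟨K, hK⟩ : ∃ K, K = (m + 2) ^ c := ⟨_, rfl⟩
    rw [← hK] at g2 g3 ⊢
    have k0 : ∀ r : Fin (K / 2) → Bool, p.eval x.length ≤ (List.ofFn r).length := fun r => by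
      rw [List.length_ofFn]; omega
    have k2 : ∀ r : Fin (K / 2) → Bool, ∀ j ≤ K,
        sz ((x, List.ofFn r), oans A q (x, List.ofFn r) j) ≤ 21 * K + 3 := fun r j hj => by
      rw [sz_pair, sz_pair, sz_str, sz_str, sz_str, Orc_length_oans, List.length_ofFn]; omega
    have k3 : ∀ r : Fin (K / 2) → Bool, ∀ j ≤ K, rq e₁ ((m + 2) ^ c') K
        ((x, List.ofFn r), oans A q (x, List.ofFn r) j) =
        q ((x, List.ofFn r), oans A q (x, List.ofFn r) j) := fun r j hj => by
      have := eval_mono p₁ (k2 r j hj)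
      rw [rq, h₁ _ _ (by omega), decStr_enc,
        List.take_of_length_le (by have := ((hA x).1 _ (k0 r) j).2; omega)]
    have k4 : ∀ r : Fin (K / 2) → Bool, ∀ j ≤ K,
        oans A (rq e₁ ((m + 2) ^ c') K) (x, List.ofFn r) j = oans A q (x, List.ofFn r) j := by
      intro r j
      induction j with
      | zero => intro _; rfl
      | succ j ih => intro hj; rw [oans, oans, ih (by omega), k3 r j (by omega)]
    refine ⟨fun r j hj => ?_, le_trans (le_of_eq ?_) ((hA x).2 (K / 2) (K - K / 2) (by omega)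
      (by omega))⟩
    · rw [k4 r j (by omega), k3 r j (by omega)]
      exact ((hA x).1 _ (k0 r) j).1
    · congr 1
      funext r
      have := eval_mono p₂ (k2 r (K - K / 2) (by omega))
      rw [k4 r _ (by omega), ro, h₂ _ _ (by omega)]
      rfl
  · rintro ⟨N, -, hN⟩
    refine hn ⟨m, by omega, N, hN.trans (le_of_eq ?_)⟩
    have b3 : pw i 3 m = (m + 2) ^ c := by simp [pw, hi]
    have b4 : pw i 4 m = (m + 2) ^ c' := by simp [pw, hi]
    rw [trm, b3, b4, if_pos ⟨by omega, by omega⟩]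
    simp [hi, decCode_enc]

end Pool.Agent.P.MP_158ebf_lc.AT
end
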