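import Pool.Agent.K.MP_158ebf_lc.C1
import Pool.Agent.K.MP_158ebf_lc.C0
import Pool.Agent.P.MP_158ebf_lc.LDefs
import Pool.Agent.K.MP_158ebf_lc.C2
import Pool.Agent.P.MP_158ebf_lc.SDefs

-- part Pool.Agent.P.MP_158ebf_lc.LMart
section

/-! Betting on polynomially many rare blocks for every input length. -/

namespace Pool.Agent.P.MP_158ebf_lc.LI

open Function Filter N487b59b3 N68a2faeb Pool.Agent.Lib.PolyTime POpt

/-! ### Products -/

theorem one_le_prod {l : List ℚ} (h : ∀ x ∈ l, 1 ≤ x) : 1 ≤ l.prod := by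
  induction l with
  | nil => simp
  | cons a l ih =>
    rw [List.prod_cons]
    exact one_le_mul_of_one_le_of_one_le (h a (by simp)) (ih fun x hx => h x (by simp [hx]))

theorem le_prod_of_mem {l : List ℚ} (h : ∀ x ∈ l, 1 ≤ x) {a : ℚ} (ha : a ∈ l) : a ≤ l.prod := by
  induction l with
  | nil => simp at ha
  | cons b l ih =>
    have h1 := h b (by simp)
    have h2 : ∀ x ∈ l, 1 ≤ x := fun x hx => h x (by simp [hx])
    have h3 := one_le_prod h2
    rw [List.prod_cons]
    rcases List.mem_cons.1 ha with rfl | ha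
    · nlinarith
    · nlinarith [ih h2 ha]

theorem pow_le_prod {l : List ℚ} {a : ℚ} (h0 : 0 ≤ a) (h : ∀ x ∈ l, a ≤ x) :
    a ^ l.length ≤ l.prod := by
  induction l with
  | nil => simp
  | cons b l ih =>
    have h1 := h b (by simp)
    rw [List.prod_cons, List.length_cons, pow_succ']
    exact mul_le_mul h1 (ih fun x hx => h x (by simp [hx])) (by positivity) (h0.trans h1)

/-- A product of fair bets on consecutive disjoint intervals is a fair bet. -/
theorem prod_avg (P : ℕ → ℕ) (hP : Monotone P) (φ : ℕ → Str → ℚ) (w : Str)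
    (hout : ∀ j b, w.length < P j ∨ P (j + 1) ≤ w.length → φ j (w ++ [b]) = φ j w)
    (havg : ∀ j, φ j (w ++ [false]) + φ j (w ++ [true]) = 2 * φ j w) (m : ℕ) :
    ((List.range m).map fun j => φ j (w ++ [false])).prod +
      ((List.range m).map fun j => φ j (w ++ [true])).prod =
      2 * ((List.range m).map fun j => φ j w).prod := by
  induction m with
  | zero => norm_num
  | succ m ih =>
    simp only [List.prod_range_succ]
    by_cases h : P m ≤ w.length
    · have h1 : ∀ b, ((List.range m).map fun j => φ j (w ++ [b])).prod =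
          ((List.range m).map fun j => φ j w).prod := fun b =>
        congrArg List.prod (List.map_congr_left fun j hj =>
          hout j b (Or.inr ((hP (List.mem_range.1 hj)).trans h)))
      rw [h1, h1, ← mul_add, havg]
      ring
    · rw [hout m _ (Or.inl (not_le.1 h)), hout m _ (Or.inl (not_le.1 h)), ← add_mul, ih]
      ring

/-! ### The positions -/

/-- Start of the blocks for input length `n`. -/
def PP (c s n : ℕ) : ℕ := 2 ^ (n + s + 6) ^ (c + 2)

/-- Length of the blocks for input length `n`. -/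
def rl (s n : ℕ) : ℕ := s + 2 * n.size

/-- Number of blocks for input length `n`. -/
def NN (s n : ℕ) : ℕ := s * 2 ^ rl s n

/-- Start of block `j` for input length `n`. -/
def pos (c s n j : ℕ) : ℕ := PP c s n + j * rl s n

variable {c s n : ℕ}

theorem six_le (c s n : ℕ) : 6 * (n + s + 6) ≤ (n + s + 6) ^ (c + 2) :=
  calc 6 * (n + s + 6) ≤ (n + s + 6) ^ 2 := by rw [pow_two]; exact Nat.mul_le_mul_right _ (by omega)
    _ ≤ _ := Nat.pow_le_pow_right (by omega) (by omega)

theorem rl_le (s n : ℕ) : rl s n ≤ s + 2 * n := by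
  have := sz_le_self n
  rw [sz_nat] at this
  unfold rl; omega

theorem NN_mul_le (c s n : ℕ) : NN s n * (rl s n + 1) ≤ PP c s n := by
  have h1 := rl_le s n
  have h2 := six_le c s n
  have h3 : s ≤ 2 ^ rl s n :=
    (show s ≤ rl s n by unfold rl; omega).trans Nat.lt_two_pow_self.le
  calc NN s n * (rl s n + 1) ≤ 2 ^ rl s n * 2 ^ rl s n * 2 ^ rl s n :=
        Nat.mul_le_mul (Nat.mul_le_mul_right _ h3) Nat.lt_two_pow_self
    _ = 2 ^ (3 * rl s n) := by rw [← pow_add, ← pow_add]; congr 1; ring
    _ ≤ _ := Nat.pow_le_pow_right (by norm_num) (by omega)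

theorem two_pow_le_PP (c s n : ℕ) : 2 ^ (n + s) ≤ PP c s n :=
  Nat.pow_le_pow_right (by norm_num) (by have := six_le c s n; omega)

theorem lt_PP (c s n : ℕ) : n + s < PP c s n := Nat.lt_two_pow_self.trans_le (two_pow_le_PP c s n)

theorem two_mul_PP (c s n : ℕ) : 2 * PP c s n ≤ PP c s (n + 1) := by
  unfold PP
  rw [← pow_succ']
  exact Nat.pow_le_pow_right (by norm_num) (Nat.pow_lt_pow_left (by omega) (by omega))

theorem PP_mono (c s : ℕ) : Monotone (PP c s) :=
  monotone_nat_of_le_succ fun n => by have := two_mul_PP c s n; omega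

theorem pos_succ (j : ℕ) : pos c s n (j + 1) = pos c s n j + rl s n := by unfold pos; ring

theorem pos_mono : Monotone (pos c s n) :=
  monotone_nat_of_le_succ fun j => by rw [pos_succ]; omega

theorem le_pos (j : ℕ) : PP c s n ≤ pos c s n j := Nat.le_add_right _ _

theorem pos_end {j : ℕ} (h : j < NN s n) : pos c s n j + rl s n ≤ PP c s (n + 1) := by
  have h1 := NN_mul_le c s n
  have h2 := two_mul_PP c s n
  have h3 : (j + 1) * rl s n ≤ NN s n * (rl s n + 1) := Nat.mul_le_mul h (by omega)
  rw [← pos_succ, pos]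
  omega

theorem half_lt (hs : 0 < s) : (1 / 2 : ℚ) ^ rl s n < 1 :=
  pow_lt_one₀ (by norm_num) (by norm_num) (by unfold rl; omega)

theorem half_rl_le (s n : ℕ) : (1 / 2 : ℚ) ^ rl s n ≤ (1 / 2) ^ s * (2 / (n + 1) - 2 / (n + 2)) := by
  have h1 : (n + 1 : ℚ) ≤ 2 ^ n.size := by exact_mod_cast Nat.lt_size_self n
  have h0 : (0 : ℚ) ≤ n := Nat.cast_nonneg n
  rw [rl, pow_add]
  gcongr
  rw [one_div, inv_pow, div_sub_div _ _ (by positivity) (by positivity), inv_eq_one_div,
    div_le_div_iff₀ (by positivity) (by positivity), mul_comm 2 n.size, pow_mul]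
  nlinarith [mul_le_mul h1 h1 (by positivity) (by positivity)]

/-! ### The bets -/

variable (fd : Bool → ℕ → ℕ → Bool) (σ : Bool) (c s)

/-- The bet on block `j` when its value is revealed. -/
def fac (n j : ℕ) (w : Str) : ℚ :=
  if fd true n j then qq (pos c s n j) (rl s n) σ w * 2 ^ rl s n
  else if fd false n j then (1 - qq (pos c s n j) (rl s n) σ w) / (1 - (1 / 2) ^ rl s n) else 1

/-- The product of the bets for input length `n`. -/
def lev (n : ℕ) (w : Str) : ℚ := ((List.range (NN s n)).map fun j => fac c s fd σ n j w).prod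

/-- The first block whose value is not revealed. -/
def fst (n : ℕ) : ℕ :=
  ((List.range (NN s n)).filter fun j => !(fd true n j || fd false n j)).headD (NN s n)

/-- The bet that the first block whose value is not revealed is constant. -/
def bet (n : ℕ) (w : Str) : ℚ := qq (pos c s n (fst s fd n)) (rl s n) σ w

/-- The capital when `m` input lengths are taken into account. -/
def val (m : ℕ) (w : Str) : ℚ :=
  (1 / 2) ^ s * ((List.range m).map fun n => lev c s fd σ n w).prod +
    ((List.range m).map fun n => bet c s fd σ n w).sum + (1 / 2) ^ s * (2 / (m + 1))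

variable {fd σ c s} {w : Str}

theorem fac_short (hs : 0 < s) {j : ℕ} (h : w.length ≤ PP c s n) : fac c s fd σ n j w = 1 := by
  have h1 := half_lt (n := n) hs
  rw [fac, qq_short (h.trans (le_pos j))]
  split_ifs
  · rw [← mul_pow]; norm_num
  · exact div_self (by linarith)
  · rfl

theorem lev_short (hs : 0 < s) (h : w.length ≤ PP c s n) : lev c s fd σ n w = 1 :=
  List.prod_eq_one fun v hv => by
    obtain ⟨j, -, rfl⟩ := List.mem_map.1 hv
    exact fac_short hs h

theorem bet_short (h : w.length ≤ PP c s n) : bet c s fd σ n w = (1 / 2) ^ rl s n :=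
  qq_short (h.trans (le_pos _))

theorem fac_out {j : ℕ} (h : w.length < pos c s n j ∨ pos c s n j + rl s n ≤ w.length) (b : Bool) :
    fac c s fd σ n j (w ++ [b]) = fac c s fd σ n j w := by
  rw [fac, fac, qq_out h]

theorem fac_avg (j : ℕ) : fac c s fd σ n j (w ++ [false]) + fac c s fd σ n j (w ++ [true]) =
    2 * fac c s fd σ n j w := by
  have := qq_avg (P := pos c s n j) (r := rl s n) (σ := σ) (w := w)
  unfold fac
  split_ifs
  · rw [← add_mul, this]; ring
  · rw [← add_div, show ∀ x y : ℚ, 1 - x + (1 - y) = 2 - (x + y) by intros; ring, this]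
    ring
  · ring

theorem lev_avg : lev c s fd σ n (w ++ [false]) + lev c s fd σ n (w ++ [true]) =
    2 * lev c s fd σ n w :=
  prod_avg (pos c s n) pos_mono (fac c s fd σ n) w
    (fun j b h => fac_out (by rwa [pos_succ] at h) b) fac_avg _

theorem lev_out (h : w.length < PP c s n ∨ PP c s (n + 1) ≤ w.length) (b : Bool) :
    lev c s fd σ n (w ++ [b]) = lev c s fd σ n w :=
  congrArg List.prod (List.map_congr_left fun j hj => fac_out (h.imp (fun h => h.trans_le (le_pos j))
    fun h => (pos_end (List.mem_range.1 hj)).trans h) b)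

theorem fac_nonneg (j : ℕ) : 0 ≤ fac c s fd σ n j w := by
  unfold fac
  split_ifs
  · exact mul_nonneg qq_mem.1 (by positivity)
  · exact div_nonneg (sub_nonneg.2 qq_mem.2)
      (sub_nonneg.2 (pow_le_one₀ (by norm_num) (by norm_num)))
  · norm_num

theorem lev_nonneg : 0 ≤ lev c s fd σ n w :=
  List.prod_nonneg fun v hv => by
    obtain ⟨j, -, rfl⟩ := List.mem_map.1 hv
    exact fac_nonneg j

theorem levs_nonneg (m : ℕ) : 0 ≤ ((List.range m).map fun n => lev c s fd σ n w).prod :=
  List.prod_nonneg fun v hv => by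
    obtain ⟨j, -, rfl⟩ := List.mem_map.1 hv
    exact lev_nonneg

theorem bets_nonneg (m : ℕ) : 0 ≤ ((List.range m).map fun n => bet c s fd σ n w).sum :=
  List.sum_nonneg fun v hv => by
    obtain ⟨j, -, rfl⟩ := List.mem_map.1 hv
    exact qq_mem.1

theorem val_nonneg (m : ℕ) : 0 ≤ val c s fd σ m w := by
  have := levs_nonneg (fd := fd) (σ := σ) (c := c) (s := s) (w := w) m
  have := bets_nonneg (fd := fd) (σ := σ) (c := c) (s := s) (w := w) m
  unfold val
  positivity

theorem val_succ (hs : 0 < s) {m : ℕ} (h : w.length ≤ PP c s m) :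
    val c s fd σ (m + 1) w ≤ val c s fd σ m w := by
  have h1 := half_rl_le s m
  rw [val, val, List.prod_range_succ, List.sum_range_succ, lev_short hs h, bet_short h]
  push_cast
  rw [show (m : ℚ) + 1 + 1 = m + 2 by ring]
  linarith

theorem val_avg (m : ℕ) : val c s fd σ m (w ++ [false]) + val c s fd σ m (w ++ [true]) =
    2 * val c s fd σ m w := by
  have h1 := prod_avg (PP c s) (PP_mono c s) (lev c s fd σ) w (fun j b h => lev_out h b)
    (fun _ => lev_avg) m
  have h2 : ((List.range m).map fun n => bet c s fd σ n (w ++ [false])).sum +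
      ((List.range m).map fun n => bet c s fd σ n (w ++ [true])).sum =
      2 * ((List.range m).map fun n => bet c s fd σ n w).sum := by
    induction m with
    | zero => norm_num
    | succ m ih =>
      have := qq_avg (P := pos c s m (fst s fd m)) (r := rl s m) (σ := σ) (w := w)
      have ih := ih (prod_avg (PP c s) (PP_mono c s) (lev c s fd σ) w (fun j b h => lev_out h b)
        (fun _ => lev_avg) m)
      simp only [List.sum_range_succ, bet] at ih ⊢
      linarith
  simp only [val]
  linear_combination (1 / 2) ^ s * h1 + h2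

theorem val_step (hs : 0 < s) : (val c s fd σ (w ++ [false]).length (w ++ [false]) +
    val c s fd σ (w ++ [true]).length (w ++ [true])) / 2 ≤ val c s fd σ w.length w := by
  have h1 := val_avg (fd := fd) (σ := σ) (c := c) (s := s) (w := w) (w.length + 1)
  have h2 := val_succ (fd := fd) (σ := σ) (c := c) (w := w) hs (m := w.length)
    (by have := lt_PP c s w.length; omega)
  simp only [List.length_append, List.length_singleton]
  linarith

theorem val_le (hs : 0 < s) (h : w.length ≤ s) : val c s fd σ w.length w ≤ (1 / 2) ^ s * 4 := by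
  have h1 : ∀ m, val c s fd σ m w ≤ val c s fd σ 0 w := by
    intro m
    induction m with
    | zero => rfl
    | succ m ih => exact (val_succ hs (by have := lt_PP c s m; omega)).trans ih
  refine (h1 _).trans ?_
  have : (0 : ℚ) ≤ (1 / 2) ^ s := by positivity
  simp only [val, List.range_zero, List.map_nil, List.prod_nil, List.sum_nil, Nat.cast_zero]
  linarith

/-! ### The first element of a filtered range -/

theorem first_spec (N : ℕ) (p : ℕ → Bool) :
    (∀ j < ((List.range N).filter p).headD N, p j = false) ∧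
      (((List.range N).filter p).headD N < N → p (((List.range N).filter p).headD N) = true) ∧
      ((List.range N).filter p).headD N ≤ N := by
  rw [List.headD_eq_head?_getD, List.head?_filter]
  cases h : (List.range N).find? p with
  | none =>
    rw [List.find?_eq_none] at h
    exact ⟨fun j hj => by simpa using h j (List.mem_range.2 hj), fun h => absurd h (lt_irrefl _),
      le_rfl⟩
  | some i =>
    rw [List.find?_range_eq_some] at h
    exact ⟨fun j hj => by simpa using h.2.2 j hj, fun _ => h.1, (List.mem_range.1 h.2.1).le⟩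

/-! ### The cover -/

theorem cover (hs : 0 < s) {A : Str → Bool}
    (h1 : ∀ n j, j < NN s n → fd true n j = true → Con A σ (pos c s n j) (rl s n))
    (h0 : ∀ n j, j < NN s n → fd false n j = true → ¬Con A σ (pos c s n j) (rl s n))
    (M n : ℕ) :
    (∃ N, M < N ∧ 1 ≤ val c s fd σ (chi A N).length (chi A N)) ∨
      (fst s fd n < NN s n ∧ ∀ j ≤ fst s fd n, ¬Con A σ (pos c s n j) (rl s n)) := by
  set m := M + n + 1 with hm
  set N := PP c s m with hN
  have hmN : m < N := by have := lt_PP c s m; omega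
  have e1 : ∀ n' < m, ∀ j < NN s n', pos c s n' j + rl s n' ≤ N := fun n' hn' j hj =>
    (pos_end hj).trans (PP_mono c s hn')
  have e2 : ∀ n' < m, ∀ j < NN s n', fd true n' j = true →
      fac c s fd σ n' j (chi A N) = 2 ^ rl s n' := by
    intro n' hn' j hj h
    rw [fac, if_pos h, qq_con (e1 n' hn' j hj) (h1 n' j hj h), one_mul]
  have e3 : ∀ n' < m, ∀ j < NN s n', fd true n' j = false → fd false n' j = true →
      1 + (1 / 2) ^ rl s n' ≤ fac c s fd σ n' j (chi A N) := by
    intro n' hn' j hj h h'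
    have a1 := half_lt (n := n') hs
    rw [fac, if_neg (by simp [h]), if_pos h', qq_not_con (e1 n' hn' j hj) (h0 n' j hj h'),
      le_div_iff₀ (by linarith)]
    nlinarith [sq_nonneg ((1 / 2 : ℚ) ^ rl s n')]
  have e4 : ∀ n', ∀ j < NN s n', 1 ≤ fac c s fd σ n' j (chi A N) := by
    intro n' j hj
    rcases lt_or_ge n' m with hn' | hn'
    · cases h : fd true n' j
      · cases h' : fd false n' j
        · rw [fac, if_neg (by simp [h]), if_neg (by simp [h'])]
        · exact le_trans (le_add_of_nonneg_right (by positivity)) (e3 n' hn' j hj h h')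
      · rw [e2 n' hn' j hj h]
        exact one_le_pow₀ (by norm_num)
    · rw [fac_short hs (by rw [length_chi]; exact PP_mono c s hn')]
  have e5 : ∀ n', ∀ v ∈ (List.range (NN s n')).map fun j => fac c s fd σ n' j (chi A N), 1 ≤ v := by
    intro n' v hv
    obtain ⟨j, hj, rfl⟩ := List.mem_map.1 hv
    exact e4 n' j (List.mem_range.1 hj)
  have e6 : lev c s fd σ n (chi A N) ≤
      ((List.range N).map fun n => lev c s fd σ n (chi A N)).prod :=
    le_prod_of_mem (fun v hv => by
      obtain ⟨j, -, rfl⟩ := List.mem_map.1 hv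
      exact one_le_prod (e5 j)) (List.mem_map_of_mem (List.mem_range.2 (by omega)))
  have b1 := levs_nonneg (fd := fd) (σ := σ) (c := c) (s := s) (w := chi A N) N
  have b2 := bets_nonneg (fd := fd) (σ := σ) (c := c) (s := s) (w := chi A N) N
  have b3 : (0 : ℚ) ≤ (1 / 2) ^ s * (2 / (N + 1)) := by positivity
  have b4 : (0 : ℚ) ≤ (1 / 2) ^ s := by positivity
  have e7 : 2 ^ s ≤ lev c s fd σ n (chi A N) →
      ∃ N, M < N ∧ 1 ≤ val c s fd σ (chi A N).length (chi A N) := by
    intro h
    refine ⟨N, by omega, ?_⟩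
    have a1 := mul_le_mul_of_nonneg_left (h.trans e6) b4
    rw [← mul_pow, show (1 / 2 * 2 : ℚ) = 1 by norm_num, one_pow] at a1
    rw [length_chi, val]
    linarith
  obtain ⟨f1, f2, f3⟩ := first_spec (NN s n) fun j => !(fd true n j || fd false n j)
  rw [← fst] at f1 f2 f3
  by_cases c1 : ∃ j < NN s n, fd true n j = true
  · obtain ⟨j, hj, h⟩ := c1
    refine Or.inl (e7 (le_trans ?_
      (le_prod_of_mem (e5 n) (List.mem_map_of_mem (List.mem_range.2 hj)))))
    rw [e2 n (by omega) j hj h]
    exact pow_le_pow_right₀ (by norm_num) (by unfold rl; omega)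
  have c2 : ∀ j < NN s n, fd true n j = false := fun j hj =>
    Bool.eq_false_iff.2 fun h => c1 ⟨j, hj, h⟩
  have c3 : ∀ j < fst s fd n, fd false n j = true := fun j hj => by
    simpa [c2 j (by omega)] using f1 j hj
  rcases f3.eq_or_lt with f4 | f4
  · refine Or.inl (e7 (le_trans ?_ (pow_le_prod (a := 1 + (1 / 2) ^ rl s n) (by positivity)
      fun v hv => ?_)))
    · rw [List.length_map, List.length_range, NN, mul_comm s, pow_mul]
      refine pow_le_pow_left₀ (by norm_num) ?_ _
      have a1 := one_add_mul_le_pow (a := (1 / 2 : ℚ) ^ rl s n)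
        (le_trans (by norm_num) (show (0 : ℚ) ≤ _ by positivity)) (2 ^ rl s n)
      push_cast at a1
      rw [← mul_pow] at a1
      norm_num at a1 ⊢
      exact a1
    · obtain ⟨j, hj, rfl⟩ := List.mem_map.1 hv
      rw [List.mem_range] at hj
      exact e3 n (by omega) j hj (c2 j hj) (c3 j (by omega))
  by_cases c4 : Con A σ (pos c s n (fst s fd n)) (rl s n)
  · refine Or.inl ⟨N, by omega, ?_⟩
    have a2 : bet c s fd σ n (chi A N) ≤
        ((List.range N).map fun n => bet c s fd σ n (chi A N)).sum :=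
      List.single_le_sum (fun v hv => by
        obtain ⟨i, -, rfl⟩ := List.mem_map.1 hv
        exact qq_mem.1) _ (List.mem_map_of_mem (List.mem_range.2 (by omega)))
    rw [bet, qq_con (e1 n (by omega) _ f4) c4] at a2
    rw [length_chi, val]
    linarith [mul_nonneg b4 b1]
  · refine Or.inr ⟨f4, fun j hj => ?_⟩
    rcases hj.eq_or_lt with rfl | hj
    · exact c4
    · exact h0 n j (by omega) (c3 j hj)

end Pool.Agent.P.MP_158ebf_lc.LI
end

-- part Pool.Agent.P.MP_158ebf_lc.STree
section

/-! Weights of answer strings factor through the answers to short queries. -/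

namespace Pool.Agent.P.MP_158ebf_lc.SP

open Function N487b59b3 N68a2faeb Pool.Agent.Lib.PolyTime

theorem wt_nil (Q : Str → Str) (ρ : List (Str × Bool)) : wt Q ρ [] = 1 := by simp [wt]

theorem wt_unit (β : Str) : ∀ (Q : Str → Str) (ρ : List (Str × Bool)),
    0 ≤ wt Q ρ β ∧ wt Q ρ β ≤ 1 := by
  induction β with
  | nil => intro Q ρ; simp [wt_nil]
  | cons b β ih =>
    intro Q ρ
    obtain ⟨h1, h2⟩ := ih (fun a => Q (b :: a)) ((Q [], b) :: ρ)
    obtain ⟨h3, h4⟩ := look_unit ρ (Q [])
    rw [wt_cons]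
    cases b
    · simp only [cond_false]
      exact ⟨mul_nonneg (by linarith) h1, mul_le_one₀ (by linarith) h1 h2⟩
    · simp only [cond_true]
      exact ⟨mul_nonneg h3 h1, mul_le_one₀ h4 h1 h2⟩

theorem wt_zero (β : Str) : ∀ (Q : Str → Str) (ρ : List (Str × Bool)) (i : ℕ), i < β.length →
    look ρ (Q (β.take i)) = bv (!β.getD i false) → wt Q ρ β = 0 := by
  induction β with
  | nil => intro Q ρ i hi; simp at hi
  | cons b β ih =>
    intro Q ρ i hi h
    rw [wt_cons]
    have h0 : look ρ (Q []) = bv (!b) →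
        (bif b then look ρ (Q []) else 1 - look ρ (Q [])) = 0 := fun h => by
      rw [h]; cases b <;> simp [bv]
    rcases i with _ | i
    · rw [h0 (by simpa using h), zero_mul]
    · simp only [List.take_succ_cons, List.getD_cons_succ] at h
      by_cases hb : look ρ (Q []) = bv (!b)
      · rw [h0 hb, zero_mul]
      · rw [ih (fun a => Q (b :: a)) _ i (by simpa using hi), mul_zero]
        rw [look_cons]
        by_cases hy : Q (b :: β.take i) = Q []
        · rw [hy, update_self]
          rw [hy] at h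
          rw [h] at hb
          revert hb
          cases b <;> cases β.getD i false <;> simp
        · rw [update_of_ne hy, h]

theorem wt_congr (β : Str) : ∀ (Q : Str → Str) (ρ ρ' : List (Str × Bool)),
    (∀ i < β.length, look ρ (Q (β.take i)) = look ρ' (Q (β.take i))) →
      wt Q ρ β = wt Q ρ' β := by
  induction β with
  | nil => intro Q ρ ρ' _; rw [wt_nil, wt_nil]
  | cons b β ih =>
    intro Q ρ ρ' h
    have h0 : look ρ (Q []) = look ρ' (Q []) := h 0 (by simp)
    rw [wt_cons, wt_cons, h0, ih (fun a => Q (b :: a)) _ ((Q [], b) :: ρ') fun i hi => ?_]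
    rw [look_cons, look_cons]
    by_cases hy : Q (b :: β.take i) = Q []
    · rw [hy, update_self, update_self]
    · rw [update_of_ne hy, update_of_ne hy]
      exact h (i + 1) (by simpa using hi)

theorem V_one (j : ℕ) : ∀ (Q : Str → Str) (p : Pr), V j Q (fun _ _ => 1) p = 1 := by
  induction j with
  | zero => intro Q p; rfl
  | succ j ih => intro Q p; simp only [V, ih]; ring

theorem sum_wt (j : ℕ) (Q : Str → Str) (ρ : List (Str × Bool)) :
    ((allStr j).map fun β => wt Q ρ β).sum = 1 := by
  have := V_closed j Q (fun _ _ => 1) ρ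
  rw [V_one] at this
  simpa using this.symm

/-- The first `K` strings. -/
def shorts (K : ℕ) : List Str := (List.range K).map stdString

theorem look_chi (B : Str → Bool) (K : ℕ) (y : Str) :
    look (known (chi B K)) y = if y ∈ shorts K then bv (B y) else 1 / 2 := by
  induction K with
  | zero => simp [chi, known, look, shorts]
  | succ K ih =>
    rw [chi_succ, look_known_concat, length_chi]
    have : shorts (K + 1) = shorts K ++ [stdString K] := by simp [shorts, List.range_succ]
    rw [this]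
    by_cases hy : y = stdString K
    · subst hy; simp
    · rw [update_of_ne hy, ih]; simp [hy]

theorem look_agree {B : Str → Bool} {ρ : List (Str × Bool)} (h : ∀ e ∈ ρ, B e.1 = e.2) {y : Str}
    (hy : ∃ e ∈ ρ, e.1 = y) : look ρ y = bv (B y) := by
  induction ρ with
  | nil => simp at hy
  | cons e ρ ih =>
    obtain ⟨z, b⟩ := e
    rw [look_cons]
    by_cases hz : y = z
    · subst hz
      rw [update_self, ← show B y = b from h (y, b) (by simp)]
    · rw [update_of_ne hz]
      refine ih (fun e he => h e (by simp [he])) ?_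
      obtain ⟨e, he, rfl⟩ := hy
      rcases List.mem_cons.1 he with rfl | he
      · exact absurd rfl hz
      · exact ⟨e, he, rfl⟩

/-- Features: the short queries with their answers. -/
abbrev Feat := List (Bool × Str × Bool)

/-- The feature of an answer string. -/
def feat (Q : Str → Str) (sh : List Str) (β : Str) : Feat :=
  (List.range β.length).map fun i =>
    if Q (β.take i) ∈ sh then (true, Q (β.take i), β.getD i false) else (false, [], false)

/-- The known bits listed in a feature. -/
def tau (T : Feat) : List (Str × Bool) := (T.filter fun e => e.1).map fun e => e.2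

/-- The weight of an answer string when its short answers are taken for granted. -/
def wl (Q : Str → Str) (sh : List Str) (β : Str) : ℚ := wt Q (tau (feat Q sh β)) β

/-- Indicator that `B` agrees with a feature. -/
def psi (B : Str → Bool) (T : Feat) : ℚ := if ∀ e ∈ tau T, B e.1 = e.2 then 1 else 0

theorem mem_tau_feat {Q : Str → Str} {sh : List Str} {β : Str} {e : Str × Bool} :
    e ∈ tau (feat Q sh β) ↔
      ∃ i < β.length, Q (β.take i) ∈ sh ∧ e = (Q (β.take i), β.getD i false) := by
  simp only [tau, feat, List.mem_map, List.mem_filter, List.mem_range]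
  constructor
  · rintro ⟨x, ⟨⟨i, hi, rfl⟩, h2⟩, rfl⟩
    by_cases h : Q (β.take i) ∈ sh
    · exact ⟨i, hi, h, by rw [if_pos h]⟩
    · rw [if_neg h] at h2; simp at h2
  · rintro ⟨i, hi, h, rfl⟩
    exact ⟨_, ⟨⟨i, hi, rfl⟩, by rw [if_pos h]⟩, by rw [if_pos h]⟩

theorem wt_factor (B : Str → Bool) (K : ℕ) (Q : Str → Str) (β : Str) :
    wt Q (known (chi B K)) β = wl Q (shorts K) β * psi B (feat Q (shorts K) β) := by
  unfold psi
  split_ifs with h
  · rw [mul_one, wl]
    refine wt_congr β Q _ _ fun i hi => ?_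
    rw [look_chi]
    split_ifs with hs
    · exact (look_agree h ⟨_, mem_tau_feat.2 ⟨i, hi, hs, rfl⟩, rfl⟩).symm
    · refine (look_of_not_mem fun e he h' => hs ?_).symm
      obtain ⟨i', -, h1, rfl⟩ := mem_tau_feat.1 he
      exact h' ▸ h1
  · rw [mul_zero]
    push Not at h
    obtain ⟨e, he, h⟩ := h
    obtain ⟨i, hi, hs, rfl⟩ := mem_tau_feat.1 he
    refine wt_zero β Q _ i hi ?_
    rw [look_chi, if_pos hs]
    congr 1
    revert h
    simp only
    cases B (Q (β.take i)) <;> cases β.getD i false <;> simp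

/-- All words of a given length over a list. -/
def words {α : Type} (S : List α) : ℕ → List (List α)
  | 0 => [[]]
  | n + 1 => S.flatMap fun a => (words S n).map fun l => a :: l

theorem length_words {α : Type} (S : List α) (n : ℕ) : (words S n).length = S.length ^ n := by
  induction n with
  | zero => rfl
  | succ n ih => simp [words, List.length_flatMap, ih, pow_succ, mul_comm]

theorem mem_words {α : Type} (S : List α) (l : List α) (h : ∀ a ∈ l, a ∈ S) :
    l ∈ words S l.length := by
  induction l with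
  | nil => simp [words]
  | cons a l ih =>
    simp only [List.length_cons, words, List.mem_flatMap, List.mem_map]
    exact ⟨a, h a (by simp), l, ih fun b hb => h b (by simp [hb]), rfl⟩

/-- The finite set of all features of answer strings of length `n`. -/
def fset (sh : List Str) (n : ℕ) : Finset Feat :=
  (words ((false, [], false) :: sh.flatMap fun y => [(true, y, true), (true, y, false)]) n).toFinset

theorem card_fset (sh : List Str) (n : ℕ) : (fset sh n).card ≤ (2 * sh.length + 1) ^ n := by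
  refine (List.toFinset_card_le _).trans ?_
  rw [length_words]
  simp [List.length_flatMap, mul_comm]

theorem feat_mem (Q : Str → Str) (sh : List Str) (β : Str) : feat Q sh β ∈ fset sh β.length := by
  have h : (feat Q sh β).length = β.length := by simp [feat]
  rw [fset, List.mem_toFinset, ← h]
  refine mem_words _ _ fun a ha => ?_
  obtain ⟨i, -, rfl⟩ := List.mem_map.1 ha
  split_ifs with hs
  · refine List.mem_cons_of_mem _ (List.mem_flatMap.2 ⟨_, hs, ?_⟩)
    cases β.getD i false <;> simp
  · simp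

end Pool.Agent.P.MP_158ebf_lc.SP
end

-- part Pool.Agent.P.MP_158ebf_lc.LMain
section

/-! Length-increasing reductions and p-measure. -/

namespace Pool.Agent.P.MP_158ebf_lc.LI

open Function Filter N487b59b3 N68a2faeb Pool.Agent.Lib.PolyTime POpt

/-! ### The test language -/

/-- The instance for input `x` and the block of length `r` at position `P`. -/
def ins (σ : Bool) (x : Str) (P r : ℕ) : Str :=
  delimit [σ] ++ (delimit x ++ (delimit P.bits ++ (delimit (List.replicate r true) ++ [])))

theorem blocks_ins (σ : Bool) (x : Str) (P r : ℕ) :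
    blocks (ins σ x P r) = [[σ], x, P.bits, List.replicate r true] :=
  blocks_flatten [[σ], x, P.bits, List.replicate r true]

/-- The type bit of an instance. -/
def sg (y : Str) : Bool := ((blocks y).getD 0 []).headD false

/-- The input of an instance. -/
def inp (y : Str) : Str := (blocks y).getD 1 []

/-- The queries for an instance. -/
def qs (y : Str) : List Str :=
  (true :: inp y) :: (List.range ((blocks y).getD 3 []).length).map fun j =>
    false :: stdString (ofBits ((blocks y).getD 2 []) + j)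

/-- The monotone evaluator. -/
def ev (p : Str × List Bool) : Bool :=
  bif sg p.1 then p.2.headD false || p.2.tail.all fun b => b else p.2.tail.any fun b => b

/-- The test language. -/
def tl (R B : Str → Bool) (y : Str) : Bool := ev (y, (qs y).map (join R B))

theorem sg_ins (σ : Bool) (x : Str) (P r : ℕ) : sg (ins σ x P r) = σ := by simp [sg, blocks_ins]

theorem inp_ins (σ : Bool) (x : Str) (P r : ℕ) : inp (ins σ x P r) = x := by simp [inp, blocks_ins]

theorem tl_true (R B : Str → Bool) (x : Str) (P r : ℕ) :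
    tl R B (ins true x P r) = true ↔ B x = true ∨ Con R true P r := by
  simp [tl, ev, qs, sg_ins, inp_ins, blocks_ins, ofBits_bits, join, POpt.Con]

theorem tl_false (R B : Str → Bool) (x : Str) (P r : ℕ) :
    tl R B (ins false x P r) = true ↔ ¬Con R false P r := by
  simp [tl, ev, qs, sg_ins, inp_ins, blocks_ins, ofBits_bits, join, POpt.Con]

theorem all_mono {a b : List Bool} (h : List.Forall₂ (· ≤ ·) a b) :
    (a.all fun b => b) = true → (b.all fun b => b) = true := by
  induction h with
  | nil => exact id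
  | cons h _ ih =>
    simp only [List.all_cons, Bool.and_eq_true]
    exact fun h' => ⟨Bool.le_iff_imp.1 h h'.1, ih h'.2⟩

theorem any_mono {a b : List Bool} (h : List.Forall₂ (· ≤ ·) a b) :
    (a.any fun b => b) = true → (b.any fun b => b) = true := by
  induction h with
  | nil => exact id
  | cons h _ ih =>
    simp only [List.any_cons, Bool.or_eq_true]
    exact fun h' => h'.imp (Bool.le_iff_imp.1 h) ih

theorem ev_mono (x : Str) (a b : List Bool) (h : List.Forall₂ (· ≤ ·) a b) :
    ev (x, a) = true → ev (x, b) = true := by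
  cases h with
  | nil => exact id
  | cons h h' =>
    unfold ev
    cases sg x
    · exact any_mono h'
    · simp only [cond_true, List.headD_cons, List.tail_cons, Bool.or_eq_true]
      exact fun h0 => h0.imp (Bool.le_iff_imp.1 h) (all_mono h')

section

variable {α : Type} [N487b59b3 α]

theorem enc_ins (σ : Bool) (x : Str) (P r : ℕ) : ins σ x P r =
    ([[σ], x, P.bits, List.replicate r true].map fun l : Str =>
      l.flatMap (fun b => [true, b]) ++ [false]).flatten := by
  have h : ∀ l : Str, delimit l = l.flatMap (fun b => [true, b]) ++ [false] := by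
    intro l
    induction l with
    | nil => rfl
    | cons b l ih => simp [delimit, ih]
  simp [ins, h]

@[fun_prop] theorem pt_ins {σ : α → Bool} {x : α → Str} {P r : α → ℕ} (hσ : PT σ) (hx : PT x)
    (hP : PT P) (hr : PT r) (hr' : Small r) : PT fun a => ins (σ a) (x a) (P a) (r a) := by
  simp only [enc_ins]; fun_prop

@[fun_prop] theorem pt_sg {y : α → Str} (hy : PT y) : PT fun a => sg (y a) := by
  unfold sg; fun_prop

@[fun_prop] theorem pt_inp {y : α → Str} (hy : PT y) : PT fun a => inp (y a) := by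
  unfold inp; fun_prop

theorem pt_qs : PT qs := by
  unfold qs stdString; fun_prop

theorem pt_ev : PT ev := by
  unfold ev; fun_prop

end

theorem posTT_tl (R B : Str → Bool) : PosTT (tl R B) (join R B) :=
  ⟨qs, ev, pt_qs.isPolyTime, pt_ev.isPolyTime, ev_mono, fun _ => rfl⟩

theorem length_ins (σ : Bool) (x : Str) (P r : ℕ) :
    (ins σ x P r).length = 2 * x.length + 2 * P.size + 2 * r + 6 := by
  simp only [ins, List.length_append, length_delimit, List.length_singleton, List.length_replicate,
    List.length_nil, Nat.size_eq_bits_len]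
  omega

/-! ### The strategy -/

/-- Length of the padding given to the simulated program. -/
def pd (c s n : ℕ) : ℕ := 2 ^ (n + s + 6) ^ (c + 1)

/-- Some input of length `n` reveals that the statement `block j is constant` has value `b`. -/
def fdc (e : Code) (σ : Bool) (c s : ℕ) (b : Bool) (n j : ℕ) : Bool :=
  (allStr n).any fun x => urun e (bitEncode (b, ins σ x (pos c s n j) (rl s n),
    List.replicate (pd c s n) true)) (PP c s n) == [true]

theorem pd_le (c s n : ℕ) : pd c s n ≤ PP c s n :=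
  Nat.pow_le_pow_right (by norm_num) (Nat.pow_le_pow_right (by omega) (by omega))

/-- The parameters, replaced by zero when they are too large. -/
def clp (N : ℕ) (p : ℕ × ℕ × ℕ) : ℕ × ℕ × ℕ := if PP p.1 p.2.1 p.2.2 ≤ N then p else (0, 0, 0)

section

variable {α : Type} [N487b59b3 α] {c s n j : α → ℕ}

theorem small_s (h : Small fun a => PP (c a) (s a) (n a)) : Small s :=
  h.mono fun a => by have := lt_PP (c a) (s a) (n a); omega

theorem small_n (h : Small fun a => PP (c a) (s a) (n a)) : Small n :=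
  h.mono fun a => by have := lt_PP (c a) (s a) (n a); omega

theorem small_ex (h : Small fun a => PP (c a) (s a) (n a)) :
    Small fun a => (n a + s a + 6) ^ (c a + 2) :=
  h.mono fun _ => Nat.lt_two_pow_self.le

theorem small_c (h : Small fun a => PP (c a) (s a) (n a)) : Small c :=
  (small_ex h).mono fun a => by
    have := Nat.lt_pow_self (n := c a + 2) (show 1 < n a + s a + 6 by omega)
    omega

theorem pt_rl (hs : PT s) (hn : PT n) : PT fun a => rl (s a) (n a) := by
  have := PT.size' hn
  unfold rl; fun_prop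

theorem small_rl (hs : Small s) (hn : Small n) : Small fun a => rl (s a) (n a) :=
  Small.mono (n := fun a => s a + 2 * n a) (by fun_prop) fun _ => rl_le _ _

theorem small_NN (h : Small fun a => PP (c a) (s a) (n a)) : Small fun a => NN (s a) (n a) :=
  h.mono fun a => le_trans (Nat.le_mul_of_pos_right _ (by omega)) (NN_mul_le (c a) (s a) (n a))

theorem pt_NN (hs : PT s) (hn : PT n) (hs' : Small s) (hn' : Small n) :
    PT fun a => NN (s a) (n a) := by
  have h1 := pt_rl hs hn
  have h2 := small_rl hs' hn'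
  unfold NN; fun_prop

theorem pt_PP (hc : PT c) (hs : PT s) (hn : PT n) (hc' : Small c)
    (h : Small fun a => (n a + s a + 6) ^ (c a + 2)) : PT fun a => PP (c a) (s a) (n a) :=
  PT.pow (PT.const 2) (by fun_prop) h

theorem pt_pos (hs : PT s) (hn : PT n) (hj : PT j) (h : PT fun a => PP (c a) (s a) (n a)) :
    PT fun a => pos (c a) (s a) (n a) (j a) := by
  have h1 := pt_rl hs hn
  unfold pos; fun_prop

theorem pt_fdc {e : α → Code} {σ : α → Bool} (b : Bool) (he : PT e) (hσ : PT σ) (hc : PT c)
    (hs : PT s) (hn : PT n) (hj : PT j) (h : Small fun a => PP (c a) (s a) (n a)) :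
    PT fun a => fdc (e a) (σ a) (c a) (s a) b (n a) (j a) := by
  have h1 := pt_rl hs hn
  have h2 := small_rl (small_s h) (small_n h)
  have h3 := pt_PP hc hs hn (small_c h) (small_ex h)
  have h4 := pt_pos hs hn hj h3
  have hc' := small_c h
  have h5 : Small fun a => pd (c a) (s a) (n a) := h.mono fun _ => pd_le _ _ _
  have h6 : PT fun a => pd (c a) (s a) (n a) :=
    PT.pow (PT.const 2) (by fun_prop) (h5.mono fun _ => Nat.lt_two_pow_self.le)
  have h7 : PT fun a => allStr (n a) := PT.allStr hn (h.mono fun a =>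
    (Nat.pow_le_pow_right (by norm_num) (Nat.le_add_right _ _)).trans (two_pow_le_PP _ _ _))
  obtain ⟨F, hF⟩ : ∃ F : α → ℕ, F = fun a => PP (c a) (s a) (n a) := ⟨_, rfl⟩
  obtain ⟨G, hG⟩ : ∃ G : α → ℕ, G = fun a => pd (c a) (s a) (n a) := ⟨_, rfl⟩
  obtain ⟨H, hH⟩ : ∃ H : α → ℕ, H = fun a => pos (c a) (s a) (n a) (j a) := ⟨_, rfl⟩
  obtain ⟨K, hK⟩ : ∃ K : α → ℕ, K = fun a => rl (s a) (n a) := ⟨_, rfl⟩
  obtain ⟨L, hL⟩ : ∃ L : α → List Str, L = fun a => allStr (n a) := ⟨_, rfl⟩
  rw [← hF] at h h3
  rw [← hG] at h5 h6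
  rw [← hH] at h4
  rw [← hK] at h1 h2
  rw [← hL] at h7
  refine (show PT fun a => (L a).any fun x => urun (e a) (bitEncode (b, ins (σ a) x (H a) (K a),
    List.replicate (G a) true)) (F a) == [true] by fun_prop).congr fun a => ?_
  simp only [hF, hG, hH, hK, hL, fdc]

theorem pt_fac {e : α → Code} {σ : α → Bool} {w : α → Str} (he : PT e) (hσ : PT σ) (hc : PT c)
    (hs : PT s) (hn : PT n) (hj : PT j) (hw : PT w) (h : Small fun a => PP (c a) (s a) (n a)) :
    PT fun a => fac (c a) (s a) (fdc (e a) (σ a) (c a) (s a)) (σ a) (n a) (j a) (w a) := by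
  have h1 := pt_rl hs hn
  have h2 := small_rl (small_s h) (small_n h)
  have h3 := pt_qq (pt_pos hs hn hj (pt_PP hc hs hn (small_c h) (small_ex h))) h1 h2 hσ hw
  refine (PT.cond (pt_fdc true he hσ hc hs hn hj h)
    (PT.rat_mul h3 (PT.rat_pow (PT.const 2) h1 h2))
    (PT.cond (pt_fdc false he hσ hc hs hn hj h) (PT.rat_div (PT.rat_sub (PT.const 1) h3)
      (PT.rat_sub (PT.const 1) (PT.rat_pow (PT.const (1 / 2)) h1 h2))) (PT.const 1))).congr
    fun a => ?_
  simp only [fac, Bool.cond_eq_ite]

theorem pt_lev {e : α → Code} {σ : α → Bool} {w : α → Str} (he : PT e) (hσ : PT σ) (hc : PT c)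
    (hs : PT s) (hn : PT n) (hw : PT w) (h : Small fun a => PP (c a) (s a) (n a)) :
    PT fun a => lev (c a) (s a) (fdc (e a) (σ a) (c a) (s a)) (σ a) (n a) (w a) :=
  PT.rat_prod (PT.map (PT.range (pt_NN hs hn (small_s h) (small_n h)) (small_NN h))
    (pt_fac (α := α × ℕ) (by fun_prop) (by fun_prop) (by fun_prop) (by fun_prop) (by fun_prop)
      (by fun_prop) (by fun_prop) (h.comp (g := Prod.fst) (by fun_prop))))

theorem pt_bet {e : α → Code} {σ : α → Bool} {w : α → Str} (he : PT e) (hσ : PT σ) (hc : PT c)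
    (hs : PT s) (hn : PT n) (hw : PT w) (h : Small fun a => PP (c a) (s a) (n a)) :
    PT fun a => bet (c a) (s a) (fdc (e a) (σ a) (c a) (s a)) (σ a) (n a) (w a) := by
  have h0 := pt_NN hs hn (small_s h) (small_n h)
  have h1 : ∀ b, PT fun p : α × ℕ => fdc (e p.1) (σ p.1) (c p.1) (s p.1) b (n p.1) p.2 := fun b =>
    pt_fdc b (by fun_prop) (by fun_prop) (by fun_prop) (by fun_prop) (by fun_prop) (by fun_prop)
      (h.comp (g := Prod.fst) (by fun_prop))
  have h2 : PT fun a => fst (s a) (fdc (e a) (σ a) (c a) (s a)) (n a) :=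
    PT.headD (PT.filter (PT.range h0 (small_NN h)) (PT.not (PT.or (h1 true) (h1 false)))) h0
  exact pt_qq (pt_pos hs hn h2 (pt_PP hc hs hn (small_c h) (small_ex h))) (pt_rl hs hn)
    (small_rl (small_s h) (small_n h)) hσ hw

theorem ptp_PP {N : α → ℕ} (hc : PT c) (hs : PT s) (hn : PT n) (hc' : Small c) (hN : PT N) :
    PTP fun a => PP (c a) (s a) (n a) ≤ N a :=
  (show PTP fun a => (n a + s a + 6) ^ (c a + 2) < (N a).size by
    have := PT.size' hN
    fun_prop).congr fun _ => Nat.lt_size.symm

end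

/-- The strategy with index `i`. -/
def TT (i s : ℕ) (w : Str) : ℚ :=
  val (blk i 1).length s
    (fdc (decCode (blk i 0)) ((blk i 2).headD false) (blk i 1).length s) ((blk i 2).headD false)
    w.length w

theorem pt_TT : ∃ T : ℕ → ℕ → Str → ℚ, (∀ i s w, T i (s + 1) w = TT i (s + 1) w) ∧
    PT fun a : ℕ × Str × Str => T a.1 a.2.1.length a.2.2 := by
  obtain ⟨S, hS⟩ : ∃ S : (ℕ × Str × Str) × ℕ → ℕ × ℕ × ℕ, S = fun p =>
    clp p.1.2.2.length ((blk p.1.1 1).length, p.1.2.1.length, p.2) := ⟨_, rfl⟩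
  have h0 : PTP fun p : (ℕ × Str × Str) × ℕ =>
      PP (blk p.1.1 1).length p.1.2.1.length p.2 ≤ p.1.2.2.length :=
    ptp_PP (by fun_prop) (by fun_prop) (by fun_prop) (by fun_prop) (by fun_prop)
  have h1 : PT S := by
    rw [hS]
    exact PT.ite h0 (by fun_prop) (PT.const _)
  have h2 : Small fun p => PP (S p).1 (S p).2.1 (S p).2.2 :=
    Small.mono (n := fun p => p.1.2.2.length + PP 0 0 0) (by fun_prop) fun p => by
      simp only [hS, clp]
      split_ifs with h
      · exact h.trans (Nat.le_add_right _ _)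
      · exact Nat.le_add_left _ _
  have h3 := pt_lev (e := fun p => decCode (blk p.1.1 0)) (σ := fun p => (blk p.1.1 2).headD false)
    (w := fun p => p.1.2.2) (by fun_prop) (by fun_prop) h1.fst h1.snd.fst h1.snd.snd
    (by fun_prop) h2
  have h4 := pt_bet (e := fun p => decCode (blk p.1.1 0)) (σ := fun p => (blk p.1.1 2).headD false)
    (w := fun p => p.1.2.2) (by fun_prop) (by fun_prop) h1.fst h1.snd.fst h1.snd.snd
    (by fun_prop) h2
  have h5 : PT fun p : (ℕ × Str × Str) × ℕ => (1 / 2 : ℚ) ^ rl p.1.2.1.length p.2 :=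
    PT.rat_pow (PT.const _) (pt_rl (by fun_prop) (by fun_prop)) (by unfold rl; fun_prop)
  have h6 := PT.ite (inst := fun _ => inferInstance) h0 h3 (PT.const 1)
  have h7 := PT.ite (inst := fun _ => inferInstance) h0 h4 h5
  obtain ⟨F, hF⟩ : ∃ F : (ℕ × Str × Str) × ℕ → ℚ, F = fun p =>
    if PP (blk p.1.1 1).length p.1.2.1.length p.2 ≤ p.1.2.2.length then
      lev (S p).1 (S p).2.1 (fdc (decCode (blk p.1.1 0)) ((blk p.1.1 2).headD false) (S p).1
        (S p).2.1) ((blk p.1.1 2).headD false) (S p).2.2 p.1.2.2 else 1 := ⟨_, rfl⟩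
  obtain ⟨G, hG⟩ : ∃ G : (ℕ × Str × Str) × ℕ → ℚ, G = fun p =>
    if PP (blk p.1.1 1).length p.1.2.1.length p.2 ≤ p.1.2.2.length then
      bet (S p).1 (S p).2.1 (fdc (decCode (blk p.1.1 0)) ((blk p.1.1 2).headD false) (S p).1
        (S p).2.1) ((blk p.1.1 2).headD false) (S p).2.2 p.1.2.2
      else (1 / 2 : ℚ) ^ rl p.1.2.1.length p.2 := ⟨_, rfl⟩
  rw [← hF] at h6
  rw [← hG] at h7
  refine ⟨fun i s w => (1 / 2 : ℚ) ^ s *
      ((List.range w.length).map fun n => F ((i, List.replicate s true, w), n)).prod +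
    ((List.range w.length).map fun n => G ((i, List.replicate s true, w), n)).sum +
      (1 / 2 : ℚ) ^ s * (2 / ((w.length : ℚ) + 1)), fun i s w => ?_, by fun_prop⟩
  beta_reduce
  rw [TT, val]
  congr 2
  · congr 2
    refine List.map_congr_left fun n _ => ?_
    simp only [hF, hS, clp, List.length_replicate]
    split_ifs with h
    · rfl
    · exact (lev_short s.succ_pos (not_le.1 h).le).symm
  · congr 1
    refine List.map_congr_left fun n _ => ?_
    simp only [hG, hS, clp, List.length_replicate]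
    split_ifs with h
    · rfl
    · exact (bet_short (not_le.1 h).le).symm

end Pool.Agent.P.MP_158ebf_lc.LI
end

-- part Pool.Agent.P.MP_158ebf_lc.SPerc
section

/-! The block perceptron and its mistake bound. -/

namespace Pool.Agent.P.MP_158ebf_lc.SP

open Function N487b59b3 N68a2faeb Pool.Agent.Lib.PolyTime

/-- All data of one stage. -/
abbrev Ctx := Code × Code × ℕ × ℕ × ℕ × Str × Str × List Str × List Str × List Str

namespace Ctx
/-- Code of the query map. -/
def e (c : Ctx) : Code := c.1
/-- Code of the output map. -/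
def e' (c : Ctx) : Code := c.2.1
/-- Index of the first string of the stage. -/
def base (c : Ctx) : ℕ := c.2.2.1
/-- Queries per input. -/
def q (c : Ctx) : ℕ := c.2.2.2.1
/-- Number of favoured patterns. -/
def h (c : Ctx) : ℕ := c.2.2.2.2.1
/-- Block length. -/
def t (c : Ctx) : ℕ := c.2.2.2.2.2.1.length
/-- Clock. -/
def clk (c : Ctx) : ℕ := c.2.2.2.2.2.2.1.length
/-- All answer strings. -/
def LQ (c : Ctx) : List Str := c.2.2.2.2.2.2.2.1
/-- All patterns. -/
def Lt (c : Ctx) : List Str := c.2.2.2.2.2.2.2.2.1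
/-- The short strings. -/
def sh (c : Ctx) : List Str := c.2.2.2.2.2.2.2.2.2
end Ctx

/-- The joint query map of block `j`. -/
def jq (c : Ctx) (j : ℕ) (β : Str) : Str :=
  decStr (urun c.e (bitEncode (stdString (c.base + j * c.t + β.length / c.q),
    β.drop (β.length / c.q * c.q))) c.clk)

/-- The output pattern of block `j`. -/
def jo (c : Ctx) (j : ℕ) (β : Str) : Str :=
  (List.range c.t).map fun a => (urun c.e' (bitEncode (stdString (c.base + j * c.t + a),
    (β.drop (a * c.q)).take c.q)) c.clk).headD false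

/-- Probability of the pattern `π` in block `j` given the bits `ρ`. -/
def pr (c : Ctx) (j : ℕ) (ρ : List (Str × Bool)) (π : Str) : ℚ :=
  (c.LQ.map fun β => wt (jq c j) ρ β * if jo c j β = π then 1 else 0).sum

/-- The vector attached to block `j` and a function of the output pattern. -/
def phi (c : Ctx) (j : ℕ) (g : Str → ℚ) (T : Feat) : ℚ :=
  (c.LQ.map fun β => if feat (jq c j) c.sh β = T then wl (jq c j) c.sh β * g (jo c j β) else 0).sum

/-- Update direction. -/
def gz (π : Str) (G : List Str) (o : Str) : ℚ :=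
  (G.length : ℚ) * (if o = π then 1 else 0) - if o ∈ G then 1 else 0

/-- States of the learner. -/
abbrev St := List (ℕ × Str × List Str)

/-- The weight vector. -/
def uvec (c : Ctx) (st : St) (T : Feat) : ℚ :=
  (st.map fun r => phi c r.1 (gz r.2.1 r.2.2) T).sum

/-- Pairing of a pattern with a function on features. -/
def pairing (c : Ctx) (j : ℕ) (y : Feat → ℚ) (π : Str) : ℚ :=
  (c.LQ.map fun β => wl (jq c j) c.sh β * (if jo c j β = π then 1 else 0) *
    y (feat (jq c j) c.sh β)).sum

/-- The patterns whose score is at least that of `π`. -/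
def upper (c : Ctx) (st : St) (j : ℕ) (π : Str) : List Str :=
  c.Lt.filter fun π' => decide (pairing c j (uvec c st) π ≤ pairing c j (uvec c st) π')

/-- One step of the learner. -/
def upd (c : Ctx) (st : St) (j : ℕ) (π : Str) : St :=
  st ++ [(j, π, if (upper c st j π).length ≤ c.h then [] else upper c st j π)]

/-- The state after `j` blocks. -/
def stt (c : Ctx) (pat : ℕ → Str) : ℕ → St
  | 0 => []
  | j + 1 => upd c (stt c pat j) j (pat j)

/-- Number of mistakes in the first `j` blocks. -/
def mist (c : Ctx) (pat : ℕ → Str) : ℕ → ℕ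
  | 0 => 0
  | j + 1 => mist c pat j + if (upper c (stt c pat j) j (pat j)).length ≤ c.h then 0 else 1

theorem stt_congr (c : Ctx) {pat pat' : ℕ → Str} (j : ℕ) (h : ∀ i < j, pat i = pat' i) :
    stt c pat j = stt c pat' j := by
  induction j with
  | zero => rfl
  | succ j ih => rw [stt, stt, ih fun i hi => h i (by omega), h j (by omega)]

theorem list_sum_comm {α β : Type} (l : List α) (s : Finset β) (f : α → β → ℚ) :
    ∑ b ∈ s, (l.map fun a => f a b).sum = (l.map fun a => ∑ b ∈ s, f a b).sum := by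
  induction l with
  | nil => simp
  | cons a l ih => simp only [List.map_cons, List.sum_cons, Finset.sum_add_distrib, ih]

theorem list_sum_comm' {α β : Type} (l : List α) (s : List β) (f : α → β → ℚ) :
    (s.map fun b => (l.map fun a => f a b).sum).sum =
      (l.map fun a => (s.map fun b => f a b).sum).sum := by
  induction l with
  | nil => simp
  | cons a l ih => simp only [List.map_cons, List.sum_cons, List.sum_map_add, ih]

theorem sum_ind {G : List Str} (hG : G.Nodup) (o : Str) :
    (G.map fun π => if o = π then (1 : ℚ) else 0).sum = if o ∈ G then 1 else 0 := by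
  induction G with
  | nil => simp
  | cons a G ih =>
    rw [List.nodup_cons] at hG
    simp only [List.map_cons, List.sum_cons, ih hG.2, List.mem_cons]
    by_cases h : o = a
    · subst h; simp [hG.1]
    · simp [h]

variable {c : Ctx} {Q : ℕ}

theorem phi_pair (hQ : c.LQ = allStr Q) (j : ℕ) (g : Str → ℚ) (y : Feat → ℚ) :
    ∑ T ∈ fset c.sh Q, phi c j g T * y T =
      (c.LQ.map fun β => wl (jq c j) c.sh β * g (jo c j β) * y (feat (jq c j) c.sh β)).sum := by
  simp only [phi, ← List.sum_map_mul_right]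
  rw [list_sum_comm]
  refine congrArg _ (List.map_congr_left fun β hβ => ?_)
  rw [hQ, mem_allStr] at hβ
  have := feat_mem (jq c j) c.sh β
  rw [hβ] at this
  simp only [ite_mul, zero_mul]
  rw [Finset.sum_ite_eq, if_pos this]

theorem phi_gz (hQ : c.LQ = allStr Q) (j : ℕ) (π : Str) {G : List Str} (hG : G.Nodup)
    (y : Feat → ℚ) : ∑ T ∈ fset c.sh Q, phi c j (gz π G) T * y T =
      G.length * pairing c j y π - (G.map (pairing c j y)).sum := by
  rw [phi_pair hQ]
  have h1 : (G.map (pairing c j y)).sum = (c.LQ.map fun β => wl (jq c j) c.sh β *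
      (if jo c j β ∈ G then 1 else 0) * y (feat (jq c j) c.sh β)).sum := by
    unfold pairing
    rw [list_sum_comm']
    refine congrArg _ (List.map_congr_left fun β _ => ?_)
    rw [List.sum_map_mul_right, List.sum_map_mul_left, sum_ind hG]
  rw [h1, pairing, ← List.sum_map_mul_left]
  induction c.LQ with
  | nil => simp
  | cons β l ih =>
    simp only [List.map_cons, List.sum_cons, ih]
    unfold gz
    ring

theorem phi_sq (hQ : c.LQ = allStr Q) (j : ℕ) {g : Str → ℚ} {M : ℚ} (hg : ∀ o, |g o| ≤ M) :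
    ∑ T ∈ fset c.sh Q, phi c j g T ^ 2 ≤ (2 ^ Q * M) ^ 2 := by
  have h1 : ∑ T ∈ fset c.sh Q, |phi c j g T| ≤ 2 ^ Q * M := by
    have h2 : ∀ T, |phi c j g T| = phi c j g T * SignType.sign (phi c j g T) := fun T => by
      rw [mul_comm, sign_mul_self]
    have h3 := phi_pair hQ j g fun T => SignType.sign (phi c j g T)
    simp only [h2, h3]
    have h4 := List.sum_le_card_nsmul (c.LQ.map fun β => wl (jq c j) c.sh β * g (jo c j β) *
      (SignType.sign (phi c j g (feat (jq c j) c.sh β)) : ℚ)) M fun v hv => by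
      obtain ⟨β, -, rfl⟩ := List.mem_map.1 hv
      refine (le_abs_self _).trans ?_
      obtain ⟨w0, w1⟩ := wt_unit β (jq c j) (tau (feat (jq c j) c.sh β))
      have s1 : |(SignType.sign (phi c j g (feat (jq c j) c.sh β)) : ℚ)| ≤ 1 := by
        rcases SignType.sign (phi c j g (feat (jq c j) c.sh β)) with _ | _ | _ <;> simp
      rw [abs_mul, abs_mul, wl, abs_of_nonneg w0]
      calc _ ≤ 1 * M * 1 := by
            have := (abs_nonneg _).trans (hg [])
            gcongr
            exact hg _
        _ = M := by ring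
    simpa [hQ, length_allStr] using h4
  calc ∑ T ∈ fset c.sh Q, phi c j g T ^ 2 = ∑ T ∈ fset c.sh Q, |phi c j g T| ^ 2 := by
        simp only [sq_abs]
    _ ≤ (∑ T ∈ fset c.sh Q, |phi c j g T|) ^ 2 :=
        Finset.sum_sq_le_sq_sum_of_nonneg fun _ _ => abs_nonneg _
    _ ≤ _ := by gcongr

theorem pairing_psi {B : Str → Bool} {K : ℕ} (hs : c.sh = shorts K) (j : ℕ) (π : Str) :
    pairing c j (psi B) π = pr c j (known (chi B K)) π := by
  unfold pairing pr
  refine congrArg _ (List.map_congr_left fun β _ => ?_)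
  rw [wt_factor, hs]; ring

theorem sum_pr (hQ : c.LQ = allStr Q) (j : ℕ) (ρ : List (Str × Bool)) {G : List Str}
    (hG : G.Nodup) : (G.map (pr c j ρ)).sum ≤ 1 := by
  unfold pr
  rw [list_sum_comm', hQ]
  refine le_trans (List.sum_le_sum fun β _ => ?_) (sum_wt Q (jq c j) ρ).le
  rw [List.sum_map_mul_left, sum_ind hG]
  have := (wt_unit β (jq c j) ρ).1
  split_ifs
  · rw [mul_one]
  · rw [mul_zero]; exact this

theorem uvec_concat (st : St) (r : ℕ × Str × List Str) (T : Feat) :
    uvec c (st ++ [r]) T = uvec c st T + phi c r.1 (gz r.2.1 r.2.2) T := by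
  simp [uvec]

theorem phi_nil (j : ℕ) (π : Str) (T : Feat) : phi c j (gz π []) T = 0 := by
  simp [phi, gz]

theorem perc_inv (hQ : c.LQ = allStr Q) (ht : c.Lt = allStr c.t) {B : Str → Bool} {K : ℕ}
    (hs : c.sh = shorts K) (pat : ℕ → Str) (j : ℕ)
    (hp : ∀ i < j, 2 ≤ c.h * pr c i (known (chi B K)) (pat i)) :
    (mist c pat j : ℚ) ≤ ∑ T ∈ fset c.sh Q, uvec c (stt c pat j) T * psi B T ∧
    ∑ T ∈ fset c.sh Q, uvec c (stt c pat j) T ^ 2 ≤ mist c pat j * (2 ^ Q * 2 ^ c.t) ^ 2 := by
  induction j with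
  | zero => simp [mist, stt, uvec]
  | succ j ih =>
    obtain ⟨i1, i2⟩ := ih fun i hi => hp i (by omega)
    simp only [mist, stt, upd, uvec_concat]
    set st := stt c pat j
    set G := upper c st j (pat j) with hG
    split_ifs with h
    · simpa [phi_nil] using ⟨i1, i2⟩
    have hn : G.Nodup := by rw [hG, upper, ht]; exact (nodup_allStr _).filter _
    have hl : G.length ≤ 2 ^ c.t := by
      rw [hG, upper, ht, ← length_allStr]; exact List.length_filter_le _ _
    have a1 := phi_gz hQ j (pat j) hn (psi B)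
    have a2 := phi_gz hQ j (pat j) hn (uvec c st)
    have a3 := phi_sq hQ j (g := gz (pat j) G) (M := 2 ^ c.t) fun o => by
      have b1 : (G.length : ℚ) ≤ 2 ^ c.t := by exact_mod_cast hl
      have b2 : (1 : ℚ) ≤ 2 ^ c.t := one_le_pow₀ (by norm_num)
      have b3 : (0 : ℚ) ≤ G.length := by positivity
      unfold gz
      rw [abs_le]
      split_ifs <;> constructor <;> linarith
    have a4 : (G.map (pairing c j (psi B))).sum ≤ 1 := by
      rw [funext (pairing_psi hs j)]; exact sum_pr hQ j _ hn
    have a5 : 2 ≤ (G.length : ℚ) * pairing c j (psi B) (pat j) := by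
      rw [pairing_psi hs]
      have b1 := hp j (by omega)
      have b2 : (c.h : ℚ) ≤ G.length := by exact_mod_cast (not_le.1 h).le
      have b3 : 0 ≤ pr c j (known (chi B K)) (pat j) := by
        by_contra b3
        have := mul_nonneg (Nat.cast_nonneg (α := ℚ) c.h) (neg_nonneg.2 (not_le.1 b3).le)
        linarith
      exact b1.trans (mul_le_mul_of_nonneg_right b2 b3)
    have a6 : G.length * pairing c j (uvec c st) (pat j) ≤
        (G.map (pairing c j (uvec c st))).sum := by
      have := List.card_nsmul_le_sum (G.map (pairing c j (uvec c st)))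
        (pairing c j (uvec c st) (pat j)) fun v hv => by
        obtain ⟨π, hπ, rfl⟩ := List.mem_map.1 hv
        simpa using (List.mem_filter.1 hπ).2
      simpa using this
    constructor
    · simp only [add_mul, Finset.sum_add_distrib]
      push_cast
      linarith
    · have : ∀ T, (uvec c st T + phi c j (gz (pat j) G) T) ^ 2 = uvec c st T ^ 2 +
          2 * (phi c j (gz (pat j) G) T * uvec c st T) + phi c j (gz (pat j) G) T ^ 2 :=
        fun T => by ring
      simp only [this, Finset.sum_add_distrib, ← Finset.mul_sum]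
      push_cast
      linarith

theorem mist_le (hQ : c.LQ = allStr Q) (ht : c.Lt = allStr c.t) {B : Str → Bool} {K : ℕ}
    (hs : c.sh = shorts K) (pat : ℕ → Str) (j : ℕ)
    (hp : ∀ i < j, 2 ≤ c.h * pr c i (known (chi B K)) (pat i)) :
    mist c pat j ≤ (2 ^ Q * 2 ^ c.t) ^ 2 * (2 * K + 1) ^ Q := by
  obtain ⟨h1, h2⟩ := perc_inv hQ ht hs pat j hp
  have h3 := Finset.sum_mul_sq_le_sq_mul_sq (fset c.sh Q) (uvec c (stt c pat j)) (psi B)
  have h4 : ∑ T ∈ fset c.sh Q, psi B T ^ 2 ≤ (2 * K + 1) ^ Q := by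
    have := Finset.sum_le_card_nsmul (fset c.sh Q) (fun T => psi B T ^ 2) 1 fun T _ => by
      unfold psi; split_ifs <;> simp
    have h5 := card_fset c.sh Q
    rw [show c.sh.length = K by simp [hs, shorts]] at h5
    rw [nsmul_eq_mul, mul_one] at this
    exact this.trans (by exact_mod_cast h5)
  have h5 : (mist c pat j : ℚ) ^ 2 ≤
      mist c pat j * ((2 ^ Q * 2 ^ c.t) ^ 2 * (2 * K + 1) ^ Q) := by
    calc (mist c pat j : ℚ) ^ 2 ≤ _ := pow_le_pow_left₀ (by positivity) h1 2
      _ ≤ _ := h3
      _ ≤ mist c pat j * (2 ^ Q * 2 ^ c.t) ^ 2 * (2 * K + 1) ^ Q := by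
        gcongr
      _ = _ := by ring
  rcases Nat.eq_zero_or_pos (mist c pat j) with h | h
  · omega
  · have h6 : (0 : ℚ) < mist c pat j := by exact_mod_cast h
    rw [pow_two] at h5
    exact_mod_cast le_of_mul_le_mul_left h5 h6

end Pool.Agent.P.MP_158ebf_lc.SP
end

-- part Pool.Agent.P.MP_158ebf_lc.LCov
section

/-! The cover, and closure properties of `NP`. -/

namespace Pool.Agent.P.MP_158ebf_lc.LI

open Function Filter N487b59b3 N68a2faeb Pool.Agent.Lib.PolyTime POpt

/-! ### Clocks -/

theorem pad_le {n s a c : ℕ} (h : a ≤ c) : n ^ a + a ≤ (n + s + 6) ^ (c + 1) := by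
  have h1 : n ^ a ≤ (n + s + 6) ^ c :=
    (Nat.pow_le_pow_left (by omega) a).trans (Nat.pow_le_pow_right (by omega) h)
  have h2 := Nat.lt_pow_self (n := c) (show 1 < n + s + 6 by omega)
  rw [pow_succ]
  nlinarith

theorem sz_input (b σ : Bool) {x : Str} {c s j : ℕ} (hj : j < NN s x.length) :
    sz (b, ins σ x (pos c s x.length j) (rl s x.length),
      List.replicate (pd c s x.length) true) ≤ 128 * pd c s x.length ^ 2 := by
  set n := x.length with hn
  have h1 : n + s + 6 ≤ (n + s + 6) ^ (c + 1) := Nat.le_self_pow (by omega) _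
  have h2 : (n + s + 6) ^ (c + 1) < pd c s n := Nat.lt_two_pow_self
  have h3 := rl_le s n
  have h4 : (pos c s n j).size ≤ (n + s + 6) ^ (c + 2) + 1 := by
    rw [Nat.size_le, pow_succ]
    have a1 := NN_mul_le c s n
    have a2 : j * rl s n < NN s n * (rl s n + 1) := Nat.mul_lt_mul'' hj (by omega)
    change PP c s n + j * rl s n < PP c s n * 2
    omega
  have h5 : (n + s + 6) ^ (c + 2) ≤ pd c s n ^ 2 := by
    rw [pow_succ, pow_two]
    exact Nat.mul_le_mul h2.le (by omega)
  have h6 : pd c s n ≤ pd c s n ^ 2 := Nat.le_self_pow (by omega) _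
  simp only [sz_pair, sz_bool, sz_str, length_ins, List.length_replicate, ← hn]
  omega

theorem clock_le (p : Polynomial ℕ) : ∃ s₀, ∀ c n, ∀ s ≥ s₀,
    p.eval (128 * pd c s n ^ 2) ≤ PP c s n := by
  obtain ⟨k, hk⟩ := eval_le_pow p
  refine ⟨4 * k, fun c n s hs => (hk _).trans ?_⟩
  have h1 : n + s + 6 ≤ (n + s + 6) ^ (c + 1) := Nat.le_self_pow (by omega) _
  set v := (n + s + 6) ^ (c + 1) with hv
  have h2 : 128 * pd c s n ^ 2 + 2 ≤ 2 ^ (4 * v) := by
    have a1 : 128 * pd c s n ^ 2 = 2 ^ (2 * v + 7) := by rw [pd, ← hv]; ring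
    have a2 : 2 ^ 1 ≤ 2 ^ (2 * v + 7) := Nat.pow_le_pow_right (by norm_num) (by omega)
    have a3 : 2 ^ (2 * v + 7 + 1) ≤ 2 ^ (4 * v) := Nat.pow_le_pow_right (by norm_num) (by omega)
    rw [pow_succ] at a3
    omega
  refine (Nat.pow_le_pow_left h2 k).trans ?_
  rw [← pow_mul, PP, pow_succ, ← hv]
  exact Nat.pow_le_pow_right (by norm_num) (by nlinarith)

/-! ### One type of instances -/

/-- The value `y` is easy for the input `x`. -/
def easy (S : Str → Bool) (x y : Str) : Bool := decide (y.length ≤ x.length) || S y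

theorem good {R A B S : Str → Bool} {f : Str → Str} (hA : InEXP A) (hB : InEXP B)
    (hS : IsPolyTime S) (hT : IsPolyTime fun w => A w && S w) (hf : IsPolyTime f)
    (hr : ∀ y, tl R B y = A (f y)) (σ : Bool) (k : ℕ) :
    (∃ i N, i < N ∧ 1 ≤ TT i (k + i + 3) (chi R N)) ∨ ∃ c s, ∀ x, (σ = false ∨ B x = false) →
      ∃ t < NN s x.length, easy S x (f (ins σ x (pos c s x.length t) (rl s x.length))) = false ∧
        ∀ j ≤ t, ¬Con R σ (pos c s x.length j) (rl s x.length) := by
  obtain ⟨a, RA, hRA, hA⟩ := hA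
  obtain ⟨b, RB, hRB, hB⟩ := hB
  obtain ⟨T, hT'⟩ : ∃ T : Str → Bool, T = fun w => A w && S w := ⟨_, rfl⟩
  rw [← hT'] at hT
  have p1 := PT.of_isPolyTime hRA
  have p2 := PT.of_isPolyTime hRB
  have p3 := PT.of_isPolyTime hS
  have p4 := PT.of_isPolyTime hT
  have p5 := PT.of_isPolyTime hf
  let Φ : Bool × Str × Str → Bool := fun v =>
    (!sg v.2.1 || !RB (inp v.2.1, v.2.2.take (2 ^ ((inp v.2.1).length ^ b + b)))) &&
      easy S (inp v.2.1) (f v.2.1) &&
      (((bif S (f v.2.1) then T (f v.2.1) else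
        RA (f v.2.1, v.2.2.take (2 ^ ((f v.2.1).length ^ a + a)))) == sg v.2.1) == v.1)
  have hΦ : PT Φ := by
    unfold Φ easy; fun_prop
  obtain ⟨e, p, he⟩ := exists_code hΦ.isPolyTime
  obtain ⟨s₀, hs₀⟩ := clock_le p
  obtain ⟨i, hi, b0, b1, b2⟩ := exists_index (bitEncode e) (List.replicate (a + b) true) [σ] s₀
  set s := k + i + 3 with hs
  set c := a + b with hc
  have hcon : ∀ x P r, (σ = false ∨ B x = false) →
      (Con R σ P r ↔ A (f (ins σ x P r)) = σ) := by
    intro x P r hx
    rw [← hr]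
    cases σ
    · rw [← Bool.not_eq_true, tl_false, not_not]
    · rw [tl_true]
      simp [hx.resolve_left (by simp)]
  have hfd : ∀ β n j, j < NN s n → (fdc e σ c s β n j = true ↔ ∃ x : Str, x.length = n ∧
      (σ = false ∨ B x = false) ∧ easy S x (f (ins σ x (pos c s n j) (rl s n))) = true ∧
        (A (f (ins σ x (pos c s n j) (rl s n))) == σ) = β) := by
    intro β n j hj
    simp only [fdc, List.any_eq_true, mem_allStr]
    refine exists_congr fun x => and_congr_right ?_
    rintro rfl
    rw [he _ _ ((eval_mono p (sz_input β σ hj)).trans (hs₀ c _ s (by omega))), enc_bool]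
    have a1 : ∀ m d, m ≤ x.length → d ≤ c →
        (List.replicate (pd c s x.length) true).take (2 ^ (m ^ d + d)) =
          List.replicate (2 ^ (m ^ d + d)) true := by
      intro m d hm hd
      rw [List.take_replicate, min_eq_left]
      exact Nat.pow_le_pow_right (by norm_num)
        ((Nat.add_le_add_right (Nat.pow_le_pow_left hm d) d).trans (pad_le hd))
    simp only [Φ, sg_ins, inp_ins, a1 _ b le_rfl (by omega), ← hB, beq_iff_eq, List.cons.injEq,
      and_true, Bool.and_eq_true, Bool.or_eq_true, Bool.not_eq_true', and_assoc]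
    refine and_congr_right fun _ => and_congr_right fun h => ?_
    set y := f (ins σ x (pos c s x.length j) (rl s x.length))
    cases hy : S y
    · rw [cond_false, a1 _ a (by simpa [easy, hy] using h) (by omega), ← hA]
    · simp [hT', hy]
  let fd : Bool → ℕ → ℕ → Bool := fdc e σ c s
  by_cases hcov : ∃ N, i < N ∧ 1 ≤ val c s fd σ (chi R N).length (chi R N)
  · refine Or.inl ⟨i, ?_⟩
    simpa only [TT, b0, b1, b2, decCode_enc, List.headD_cons, List.length_replicate] using hcov
  refine Or.inr ⟨c, s, fun x hx => ?_⟩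
  obtain ⟨h1, h2⟩ := (cover (c := c) (s := s) (fd := fd) (σ := σ) (A := R) (by omega)
    (fun n j hj h => by
      obtain ⟨x, -, hx, -, h⟩ := (hfd true n j hj).1 h
      exact (hcon x _ _ hx).2 (by simpa using h))
    (fun n j hj h => by
      obtain ⟨x, -, hx, -, h⟩ := (hfd false n j hj).1 h
      exact fun h' => by simp [(hcon x _ _ hx).1 h'] at h) i x.length).resolve_left hcov
  refine ⟨_, h1, Bool.eq_false_iff.2 fun h => ?_, h2⟩
  have h3 := (first_spec (NN s x.length) fun j =>
    !(fd true x.length j || fd false x.length j)).2.1 h1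
  rw [← fst] at h3
  have h4 := (hfd _ _ _ h1).2 ⟨x, rfl, hx, h, rfl⟩
  revert h4
  cases (A (f (ins σ x (pos c s x.length (fst s fd x.length)) (rl s x.length))) == σ) <;>
    intro h4 <;> simp [fd, h4] at h3

/-! ### The reduction -/

/-- The first block whose image is not easy. -/
def pick (S : Str → Bool) (f : Str → Str) (σ : Bool) (c s : ℕ) (x : Str) : ℕ :=
  ((List.range (NN s x.length)).filter fun j =>
    !easy S x (f (ins σ x (pos c s x.length j) (rl s x.length)))).headD (NN s x.length)

theorem small_NN' (s : ℕ) : Small fun x : Str => NN s x.length :=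
  Small.mono (n := fun x : Str => s * (2 ^ s * (2 * x.length + 1) ^ 2)) (by fun_prop) fun x => by
    have h : 2 ^ x.length.size ≤ 2 * x.length + 1 := by
      rcases Nat.eq_zero_or_pos x.length.size with h | h
      · rw [h]; omega
      · have := Nat.lt_size.1 (Nat.sub_one_lt h.ne')
        obtain ⟨m, hm⟩ : ∃ m, x.length.size = m + 1 := ⟨_, (Nat.sub_add_cancel h).symm⟩
        rw [hm, Nat.add_sub_cancel] at this
        rw [hm, pow_succ]
        omega
    rw [NN, rl, pow_add, mul_comm 2 x.length.size, pow_mul]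
    gcongr

theorem pt_out {S : Str → Bool} {f : Str → Str} (hS : PT S) (hf : PT f) (σ : Bool) (c s : ℕ) :
    PT (pick S f σ c s) ∧ PT fun x : Str =>
      f (ins σ x (pos c s x.length (pick S f σ c s x)) (rl s x.length)) := by
  have h0 : PT fun x : Str => NN s x.length :=
    pt_NN (by fun_prop) (by fun_prop) (by fun_prop) (by fun_prop)
  have h1 : PT fun p : Str × ℕ => f (ins σ p.1 (pos c s p.1.length p.2) (rl s p.1.length)) :=
    hf.comp (pt_ins (by fun_prop) (by fun_prop) (pt_pos (c := fun _ => c) (by fun_prop)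
      (by fun_prop) (by fun_prop) (pt_PP (by fun_prop) (by fun_prop) (by fun_prop) (by fun_prop)
        (by fun_prop))) (pt_rl (by fun_prop) (by fun_prop))
      (small_rl (by fun_prop) (by fun_prop)))
  obtain ⟨F, hF⟩ : ∃ F : Str × ℕ → Str, F = fun p =>
    f (ins σ p.1 (pos c s p.1.length p.2) (rl s p.1.length)) := ⟨_, rfl⟩
  rw [← hF] at h1
  have h2 : PT fun p : Str × ℕ => !easy S p.1 (F p) := by unfold easy; fun_prop
  have h3 : PT (pick S f σ c s) :=
    (PT.headD (PT.filter (f := fun x j => !easy S x (F (x, j))) (PT.range h0 (small_NN' s)) h2)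
      h0).congr fun x => by simp only [hF, pick]
  exact ⟨h3, (h1.comp (PT.pair PT.id h3)).congr fun x => by simp only [hF]⟩

theorem pick_spec {S : Str → Bool} {f : Str → Str} {σ : Bool} {c s : ℕ} {x : Str} :
    (∀ t, easy S x (f (ins σ x (pos c s x.length t) (rl s x.length))) = false →
      pick S f σ c s x ≤ t) ∧ (pick S f σ c s x < NN s x.length →
      easy S x (f (ins σ x (pos c s x.length (pick S f σ c s x)) (rl s x.length))) = false) := by
  obtain ⟨h1, h2, -⟩ := first_spec (NN s x.length) fun j =>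
    !easy S x (f (ins σ x (pos c s x.length j) (rl s x.length)))
  rw [← pick] at h1 h2
  exact ⟨fun t ht => not_lt.1 fun h => by simpa [ht] using h1 t h, fun h => by simpa using h2 h⟩

theorem covers_li {R A B S : Str → Bool} (hA : InEXP A) (hB : InEXP B)
    (hS : IsPolyTime S) (hT : IsPolyTime fun w => A w && S w) (h : ManyOne (tl R B) A)
    (hn : ¬LiAvoid B A S) (k : ℕ) : ∃ i N, i < N ∧ 1 ≤ TT i (k + i + 3) (chi R N) := by
  obtain ⟨f, hf, hr⟩ := h
  by_contra hc
  obtain ⟨c, s, h1⟩ := (good hA hB hS hT hf hr true k).resolve_left hc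
  obtain ⟨c', s', h2⟩ := (good hA hB hS hT hf hr false k).resolve_left hc
  obtain ⟨p1, p2⟩ := pt_out (PT.of_isPolyTime hS) (PT.of_isPolyTime hf) true c s
  obtain ⟨-, p3⟩ := pt_out (PT.of_isPolyTime hS) (PT.of_isPolyTime hf) false c' s'
  have p4 : PTP fun x : Str => pick S f true c s x < NN s x.length :=
    PTP.lt p1 (pt_NN (by fun_prop) (by fun_prop) (by fun_prop) (by fun_prop))
  have he : ∀ x y, easy S x y = false → x.length < y.length ∧ S y = false := by
    intro x y h
    simpa [easy] using h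
  refine hn ⟨_, (PT.ite (inst := fun _ => inferInstance) p4 p2 p3).isPolyTime, fun x => ?_⟩
  split_ifs with h
  · refine ⟨?_, he _ _ (pick_spec.2 h)⟩
    rw [← hr]
    cases hx : B x
    · obtain ⟨t, -, ht, hcon⟩ := h1 x (Or.inr hx)
      refine (Bool.eq_false_iff.2 fun h' => ?_).symm
      exact ((tl_true _ _ _ _ _).1 h').elim (by simp [hx]) (hcon _ (pick_spec.1 t ht))
    · exact ((tl_true _ _ _ _ _).2 (Or.inl hx)).symm
  · obtain ⟨t, ht0, ht, hcon⟩ := h2 x (Or.inl rfl)
    have a1 := pick_spec.1 t ht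
    refine ⟨?_, he _ _ (pick_spec.2 (a1.trans_lt ht0))⟩
    rw [← hr, (tl_false _ _ _ _ _).2 (hcon _ a1)]
    by_contra hx
    obtain ⟨t, ht0, ht, -⟩ := h1 x (Or.inr (by simpa using hx))
    exact h ((pick_spec.1 t ht).trans_lt ht0)

theorem pnull_li : PNull {R | ∃ A B S : Str → Bool, InEXP A ∧ InEXP B ∧ IsPolyTime S ∧
    IsPolyTime (fun w => A w && S w) ∧ (∀ L, PosTT L (join R B) → ManyOne L A) ∧
    ¬LiAvoid B A S} := by
  obtain ⟨T, h1, h2⟩ := pt_TT
  refine pnull_mono (pnull_family T (fun i n w => ?_) (fun i n w => ?_) (fun i n w h => ?_) h2) ?_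
  · rw [h1]
    exact val_nonneg _
  · simp only [h1]
    exact val_step n.succ_pos
  · rw [h1]
    exact val_le n.succ_pos h
  · rintro R ⟨A, B, S, hA, hB, hS, hT, h, hn⟩ k
    obtain ⟨i, N, hi, hN⟩ := covers_li hA hB hS hT (h _ (posTT_tl R B)) hn k
    exact ⟨i, N, hi, by rw [h1 i (k + i + 2)]; exact hN⟩

/-! ### Closure properties of `NP` -/

theorem join_NP {R B : Str → Bool} (hR : R ∈ NP) (hB : B ∈ NP) : join R B ∈ NP := by
  obtain ⟨p, V, hV, hR⟩ := mem_NP_iff.1 hR
  obtain ⟨q, W, hW, hB⟩ := mem_NP_iff.1 hB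
  refine mem_NP_of_small (β := Str) (fun y w => y.isEmpty = false ∧
      ((y.headD false = false ∧ w.length ≤ p.eval y.tail.length ∧ V (y.tail, w) = true) ∨
      (y.headD false = true ∧ w.length ≤ q.eval y.tail.length ∧ W (y.tail, w) = true))) id
    (by fun_prop) PT.id (fun y => p.eval y.tail.length + q.eval y.tail.length) (by fun_prop) ?_ ?_
  · rintro (_ | ⟨_ | _, y⟩) w ⟨h0, h⟩
    · simp at h0
    · exact (hR y).2 ⟨w, by simpa using h⟩
    · exact (hB y).2 ⟨w, by simpa using h⟩
  · rintro (_ | ⟨_ | _, y⟩) h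
    · simp [join] at h
    · obtain ⟨w, hw⟩ := (hR y).1 h
      exact ⟨w, hw.1.trans (Nat.le_add_right _ _), rfl, Or.inl ⟨rfl, hw⟩⟩
    · obtain ⟨w, hw⟩ := (hB y).1 h
      exact ⟨w, hw.1.trans (Nat.le_add_left _ _), rfl, Or.inr ⟨rfl, hw⟩⟩

theorem posTT_NP {L A : Str → Bool} (hA : A ∈ NP) (h : PosTT L A) : L ∈ NP := by
  obtain ⟨p, R, hR, hA⟩ := mem_NP_iff.1 hA
  obtain ⟨F, E, hF, hE, hm, h⟩ := h
  have hF := PT.of_isPolyTime hF
  have hE := PT.of_isPolyTime hE
  refine mem_NP_of_small (β := List Str) (fun x l => E (x, (List.range (F x).length).map fun z =>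
      decide ((l.getD z []).length ≤ p.eval ((F x).getD z []).length) &&
        R ((F x).getD z [], l.getD z [])) = true) blocks (PTP.of_bool (by fun_prop)) (by fun_prop)
    (fun x => (F x).length * (2 * p.eval (sz (F x)) + 1)) (by fun_prop) ?_ ?_
  · intro x l hl
    rw [h]
    refine hm x _ _ (List.forall₂_iff_get.2 ⟨by simp, fun z h1 h2 => ?_⟩) hl
    have hz : z < (F x).length := by simpa using h2
    simp only [List.get_eq_getElem, List.getElem_map, List.getElem_range, Bool.le_iff_imp,
      Bool.and_eq_true, decide_eq_true_eq, List.getD_eq_getElem _ _ hz]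
    exact fun h' => (hA _).2 ⟨_, h'⟩
  · intro x hx
    have h' : ∀ y, ∃ w : Str, w.length ≤ p.eval y.length ∧ R (y, w) = A y := fun y => by
      cases hy : A y
      · refine ⟨[], Nat.zero_le _, Bool.eq_false_iff.2 fun h => ?_⟩
        simp [(hA y).2 ⟨[], Nat.zero_le _, h⟩] at hy
      · exact (hA y).1 hy
    choose f hf using h'
    refine ⟨(((F x).map f).map delimit).flatten, ?_, ?_⟩
    · rw [List.length_flatten]
      refine (List.sum_le_card_nsmul _ (2 * p.eval (sz (F x)) + 1) fun v hv => ?_).trans (by simp)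
      simp only [List.map_map, List.mem_map, Function.comp] at hv
      obtain ⟨y, hy, rfl⟩ := hv
      rw [length_delimit]
      have := (hf y).1.trans (eval_mono p (length_le_of_mem hy))
      omega
    · rw [blocks_flatten, ← hx, h]
      congr 2
      refine List.ext_getElem (by simp) fun z h1 h2 => ?_
      have hz : z < (F x).length := by simpa using h2
      simp [hz, (hf _).1, (hf _).2]

theorem inEXP_of_NP {A : Str → Bool} (hA : A ∈ NP) : InEXP A := by
  obtain ⟨p, R, hR, hA⟩ := mem_NP_iff.1 hA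
  obtain ⟨k, hk⟩ := eval_le_pow p
  have h1 : ∀ n, p.eval n ≤ n ^ (2 * k + 3 ^ k) + (2 * k + 3 ^ k) := by
    intro n
    refine (hk n).trans ?_
    rcases le_or_gt n 1 with h | h
    · have := Nat.pow_le_pow_left (show n + 2 ≤ 3 by omega) k
      omega
    · have a1 : (n + 2) ^ k ≤ (n ^ 2) ^ k := Nat.pow_le_pow_left (by nlinarith) k
      rw [← pow_mul] at a1
      have a2 : n ^ (2 * k) ≤ n ^ (2 * k + 3 ^ k) :=
        Nat.pow_le_pow_right (by omega) (Nat.le_add_right _ _)
      exact (a1.trans a2).trans (Nat.le_add_right _ _)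
  have h2 : PT fun v : (Str × Str) × ℕ => allStr (min v.2 v.1.2.length.size) :=
    PT.allStr (PT.min (by fun_prop) (PT.size' (by fun_prop)))
      (Small.mono (n := fun v => 2 * v.1.2.length + 1) (by fun_prop) fun v => by
        refine (Nat.pow_le_pow_right (by norm_num) (min_le_right _ _)).trans ?_
        rcases Nat.eq_zero_or_pos v.1.2.length.size with h | h
        · rw [h]; omega
        · have := Nat.lt_size.1 (Nat.sub_one_lt h.ne')
          obtain ⟨m, hm⟩ : ∃ m, v.1.2.length.size = m + 1 := ⟨_, (Nat.sub_add_cancel h).symm⟩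
          rw [hm, Nat.add_sub_cancel] at this
          rw [hm, pow_succ]
          omega)
  obtain ⟨G, hG⟩ : ∃ G : (Str × Str) × ℕ → List Str,
    G = fun v => allStr (min v.2 v.1.2.length.size) := ⟨_, rfl⟩
  rw [← hG] at h2
  refine ⟨2 * k + 3 ^ k, fun v => (List.range (p.eval v.1.length + 1)).any fun l =>
    (G (v, l)).any fun w => R (v.1, w), PT.isPolyTime (by fun_prop), fun x => ?_⟩
  rw [Bool.eq_iff_iff, hA]
  simp only [hG, List.any_eq_true, List.mem_range, mem_allStr, List.length_replicate,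
    Nat.size_pow]
  constructor
  · rintro ⟨w, hw, h⟩
    exact ⟨w.length, by omega, w, by have := h1 x.length; omega, h⟩
  · rintro ⟨l, hl, w, hw, h⟩
    exact ⟨w, by omega, h⟩

end Pool.Agent.P.MP_158ebf_lc.LI
end

-- part Pool.Agent.P.MP_158ebf_lc.SMart
section

/-! The betting strategy of the learner on the strings of one length. -/

namespace Pool.Agent.P.MP_158ebf_lc.SP

open Function N487b59b3 N68a2faeb Pool.Agent.Lib.PolyTime

/-- Payoff of a pattern. -/
def fac (c : Ctx) (st : St) (j : ℕ) (π : Str) : ℚ :=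
  1 / 2 + if (upper c st j π).length ≤ c.h then 2 ^ c.t / (2 * (c.h : ℚ)) else 0

/-- Mean payoff over the completions of a partial pattern. -/
def avg (c : Ctx) (st : St) (j : ℕ) (p : Str) (k : ℕ) : ℚ :=
  ((allStr k).map fun x => fac c st j (p ++ x)).sum / 2 ^ k

/-- The `j`-th block of `v`. -/
def blockp (c : Ctx) (v : Str) (j : ℕ) : Str := (v.drop (j * c.t)).take c.t

/-- Product of the payoffs of the first `j` blocks. -/
def fprod (c : Ctx) (pat : ℕ → Str) (j : ℕ) : ℚ :=
  ((List.range j).map fun i => fac c (stt c pat i) i (pat i)).prod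

/-- The capital after the bits `v` of the stage. -/
def gv (c : Ctx) (v : Str) : ℚ :=
  fprod c (blockp c v) (v.length / c.t) * avg c (stt c (blockp c v) (v.length / c.t))
    (v.length / c.t) (v.drop (v.length / c.t * c.t)) (c.t - v.length % c.t)

variable {c : Ctx}

theorem fac_ge (st : St) (j : ℕ) (π : Str) : 1 / 2 ≤ fac c st j π := by
  unfold fac
  split_ifs
  · exact le_add_of_nonneg_right (by positivity)
  · simp

theorem count_good (ht : c.Lt = allStr c.t) (st : St) (j : ℕ) :
    (c.Lt.filter fun π => decide ((upper c st j π).length ≤ c.h)).length ≤ c.h := by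
  set S := c.Lt.filter fun π => decide ((upper c st j π).length ≤ c.h) with hS
  rcases eq_or_ne S [] with h | h
  · simp [h]
  obtain ⟨π, hπ, hmin⟩ := Finset.exists_min_image S.toFinset (pairing c j (uvec c st))
    (by simpa using h)
  rw [List.mem_toFinset] at hπ
  have h1 : (upper c st j π).length ≤ c.h := by simpa using (List.mem_filter.1 hπ).2
  have h2 : S.Nodup := by rw [hS, ht]; exact (nodup_allStr _).filter _
  refine le_trans (List.subperm_of_subset h2 fun x hx => ?_).length_le h1
  exact List.mem_filter.2 ⟨(List.mem_filter.1 hx).1, by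
    simpa using hmin x (List.mem_toFinset.2 hx)⟩

theorem sum_half (l : List Str) (p : Str → Prop) [DecidablePred p] (x : ℚ) :
    (l.map fun π => 1 / 2 + if p π then x else 0).sum =
      l.length / 2 + (l.filter fun π => decide (p π)).length * x := by
  induction l with
  | nil => simp
  | cons a l ih =>
    simp only [List.map_cons, List.sum_cons, ih, List.length_cons, List.filter_cons]
    by_cases h : p a <;> simp [h] <;> ring

theorem avg_nil (ht : c.Lt = allStr c.t) (hh : 0 < c.h) (st : St) (j : ℕ) :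
    avg c st j [] c.t ≤ 1 := by
  have h1 := count_good ht st j
  rw [ht] at h1
  have h2 : (0 : ℚ) < c.h := by exact_mod_cast hh
  unfold avg fac
  simp only [List.nil_append]
  rw [sum_half, div_le_one (by positivity), length_allStr]
  have h3 : (((allStr c.t).filter fun π => decide ((upper c st j π).length ≤ c.h)).length : ℚ) *
      (2 ^ c.t / (2 * c.h)) ≤ c.h * (2 ^ c.t / (2 * c.h)) := by
    gcongr
  have h4 : (c.h : ℚ) * (2 ^ c.t / (2 * c.h)) = 2 ^ c.t / 2 := by field_simp
  push_cast
  linarith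

theorem avg_ge (st : St) (j : ℕ) (p : Str) (k : ℕ) : 1 / 2 ≤ avg c st j p k := by
  have := List.card_nsmul_le_sum ((allStr k).map fun x => fac c st j (p ++ x)) (1 / 2)
    fun v hv => by
    obtain ⟨x, -, rfl⟩ := List.mem_map.1 hv
    exact fac_ge _ _ _
  rw [avg, le_div_iff₀ (by positivity)]
  simp only [List.length_map, length_allStr, nsmul_eq_mul] at this
  push_cast at this
  linarith

theorem avg_succ (st : St) (j : ℕ) (p : Str) (k : ℕ) :
    avg c st j p (k + 1) = (avg c st j (p ++ [false]) k + avg c st j (p ++ [true]) k) / 2 := by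
  simp only [avg, sum_allStr_succ, List.append_assoc, List.singleton_append]
  field_simp
  ring

theorem avg_zero (st : St) (j : ℕ) (p : Str) : avg c st j p 0 = fac c st j p := by
  simp [avg, allStr]

theorem fprod_nonneg (pat : ℕ → Str) (j : ℕ) : 0 ≤ fprod c pat j :=
  List.prod_nonneg fun v hv => by
    obtain ⟨x, -, rfl⟩ := List.mem_map.1 hv
    exact le_trans (by norm_num) (fac_ge _ _ _)

theorem fprod_succ (pat : ℕ → Str) (j : ℕ) :
    fprod c pat (j + 1) = fprod c pat j * fac c (stt c pat j) j (pat j) := by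
  simp [fprod, List.range_succ]

theorem fprod_congr {pat pat' : ℕ → Str} (j : ℕ) (h : ∀ i < j, pat i = pat' i) :
    fprod c pat j = fprod c pat' j := by
  unfold fprod
  refine congrArg _ (List.map_congr_left fun i hi => ?_)
  rw [List.mem_range] at hi
  rw [h i hi, stt_congr c i fun k hk => h k (by omega)]

theorem gv_nonneg (v : Str) : 0 ≤ gv c v :=
  mul_nonneg (fprod_nonneg _ _) (le_trans (by norm_num) (avg_ge _ _ _ _))

theorem gv_nil (ht : c.Lt = allStr c.t) (hh : 0 < c.h) : gv c [] ≤ 1 := by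
  simpa [gv, fprod] using avg_nil ht hh _ 0

theorem blockp_concat (v : Str) (b : Bool) {i : ℕ} (hi : i < v.length / c.t) :
    blockp c (v ++ [b]) i = blockp c v i := by
  have h1 : (i + 1) * c.t ≤ v.length :=
    (Nat.mul_le_mul_right _ hi).trans (Nat.div_mul_le_self _ _)
  rw [add_mul, one_mul] at h1
  rw [blockp, blockp, List.drop_append_of_le_length (by omega),
    List.take_append_of_le_length (by simp; omega)]

theorem gv_step (ht : c.Lt = allStr c.t) (hh : 0 < c.h) (h0 : 0 < c.t) (v : Str) :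
    (gv c (v ++ [false]) + gv c (v ++ [true])) / 2 ≤ gv c v := by
  have e1 := Nat.div_add_mod v.length c.t
  have e2 := Nat.mod_lt v.length h0
  set j := v.length / c.t with hj
  set r := v.length % c.t with hr
  rw [mul_comm] at e1
  have p1 : ∀ b, fprod c (blockp c (v ++ [b])) j = fprod c (blockp c v) j := fun b =>
    fprod_congr j fun i hi => blockp_concat v b hi
  have p2 : ∀ b, stt c (blockp c (v ++ [b])) j = stt c (blockp c v) j := fun b =>
    stt_congr c j fun i hi => blockp_concat v b hi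
  have p3 : ∀ b, (v ++ [b]).drop (j * c.t) = v.drop (j * c.t) ++ [b] := fun b =>
    List.drop_append_of_le_length (by omega)
  have key : ∀ b, gv c (v ++ [b]) ≤ fprod c (blockp c v) j *
      avg c (stt c (blockp c v) j) j (v.drop (j * c.t) ++ [b]) (c.t - r - 1) := fun b => by
    rcases Nat.lt_or_ge (r + 1) c.t with h | h
    · have d1 : (v.length + 1) / c.t = j := by
        rw [← e1, add_assoc, add_comm, Nat.add_mul_div_right _ _ h0, Nat.div_eq_of_lt h, zero_add]
      have d2 : (v.length + 1) % c.t = r + 1 := by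
        rw [← e1, add_assoc, add_comm, Nat.add_mul_mod_self_right, Nat.mod_eq_of_lt h]
      simp only [gv, List.length_append, List.length_singleton, d1, d2, p1, p2, p3]
      rw [Nat.sub_sub]
    · have d0 : v.length + 1 = (j + 1) * c.t := by rw [add_mul, one_mul]; omega
      have d1 : (v.length + 1) / c.t = j + 1 := by rw [d0, Nat.mul_div_cancel _ h0]
      have d2 : (v.length + 1) % c.t = 0 := by rw [d0, Nat.mul_mod_left]
      have d3 : (v ++ [b]).drop ((j + 1) * c.t) = [] := List.drop_of_length_le (by simp; omega)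
      have d4 : blockp c (v ++ [b]) j = v.drop (j * c.t) ++ [b] := by
        rw [blockp, p3, List.take_of_length_le (by simp; omega)]
      simp only [gv, List.length_append, List.length_singleton, d1, d2, d3, fprod_succ, p1, p2, d4,
        show c.t - r - 1 = 0 by omega, avg_zero, Nat.sub_zero]
      exact mul_le_of_le_one_right (mul_nonneg (fprod_nonneg _ _)
        (le_trans (by norm_num) (fac_ge _ _ _))) (avg_nil ht hh _ _)
  have k0 := key false
  have k1 := key true
  have k2 : gv c v = fprod c (blockp c v) j *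
      avg c (stt c (blockp c v) j) j (v.drop (j * c.t)) (c.t - r - 1 + 1) := by
    rw [show c.t - r - 1 + 1 = c.t - r by omega]; rfl
  rw [k2, avg_succ]
  linarith

theorem fprod_lower (hh : 0 < c.h) {a : ℕ} (ha : 2 * c.h ≤ 2 ^ a) (pat : ℕ → Str) (j : ℕ) :
    (2 : ℚ) ^ (c.t * j) ≤ fprod c pat j * 2 ^ (a * j + (c.t + 1) * mist c pat j) := by
  induction j with
  | zero => simp [fprod, mist]
  | succ j ih =>
    have h0 := fprod_nonneg (c := c) pat j
    have h1 : (0 : ℚ) < c.h := by exact_mod_cast hh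
    have h2 : (2 : ℚ) * c.h ≤ 2 ^ a := by exact_mod_cast ha
    have key : (2 : ℚ) ^ c.t ≤ fac c (stt c pat j) j (pat j) * 2 ^ (a + (c.t + 1) *
        if (upper c (stt c pat j) j (pat j)).length ≤ c.h then 0 else 1) := by
      unfold fac
      split_ifs
      · calc (2 : ℚ) ^ c.t = 2 ^ c.t / (2 * c.h) * (2 * c.h) := by field_simp
          _ ≤ _ := by
            simp only [mul_zero, add_zero]
            gcongr
            exact le_add_of_nonneg_left (by norm_num)
      · have : (1 : ℚ) ≤ 2 ^ a := one_le_pow₀ (by norm_num)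
        calc (2 : ℚ) ^ c.t = 2 ^ c.t * 1 := by ring
          _ ≤ 2 ^ c.t * 2 ^ a := by gcongr
          _ = _ := by ring
    rw [fprod_succ, mist]
    calc (2 : ℚ) ^ (c.t * (j + 1)) = 2 ^ (c.t * j) * 2 ^ c.t := by ring
      _ ≤ _ := mul_le_mul ih key (by positivity) (by positivity)
      _ = _ := by ring

theorem gv_lower (hh : 0 < c.h) (h0 : 0 < c.t) {a : ℕ} (ha : 2 * c.h ≤ 2 ^ a) (v : Str) :
    (2 : ℚ) ^ v.length ≤ gv c v * 2 ^ (c.t + 1 + a * (v.length / c.t) +
      (c.t + 1) * mist c (blockp c v) (v.length / c.t)) := by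
  have e1 := Nat.div_add_mod v.length c.t
  have e2 := Nat.mod_lt v.length h0
  have h1 := fprod_lower hh ha (blockp c v) (v.length / c.t)
  have h2 := fprod_nonneg (c := c) (blockp c v) (v.length / c.t)
  have h3 : fprod c (blockp c v) (v.length / c.t) * (1 / 2) ≤ gv c v :=
    mul_le_mul_of_nonneg_left (avg_ge _ _ _ _) h2
  calc (2 : ℚ) ^ v.length ≤ 2 ^ (c.t * (v.length / c.t) + c.t) :=
        pow_le_pow_right₀ (by norm_num) (by omega)
    _ = 2 ^ (c.t * (v.length / c.t)) * 2 ^ c.t := by ring
    _ ≤ fprod c (blockp c v) (v.length / c.t) * 2 ^ (a * (v.length / c.t) +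
        (c.t + 1) * mist c (blockp c v) (v.length / c.t)) * 2 ^ c.t := by gcongr
    _ = fprod c (blockp c v) (v.length / c.t) * (1 / 2) * 2 ^ (c.t + 1 + a * (v.length / c.t) +
        (c.t + 1) * mist c (blockp c v) (v.length / c.t)) := by ring
    _ ≤ _ := by gcongr

end Pool.Agent.P.MP_158ebf_lc.SP
end

-- part Pool.Agent.P.MP_158ebf_lc.SPar
section

/-! Parameters of a stage and their asymptotics. -/

namespace Pool.Agent.P.MP_158ebf_lc.SP

open Function Filter N487b59b3 N68a2faeb Pool.Agent.Lib.PolyTime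

/-- Logarithm of the block length. -/
def mu (m n : ℕ) : ℕ := (n.size - 1) / (2 * m + 2)

/-- Block length. -/
def tt (m n : ℕ) : ℕ := 2 ^ mu m n

/-- Queries per input. -/
def qq (m n : ℕ) : ℕ := n / tt m n ^ 4

/-- Number of short strings. -/
def KK (m n : ℕ) : ℕ := 2 ^ tt m n ^ 2 + n + 1

/-- The stage data. -/
def mk (e e' : Code) (m n : ℕ) : Ctx :=
  (e, e', 2 ^ n - 1, qq m n, 2 ^ (4 * n.size + 1), List.replicate (tt m n) true,
    List.replicate (2 ^ n) true, allStr (tt m n * qq m n), allStr (tt m n), shorts (KK m n))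

section
variable (e e' : Code) (m n : ℕ)
@[simp] theorem mk_e : (mk e e' m n).e = e := rfl
@[simp] theorem mk_e' : (mk e e' m n).e' = e' := rfl
@[simp] theorem mk_base : (mk e e' m n).base = 2 ^ n - 1 := rfl
@[simp] theorem mk_q : (mk e e' m n).q = qq m n := rfl
@[simp] theorem mk_h : (mk e e' m n).h = 2 ^ (4 * n.size + 1) := rfl
@[simp] theorem mk_t : (mk e e' m n).t = tt m n := List.length_replicate
@[simp] theorem mk_clk : (mk e e' m n).clk = 2 ^ n := List.length_replicate
@[simp] theorem mk_LQ : (mk e e' m n).LQ = allStr (tt m n * qq m n) := rfl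
@[simp] theorem mk_Lt : (mk e e' m n).Lt = allStr (tt m n) := rfl
@[simp] theorem mk_sh : (mk e e' m n).sh = shorts (KK m n) := rfl
end

theorem tt_pos (m n : ℕ) : 0 < tt m n := Nat.two_pow_pos _

theorem tt_pow_le (m : ℕ) {n : ℕ} (hn : 0 < n) : tt m n ^ (2 * m + 2) ≤ n := by
  have h1 : mu m n * (2 * m + 2) ≤ n.size - 1 := Nat.div_mul_le_self _ _
  have h2 : 0 < n.size := Nat.size_pos.2 hn
  rw [tt, ← pow_mul]
  exact (Nat.pow_le_pow_right (by norm_num) h1).trans (Nat.lt_size.1 (by omega))

theorem tt_sq_le (m n : ℕ) : tt m n ^ 2 ≤ n + 1 := by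
  rcases Nat.eq_zero_or_pos n with rfl | hn
  · simp [tt, mu]
  · exact (Nat.pow_le_pow_right (tt_pos m n) (by omega)).trans
      ((tt_pow_le m hn).trans (Nat.le_succ n))

theorem tt_le (m n : ℕ) : tt m n ≤ n + 1 :=
  (Nat.le_self_pow (by norm_num) _).trans (tt_sq_le m n)

theorem size_le_mu (m n : ℕ) : n.size ≤ (2 * m + 2) * (mu m n + 1) := by
  have := Nat.lt_mul_div_succ (n.size - 1) (show 0 < 2 * m + 2 by omega)
  unfold mu; omega

theorem lt_tt_pow (m n : ℕ) : n < (2 * tt m n) ^ (2 * m + 2) := by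
  rw [tt, ← pow_succ', ← pow_mul, mul_comm]
  exact (Nat.lt_size_self n).trans_le (Nat.pow_le_pow_right (by norm_num) (size_le_mu m n))

theorem tq4_le (m n : ℕ) : tt m n ^ 4 * qq m n ≤ n := Nat.mul_div_le _ _

theorem tq_le (m n : ℕ) : tt m n * qq m n ≤ n :=
  (Nat.mul_le_mul_right _ (Nat.le_self_pow (by norm_num) _)).trans (tq4_le m n)

theorem ev_poly (p : Polynomial ℕ) : ∀ᶠ n : ℕ in atTop, p.eval n ≤ 2 ^ n := by
  obtain ⟨k, hk⟩ := POpt.eval_le_pow p
  have h := (tendsto_pow_const_div_const_pow_of_one_lt k (r := 2) (by norm_num)).eventually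
    (eventually_le_nhds (b := (1 : ℝ) / 2 ^ k) (by positivity))
  filter_upwards [h, eventually_ge_atTop 2] with n h1 h2
  rw [div_le_div_iff₀ (by positivity) (by positivity), one_mul] at h1
  have h3 : n ^ k * 2 ^ k ≤ 2 ^ n := by exact_mod_cast h1
  rw [← mul_pow] at h3
  exact (hk n).trans ((Nat.pow_le_pow_left (by omega) k).trans h3)

theorem ev_tt (m C : ℕ) : ∀ᶠ n : ℕ in atTop, C * (mu m n + 1) ≤ tt m n := by
  obtain ⟨a, ha⟩ := eventually_atTop.1 (ev_poly (Polynomial.C C * (Polynomial.X + 1)))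
  filter_upwards [eventually_ge_atTop (2 ^ (a * (2 * m + 2)))] with n hn
  have h1 := Nat.lt_size.2 hn
  have h2 : a ≤ mu m n := (Nat.le_div_iff_mul_le (by omega)).2 (by omega)
  simpa [tt] using ha _ h2

theorem ev_qq {α : ℝ} {m : ℕ} (hm : max α 0 < 1 - 2 / (m + 1)) (c : ℕ) :
    ∀ᶠ n : ℕ in atTop, (n : ℝ) ^ α + c ≤ qq m n := by
  set β : ℝ := 1 - 2 / (m + 1) with hβ
  have h1 := ((tendsto_rpow_atTop (sub_pos.2 hm)).comp
    tendsto_natCast_atTop_atTop).eventually_ge_atTop (c + 2)
  filter_upwards [h1, eventually_ge_atTop 1] with n h1 hn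
  have n1 : (1 : ℝ) ≤ n := by exact_mod_cast hn
  have n0 : (0 : ℝ) < n := by linarith
  have a1 : (n : ℝ) ^ α ≤ n ^ max α 0 := Real.rpow_le_rpow_of_exponent_le n1 (le_max_left _ _)
  have a2 : (1 : ℝ) ≤ n ^ max α 0 := Real.one_le_rpow n1 (le_max_right _ _)
  have a3 : (n : ℝ) ^ β = n ^ max α 0 * n ^ (β - max α 0) := by
    rw [← Real.rpow_add n0]; ring_nf
  have a4 : (n : ℝ) ^ max α 0 * (c + 2) ≤ n ^ β := by
    rw [a3]; exact mul_le_mul_of_nonneg_left h1 (by linarith)
  have t0 : (0 : ℝ) < tt m n := by exact_mod_cast tt_pos m n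
  have a5 : (tt m n : ℝ) ^ 4 ≤ n ^ (2 / (m + 1) : ℝ) := by
    have b1 : (tt m n : ℝ) ^ (2 * m + 2) ≤ n := by exact_mod_cast tt_pow_le m hn
    have b2 := Real.rpow_le_rpow (by positivity) b1 (show (0 : ℝ) ≤ 2 / (m + 1) by positivity)
    rw [← Real.rpow_natCast, ← Real.rpow_mul t0.le] at b2
    have b3 : ((2 * m + 2 : ℕ) : ℝ) * (2 / (m + 1)) = (4 : ℕ) := by
      push_cast; field_simp; ring
    rwa [b3, Real.rpow_natCast] at b2
  have a6 : (n : ℝ) < (tt m n : ℝ) ^ 4 * (qq m n + 1) := by
    exact_mod_cast Nat.lt_mul_div_succ n (pow_pos (tt_pos m n) 4)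
  have a7 : (n : ℝ) = n ^ (2 / (m + 1) : ℝ) * n ^ β := by
    rw [← Real.rpow_add n0, hβ]; simp
  have a8 : (n : ℝ) ^ β ≤ qq m n + 1 := by
    have b1 : (0 : ℝ) < n ^ (2 / (m + 1) : ℝ) := Real.rpow_pos_of_pos n0 _
    refine le_of_mul_le_mul_left ?_ b1
    rw [← a7]
    exact a6.le.trans (mul_le_mul_of_nonneg_right a5 (by positivity))
  have c0 : (0 : ℝ) ≤ c := Nat.cast_nonneg c
  nlinarith

/-- The mistake bound. -/
def MB (m n : ℕ) : ℕ :=
  (2 ^ (tt m n * qq m n) * 2 ^ tt m n) ^ 2 * (2 * KK m n + 1) ^ (tt m n * qq m n)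

/-- The loss in bits on the strings of length `n`. -/
def loss (m n : ℕ) : ℕ :=
  tt m n + 1 + (4 * n.size + 2) * (2 ^ n / tt m n) + (tt m n + 1) * MB m n

theorem ev_MB (m : ℕ) : ∀ᶠ n : ℕ in atTop, MB m n ^ 2 ≤ 2 ^ n := by
  filter_upwards [ev_tt m (2 * m + 2), ev_tt m 8, eventually_gt_atTop 0] with n h1 h2 hn
  have h3 := size_le_mu m n
  have h4 := tq4_le m n
  have h5 : tt m n ^ 2 ≤ n :=
    (Nat.pow_le_pow_right (tt_pos m n) (by omega)).trans (tt_pow_le m hn)
  unfold MB KK
  generalize tt m n = t at *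
  generalize qq m n = q at *
  have t8 : 8 ≤ t := by omega
  have a1 : n < 2 ^ t ^ 2 := (Nat.lt_size_self n).trans_le
    (Nat.pow_le_pow_right (by norm_num) (by nlinarith))
  have a2 : 2 * (2 ^ t ^ 2 + n + 1) + 1 ≤ 2 ^ (t ^ 2 + 3) := by rw [pow_add]; omega
  have a3 : 4 * (t ^ 2 + 5) ≤ t ^ 3 := by nlinarith
  have a4 : 4 * ((t ^ 2 + 5) * (t * q)) ≤ n := by
    calc 4 * ((t ^ 2 + 5) * (t * q)) = 4 * (t ^ 2 + 5) * (t * q) := by ring
      _ ≤ t ^ 3 * (t * q) := Nat.mul_le_mul_right _ a3
      _ = t ^ 4 * q := by ring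
      _ ≤ n := h4
  calc ((2 ^ (t * q) * 2 ^ t) ^ 2 * (2 * (2 ^ t ^ 2 + n + 1) + 1) ^ (t * q)) ^ 2
      ≤ ((2 ^ (t * q) * 2 ^ t) ^ 2 * (2 ^ (t ^ 2 + 3)) ^ (t * q)) ^ 2 := by gcongr
    _ = 2 ^ (2 * ((t ^ 2 + 5) * (t * q)) + 4 * t) := by
        rw [← pow_add, ← pow_mul, ← pow_mul, ← pow_add, ← pow_mul]; congr 1; ring
    _ ≤ 2 ^ n := Nat.pow_le_pow_right (by norm_num) (by nlinarith)

theorem ev_loss (m C : ℕ) : ∀ᶠ n : ℕ in atTop, C * loss m n ≤ 2 ^ n := by
  filter_upwards [ev_MB m, ev_tt m (3 * C * (4 * (2 * m + 2) + 2)),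
    ev_poly ((Polynomial.C (3 * C) * (Polynomial.X + 2)) ^ 2)] with n h1 h2 h3
  simp only [Polynomial.eval_pow, Polynomial.eval_mul, Polynomial.eval_C, Polynomial.eval_add,
    Polynomial.eval_X, Polynomial.eval_ofNat] at h3
  have h4 := size_le_mu m n
  have h5 := tt_le m n
  have a1 : 3 * C * (tt m n + 1) ≤ 3 * C * (n + 2) := Nat.mul_le_mul_left _ (by omega)
  have a2 : 3 * C * (tt m n + 1) ≤ 2 ^ n :=
    a1.trans ((Nat.le_self_pow (by norm_num) _).trans h3)
  have a3 : 3 * C * (n + 2) * MB m n ≤ 2 ^ n := by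
    refine (Nat.pow_le_pow_iff_left (n := 2) (by norm_num)).1 ?_
    rw [mul_pow, pow_two (2 ^ n)]
    exact Nat.mul_le_mul h3 h1
  have a4 : 3 * C * (4 * n.size + 2) ≤ tt m n := by
    refine le_trans ?_ h2
    rw [mul_assoc (3 * C)]
    exact Nat.mul_le_mul_left _ (by nlinarith)
  have a5 : 3 * C * (4 * n.size + 2) * (2 ^ n / tt m n) ≤ 2 ^ n :=
    (Nat.mul_le_mul_right _ a4).trans (Nat.mul_div_le _ _)
  have a6 := Nat.mul_le_mul_right (MB m n) a1
  unfold loss
  nlinarith

end Pool.Agent.P.MP_158ebf_lc.SP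
end

-- part Pool.Agent.P.MP_158ebf_lc.SB
section

/-! The density system on the oracle side. -/

namespace Pool.Agent.P.MP_158ebf_lc.SP

open Function Filter N487b59b3 N68a2faeb Pool.Agent.Lib.PolyTime

/-- The true pattern of `R` on block `j`. -/
def patR (R : Str → Bool) (c : Ctx) (j : ℕ) : Str :=
  (List.range c.t).map fun a => R (stdString (c.base + j * c.t + a))

/-- The blocks whose true pattern is unlikely given `ρ`. -/
def rare (R : Str → Bool) (c : Ctx) (J : ℕ) (θ : ℚ) (ρ : List (Str × Bool)) : List ℕ :=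
  (List.range J).filter fun j => decide (pr c j ρ (patR R c j) ≤ θ)

/-- Bet on the first unlikely block. -/
def bet (R : Str → Bool) (c : Ctx) (J K : ℕ) (θ : ℚ) (w : Str) : ℚ :=
  (((rare R c J θ (known (w.take K))).take 1).map fun j => pr c j (known w) (patR R c j)).sum

/-- The strategy of stage `(i, n)`. -/
def termB (R : Str → Bool) (m i n : ℕ) (w : Str) : ℚ :=
  if KK m n ≤ w.length then bet R (mk (decCode (blk i 0)) (decCode (blk i 1)) m n)
    (2 ^ n / tt m n) (KK m n) ((1 / 2) ^ (4 * n.size)) w else (1 / 2) ^ (4 * n.size)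

/-- All strategies at length `n`. -/
def rowB (R : Str → Bool) (m k n : ℕ) (w : Str) : ℚ :=
  if k ≤ n.size then ((List.range n).map fun i => termB R m i n w).sum else 0

/-- The density system. -/
def DB (R : Str → Bool) (m k : ℕ) (w : Str) : ℚ :=
  ((List.range w.length).map fun n => rowB R m k n w).sum + (1 / 2) ^ k / (w.length + 1)

variable {c : Ctx} {Q : ℕ} {R : Str → Bool}

theorem pr_V (hQ : c.LQ = allStr Q) (j : ℕ) (ρ : List (Str × Bool)) (π : Str) :
    pr c j ρ π = V Q (jq c j) (fun _ β => if jo c j β = π then 1 else 0) (look ρ) := by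
  rw [V_closed, pr, hQ]

theorem pr_nonneg (j : ℕ) (ρ : List (Str × Bool)) (π : Str) : 0 ≤ pr c j ρ π :=
  List.sum_nonneg fun v hv => by
    obtain ⟨β, -, rfl⟩ := List.mem_map.1 hv
    exact mul_nonneg (wt_unit β _ _).1 (by split_ifs <;> norm_num)

theorem pr_step (hQ : c.LQ = allStr Q) (j : ℕ) (π w : Str) :
    (pr c j (known (w ++ [false])) π + pr c j (known (w ++ [true])) π) / 2 =
      pr c j (known w) π := by
  simp only [pr_V hQ]
  rw [aff_V Q (jq c j) (fun _ β => if jo c j β = π then 1 else 0)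
    (fun β => (affOn_const ∅ (if jo c j β = π then 1 else 0)).1) (look (known w))
    (stdString w.length),
    look_of_not_mem (known_fresh w), look_known_concat, look_known_concat]
  simp only [bv, cond_true, cond_false]
  ring

theorem sum_step {ι : Type} (L : List ι) (f : ι → Str → ℚ) (w : Str)
    (h : ∀ i, (f i (w ++ [false]) + f i (w ++ [true])) / 2 ≤ f i w) :
    ((L.map fun i => f i (w ++ [false])).sum + (L.map fun i => f i (w ++ [true])).sum) / 2 ≤
      (L.map fun i => f i w).sum := by
  induction L with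
  | nil => simp
  | cons i L ih =>
    simp only [List.map_cons, List.sum_cons]
    linarith [h i]

theorem bet_nonneg (J K : ℕ) (θ : ℚ) (w : Str) : 0 ≤ bet R c J K θ w :=
  List.sum_nonneg fun v hv => by
    obtain ⟨β, -, rfl⟩ := List.mem_map.1 hv
    exact pr_nonneg _ _ _

theorem bet_le {J K : ℕ} {θ : ℚ} (hθ : 0 ≤ θ) {w : Str} (h : w.length ≤ K) :
    bet R c J K θ w ≤ θ := by
  rw [bet, List.take_of_length_le h]
  rcases e : rare R c J θ (known w) with _ | ⟨j, l⟩
  · simpa using hθ
  · have : j ∈ rare R c J θ (known w) := by rw [e]; simp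
    simpa using (List.mem_filter.1 this).2

theorem bet_step (hQ : c.LQ = allStr Q) {J K : ℕ} (θ : ℚ) {w : Str} (h : K ≤ w.length) :
    (bet R c J K θ (w ++ [false]) + bet R c J K θ (w ++ [true])) / 2 ≤ bet R c J K θ w := by
  simp only [bet, List.take_append_of_le_length h]
  exact sum_step _ (fun j w => pr c j (known w) (patR R c j)) w fun j => (pr_step hQ j _ w).le

theorem termB_nonneg (m i n : ℕ) (w : Str) : 0 ≤ termB R m i n w := by
  unfold termB
  split_ifs
  · exact bet_nonneg _ _ _ _
  · positivity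

theorem termB_le {m i n : ℕ} {w : Str} (h : w.length ≤ KK m n) :
    termB R m i n w ≤ (1 / 2) ^ (4 * n.size) := by
  unfold termB
  split_ifs
  · exact bet_le (by positivity) h
  · rfl

theorem termB_step (m i n : ℕ) (w : Str) :
    (termB R m i n (w ++ [false]) + termB R m i n (w ++ [true])) / 2 ≤ termB R m i n w := by
  by_cases h : KK m n ≤ w.length
  · have h' : ∀ b, KK m n ≤ (w ++ [b]).length := fun b => by simp; omega
    simp only [termB, if_pos h, if_pos (h' _)]
    exact bet_step (mk_LQ _ _ _ _) _ h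
  · have h1 := termB_le (R := R) (m := m) (i := i) (n := n) (w := w ++ [false]) (by simp; omega)
    have h2 := termB_le (R := R) (m := m) (i := i) (n := n) (w := w ++ [true]) (by simp; omega)
    have h3 : termB R m i n w = (1 / 2) ^ (4 * n.size) := by simp only [termB, if_neg h]
    linarith

theorem rowB_nonneg (m k n : ℕ) (w : Str) : 0 ≤ rowB R m k n w := by
  unfold rowB
  split_ifs
  · exact List.sum_nonneg fun v hv => by
      obtain ⟨i, -, rfl⟩ := List.mem_map.1 hv
      exact termB_nonneg _ _ _ _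
  · rfl

theorem rowB_step (m k n : ℕ) (w : Str) :
    (rowB R m k n (w ++ [false]) + rowB R m k n (w ++ [true])) / 2 ≤ rowB R m k n w := by
  unfold rowB
  split_ifs
  · exact sum_step _ (fun i w => termB R m i n w) w fun i => termB_step m i n w
  · simp

theorem rowB_le {m k n : ℕ} {w : Str} (h : w.length ≤ KK m n) :
    rowB R m k n w ≤ (1 / 2) ^ k / (n + 1) - (1 / 2) ^ k / (n + 1 + 1) := by
  have e : ((1 : ℚ) / 2) ^ k / (n + 1) - (1 / 2) ^ k / (n + 1 + 1) =
      (1 / 2) ^ k * (1 / ((n + 1) * (n + 2))) := by field_simp; ring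
  rw [e, rowB]
  split_ifs with hk
  · have h1 := List.sum_le_card_nsmul ((List.range n).map fun i => termB R m i n w)
      ((1 / 2) ^ (4 * n.size)) fun v hv => by
      obtain ⟨i, -, rfl⟩ := List.mem_map.1 hv
      exact termB_le h
    simp only [List.length_map, List.length_range, nsmul_eq_mul] at h1
    refine h1.trans ?_
    have h2 : (n : ℚ) + 1 ≤ 2 ^ n.size := by exact_mod_cast Nat.lt_size_self n
    have h3 : ((1 : ℚ) / 2) ^ n.size ≤ (1 / 2) ^ k :=
      pow_le_pow_of_le_one (by norm_num) (by norm_num) hk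
    have h4 : ((1 : ℚ) / 2) ^ n.size ≤ 1 / (n + 1) := by
      rw [one_div_pow]; exact one_div_le_one_div_of_le (by positivity) h2
    have h5 : (n : ℚ) * (1 / (n + 1)) ^ 3 ≤ 1 / ((n + 1) * (n + 2)) := by
      rw [one_div_pow, mul_one_div, div_le_div_iff₀ (by positivity) (by positivity)]
      have : (0 : ℚ) ≤ n := Nat.cast_nonneg n
      nlinarith
    calc (n : ℚ) * (1 / 2) ^ (4 * n.size) =
          (1 / 2) ^ n.size * (n * ((1 / 2) ^ n.size) ^ 3) := by ring
      _ ≤ (1 / 2) ^ k * (n * (1 / (n + 1)) ^ 3) := by gcongr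
      _ ≤ _ := by gcongr
  · positivity

theorem DB_nonneg (m k : ℕ) (w : Str) : 0 ≤ DB R m k w :=
  add_nonneg (List.sum_nonneg fun v hv => by
    obtain ⟨i, -, rfl⟩ := List.mem_map.1 hv
    exact rowB_nonneg _ _ _ _) (by positivity)

theorem DB_step (m k : ℕ) (w : Str) :
    (DB R m k (w ++ [false]) + DB R m k (w ++ [true])) / 2 ≤ DB R m k w := by
  have h1 : ∀ b, _ := fun b => rowB_le (R := R) (m := m) (k := k) (n := w.length) (w := w ++ [b])
    (by simp [KK])
  have h3 := sum_step (List.range w.length) (fun n w => rowB R m k n w) w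
    fun n => rowB_step m k n w
  have h4 := h1 false
  have h5 := h1 true
  simp only [DB, List.length_append, List.length_singleton, List.range_succ, List.map_append,
    List.sum_append, List.map_cons, List.map_nil, List.sum_cons, List.sum_nil]
  push_cast
  linarith

theorem termB_le_DB {m k i n : ℕ} {w : Str} (hi : i < n) (hn : n < w.length) (hk : k ≤ n.size) :
    termB R m i n w ≤ DB R m k w := by
  have h1 := List.single_le_sum (l := (List.range w.length).map fun n => rowB R m k n w)
    (fun v hv => by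
      obtain ⟨i, -, rfl⟩ := List.mem_map.1 hv
      exact rowB_nonneg _ _ _ _) _ (List.mem_map_of_mem (List.mem_range.2 hn))
  have h2 := List.single_le_sum (l := (List.range n).map fun i => termB R m i n w)
    (fun v hv => by
      obtain ⟨i, -, rfl⟩ := List.mem_map.1 hv
      exact termB_nonneg _ _ _ _) _ (List.mem_map_of_mem (List.mem_range.2 hi))
  rw [rowB, if_pos hk] at h1
  have h3 : (0 : ℚ) ≤ (1 / 2) ^ k / (w.length + 1) := by positivity
  unfold DB
  linarith

/-! ### Correct codes -/

theorem length_std {n r : ℕ} (hr : r < 2 ^ n) : (stdString (2 ^ n - 1 + r)).length = n := by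
  have h := congrArg List.length (bits_succ (2 ^ n - 1 + r))
  rw [Nat.size_eq_bits_len] at h
  simp only [List.length_append, List.length_reverse, List.length_singleton] at h
  have h0 := Nat.two_pow_pos n
  have h1 : n < (2 ^ n - 1 + r + 1).size := Nat.lt_size.2 (by omega)
  have h2 : (2 ^ n - 1 + r + 1).size ≤ n + 1 := Nat.size_le.2 (by rw [pow_succ]; omega)
  omega

theorem length_oracleAns (B : Str → Bool) (query : Str × Str → Str) (x : Str) (j : ℕ) :
    (oracleAns B query x j).length = j := by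
  induction j with
  | zero => rfl
  | succ j ih => simp [oracleAns, ih]

/-- The clocked universal machine computes `f` on all relevant inputs. -/
def Runs2 {β : Type} [N487b59b3 β] (e : Code) (f : Str × Str → β) (n : ℕ) : Prop :=
  ∀ x a : Str, x.length = n → a.length ≤ n →
    urun e (bitEncode (x, a)) (2 ^ n) = bitEncode (f (x, a))

theorem runs_of_poly {β : Type} [N487b59b3 β] {f : Str × Str → β} (hf : IsPolyTime f) :
    ∃ e : Code, ∀ᶠ n in atTop, Runs2 e f n := by
  obtain ⟨e, p, he⟩ := exists_code hf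
  refine ⟨e, ?_⟩
  filter_upwards [ev_poly (p.comp (Polynomial.C 9 * Polynomial.X + 1))] with n hn x a hx ha
  refine he _ _ (le_trans (eval_mono p ?_) (by simpa using hn))
  simp [sz_str]; omega

variable {e e' : Code} {m n : ℕ} {B : Str → Bool} {query : Str × Str → Str}
  {out : Str × Str → Bool}

theorem idx_lt {j a : ℕ} (hj : j < 2 ^ n / tt m n) (ha : a < tt m n) : j * tt m n + a < 2 ^ n := by
  have := (Nat.mul_le_mul_right (tt m n) hj).trans (Nat.div_mul_le_self _ _)
  rw [Nat.succ_mul] at this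
  omega

theorem qq_le (m n : ℕ) : qq m n ≤ n := Nat.div_le_self _ _

theorem drop_path2 (hq : Runs2 e query n) {j a : ℕ} (hj : j < 2 ^ n / tt m n) (ha : a < tt m n)
    (i : ℕ) (hi : i ≤ qq m n) :
    (path B (jq (mk e e' m n) j) (a * qq m n + i)).drop (a * qq m n) =
      oracleAns B query (stdString (2 ^ n - 1 + (j * tt m n + a))) i := by
  induction i with
  | zero => exact List.drop_of_length_le (length_path _ _ _).le
  | succ i ih =>
    have ih := ih (by omega)
    have hd : (a * qq m n + i) / qq m n = a := by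
      rw [Nat.add_comm, Nat.add_mul_div_right _ _ (by omega), Nat.div_eq_of_lt (by omega)]; simp
    have := qq_le m n
    rw [← Nat.add_assoc, path, List.drop_append_of_le_length (by rw [length_path]; omega), ih,
      oracleAns, jq, length_path, mk_q, hd, ih, mk_e, mk_base, mk_t, mk_clk, Nat.add_assoc,
      hq _ _ (length_std (idx_lt hj ha)) (by rw [length_oracleAns]; omega), decStr_enc]

theorem jo_path (hq : Runs2 e query n) (ho : Runs2 e' out n)
    (hred : ∀ x : Str, x.length = n → R x = out (x, oracleAns B query x (qq m n)))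
    {j : ℕ} (hj : j < 2 ^ n / tt m n) :
    jo (mk e e' m n) j (path B (jq (mk e e' m n) j) (tt m n * qq m n)) =
      patR R (mk e e' m n) j := by
  unfold jo patR
  refine List.map_congr_left fun a ha => ?_
  rw [mk_t, List.mem_range] at ha
  have hx := length_std (idx_lt hj ha)
  rw [mk_e', mk_base, mk_t, mk_q, mk_clk, Nat.add_assoc, List.take_drop,
    take_path _ _ (show a * qq m n + qq m n ≤ tt m n * qq m n by nlinarith),
    drop_path2 hq hj ha _ le_rfl,
    ho _ _ hx (by rw [length_oracleAns]; exact qq_le m n), enc_bool, hred _ hx]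
  rfl

theorem take_chi (B : Str → Bool) {K N : ℕ} (h : K ≤ N) : (chi B N).take K = chi B K := by
  simp [chi, ← List.map_take, List.take_range, min_eq_left h]

/-- If the oracle is not covered, every block has a likely true pattern. -/
theorem likely {k i : ℕ} (h0 : decCode (blk i 0) = e) (h1 : decCode (blk i 1) = e')
    (hq : Runs2 e query n) (ho : Runs2 e' out n)
    (hred : ∀ x : Str, x.length = n → R x = out (x, oracleAns B query x (qq m n)))
    (hi : i < n) (hk : k ≤ n.size) (hB : ∀ N, DB R m k (chi B N) < 1)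
    {j : ℕ} (hj : j < 2 ^ n / tt m n) :
    (1 / 2) ^ (4 * n.size) <
      pr (mk e e' m n) j (known (chi B (KK m n))) (patR R (mk e e' m n) j) := by
  by_contra hc
  have hm : j ∈ rare R (mk e e' m n) (2 ^ n / tt m n) ((1 / 2) ^ (4 * n.size))
      (known (chi B (KK m n))) :=
    List.mem_filter.2 ⟨List.mem_range.2 hj, by simpa using not_lt.1 hc⟩
  rcases e0 : rare R (mk e e' m n) (2 ^ n / tt m n) ((1 / 2) ^ (4 * n.size))
      (known (chi B (KK m n))) with _ | ⟨j', l⟩
  · rw [e0] at hm; simp at hm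
  have hj' : j' < 2 ^ n / tt m n := by
    have : j' ∈ rare R (mk e e' m n) (2 ^ n / tt m n) ((1 / 2) ^ (4 * n.size))
      (known (chi B (KK m n))) := by rw [e0]; simp
    exact List.mem_range.1 (List.mem_filter.1 this).1
  obtain ⟨N, a1, a2⟩ := ((eventually_known_list B ((List.range (tt m n * qq m n)).map
    fun i => jq (mk e e' m n) j' (path B (jq (mk e e' m n) j') i))).and
    (eventually_ge_atTop (KK m n))).exists
  have a3 := termB_le_DB (R := R) (m := m) (w := chi B N) hi
    (by rw [length_chi]; exact lt_of_lt_of_le (Nat.lt_succ_of_le (Nat.le_add_left _ _)) a2) hk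
  rw [termB, if_pos (by rwa [length_chi]), h0, h1, bet, take_chi B a2, e0] at a3
  simp only [List.take_succ_cons, List.take_zero, List.map_cons, List.map_nil, List.sum_cons,
    List.sum_nil, add_zero] at a3
  rw [pr_V (mk_LQ _ _ _ _), V_known B _ _ _ _ fun i hi => a1 _
    (List.mem_map.2 ⟨i, List.mem_range.2 hi, rfl⟩), if_pos (jo_path hq ho hred hj')] at a3
  exact absurd (hB N) (not_lt.2 a3)

end Pool.Agent.P.MP_158ebf_lc.SP
end

-- part Pool.Agent.P.MP_158ebf_lc.SR
section

/-! The density function on the side of the reduced language. -/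

namespace Pool.Agent.P.MP_158ebf_lc.SP

open Function Filter N487b59b3 N68a2faeb Pool.Agent.Lib.PolyTime

/-- The bits of `w` on the strings of length `n`. -/
def seg (w : Str) (n : ℕ) : Str := (w.drop (2 ^ n - 1)).take (2 ^ n)

/-- The factor of strategy `j` at length `n`. -/
def GG (j n : ℕ) (w : Str) : ℚ :=
  if j < n then gv (mk (decCode (blk j 0)) (decCode (blk j 1)) (blk j 2).length n) (seg w n) else 1

/-- Product of the factors at the lengths below `L`. -/
def PP (j L : ℕ) (w : Str) : ℚ := ((List.range L).map fun n => GG j n w).prod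

/-- The density function. -/
def DR (w : Str) : ℚ :=
  ((List.range w.length).map fun j => (1 / 2) ^ (j + 1) * PP j (w.length + 1).size w).sum +
    (1 / 2) ^ w.length

theorem GG_nonneg (j n : ℕ) (w : Str) : 0 ≤ GG j n w := by
  unfold GG
  split_ifs
  · exact gv_nonneg _
  · norm_num

theorem GG_le {j n : ℕ} {w : Str} (h : j < n → w.length + 1 ≤ 2 ^ n) : GG j n w ≤ 1 := by
  unfold GG
  split_ifs with hj
  · rw [seg, List.drop_of_length_le (by have := h hj; omega), List.take_nil]
    exact gv_nil (by simp) (by simp)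
  · rfl

theorem PP_succ (j L : ℕ) (w : Str) : PP j (L + 1) w = PP j L w * GG j L w := by
  simp [PP, List.range_succ]

theorem PP_nonneg (j L : ℕ) (w : Str) : 0 ≤ PP j L w :=
  List.prod_nonneg fun v hv => by
    obtain ⟨x, -, rfl⟩ := List.mem_map.1 hv
    exact GG_nonneg _ _ _

theorem PP_anti {j L L' : ℕ} {w : Str} (h : L ≤ L') (hG : ∀ n ≥ L, GG j n w ≤ 1) :
    PP j L' w ≤ PP j L w := by
  induction L', h using Nat.le_induction with
  | base => rfl
  | succ L' h ih =>
    rw [PP_succ]
    exact (mul_le_of_le_one_right (PP_nonneg _ _ _) (hG _ h)).trans ih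

theorem PP_le_one {j L : ℕ} {w : Str} (h : w.length ≤ j + 1) : PP j L w ≤ 1 :=
  (PP_anti (Nat.zero_le L) fun n _ => GG_le fun hj => by
    have := @Nat.lt_two_pow_self n; omega).trans (by simp [PP])

theorem PP_step (j : ℕ) (w : Str) :
    (PP j ((w ++ [false]).length + 1).size (w ++ [false]) +
      PP j ((w ++ [true]).length + 1).size (w ++ [true])) / 2 ≤ PP j (w.length + 1).size w := by
  obtain ⟨n, hn⟩ : ∃ n, (w.length + 1).size = n + 1 :=
    ⟨(w.length + 1).size - 1, by have : 0 < (w.length + 1).size := Nat.size_pos.2 (by omega); omega⟩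
  have h1 : 2 ^ n ≤ w.length + 1 := Nat.lt_size.1 (by omega)
  have h2 : w.length + 1 < 2 ^ (n + 1) := Nat.size_le.1 hn.le
  have h2' := h2
  rw [pow_succ] at h2'
  have a1 : ∀ b, PP j ((w ++ [b]).length + 1).size (w ++ [b]) ≤ PP j (n + 1) (w ++ [b]) :=
    fun b => PP_anti (hn ▸ Nat.size_le_size (by simp)) fun n' hn' => GG_le fun _ => by
      have := Nat.pow_le_pow_right (show 0 < 2 by norm_num) hn'
      simp; omega
  have a2 : ∀ b, PP j n (w ++ [b]) = PP j n w := fun b => by
    unfold PP
    refine congrArg _ (List.map_congr_left fun i hi => ?_)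
    have := Nat.pow_le_pow_right (show 0 < 2 by norm_num) (List.mem_range.1 hi)
    rw [Nat.succ_eq_add_one, pow_succ] at this
    have h0 := Nat.two_pow_pos i
    rw [GG, GG, seg, seg, List.drop_append_of_le_length (by omega),
      List.take_append_of_le_length (by simp; omega)]
  have a3 : ∀ b, seg (w ++ [b]) n = seg w n ++ [b] := fun b => by
    rw [seg, seg, List.drop_append_of_le_length (by omega),
      List.take_of_length_le (by simp; omega), List.take_of_length_le (by simp; omega)]
  have a4 : (GG j n (w ++ [false]) + GG j n (w ++ [true])) / 2 ≤ GG j n w := by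
    unfold GG
    split_ifs
    · rw [a3, a3]
      exact gv_step (by simp) (by simp) (by simpa using tt_pos _ _) _
    · norm_num
  have b0 := a1 false
  have b1 := a1 true
  have a5 := mul_le_mul_of_nonneg_left a4 (PP_nonneg j n w)
  rw [PP_succ, a2] at b0 b1
  rw [hn, PP_succ]
  linarith

theorem DR_nonneg (w : Str) : 0 ≤ DR w :=
  add_nonneg (List.sum_nonneg fun v hv => by
    obtain ⟨i, -, rfl⟩ := List.mem_map.1 hv
    exact mul_nonneg (by positivity) (PP_nonneg _ _ _)) (by positivity)

theorem DR_step (w : Str) : (DR (w ++ [false]) + DR (w ++ [true])) / 2 ≤ DR w := by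
  have h3 := sum_step (List.range w.length)
    (fun j w => (1 / 2) ^ (j + 1) * PP j (w.length + 1).size w) w fun j => by
      have := mul_le_mul_of_nonneg_left (PP_step j w)
        (show (0 : ℚ) ≤ (1 / 2) ^ (j + 1) by positivity)
      linarith
  have h1 : ∀ b, (1 / 2 : ℚ) ^ (w.length + 1) *
      PP w.length ((w ++ [b]).length + 1).size (w ++ [b]) ≤ (1 / 2) ^ (w.length + 1) :=
    fun b => mul_le_of_le_one_right (by positivity) (PP_le_one (by simp))
  have h4 := h1 false
  have h5 := h1 true
  simp only [DR, List.length_append, List.length_singleton, List.range_succ, List.map_append,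
    List.sum_append, List.map_cons, List.map_nil, List.sum_cons, List.sum_nil,
    pow_succ] at h3 h4 h5 ⊢
  linarith

theorem PP_le_DR {j : ℕ} {w : Str} (h : j < w.length) :
    (1 / 2) ^ (j + 1) * PP j (w.length + 1).size w ≤ DR w := by
  have := List.single_le_sum
    (l := (List.range w.length).map fun j => (1 / 2 : ℚ) ^ (j + 1) * PP j (w.length + 1).size w)
    (fun v hv => by
      obtain ⟨i, -, rfl⟩ := List.mem_map.1 hv
      exact mul_nonneg (by positivity) (PP_nonneg _ _ _)) _
    (List.mem_map_of_mem (List.mem_range.2 h))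
  have h2 : (0 : ℚ) ≤ (1 / 2) ^ w.length := by positivity
  unfold DR
  linarith

variable {R B : Str → Bool} {e e' : Code} {m n : ℕ}

theorem length_seg (N : ℕ) : (seg (chi R N) n).length = min (2 ^ n) (N - (2 ^ n - 1)) := by
  simp [seg, length_chi]

theorem blockp_seg {N i : ℕ} (hi : i < (seg (chi R N) n).length / tt m n) :
    blockp (mk e e' m n) (seg (chi R N) n) i = patR R (mk e e' m n) i := by
  have h1 := (Nat.mul_le_mul_right (tt m n) hi).trans (Nat.div_mul_le_self _ _)
  rw [Nat.succ_mul] at h1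
  refine List.ext_getElem (by simp [blockp, patR]; omega) fun a h2 h3 => ?_
  simp [blockp, patR, seg, chi, Nat.add_assoc]

theorem stage_lower (hp : ∀ j < 2 ^ n / tt m n, (1 / 2) ^ (4 * n.size) <
      pr (mk e e' m n) j (known (chi B (KK m n))) (patR R (mk e e' m n) j)) (N : ℕ) :
    (2 : ℚ) ^ (seg (chi R N) n).length ≤
      gv (mk e e' m n) (seg (chi R N) n) * 2 ^ loss m n := by
  have h1 : (seg (chi R N) n).length / tt m n ≤ 2 ^ n / tt m n :=
    Nat.div_le_div_right (by rw [length_seg]; exact min_le_left _ _)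
  have h2 := mist_le (c := mk e e' m n) (mk_LQ _ _ _ _) (by simp) (B := B) (mk_sh _ _ _ _)
    (blockp (mk e e' m n) (seg (chi R N) n)) ((seg (chi R N) n).length / tt m n) fun i hi => by
      rw [blockp_seg hi, mk_h]
      have := hp i (by omega)
      calc (2 : ℚ) = ((2 ^ (4 * n.size + 1) : ℕ) : ℚ) * (1 / 2) ^ (4 * n.size) := by
            push_cast; rw [one_div_pow]; field_simp; ring
        _ ≤ _ := by gcongr
  have h3 := gv_lower (c := mk e e' m n) (by simp) (by simpa using tt_pos _ _)
    (a := 4 * n.size + 2) (by simp [pow_succ, mul_comm]) (seg (chi R N) n)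
  refine h3.trans (mul_le_mul_of_nonneg_left (pow_le_pow_right₀ (by norm_num) ?_) (gv_nonneg _))
  simp only [mk_t] at h2 ⊢
  unfold loss MB
  gcongr

theorem PP_lower {j : ℕ} (N : ℕ) (f : ℕ → ℕ)
    (h : ∀ n, (2 : ℚ) ^ (seg (chi R N) n).length ≤ GG j n (chi R N) * 2 ^ f n) (L : ℕ) :
    (2 : ℚ) ^ min N (2 ^ L - 1) ≤ PP j L (chi R N) * 2 ^ ∑ n ∈ Finset.range L, f n := by
  induction L with
  | zero => simp [PP]
  | succ L ih =>
    have h0 := Nat.two_pow_pos L
    have e : min N (2 ^ (L + 1) - 1) = min N (2 ^ L - 1) + (seg (chi R N) L).length := by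
      rw [length_seg, pow_succ]; omega
    rw [e, pow_add, PP_succ, Finset.sum_range_succ, pow_add]
    calc _ ≤ _ := mul_le_mul ih (h L) (by positivity)
          (mul_nonneg (PP_nonneg _ _ _) (by positivity))
      _ = _ := by ring

theorem sum_loss {f : ℕ → ℕ} {C : ℕ} (h : ∀ᶠ n in atTop, C * f n ≤ 2 ^ n) :
    ∃ A, ∀ L, C * ∑ n ∈ Finset.range L, f n ≤ C * A + 2 ^ L := by
  obtain ⟨a, ha⟩ := eventually_atTop.1 h
  refine ⟨∑ n ∈ Finset.range a, f n, fun L => ?_⟩
  induction L with
  | zero => simp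
  | succ L ih =>
    rcases Nat.lt_or_ge L a with h | h
    · exact (Nat.mul_le_mul_left _ (Finset.sum_le_sum_of_subset
        (Finset.range_subset_range.2 h))).trans (Nat.le_add_right _ _)
    · have := ha L h
      rw [Finset.sum_range_succ, mul_add, pow_succ]
      omega

theorem DR_lower {j : ℕ} (h : ∀ n > j, ∀ N, (2 : ℚ) ^ (seg (chi R N) n).length ≤
      GG j n (chi R N) * 2 ^ loss m n) {s : ℝ} (hs : 0 < s) :
    ∃ N₀ : ℕ, ∀ N ≥ N₀, (2 : ℝ) ^ ((1 - s) * N) ≤ DR (chi R N) := by
  obtain ⟨C, hC⟩ := exists_nat_ge (4 / s)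
  rw [div_le_iff₀ hs] at hC
  have C0 : (0 : ℝ) < C := by
    by_contra h0
    nlinarith [Nat.cast_nonneg (α := ℝ) C]
  obtain ⟨A, hA⟩ := sum_loss (f := fun n => if j < n then loss m n else 2 ^ n) (C := C) (by
    filter_upwards [ev_loss m C, eventually_gt_atTop j] with n h1 h2
    rwa [if_pos h2])
  obtain ⟨N₀, hN₀⟩ := exists_nat_ge (2 * (A + j + 1) / s + 1)
  refine ⟨N₀ + j + 1, fun N hN => ?_⟩
  have h1 := PP_lower (R := R) (j := j) N (fun n => if j < n then loss m n else 2 ^ n)
    (fun n => by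
      split_ifs with hj
      · exact h n hj N
      · rw [GG, if_neg hj, one_mul, length_seg]
        exact pow_le_pow_right₀ (by norm_num) (min_le_left _ _)) (N + 1).size
  have h2 := hA (N + 1).size
  have h3 := PP_le_DR (j := j) (w := chi R N) (by rw [length_chi]; omega)
  rw [length_chi] at h3
  have h4 := Nat.lt_size_self (N + 1)
  have h5 : 2 ^ (N + 1).size ≤ 2 * (N + 1) := by
    obtain ⟨n, hn⟩ : ∃ n, (N + 1).size = n + 1 :=
      ⟨(N + 1).size - 1, by have : 0 < (N + 1).size := Nat.size_pos.2 (by omega); omega⟩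
    have : 2 ^ n ≤ N + 1 := Nat.lt_size.1 (by omega)
    rw [hn, pow_succ]; omega
  rw [min_eq_left (by omega)] at h1
  generalize (∑ n ∈ Finset.range (N + 1).size, if j < n then loss m n else 2 ^ n) = S at h1 h2
  have h6 : (2 : ℚ) ^ N ≤ DR (chi R N) * 2 ^ (S + j + 1) := by
    calc (2 : ℚ) ^ N ≤ _ := h1
      _ = (1 / 2) ^ (j + 1) * PP j (N + 1).size (chi R N) * 2 ^ (S + j + 1) := by
          rw [one_div_pow]; field_simp; ring
      _ ≤ _ := by gcongr
  have h7 : (2 : ℝ) ^ N ≤ DR (chi R N) * 2 ^ (S + j + 1) := by exact_mod_cast h6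
  have h8 : (C : ℝ) * S ≤ C * A + 2 * (N + 1) := by exact_mod_cast h2.trans (by omega)
  have h9 : (N₀ : ℝ) ≤ N := by exact_mod_cast (by omega : N₀ ≤ N)
  have h10 : 2 * ((A : ℝ) + j + 1) ≤ (N - 1) * s := by
    rw [← div_le_iff₀ hs]; linarith
  have N0 : (0 : ℝ) ≤ N := Nat.cast_nonneg N
  have h11 : (S : ℝ) ≤ A + s * (N + 1) / 2 := by
    refine le_of_mul_le_mul_left ?_ C0
    nlinarith
  have h12 : (1 - s) * N + ((S + j + 1 : ℕ) : ℝ) ≤ (N : ℕ) := by push_cast; nlinarith
  have h13 := Real.rpow_le_rpow_of_exponent_le (show (1 : ℝ) ≤ 2 by norm_num) h12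
  rw [Real.rpow_add (by norm_num), Real.rpow_natCast, Real.rpow_natCast] at h13
  exact le_of_mul_le_mul_right (h13.trans h7) (by positivity)

end Pool.Agent.P.MP_158ebf_lc.SP
end

-- part Pool.Agent.P.MP_158ebf_lc.SPoly
section

/-! Polynomial-time computability of the learner. -/

namespace Pool.Agent.P.MP_158ebf_lc.SP

open Function Filter N487b59b3 N68a2faeb Pool.Agent.Lib.PolyTime

variable {α : Type} [N487b59b3 α] {c : α → Ctx} {j : α → ℕ}

@[fun_prop] theorem pt_e (hc : PT c) : PT fun a => (c a).e := by unfold Ctx.e; fun_prop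
@[fun_prop] theorem pt_e' (hc : PT c) : PT fun a => (c a).e' := by unfold Ctx.e'; fun_prop
@[fun_prop] theorem pt_base (hc : PT c) : PT fun a => (c a).base := by unfold Ctx.base; fun_prop
@[fun_prop] theorem pt_q (hc : PT c) : PT fun a => (c a).q := by unfold Ctx.q; fun_prop
@[fun_prop] theorem pt_h (hc : PT c) : PT fun a => (c a).h := by unfold Ctx.h; fun_prop
@[fun_prop] theorem pt_t (hc : PT c) : PT fun a => (c a).t := by unfold Ctx.t; fun_prop
@[fun_prop] theorem pt_clk (hc : PT c) : PT fun a => (c a).clk := by unfold Ctx.clk; fun_prop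
@[fun_prop] theorem pt_LQ (hc : PT c) : PT fun a => (c a).LQ := by unfold Ctx.LQ; fun_prop
@[fun_prop] theorem pt_Lt (hc : PT c) : PT fun a => (c a).Lt := by unfold Ctx.Lt; fun_prop
@[fun_prop] theorem pt_sh (hc : PT c) : PT fun a => (c a).sh := by unfold Ctx.sh; fun_prop
@[fun_prop] theorem small_t (hc : PT c) : Small fun a => (c a).t := by unfold Ctx.t; fun_prop
@[fun_prop] theorem small_clk (hc : PT c) : Small fun a => (c a).clk := by
  unfold Ctx.clk; fun_prop

@[fun_prop] theorem pt_std (hj : PT j) : PT fun a => stdString (j a) := by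
  unfold stdString; fun_prop

@[fun_prop] theorem pt_jq {β : α → Str} (hc : PT c) (hj : PT j) (hβ : PT β) :
    PT fun a => jq (c a) (j a) (β a) := by
  unfold jq; fun_prop

@[fun_prop] theorem pt_jo {β : α → Str} (hc : PT c) (hj : PT j) (hβ : PT β) :
    PT fun a => jo (c a) (j a) (β a) := by
  unfold jo; fun_prop

@[fun_prop] theorem pt_wt {β : α → Str} {ρ : α → List (Str × Bool)} (hc : PT c) (hj : PT j)
    (hρ : PT ρ) (hβ : PT β) : PT fun a => wt (jq (c a) (j a)) (ρ a) (β a) := by
  have h1 : PT fun p : α × ℕ =>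
      rho (jq (c p.1) (j p.1)) (ρ p.1) (β p.1) (min p.2 (β p.1).length) := by
    unfold rho; fun_prop
  obtain ⟨F, hF⟩ : ∃ F : α × ℕ → List (Str × Bool), F = fun p =>
    rho (jq (c p.1) (j p.1)) (ρ p.1) (β p.1) (min p.2 (β p.1).length) := ⟨_, rfl⟩
  rw [← hF] at h1
  refine (show PT fun a => ((List.range (β a).length).map fun i => bif (β a).getD i false then
    look (F (a, i)) (jq (c a) (j a) ((β a).take i))
    else 1 - look (F (a, i)) (jq (c a) (j a) ((β a).take i))).prod by fun_prop).congr fun a => ?_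
  subst hF
  refine congrArg _ (List.map_congr_left fun i hi => ?_)
  simp only [min_eq_left (List.mem_range.1 hi).le]

@[fun_prop] theorem pt_feat {β : α → Str} (hc : PT c) (hj : PT j) (hβ : PT β) :
    PT fun a => feat (jq (c a) (j a)) (c a).sh (β a) := by
  unfold feat; fun_prop

@[fun_prop] theorem pt_tau' {T : α → Feat} (hT : PT T) : PT fun a => tau (T a) := by
  unfold tau; fun_prop

@[fun_prop] theorem pt_wl {β : α → Str} (hc : PT c) (hj : PT j) (hβ : PT β) :
    PT fun a => wl (jq (c a) (j a)) (c a).sh (β a) := by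
  unfold wl; fun_prop

@[fun_prop] theorem pt_pr {π : α → Str} {ρ : α → List (Str × Bool)} (hc : PT c) (hj : PT j)
    (hρ : PT ρ) (hπ : PT π) : PT fun a => pr (c a) (j a) (ρ a) (π a) := by
  unfold pr; fun_prop

@[fun_prop] theorem pt_gz {π o : α → Str} {G : α → List Str} (hπ : PT π) (hG : PT G) (ho : PT o) :
    PT fun a => gz (π a) (G a) (o a) := by
  unfold gz; fun_prop

@[fun_prop] theorem pt_phi {π : α → Str} {G : α → List Str} {T : α → Feat} (hc : PT c) (hj : PT j)
    (hπ : PT π) (hG : PT G) (hT : PT T) : PT fun a => phi (c a) (j a) (gz (π a) (G a)) (T a) := by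
  unfold phi; fun_prop

@[fun_prop] theorem pt_uvec {st : α → St} {T : α → Feat} (hc : PT c) (hs : PT st) (hT : PT T) :
    PT fun a => uvec (c a) (st a) (T a) := by
  unfold uvec; fun_prop

@[fun_prop] theorem pt_pairing {st : α → St} {π : α → Str} (hc : PT c) (hj : PT j) (hs : PT st)
    (hπ : PT π) : PT fun a => pairing (c a) (j a) (uvec (c a) (st a)) (π a) := by
  unfold pairing; fun_prop

@[fun_prop] theorem pt_upper {st : α → St} {π : α → Str} (hc : PT c) (hj : PT j) (hs : PT st)
    (hπ : PT π) : PT fun a => upper (c a) (st a) (j a) (π a) := by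
  unfold upper; fun_prop

@[fun_prop] theorem pt_upd {st : α → St} {π : α → Str} (hc : PT c) (hj : PT j) (hs : PT st)
    (hπ : PT π) : PT fun a => upd (c a) (st a) (j a) (π a) := by
  unfold upd; fun_prop

@[fun_prop] theorem pt_blockp {v : α → Str} (hc : PT c) (hj : PT j) (hv : PT v) :
    PT fun a => blockp (c a) (v a) (j a) := by
  unfold blockp; fun_prop

theorem sz_filter_le {β : Type} [N487b59b3 β] (l : List β) (p : β → Bool) :
    sz (l.filter p) ≤ sz l := by
  induction l with
  | nil => simp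
  | cons x l ih => cases h : p x <;> simp [h] <;> omega

theorem stt_eq (c : Ctx) (pat : ℕ → Str) (j : ℕ) :
    stt c pat j = (List.range j).foldl (fun st i => upd c st i (pat i)) [] := by
  induction j with
  | zero => rfl
  | succ j ih => rw [stt, ih, List.range_succ, List.foldl_append]; rfl

@[fun_prop] theorem pt_stt {v : α → Str} (hc : PT c) (hj : PT j) (hj' : Small j) (hv : PT v) :
    PT fun a => stt (c a) (blockp (c a) (v a)) (j a) := by
  refine (PT.foldl_growth (l := fun a => List.range (j a)) (s := fun _ => ([] : St))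
    (f := fun a st i => upd (c a) st i (blockp (c a) (v a) i)) (by fun_prop) (by fun_prop)
    (by fun_prop) (fun p => 2 * sz (p.2, blockp (c p.1) (v p.1) p.2, (c p.1).Lt) + 1)
    (show Lib.PolyTime.Small _ by fun_prop) fun a st i => ?_).congr fun a => stt_eq _ _ _
  have := sz_filter_le (c a).Lt fun π' => decide (pairing (c a) i (uvec (c a) st)
    (blockp (c a) (v a) i) ≤ pairing (c a) i (uvec (c a) st) π')
  unfold upd upper
  split_ifs
  · simp
  · simp; omega

@[fun_prop] theorem pt_fac {st : α → St} {π : α → Str} (hc : PT c) (hj : PT j) (hs : PT st)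
    (hπ : PT π) : PT fun a => fac (c a) (st a) (j a) (π a) := by
  unfold fac; fun_prop

theorem pt_avg {st : α → St} {p : α → Str} {k : α → ℕ} (hc : PT c) (hj : PT j) (hs : PT st)
    (hp : PT p) (hk : PT k) (hk' : Tiny k) : PT fun a => avg (c a) (st a) (j a) (p a) (k a) := by
  have := hk'.small
  unfold avg; fun_prop

theorem pt_fprod {v : α → Str} (hc : PT c) (hj : PT j) (hj' : Small j) (hv : PT v) :
    PT fun a => fprod (c a) (blockp (c a) (v a)) (j a) := by
  refine (show PT fun a => ((List.range (j a)).map fun i => fac (c a)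
    (stt (c a) (blockp (c a) (v a)) (min i (j a))) i (blockp (c a) (v a) i)).prod by
      fun_prop).congr fun a => ?_
  refine congrArg _ (List.map_congr_left fun i hi => ?_)
  rw [min_eq_left (List.mem_range.1 hi).le]

theorem pt_gv {v : α → Str} (hc : PT c) (ht : Tiny fun a => (c a).t) (hv : PT v) :
    PT fun a => gv (c a) (v a) :=
  PT.rat_mul (pt_fprod hc (by fun_prop) (by fun_prop) hv)
    (pt_avg hc (by fun_prop) (by fun_prop) (by fun_prop) (by fun_prop)
      (ht.mono fun _ => Nat.sub_le _ _))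

theorem tiny_succ {n : α → ℕ} (hn : Tiny n) : Tiny fun a => n a + 1 :=
  Small.mono (n := fun a => 2 ^ n a * 2) (by fun_prop) fun _ => (pow_succ _ _).le

theorem tiny_size {n : α → ℕ} (hn : Small n) : Tiny fun a => (n a).size :=
  Small.mono (n := fun a => 2 * n a + 1) (by fun_prop) fun a => by
    beta_reduce
    rcases e : (n a).size with _ | s
    · simp
    · have : 2 ^ s ≤ n a := Nat.lt_size.1 (by omega)
      rw [pow_succ]; omega

@[fun_prop] theorem pt_tt {m n : α → ℕ} (hm : PT m) (hn : PT n) : PT fun a => tt (m a) (n a) := by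
  unfold tt mu; fun_prop

@[fun_prop] theorem small_tt {m n : α → ℕ} (hn : Small n) : Small fun a => tt (m a) (n a) :=
  Small.mono (n := fun a => n a + 1) (by fun_prop) fun _ => tt_le _ _

@[fun_prop] theorem pt_qq {m n : α → ℕ} (hm : PT m) (hn : PT n) : PT fun a => qq (m a) (n a) := by
  unfold qq; fun_prop

@[fun_prop] theorem pt_KK {m n : α → ℕ} (hm : PT m) (hn : PT n) (hn' : Small n) :
    PT fun a => KK (m a) (n a) := by
  unfold KK; fun_prop

theorem pt_mk {e e' : α → Code} {m n : α → ℕ} (he : PT e) (he' : PT e') (hm : PT m) (hn : PT n)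
    (hn' : Tiny n) : PT fun a => mk (e a) (e' a) (m a) (n a) := by
  have h0 := hn'.small
  have h1 : Tiny fun a => tt (m a) (n a) := (tiny_succ hn').mono fun _ => tt_le _ _
  have h2 : Tiny fun a => tt (m a) (n a) ^ 2 := (tiny_succ hn').mono fun _ => tt_sq_le _ _
  have h3 : Tiny fun a => tt (m a) (n a) * qq (m a) (n a) := hn'.mono fun _ => tq_le _ _
  have h4 : Small fun a => KK (m a) (n a) :=
    Small.add (Small.add h2 h0) (Small.const 1)
  have h5 : PT fun a => shorts (KK (m a) (n a)) :=
    PT.map (PT.range (by fun_prop) h4) (by fun_prop)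
  have h6 : PT fun a => allStr (tt (m a) (n a) * qq (m a) (n a)) := pt_allStr (by fun_prop) h3
  have h7 : PT fun a => allStr (tt (m a) (n a)) := pt_allStr (by fun_prop) h1
  exact he.pair (he'.pair (PT.pair (by fun_prop) (PT.pair (by fun_prop) (PT.pair (by fun_prop)
    (PT.pair (by fun_prop) (PT.pair (by fun_prop) (h6.pair (h7.pair h5))))))))

theorem pt_GG {n : α → ℕ} {w : α → Str} (hj : PT j) (hn : PT n) (hn' : Tiny n) (hw : PT w) :
    PT fun a => GG (j a) (n a) (w a) := by
  have h0 := hn'.small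
  refine PT.ite (by fun_prop) (pt_gv (pt_mk (by fun_prop) (by fun_prop) (by fun_prop) hn hn')
    ((tiny_succ hn').mono fun _ => by rw [mk_t]; exact tt_le _ _) ?_) (PT.const 1)
  unfold seg; fun_prop

theorem pt_DR : PT DR := by
  have h1 : PT fun p : Str × ℕ × ℕ => GG p.2.1 (min p.2.2 (p.1.length + 1).size) p.1 :=
    pt_GG (by fun_prop) (by fun_prop) (Tiny.min (tiny_size (by fun_prop))) (by fun_prop)
  obtain ⟨F, hF⟩ : ∃ F : Str × ℕ × ℕ → ℚ,
    F = fun p => GG p.2.1 (min p.2.2 (p.1.length + 1).size) p.1 := ⟨_, rfl⟩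
  rw [← hF] at h1
  refine (show PT fun w : Str => ((List.range w.length).map fun j => (1 / 2 : ℚ) ^
    (min j w.length + 1) * ((List.range (w.length + 1).size).map fun n => F (w, j, n)).prod).sum +
    (1 / 2 : ℚ) ^ w.length by fun_prop).congr fun w => ?_
  rw [DR]
  congr 2
  refine List.map_congr_left fun j hj => ?_
  rw [min_eq_left (List.mem_range.1 hj).le, PP]
  congr 2
  refine List.map_congr_left fun n hn => ?_
  simp only [hF, min_eq_left (List.mem_range.1 hn).le]

theorem pt_bet {R : α × Str → Bool} {J K : α → ℕ} {θ : α → ℚ} {w : α → Str} (hR : PT R)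
    (hc : PT c) (hJ : PT J) (hJ' : Small J) (hK : PT K) (hθ : PT θ) (hw : PT w) :
    PT fun a => bet (fun x => R (a, x)) (c a) (J a) (K a) (θ a) (w a) := by
  unfold bet rare patR; fun_prop

theorem bet_congr {R R' : Str → Bool} {c : Ctx} {J : ℕ} (h : ∀ j < J, patR R c j = patR R' c j)
    (K : ℕ) (θ : ℚ) (w : Str) : bet R c J K θ w = bet R' c J K θ w := by
  have h1 : ∀ ρ, rare R c J θ ρ = rare R' c J θ ρ := fun ρ =>
    List.filter_congr fun j hj => by rw [h j (List.mem_range.1 hj)]
  rw [bet, bet, h1]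
  refine congrArg _ (List.map_congr_left fun j hj => ?_)
  rw [h j (List.mem_range.1 (List.mem_filter.1 (List.mem_of_mem_take hj)).1)]

/-- The density system on the oracle side is computable in quasi-polynomial time. -/
theorem qp_DB {R : Str → Bool} (hR : InEXP R) (m : ℕ) :
    ∃ (e : ℕ) (F : (Str × Str × Str) × Str → ℚ), PT F ∧ ∀ v : Str × Str × Str,
      DB R m v.1.length v.2.2 =
        F (v, List.replicate (2 ^ (Nat.log 2 (bitEncode v).length + 2) ^ e) true) := by
  obtain ⟨a, R₀, hR₀, hR⟩ := hR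
  replace hR₀ := PT.of_isPolyTime hR₀
  obtain ⟨g, hg⟩ : ∃ g : Str × Str × ℕ × ℕ → ℕ, g = fun p =>
    if min p.2.2.2 p.1.length + (min p.2.2.2 p.1.length ^ a + a) < p.2.1.length.size then
      min p.2.2.2 p.1.length else 0 := ⟨_, rfl⟩
  have g1 : PT g := by rw [hg]; fun_prop
  have g2 : Tiny fun p => g p + (g p ^ a + a) :=
    Small.mono (n := fun p => 2 ^ p.2.1.length.size + 2 ^ (0 + (0 ^ a + a)))
      (Small.add (tiny_size (by fun_prop)) (Small.const _)) fun p => by
      simp only [hg]
      split_ifs with h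
      · exact (Nat.pow_le_pow_right (by norm_num) h.le).trans (Nat.le_add_right _ _)
      · exact Nat.le_add_left _ _
  have g3 : Tiny g := g2.mono fun _ => Nat.le_add_right _ _
  have g4 : Tiny fun p => g p ^ a + a := g2.mono fun _ => Nat.le_add_left _ _
  have g5 := g3.small
  have g6 : PT fun p => List.replicate (2 ^ (g p ^ a + a)) true :=
    PT.replicate (by fun_prop) g4 (PT.const _)
  have h1 := pt_bet (R := fun p : (Str × Str × ℕ × ℕ) × Str =>
      R₀ (p.2, List.replicate (2 ^ (g p.1 ^ a + a)) true))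
    (c := fun p => mk (decCode (blk p.2.2.1 0)) (decCode (blk p.2.2.1 1)) m (g p))
    (J := fun p => 2 ^ g p / tt m (g p)) (K := fun p => KK m (g p))
    (θ := fun p => (1 / 2) ^ (4 * p.2.2.2.size)) (w := fun p => p.1)
    (hR₀.comp (PT.pair (by fun_prop) (g6.comp (by fun_prop))))
    (pt_mk (by fun_prop) (by fun_prop) (by fun_prop) g1 g3) (by fun_prop) (by fun_prop)
    (by fun_prop) (by fun_prop) (by fun_prop)
  obtain ⟨T, hT⟩ : ∃ T : Str × Str × ℕ × ℕ → ℚ, T = fun p => bet
    (fun x => R₀ (x, List.replicate (2 ^ (g p ^ a + a)) true))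
    (mk (decCode (blk p.2.2.1 0)) (decCode (blk p.2.2.1 1)) m (g p)) (2 ^ g p / tt m (g p))
    (KK m (g p)) ((1 / 2) ^ (4 * p.2.2.2.size)) p.1 := ⟨_, rfl⟩
  replace h1 : PT T := by rw [hT]; exact h1
  obtain ⟨e, he⟩ := POpt.eval_le_pow ((Polynomial.C 2 * Polynomial.X) ^ (2 * m + 2) +
    (((Polynomial.C 2 * Polynomial.X) ^ (2 * m + 2)) ^ a + Polynomial.C a))
  refine ⟨e, fun u => ((List.range u.1.2.2.length).map fun n => if u.1.1.length ≤ n.size then
    ((List.range (min n u.1.2.2.length)).map fun i =>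
      if KK m (min n u.1.2.2.length) ≤ u.1.2.2.length then T (u.1.2.2, u.2, i, n)
      else (1 / 2) ^ (4 * n.size)).sum else 0).sum +
    (1 / 2 : ℚ) ^ u.1.1.length / (u.1.2.2.length + 1), by fun_prop, fun v => ?_⟩
  rw [DB]
  congr 2
  refine List.map_congr_left fun n hn => ?_
  have hn' := min_eq_left (List.mem_range.1 hn).le
  rw [rowB, hn']
  congr 2
  refine List.map_congr_left fun i _ => ?_
  rw [termB]
  split_ifs with h
  · have a1 : tt m n ^ 2 ≤ Nat.log 2 (bitEncode v).length :=
      Nat.le_log_of_pow_le (by norm_num) (by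
        have b1 : sz v = _ := sz_pair' v
        have b2 : sz v.2 = _ := sz_pair' v.2
        have b3 := length_le_sz v.2.2
        unfold KK at h
        change _ ≤ sz v
        omega)
    have a2 : n ≤ (2 * Nat.log 2 (bitEncode v).length) ^ (2 * m + 2) :=
      (lt_tt_pow m n).le.trans (Nat.pow_le_pow_left (Nat.mul_le_mul_left _
        ((Nat.le_self_pow (by norm_num) _).trans a1)) _)
    have a3 := he (Nat.log 2 (bitEncode v).length)
    simp only [Polynomial.eval_add, Polynomial.eval_pow, Polynomial.eval_mul, Polynomial.eval_C,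
      Polynomial.eval_X] at a3
    have a4 := Nat.pow_le_pow_left a2 a
    have a5 : g (v.2.2, List.replicate (2 ^ (Nat.log 2 (bitEncode v).length + 2) ^ e) true, i, n) =
        n := by
      simp only [hg, hn', List.length_replicate, Nat.size_pow]
      rw [if_pos (by omega)]
    simp only [hT, a5]
    refine bet_congr (fun j hj => List.map_congr_left fun x hx => ?_) _ _ _
    rw [mk_t, List.mem_range] at hx
    rw [hR, mk_base, mk_t, Nat.add_assoc, length_std (idx_lt hj hx)]
  · rfl

theorem p2null_mono {X Y : Set (Str → Bool)} (h : P2Null Y) (hXY : X ⊆ Y) : P2Null X := by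
  obtain ⟨d, c, h1, h2, h3, h4⟩ := h
  exact ⟨d, c, h1, h2, h3, fun k => ⟨(h4 k).1, (h4 k).2.1, fun A hA => (h4 k).2.2 A (hXY hA)⟩⟩

theorem p2null_DB {R : Str → Bool} (hR : InEXP R) (m : ℕ) :
    P2Null {B | ∀ k, ∃ N, 1 ≤ DB R m k (chi B N)} := by
  obtain ⟨e, F, h1, hF⟩ := qp_DB hR m
  refine ⟨fun k w => DB R m k w, fun v => round2 (DB R m v.1.length v.2.2) v.2.1.length,
    ⟨e, fun u => round2 (F u) u.1.2.1.length, ?_, fun v => by simp only [hF]⟩, fun v => ?_,
    fun k r w => ?_, fun k => ⟨fun w => ⟨?_, ?_⟩, ?_, fun B hB => ?_⟩⟩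
  · exact (PT.nat_div_rat (by fun_prop) (by fun_prop)).isPolyTime
  · exact ⟨(((DB R m v.1.length v.2.2 * 2 ^ v.2.1.length).num.toNat /
      (DB R m v.1.length v.2.2 * 2 ^ v.2.1.length).den : ℕ) : ℤ), v.2.1.length, by
      beta_reduce; rw [round2, Int.cast_natCast, Nat.cast_pow, Nat.cast_ofNat]⟩
  · have := (Rat.cast_le (K := ℝ)).2 (round2_close (DB_nonneg (R := R) m k w) r)
    simp only [List.length_replicate]
    push_cast at this
    exact this
  · beta_reduce; exact_mod_cast DB_nonneg m k w
  · beta_reduce; exact_mod_cast DB_step m k w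
  · simp [DB]
  · obtain ⟨N, hN⟩ := hB k
    exact ⟨N, by beta_reduce; exact_mod_cast hN⟩

theorem small_span :
    StrongDimZero {R | InEXP R ∧ ∃ α : ℝ, α < 1 ∧ ¬ P2Null {B | RedT α R B}} := by
  refine ⟨DR, pt_DR.isPolyTime, fun w => ⟨?_, ?_⟩, ?_⟩
  · beta_reduce; exact_mod_cast DR_nonneg w
  · beta_reduce; exact_mod_cast DR_step w
  rintro R ⟨hR, α, hα, h⟩ s hs
  have h0 : 0 < 1 - max α 0 := sub_pos.2 (max_lt hα one_pos)
  obtain ⟨m, hm⟩ := exists_nat_gt (2 / (1 - max α 0))
  have hm' : max α 0 < 1 - 2 / (m + 1) := by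
    rw [div_lt_iff₀ h0] at hm
    rw [lt_sub_comm, div_lt_iff₀ (by positivity)]
    nlinarith
  obtain ⟨B, ⟨query, out, c, hq, ho, hred⟩, hB⟩ :=
    Set.not_subset.1 fun h' => h (p2null_mono (p2null_DB hR m) h')
  simp only [Set.mem_ofPred_eq, not_forall, not_exists, not_le] at hB
  obtain ⟨k, hB⟩ := hB
  obtain ⟨e, he⟩ := runs_of_poly hq
  obtain ⟨e', he'⟩ := runs_of_poly ho
  obtain ⟨n₁, h1⟩ := eventually_atTop.1
    (he.and (he'.and ((ev_qq hm' c).and (eventually_ge_atTop (2 ^ k)))))
  obtain ⟨j, hj, b0, b1, b2⟩ :=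
    exists_index (bitEncode e) (bitEncode e') (List.replicate m true) n₁
  refine DR_lower (m := m) (j := j) (fun n hn N => ?_) hs
  obtain ⟨a1, a2, a3, a4⟩ := h1 n (by omega)
  rw [GG, if_pos hn, b0, b1, b2, decCode_enc, decCode_enc, List.length_replicate]
  exact stage_lower (B := B) (fun i hi => likely (by rw [b0, decCode_enc]) (by rw [b1, decCode_enc])
    a1 a2 (fun x hx => hred x _ (by rwa [hx])) hn (Nat.lt_size.2 a4).le hB hi) N

end Pool.Agent.P.MP_158ebf_lc.SP
end

-- part Pool.Agent.P.MP_158ebf_lc.SCor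
section

/-! Composition of adaptive reductions and monotonicity facts used in the corollaries. -/

namespace Pool.Agent.P.MP_158ebf_lc.SP

open Function Filter N487b59b3 N68a2faeb Pool.Agent.Lib.PolyTime

theorem strong_mono {X Y : Set (Str → Bool)} (h : StrongDimZero Y) (hXY : X ⊆ Y) :
    StrongDimZero X := by
  obtain ⟨d, h1, h2, h3⟩ := h
  exact ⟨d, h1, h2, fun A hA => h3 A (hXY hA)⟩

theorem pnull_of_strong {X : Set (Str → Bool)} (h : StrongDimZero X) : PNull X := by
  obtain ⟨d, h1, h2, h3⟩ := h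
  replace h1 := PT.of_isPolyTime h1
  have d0 : ∀ w, 0 ≤ d w := fun w => by simpa using (h2 w).1
  have d1 : (0 : ℝ) < d [] + 1 := by have := (h2 []).1; positivity
  have e0 : ∀ k w, 0 ≤ d w / (2 ^ k * (d [] + 1)) := fun k w => by
    have := d0 w; have := d0 []; positivity
  refine ⟨fun k w => (d w / (2 ^ k * (d [] + 1)) : ℚ),
    fun v => round2 (d v.2.2 / (2 ^ v.1.length * (d [] + 1))) v.2.1.length, ?_, fun v => ?_,
    fun k r w => ?_, fun k => ⟨fun w => ⟨?_, ?_⟩, ?_, fun A hA => ?_⟩⟩
  · exact (PT.nat_div_rat (by fun_prop) (by fun_prop)).isPolyTime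
  · exact ⟨(((d v.2.2 / (2 ^ v.1.length * (d [] + 1)) * 2 ^ v.2.1.length).num.toNat /
      (d v.2.2 / (2 ^ v.1.length * (d [] + 1)) * 2 ^ v.2.1.length).den : ℕ) : ℤ), v.2.1.length, by
      beta_reduce; rw [round2, Int.cast_natCast, Nat.cast_pow, Nat.cast_ofNat]⟩
  · have := (Rat.cast_le (K := ℝ)).2 (round2_close (e0 k w) r)
    simp only [List.length_replicate]
    push_cast at this ⊢
    exact this
  · beta_reduce; exact_mod_cast e0 k w
  · have := (h2 w).2
    push_cast
    rw [← add_div, div_right_comm]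
    gcongr
  · push_cast
    rw [div_le_div_iff₀ (by positivity) (by positivity)]
    have : (0 : ℝ) < 2 ^ k := by positivity
    nlinarith
  · obtain ⟨N₀, hN⟩ := h3 A hA (1 / 2) (by norm_num)
    obtain ⟨n, hn⟩ := pow_unbounded_of_one_lt ((d [] : ℝ) + 1) (one_lt_two (α := ℝ))
    refine ⟨N₀ + 2 * (k + n), ?_⟩
    push_cast
    rw [le_div_iff₀ (by positivity), one_mul]
    refine le_trans ?_ (hN _ (Nat.le_add_right _ _))
    calc (2 : ℝ) ^ k * (d [] + 1) ≤ 2 ^ k * 2 ^ n := by gcongr
      _ = 2 ^ ((k + n : ℕ) : ℝ) := by rw [Real.rpow_natCast, pow_add]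
      _ ≤ _ := Real.rpow_le_rpow_of_exponent_le (by norm_num) (by
          push_cast; nlinarith [Nat.cast_nonneg (α := ℝ) N₀])

theorem take_oracleAns (B : Str → Bool) (f : Str × Str → Str) (x : Str) {i j : ℕ} (h : i ≤ j) :
    (oracleAns B f x j).take i = oracleAns B f x i := by
  induction j, h using Nat.le_induction with
  | base => exact List.take_of_length_le (length_oracleAns _ _ _ _).le
  | succ j h ih =>
    rw [oracleAns, List.take_append_of_le_length (by rwa [length_oracleAns]), ih]

/-- The answers to the outer queries, read off from blocks of `q` inner answers. -/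
def outer (f₁ : Str × Str → Str) (g₂ : Str × Str → Bool) (x a : Str) (q b : ℕ) : Str :=
  (List.range b).foldl (fun s i => s ++ [g₂ (f₁ (x, s), (a.drop (i * q)).take q)]) []

theorem pt_outer {α : Type} [N487b59b3 α] {f₁ : Str × Str → Str} {g₂ : Str × Str → Bool}
    (h1 : PT f₁) (h2 : PT g₂) {x a : α → Str} {q b : α → ℕ} (hx : PT x) (ha : PT a) (hq : PT q)
    (hb : PT b) (hb' : Small b) : PT fun u => outer f₁ g₂ (x u) (a u) (q u) (b u) :=
  PT.foldl_growth (f := fun u s i => s ++ [g₂ (f₁ (x u, s), ((a u).drop (i * q u)).take (q u))])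
    (by fun_prop) (PT.const _) (by fun_prop) (fun _ => 3) (PB.const 3) fun _ _ _ => by simp

theorem outer_eq {A B : Str → Bool} {f₁ f₂ f : Str × Str → Str} {g₂ : Str × Str → Bool} {x : Str}
    {q : ℕ} (hf : ∀ a, f (x, a) = f₂ (f₁ (x, outer f₁ g₂ x a q (a.length / q)),
      a.drop (a.length / q * q))) (b : ℕ)
    (h : ∀ i < b, A (f₁ (x, oracleAns A f₁ x i)) = g₂ (f₁ (x, oracleAns A f₁ x i),
      oracleAns B f₂ (f₁ (x, oracleAns A f₁ x i)) q)) :
    ∀ j ≥ b * q, outer f₁ g₂ x (oracleAns B f x j) q b = oracleAns A f₁ x b := by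
  induction b with
  | zero => intro j _; rfl
  | succ b ih =>
    intro j hj
    replace ih := ih fun i hi => h i (by omega)
    rw [Nat.succ_mul] at hj
    have key : ∀ i ≤ q, (oracleAns B f x (b * q + i)).drop (b * q) =
        oracleAns B f₂ (f₁ (x, oracleAns A f₁ x b)) i := by
      intro i hi
      induction i with
      | zero => exact List.drop_of_length_le (length_oracleAns _ _ _ _).le
      | succ i ih' =>
        have hd : (b * q + i) / q = b := by
          rw [Nat.add_comm, Nat.add_mul_div_right _ _ (by omega), Nat.div_eq_of_lt (by omega)]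
          simp
        rw [← Nat.add_assoc, oracleAns,
          List.drop_append_of_le_length (by rw [length_oracleAns]; omega), hf, length_oracleAns,
          hd, ih' (by omega), ih _ (by omega), oracleAns]
    have := ih j (by omega)
    rw [outer] at this
    rw [outer, List.range_succ, List.foldl_append, this, oracleAns, h b (by omega),
      List.foldl_cons, List.foldl_nil, List.take_drop, take_oracleAns _ _ _ hj, key q le_rfl]

theorem root_le {y z k : ℕ} (hk : k ≠ 0) (h : y ≤ z ^ k) : (y : ℝ) ^ (1 / k : ℝ) ≤ z := by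
  have h1 : (y : ℝ) ≤ (z : ℝ) ^ k := by exact_mod_cast h
  have := Real.rpow_le_rpow (Nat.cast_nonneg y) h1 (show (0 : ℝ) ≤ 1 / k by positivity)
  rwa [one_div, Real.pow_rpow_inv_natCast (Nat.cast_nonneg z) hk, ← one_div] at this

theorem redT_comp {L A B : Str → Bool} (h1 : RedT (1 / 4) L A) (h2 : ∀ β > 0, RedT β A B) :
    RedT (3 / 4) L B := by
  obtain ⟨f₁, g₁, c₁, hf₁, hg₁, h1⟩ := h1
  replace hf₁ := PT.of_isPolyTime hf₁
  replace hg₁ := PT.of_isPolyTime hg₁
  obtain ⟨p, hp⟩ := hf₁.size
  obtain ⟨d, hd⟩ := POpt.eval_le_pow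
    (p.comp (Polynomial.C 12 * Polynomial.X + Polynomial.C (7 + 3 * c₁)))
  obtain ⟨f₂, g₂, c₂, hf₂, hg₂, h2⟩ := h2 (1 / (4 * (d + 1) : ℕ)) (by positivity)
  replace hf₂ := PT.of_isPolyTime hf₂
  replace hg₂ := PT.of_isPolyTime hg₂
  have o1 : PT fun u : Str × Str => outer f₁ g₂ u.1 u.2 (2 * tt 1 u.1.length + 2 + c₂)
      (u.2.length / (2 * tt 1 u.1.length + 2 + c₂)) :=
    pt_outer hf₁ hg₂ (by fun_prop) (by fun_prop) (by fun_prop) (by fun_prop) (by fun_prop)
  have o2 : PT fun u : Str × Str => outer f₁ g₂ u.1 u.2 (2 * tt 1 u.1.length + 2 + c₂)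
      (2 * tt 1 u.1.length + c₁) :=
    pt_outer hf₁ hg₂ (by fun_prop) (by fun_prop) (by fun_prop) (by fun_prop) (by fun_prop)
  refine ⟨_, _, (2 * (c₁ + c₂ + 4) ^ 2 + (c₁ + c₂ + 2)) ^ 2 + 1,
    (hf₂.comp (PT.pair (hf₁.comp (PT.pair (PT.fst PT.id) o1)) (show PT fun u : Str × Str =>
      u.2.drop (u.2.length / (2 * tt 1 u.1.length + 2 + c₂) * (2 * tt 1 u.1.length + 2 + c₂)) by
        fun_prop))).isPolyTime,
    (hg₁.comp (PT.pair (PT.fst PT.id) o2)).isPolyTime, fun x j hj => ?_⟩
  have a0 := tt_le 1 x.length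
  have a1 : x.length < (2 * tt 1 x.length) ^ 4 := lt_tt_pow 1 x.length
  have a2 : ((tt 1 x.length : ℕ) : ℝ) ^ 3 ≤ (x.length : ℝ) ^ (3 / 4 : ℝ) + 1 := by
    rcases Nat.eq_zero_or_pos x.length with h | h
    · simp [h, tt, mu]
    · have b1 : ((tt 1 x.length : ℕ) : ℝ) ^ 4 ≤ x.length := by exact_mod_cast tt_pow_le 1 h
      have b2 := Real.rpow_le_rpow (by positivity) b1 (show (0 : ℝ) ≤ 3 / 4 by norm_num)
      rw [← Real.rpow_natCast, ← Real.rpow_mul (by positivity),
        show ((4 : ℕ) : ℝ) * (3 / 4) = (3 : ℕ) by norm_num, Real.rpow_natCast] at b2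
      linarith
  have a3 := root_le (by norm_num) a1.le
  obtain ⟨t, ht⟩ : ∃ t, tt 1 x.length = t := ⟨_, rfl⟩
  rw [ht] at a0 a1 a2 a3
  have a4 : (2 * t + c₁) * (2 * t + 2 + c₂) ≤ j := by
    have b1 : t ^ 3 + (2 * (c₁ + c₂ + 4) ^ 2 + (c₁ + c₂ + 2)) ^ 2 ≤ j := by
      have : ((t ^ 3 + (2 * (c₁ + c₂ + 4) ^ 2 + (c₁ + c₂ + 2)) ^ 2 : ℕ) : ℝ) ≤ j := by
        push_cast at hj ⊢; linarith
      exact_mod_cast this
    have b2 : (2 * t + c₁) * (2 * t + 2 + c₂) ≤ (2 * t + (c₁ + c₂ + 2)) ^ 2 := by
      rw [pow_two]; exact Nat.mul_le_mul (by omega) (by omega)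
    generalize c₁ + c₂ = c at *
    rcases le_total t ((c + 4) ^ 2) with h | h
    · have := Nat.pow_le_pow_left (show 2 * t + (c + 2) ≤ 2 * (c + 4) ^ 2 + (c + 2) by omega) 2
      omega
    · have b3 : 1 ≤ t := le_trans (Nat.one_le_pow _ _ (by omega)) h
      have b4 := Nat.pow_le_pow_left (show 2 * t + (c + 2) ≤ (c + 4) * t by nlinarith) 2
      have b5 := Nat.mul_le_mul_right (t ^ 2) h
      rw [mul_pow] at b4
      rw [show t * t ^ 2 = t ^ 3 by ring] at b5
      omega
  dsimp only
  rw [ht, outer_eq (A := A) (f₂ := f₂) (fun _ => by simp only [ht]) _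
    (fun i hi => h2 _ _ ?_) j a4]
  · exact h1 x _ (by push_cast at a3 ⊢; linarith)
  · have b1 := (length_le_sz _).trans (hp (x, oracleAns A f₁ x i))
    have b2 := hd x.length
    simp only [Polynomial.eval_comp, Polynomial.eval_add, Polynomial.eval_mul, Polynomial.eval_C,
      Polynomial.eval_X] at b2
    have b3 := eval_mono p (show sz (x, oracleAns A f₁ x i) ≤ 12 * x.length + (7 + 3 * c₁) by
      simp [sz_str, length_oracleAns]; omega)
    have b4 : x.length + 2 ≤ (2 * t + 2) ^ 4 := by
      have := Nat.pow_lt_pow_left (show 2 * t < 2 * t + 1 by omega) (show 4 ≠ 0 by norm_num)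
      have := Nat.pow_lt_pow_left (show 2 * t + 1 < 2 * t + 2 by omega) (show 4 ≠ 0 by norm_num)
      omega
    have b5 : (x.length + 2) ^ d ≤ (2 * t + 2) ^ (4 * (d + 1)) := by
      rw [pow_mul]
      exact (Nat.pow_le_pow_right (by omega) (Nat.le_succ d)).trans (Nat.pow_le_pow_left b4 _)
    have b6 := root_le (show 4 * (d + 1) ≠ 0 by omega) (b1.trans (b3.trans (b2.trans b5)))
    push_cast at b6 ⊢
    linarith

end Pool.Agent.P.MP_158ebf_lc.SP
end
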