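import Pool.Agent.Lib.PolyTime.Parse
import Pool.Agent.P.MP_435dae_lc.OptDefs

-- part Pool.Agent.P.MP_435dae_lc.OptOra
section

/-! Closure properties of oracle polynomial time, and a clocked universal oracle machine. -/

namespace Pool.Agent.P.MP_435dae_lc.Opt

open Function N487b59b3 N68a2faeb Pool.Agent.Lib.PolyTime

section

variable {α : Type} {O : Str → Bool} {q : α × Str → Str} {a : α}

theorem length_oans (j : ℕ) : (oans O q a j).length = j := by
  induction j with
  | zero => rfl
  | succ j ih => simp [oans, ih]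

theorem take_oans {i j : ℕ} (h : i ≤ j) : (oans O q a j).take i = oans O q a i := by
  induction j, h using Nat.le_induction with
  | base => exact List.take_of_length_le (length_oans i).le
  | succ j h ih => rw [oans, List.take_append_of_le_length (by rwa [length_oans]), ih]

theorem oans_congr {β : Type} {q' : β × Str → Str} {b : β} (j : ℕ)
    (h : ∀ l : Str, l.length < j → q (a, l) = q' (b, l)) : oans O q a j = oans O q' b j := by
  induction j with
  | zero => rfl
  | succ j ih =>
    rw [oans, oans, ih fun l hl => h l (by omega), h _ (by rw [length_oans]; omega)]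

end

variable {α β γ : Type} [N487b59b3 α] [N487b59b3 β] [N487b59b3 γ] {O : Str → Bool}

/-- A flexible form of `PolyTimeIn`. -/
def Flex (O : Str → Bool) (f : α → β) : Prop :=
  ∃ (q : α × Str → Str) (o : α × Str → β) (n : α → ℕ), PT q ∧ PT o ∧ Small n ∧
    ∀ a m, n a ≤ m → f a = o (a, oans O q a m)

theorem Flex.of_polyTimeIn {f : α → β} (h : PolyTimeIn O f) : Flex O f := by
  obtain ⟨q, o, p, hq, ho, h⟩ := h
  have h1 := PT.of_isPolyTime hq
  have h2 := PT.of_isPolyTime ho
  refine ⟨q, fun x => o (x.1, x.2.take (p.eval (sz x.1))), fun a => p.eval (sz a), h1,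
    by fun_prop, by fun_prop, fun a m hm => ?_⟩
  dsimp only
  rw [take_oans hm]
  exact h a

theorem Flex.polyTimeIn {f : α → β} (h : Flex O f) : PolyTimeIn O f := by
  obtain ⟨q, o, n, hq, ho, ⟨p, hp⟩, h⟩ := h
  exact ⟨q, o, p, hq.isPolyTime, ho.isPolyTime, fun a => h a _ (hp a)⟩

theorem Flex.of_pt {f : α → β} (h : PT f) : Flex O f :=
  ⟨fun _ => [], fun x => f x.1, fun _ => 0, PT.const _, by fun_prop, Small.const 0,
    fun _ _ _ => rfl⟩

theorem Flex.comp {f : β → γ} {g : α → β} (hf : Flex O f) (hg : PT g) :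
    Flex O fun a => f (g a) := by
  obtain ⟨q, o, n, hq, ho, hn, h⟩ := hf
  refine ⟨fun x => q (g x.1, x.2), fun x => o (g x.1, x.2), fun a => n (g a), by fun_prop,
    by fun_prop, hn.comp hg, fun a m hm => ?_⟩
  dsimp only
  rw [h _ m hm]
  exact congrArg (fun l => o (g a, l)) (oans_congr m fun _ _ => rfl)

theorem Flex.post {f : α → β} {g : α × β → γ} (hf : Flex O f) (hg : PT g) :
    Flex O fun a => g (a, f a) := by
  obtain ⟨q, o, n, hq, ho, hn, h⟩ := hf
  refine ⟨q, fun x => g (x.1, o x), n, hq, by fun_prop, hn, fun a m hm => ?_⟩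
  dsimp only
  rw [← h a m hm]

theorem Flex.cond {c : α → Bool} {f g : α → β} (hc : PT c) (hf : Flex O f) (hg : Flex O g) :
    Flex O fun a => bif c a then f a else g a := by
  obtain ⟨q, o, n, hq, ho, hn, h⟩ := hf
  obtain ⟨q', o', n', hq', ho', hn', h'⟩ := hg
  refine ⟨fun x => bif c x.1 then q x else q' x, fun x => bif c x.1 then o x else o' x,
    fun a => n a + n' a, by fun_prop, by fun_prop, hn.add hn', fun a m hm => ?_⟩
  dsimp only at hm ⊢
  rcases Bool.eq_false_or_eq_true (c a) with e | e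
  · simp only [e, cond_true]
    rw [h a m (by omega)]
    exact congrArg (fun l => o (a, l)) (oans_congr m fun _ _ => by simp only [e, cond_true])
  · simp only [e, cond_false]
    rw [h' a m (by omega)]
    exact congrArg (fun l => o' (a, l)) (oans_congr m fun _ _ => by simp only [e, cond_false])

theorem Flex.map [Inhabited β] {l : α → List β} {f : α × β → γ} (hl : PT l) (hf : Flex O f) :
    Flex O fun a => (l a).map fun x => f (a, x) := by
  obtain ⟨q, o, n, hq, ho, ⟨p, hp⟩, h⟩ := hf
  have hN : PT fun a : α => p.eval (2 * sz a + 1 + sz (l a)) + 1 := by fun_prop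
  have hNs : Small fun a : α => p.eval (2 * sz a + 1 + sz (l a)) + 1 := by fun_prop
  set N : α → ℕ := fun a : α => p.eval (2 * sz a + 1 + sz (l a)) + 1 with hNd
  have hN0 : ∀ a, 0 < N a := fun a => Nat.succ_pos _
  have hb : ∀ a, ∀ x ∈ l a, n (a, x) ≤ N a := fun a x hx => by
    have h1 := hp (a, x)
    have h2 := sz_le_of_mem hx
    have h3 : p.eval (sz (a, x)) ≤ p.eval (2 * sz a + 1 + sz (l a)) :=
      eval_mono p (by rw [sz_pair]; omega)
    simp only [hNd]
    omega
  clear_value N
  let Q : α × Str → Str := fun x =>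
    q ((x.1, (l x.1).getD (x.2.length / N x.1) default), x.2.drop (x.2.length / N x.1 * N x.1))
  have key : ∀ a i t, t ≤ N a →
      (oans O Q a (i * N a + t)).drop (i * N a) = oans O q (a, (l a).getD i default) t := by
    intro a i t
    induction t with
    | zero => intro _; exact List.drop_of_length_le (by rw [length_oans]; omega)
    | succ t ih =>
      intro ht
      have e : (i * N a + t) / N a = i := by
        rw [Nat.add_comm, Nat.add_mul_div_right _ _ (hN0 a), Nat.div_eq_of_lt (by omega),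
          Nat.zero_add]
      rw [← Nat.add_assoc, oans, oans, List.drop_append_of_le_length (by rw [length_oans]; omega),
        ih (by omega)]
      congr 3
      simp only [Q, length_oans, e]
      rw [ih (by omega)]
  refine ⟨Q, fun x => (List.range (l x.1).length).map fun i =>
      o ((x.1, (l x.1).getD i default), (x.2.drop (i * N x.1)).take (N x.1)),
    fun a => (l a).length * N a, by simp only [Q]; fun_prop, ?_, by fun_prop, fun a m hm => ?_⟩
  · exact PT.map (f := fun (x : α × Str) i =>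
      o ((x.1, (l x.1).getD i default), (x.2.drop (i * N x.1)).take (N x.1)))
      (by fun_prop) (by fun_prop)
  · dsimp only at hm ⊢
    apply List.ext_getElem (by simp)
    intro i h1 h2
    rw [List.length_map] at h1
    have h3 : i * N a + N a ≤ m := by nlinarith
    rw [List.getElem_map, List.getElem_map, List.getElem_range, List.take_drop, take_oans h3,
      key a i _ le_rfl, List.getD_eq_getElem _ _ h1]
    exact h _ _ (hb a _ (List.getElem_mem h1))

/-- The predicate `p` is decided in polynomial time with oracle `O`. -/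
@[fun_prop]
def Dec (O : Str → Bool) (p : α → Prop) : Prop :=
  ∃ b : α → Bool, Flex O b ∧ ∀ a, b a = true ↔ p a

namespace Dec

variable {p r : α → Prop}

theorem of_ptp (h : PTP p) : Dec O p := by
  obtain ⟨b, hb, h⟩ := h
  exact ⟨b, Flex.of_pt hb, h⟩

theorem congr (hp : Dec O p) (h : ∀ a, r a ↔ p a) : Dec O r := by
  obtain ⟨b, hb, e⟩ := hp
  exact ⟨b, hb, fun a => (e a).trans (h a).symm⟩

theorem comp {p : β → Prop} {g : α → β} (hp : Dec O p) (hg : PT g) : Dec O fun a => p (g a) := by
  obtain ⟨b, hb, e⟩ := hp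
  exact ⟨_, hb.comp hg, fun a => e _⟩

theorem not (hp : Dec O p) : Dec O fun a => ¬p a := by
  obtain ⟨b, hb, e⟩ := hp
  exact ⟨_, hb.post (g := fun x => !x.2) (by fun_prop), fun a => by simp [← e]⟩

theorem forall_mem [Inhabited β] {l : α → List β} {p : α → β → Prop} (hl : PT l)
    (hp : Dec O fun x : α × β => p x.1 x.2) : Dec O fun a => ∀ x ∈ l a, p a x := by
  obtain ⟨b, hb, e⟩ := hp
  refine ⟨_, (hb.map hl).post (g := fun x => x.2.all fun c => c) ?_, fun a => by simp [e]⟩
  exact PT.all (f := fun _ c => c) (by fun_prop) (by fun_prop)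

theorem exists_mem [Inhabited β] {l : α → List β} {p : α → β → Prop} (hl : PT l)
    (hp : Dec O fun x : α × β => p x.1 x.2) : Dec O fun a => ∃ x ∈ l a, p a x :=
  (forall_mem (p := fun a x => ¬p a x) hl hp.not).not.congr fun a => by simp

theorem and (hp : Dec O p) (hr : Dec O r) : Dec O fun a => p a ∧ r a := by
  obtain ⟨b, hb, e⟩ := hp
  obtain ⟨c, hc, e'⟩ := hr
  have h : Dec O fun x : α × Bool => (bif x.2 then b x.1 else c x.1) = true :=
    ⟨_, Flex.cond (by fun_prop) (hb.comp (by fun_prop)) (hc.comp (by fun_prop)), fun _ => Iff.rfl⟩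
  exact (forall_mem (p := fun a (x : Bool) => (bif x then b a else c a) = true)
    (PT.const [true, false]) h).congr fun a => by simp [e, e', and_comm]

theorem or (hp : Dec O p) (hr : Dec O r) : Dec O fun a => p a ∨ r a :=
  (hp.not.and hr.not).not.congr fun a => by tauto

theorem imp (hp : Dec O p) (hr : Dec O r) : Dec O fun a => p a → r a :=
  (hp.not.or hr).congr fun a => by tauto

theorem ite_polyTimeIn {inst : ∀ a, Decidable (p a)} {f g : α → β} (hp : Dec O p) (hf : PT f)
    (hg : PT g) : PolyTimeIn O fun a => if p a then f a else g a := by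
  obtain ⟨b, hb, e⟩ := hp
  have h := (hb.post (g := fun x => bif x.2 then f x.1 else g x.1) (by fun_prop)).polyTimeIn
  convert h using 2 with a
  by_cases ha : p a
  · simp [ha, (e a).2 ha]
  · have : b a = false := by simpa [← e] using ha
    simp [ha, this]

end Dec

/-- Field `i` of a string. -/
def fld (i : ℕ) (z : Str) : Str := (blocks z).getD i []

@[fun_prop] theorem pt_fld {i : α → ℕ} {z : α → Str} (hi : PT i) (hz : PT z) :
    PT fun a => fld (i a) (z a) := by
  unfold fld; fun_prop

/-- The string with the given fields. -/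
def tup (l : List Str) : Str := (l.map delimit).flatten

theorem blocks_tup (l : List Str) : blocks (tup l) = l := by
  have : ∀ acc : List Str, (tup l).foldl blockStep (false, [], acc) = (false, [], acc ++ l) := by
    induction l with
    | nil => simp [tup]
    | cons a l ih =>
      intro acc
      have e : tup (a :: l) = delimit a ++ tup l := rfl
      rw [e, foldl_blockStep_delimit, ih]; simp
  simp [blocks, this]

theorem fld_tup (i : ℕ) (l : List Str) : fld i (tup l) = l.getD i [] := by rw [fld, blocks_tup]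

@[simp] theorem length_tup_nil : (tup []).length = 0 := rfl

@[simp] theorem length_tup_cons (a : Str) (l : List Str) :
    (tup (a :: l)).length = 2 * a.length + 1 + (tup l).length := by
  have e : tup (a :: l) = delimit a ++ tup l := rfl
  rw [e, List.length_append, length_delimit]

theorem length_tup_le {l : List Str} {B : ℕ} (h : ∀ x ∈ l, x.length ≤ B) :
    (tup l).length ≤ l.length * (2 * B + 1) := by
  induction l with
  | nil => simp
  | cons x l ih =>
    have h1 := ih fun y hy => h y (by simp [hy])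
    have h2 := h x (by simp)
    simp; nlinarith

theorem length_le_of_mem_blocks {z x : Str} (h : x ∈ blocks z) : x.length ≤ z.length := by
  have key : ∀ (z : Str) (s : Bool × Str × List Str) (n : ℕ), s.2.1.length ≤ n →
      (∀ y ∈ s.2.2, y.length ≤ n) → ∀ y ∈ (z.foldl blockStep s).2.2, y.length ≤ n + z.length := by
    intro z
    induction z with
    | nil => intro s n _ h y hy; exact h y hy
    | cons b z ih =>
      rintro ⟨c, cur, acc⟩ n h1 h2 y hy
      dsimp only at h1 h2
      have := ih (blockStep (c, cur, acc) b) (n + 1) ?_ ?_ y hy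
      · simp only [List.length_cons]; omega
      · cases c <;> cases b <;> simp [blockStep] <;> omega
      · intro y hy
        cases c <;> cases b <;> simp [blockStep] at hy
        · rcases hy with hy | rfl
          · exact (h2 y hy).trans (by omega)
          · omega
        all_goals exact (h2 y hy).trans (by omega)
  simpa using key z (false, [], []) 0 (by simp) (by simp) x h

theorem length_fld_le (i : ℕ) (z : Str) : (fld i z).length ≤ z.length := by
  rw [fld, List.getD_eq_getElem?_getD]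
  rcases h : (blocks z)[i]? with _ | x
  · simp
  · exact length_le_of_mem_blocks (List.mem_of_getElem? h)

/-- The query map of machine `j` with clock `T`. -/
def mq (x : (Str × Str × ℕ) × Str) : Str :=
  decStr (urun (decCode (fld 0 x.1.1)) (bitEncode (x.1.2.1, x.2)) x.1.2.2)

/-- The output of machine `j` on `w` with `n` queries and clock `T`. -/
def mrun (O : Str → Bool) (j w : Str) (n T : ℕ) : Str :=
  decStr (urun (decCode (fld 1 j)) (bitEncode (w, oans O mq (j, w, T) n)) T)

/-- Machine `j` outputs `x` on `w`, and its clock is at most `s`. -/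
def Out (O : Str → Bool) (j w : Str) (s : ℕ) (x : Str) : Prop :=
  (w.length + 2) ^ (fld 2 j).length ≤ s ∧ (w.length + 2) ^ (fld 3 j).length ≤ s ∧
    mrun O j w ((w.length + 2) ^ (fld 2 j).length) ((w.length + 2) ^ (fld 3 j).length) = x

theorem Out.mono {j w x : Str} {s t : ℕ} (h : Out O j w s x) (hs : s ≤ t) : Out O j w t x :=
  ⟨h.1.trans hs, h.2.1.trans hs, h.2.2⟩

theorem flex_mrun {j w : α → Str} {n T : α → ℕ} (hj : PT j) (hw : PT w) (hn : PT n) (hT : PT T)
    (hn' : Small n) (hT' : Small T) : Flex O fun a => mrun O (j a) (w a) (n a) (T a) := by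
  refine ⟨fun x => decStr (urun (decCode (fld 0 (j x.1))) (bitEncode (w x.1, x.2)) (T x.1)),
    fun x => decStr (urun (decCode (fld 1 (j x.1))) (bitEncode (w x.1, x.2.take (n x.1))) (T x.1)),
    n, by fun_prop, by fun_prop, hn', fun a m hm => ?_⟩
  dsimp only
  rw [take_oans hm, mrun]
  exact congrArg (fun l => decStr (urun (decCode (fld 1 (j a))) (bitEncode (w a, l)) (T a)))
    (oans_congr _ fun _ _ => rfl)

theorem dec_out {j w x : α → Str} {s : α → ℕ} (hj : PT j) (hw : PT w) (hx : PT x) (hs : PT s)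
    (hs' : Small s) : Dec O fun a => Out O (j a) (w a) (s a) (x a) := by
  have h1 : Flex O fun a => mrun O (j a) (w a)
      (min (((w a).length + 2) ^ (fld 2 (j a)).length) (s a))
      (min (((w a).length + 2) ^ (fld 3 (j a)).length) (s a)) :=
    flex_mrun hj hw (by fun_prop) (by fun_prop) hs'.min hs'.min
  have h2 : Dec O fun a => mrun O (j a) (w a)
      (min (((w a).length + 2) ^ (fld 2 (j a)).length) (s a))
      (min (((w a).length + 2) ^ (fld 3 (j a)).length) (s a)) = x a :=
    ⟨_, h1.post (g := fun y => y.2 == x y.1) (by fun_prop), fun a => by simp⟩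
  have h3 : PTP fun a => ((w a).length + 2) ^ (fld 2 (j a)).length ≤ s a := by fun_prop
  have h4 : PTP fun a => ((w a).length + 2) ^ (fld 3 (j a)).length ≤ s a := by fun_prop
  refine ((Dec.of_ptp h3).and ((Dec.of_ptp h4).and h2)).congr fun a => ?_
  refine and_congr_right fun e1 => and_congr_right fun e2 => ?_
  rw [min_eq_left e1, min_eq_left e2]

theorem poly_le_pow (p : Polynomial ℕ) : ∃ c, ∀ n, p.eval n ≤ (n + 2) ^ c := by
  induction p using Polynomial.induction_on' with
  | add p q hp hq =>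
    obtain ⟨a, ha⟩ := hp
    obtain ⟨b, hb⟩ := hq
    refine ⟨a + b + 1, fun n => ?_⟩
    have h1 : (n + 2) ^ a ≤ (n + 2) ^ (a + b) := Nat.pow_le_pow_right (by omega) (by omega)
    have h2 : (n + 2) ^ b ≤ (n + 2) ^ (a + b) := Nat.pow_le_pow_right (by omega) (by omega)
    have := ha n
    have := hb n
    rw [Polynomial.eval_add, pow_succ]
    nlinarith
  | monomial k a =>
    refine ⟨a + k, fun n => ?_⟩
    rw [Polynomial.eval_monomial, pow_add]
    exact Nat.mul_le_mul (Nat.lt_two_pow_self.le.trans (Nat.pow_le_pow_left (by omega) _))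
      (Nat.pow_le_pow_left (by omega) _)

theorem pb_le_pow {f : Str → ℕ} (h : Small f) : ∃ c, ∀ w, f w ≤ (w.length + 2) ^ c := by
  obtain ⟨p, hp⟩ := h
  obtain ⟨c, hc⟩ := poly_le_pow (p.comp (3 * Polynomial.X))
  refine ⟨c, fun w => (hp w).trans ?_⟩
  simpa [Polynomial.eval_comp, sz_str] using hc w.length

/-- Universality. -/
theorem exists_machine {f : Str → Str} (h : PolyTimeIn O f) : ∃ (j : Str) (K : ℕ),
    (∀ w s x, Out O j w s x → x = f w) ∧ ∀ w s, (w.length + 2) ^ K ≤ s → Out O j w s (f w) := by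
  obtain ⟨q, o, n, hq, ho, hn, h⟩ := Flex.of_polyTimeIn h
  obtain ⟨e, p, he⟩ := exists_code hq.isPolyTime
  obtain ⟨e', p', he'⟩ := exists_code ho.isPolyTime
  obtain ⟨c, hc⟩ := pb_le_pow hn
  obtain ⟨d, hd⟩ := pb_le_pow (f := fun w : Str =>
    (p + p').eval (2 * sz w + 1 + 3 * (w.length + 2) ^ c)) (by fun_prop)
  let j := tup [bitEncode e, bitEncode e', List.replicate c true, List.replicate d true]
  have j0 : decCode (fld 0 j) = e := by simp [j, fld_tup, decCode_enc]
  have j1 : decCode (fld 1 j) = e' := by simp [j, fld_tup, decCode_enc]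
  have j2 : (fld 2 j).length = c := by simp [j, fld_tup]
  have j3 : (fld 3 j).length = d := by simp [j, fld_tup]
  have key : ∀ w : Str, mrun O j w ((w.length + 2) ^ c) ((w.length + 2) ^ d) = f w := by
    intro w
    have b : ∀ l : Str, l.length ≤ (w.length + 2) ^ c →
        p.eval (sz (w, l)) ≤ (w.length + 2) ^ d ∧ p'.eval (sz (w, l)) ≤ (w.length + 2) ^ d := by
      intro l hl
      have h1 : sz (w, l) ≤ 2 * sz w + 1 + 3 * (w.length + 2) ^ c := by
        rw [sz_pair, sz_str l]; omega
      have h2 := eval_mono p h1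
      have h3 := eval_mono p' h1
      have h4 := hd w
      rw [Polynomial.eval_add] at h4
      omega
    have e1 : oans O mq (j, w, (w.length + 2) ^ d) ((w.length + 2) ^ c) =
        oans O q w ((w.length + 2) ^ c) := by
      refine oans_congr _ fun l hl => ?_
      simp only [mq]
      rw [j0, he (w, l) _ (b l hl.le).1, decStr_enc]
    rw [mrun, e1, j1, he' (w, _) _ (b _ (length_oans _).le).2, decStr_enc]
    exact (h w _ (hc w)).symm
  refine ⟨j, c + d, fun w s x hx => ?_, fun w s hs => ?_⟩
  · rw [← hx.2.2, j2, j3, key]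
  · refine ⟨?_, ?_, ?_⟩
    · rw [j2]; exact (Nat.pow_le_pow_right (by omega) (by omega)).trans hs
    · rw [j3]; exact (Nat.pow_le_pow_right (by omega) (by omega)).trans hs
    · rw [j2, j3, key]

end Pool.Agent.P.MP_435dae_lc.Opt
end

-- part Pool.Agent.P.MP_435dae_lc.OptNum
section

/-! Scales, admission of machines, clean blocks and the layering lemma. -/

namespace Pool.Agent.P.MP_435dae_lc.Opt

open Function N487b59b3 N68a2faeb Pool.Agent.Lib.PolyTime

/-- The scale `2 ^ 2 ^ k`. -/
def ex (k : ℕ) : ℕ := 2 ^ 2 ^ k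

/-- Binary logarithm. -/
abbrev lg (n : ℕ) : ℕ := Nat.log 2 n

/-- Double logarithm. -/
def kk (n : ℕ) : ℕ := lg (lg n)

theorem ex_succ (k : ℕ) : ex (k + 1) = ex k * ex k := by
  rw [ex, ex, pow_succ, pow_mul, pow_two]

theorem ex_add (k c : ℕ) : ex (k + c) = ex k ^ 2 ^ c := by
  rw [ex, ex, pow_add, pow_mul]

theorem ex_mono {a b : ℕ} (h : a ≤ b) : ex a ≤ ex b :=
  Nat.pow_le_pow_right (by omega) (Nat.pow_le_pow_right (by omega) h)

theorem lt_ex (k : ℕ) : k + 1 < ex k :=
  lt_of_le_of_lt (Nat.succ_le_of_lt Nat.lt_two_pow_self) Nat.lt_two_pow_self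

theorem two_le_ex (k : ℕ) : 2 ≤ ex k := by have := lt_ex k; omega

theorem ex_add_three (k : ℕ) : 64 * ex (k + 1) ≤ ex (k + 3) := by
  have h0 : 4 ≤ ex (k + 1) := ex_mono (a := 1) (by omega)
  have h1 : 16 ≤ ex (k + 2) := ex_mono (a := 2) (by omega)
  have h2 := ex_succ (k + 1)
  have h3 := ex_succ (k + 2)
  simp only [Nat.add_assoc, Nat.reduceAdd] at h2 h3
  nlinarith

theorem kk_mono {a b : ℕ} (h : a ≤ b) : kk a ≤ kk b := Nat.log_mono_right (Nat.log_mono_right h)

theorem kk_ex (k : ℕ) : kk (ex k) = k := by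
  rw [kk, ex, lg, lg, Nat.log_pow (by omega), Nat.log_pow (by omega)]

theorem lt_ex_kk (n : ℕ) : n < ex (kk n + 1) := by
  have h1 : n < 2 ^ (lg n + 1) := Nat.lt_pow_succ_log_self (by omega) n
  have h2 : lg n < 2 ^ (kk n + 1) := Nat.lt_pow_succ_log_self (by omega) _
  exact h1.trans_le (Nat.pow_le_pow_right (by omega) h2)

theorem ex_kk_le {n : ℕ} (h : 2 ≤ n) : ex (kk n) ≤ n := by
  have h1 : lg n ≠ 0 := by
    have : 1 ≤ lg n := Nat.le_log_of_pow_le (by omega) (by simpa using h)
    omega
  exact (Nat.pow_le_pow_right (by omega) (Nat.pow_log_le_self 2 h1)).trans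
    (Nat.pow_log_le_self 2 (by omega))

theorem ex_kk_le' (n : ℕ) : ex (kk n) ≤ n + 2 := by
  rcases le_or_gt 2 n with h | h
  · exact (ex_kk_le h).trans (by omega)
  · interval_cases n <;> simp [kk, ex]

theorem ex_le_of_le_kk {n k : ℕ} (hk : 1 ≤ k) (h : k ≤ kk n) : ex k ≤ n := by
  refine (ex_mono h).trans (ex_kk_le ?_)
  by_contra hn
  have h1 : kk n ≤ kk 1 := kk_mono (by omega)
  have h2 : kk 1 = 0 := by simp [kk]
  omega

theorem kk_eq {n k : ℕ} (h1 : ex k ≤ n) (h2 : n < ex (k + 1)) : kk n = k := by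
  have h3 := kk_mono h1
  rw [kk_ex] at h3
  by_contra h
  have := ex_le_of_le_kk (n := n) (k := k + 1) (by omega) (by omega)
  omega

theorem kk_lt {n : ℕ} (h : n ≠ 0) : kk n < n :=
  (Nat.log_le_self 2 _).trans_lt (Nat.log_lt_self 2 h)

theorem iter_kk_le (n i : ℕ) : kk^[i] n ≤ n - i := by
  induction i with
  | zero => simp
  | succ i ih =>
    rw [iterate_succ_apply']
    by_cases h : kk^[i] n = 0
    · simp [h, kk]
    · have := kk_lt h; omega

theorem iter_kk_mono (i : ℕ) {a b : ℕ} (h : a ≤ b) : kk^[i] a ≤ kk^[i] b :=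
  Monotone.iterate (f := kk) (fun _ _ h => kk_mono h) i h

theorem iter_kk_ex (i n : ℕ) : kk^[i] (ex^[i] n) = n :=
  LeftInverse.iterate kk_ex i n

theorem lg_eq (n : ℕ) : lg n = n.size - 1 := by
  rcases Nat.eq_zero_or_pos n with rfl | h
  · simp
  · have h1 : n < 2 ^ n.size := Nat.lt_size_self n
    have h2 : 0 < n.size := Nat.size_pos.2 h
    have h3 : 2 ^ (n.size - 1) ≤ n := Nat.lt_size.1 (by omega)
    exact Nat.log_eq_of_pow_le_of_lt_pow h3 (by rwa [Nat.sub_add_cancel h2])

section

variable {α : Type} [N487b59b3 α]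

@[fun_prop] theorem pt_lg {n : α → ℕ} (hn : PT n) : PT fun a => Nat.log 2 (n a) :=
  (show PT fun a => (n a).size - 1 by fun_prop).congr fun a => lg_eq _

@[fun_prop] theorem small_lg {n : α → ℕ} (hn : PT n) : Small fun a => Nat.log 2 (n a) :=
  (Small.size hn).mono fun a => by have := lg_eq (n a); simp only [lg] at this; omega

@[fun_prop] theorem pt_kk {n : α → ℕ} (hn : PT n) : PT fun a => kk (n a) := by
  unfold kk; fun_prop

theorem small_two_pow_lg {n : α → ℕ} (hn : Small n) : Small fun a => 2 ^ lg (n a) :=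
  (hn.add (Small.const 1)).mono fun a => by
    rcases Nat.eq_zero_or_pos (n a) with h | h
    · simp [h]
    · exact (Nat.pow_log_le_self 2 h.ne').trans (by omega)

/-- The scale, cut off at `s`. -/
def cex (s k : ℕ) : ℕ := min s (ex k)

theorem cex_eq (s k : ℕ) : cex s k = min s (2 ^ 2 ^ min k (lg (lg s) + 1)) := by
  rcases le_total k (lg (lg s) + 1) with h | h
  · rw [min_eq_left h]; rfl
  · have h1 := lt_ex_kk s
    have h2 := ex_mono h
    rw [min_eq_right h, cex, min_eq_left (h1.le.trans h2)]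
    exact (min_eq_left h1.le).symm

@[fun_prop] theorem pt_cex {s k : α → ℕ} (hs : PT s) (hk : PT k) : PT fun a => cex (s a) (k a) := by
  have h1 : Small fun a => min (k a) (lg (lg (s a)) + 1) := by fun_prop
  have h2 : Small fun a => 2 ^ min (k a) (lg (lg (s a)) + 1) :=
    ((small_two_pow_lg (small_lg hs)).mul (Small.const 2)).mono fun a => by
      rw [← pow_succ]; exact Nat.pow_le_pow_right (by omega) (min_le_right _ _)
  have h3 : PT fun a => 2 ^ min (k a) (lg (lg (s a)) + 1) :=
    PT.pow (PT.const 2) (by fun_prop) h1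
  exact (PT.min hs (PT.pow (PT.const 2) h3 h2)).congr fun a => cex_eq _ _

@[fun_prop] theorem small_cex {s k : α → ℕ} (hs : Small s) : Small fun a => cex (s a) (k a) :=
  hs.mono fun _ => min_le_left _ _

theorem ptp_le_ex {s k : α → ℕ} (hs : PT s) (hk : PT k) : PTP fun a => s a ≤ ex (k a) :=
  (show PTP fun a => cex (s a) (k a) = s a by fun_prop).congr fun a => by simp [cex]

theorem ptp_ex_le {s k : α → ℕ} (hs : PT s) (hk : PT k) : PTP fun a => ex (k a) ≤ s a :=
  (ptp_le_ex (s := fun a => s a + 1) (by fun_prop) hk).not.congr fun a => by omega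

/-- A list of all strings of length at most `N`. -/
def upTo (N : ℕ) : List Str := (List.range (N + 1)).flatMap fun i => (allStr N).map (List.take i)

theorem mem_upTo {N : ℕ} {x : Str} : x ∈ upTo N ↔ x.length ≤ N := by
  simp only [upTo, List.mem_flatMap, List.mem_range, List.mem_map, mem_allStr]
  constructor
  · rintro ⟨i, _, y, hy, rfl⟩
    simp [hy]
  · intro h
    exact ⟨x.length, by omega, x ++ List.replicate (N - x.length) true, by simp; omega, by simp⟩

theorem length_upTo (N : ℕ) : (upTo N).length = (N + 1) * 2 ^ N := by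
  simp [upTo, List.length_flatMap, length_allStr]

theorem pt_upTo {n : α → ℕ} (hn : PT n) (hs : Small n) : PT fun a => upTo (lg (n a)) := by
  have h1 : PT fun a => allStr (lg (n a)) := PT.allStr (pt_lg hn) (small_two_pow_lg hs)
  exact PT.flatMap (f := fun a i => (allStr (lg (n a))).map (List.take i)) (by fun_prop)
    (PT.map (f := fun (p : α × ℕ) x => List.take p.2 x) (h1.comp (by fun_prop)) (by fun_prop))

/-- Machine `j` is admitted at length `n`. -/
def adm (j : Str) (n : ℕ) : Prop := kk^[4 ^ j.length] n ≠ 0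

theorem adm.mono {j : Str} {a b : ℕ} (h : adm j a) (hab : a ≤ b) : adm j b := by
  have := iter_kk_mono (4 ^ j.length) hab
  unfold adm at h ⊢
  omega

theorem adm.lt {j : Str} {n : ℕ} (h : adm j n) : 4 ^ j.length < n := by
  have := iter_kk_le n (4 ^ j.length)
  unfold adm at h
  omega

theorem adm.lt_add {j : Str} {i n : ℕ} (h : adm j (ex^[i] n)) : 4 ^ j.length < i + n := by
  by_contra hn
  obtain ⟨d, hd⟩ : ∃ d, 4 ^ j.length = d + i := ⟨4 ^ j.length - i, by omega⟩
  have := iter_kk_le n d
  rw [adm, hd, iterate_add_apply, iter_kk_ex] at h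
  omega

theorem adm.le_lg {j : Str} {n : ℕ} (h : adm j n) : j.length ≤ lg n :=
  Nat.le_log_of_pow_le (by omega) ((Nat.pow_le_pow_left (by omega) _).trans h.lt.le)

theorem exists_adm (j : Str) : ∃ n, adm j n :=
  ⟨ex^[4 ^ j.length] 1, by rw [adm, iter_kk_ex]; omega⟩

theorem ptp_adm {j : α → Str} {n : α → ℕ} (hj : PT j) (hn : PT n) (hs : Small n) :
    PTP fun a => adm (j a) (n a) := by
  have h1 : PT fun a => kk^[min (4 ^ (j a).length) (n a)] (n a) :=
    PT.iterate_nat_growth (F := fun _ m => kk m) (by fun_prop) hs.min hn (by fun_prop)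
      (fun _ => 0) (Small.const 0) fun _ m => by
        refine sz_mono ?_
        exact (Nat.log_le_self 2 _).trans (Nat.log_le_self 2 _)
  refine (PTP.ne h1 (PT.const 0)).congr fun a => ?_
  rcases le_total (4 ^ (j a).length) (n a) with h | h
  · rw [min_eq_left h]; rfl
  · have h2 := iter_kk_le (n a) (n a)
    have h3 := iter_kk_le (n a) (4 ^ (j a).length)
    rw [min_eq_right h, adm]
    omega

end

/-- The scale index of block `t`. -/
def blk (k₀ t : ℕ) : ℕ := ex^[2 * t] k₀

theorem blk_succ (k₀ t : ℕ) : blk k₀ (t + 1) = ex (ex (blk k₀ t)) := by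
  rw [blk, Nat.mul_succ, iterate_succ_apply', iterate_succ_apply', blk]

theorem blk_mono (k₀ : ℕ) : Monotone (blk k₀) := monotone_nat_of_le_succ fun t => by
  have h1 := lt_ex (blk k₀ t)
  have h2 := lt_ex (ex (blk k₀ t))
  rw [blk_succ]; omega

/-- Some block is clean for finitely many languages at once. -/
theorem exists_clean (I k₀ : ℕ) (P : ℕ → Str → ℕ → Prop)
    (hP : ∀ i j a b, a ≤ b → P i j a → P i j b) :
    ∃ t, ∀ i < I, ∀ j, adm j (ex (blk k₀ (t + 1))) → P i j (ex (blk k₀ (t + 1))) →
      P i j (ex (blk k₀ t)) := by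
  classical
  by_contra hc
  push Not at hc
  choose i hi j h1 h2 h3 using hc
  set H := 2 * I + 2 + k₀ with hH
  have hH1 : k₀ + 1 < 4 ^ H :=
    lt_of_lt_of_le (by omega) ((Nat.lt_pow_self (a := 4) (n := H) (by omega)).le)
  have hlen : ∀ t < 4 ^ H, (j t).length ≤ H := by
    intro t ht
    have e : ex (blk k₀ (t + 1)) = ex^[2 * (t + 1) + 1] k₀ := by rw [iterate_succ_apply', blk]
    have h4 := h1 t
    rw [e] at h4
    have h5 := h4.lt_add
    have h6 : 4 ^ (j t).length < 4 ^ (H + 1) := by rw [pow_succ]; omega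
    have := (Nat.pow_lt_pow_iff_right (by omega)).1 h6
    omega
  have hinj : ∀ s t, s < t → (i s, j s) ≠ (i t, j t) := by
    intro s t hst e
    obtain ⟨e1, e2⟩ := Prod.mk.inj e
    refine h3 t (hP _ _ _ _ (ex_mono (blk_mono k₀ (show s + 1 ≤ t from hst))) ?_)
    rw [← e1, ← e2]
    exact h2 s
  have hcard := Finset.card_le_card_of_injOn (s := Finset.range (4 ^ H))
    (t := Finset.range I ×ˢ (upTo H).toFinset) (fun t => (i t, j t))
    (fun t ht => by
      simp only [Finset.coe_range, Set.mem_Iio] at ht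
      simp [hi t, mem_upTo, hlen t ht])
    (fun s _ t _ e => by
      rcases lt_trichotomy s t with h | h | h
      · exact absurd e (hinj s t h)
      · exact h
      · exact absurd e.symm (hinj t s h))
  rw [Finset.card_product, Finset.card_range, Finset.card_range] at hcard
  have h7 := List.toFinset_card_le (upTo H)
  rw [length_upTo] at h7
  have h8 : I * (H + 1) < 2 ^ H := by
    have a1 : I + 1 ≤ 2 ^ I := Nat.lt_two_pow_self
    have a2 : k₀ + 1 ≤ 2 ^ k₀ := Nat.lt_two_pow_self
    have a3 : 2 ^ H = 2 ^ I * 2 ^ I * 4 * 2 ^ k₀ := by rw [hH]; ring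
    have a4 : (I + 1) * (I + 1) * 4 * (k₀ + 1) ≤ 2 ^ I * 2 ^ I * 4 * 2 ^ k₀ := by gcongr
    rw [a3, hH]
    nlinarith [Nat.zero_le (I * I * k₀), Nat.zero_le (I * k₀), Nat.zero_le (I * I)]
  have h9 : 4 ^ H = 2 ^ H * 2 ^ H := by rw [← mul_pow]; rfl
  have h10 : I * ((H + 1) * 2 ^ H) < 2 ^ H * 2 ^ H := by
    rw [← Nat.mul_assoc]
    exact Nat.mul_lt_mul_of_pos_right h8 (by positivity)
  have h11 : I * (upTo H).toFinset.card ≤ I * ((H + 1) * 2 ^ H) := Nat.mul_le_mul_left _ h7
  omega

/-- Admissible address rows. -/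
def Row (r m : ℕ) (a : List Str) : Prop := a.length = r ∧ ∀ u ∈ a, u.length ≤ m

/-- The layering lemma. -/
theorem layering (r m : ℕ) (η : List Str → ℕ → Prop)
    (hF : ∀ a, Row r m a → (∀ k < r, (a.getD k []).length < m → ∀ b : Bool, ∃ a', Row r m a' ∧
      a'.getD k [] = a.getD k [] ++ [b] ∧ a'.drop (k + 1) = a.drop (k + 1) ∧ η a' k) →
      ∃ k < r, η a k) :
    ∃ a k, Row r m a ∧ k < r ∧ a.getD k [] = [] ∧ η a k := by
  by_contra hc
  have claim : ∀ e ≤ r, ∀ a, Row r m a →
      (∀ k < r, e ≤ k → (a.getD k []).length < m → ∀ b : Bool, ∃ a', Row r m a' ∧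
        a'.getD k [] = a.getD k [] ++ [b] ∧ a'.drop (k + 1) = a.drop (k + 1) ∧ η a' k) →
      ∃ k < r, e ≤ k ∧ ∃ a', Row r m a' ∧ a'.drop k = a.drop k ∧ η a' k := by
    intro e
    induction e with
    | zero =>
      intro _ a ha h
      obtain ⟨k, hk, h⟩ := hF a ha fun k hk => h k hk (Nat.zero_le _)
      exact ⟨k, hk, Nat.zero_le _, a, ha, rfl, h⟩
    | succ e ih =>
      intro he a ha h
      by_contra hn
      have hset : ∀ u : Str, u.length ≤ m → Row r m (a.set e u) := fun u hu =>
        ⟨by rw [List.length_set, ha.1], fun v hv => by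
          rcases List.mem_or_eq_of_mem_set hv with h | rfl
          · exact ha.2 v h
          · exact hu⟩
      have hget : ∀ u : Str, (a.set e u).getD e [] = u := fun u => by
        rw [List.getD_eq_getElem _ _ (by rw [List.length_set, ha.1]; omega), List.getElem_set_self]
      have hdrop : ∀ (u : Str) k, e < k → (a.set e u).drop k = a.drop k := fun u k hk =>
        List.drop_set_of_lt hk
      have hgd : ∀ (a' a'' : List Str) k, a'.drop k = a''.drop k →
          a'.getD k [] = a''.getD k [] ∧ a'.drop (k + 1) = a''.drop (k + 1) := by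
        intro a' a'' k e
        refine ⟨?_, by rw [← List.drop_drop, ← List.drop_drop, e]⟩
        rw [List.getD_eq_getElem?_getD, List.getD_eq_getElem?_getD, ← List.head?_drop,
          ← List.head?_drop, e]
      have inner : ∀ n (u : Str), u.length + n = m → ∃ a', Row r m a' ∧ a'.getD e [] = u ∧
          a'.drop (e + 1) = a.drop (e + 1) ∧ η a' e := by
        intro n
        induction n using Nat.strong_induction_on with
        | _ n ihn =>
          intro u hu
          obtain ⟨k, hk, hek, a', h1, h2, h3⟩ := ih (by omega) (a.set e u) (hset u (by omega)) (by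
            intro k hk hek hl b
            rcases hek.eq_or_lt with rfl | hek
            · rw [hget] at hl ⊢
              rw [hdrop u _ (by omega)]
              exact ihn (n - 1) (by omega) (u ++ [b]) (by simp; omega)
            · have e1 := hgd _ _ k (hdrop u k hek)
              rw [e1.1] at hl ⊢
              rw [e1.2]
              exact h k hk hek hl b)
          rcases hek.eq_or_lt with rfl | hek
          · have e1 := hgd _ _ _ h2
            exact ⟨a', h1, by rw [e1.1, hget], by rw [e1.2, hdrop u _ (by omega)], h3⟩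
          · exact absurd ⟨k, hk, hek, a', h1, by rw [h2, hdrop u k hek], h3⟩ hn
      obtain ⟨a', h1, h2, -, h3⟩ := inner m [] (by simp)
      exact hc ⟨a', e, h1, by omega, h2, h3⟩
  obtain ⟨k, h1, h2, -⟩ := claim r le_rfl (List.replicate r [])
    ⟨by simp, fun u hu => by simp [List.eq_of_mem_replicate hu]⟩ fun k h1 h2 => by omega
  omega

end Pool.Agent.P.MP_435dae_lc.Opt
end

-- part Pool.Agent.P.MP_435dae_lc.OptLang
section

/-! Self-trusting languages and their optimal proof systems. -/

namespace Pool.Agent.P.MP_435dae_lc.Opt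

open Function N487b59b3 N68a2faeb Pool.Agent.Lib.PolyTime

/-- The parameter list of a string. -/
def PP (z : Str) : List Str := blocks (fld 0 z)

/-- The machines trusted at a string. -/
def JJ (z : Str) : List Str := blocks (fld 0 ((PP z).headD []))

/-- The top level of a string. -/
def tp (z : Str) : ℕ := min (fld 1 ((PP z).headD [])).length (lg (kk z.length))

theorem length_le_of_mem_JJ {j z : Str} (h : j ∈ JJ z) : j.length ≤ z.length := by
  have h1 := length_le_of_mem_blocks h
  have h2 := length_fld_le 0 ((PP z).headD [])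
  have h3 := length_fld_le 0 z
  have h4 : ((PP z).headD []).length ≤ (fld 0 z).length := by
    rcases e : PP z with _ | ⟨a, l⟩
    · simp
    · exact length_le_of_mem_blocks (show a ∈ PP z by simp [e])
  omega

variable {α : Type} [N487b59b3 α]

@[fun_prop] theorem pt_PP {z : α → Str} (hz : PT z) : PT fun a => PP (z a) := by
  unfold PP; fun_prop

@[fun_prop] theorem pt_JJ {z : α → Str} (hz : PT z) : PT fun a => JJ (z a) := by
  unfold JJ; fun_prop

@[fun_prop] theorem pt_tp {z : α → Str} (hz : PT z) : PT fun a => tp (z a) := by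
  unfold tp; fun_prop

@[fun_prop] theorem small_tp {z : α → Str} (hz : PT z) : Small fun a => tp (z a) :=
  Small.min (small_lg (by fun_prop))

variable (O : Str → Bool)

/-- Machine `j` accepts `x` within `s`. -/
def Acc (j x : Str) (s : ℕ) : Prop := ∃ v : Str, v.length ≤ s ∧ Out O j v s x

/-- A trusted machine accepts `x` at level `l`. -/
def A (l : ℕ) (x : Str) : Prop := ∃ j ∈ JJ x, Acc O j x (ex (kk x.length + l))

/-- `ω` witnesses acceptance of its first field at level `l`. -/
def Wit (ω : Str) (l : ℕ) : Prop :=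
  fld 1 ω ∈ JJ (fld 0 ω) ∧ (fld 2 ω).length ≤ (fld 3 ω).length ∧
    (fld 3 ω).length ≤ ex (kk (fld 0 ω).length + l) ∧
    Out O (fld 1 ω) (fld 2 ω) (fld 3 ω).length (fld 0 ω)

variable {O}

theorem Acc.mono {j x : Str} {s t : ℕ} (h : Acc O j x s) (hs : s ≤ t) : Acc O j x t := by
  obtain ⟨v, h1, h2⟩ := h
  exact ⟨v, h1.trans hs, h2.mono hs⟩

theorem A.mono {x : Str} {l m : ℕ} (h : A O l x) (hl : l ≤ m) : A O m x := by
  obtain ⟨j, h1, h2⟩ := h
  exact ⟨j, h1, h2.mono (ex_mono (by omega))⟩

theorem Wit.sound {ω : Str} {l : ℕ} (h : Wit O ω l) : A O l (fld 0 ω) :=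
  ⟨_, h.1, _, h.2.1.trans h.2.2.1, h.2.2.2.mono h.2.2.1⟩

theorem A.wit {y : Str} {l : ℕ} (h : A O l y) :
    ∃ ω, fld 0 ω = y ∧ Wit O ω l ∧ ω.length ≤ 8 * ex (kk y.length + l + 1) := by
  obtain ⟨j, h1, v, h2, h3⟩ := h
  refine ⟨tup [y, j, v, List.replicate (ex (kk y.length + l)) true], by simp [fld_tup], ?_, ?_⟩
  · simp [Wit, fld_tup, h1, h2, h3]
  · have a1 := length_le_of_mem_JJ h1
    have a2 := lt_ex_kk y.length
    have a3 : ex (kk y.length + 1) ≤ ex (kk y.length + l + 1) := ex_mono (by omega)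
    have a4 : ex (kk y.length + l) ≤ ex (kk y.length + l + 1) := ex_mono (by omega)
    simp
    omega

theorem dec_wit {ω : α → Str} {l : α → ℕ} (hω : PT ω) (hl : PT l) :
    Dec O fun a => Wit O (ω a) (l a) :=
  (Dec.of_ptp (by fun_prop)).and ((Dec.of_ptp (by fun_prop)).and
    ((Dec.of_ptp (ptp_le_ex (by fun_prop) (by fun_prop))).and
      (dec_out (by fun_prop) (by fun_prop) (by fun_prop) (by fun_prop) (by fun_prop))))

variable (O) (R : Str → ℕ → Str → Prop) (g : ℕ)

/-- The check at level `l`. -/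
def C (l : ℕ) (x : Str) : Prop := ∃ w : Str, w.length ≤ ex (kk x.length + l + g) ∧ R x l w

/-- The language without the validity test. -/
def L0 (x : Str) : Prop := ∃ l ≤ tp x, (∀ i ≤ l, C R g i x) ∧ (l = tp x ∨ A O l x)

/-- Machine `j` is caught on a string much shorter than `n`. -/
def Disc (j : Str) (n : ℕ) : Prop :=
  ∃ y : Str, ex (kk y.length + tp y + g + 1) ≤ lg n ∧ y ≠ [] ∧
    Acc O j y (ex (kk y.length + tp y)) ∧ ¬L0 O R g y

/-- Every admitted machine is trusted or caught. -/
def Valid (x : Str) : Prop := ∀ j, adm j x.length → j ∈ JJ x ∨ Disc O R g j x.length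

open Classical in
/-- The language. -/
noncomputable def LL (x : Str) : Bool := decide (x = [] ∨ (L0 O R g x ∧ Valid O R g x))

/-- Correct proofs. -/
def Ok (π : Str) : Prop :=
  (fld 1 π).length ≤ tp (fld 0 π) ∧
    (∀ i ∈ List.range ((fld 1 π).length + 1),
      (fld i (fld 2 π)).length ≤ ex (kk (fld 0 π).length + i + g) ∧
        R (fld 0 π) i (fld i (fld 2 π))) ∧
    ((fld 1 π).length = tp (fld 0 π) ∨
      (fld 0 (fld 3 π) = fld 0 π ∧ Wit O (fld 3 π) (fld 1 π).length)) ∧
    Valid O R g (fld 0 π)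

open Classical in
/-- The proof system. -/
noncomputable def ff (π : Str) : Str := if Ok O R g π then fld 0 π else []

variable {O R g}

theorem Disc.mono {j : Str} {a b : ℕ} (h : Disc O R g j a) (hab : a ≤ b) : Disc O R g j b := by
  obtain ⟨y, h1, h2⟩ := h
  exact ⟨y, h1.trans (Nat.log_mono_right hab), h2⟩

theorem LL_iff {x : Str} : LL O R g x = true ↔ x = [] ∨ (L0 O R g x ∧ Valid O R g x) := by
  simp [LL]

section

/-- Acceptance within a scale below `N`. -/
def AccB (O : Str → Bool) (N : ℕ) (j x : Str) (k : ℕ) : Prop :=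
  ∃ v ∈ upTo N, v.length ≤ cex N k ∧ Out O j v (cex N k) x

theorem accB_iff {N k : ℕ} {j x : Str} (h : ex k ≤ N) : AccB O N j x k ↔ Acc O j x (ex k) := by
  simp only [AccB, Acc, cex, min_eq_right h, mem_upTo]
  exact exists_congr fun v => ⟨fun h => h.2, fun h' => ⟨h'.1.trans h, h'⟩⟩

theorem dec_accB {n k : α → ℕ} {j x : α → Str} (hn : PT n) (hs : Small n) (hj : PT j)
    (hx : PT x) (hk : PT k) : Dec O fun a => AccB O (lg (n a)) (j a) (x a) (k a) :=
  Dec.exists_mem (p := fun a (v : Str) => v.length ≤ cex (lg (n a)) (k a) ∧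
      Out O (j a) v (cex (lg (n a)) (k a)) (x a)) (pt_upTo hn hs)
    ((Dec.of_ptp (by fun_prop)).and
      (dec_out (by fun_prop) (by fun_prop) (by fun_prop) (by fun_prop) (by fun_prop)))

variable (hR : Dec O fun p : Str × ℕ × Str => R p.1 p.2.1 p.2.2)
include hR

theorem dec_R {x w : α → Str} {l : α → ℕ} (hx : PT x) (hl : PT l) (hw : PT w) :
    Dec O fun a => R (x a) (l a) (w a) :=
  hR.comp (g := fun a => (x a, l a, w a)) (by fun_prop)

theorem dec_disc {j : α → Str} {n : α → ℕ} (hj : PT j) (hn : PT n) (hs : Small n) :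
    Dec O fun a => Disc O R g (j a) (n a) := by
  have h1 : Dec O fun p : (α × Str) × ℕ => ∀ i ∈ List.range (tp p.1.2 + 1), i ≤ p.2 →
      ∃ w ∈ upTo (lg (n p.1.1)), w.length ≤ ex (kk p.1.2.length + i + g) ∧ R p.1.2 i w :=
    Dec.forall_mem (p := fun (p : (α × Str) × ℕ) i => i ≤ p.2 →
        ∃ w ∈ upTo (lg (n p.1.1)), w.length ≤ ex (kk p.1.2.length + i + g) ∧ R p.1.2 i w)
      (by fun_prop) ((Dec.of_ptp (by fun_prop)).imp
        (Dec.exists_mem (p := fun (p : ((α × Str) × ℕ) × ℕ) (w : Str) =>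
            w.length ≤ ex (kk p.1.1.2.length + p.2 + g) ∧ R p.1.1.2 p.2 w)
          (pt_upTo (by fun_prop) (by fun_prop))
          ((Dec.of_ptp (ptp_le_ex (by fun_prop) (by fun_prop))).and
            (dec_R hR (by fun_prop) (by fun_prop) (by fun_prop)))))
  have h2 : Dec O fun p : (α × Str) × ℕ =>
      ∃ i ∈ JJ p.1.2, AccB O (lg (n p.1.1)) i p.1.2 (kk p.1.2.length + p.2) :=
    Dec.exists_mem (p := fun (p : (α × Str) × ℕ) (i : Str) =>
        AccB O (lg (n p.1.1)) i p.1.2 (kk p.1.2.length + p.2)) (by fun_prop)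
      (dec_accB (by fun_prop) (by fun_prop) (by fun_prop) (by fun_prop) (by fun_prop))
  have h3 : Dec O fun p : α × Str => ∃ l ∈ List.range (tp p.2 + 1),
      (∀ i ∈ List.range (tp p.2 + 1), i ≤ l →
        ∃ w ∈ upTo (lg (n p.1)), w.length ≤ ex (kk p.2.length + i + g) ∧ R p.2 i w) ∧
      (l = tp p.2 ∨ ∃ i ∈ JJ p.2, AccB O (lg (n p.1)) i p.2 (kk p.2.length + l)) :=
    Dec.exists_mem (p := fun (p : α × Str) (l : ℕ) =>
      (∀ i ∈ List.range (tp p.2 + 1), i ≤ l →
        ∃ w ∈ upTo (lg (n p.1)), w.length ≤ ex (kk p.2.length + i + g) ∧ R p.2 i w) ∧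
      (l = tp p.2 ∨ ∃ i ∈ JJ p.2, AccB O (lg (n p.1)) i p.2 (kk p.2.length + l)))
      (by fun_prop) (h1.and ((Dec.of_ptp (by fun_prop)).or h2))
  have h4 : Dec O fun p : α × Str => ex (kk p.2.length + tp p.2 + g + 1) ≤ lg (n p.1) :=
    Dec.of_ptp (ptp_ex_le (by fun_prop) (by fun_prop))
  have h5 : Dec O fun p : α × Str => AccB O (lg (n p.1)) (j p.1) p.2 (kk p.2.length + tp p.2) :=
    dec_accB (by fun_prop) (by fun_prop) (by fun_prop) (by fun_prop) (by fun_prop)
  have h6 : Dec O fun p : α × Str => p.2 ≠ [] := Dec.of_ptp (by fun_prop)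
  refine (Dec.exists_mem (pt_upTo hn hs)
    (p := fun a (y : Str) => ex (kk y.length + tp y + g + 1) ≤ lg (n a) ∧ y ≠ [] ∧
      Acc O (j a) y (ex (kk y.length + tp y)) ∧ ¬L0 O R g y)
    ((h4.and (h6.and (h5.and h3.not))).congr fun p => ?_)).congr fun a => ?_
  · refine and_congr_right fun hb => and_congr_right fun _ => ?_
    have hk : ∀ i ≤ tp p.2, ex (kk p.2.length + i + g) ≤ lg (n p.1) ∧
        ex (kk p.2.length + i) ≤ lg (n p.1) := fun i hi =>
      ⟨(ex_mono (by omega)).trans hb, (ex_mono (by omega)).trans hb⟩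
    rw [accB_iff (hk _ le_rfl).2]
    refine and_congr_right fun _ => not_congr (exists_congr fun l => ?_)
    rw [List.mem_range, Nat.lt_succ_iff]
    refine and_congr_right fun hl => and_congr ?_ (or_congr_right ?_)
    · refine forall_congr' fun i => ⟨fun h _ hi => ?_, fun h hi => ?_⟩
      · obtain ⟨w, a1, a2⟩ := h hi
        exact ⟨w, mem_upTo.2 (a1.trans (hk i (by omega)).1), a1, a2⟩
      · obtain ⟨w, -, a1⟩ := h (List.mem_range.2 (by omega)) hi
        exact ⟨w, a1⟩
    · exact exists_congr fun i => and_congr_right fun _ => (accB_iff (hk l hl).2).symm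
  · refine exists_congr fun y => ⟨fun h => ⟨mem_upTo.2 ?_, h⟩, fun h => h.2⟩
    exact (lt_ex_kk _).le.trans ((ex_mono (by omega)).trans h.1)

theorem dec_valid {x : α → Str} (hx : PT x) : Dec O fun a => Valid O R g (x a) :=
  (Dec.forall_mem (l := fun a => upTo (lg (x a).length))
    (p := fun a (j : Str) => adm j (x a).length → j ∈ JJ (x a) ∨ Disc O R g j (x a).length)
    (pt_upTo (by fun_prop) (by fun_prop))
    ((Dec.of_ptp (ptp_adm (by fun_prop) (by fun_prop) (by fun_prop))).imp
      ((Dec.of_ptp (by fun_prop)).or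
        (dec_disc hR (by fun_prop) (by fun_prop) (by fun_prop))))).congr fun a =>
    ⟨fun h j _ => h j, fun h j hj => h j (mem_upTo.2 hj.le_lg) hj⟩

theorem polyTimeIn_ff : PolyTimeIn O (ff O R g) := by
  have h : Dec O (Ok O R g) :=
    (Dec.of_ptp (by fun_prop)).and ((Dec.forall_mem (p := fun (π : Str) (i : ℕ) =>
        (fld i (fld 2 π)).length ≤ ex (kk (fld 0 π).length + i + g) ∧
          R (fld 0 π) i (fld i (fld 2 π))) (by fun_prop)
        ((Dec.of_ptp (ptp_le_ex (by fun_prop) (by fun_prop))).and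
          (dec_R hR (by fun_prop) (by fun_prop) (by fun_prop)))).and
      (((Dec.of_ptp (by fun_prop)).or
        ((Dec.of_ptp (by fun_prop)).and (dec_wit (by fun_prop) (by fun_prop)))).and
        (dec_valid hR (by fun_prop))))
  exact h.ite_polyTimeIn (by fun_prop) (PT.const _)

end

theorem Ok.mem {π : Str} (h : Ok O R g π) : LL O R g (fld 0 π) = true := by
  obtain ⟨h1, h2, h3, h4⟩ := h
  refine LL_iff.2 (Or.inr ⟨⟨_, h1, fun i hi => ⟨_, h2 i (List.mem_range.2 (by omega))⟩, ?_⟩, h4⟩)
  rcases h3 with h | h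
  · exact Or.inl h
  · exact Or.inr (h.1 ▸ h.2.sound)

theorem ff_nil : ∃ π : Str, π.length = 0 ∧ ff O R g π = [] := by
  refine ⟨[], rfl, ?_⟩
  unfold ff
  split_ifs <;> rfl

theorem exists_proof {x : Str} {l : ℕ} (hl : l ≤ tp x) (hC : ∀ i ≤ l, C R g i x)
    (hA : l = tp x ∨ A O l x) (hV : Valid O R g x) :
    ∃ π : Str, π.length ≤ ex (kk x.length + l + g + 4) ∧ ff O R g π = x := by
  choose! w hw using hC
  obtain ⟨ω, h1, h2⟩ : ∃ ω : Str, (l = tp x ∨ (fld 0 ω = x ∧ Wit O ω l)) ∧
      ω.length ≤ 8 * ex (kk x.length + l + 1) := by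
    rcases hA with h | h
    · exact ⟨[], Or.inl h, Nat.zero_le _⟩
    · obtain ⟨ω, a1, a2, a3⟩ := h.wit
      exact ⟨ω, Or.inr ⟨a1, a2⟩, a3⟩
  have hws : (tup ((List.range (l + 1)).map w)).length ≤
      (l + 1) * (2 * ex (kk x.length + l + g) + 1) := by
    have := length_tup_le (l := (List.range (l + 1)).map w) (B := ex (kk x.length + l + g))
      fun u hu => by
        obtain ⟨i, hi, rfl⟩ := List.mem_map.1 hu
        rw [List.mem_range] at hi
        exact (hw i (by omega)).1.trans (ex_mono (by omega))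
    simpa using this
  refine ⟨tup [x, List.replicate l true, tup ((List.range (l + 1)).map w), ω], ?_, ?_⟩
  · have a1 := lt_ex (kk x.length + l + g)
    have a2 := lt_ex_kk x.length
    have a3 : ex (kk x.length + 1) ≤ ex (kk x.length + l + g + 1) := ex_mono (by omega)
    have a4 : ex (kk x.length + l + 1) ≤ ex (kk x.length + l + g + 1) := ex_mono (by omega)
    have a5 := ex_succ (kk x.length + l + g)
    have a6 := ex_add_three (kk x.length + l + g)
    have a7 : ex (kk x.length + l + g + 3) ≤ ex (kk x.length + l + g + 4) := ex_mono (by omega)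
    have a8 : (l + 1) * (2 * ex (kk x.length + l + g) + 1) ≤
        ex (kk x.length + l + g) * (3 * ex (kk x.length + l + g)) :=
      Nat.mul_le_mul (by omega) (by omega)
    simp only [length_tup_cons, length_tup_nil, List.length_replicate]
    nlinarith
  · have e : ∀ i < l + 1, fld i (tup ((List.range (l + 1)).map w)) = w i := fun i hi => by
      rw [fld_tup, List.getD_eq_getElem _ _ (by simpa using hi)]; simp
    have : Ok O R g (tup [x, List.replicate l true, tup ((List.range (l + 1)).map w), ω]) := by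
      refine ⟨by simpa [fld_tup] using hl, fun i hi => ?_, by simpa [fld_tup] using h1,
        by simpa [fld_tup] using hV⟩
      have hi' : i < l + 1 := by simpa [fld_tup] using hi
      have e0 : fld 0 (tup [x, List.replicate l true, tup ((List.range (l + 1)).map w), ω]) = x := by
        simp [fld_tup]
      have e2 : fld 2 (tup [x, List.replicate l true, tup ((List.range (l + 1)).map w), ω]) =
          tup ((List.range (l + 1)).map w) := by simp [fld_tup]
      rw [e0, e2, e i hi']
      exact hw i (by omega)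
    rw [ff, if_pos this]
    simp [fld_tup]

theorem exists_proof_top {x : Str} (h : LL O R g x = true) :
    ∃ π : Str, π.length ≤ ex (kk x.length + tp x + g + 4) ∧ ff O R g π = x := by
  rcases LL_iff.1 h with rfl | ⟨⟨l, h1, h2, h3⟩, h4⟩
  · obtain ⟨π, a1, a2⟩ := ff_nil (O := O) (R := R) (g := g)
    exact ⟨π, by omega, a2⟩
  · obtain ⟨π, a1, a2⟩ := exists_proof h1 h2 h3 h4
    exact ⟨π, a1.trans (ex_mono (by omega)), a2⟩

theorem LL_ff (π : Str) : LL O R g (ff O R g π) = true := by
  unfold ff
  split_ifs with h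
  · exact h.mem
  · exact LL_iff.2 (Or.inl rfl)

/-- A machine that accepts only members of the language is trusted on long valid strings. -/
theorem trusted {j : Str} (hj : ∀ w s x, Out O j w s x → LL O R g x = true) :
    ∃ n, ∀ x : Str, n ≤ x.length → Valid O R g x → j ∈ JJ x := by
  obtain ⟨n, hn⟩ := exists_adm j
  refine ⟨n, fun x hx hV => (hV j (hn.mono hx)).resolve_right ?_⟩
  rintro ⟨y, -, h1, ⟨v, -, h2⟩, h3⟩
  rcases LL_iff.1 (hj _ _ _ h2) with h | h
  · exact h1 h
  · exact h3 h.1

theorem quasi {x : Str} (h : LL O R g x = true) : ∃ π : Str, ff O R g π = x ∧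
    π.length ≤ (x.length + 2) ^ (2 ^ (g + 4) * (Nat.log 2 (Nat.log 2 x.length) + 1)) := by
  obtain ⟨π, h1, h2⟩ := exists_proof_top h
  refine ⟨π, h2, h1.trans ?_⟩
  have a1 : 2 ^ tp x ≤ kk x.length + 1 := by
    refine (Nat.pow_le_pow_right (by omega) (min_le_right _ _)).trans ?_
    rcases Nat.eq_zero_or_pos (kk x.length) with h | h
    · simp [h]
    · exact (Nat.pow_log_le_self 2 h.ne').trans (by omega)
  rw [show kk x.length + tp x + g + 4 = kk x.length + (g + 4 + tp x) by omega, ex_add, pow_add]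
  exact (Nat.pow_le_pow_left (ex_kk_le' _) _).trans
    (Nat.pow_le_pow_right (by omega) (Nat.mul_le_mul_left _ a1))

theorem optimal (hR : Dec O fun p : Str × ℕ × Str => R p.1 p.2.1 p.2.2) :
    PolyOptimalIn O (ff O R g) (LL O R g) := by
  refine ⟨⟨polyTimeIn_ff hR, fun y => ⟨fun h => ?_, ?_⟩⟩, fun f hf => ?_⟩
  · obtain ⟨π, -, h⟩ := exists_proof_top h
    exact ⟨π, h⟩
  · rintro ⟨π, rfl⟩
    exact LL_ff π
  obtain ⟨j, K, hs, hc⟩ := exists_machine hf.1
  have hL : ∀ w, LL O R g (f w) = true := fun w => (hf.2 _).2 ⟨w, rfl⟩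
  obtain ⟨n, hn⟩ := trusted (O := O) (R := R) (g := g) (j := j) fun w s x h => hs w s x h ▸ hL w
  obtain ⟨q, o, m, hq, ho, ⟨pm, hm⟩, hfo⟩ := Flex.of_polyTimeIn hf.1
  obtain ⟨po, hpo⟩ := ho.size
  have hlen : ∀ w : Str, (f w).length ≤
      po.eval (2 * (3 * w.length) + 1 + 3 * pm.eval (3 * w.length)) := by
    intro w
    have a1 : sz (o (w, oans O q w (m w))) ≤ po.eval (sz (w, oans O q w (m w))) := hpo _
    have a2 : m w ≤ pm.eval (sz w) := hm w
    rw [← hfo w _ le_rfl, sz_pair, sz_str, sz_str, sz_str, length_oans] at a1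
    rw [sz_str] at a2
    have := eval_mono po (show 2 * (3 * w.length) + 1 + 3 * m w ≤
      2 * (3 * w.length) + 1 + 3 * pm.eval (3 * w.length) by omega)
    omega
  refine ⟨Polynomial.C (ex (n + n + g + 4)) +
    (po.comp (2 * (3 * Polynomial.X) + 1 + 3 * pm.comp (3 * Polynomial.X)) + 2 +
      ((Polynomial.X + 2) ^ (K + 1)) ^ 2) ^ 2 ^ (g + 4), fun w => ?_⟩
  simp only [Polynomial.eval_add, Polynomial.eval_comp, Polynomial.eval_mul, Polynomial.eval_C,
    Polynomial.eval_ofNat, Polynomial.eval_X, Polynomial.eval_one, Polynomial.eval_pow]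
  rcases lt_or_ge (f w).length n with hx | hx
  · obtain ⟨π, h1, h2⟩ := exists_proof_top (hL w)
    refine ⟨π, h1.trans ((ex_mono ?_).trans (Nat.le_add_right _ _)), h2⟩
    have a1 : kk (f w).length ≤ (f w).length := (Nat.log_le_self 2 _).trans (Nat.log_le_self 2 _)
    have a2 : tp (f w) ≤ kk (f w).length := (min_le_right _ _).trans (Nat.log_le_self 2 _)
    omega
  rcases LL_iff.1 (hL w) with h | ⟨⟨l, h1, h2, h3⟩, h4⟩
  · obtain ⟨π, a1, a2⟩ := ff_nil (O := O) (R := R) (g := g)
    exact ⟨π, by omega, a2.trans h.symm⟩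
  set s := (w.length + 2) ^ (K + 1) with hsd
  have s1 : (w.length + 2) ^ K ≤ s := Nat.pow_le_pow_right (by omega) (by omega)
  have s2 : w.length + 2 ≤ s := Nat.le_self_pow (by omega) _
  have hex : ∃ i, s ≤ ex (kk (f w).length + i) :=
    ⟨s, (by have := lt_ex s; omega : s ≤ ex s).trans (ex_mono (by omega))⟩
  classical
  have b1 := Nat.find_spec hex
  have b2 : ex (kk (f w).length + Nat.find hex) ≤ (f w).length + 2 + s ^ 2 := by
    rcases e : Nat.find hex with _ | i
    · exact (ex_kk_le' _).trans (by omega)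
    · have := Nat.find_min hex (m := i) (by omega)
      rw [← Nat.add_assoc, ex_succ]
      nlinarith
  have b3 : A O (Nat.find hex) (f w) :=
    ⟨j, hn _ hx h4, w, by omega, hc w _ (s1.trans b1)⟩
  obtain ⟨π, c1, c2⟩ := exists_proof (l := min l (Nat.find hex)) ((min_le_left _ _).trans h1)
    (fun i hi => h2 i (hi.trans (min_le_left _ _))) (by
      rcases le_total l (Nat.find hex) with h | h
      · rwa [min_eq_left h]
      · rw [min_eq_right h]; exact Or.inr b3) h4
  refine ⟨π, c1.trans (le_trans ?_ (Nat.le_add_left _ _)), c2⟩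
  refine (ex_mono (b := kk (f w).length + Nat.find hex + (g + 4)) (by omega)).trans ?_
  rw [ex_add]
  exact Nat.pow_le_pow_left (b2.trans (by have := hlen w; omega)) _

/-- If the language is in `NP`, long valid members are accepted at a bounded level. -/
theorem level_of_np (h : LL O R g ∈ NPIn O) : ∃ D n, ∀ x : Str, n ≤ x.length → Valid O R g x →
    (∀ l ≤ tp x, C R g l x) → A O D x := by
  classical
  obtain ⟨p, V, hV, h⟩ := h
  have h1 : Dec O fun π : Str => (fld 1 π).length ≤ p.eval (fld 0 π).length ∧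
      V (fld 0 π, fld 1 π) = true :=
    (Dec.of_ptp (by fun_prop)).and
      ⟨_, (Flex.of_polyTimeIn hV).comp (g := fun π : Str => (fld 0 π, fld 1 π)) (by fun_prop),
        fun _ => Iff.rfl⟩
  obtain ⟨j, K, hs, hc⟩ := exists_machine (h1.ite_polyTimeIn (inst := fun _ => inferInstance)
    (f := fun π => fld 0 π) (g := fun _ => []) (by fun_prop) (PT.const _))
  obtain ⟨n, hn⟩ := trusted (O := O) (R := R) (g := g) (j := j) fun w s x hx => by
    rw [hs w s x hx]
    split_ifs with e
    · exact (h _).2 ⟨_, e⟩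
    · exact LL_iff.2 (Or.inl rfl)
  obtain ⟨c, hc'⟩ := poly_le_pow ((2 * Polynomial.X + 2 * p + 4) ^ (K + 1))
  simp only [Polynomial.eval_add, Polynomial.eval_mul, Polynomial.eval_ofNat, Polynomial.eval_X,
    Polynomial.eval_pow] at hc'
  refine ⟨2 + c, n, fun x hx hv hC => ?_⟩
  obtain ⟨w, a1, a2⟩ := (h x).1 (LL_iff.2 (Or.inr ⟨⟨_, le_rfl, hC, Or.inl rfl⟩, hv⟩))
  have b1 : ((tup [x, w]).length + 2) ^ (K + 1) ≤ ex (kk x.length + (2 + c)) := by
    have c1 : x.length + 2 ≤ ex (kk x.length + 2) := by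
      have := lt_ex_kk x.length
      have := ex_succ (kk x.length + 1)
      have := two_le_ex (kk x.length + 1)
      nlinarith
    calc _ ≤ (2 * x.length + 2 * p.eval x.length + 4) ^ (K + 1) :=
          Nat.pow_le_pow_left (by simp; omega) _
      _ ≤ (x.length + 2) ^ c := hc' _
      _ ≤ ex (kk x.length + 2) ^ c := Nat.pow_le_pow_left c1 _
      _ ≤ ex (kk x.length + 2) ^ 2 ^ c :=
          Nat.pow_le_pow_right (by have := two_le_ex (kk x.length + 2); omega)
            Nat.lt_two_pow_self.le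
      _ = _ := by rw [← ex_add, Nat.add_assoc]
  have b2 := hc (tup [x, w]) _ ((Nat.pow_le_pow_right (by omega) (Nat.le_succ K)).trans b1)
  rw [if_pos (by simpa [fld_tup] using ⟨a1, a2⟩)] at b2
  refine ⟨j, hn x hx hv, tup [x, w], le_trans ?_ b1, by simpa [fld_tup] using b2⟩
  exact (Nat.le_add_right _ 2).trans (Nat.le_self_pow (by omega) _)

/-- On a clean string the check at the least accepting level holds. -/
theorem check_of_clean {x : Str} {l : ℕ} (hc : A O (tp x) x → L0 O R g x) (hl : l ≤ tp x)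
    (h : A O l x) (hmin : ∀ i < l, ¬A O i x) : C R g l x := by
  obtain ⟨m, h1, h2, h3⟩ := hc (h.mono hl)
  refine h2 l ?_
  rcases h3 with h3 | h3
  · omega
  · by_contra hn
    exact hmin m (by omega) h3

end Pool.Agent.P.MP_435dae_lc.Opt
end

-- part Pool.Agent.P.MP_435dae_lc.OptRel
section

/-! The checks used by the tree language and by the paradox languages. -/

namespace Pool.Agent.P.MP_435dae_lc.Opt

open Function N487b59b3 N68a2faeb Pool.Agent.Lib.PolyTime

/-- The parent of a string. -/
def par (z : Str) : Str := fld 1 z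

/-- The level of the parent that a string serves. -/
def lam (z : Str) : ℕ := (fld 2 z).length

/-- The address row of a string. -/
def aa (z : Str) : List Str := blocks (fld 3 z)

/-- `z` is a child of `x`. -/
def Child (z x : Str) : Prop :=
  par z = x ∧ PP z = (PP x).tail ∧ lam z ≤ tp x ∧ kk z.length = kk x.length + lam z + 1

/-- `y` lies `d` generations below `x`. -/
def Below (x : Str) : ℕ → Str → Prop
  | 0, y => y = x
  | d + 1, y => Child y (par y) ∧ Below x d (par y)

theorem Below.snoc {x z : Str} (hz : Child z x) : ∀ {d : ℕ} {y : Str}, Below z d y →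
    Below x (d + 1) y
  | 0, y, h => by
    obtain rfl : y = z := h
    exact ⟨hz.1 ▸ hz, hz.1⟩
  | _ + 1, _, h => ⟨h.1, Below.snoc hz h.2⟩

theorem Below.iter {x : Str} : ∀ {d : ℕ} {y : Str}, Below x d y → par^[d] y = x
  | 0, _, h => h
  | d + 1, y, h => Below.iter (d := d) (y := par y) h.2

theorem Below.split {x : Str} : ∀ {d : ℕ} {y : Str}, Below x (d + 1) y →
    Below (par^[d] y) d y ∧ Child (par^[d] y) x
  | 0, y, h => ⟨rfl, (show par y = x from h.2) ▸ h.1⟩
  | _ + 1, _, h => ⟨⟨h.1, (Below.split h.2).1⟩, (Below.split h.2).2⟩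

theorem Below.kk_le {x : Str} : ∀ {d : ℕ} {y : Str}, Below x d y → kk x.length ≤ kk y.length
  | 0, _, h => by rw [show _ = x from h]
  | _ + 1, _, h => by
    have h1 := Below.kk_le h.2
    have h2 := h.1.2.2.2
    omega

variable {α : Type} [N487b59b3 α]

@[fun_prop] theorem pt_par {z : α → Str} (hz : PT z) : PT fun a => par (z a) := by
  unfold par; fun_prop

@[fun_prop] theorem pt_lam {z : α → Str} (hz : PT z) : PT fun a => lam (z a) := by
  unfold lam; fun_prop

@[fun_prop] theorem pt_aa {z : α → Str} (hz : PT z) : PT fun a => aa (z a) := by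
  unfold aa; fun_prop

theorem sz_par_le (z : Str) : sz (par z) ≤ sz z := by
  have := length_fld_le 1 z
  rw [sz_str, sz_str, par]
  omega

theorem pt_anc {z : α → Str} {d : α → ℕ} (hz : PT z) (hd : PT d) (hs : Small d) :
    PT fun a => par^[d a] (z a) :=
  PT.iterate_nat_growth (F := fun _ y => par y) hd hs hz (by fun_prop) (fun _ => 0)
    (Small.const 0) fun _ y => sz_par_le y

open Classical in
/-- One step of the test for `Below`. -/
noncomputable def bstep (s : Str × Bool) : Str × Bool :=
  (par s.1, s.2 && decide (Child s.1 (par s.1)))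

theorem bstep_iter (x : Str) (d : ℕ) : ∀ (y : Str) (b : Bool),
    bstep^[d] (y, b) = (x, true) ↔ b = true ∧ Below x d y := by
  induction d with
  | zero => intro y b; simp [Below, and_comm]
  | succ d ih => intro y b; rw [iterate_succ_apply, bstep, ih]; simp [Below, and_assoc]

theorem ptp_below {x y : α → Str} {d : α → ℕ} (hx : PT x) (hy : PT y) (hd : PT d)
    (hs : Small d) : PTP fun a => Below (x a) (d a) (y a) := by
  have h0 : PT fun p : α × Str × Bool => bstep p.2 := by
    unfold bstep Child; fun_prop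
  have h1 : PT fun a => bstep^[d a] (y a, true) :=
    PT.iterate_nat_growth (F := fun _ s => bstep s) hd hs (by fun_prop) h0 (fun _ => 0)
      (Small.const 0) fun _ s => by
        have := sz_par_le s.1
        rw [bstep, sz_pair, sz_pair' s]
        simp only [sz_bool]
        omega
  exact (PTP.eq h1 (show PT fun a => (x a, true) by fun_prop)).congr fun a => by
    simp [bstep_iter]

variable (O : Str → Bool)

/-- No trusted machine outputs `x` on `u` within `m`. -/
def nu (x : Str) (m : ℕ) (u : Str) : Prop := ∀ j ∈ JJ x, ¬Out O j u m x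

/-- The check of a paradox string of order `d`. -/
def RP (x : Str) (d l : ℕ) (w : Str) : Prop :=
  Below x (d + 1) (fld 0 w) ∧ lam (par^[d] (fld 0 w)) = l ∧
    (aa (par^[d] (fld 0 w))).getD (kk (fld 0 w).length) [] = [] ∧ Wit O w (tp (fld 0 w) - d)

/-- One branch of the check of a tree string. -/
def RB (z : Str) (d k l : ℕ) (b : Bool) (ω : Str) : Prop :=
  kk (fld 0 ω).length = k ∧ Below (par z) (d + 1) (fld 0 ω) ∧ lam (par^[d] (fld 0 ω)) = lam z ∧
    (aa (par^[d] (fld 0 ω))).getD k [] = (aa z).getD k [] ++ [b] ∧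
    (aa (par^[d] (fld 0 ω))).drop (k + 1) = (aa z).drop (k + 1) ∧ Wit O ω l

/-- The check of a tree string with ancestor `z`. -/
def RT (z : Str) (m d k l : ℕ) (w : Str) : Prop :=
  nu O (par z) m ((aa z).getD k []) ∧
    (((aa z).getD k []).length < m → RB O z d k l false (fld 0 w) ∧ RB O z d k l true (fld 1 w))

/-- The check. -/
def RR (x : Str) (l : ℕ) (w : Str) : Prop :=
  ((PP x).length ≤ 1 ∧ RT O (par^[tp x - l] x)
    (cex x.length (kk (par (par^[tp x - l] x)).length + lam (par^[tp x - l] x))) (tp x - l)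
    (kk x.length) l w) ∨ (1 < (PP x).length ∧ RP O x ((PP x).length - 2) l w)

variable {O}

theorem dec_RP {x w : α → Str} {d l : α → ℕ} (hx : PT x) (hw : PT w) (hd : PT d) (hs : Small d)
    (hl : PT l) : Dec O fun a => RP O (x a) (d a) (l a) (w a) := by
  have h : PT fun a => par^[d a] (fld 0 (w a)) := pt_anc (by fun_prop) hd hs
  exact (Dec.of_ptp (ptp_below hx (by fun_prop) (by fun_prop) (by fun_prop))).and
    ((Dec.of_ptp (PTP.eq (pt_lam h) hl)).and
      ((Dec.of_ptp (PTP.eq (PT.getD (pt_aa h) (by fun_prop) (PT.const _)) (PT.const _))).and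
        (dec_wit hw (by fun_prop))))

theorem dec_RB {z w : α → Str} {d k l : α → ℕ} (b : Bool) (hz : PT z) (hw : PT w) (hd : PT d)
    (hs : Small d) (hk : PT k) (hl : PT l) :
    Dec O fun a => RB O (z a) (d a) (k a) (l a) b (w a) := by
  have h : PT fun a => par^[d a] (fld 0 (w a)) := pt_anc (by fun_prop) hd hs
  exact (Dec.of_ptp (by fun_prop)).and
    ((Dec.of_ptp (ptp_below (by fun_prop) (by fun_prop) (by fun_prop) (by fun_prop))).and
    ((Dec.of_ptp (PTP.eq (pt_lam h) (by fun_prop))).and
      ((Dec.of_ptp (PTP.eq (PT.getD (pt_aa h) hk (PT.const _)) (by fun_prop))).and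
      ((Dec.of_ptp (PTP.eq (PT.drop (by fun_prop) (pt_aa h)) (by fun_prop))).and
        (dec_wit hw hl)))))

theorem dec_RT {z w : α → Str} {m d k l : α → ℕ} (hz : PT z) (hw : PT w) (hm : PT m)
    (hm' : Small m) (hd : PT d) (hs : Small d) (hk : PT k) (hl : PT l) :
    Dec O fun a => RT O (z a) (m a) (d a) (k a) (l a) (w a) :=
  (Dec.forall_mem (p := fun a (j : Str) =>
      ¬Out O j ((aa (z a)).getD (k a) []) (m a) (par (z a))) (by fun_prop)
    (dec_out (by fun_prop) (by fun_prop) (by fun_prop) (by fun_prop) (by fun_prop)).not).and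
    ((Dec.of_ptp (by fun_prop)).imp
      ((dec_RB false hz (by fun_prop) hd hs hk hl).and (dec_RB true hz (by fun_prop) hd hs hk hl)))

theorem dec_RR : Dec O fun p : Str × ℕ × Str => RR O p.1 p.2.1 p.2.2 := by
  have h : PT fun p : Str × ℕ × Str => par^[tp p.1 - p.2.1] p.1 :=
    pt_anc (by fun_prop) (by fun_prop) (by fun_prop)
  exact ((Dec.of_ptp (by fun_prop)).and
    (dec_RT h (by fun_prop)
      (pt_cex (by fun_prop) (PT.add (pt_kk (PT.length (pt_par h))) (pt_lam h))) (by fun_prop)
      (by fun_prop) (by fun_prop) (by fun_prop) (by fun_prop))).or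
    ((Dec.of_ptp (by fun_prop)).and
      (dec_RP (by fun_prop) (by fun_prop) (by fun_prop) (by fun_prop) (by fun_prop)))

end Pool.Agent.P.MP_435dae_lc.Opt
end

-- part Pool.Agent.P.MP_435dae_lc.OptForce
section

/-! The forcing induction. -/

namespace Pool.Agent.P.MP_435dae_lc.Opt

open Function N487b59b3 N68a2faeb Pool.Agent.Lib.PolyTime

variable (T : ℕ → ℕ) (Js : ℕ → List Str)

/-- The parameters of height `h`. -/
def ent (h : ℕ) : Str := tup [tup (Js h), List.replicate (T h) true]

/-- The parameter list of a string of height `h`. -/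
def Pis : ℕ → List Str
  | 0 => [ent T Js 0]
  | h + 1 => ent T Js (h + 1) :: Pis h

/-- The room needed below height `h`. -/
def room : ℕ → ℕ
  | 0 => 0
  | h + 1 => room h + T (h + 1) + 1

theorem length_Pis (h : ℕ) : (Pis T Js h).length = h + 1 := by
  induction h with
  | zero => rfl
  | succ h ih => simp [Pis, ih]

theorem headD_Pis (h : ℕ) : (Pis T Js h).headD [] = ent T Js h := by cases h <;> rfl

/-- Strings of height `h` inside the window of scales from `k₀` to `K`. -/
def Good (k₀ K h : ℕ) (z : Str) : Prop :=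
  PP z = Pis T Js h ∧ k₀ ≤ kk z.length ∧ kk z.length + room T h ≤ K

variable {T Js} {k₀ K : ℕ}

theorem Good.JJ_eq {h : ℕ} {z : Str} (hz : Good T Js k₀ K h z) : JJ z = Js h := by
  rw [JJ, hz.1, headD_Pis, ent, fld_tup]
  exact blocks_tup _

theorem Good.tp_le {h : ℕ} {z : Str} (hz : Good T Js k₀ K h z) : tp z ≤ T h := by
  rw [tp, hz.1, headD_Pis, ent, fld_tup]
  simp

theorem Good.tp_eq {h : ℕ} {z : Str} (hz : Good T Js k₀ K h z) (hT : T h ≤ lg k₀) :
    tp z = T h := by
  have : lg k₀ ≤ lg (kk z.length) := Nat.log_mono_right hz.2.1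
  rw [tp, hz.1, headD_Pis, ent, fld_tup]
  simp only [List.getD_cons_succ, List.getD_cons_zero, List.length_replicate]
  omega

theorem Good.child {h : ℕ} {z x : Str} (hx : Good T Js k₀ K (h + 1) x) (hz : Child z x) :
    Good T Js k₀ K h z := by
  have h1 := hx.tp_le
  obtain ⟨a1, a2, a3⟩ := hx
  obtain ⟨-, b1, b2, b3⟩ := hz
  rw [room] at a3
  exact ⟨by rw [b1, a1]; rfl, by omega, by omega⟩

theorem Good.below {x : Str} : ∀ {d h : ℕ} {y : Str}, Good T Js k₀ K (h + d) x → Below x d y →
    Good T Js k₀ K h y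
  | 0, _, _, hx, hy => (show _ = x from hy) ▸ hx
  | d + 1, h, _, hx, hy =>
    (Good.below (d := d) (h := h + 1) (by rwa [Nat.add_right_comm]) hy.2).child hy.1

theorem Good.below' {x y : Str} {d : ℕ} (hx : Good T Js k₀ K d x) (hy : Below x d y) :
    Good T Js k₀ K 0 y ∧ kk y.length ≤ kk x.length + room T d := by
  have h1 : Good T Js k₀ (kk x.length + room T d) (0 + d) x := by
    rw [Nat.zero_add]; exact ⟨hx.1, hx.2.1, le_rfl⟩
  exact ⟨Good.below (by rwa [Nat.zero_add]) hy, (h1.below hy).2.2⟩

/-- The canonical child. -/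
def mk (P : List Str) (x : Str) (l : ℕ) (a : List Str) : Str :=
  tup [tup P, x, List.replicate l true, tup a, List.replicate (ex (kk x.length + l + 1)) true]

theorem aa_mk (P : List Str) (x : Str) (l : ℕ) (a : List Str) : aa (mk P x l a) = a := by
  rw [aa, mk, fld_tup]; exact blocks_tup _

theorem lam_mk (P : List Str) (x : Str) (l : ℕ) (a : List Str) : lam (mk P x l a) = l := by
  simp [lam, mk, fld_tup]

theorem child_mk {h l r : ℕ} {x : Str} {a : List Str} (hx : Good T Js k₀ K (h + 1) x)
    (hl : l ≤ tp x) (ha : Row r (ex (kk x.length + l)) a) (hk : 2 ≤ k₀) (hr : r ≤ ex k₀)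
    (hP : (tup (Pis T Js h)).length ≤ ex k₀) : Child (mk (Pis T Js h) x l a) x := by
  refine ⟨by simp [par, mk, fld_tup], ?_, by rwa [lam_mk], ?_⟩
  · rw [hx.1, PP, mk, fld_tup]; exact blocks_tup _
  have a0 := hx.2.1
  have a1 := length_tup_le ha.2
  have a2 : ex k₀ ≤ ex (kk x.length + l) := ex_mono (by omega)
  have a3 := ex_succ (kk x.length + l)
  have a4 := lt_ex (kk x.length + l)
  have a5 : r * (2 * ex (kk x.length + l) + 1) ≤
      ex (kk x.length + l) * (3 * ex (kk x.length + l)) := Nat.mul_le_mul (by omega) (by omega)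
  have a6 := lt_ex_kk x.length
  have a7 : ex (kk x.length + 1) ≤ ex (kk x.length + l + 1) := ex_mono (by omega)
  have a8 : ex (kk x.length + l) ≤ ex (kk x.length + l + 1) := ex_mono (by omega)
  have a9 : 16 ≤ ex (kk x.length + l + 1) := ex_mono (a := 2) (by omega)
  have a10 : (tup a).length ≤ 3 * ex (kk x.length + l + 1) := by rw [ha.1] at a1; nlinarith
  rw [lam_mk]
  refine kk_eq ?_ ?_
  · simp only [mk, length_tup_cons, List.length_replicate]; omega
  · rw [ex_succ (kk x.length + l + 1)]
    simp only [mk, length_tup_cons, List.length_replicate, length_tup_nil]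
    nlinarith

variable {O : Str → Bool} {g : ℕ → ℕ}

section

variable (hk : 2 ≤ k₀) (hT : ∀ h ≤ T 0 + 1, T h ≤ lg k₀)
  (hS : ∀ h ≤ T 0 + 1, ∀ z, Good T Js k₀ K h z → A O (tp z) z → L0 O (RR O) (g h) z)
include hk hT hS

/-- Reliability of a successful certificate. -/
theorem reliable {d l : ℕ} {x : Str} (hd : d ≤ T 0) (hx : Good T Js k₀ K (d + 1) x)
    (hη : ∀ y, Below x (d + 1) y → ∀ i, i + (d + 1) ≤ T 0 → ¬A O i y) (n : ℕ) :
    ∀ y, Below x (d + 1) y → lam (par^[d] y) = l → A O (T 0 - d) y →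
      ((aa (par^[d] y)).getD (kk y.length) []).length + n = ex (kk x.length + l) →
      ∀ v : Str, v.length ≤ n →
        nu O x (ex (kk x.length + l)) ((aa (par^[d] y)).getD (kk y.length) [] ++ v) := by
  induction n with
  | zero => ?_
  | succ n ih => ?_
  all_goals
    intro y hy hl hA hn v hv
    have gy := (hx.below' hy).1
    have ty : tp y = T 0 := gy.tp_eq (hT 0 (by omega))
    obtain ⟨w, -, hw⟩ := check_of_clean (hS 0 (by omega) y gy) (l := T 0 - d) (by omega) hA
      fun i hi => hη y hy i (by omega)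
    have e1 : tp y - (T 0 - d) = d := by omega
    have c := hy.split
    have e2 : cex y.length (kk x.length + l) = ex (kk x.length + l) := by
      have b1 := c.1.kk_le
      have b2 := c.2.2.2.2
      have b3 := hx.2.1
      exact min_eq_right (ex_le_of_le_kk (by omega) (by omega))
    rcases hw with hw | hw
    swap
    · have := hw.1
      rw [gy.1, length_Pis] at this
      omega
    obtain ⟨w1, w2⟩ := hw.2
    rw [e1, c.2.1, hl, e2] at w1
    rw [e1, c.2.1, hl, e2] at w2
  · obtain rfl : v = [] := List.eq_nil_of_length_eq_zero (by omega)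
    rwa [List.append_nil]
  · rcases v with _ | ⟨b, v⟩
    · rwa [List.append_nil]
    obtain ⟨ω, r1, r2, r3, r4, -, r5⟩ : ∃ ω, RB O (par^[d] y) d (kk y.length) (T 0 - d) b ω := by
      cases b
      · exact ⟨_, (w2 (by omega)).1⟩
      · exact ⟨_, (w2 (by omega)).2⟩
    rw [c.2.1] at r2
    have := ih _ r2 (r3.trans hl) r5.sound
      (by rw [r1, r4, List.length_append, List.length_singleton]; omega) v (by simpa using hv)
    rwa [r1, r4, List.append_assoc] at this

variable (hr : K + 1 ≤ ex k₀) (hP : ∀ h ≤ T 0 + 1, (tup (Pis T Js h)).length ≤ ex k₀)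
  (hg0 : g 0 = 3) (hg : ∀ d, g (d + 1) = room T d + T 0 + 4)
  (hK : ∀ h ≤ T 0 + 1, ∀ z, Good T Js k₀ K h z → (∀ l ≤ tp z, C (RR O) (g h) l z) → A O (T h) z)
include hr hP hg0 hg hK

/-- The forcing induction. -/
theorem forcing (d : ℕ) : d ≤ T 0 + 1 → ∀ z, Good T Js k₀ K d z →
    (∀ y, Below z d y → ∀ e, d ≤ e → e ≤ T 0 → C (RR O) 3 (T 0 - e) y) →
    ∃ y, Below z d y ∧ ∃ i, i + d ≤ T 0 ∧ A O i y := by
  classical
  induction d with
  | zero =>
    intro _ z hz h
    have tz : tp z = T 0 := hz.tp_eq (hT 0 (by omega))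
    refine ⟨z, rfl, T 0, le_rfl, hK 0 (by omega) z hz fun l hl => ?_⟩
    have := h z rfl (T 0 - l) (by omega) (by omega)
    rwa [show T 0 - (T 0 - l) = l by omega, ← hg0] at this
  | succ d ih =>
    intro hd x hx h
    by_contra hη
    replace hη : ∀ y, Below x (d + 1) y → ∀ i, i + (d + 1) ≤ T 0 → ¬A O i y :=
      fun y hy i hi hA => hη ⟨y, hy, i, hi, hA⟩
    have tx : tp x = T (d + 1) := hx.tp_eq (hT _ hd)
    have px : (PP x).length = d + 2 := by rw [hx.1, length_Pis]
    have hno : ¬A O (tp x) x := by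
      intro hA
      have hex : ∃ l, A O l x := ⟨_, hA⟩
      obtain ⟨w, -, hw⟩ := check_of_clean (hS _ hd x hx) (Nat.find_min' hex hA)
        (Nat.find_spec hex) fun i hi => Nat.find_min hex hi
      rcases hw with hw | hw
      · have := hw.1; omega
      obtain ⟨w1, w2, w3, w4⟩ := hw.2
      rw [px, Nat.add_sub_cancel] at w1 w2 w3 w4
      rw [(hx.below' w1).1.tp_eq (hT 0 (by omega))] at w4
      obtain ⟨j, j1, v, j2, j3⟩ := Nat.find_spec hex
      have := reliable hk hT hS (by omega) hx hη _ _ w1 w2 w4.sound (by rw [w3]; simp) v j2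
      rw [w3] at this
      exact this j j1 j3
    refine hno (tx ▸ hK _ hd x hx fun l hl => ?_)
    have hnu : ∀ u : Str, u.length ≤ ex (kk x.length + l) → nu O x (ex (kk x.length + l)) u :=
      fun u hu j hj ho => hno (A.mono ⟨j, hj, u, hu, ho⟩ hl)
    have hc : ∀ a, Row (K + 1) (ex (kk x.length + l)) a → Child (mk (Pis T Js d) x l a) x :=
      fun a ha => child_mk hx hl ha hk hr (hP d (by omega))
    obtain ⟨a, k, ha, -, ha0, y, y1, y2, y3⟩ := layering (K + 1) (ex (kk x.length + l))
      (fun a k => ∃ y, Below (mk (Pis T Js d) x l a) d y ∧ kk y.length = k ∧ A O (T 0 - d) y) (by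
        intro a ha hpre
        have gz := hx.child (hc a ha)
        obtain ⟨y, y1, i, y2, y3⟩ := ih (by omega) _ gz (by
          intro y hy e he he'
          rcases he.eq_or_lt with rfl | he
          swap
          · exact h y (hy.snoc (hc a ha)) e he he'
          have gy := (gz.below' hy).1
          have ty : tp y = T 0 := gy.tp_eq (hT 0 (by omega))
          have e1 : tp y - (T 0 - d) = d := by omega
          have e2 : cex y.length (kk x.length + l) = ex (kk x.length + l) := by
            have b1 := hy.kk_le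
            have b2 := (hc a ha).2.2.2
            have b3 := hx.2.1
            rw [lam_mk] at b2
            exact min_eq_right (ex_le_of_le_kk (by omega) (by omega))
          have ky : kk y.length < K + 1 := by have := gy.2.2; omega
          have hu : (a.getD (kk y.length) []).length ≤ ex (kk x.length + l) := by
            rw [List.getD_eq_getElem _ _ (by rw [ha.1]; exact ky)]
            exact ha.2 _ (List.getElem_mem _)
          suffices hs : ∃ w : Str, w.length ≤ ex (kk y.length + (T 0 - d) + 3) ∧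
              ((a.getD (kk y.length) []).length < ex (kk x.length + l) →
                RB O (mk (Pis T Js d) x l a) d (kk y.length) (T 0 - d) false (fld 0 w) ∧
                RB O (mk (Pis T Js d) x l a) d (kk y.length) (T 0 - d) true (fld 1 w)) by
            obtain ⟨w, w1, w2⟩ := hs
            refine ⟨w, w1, Or.inl ⟨by rw [gy.1, length_Pis], ?_⟩⟩
            rw [e1, hy.iter, (hc a ha).1, lam_mk, e2, RT, (hc a ha).1, aa_mk]
            exact ⟨hnu _ hu, w2⟩
          by_cases hlt : (a.getD (kk y.length) []).length < ex (kk x.length + l)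
          swap
          · exact ⟨[], Nat.zero_le _, fun h => absurd h hlt⟩
          have hb : ∀ b : Bool, ∃ ω : Str, ω.length ≤ 8 * ex (kk y.length + (T 0 - d) + 1) ∧
              RB O (mk (Pis T Js d) x l a) d (kk y.length) (T 0 - d) b ω := by
            intro b
            obtain ⟨a', b1, b2, b3, y', b4, b5, b6⟩ := hpre _ ky hlt b
            obtain ⟨ω, rfl, b7, b8⟩ := b6.wit
            refine ⟨ω, b5 ▸ b8, b5, ?_, ?_, ?_, ?_, b7⟩
            · rw [(hc a ha).1]; exact b4.snoc (hc a' b1)
            · rw [b4.iter, lam_mk, lam_mk]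
            · rw [b4.iter, aa_mk, aa_mk, b2]
            · rw [b4.iter, aa_mk, aa_mk, b3]
          obtain ⟨ω₀, b1, b2⟩ := hb false
          obtain ⟨ω₁, b3, b4⟩ := hb true
          refine ⟨tup [ω₀, ω₁], ?_, fun _ => by simpa [fld_tup] using ⟨b2, b4⟩⟩
          have := ex_add_three (kk y.length + (T 0 - d))
          have := two_le_ex (kk y.length + (T 0 - d) + 1)
          simp only [length_tup_cons, length_tup_nil]
          omega)
        have := (gz.below' y1).1.2.2
        exact ⟨_, by omega, y, y1, rfl, y3.mono (by omega)⟩)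
    have gz := hx.child (hc a ha)
    obtain ⟨gy, ky⟩ := gz.below' y1
    obtain ⟨ω, rfl, b1, b2⟩ := y3.wit
    refine ⟨ω, ?_, Or.inr ⟨by omega, ?_⟩⟩
    · have b3 := ex_add_three (kk (fld 0 ω).length + (T 0 - d))
      have b4 := (hc a ha).2.2.2
      rw [lam_mk] at b4
      have b5 : ex (kk (fld 0 ω).length + (T 0 - d) + 3) ≤ ex (kk x.length + l + g (d + 1)) :=
        ex_mono (by rw [hg]; omega)
      omega
    · rw [px, Nat.add_sub_cancel]
      refine ⟨y1.snoc (hc a ha), by rw [y1.iter, lam_mk], by rw [y1.iter, aa_mk, y2, ha0], ?_⟩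
      rwa [gy.tp_eq (hT 0 (by omega))]

theorem no_window (hKe : k₀ + room T (T 0 + 1) ≤ K) : False := by
  have h1 := hP _ le_rfl
  have h2 : 16 ≤ ex k₀ := ex_mono (a := 2) hk
  have h3 : kk (tup [tup (Pis T Js (T 0 + 1)), List.replicate (ex k₀) true]).length = k₀ := by
    refine kk_eq ?_ ?_
    · simp only [length_tup_cons, List.length_replicate]; omega
    · rw [ex_succ]
      simp only [length_tup_cons, List.length_replicate, length_tup_nil]
      nlinarith
  obtain ⟨_, _, i, hi, _⟩ := forcing hk hT hS hr hP hg0 hg hK (T 0 + 1) le_rfl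
    (tup [tup (Pis T Js (T 0 + 1)), List.replicate (ex k₀) true])
    ⟨by rw [PP, fld_tup]; exact blocks_tup _, h3.ge, by rw [h3]; exact hKe⟩
    fun _ _ e h1 h2 => by omega
  omega

end

end Pool.Agent.P.MP_435dae_lc.Opt
end

-- part Pool.Agent.P.MP_435dae_lc.OptMain
section

/-! One of the self-trusting languages is outside `NP`. -/

namespace Pool.Agent.P.MP_435dae_lc.Opt

open Function N487b59b3 N68a2faeb Pool.Agent.Lib.PolyTime

theorem pow_six_le_ex {k : ℕ} (hk : 5 ≤ k) : (k + 3) ^ 6 ≤ ex k := by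
  induction k, hk using Nat.le_induction with
  | base => norm_num [ex]
  | succ k hk ih =>
    rw [ex_succ]
    calc (k + 1 + 3) ^ 6 ≤ ((k + 3) * (k + 3)) ^ 6 := Nat.pow_le_pow_left (by nlinarith) _
      _ = (k + 3) ^ 6 * (k + 3) ^ 6 := mul_pow _ _ _
      _ ≤ _ := Nat.mul_le_mul ih ih

theorem length_tup_Pis {T : ℕ → ℕ} {Js : ℕ → List Str} {B : ℕ} (h : ℕ)
    (hB : ∀ i ≤ h, (ent T Js i).length ≤ B) :
    (tup (Pis T Js h)).length ≤ (h + 1) * (2 * B + 1) := by
  induction h with
  | zero => have := hB 0 le_rfl; simp [Pis]; omega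
  | succ h ih =>
    have h1 := ih fun i hi => hB i (by omega)
    have h2 := hB _ le_rfl
    rw [Pis, length_tup_cons]
    nlinarith

/-- The room, computed from the level bounds. -/
def rm (D : ℕ → ℕ) : ℕ → ℕ
  | 0 => 0
  | d + 1 => rm D d + D (rm D d + D 3 + 4) + 1

/-- The budget of the language of height `h`. -/
def gm (D : ℕ → ℕ) : ℕ → ℕ
  | 0 => 3
  | d + 1 => rm D d + D 3 + 4

theorem room_eq (D : ℕ → ℕ) (h : ℕ) : room (fun h => D (gm D h)) h = rm D h := by
  induction h with
  | zero => rfl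
  | succ h ih => rw [room, ih]; rfl

theorem exists_not_np (O : Str → Bool) : ∃ g, LL O (RR O) g ∉ NPIn O := by
  classical
  by_contra hc
  push Not at hc
  choose D n hDn using fun g => level_of_np (hc g)
  set T : ℕ → ℕ := fun h => D (gm D h) with hTd
  obtain ⟨M, hM'⟩ : ∃ M, ∀ h ≤ T 0 + 1,
      2 ^ T h + n (gm D h) + room T (T 0 + 1) + T h + gm D h + T 0 + 5 ≤ M :=
    ⟨(Finset.range (T 0 + 2)).sup fun h =>
        2 ^ T h + n (gm D h) + room T (T 0 + 1) + T h + gm D h + T 0 + 5,
      fun h hh => Finset.le_sup (f := fun h =>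
        2 ^ T h + n (gm D h) + room T (T 0 + 1) + T h + gm D h + T 0 + 5)
        (Finset.mem_range.2 (by omega))⟩
  have hM : ∀ h ≤ T 0 + 1, n (gm D h) + room T (T 0 + 1) + T h + gm D h + T 0 + 5 ≤ M :=
    fun h hh => by have := hM' h hh; generalize 2 ^ T h = a at this; omega
  have hM1 : ∀ h ≤ T 0 + 1, 2 ^ T h ≤ M :=
    fun h hh => by have := hM' h hh; generalize 2 ^ T h = a at this ⊢; omega
  clear hM'
  obtain ⟨t, ht⟩ := exists_clean (T 0 + 2) M (fun i j m => Disc O (RR O) (gm D i) j m)
    fun _ _ _ _ hab h => h.mono hab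
  rw [blk_succ] at ht
  have hk : M ≤ blk M t := blk_mono M (Nat.zero_le t)
  set k := blk M t
  have k5 : 5 ≤ k := by have := hM 0 (by omega); omega
  have k6 := pow_six_le_ex k5
  have k2 : 2 * k + 2 ≤ ex k :=
    le_trans (by nlinarith) ((Nat.pow_le_pow_right (by omega) (show 2 ≤ 6 by omega)).trans k6)
  let Js : ℕ → List Str := fun h => (upTo (lg (k + 3))).filter fun j =>
    decide (adm j (ex (ex (ex k))) ∧ ¬Disc O (RR O) (gm D h) j (ex k))
  have hJ : ∀ h j, j ∈ Js h ↔ adm j (ex (ex (ex k))) ∧ ¬Disc O (RR O) (gm D h) j (ex k) := by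
    intro h j
    simp only [Js, List.mem_filter, decide_eq_true_eq, mem_upTo]
    refine ⟨fun h => h.2, fun h => ⟨?_, h⟩⟩
    have h1 := adm.lt_add (i := 3) (n := k) h.1
    have h2 : 2 ^ j.length ≤ 4 ^ j.length := Nat.pow_le_pow_left (by omega) _
    exact Nat.le_log_of_pow_le (by omega) (by omega)
  have hT : ∀ h ≤ T 0 + 1, T h ≤ lg k := fun h hh =>
    Nat.le_log_of_pow_le (by omega) ((hM1 h hh).trans hk)
  have hlen : ∀ h z, Good T Js k (k + room T (T 0 + 1)) h z →
      ex k ≤ z.length ∧ z.length ≤ ex (ex (ex k)) := by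
    intro h z hz
    have a1 := lt_ex_kk z.length
    have a2 := hz.2.2
    have a3 := hM 0 (by omega)
    have a4 := lt_ex (ex k)
    have a5 : ex (kk z.length + 1) ≤ ex (ex (ex k)) := ex_mono (by omega)
    exact ⟨ex_le_of_le_kk (by omega) hz.2.1, by omega⟩
  refine no_window (T := T) (Js := Js) (k₀ := k) (K := k + room T (T 0 + 1)) (O := O)
    (g := gm D) (by omega) hT ?_ (by have := hM 0 (by omega); omega) ?_ rfl
    (fun d => by rw [hTd, room_eq]; rfl) ?_ le_rfl
  · rintro h hh z hz ⟨j, j1, j2⟩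
    by_contra hn
    rw [hz.JJ_eq, hJ] at j1
    refine j1.2 (ht h (by omega) j j1.1 ⟨z, ?_, ?_, j2, hn⟩)
    · have a1 := hz.tp_le
      have a2 := hz.2.2
      have a3 := hM h hh
      have a4 : lg (ex (ex (ex k))) = 2 ^ ex (ex k) := Nat.log_pow (by omega) _
      rw [a4]
      exact (ex_mono (by omega)).trans Nat.lt_two_pow_self.le
    · rintro rfl
      have := (hlen h _ hz).1
      simp only [List.length_nil] at this
      omega
  · intro h hh
    have b1 : lg (k + 3) < k + 3 := Nat.log_lt_self 2 (by omega)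
    have b2 : 2 ^ lg (k + 3) ≤ k + 3 := Nat.pow_log_le_self 2 (by omega)
    have b3 : ∀ i, (tup (Js i)).length ≤ 2 * (k + 3) ^ 3 := fun i => by
      have c1 := length_tup_le (l := Js i) (B := lg (k + 3)) fun j hj =>
        mem_upTo.1 (List.mem_of_mem_filter hj)
      have c2 : (Js i).length ≤ (lg (k + 3) + 1) * 2 ^ lg (k + 3) :=
        (List.length_filter_le _ _).trans (length_upTo _).le
      have c3 : (lg (k + 3) + 1) * 2 ^ lg (k + 3) ≤ (k + 3) * (k + 3) := Nat.mul_le_mul b1 b2
      have c4 : (Js i).length * (2 * lg (k + 3) + 1) ≤ (k + 3) * (k + 3) * (2 * (k + 3)) :=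
        Nat.mul_le_mul (c2.trans c3) (by omega)
      nlinarith
    have b4 : 2 * (k + 3) ≤ (k + 3) ^ 3 := by
      have : 2 ≤ (k + 3) ^ 2 := by nlinarith
      nlinarith
    have b5 := length_tup_Pis (T := T) (Js := Js) (B := 5 * (k + 3) ^ 3) h fun i hi => by
      have := b3 i
      have := hM i (by omega)
      simp only [ent, length_tup_cons, List.length_replicate, length_tup_nil]
      omega
    have b6 : (h + 1) * (2 * (5 * (k + 3) ^ 3) + 1) ≤ (k + 3) * (11 * (k + 3) ^ 3) :=
      Nat.mul_le_mul (by have := hM 0 (by omega); omega) (by omega)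
    have b7 : 11 * (k + 3) ^ 4 ≤ (k + 3) ^ 2 * (k + 3) ^ 4 :=
      Nat.mul_le_mul_right _ (by nlinarith)
    nlinarith
  · intro h hh z hz hC
    obtain ⟨a1, a2⟩ := hlen h z hz
    refine hDn (gm D h) z (by have := hM h hh; omega) (fun j hj => ?_) hC
    by_cases hd : Disc O (RR O) (gm D h) j (ex k)
    · exact Or.inr (hd.mono a1)
    · exact Or.inl (by rw [hz.JJ_eq, hJ]; exact ⟨hj.mono a2, hd⟩)

theorem main (O : Str → Bool) : ∃ L f, L ∉ NPIn O ∧ PolyOptimalIn O f L ∧
    ∃ c : ℕ, ∀ x, L x = true → ∃ w, f w = x ∧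
      w.length ≤ (x.length + 2) ^ (c * (Nat.log 2 (Nat.log 2 x.length) + 1)) := by
  obtain ⟨g, hg⟩ := exists_not_np O
  exact ⟨_, _, hg, optimal dec_RR, _, fun _ h => quasi h⟩

/-- With the empty oracle `PolyTimeIn` is ordinary polynomial time. -/
theorem polyTimeIn_empty {α β : Type} [N487b59b3 α] [N487b59b3 β] {f : α → β} :
    PolyTimeIn (fun _ => false) f ↔ IsPolyTime f := by
  refine ⟨?_, fun h => (Flex.of_pt (PT.of_isPolyTime h)).polyTimeIn⟩
  rintro ⟨q, o, p, -, ho, h⟩
  have e : ∀ (a : α) j, oans (fun _ => false) q a j = List.replicate j false := fun a j => by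
    induction j with
    | zero => rfl
    | succ j ih => rw [oans, ih, List.replicate_succ']
  have h1 := PT.of_isPolyTime ho
  have h2 : PT fun a : α => o (a, List.replicate (p.eval (sz a)) false) := by fun_prop
  exact (h2.congr fun a => by rw [h a, e]; rfl).isPolyTime

/-- With the empty oracle `NPIn` is `NP`. -/
theorem npIn_empty : NPIn (fun _ => false) = NP := by
  simp only [NPIn, NP, polyTimeIn_empty]

end Pool.Agent.P.MP_435dae_lc.Opt
end
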